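import Pool.Agent.NLE.EInt
import Pool.Agent.NLK.Final

/-!
# NLS-AllN: all long solutions have prime length

Only finitely many solutions have composite length (`NLE.comp_finite_int`), so `n` is prime for `n ≥ n1`.
-/

namespace Pool.Agent.NLS

/-- For `n ≥ n1` every solution of `y ^ m (x - 1) = x ^ n - 1`, `x, y, m > 1`, has prime length `n`. -/
theorem prime_length : ∃ n1 : ℕ, ∀ x y m n : ℕ, n1 ≤ n → 1 < x → 1 < y → 1 < m →
    y ^ m * (x - 1) = x ^ n - 1 → n.Prime := by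
  have hfin := Pool.Agent.NLE.comp_finite_int Pool.Agent.NLK.cube_bounded
  obtain ⟨B, hB⟩ := (hfin.image fun t : ℤ × ℤ × ℕ × ℕ => t.2.2.2).bddAbove
  refine ⟨B + 3, fun x y m n hn hx hy hm h => ?_⟩
  by_contra hp
  have hx1 : 1 ≤ x := hx.le
  have hxn : 1 ≤ x ^ n := Nat.one_le_pow _ _ (by omega)
  have hZ : (y : ℤ) ^ m * ((x : ℤ) - 1) = (x : ℤ) ^ n - 1 := by
    have h' := congrArg (fun k : ℕ => (k : ℤ)) h
    push_cast [hx1, hxn] at h'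
    exact h'
  have hmem : n ∈ (fun t : ℤ × ℤ × ℕ × ℕ => t.2.2.2) ''
      {t : ℤ × ℤ × ℕ × ℕ | 1 < t.1 ∧ 1 < t.2.1 ∧ 1 < t.2.2.1 ∧ 2 < t.2.2.2 ∧ ¬ t.2.2.2.Prime ∧
        t.2.1 ^ t.2.2.1 * (t.1 - 1) = t.1 ^ t.2.2.2 - 1} := by
    refine ⟨((x : ℤ), (y : ℤ), m, n), ⟨?_, ?_, hm, by show 2 < n; omega, hp, hZ⟩, rfl⟩
    · show (1 : ℤ) < (x : ℤ)
      exact_mod_cast hx
    · show (1 : ℤ) < (y : ℤ)
      exact_mod_cast hy
  have := hB hmem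
  omega

end Pool.Agent.NLS
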