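import Pool.Agent.NLS.UnitRt

/-!
# NLS-Ang: the arguments are small

`τ (al a) = (x - w) / (x - w⁻¹)`, `‖w‖ = 1`, so `‖τ (al a) - 1‖ ≤ 2 / (x - 1) ≤ 4 / x`, and for `‖z‖ = 1` one has
`|arg z| ≤ (π / 2) ‖z - 1‖`. So the argument of `τ (al a)` is at most `7 / x` in absolute value.
-/

open NumberField Finset
open Pool.Agent.AAP Pool.Agent.Helper7.HU

namespace Pool.Agent.NLS

variable {n : ℕ} [Fact n.Prime] {K : Type} [Field K] [NumberField K] [IsCyclotomicExtension {n} ℚ K]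
  {q x : ℕ}

private theorem ang_norm_zp (τ : K →+* ℂ) (a : (ZMod n)ˣ) :
    ‖τ (algebraMap (𝓞 K) K (zp n K a))‖ = 1 := by
  have h1 : τ (algebraMap (𝓞 K) K (zp n K a)) ^ n = 1 := by
    rw [← map_pow, ← map_pow, zp_pow_n, map_one, map_one]
  exact Complex.norm_eq_one_of_pow_eq_one h1 (Fact.out : n.Prime).ne_zero

private theorem ang_lin (τ : K →+* ℂ) (a : (ZMod n)ˣ) :
    τ ((lin n K x a : 𝓞 K) : K) = (x : ℂ) - τ (algebraMap (𝓞 K) K (zp n K a)) := by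
  change τ (algebraMap (𝓞 K) K ((x : 𝓞 K) - zp n K a)) = _
  rw [map_sub (algebraMap (𝓞 K) K), map_sub τ, map_natCast (algebraMap (𝓞 K) K), map_natCast τ]

private theorem ang_one (hx : 1 < x) (τ : K →+* ℂ) (a : (ZMod n)ˣ) :
    ‖τ (al n K x a) - 1‖ ≤ 4 / x := by
  have hx' : (2 : ℝ) ≤ x := by exact_mod_cast hx
  set w : ℂ := τ (algebraMap (𝓞 K) K (zp n K a)) with hw
  set v : ℂ := τ (algebraMap (𝓞 K) K (zp n K (-a))) with hv
  have h1 : ‖w‖ = 1 := ang_norm_zp τ a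
  have h2 : ‖v‖ = 1 := ang_norm_zp τ (-a)
  have h3 : (x : ℝ) - 1 ≤ ‖(x : ℂ) - v‖ := by
    have h := norm_sub_norm_le (x : ℂ) v
    rw [h2, Complex.norm_natCast] at h
    exact h
  have h4 : (x : ℂ) - v ≠ 0 := by
    intro h
    rw [h, norm_zero] at h3
    linarith
  have h5 : τ (al n K x a) - 1 = (v - w) / ((x : ℂ) - v) := by
    unfold al
    rw [map_div₀, ang_lin, ang_lin, ← hw, ← hv, div_sub_one h4]
    congr 1
    ring
  have h6 : ‖v - w‖ ≤ 2 := by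
    have h := norm_sub_le v w
    rw [h1, h2] at h
    linarith
  rw [h5, norm_div]
  calc ‖v - w‖ / ‖(x : ℂ) - v‖ ≤ 2 / ((x : ℝ) - 1) :=
        div_le_div₀ (by norm_num) h6 (by linarith) h3
    _ ≤ 4 / x := by
        rw [div_le_div_iff₀ (by linarith) (by linarith)]
        linarith

theorem arg_al (hx : 1 < x) (τ : K →+* ℂ) (a : (ZMod n)ˣ) :
    |Complex.arg (τ (al n K x a))| ≤ 7 / x := by
  have hx' : (2 : ℝ) ≤ x := by exact_mod_cast hx
  have h0 : τ (al n K x a) ≠ 0 := (_root_.map_ne_zero τ).2 (al_ne_zero hx a)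
  have h1 := Complex.angle_le_mul_norm_sub (norm_al hx τ a) norm_one
  rw [Complex.angle_one_right h0] at h1
  refine h1.trans ?_
  have h2 := ang_one hx τ a
  have h3 : Real.pi / 2 * ‖τ (al n K x a) - 1‖ ≤ Real.pi / 2 * (4 / x) :=
    mul_le_mul_of_nonneg_left h2 (by positivity)
  refine h3.trans ?_
  have h4 : Real.pi / 2 * (4 / x) = 2 * Real.pi / x := by ring
  rw [h4]
  have h5 := Real.pi_lt_d2
  exact div_le_div_of_nonneg_right (by linarith) (by linarith)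

theorem ang_le (hx : 1 < x) (τ : K →+* ℂ) {s : H n → ℤ} {r : ℕ} (hs : ∀ e, |s e| ≤ r) :
    |ang n K x τ s| ≤ 7 * (H n).card * r / x := by
  have hx' : (2 : ℝ) ≤ x := by exact_mod_cast hx
  unfold ang
  refine (Finset.abs_sum_le_sum_abs _ _).trans ?_
  have h1 : ∀ e ∈ (Finset.univ : Finset (H n)),
      |(s e : ℝ) * Complex.arg (τ (al n K x (e : (ZMod n)ˣ)))| ≤ (r : ℝ) * (7 / x) := by
    intro e _
    rw [abs_mul]
    refine mul_le_mul ?_ (arg_al hx τ _) (abs_nonneg _) (Nat.cast_nonneg _)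
    have := hs e
    exact_mod_cast this
  refine (Finset.sum_le_card_nsmul _ _ _ h1).trans ?_
  rw [Finset.card_univ, Fintype.card_coe, nsmul_eq_mul]
  apply le_of_eq
  ring

theorem root_near (hx : 1 < x) (hq : 1 ≤ q) {T : Finset (K →+* ℂ)} {s : H n → ℤ} {b : K}
    (hb : IsRt n q x T s b) {r : ℕ} (hs : ∀ e, |s e| ≤ r) {τ : K →+* ℂ} (hτ : τ ∈ T) :
    ‖τ b - 1‖ ≤ 7 * (H n).card * r / (x * q) := by
  have hq' : (1 : ℝ) ≤ q := by exact_mod_cast hq
  rw [hb.2 τ hτ, mul_comm]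
  refine Real.norm_exp_I_mul_ofReal_sub_one_le.trans ?_
  rw [Real.norm_eq_abs, abs_div, Nat.abs_cast, ← div_div]
  exact div_le_div_of_nonneg_right (ang_le hx τ hs) (by linarith)

theorem root_norm (hx : 1 < x) (hq : 1 ≤ q) {s : H n → ℤ} {b : K} (hb : b ^ q = pr n K x s)
    (τ : K →+* ℂ) : ‖τ b‖ = 1 := by
  have h1 : ‖τ b‖ ^ q = 1 := by
    rw [← norm_pow, ← map_pow, hb, norm_pr hx]
  exact (pow_eq_one_iff_of_nonneg (norm_nonneg _) (by omega)).1 h1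

end Pool.Agent.NLS
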