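import Mathlib

/-!
# NLS-Cof: expansion of the determinant along the last column

The cofactors of the last column are compatible with ring homomorphisms, orthogonal to the other
columns and bounded by the Leibniz formula.
-/

open Finset

namespace Pool.Agent.NLS

private def cofB {R : Type} (N : ℕ) (A : Fin (N + 1) → ℕ → R) (i : Fin (N + 1)) :
    Matrix (Fin N) (Fin N) R := Matrix.of fun a b => A (i.succAbove a) (b : ℕ)

private def cofC {R : Type} [CommRing R] (N : ℕ) (A : Fin (N + 1) → ℕ → R) (i : Fin (N + 1)) : R :=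
  (-1) ^ ((i : ℕ) + N) * (cofB N A i).det

private theorem cof_exp {R : Type} [CommRing R] (N : ℕ) (A : Fin (N + 1) → ℕ → R) (S : Type)
    [CommRing S] (f : R →+* S) (b : Fin (N + 1) → S) :
    (Matrix.of fun i j : Fin (N + 1) => if (j : ℕ) < N then f (A i (j : ℕ)) else b i).det =
      ∑ i, f (cofC N A i) * b i := by
  rw [Matrix.det_succ_column _ (Fin.last N)]
  refine Finset.sum_congr rfl fun i _ => ?_
  have h1 : (Matrix.of fun i j : Fin (N + 1) => if (j : ℕ) < N then f (A i (j : ℕ)) else b i) i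
      (Fin.last N) = b i := by
    simp
  have h2 : ((Matrix.of fun i j : Fin (N + 1) => if (j : ℕ) < N then f (A i (j : ℕ)) else
      b i).submatrix i.succAbove (Fin.last N).succAbove) = f.mapMatrix (cofB N A i) := by
    ext a c
    simp [cofB]
  rw [h1, h2, ← RingHom.map_det, cofC, map_mul, map_pow, map_neg, map_one, Fin.val_last]
  ring

private theorem cof_norm {N : ℕ} (B : Matrix (Fin N) (Fin N) ℂ) (W : ℝ) (hW : 0 ≤ W)
    (h : ∀ a b, ‖B a b‖ ≤ W ^ (b : ℕ)) : ‖B.det‖ ≤ (N.factorial : ℝ) * W ^ (N * (N - 1) / 2) := by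
  rw [Matrix.det_apply']
  refine (norm_sum_le _ _).trans ?_
  have h1 : ∀ σ ∈ (Finset.univ : Finset (Equiv.Perm (Fin N))),
      ‖((Equiv.Perm.sign σ : ℤ) : ℂ) * ∏ i, B (σ i) i‖ ≤ W ^ (N * (N - 1) / 2) := by
    intro σ _
    have h2 : ‖((Equiv.Perm.sign σ : ℤ) : ℂ)‖ = 1 := by
      rcases Int.units_eq_one_or (Equiv.Perm.sign σ) with h | h <;> rw [h] <;> simp
    rw [norm_mul, h2, one_mul, norm_prod]
    calc ∏ i, ‖B (σ i) i‖ ≤ ∏ i : Fin N, W ^ (i : ℕ) :=
          Finset.prod_le_prod (fun i _ => norm_nonneg _) fun i _ => h _ _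
      _ = W ^ (N * (N - 1) / 2) := by
          rw [Finset.prod_pow_eq_pow_sum, Fin.sum_univ_eq_sum_range (fun i => i) N,
            Finset.sum_range_id]
  refine (Finset.sum_le_card_nsmul _ _ _ h1).trans ?_
  rw [Finset.card_univ, Fintype.card_perm, Fintype.card_fin, nsmul_eq_mul]

theorem cofactor {R : Type} [CommRing R] (N : ℕ) (A : Fin (N + 1) → ℕ → R) :
    ∃ c : Fin (N + 1) → R,
      (∀ (S : Type) [CommRing S] (f : R →+* S) (b : Fin (N + 1) → S),
        (Matrix.of fun i j : Fin (N + 1) => if (j : ℕ) < N then f (A i (j : ℕ)) else b i).det =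
          ∑ i, f (c i) * b i) ∧
      (∀ j < N, ∑ i, c i * A i j = 0) ∧
      (∀ (f : R →+* ℂ) (W : ℝ), 0 ≤ W → (∀ i, ∀ j < N, ‖f (A i j)‖ ≤ W ^ j) →
        ∀ i, ‖f (c i)‖ ≤ (N.factorial : ℝ) * W ^ (N * (N - 1) / 2)) := by
  refine ⟨cofC N A, fun S _ f b => cof_exp N A S f b, ?_, ?_⟩
  · intro j hj
    have h1 := cof_exp N A R (RingHom.id R) (fun i => A i j)
    simp only [RingHom.id_apply] at h1
    rw [← h1]
    refine Matrix.det_zero_of_column_eq (i := (⟨j, by omega⟩ : Fin (N + 1))) (j := Fin.last N)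
      ?_ ?_
    · intro h
      have := congrArg Fin.val h
      simp at this
      omega
    · intro k
      simp [hj]
  · intro f W hW h i
    rw [cofC, map_mul, map_pow, map_neg, map_one, norm_mul, norm_pow, norm_neg, norm_one, one_pow,
      one_mul, RingHom.map_det]
    refine cof_norm _ W hW fun a b => ?_
    simpa [cofB] using h (i.succAbove a) (b : ℕ) b.2

end Pool.Agent.NLS
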