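import Mathlib

/-!
# `n` does not divide `x - 1`

For an odd prime `n` dividing `x - 1` the exponent of `n` in `x ^ n - 1` is one more than its
exponent in `x - 1`, so `q` times the exponent of `n` in `y` would be `1`.
-/

namespace Pool.Agent.NLS

theorem geom_eq {n q x y : ℕ} (hx : 1 < x) (h : y ^ q * (x - 1) = x ^ n - 1) :
    y ^ q = ∑ i ∈ Finset.range n, x ^ i := by
  rw [Nat.geomSum_eq hx n, ← h, Nat.mul_div_cancel _ (by omega)]

theorem not_dvd {n q x y : ℕ} (hn : n.Prime) (hn3 : 3 ≤ n) (hq : 2 ≤ q) (hx : 1 < x)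
    (h : y ^ q * (x - 1) = x ^ n - 1) : ¬ n ∣ x - 1 := by
  intro hd
  have : Fact n.Prime := ⟨hn⟩
  have hodd : Odd n := hn.odd_of_ne_two (by omega)
  have hnx : ¬ n ∣ x := by
    intro hx'
    have h1 : n ∣ x - (x - 1) := Nat.dvd_sub hx' hd
    rw [Nat.sub_sub_self hx.le] at h1
    exact hn.one_lt.ne' (Nat.dvd_one.1 h1)
  have hy : y ≠ 0 := by
    rintro rfl
    rw [zero_pow (by omega), zero_mul] at h
    have : 1 < x ^ n := Nat.one_lt_pow (by omega) hx
    omega
  have h1 := padicValNat.pow_sub_pow (p := n) (x := x) (y := 1) hodd hx hd hnx (n := n) (by omega)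
  rw [one_pow, ← h, padicValNat.mul (pow_ne_zero _ hy) (by omega), padicValNat.pow,
    padicValNat_self] at h1
  have h2 : q * padicValNat n y = 1 := by omega
  have h3 : q = 1 := Nat.eq_one_of_mul_eq_one_right h2
  omega

/-- the size of `y`: `2 ^ q ≤ y ^ q < x ^ n` -/
theorem y_pow_lt {n q x y : ℕ} (hx : 1 < x) (hn : 1 ≤ n) (h : y ^ q * (x - 1) = x ^ n - 1) :
    y ^ q < x ^ n := by
  have h1 : 1 < x ^ n := Nat.one_lt_pow (by omega) hx
  have h2 : y ^ q * 1 ≤ y ^ q * (x - 1) := Nat.mul_le_mul_left _ (by omega)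
  omega

end Pool.Agent.NLS
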