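import Pool.Agent.NLS.Defs

/-!
# Complex embeddings

The field `K = ℚ(ζ_n)` is totally complex, so it has `(n - 1) / 2 = card (H n)` infinite places and
`|N z| = ∏ w(z) ^ 2`. `exists_T`: one embedding for each of `k` infinite places. `norm_le_T`: the
infinite places of the elements of a conjugation free set are distinct.
-/

open NumberField Finset
open Pool.Agent.AAP Pool.Agent.Helper7.HU

namespace Pool.Agent.NLS

variable {n : ℕ} [Fact n.Prime] {K : Type} [Field K] [NumberField K] [IsCyclotomicExtension {n} ℚ K]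

/-- `T` contains at most one of two conjugate embeddings -/
def CFree (T : Finset (K →+* ℂ)) : Prop := ∀ τ ∈ T, ComplexEmbedding.conjugate τ ∉ T

variable (n K) in
omit [Fact n.Prime] in
private theorem emb_tc (hn3 : 3 ≤ n) : IsTotallyComplex K :=
  haveI : NeZero n := ⟨by omega⟩
  IsCyclotomicExtension.Rat.isTotallyComplex K (n := n) (by omega)

variable (n K) in
private theorem emb_card (hn3 : 3 ≤ n) :
    Fintype.card (InfinitePlace K) = (H n).card := by
  have := emb_tc n K hn3
  have hp : n.Prime := Fact.out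
  have : NeZero n := ⟨hp.ne_zero⟩
  have h1 := IsTotallyComplex.finrank K
  have h2 := IsCyclotomicExtension.finrank (n := n) K (Polynomial.cyclotomic.irreducible_rat hp.pos)
  rw [Nat.totient_prime hp, h1] at h2
  rw [InfinitePlace.card_eq_nrRealPlaces_add_nrComplexPlaces,
    IsTotallyComplex.nrRealPlaces_eq_zero K, zero_add, card_H n (by omega)]
  omega

variable (n K) in
theorem exists_T (hn3 : 3 ≤ n) {k : ℕ} (hk : k ≤ (H n).card) :
    ∃ T : Finset (K →+* ℂ), T.card = k ∧ CFree T := by
  classical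
  have htc := emb_tc n K hn3
  rw [← emb_card n K hn3, ← Finset.card_univ] at hk
  obtain ⟨S, -, hS⟩ := Finset.exists_subset_card_eq hk
  have hinj : Function.Injective (fun w : InfinitePlace K => w.embedding) := by
    intro w w' h
    have h1 : w.embedding = w'.embedding := h
    rw [← InfinitePlace.mk_embedding w, ← InfinitePlace.mk_embedding w', h1]
  refine ⟨S.image fun w => w.embedding, by rw [Finset.card_image_of_injective _ hinj, hS], ?_⟩
  intro τ hτ hτ'
  obtain ⟨w, -, rfl⟩ := Finset.mem_image.1 hτ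
  obtain ⟨w', -, hw'⟩ := Finset.mem_image.1 hτ'
  have h1 : w'.embedding = ComplexEmbedding.conjugate w.embedding := hw'
  have h2 : w' = w := by
    rw [← InfinitePlace.mk_embedding w', h1, InfinitePlace.mk_conjugate_eq,
      InfinitePlace.mk_embedding]
  rw [h2] at h1
  exact IsTotallyComplex.complexEmbedding_not_isReal w.embedding
    (ComplexEmbedding.isReal_iff.2 h1.symm)

theorem norm_le_T (hn3 : 3 ≤ n) {T : Finset (K →+* ℂ)} (hT : CFree T) (z : K) {A B : ℝ}
    (hA : ∀ τ ∈ T, ‖τ z‖ ≤ A) (hB : ∀ τ : K →+* ℂ, ‖τ z‖ ≤ B) :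
    T.card ≤ (H n).card ∧
    |((Algebra.norm ℚ z : ℚ) : ℝ)| ≤ A ^ (2 * T.card) * B ^ (2 * ((H n).card - T.card)) := by
  classical
  have htc := emb_tc n K hn3
  have hinj : Set.InjOn (fun τ : K →+* ℂ => InfinitePlace.mk τ) T := by
    intro τ hτ τ' hτ' h
    rcases InfinitePlace.mk_eq_iff.1 h with h1 | h1
    · exact h1
    · exact absurd (h1 ▸ hτ') (hT τ hτ)
  have hcard : (T.image fun τ : K →+* ℂ => InfinitePlace.mk τ).card = T.card :=
    Finset.card_image_of_injOn hinj
  have hle : T.card ≤ (H n).card := by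
    rw [← hcard, ← emb_card n K hn3]
    exact Finset.card_le_univ _
  refine ⟨hle, ?_⟩
  have h1 := InfinitePlace.prod_eq_abs_norm z
  rw [show |((Algebra.norm ℚ z : ℚ) : ℝ)| = ((|Algebra.norm ℚ z| : ℚ) : ℝ) from
    (Rat.cast_abs _).symm, ← h1]
  have hcompl : (T.image fun τ : K →+* ℂ => InfinitePlace.mk τ)ᶜ.card =
      (H n).card - T.card := by
    rw [Finset.card_compl, hcard, emb_card n K hn3]
  rw [← Finset.prod_mul_prod_compl (T.image fun τ : K →+* ℂ => InfinitePlace.mk τ)]
  have e1 : ∏ w ∈ T.image (fun τ : K →+* ℂ => InfinitePlace.mk τ), w z ^ w.mult ≤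
      A ^ (2 * T.card) := by
    rw [pow_mul, ← hcard, ← Finset.prod_const]
    refine Finset.prod_le_prod (fun w _ => pow_nonneg (apply_nonneg w z) _) fun w hw => ?_
    obtain ⟨τ, hτ, rfl⟩ := Finset.mem_image.1 hw
    rw [IsTotallyComplex.mult_eq, InfinitePlace.apply]
    exact pow_le_pow_left₀ (norm_nonneg _) (hA τ hτ) 2
  have e2 : ∏ w ∈ (T.image fun τ : K →+* ℂ => InfinitePlace.mk τ)ᶜ, w z ^ w.mult ≤
      B ^ (2 * ((H n).card - T.card)) := by
    rw [pow_mul, ← hcompl, ← Finset.prod_const]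
    refine Finset.prod_le_prod (fun w _ => pow_nonneg (apply_nonneg w z) _) fun w _ => ?_
    rw [IsTotallyComplex.mult_eq, ← InfinitePlace.norm_embedding_eq]
    exact pow_le_pow_left₀ (norm_nonneg _) (hB _) 2
  exact mul_le_mul e1 e2 (Finset.prod_nonneg fun w _ => pow_nonneg (apply_nonneg w z) _)
    ((even_two_mul _).pow_nonneg _)

end Pool.Agent.NLS
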