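import Pool.Agent.NLS.Cop

/-!
# NLS-NormB: lower bound for the norm of a combination of roots

For `a ∈ G` let `𝔞_a ^ q = (lin a)`, `N 𝔞_a = y`. The ideal `B = ∏_e 𝔞_{-e} ^ (P e) * 𝔞_e ^ (N e)` has the
norm `y ^ ∑ (P e + N e)`, and `B b_i ⊆ 𝓞 K` for all `i`. So the fractional ideal `B z`,
`z = ∑ c_i b_i ≠ 0`, is a nonzero ideal of `𝓞 K`, and its norm is at least `1`.
-/

open NumberField Finset
open Pool.Agent.AAP Pool.Agent.Helper7.HU
open scoped nonZeroDivisors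

namespace Pool.Agent.NLS

variable {n : ℕ} [Fact n.Prime] {K : Type} [Field K] [NumberField K] [IsCyclotomicExtension {n} ℚ K]
  {q x y : ℕ}

variable (K) in
private theorem normb_root (S : Sol n q x y) : ∃ A : (ZMod n)ˣ → Ideal (𝓞 K),
    (∀ a, A a ^ q = Ideal.span {lin n K x a}) ∧ ∀ a, Ideal.absNorm (A a) = y := by
  choose A hA using fun a => exists_root (K := K) S a
  refine ⟨A, hA, fun a => ?_⟩
  have h1 := absNorm_lin (K := K) S a
  rw [← hA a, map_pow] at h1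
  exact Nat.pow_left_injective S.hq.ne_zero h1

private theorem normb_loc {u v : K} (hu : u ≠ 0) (hv : v ≠ 0) {P N : ℕ} {s : ℤ} (h1 : -(N : ℤ) ≤ s)
    (h2 : s ≤ P) : u ^ P * v ^ N * (v / u) ^ s =
      u ^ ((P : ℤ) - s).toNat * v ^ ((N : ℤ) + s).toNat := by
  have e1 : u ^ ((P : ℤ) - s).toNat = u ^ ((P : ℤ) - s) := by
    rw [← zpow_natCast, Int.toNat_of_nonneg (by omega)]
  have e2 : v ^ ((N : ℤ) + s).toNat = v ^ ((N : ℤ) + s) := by
    rw [← zpow_natCast, Int.toNat_of_nonneg (by omega)]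
  rw [e1, e2, zpow_sub₀ hu, zpow_add₀ hv, div_zpow, zpow_natCast, zpow_natCast]
  ring

theorem norm_lower (S : Sol n q x y) {ι : Type} (I : Finset ι) (s : ι → H n → ℤ) (b : ι → K)
    (c : ι → 𝓞 K) (P N : H n → ℕ) (hs : ∀ i ∈ I, ∀ e, -(N e : ℤ) ≤ s i e ∧ s i e ≤ P e)
    (hb : ∀ i ∈ I, b i ^ q = pr n K x (s i)) (hz : ∑ i ∈ I, ((c i : 𝓞 K) : K) * b i ≠ 0) :
    1 ≤ (y : ℝ) ^ (∑ e, (P e + N e)) *
      |((Algebra.norm ℚ (∑ i ∈ I, ((c i : 𝓞 K) : K) * b i) : ℚ) : ℝ)| := by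
  classical
  obtain ⟨A, hA, hAn⟩ := normb_root K S
  set V : 𝓞 K := ∏ e : H n, (lin n K x (-(e : (ZMod n)ˣ)) ^ P e * lin n K x (e : (ZMod n)ˣ) ^ N e)
    with hV
  set B : Ideal (𝓞 K) := ∏ e : H n, (A (-(e : (ZMod n)ˣ)) ^ P e * A (e : (ZMod n)ˣ) ^ N e) with hB
  have hBq : B ^ q = Ideal.span {V} := by
    rw [hB, ← Finset.prod_pow, hV, ← Ideal.prod_span_singleton]
    refine Finset.prod_congr rfl fun e _ => ?_
    rw [mul_pow, ← pow_mul, ← pow_mul, mul_comm (P e), mul_comm (N e), pow_mul, pow_mul, hA, hA,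
      Ideal.span_singleton_pow, Ideal.span_singleton_pow, Ideal.span_singleton_mul_span_singleton]
  have hBn : Ideal.absNorm B = y ^ (∑ e, (P e + N e)) := by
    rw [hB, map_prod, ← Finset.prod_pow_eq_pow_sum]
    refine Finset.prod_congr rfl fun e _ => ?_
    rw [map_mul, map_pow, map_pow, hAn, hAn, pow_add]
  have hVint : ∀ i ∈ I, ∃ W : 𝓞 K, algebraMap (𝓞 K) K V * pr n K x (s i) =
      algebraMap (𝓞 K) K W := by
    intro i hi
    refine ⟨∏ e : H n, (lin n K x (-(e : (ZMod n)ˣ)) ^ ((P e : ℤ) - s i e).toNat *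
      lin n K x (e : (ZMod n)ˣ) ^ ((N e : ℤ) + s i e).toNat), ?_⟩
    rw [hV, map_prod, map_prod, pr, ← Finset.prod_mul_distrib]
    refine Finset.prod_congr rfl fun e _ => ?_
    rw [map_mul, map_mul, map_pow, map_pow, map_pow, map_pow]
    exact normb_loc (lin_coe_ne_zero S.hx _) (lin_coe_ne_zero S.hx _) (hs i hi e).1 (hs i hi e).2
  have hdb : ∀ i ∈ I, ∀ d ∈ B, IsIntegral ℤ (algebraMap (𝓞 K) K d * b i) := by
    intro i hi d hd
    obtain ⟨W, hW⟩ := hVint i hi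
    have h1 : d ^ q ∈ Ideal.span {V} := by
      rw [← hBq]
      exact Ideal.pow_mem_pow hd q
    obtain ⟨r, hr⟩ := Ideal.mem_span_singleton.1 h1
    apply IsIntegral.of_pow S.hq.pos
    have h2 : (algebraMap (𝓞 K) K d * b i) ^ q = algebraMap (𝓞 K) K (r * W) := by
      rw [mul_pow, hb i hi, ← map_pow, hr, map_mul, map_mul, ← hW]
      ring
    rw [h2]
    exact RingOfIntegers.isIntegral_coe _
  set z := ∑ i ∈ I, ((c i : 𝓞 K) : K) * b i with hzdef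
  have hdz : ∀ d ∈ B, IsIntegral ℤ (algebraMap (𝓞 K) K d * z) := by
    intro d hd
    rw [hzdef, Finset.mul_sum]
    refine IsIntegral.sum _ fun i hi => ?_
    have h1 : algebraMap (𝓞 K) K d * (((c i : 𝓞 K) : K) * b i) =
        ((c i : 𝓞 K) : K) * (algebraMap (𝓞 K) K d * b i) := by ring
    rw [h1]
    exact (RingOfIntegers.isIntegral_coe _).mul (hdb i hi d hd)
  have hB0 : Ideal.absNorm B ≠ 0 := by
    rw [hBn]
    exact pow_ne_zero _ (by have := S.hy; omega)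
  have hB1 : B ≠ ⊥ := fun h => hB0 (by rw [h, Ideal.absNorm_bot])
  have hF : FractionalIdeal.spanSingleton (𝓞 K)⁰ z * (B : FractionalIdeal (𝓞 K)⁰ K) ≤ 1 := by
    rw [FractionalIdeal.spanSingleton_mul_le_iff]
    intro w hw
    obtain ⟨d, hd, rfl⟩ := (FractionalIdeal.mem_coeIdeal _).1 hw
    rw [FractionalIdeal.mem_one_iff]
    have h1 := (IsIntegralClosure.isIntegral_iff (A := 𝓞 K)).1 (hdz d hd)
    obtain ⟨t, ht⟩ := h1
    exact ⟨t, by rw [ht, mul_comm]⟩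
  obtain ⟨J, hJ⟩ := FractionalIdeal.le_one_iff_exists_coeIdeal.1 hF
  have hn := congrArg FractionalIdeal.absNorm hJ
  rw [map_mul, FractionalIdeal.coeIdeal_absNorm, FractionalIdeal.coeIdeal_absNorm,
    FractionalIdeal.absNorm_span_singleton, hBn] at hn
  have hN0 : Algebra.norm ℚ z ≠ 0 := Algebra.norm_ne_zero_iff.2 hz
  have hJ0 : 1 ≤ Ideal.absNorm J := by
    rw [Nat.one_le_iff_ne_zero]
    intro h
    rw [h, Nat.cast_zero] at hn
    have h2 : (0 : ℚ) < |Algebra.norm ℚ z| * ((y ^ (∑ e, (P e + N e)) : ℕ) : ℚ) := by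
      apply mul_pos (abs_pos.2 hN0)
      have := S.hy
      positivity
    rw [← hn] at h2
    exact lt_irrefl _ h2
  have h3 : (1 : ℚ) ≤ |Algebra.norm ℚ z| * ((y ^ (∑ e, (P e + N e)) : ℕ) : ℚ) := by
    rw [← hn]
    exact_mod_cast hJ0
  have h4 : ((1 : ℚ) : ℝ) ≤ ((|Algebra.norm ℚ z| * ((y ^ (∑ e, (P e + N e)) : ℕ) : ℚ) : ℚ) : ℝ) :=
    Rat.cast_le.2 h3
  push_cast at h4
  rw [mul_comm]
  exact h4

end Pool.Agent.NLS
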