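import Mathlib

/-!
# NLS-Pig: points of a lattice in a box

The box `{0..r}^ι` has `(r+1)^m` elements and is covered by the cosets of `Λ`, so some coset contains a set `B` of at least
`(r+1)^m / index` of them. For `p ∈ B` the differences `b - p`, `b ∈ B`, are in `Λ` and satisfy `-p ≤ u ≤ r - p`. `pigeon` follows
from `pigeon_many`: if the set has two elements, one of them is not `0`.
-/

namespace Pool.Agent.NLS

theorem pigeon_many {ι : Type*} [Fintype ι] (Λ : AddSubgroup (ι → ℤ)) (h0 : Λ.index ≠ 0) (r : ℕ) :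
    ∃ (p : ι → ℕ) (X : Finset (ι → ℤ)), (∀ e, p e ≤ r) ∧ (r + 1) ^ Fintype.card ι ≤ X.card * Λ.index ∧
      (0 : ι → ℤ) ∈ X ∧ ∀ s ∈ X, s ∈ Λ ∧ ∀ e, -(p e : ℤ) ≤ s e ∧ s e ≤ (r : ℤ) - p e := by
  classical
  have hFI : Λ.FiniteIndex := ⟨h0⟩
  have hF : Finite ((ι → ℤ) ⧸ Λ) := inferInstance
  have hFt : Fintype ((ι → ℤ) ⧸ Λ) := Fintype.ofFinite _
  set S : Finset (ι → ℕ) := Fintype.piFinset (fun _ => Finset.range (r + 1)) with hS
  have hSc : S.card = (r + 1) ^ Fintype.card ι := by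
    rw [hS, Fintype.card_piFinset]
    simp
  set c : (ι → ℕ) → (ι → ℤ) := fun b e => (b e : ℤ) with hc
  set f : (ι → ℕ) → (ι → ℤ) ⧸ Λ := fun b => QuotientAddGroup.mk (c b) with hf
  have hcard : Fintype.card ((ι → ℤ) ⧸ Λ) = Λ.index := by
    rw [AddSubgroup.index_eq_card, Nat.card_eq_fintype_card]
  have h1 : S.card = ∑ y : (ι → ℤ) ⧸ Λ, (S.filter fun b => f b = y).card :=
    Finset.card_eq_sum_card_fiberwise fun b _ => Finset.mem_coe.2 (Finset.mem_univ (f b))
  obtain ⟨y, _, hy⟩ := Finset.exists_max_image (Finset.univ : Finset ((ι → ℤ) ⧸ Λ))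
    (fun y => (S.filter fun b => f b = y).card) ⟨f 0, Finset.mem_univ _⟩
  set B : Finset (ι → ℕ) := S.filter fun b => f b = y with hB
  have h2 : S.card ≤ B.card * Λ.index := by
    rw [h1, ← hcard, mul_comm, ← smul_eq_mul, ← Finset.card_univ]
    exact Finset.sum_le_card_nsmul _ _ _ fun z hz => hy z hz
  have h3 : 0 < S.card := by
    rw [hSc]
    positivity
  have h4 : B.Nonempty := by
    rw [← Finset.card_pos]
    by_contra h5
    have h6 : B.card = 0 := by omega
    rw [h6, zero_mul] at h2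
    omega
  obtain ⟨p, hp⟩ := h4
  have hmem : ∀ b ∈ B, (∀ e, b e ≤ r) ∧ f b = y := by
    intro b hb
    rw [hB, Finset.mem_filter, hS, Fintype.mem_piFinset] at hb
    refine ⟨fun e => ?_, hb.2⟩
    have := Finset.mem_range.1 (hb.1 e)
    omega
  have hinj : Set.InjOn (fun b => c b - c p) (B : Set (ι → ℕ)) := by
    intro a _ b _ hab
    have h5 : c a = c b := sub_left_injective hab
    funext e
    have h6 := congrFun h5 e
    simp only [hc] at h6
    exact_mod_cast h6
  refine ⟨p, B.image (fun b => c b - c p), (hmem p hp).1, ?_, ?_, ?_⟩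
  · rw [Finset.card_image_of_injOn hinj, ← hSc]
    exact h2
  · exact Finset.mem_image.2 ⟨p, hp, sub_self _⟩
  · intro s hs
    obtain ⟨b, hb, rfl⟩ := Finset.mem_image.1 hs
    refine ⟨?_, fun e => ?_⟩
    · have h5 : f b = f p := (hmem b hb).2.trans (hmem p hp).2.symm
      have h6 := QuotientAddGroup.eq.1 h5
      have h7 := Λ.neg_mem h6
      have h8 : -(-c b + c p) = c b - c p := by abel
      rw [h8] at h7
      exact h7
    · have h5 := (hmem b hb).1 e
      have h6 := (hmem p hp).1 e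
      simp only [hc, Pi.sub_apply]
      constructor <;> omega

theorem pigeon {ι : Type*} [Fintype ι] (Λ : AddSubgroup (ι → ℤ)) (h0 : Λ.index ≠ 0) {r : ℕ}
    (h : Λ.index < (r + 1) ^ Fintype.card ι) : ∃ s ∈ Λ, s ≠ 0 ∧ ∀ e, |s e| ≤ r := by
  classical
  obtain ⟨p, X, hp, hX, h0X, hs⟩ := pigeon_many Λ h0 r
  have h1 : 1 < X.card := by
    by_contra h2
    have h3 : X.card ≤ 1 := by omega
    have h4 : X.card * Λ.index ≤ 1 * Λ.index := Nat.mul_le_mul_right _ h3
    omega
  obtain ⟨s, hsX, hs0⟩ := Finset.exists_mem_ne h1 0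
  refine ⟨s, (hs s hsX).1, hs0, fun e => ?_⟩
  have h2 := (hs s hsX).2 e
  have h3 := hp e
  rw [abs_le]
  constructor <;> omega

end Pool.Agent.NLS
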