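import Pool.Agent.NLS.D0Sol
import Pool.Agent.NLS.Elem

/-!
# NLS-Cop: the numbers `x - ζ ^ a` are coprime `q`-th powers of ideals

The Galois action permutes the numbers `x - ζ ^ a`, their product is the value of the cyclotomic
polynomial at `x`, and two of them generate the unit ideal, because an ideal containing both
contains `ζ - 1`, so it contains `n` and `x - 1`.
-/

open NumberField Finset
open Pool.Agent.AAP Pool.Agent.Helper7.HU

namespace Pool.Agent.NLS.D0

variable {n : ℕ} [Fact n.Prime] {K : Type} [Field K] [NumberField K] [IsCyclotomicExtension {n} ℚ K]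
  {q x y : ℕ}

private theorem cop_coe_lin (x : ℕ) (a : (ZMod n)ˣ) :
    ((lin n K x a : 𝓞 K) : K) = (x : K) - zt n K ^ (a : ZMod n).val := by
  unfold lin zp
  rw [RingOfIntegers.coe_eq_algebraMap, map_sub, map_natCast, map_pow,
    ← RingOfIntegers.coe_eq_algebraMap, coe_zO]

private theorem cop_pow_mod {R : Type} [Monoid R] {z : R} {n : ℕ} (h : z ^ n = 1) (k : ℕ) :
    z ^ (k % n) = z ^ k := by
  conv_rhs => rw [← Nat.mod_add_div k n, pow_add, pow_mul, h, one_pow, mul_one]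

private theorem cop_prim (a : (ZMod n)ˣ) : IsPrimitiveRoot (zp n K a) n := by
  unfold zp
  refine (zO_spec n K).pow_of_coprime _ ?_
  exact ZMod.val_coe_unit_coprime a

theorem smul_lin (g : Gal(K/ℚ)) (a : (ZMod n)ˣ) : g • lin n K x a = lin n K x (gq n K g * a) := by
  apply RingOfIntegers.ext
  have h1 : ((g • lin n K x a : 𝓞 K) : K) = g ((lin n K x a : 𝓞 K) : K) := rfl
  rw [h1, cop_coe_lin, cop_coe_lin, map_sub, map_natCast, map_pow, gq_spec, ← pow_mul,
    Units.val_mul, ZMod.val_mul, cop_pow_mod (zt_spec n K).pow_eq_one]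

theorem prod_lin (S : Sol n q x y) : ∏ a : (ZMod n)ˣ, lin n K x a = (y : 𝓞 K) ^ q := by
  have hn : 0 < n := S.hn.pos
  have : NeZero n := ⟨hn.ne'⟩
  have h1 : (Polynomial.cyclotomic n (𝓞 K)).eval (x : 𝓞 K) = (y : 𝓞 K) ^ q := by
    rw [Polynomial.cyclotomic_prime, Polynomial.eval_finsetSum]
    have h2 := geom_eq S.hx S.eq
    have h3 : (y : 𝓞 K) ^ q = ∑ i ∈ range n, (x : 𝓞 K) ^ i := by exact_mod_cast h2
    rw [h3]
    exact sum_congr rfl fun i _ => by rw [Polynomial.eval_pow, Polynomial.eval_X]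
  rw [← h1, Polynomial.cyclotomic_eq_prod_X_sub_primitiveRoots (zO_spec n K),
    Polynomial.eval_prod]
  refine prod_bij (fun a _ => zp n K a) (fun a _ => ?_) (fun a _ b _ h => zp_inj h)
    (fun μ hμ => ?_) (fun a _ => ?_)
  · exact (mem_primitiveRoots hn).2 (cop_prim a)
  · obtain ⟨i, hi, hc, h⟩ := (zO_spec n K).isPrimitiveRoot_iff.1 ((mem_primitiveRoots hn).1 hμ)
    refine ⟨ZMod.unitOfCoprime i hc, mem_univ _, ?_⟩
    unfold zp
    rw [ZMod.coe_unitOfCoprime, ZMod.val_natCast, Nat.mod_eq_of_lt hi, h]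
  · unfold lin
    rw [Polynomial.eval_sub, Polynomial.eval_X, Polynomial.eval_C]

private theorem cop_isCoprime (S : Sol n q x y) {a b : (ZMod n)ˣ} (h : a ≠ b) :
    IsCoprime (lin n K x a) (lin n K x b) := by
  have hn : 0 < n := S.hn.pos
  have hmem : ∀ c : (ZMod n)ˣ, zp n K c ∈ Polynomial.nthRootsFinset n (1 : 𝓞 K) := fun c =>
    (Polynomial.mem_nthRootsFinset hn 1).2 (zp_pow_n c)
  have h1 : Associated (zO n K - 1) (zp n K b - zp n K a) :=
    (zO_spec n K).nthRootsFinset_pairwise_associated_sub_one_sub_of_prime S.hn (hmem b) (hmem a)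
      (fun e => h (zp_inj e).symm)
  have h2 : zO n K - 1 ∣ zp n K a - 1 :=
    (zO_spec n K).sub_one_dvd_sub S.hn (hmem a) ((Polynomial.mem_nthRootsFinset hn 1).2
      (one_pow n))
  have h3 : zO n K - 1 ∣ (n : 𝓞 K) := (zO_spec n K).sub_one_dvd_natCast S.hn.one_lt
  rw [← Ideal.isCoprime_span_singleton_iff, Ideal.isCoprime_iff_sup_eq, Ideal.eq_top_iff_one]
  set I := Ideal.span {lin n K x a} ⊔ Ideal.span {lin n K x b} with hI
  have ha : lin n K x a ∈ I := Ideal.mem_sup_left (Ideal.mem_span_singleton_self _)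
  have hb : lin n K x b ∈ I := Ideal.mem_sup_right (Ideal.mem_span_singleton_self _)
  have hz : zO n K - 1 ∈ I := by
    have : zp n K b - zp n K a ∈ I := by
      have e : zp n K b - zp n K a = lin n K x a - lin n K x b := by unfold lin; ring
      rw [e]
      exact I.sub_mem ha hb
    obtain ⟨u, hu⟩ := h1.symm
    rw [← hu]
    exact I.mul_mem_right _ this
  have hnI : (n : 𝓞 K) ∈ I := I.mem_of_dvd h3 hz
  have hxI : (x : 𝓞 K) - 1 ∈ I := by
    have e : (x : 𝓞 K) - 1 = lin n K x a + (zp n K a - 1) := by unfold lin; ring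
    rw [e]
    exact I.add_mem ha (I.mem_of_dvd h2 hz)
  have hc : Nat.Coprime n (x - 1) := (Nat.Prime.coprime_iff_not_dvd S.hn).2
    (not_dvd S.hn (by have := S.hn5; omega) (by have := S.hq3; omega) S.hx S.eq)
  have hc' : IsCoprime (n : ℤ) ((x : ℤ) - 1) := by
    have h4 := Nat.isCoprime_iff_coprime.2 hc
    rwa [Nat.cast_sub S.hx.le, Nat.cast_one] at h4
  obtain ⟨u, v, huv⟩ := hc'
  have h5 : (u : 𝓞 K) * (n : 𝓞 K) + (v : 𝓞 K) * ((x : 𝓞 K) - 1) = 1 := by exact_mod_cast huv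
  rw [← h5]
  exact I.add_mem (I.mul_mem_left _ hnI) (I.mul_mem_left _ hxI)

theorem lin_cop (S : Sol n q x y) {a b : (ZMod n)ˣ} (h : a ≠ b) :
    IsCoprime (Ideal.span {lin n K x a}) (Ideal.span {lin n K x b}) :=
  (Ideal.isCoprime_span_singleton_iff _ _).2 (cop_isCoprime S h)

theorem exists_root (S : Sol n q x y) (a : (ZMod n)ˣ) :
    ∃ I : Ideal (𝓞 K), I ^ q = Ideal.span {lin n K x a} := by
  have h1 : ∏ b : (ZMod n)ˣ, Ideal.span {lin n K x b} = Ideal.span {(y : 𝓞 K)} ^ q := by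
    rw [Ideal.prod_span_singleton, prod_lin S, Ideal.span_singleton_pow]
  obtain ⟨d, hd⟩ := Finset.exists_eq_pow_of_mul_eq_pow_of_coprime (s := univ)
    (f := fun b : (ZMod n)ˣ => Ideal.span {lin n K x b})
    (fun i _ j _ hij => lin_cop S hij) h1 a (mem_univ a)
  exact ⟨d, hd.symm⟩

theorem absNorm_lin (S : Sol n q x y) (a : (ZMod n)ˣ) :
    Ideal.absNorm (Ideal.span {lin n K x a}) = y ^ q := by
  have : IsGalois ℚ K := IsCyclotomicExtension.isGalois {n} ℚ K
  rw [Ideal.absNorm_span_singleton]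
  have h1 : (Algebra.norm ℤ (lin n K x a) : ℤ) = (y : ℤ) ^ q := by
    have h2 : algebraMap ℚ K (Algebra.norm ℚ ((lin n K x a : 𝓞 K) : K)) = ((y : 𝓞 K) ^ q : 𝓞 K) := by
      have h5 : ((∏ b : (ZMod n)ˣ, lin n K x b : 𝓞 K) : K) =
          ∏ b : (ZMod n)ˣ, ((lin n K x b : 𝓞 K) : K) := map_prod (algebraMap (𝓞 K) K) _ _
      rw [Algebra.norm_eq_prod_automorphisms, ← prod_lin S, h5]
      refine Fintype.prod_equiv ((gq n K).toEquiv.trans (Equiv.mulRight a)) _ _ fun σ => ?_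
      have h3 : ((σ • lin n K x a : 𝓞 K) : K) = σ ((lin n K x a : 𝓞 K) : K) := rfl
      rw [← h3, smul_lin]
      rfl
    rw [← Algebra.coe_norm_int] at h2
    have h4 : algebraMap ℚ K ((Algebra.norm ℤ (lin n K x a) : ℤ) : ℚ) =
        algebraMap ℚ K (((y : ℤ) ^ q : ℤ) : ℚ) := by
      rw [h2]
      push_cast
      rfl
    exact_mod_cast (algebraMap ℚ K).injective h4
  rw [h1, Int.natAbs_pow, Int.natAbs_natCast]

end Pool.Agent.NLS.D0
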