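import Pool.Agent.NLS.Defs

/-!
# NLS-D0: solutions without the condition `q ≠ n`

The files `D0Cop`, `D0Rows`, `D0NeOne`, `D0NStep` are the files `Cop`, `Rows`, `NeOne`, `NStepG`, whose proofs do not use `q ≠ n`.
-/

namespace Pool.Agent.NLS.D0

/-- a solution of the equation with prime length `n ≥ 5` and prime exponent `q ≥ 3` -/
structure Sol (n q x y : ℕ) : Prop where
  hn : n.Prime
  hq : q.Prime
  hn5 : 5 ≤ n
  hq3 : 3 ≤ q
  hx : 1 < x
  hy : 1 < y
  eq : y ^ q * (x - 1) = x ^ n - 1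

end Pool.Agent.NLS.D0
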