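import Pool.Agent.NLS.Val
import Pool.Agent.NLS.D0Sol
import Pool.Agent.NLS.D0NormB
import Pool.Agent.NLS.Emb
import Pool.Agent.NLS.Cof

/-!
# NLS-NStepG: the product formula for the determinant, for all `N`

The expansion of the determinant along the column of the `b_i` is `∑ c_i b_i`, bounded below by `norm_lower` and above, at every embedding,
by the bounds for the cofactors `c_i`; at the embeddings in `T` the `b_i` may be replaced by the tails of their power series. All
numbers are bounded by powers of `4 q (N + 1)`.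
-/

open NumberField Finset
open Pool.Agent.AAP Pool.Agent.Helper7.HU

namespace Pool.Agent.NLS.D0

private theorem nstepg_fac (N : ℕ) : (N + 1).factorial ≤ (N + 1) ^ N := by
  induction N with
  | zero => simp
  | succ N ih =>
    rw [Nat.factorial_succ, pow_succ']
    exact Nat.mul_le_mul_left _ (ih.trans (Nat.pow_le_pow_left (by omega) N))

private theorem nstepg_small {x N m k M : ℕ} (hx : 1 < x) (hN : 1 ≤ N) (hk : k ≤ m) (h : x ≤ M) :
    (k : ℝ) * Real.log x ≤ 6 * m * N * Real.log M := by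
  have h2 : Real.log x ≤ Real.log M := Real.log_le_log (by positivity) (by exact_mod_cast h)
  have h3 : 0 ≤ Real.log x := Real.log_nonneg (by exact_mod_cast hx.le)
  have h5 : (k : ℝ) ≤ m := by exact_mod_cast hk
  have h6 : (1 : ℝ) ≤ N := by exact_mod_cast hN
  have h7 : (0 : ℝ) ≤ m := by positivity
  calc (k : ℝ) * Real.log x ≤ m * Real.log x := mul_le_mul_of_nonneg_right h5 h3
    _ ≤ m * Real.log M := mul_le_mul_of_nonneg_left h2 h7
    _ ≤ m * (6 * N * Real.log M) := by
      refine mul_le_mul_of_nonneg_left ?_ h7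
      nlinarith
    _ = 6 * m * N * Real.log M := by ring

/-- the numerical part -/
private theorem nstepg_num {q x y n N r m k M : ℕ} (hq : 2 ≤ q) (hM : 1 ≤ M) (hx : 1 < x) (hy : 1 < y) (hN : 1 ≤ N)
    (hk : k ≤ m) (hyx : y ^ q < x ^ n) (h3 : 2 * m * r * n ≤ k * N * q) {U V : ℝ} (hU0 : 0 < U) (hV0 : 0 < V)
    (hU : U ≤ (M : ℝ) ^ (N + 3 * (N * (N - 1) / 2))) (hV : V ≤ (M : ℝ) ^ (N + 1))
    (h : 1 ≤ (y : ℝ) ^ (2 * r * m) * ((U * (V / (x : ℝ) ^ N)) ^ (2 * k) * U ^ (2 * (m - k)))) :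
    (k : ℝ) * Real.log x ≤ 6 * m * N * Real.log M := by
  have hx0 : (0 : ℝ) < x := by positivity
  have hy0 : (0 : ℝ) < y := by positivity
  have hq0 : (0 : ℝ) < q := by positivity
  have hlx : 0 ≤ Real.log x := Real.log_nonneg (by exact_mod_cast hx.le)
  have hly : 0 ≤ Real.log y := Real.log_nonneg (by exact_mod_cast hy.le)
  have hlq : 0 ≤ Real.log M := Real.log_nonneg (by exact_mod_cast hM)
  have e1 : (U * (V / (x : ℝ) ^ N)) ^ (2 * k) * U ^ (2 * (m - k)) = U ^ (2 * m) * (V / (x : ℝ) ^ N) ^ (2 * k) := by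
    have : 2 * m = 2 * k + 2 * (m - k) := by omega
    rw [this, pow_add, mul_pow]
    ring
  rw [e1] at h
  have h4 := Real.log_nonneg h
  rw [Real.log_mul (by positivity) (by positivity), Real.log_mul (by positivity) (by positivity), Real.log_pow, Real.log_pow, Real.log_pow,
    Real.log_div (by positivity) (by positivity), Real.log_pow] at h4
  push_cast at h4
  have h5 : Real.log U ≤ (N + 3 * (N * (N - 1) / 2) : ℕ) * Real.log M := by
    rw [← Real.log_pow]
    exact Real.log_le_log hU0 hU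
  have h6 : Real.log V ≤ (N + 1 : ℕ) * Real.log M := by
    rw [← Real.log_pow]
    exact Real.log_le_log hV0 hV
  have h7 : (q : ℝ) * Real.log y ≤ n * Real.log x := by
    rw [← Real.log_pow, ← Real.log_pow]
    exact Real.log_le_log (by positivity) (by exact_mod_cast hyx.le)
  have h8 : 2 * (r : ℝ) * m * Real.log y ≤ k * N * Real.log x := by
    have h9 : (2 * (m : ℝ) * r * n) ≤ k * N * q := by exact_mod_cast h3
    have h10 : 2 * (r : ℝ) * m * Real.log y * q ≤ k * N * Real.log x * q := by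
      calc 2 * (r : ℝ) * m * Real.log y * q = 2 * r * m * (q * Real.log y) := by ring
        _ ≤ 2 * r * m * (n * Real.log x) := mul_le_mul_of_nonneg_left h7 (by positivity)
        _ = (2 * m * r * n) * Real.log x := by ring
        _ ≤ (k * N * q) * Real.log x := mul_le_mul_of_nonneg_right h9 hlx
        _ = k * N * Real.log x * q := by ring
    exact le_of_mul_le_mul_right h10 hq0
  have h9 : ((N * (N - 1) / 2 : ℕ) : ℝ) * 2 ≤ N * (N - 1) := by
    have : N * (N - 1) / 2 * 2 ≤ N * (N - 1) := Nat.div_mul_le_self _ _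
    have h10 : ((N * (N - 1) / 2 * 2 : ℕ) : ℝ) ≤ ((N * (N - 1) : ℕ) : ℝ) := by exact_mod_cast this
    rw [Nat.cast_mul, Nat.cast_mul, Nat.cast_sub hN] at h10
    exact_mod_cast h10
  set e : ℝ := ((N * (N - 1) / 2 : ℕ) : ℝ) with he
  have h5' : Real.log U ≤ (N + 3 * e) * Real.log M := by
    refine h5.trans (le_of_eq ?_)
    rw [he]
    push_cast
    ring
  have h6' : Real.log V ≤ (N + 1) * Real.log M := by
    refine h6.trans (le_of_eq ?_)
    push_cast
    ring
  have hk' : (k : ℝ) ≤ m := by exact_mod_cast hk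
  have hN' : (1 : ℝ) ≤ N := by exact_mod_cast hN
  have hm0 : (0 : ℝ) ≤ m := by positivity
  have hk0 : (0 : ℝ) ≤ k := by positivity
  have h10 : (k : ℝ) * N * Real.log x ≤ 2 * m * Real.log U + 2 * k * Real.log V := by
    linarith
  have h11 : 2 * (m : ℝ) * Real.log U ≤ 2 * m * ((N + 3 * e) * Real.log M) := mul_le_mul_of_nonneg_left h5' (by positivity)
  have h12 : 2 * (k : ℝ) * Real.log V ≤ 2 * m * ((N + 1) * Real.log M) := by
    calc 2 * (k : ℝ) * Real.log V ≤ 2 * k * ((N + 1) * Real.log M) := mul_le_mul_of_nonneg_left h6' (by positivity)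
      _ ≤ 2 * m * ((N + 1) * Real.log M) := mul_le_mul_of_nonneg_right (by linarith) (by positivity)
  have h13 : (N : ℝ) + 3 * e + (N + 1) ≤ 3 * N * N := by nlinarith
  have h14 : 2 * (m : ℝ) * (((N : ℝ) + 3 * e + (N + 1)) * Real.log M) ≤ 2 * m * ((3 * N * N) * Real.log M) :=
    mul_le_mul_of_nonneg_left (mul_le_mul_of_nonneg_right h13 hlq) (by positivity)
  have h15 : (k : ℝ) * Real.log x * N ≤ 6 * m * N * Real.log M * N := by
    nlinarith
  exact le_of_mul_le_mul_right h15 (by linarith)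

theorem norm_stepG {n : ℕ} [Fact n.Prime] {K : Type} [Field K] [NumberField K]
    [IsCyclotomicExtension {n} ℚ K] {q x y : ℕ} (S : Sol n q x y) {T : Finset (K →+* ℂ)}
    (hT : CFree T) {N r : ℕ} (hN : 1 ≤ N) (hT1 : 1 ≤ T.card)
    (p : H n → ℕ) (hp : ∀ e, p e ≤ r) (v : Fin (N + 1) → (H n → ℤ)) (b : Fin (N + 1) → K)
    (hb : ∀ i, IsRt n q x T (v i) (b i))
    (hv : ∀ i e, -(2 * p e : ℤ) ≤ v i e ∧ v i e ≤ 2 * (r : ℤ) - 2 * p e)
    (hdet : (Matrix.of fun i j : Fin (N + 1) =>
      if (j : ℕ) < N then ((Qj n K q (v i) (j : ℕ) : 𝓞 K) : K) else b i).det ≠ 0)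
    (h3 : 2 * (H n).card * r * n ≤ T.card * N * q) :
    (T.card : ℝ) * Real.log x ≤ 8 * (H n).card * N * Real.log (4 * q * (N + 1)) := by
  have hn5 := S.hn5
  have hq3' := S.hq3
  have hMq : 1 ≤ 4 * q * (N + 1) := Nat.mul_pos (by omega) (by omega)
  suffices hsuff : (T.card : ℝ) * Real.log x ≤ 6 * (H n).card * N * Real.log ((4 * q * (N + 1) : ℕ) : ℝ) by
    refine hsuff.trans ?_
    have h0 : 0 ≤ Real.log ((4 * q * (N + 1) : ℕ) : ℝ) := Real.log_nonneg (by exact_mod_cast hMq)
    have h1 : ((4 * q * (N + 1) : ℕ) : ℝ) = 4 * q * (N + 1) := by push_cast; ring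
    rw [h1] at h0 ⊢
    refine mul_le_mul_of_nonneg_right ?_ h0
    refine mul_le_mul_of_nonneg_right ?_ (Nat.cast_nonneg _)
    exact mul_le_mul_of_nonneg_right (by norm_num) (Nat.cast_nonneg _)
  have hn3 : 3 ≤ n := by omega
  have hq3 := S.hq3
  have hx := S.hx
  have hTm : T.card ≤ (H n).card := (norm_le_T hn3 hT (0 : K) (A := 0) (B := 0) (by simp) (by simp)).1
  rcases Nat.lt_or_ge (4 * q * (N + 1)) x with hbig | hsm
  swap
  · exact nstepg_small hx hN hTm hsm
  have hx0 : (0 : ℝ) < x := by positivity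
  have hq0 : (0 : ℝ) < q := by
    have : 0 < q := by omega
    exact_mod_cast this
  have hqK : (q : K) ≠ 0 := by exact_mod_cast (by omega : q ≠ 0)
  have hcH : (H n).card = (n - 1) / 2 := card_H n (by omega)
  -- the sum of the exponents
  have hsum : ∀ i, 2 * ∑ e, |(v i e : ℝ)| ≤ N * q := by
    intro i
    have h1 : ∀ e ∈ (Finset.univ : Finset (H n)), |(v i e : ℝ)| ≤ 2 * r := by
      intro e _
      have h2 := hv i e
      have h4 := hp e
      have h5 : |v i e| ≤ 2 * (r : ℤ) := by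
        rw [abs_le]
        constructor <;> omega
      exact_mod_cast h5
    have h2 : ∑ e, |(v i e : ℝ)| ≤ (H n).card * (2 * r) := by
      refine (Finset.sum_le_card_nsmul _ _ _ h1).trans (le_of_eq ?_)
      rw [Finset.card_univ, Fintype.card_coe, nsmul_eq_mul]
    have h4 : 4 * (H n).card * r ≤ N * q := by
      have h5 : 2 * T.card ≤ n := by omega
      have h6 : 4 * (H n).card * r * n ≤ N * q * n := by
        calc 4 * (H n).card * r * n = 2 * (2 * (H n).card * r * n) := by ring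
          _ ≤ 2 * (T.card * N * q) := Nat.mul_le_mul_left _ h3
          _ = (2 * T.card) * (N * q) := by ring
          _ ≤ n * (N * q) := Nat.mul_le_mul_right _ h5
          _ = N * q * n := by ring
      exact Nat.le_of_mul_le_mul_right h6 (by omega)
    have h5 : (4 * (H n).card * r : ℝ) ≤ N * q := by exact_mod_cast h4
    calc 2 * ∑ e, |(v i e : ℝ)| ≤ 2 * ((H n).card * (2 * r)) := by linarith
      _ = 4 * (H n).card * r := by ring
      _ ≤ N * q := h5
  -- cofactors
  obtain ⟨c, hc1, hc2, hc3⟩ := cofactor N (fun i j => Qj n K q (v i) j)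
  set W : ℝ := q * N * (1 + N) with hW
  have hW0 : 0 ≤ W := by positivity
  have hQ : ∀ (τ : K →+* ℂ) (i : Fin (N + 1)), ∀ j < N, ‖τ ((Qj n K q (v i) j : 𝓞 K) : K)‖ ≤ W ^ j := by
    intro τ i j hj
    rw [coe_Qj (by omega), map_mul, map_mul, map_pow, map_natCast, map_natCast, norm_mul, norm_mul, norm_pow, Complex.norm_natCast,
      Complex.norm_natCast]
    have h1 := Pj_bound (n := n) (by omega : q ≠ 0) τ (v i) (w := (N : ℝ)) (hsum i) j
    have h2 : (j.factorial : ℝ) ≤ (N : ℝ) ^ j := by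
      have h4 : j.factorial ≤ N ^ j := (Nat.factorial_le_pow j).trans (Nat.pow_le_pow_left hj.le j)
      exact_mod_cast h4
    calc (q : ℝ) ^ j * j.factorial * ‖τ (Pj n K q (v i) j)‖ ≤ (q : ℝ) ^ j * (N : ℝ) ^ j * (1 + N) ^ j :=
          mul_le_mul (mul_le_mul_of_nonneg_left h2 (by positivity)) h1 (norm_nonneg _) (by positivity)
      _ = W ^ j := by rw [hW, mul_pow, mul_pow]
  set E : ℝ := (N.factorial : ℝ) * W ^ (N * (N - 1) / 2) with hE
  have hWpos : 0 < W := by
    have : (1 : ℝ) ≤ N := by exact_mod_cast hN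
    positivity
  have hE0 : 0 < E := by positivity
  have hcE : ∀ (τ : K →+* ℂ) (i : Fin (N + 1)), ‖τ ((c i : 𝓞 K) : K)‖ ≤ E := by
    intro τ i
    exact hc3 (τ.comp (algebraMap (𝓞 K) K)) W hW0 (fun i j hj => hQ τ i j hj) i
  set z : K := ∑ i, ((c i : 𝓞 K) : K) * b i with hz
  have hz0 : z ≠ 0 := by
    intro h
    apply hdet
    rw [← h, hz]
    exact hc1 K (algebraMap (𝓞 K) K) b
  have hB : ∀ τ : K →+* ℂ, ‖τ z‖ ≤ (N + 1) * E := by
    intro τ
    rw [hz, map_sum]
    refine (norm_sum_le _ _).trans ?_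
    have h1 : ∀ i ∈ (Finset.univ : Finset (Fin (N + 1))), ‖τ (((c i : 𝓞 K) : K) * b i)‖ ≤ E := by
      intro i _
      rw [map_mul, norm_mul, root_norm hx (by omega) (hb i).1 τ, mul_one]
      exact hcE τ i
    refine (Finset.sum_le_card_nsmul _ _ _ h1).trans (le_of_eq ?_)
    rw [Finset.card_univ, Fintype.card_fin, nsmul_eq_mul]
    push_cast
    ring
  have hcP : ∀ j < N, ∑ i, ((c i : 𝓞 K) : K) * Pj n K q (v i) j = 0 := by
    intro j hj
    have h1 : algebraMap (𝓞 K) K (∑ i, c i * Qj n K q (v i) j) = 0 := by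
      rw [hc2 j hj, map_zero]
    rw [map_sum] at h1
    have h2 : ∀ i ∈ (Finset.univ : Finset (Fin (N + 1))), algebraMap (𝓞 K) K (c i * Qj n K q (v i) j) =
        ((q : K) ^ j * (j.factorial : K)) * (((c i : 𝓞 K) : K) * Pj n K q (v i) j) := by
      intro i _
      rw [map_mul]
      have h4 := coe_Qj (n := n) (K := K) (by omega : q ≠ 0) (v i) j
      change algebraMap (𝓞 K) K (c i) * ((Qj n K q (v i) j : 𝓞 K) : K) = _
      rw [h4]
      change algebraMap (𝓞 K) K (c i) * _ = (q : K) ^ j * (j.factorial : K) * (algebraMap (𝓞 K) K (c i) * _)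
      ring
    rw [Finset.sum_congr rfl h2, ← Finset.mul_sum] at h1
    refine (mul_eq_zero.1 h1).resolve_left (mul_ne_zero (pow_ne_zero _ hqK) ?_)
    exact_mod_cast Nat.factorial_ne_zero j
  have hA : ∀ τ ∈ T, ‖τ z‖ ≤ (N + 1) * E * (2 * (1 + N) ^ N / (x : ℝ) ^ N) := by
    intro τ hτ
    have h1 : τ z = ∑ i, τ ((c i : 𝓞 K) : K) * (τ (b i) - ∑ j ∈ range N, τ (Pj n K q (v i) j) * (1 / (x : ℂ)) ^ j) := by
      have h2 : ∑ i, τ ((c i : 𝓞 K) : K) * ∑ j ∈ range N, τ (Pj n K q (v i) j) * (1 / (x : ℂ)) ^ j = 0 := by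
        simp_rw [Finset.mul_sum]
        rw [Finset.sum_comm]
        refine Finset.sum_eq_zero fun j hj => ?_
        have h4 : ∑ i, τ ((c i : 𝓞 K) : K) * (τ (Pj n K q (v i) j) * (1 / (x : ℂ)) ^ j) =
            τ (∑ i, ((c i : 𝓞 K) : K) * Pj n K q (v i) j) * (1 / (x : ℂ)) ^ j := by
          rw [map_sum, Finset.sum_mul]
          refine Finset.sum_congr rfl fun i _ => ?_
          rw [map_mul]
          ring
        rw [h4, hcP j (mem_range.1 hj), map_zero, zero_mul]
      simp_rw [mul_sub]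
      rw [Finset.sum_sub_distrib, h2, sub_zero, hz, map_sum]
      refine Finset.sum_congr rfl fun i _ => ?_
      rw [map_mul]
    rw [h1]
    refine (norm_sum_le _ _).trans ?_
    have h2 : ∀ i ∈ (Finset.univ : Finset (Fin (N + 1))), ‖τ ((c i : 𝓞 K) : K) * (τ (b i) -
        ∑ j ∈ range N, τ (Pj n K q (v i) j) * (1 / (x : ℂ)) ^ j)‖ ≤ E * (2 * (1 + N) ^ N / (x : ℝ) ^ N) := by
      intro i _
      rw [norm_mul]
      refine mul_le_mul (hcE τ i) ?_ (norm_nonneg _) hE0.le
      have hxw : 4 * (q : ℝ) * (1 + N) ≤ x := by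
        have : 4 * q * (1 + N) ≤ x := by
          rw [add_comm 1 N]
          exact hbig.le
        exact_mod_cast this
      refine (tail_le hx (by omega) (hb i) (w := (N : ℝ)) (by positivity) (hsum i) hxw hτ N).trans (le_of_eq ?_)
      rw [div_pow]
      ring
    refine (Finset.sum_le_card_nsmul _ _ _ h2).trans (le_of_eq ?_)
    rw [Finset.card_univ, Fintype.card_fin, nsmul_eq_mul]
    push_cast
    ring
  -- lower bound
  have hlow := norm_lower S Finset.univ v b c (fun e => 2 * r - 2 * p e) (fun e => 2 * p e) (by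
    intro i _ e
    have h1 := hv i e
    have h2 := hp e
    constructor
    · push_cast
      exact h1.1
    · rw [Nat.cast_sub (by omega)]
      push_cast
      exact h1.2) (fun i _ => (hb i).1) hz0
  have hse : ∑ e, ((2 * r - 2 * p e) + 2 * p e) = 2 * r * (H n).card := by
    have h1 : ∀ e ∈ (Finset.univ : Finset (H n)), (2 * r - 2 * p e) + 2 * p e = 2 * r := by
      intro e _
      have := hp e
      omega
    rw [Finset.sum_congr rfl h1, Finset.sum_const, Finset.card_univ, Fintype.card_coe, smul_eq_mul, mul_comm]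
  rw [hse] at hlow
  have hup := (norm_le_T hn3 hT z hA hB).2
  have hfin : 1 ≤ (y : ℝ) ^ (2 * r * (H n).card) * (((N + 1) * E * (2 * (1 + N) ^ N / (x : ℝ) ^ N)) ^ (2 * T.card) *
      ((N + 1) * E) ^ (2 * ((H n).card - T.card))) :=
    hlow.trans (mul_le_mul_of_nonneg_left hup (by positivity))
  have hqM : q ≤ 4 * q * (N + 1) := by
    calc q = 1 * q * 1 := by ring
      _ ≤ 4 * q * (N + 1) := Nat.mul_le_mul (Nat.mul_le_mul_right _ (by norm_num)) (by omega)
  have hNM : N + 1 ≤ 4 * q * (N + 1) := by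
    calc N + 1 = 1 * (N + 1) := by ring
      _ ≤ 4 * q * (N + 1) := Nat.mul_le_mul_right _ (by omega)
  refine nstepg_num (n := n) (r := r) (by omega) hMq hx S.hy hN hTm (y_pow_lt hx (by omega) S.eq) h3 (U := (N + 1) * E)
    (V := 2 * (1 + N) ^ N) (by positivity) (by positivity) ?_ ?_ hfin
  · have h1 : ((N : ℝ) + 1) * N.factorial ≤ ((4 * q * (N + 1) : ℕ) : ℝ) ^ N := by
      have h2 : (N + 1) * N.factorial ≤ (4 * q * (N + 1)) ^ N := by
        rw [← Nat.factorial_succ]
        calc (N + 1).factorial ≤ (N + 1) ^ N := nstepg_fac N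
          _ ≤ (4 * q * (N + 1)) ^ N := Nat.pow_le_pow_left hNM N
      exact_mod_cast h2
    have h2 : W ≤ ((4 * q * (N + 1) : ℕ) : ℝ) ^ 3 := by
      have h4 : q * N * (1 + N) ≤ (4 * q * (N + 1)) ^ 3 := by
        calc q * N * (1 + N) ≤ (4 * q * (N + 1)) * (4 * q * (N + 1)) * (4 * q * (N + 1)) :=
              Nat.mul_le_mul (Nat.mul_le_mul hqM (by omega)) (by omega)
          _ = (4 * q * (N + 1)) ^ 3 := by ring
      rw [hW]
      exact_mod_cast h4
    calc ((N : ℝ) + 1) * E = ((N : ℝ) + 1) * N.factorial * W ^ (N * (N - 1) / 2) := by rw [hE]; ring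
      _ ≤ ((4 * q * (N + 1) : ℕ) : ℝ) ^ N * (((4 * q * (N + 1) : ℕ) : ℝ) ^ 3) ^ (N * (N - 1) / 2) :=
        mul_le_mul h1 (pow_le_pow_left₀ hW0 h2 _) (by positivity) (by positivity)
      _ = ((4 * q * (N + 1) : ℕ) : ℝ) ^ (N + 3 * (N * (N - 1) / 2)) := by rw [← pow_mul, ← pow_add]
  · have h1 : 2 * (1 + N) ^ N ≤ (4 * q * (N + 1)) ^ (N + 1) := by
      rw [pow_succ, mul_comm]
      exact Nat.mul_le_mul (Nat.pow_le_pow_left (by omega) N) (by omega)
    exact_mod_cast h1

end Pool.Agent.NLS.D0
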