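import Pool.Agent.NLS.D0Cop

/-!
# NLS-NeOne: the products `pr s`, `s ≠ 0`, are not `1`

With `u e = e` for `s e > 0`, `u e = -e` otherwise, `pr s = 1` gives
`∏ lin (u e) ^ |s e| = ∏ lin (- u e) ^ |s e|`. A maximal ideal which contains `lin (u e₀)`, `s e₀ ≠ 0`, contains some
`lin (- u e)`, which is coprime to `lin (u e₀)`.
-/

open NumberField Finset
open Pool.Agent.AAP Pool.Agent.Helper7.HU

namespace Pool.Agent.NLS.D0

variable {n : ℕ} [Fact n.Prime] {K : Type} [Field K] [NumberField K] [IsCyclotomicExtension {n} ℚ K]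
  {q x y : ℕ}

private noncomputable def neone_u (s : H n → ℤ) (e : H n) : (ZMod n)ˣ :=
  if 0 < s e then (e : (ZMod n)ˣ) else -(e : (ZMod n)ˣ)

private theorem neone_al {x : ℕ} (s : H n → ℤ) (e : H n) :
    al n K x (e : (ZMod n)ˣ) ^ s e = al n K x (neone_u s e) ^ (s e).natAbs := by
  unfold neone_u
  by_cases h : 0 < s e
  · rw [if_pos h, ← zpow_natCast]
    congr 1
    omega
  · rw [if_neg h, al_neg, inv_pow, ← zpow_natCast, ← zpow_neg]
    congr 1
    omega

private theorem neone_ne (hn2 : n ≠ 2) (s : H n → ℤ) (e₀ e : H n) :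
    -neone_u s e ≠ neone_u s e₀ := by
  have hH : ∀ a b : H n, (a : (ZMod n)ˣ) ≠ -(b : (ZMod n)ˣ) := by
    intro a b hab
    have h1 := a.2
    rw [hab] at h1
    exact (neg_mem_H n hn2 (b : (ZMod n)ˣ)).1 h1 b.2
  intro h
  unfold neone_u at h
  by_cases h1 : 0 < s e
  · rw [if_pos h1] at h
    by_cases h2 : 0 < s e₀
    · rw [if_pos h2] at h
      exact hH e₀ e h.symm
    · rw [if_neg h2] at h
      have h3 : e = e₀ := Subtype.ext (neg_injective h)
      rw [h3] at h1
      exact h2 h1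
  · rw [if_neg h1, neg_neg] at h
    by_cases h2 : 0 < s e₀
    · rw [if_pos h2] at h
      have h3 : e = e₀ := Subtype.ext h
      rw [h3] at h1
      exact h1 h2
    · rw [if_neg h2] at h
      exact hH e e₀ h

theorem pr_ne_one (S : Sol n q x y) {s : H n → ℤ} (hs : s ≠ 0) : pr n K x s ≠ 1 := by
  intro h
  have hn2 : n ≠ 2 := by
    have := S.hn5
    omega
  obtain ⟨e₀, he₀⟩ : ∃ e₀, s e₀ ≠ 0 := by
    by_contra hc
    push Not at hc
    exact hs (funext hc)
  have hUV : ∏ e : H n, lin n K x (neone_u s e) ^ (s e).natAbs =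
      ∏ e : H n, lin n K x (-neone_u s e) ^ (s e).natAbs := by
    apply RingOfIntegers.coe_injective
    rw [map_prod, map_prod]
    have h1 : pr n K x s = (∏ e : H n, ((lin n K x (neone_u s e) : 𝓞 K) : K) ^ (s e).natAbs) /
        ∏ e : H n, ((lin n K x (-neone_u s e) : 𝓞 K) : K) ^ (s e).natAbs := by
      unfold pr
      rw [← Finset.prod_div_distrib]
      refine Finset.prod_congr rfl fun e _ => ?_
      rw [neone_al, ← div_pow]
      rfl
    have h2 : ∏ e : H n, ((lin n K x (-neone_u s e) : 𝓞 K) : K) ^ (s e).natAbs ≠ 0 :=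
      Finset.prod_ne_zero_iff.2 fun e _ => pow_ne_zero _ (lin_coe_ne_zero S.hx _)
    rw [h, eq_comm, div_eq_one_iff_eq h2] at h1
    simpa only [map_pow] using h1
  have hnt : Ideal.span {lin n K x (neone_u s e₀)} ≠ ⊤ := by
    intro ht
    have h1 := absNorm_lin S (K := K) (neone_u s e₀)
    rw [ht, Ideal.absNorm_top] at h1
    have h2 : 1 < y ^ q := Nat.one_lt_pow (by have := S.hq3; omega) S.hy
    omega
  obtain ⟨P, hP, hle⟩ := Ideal.exists_le_maximal _ hnt
  have hmem : lin n K x (neone_u s e₀) ∈ P := hle (Ideal.mem_span_singleton_self _)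
  have hU : ∏ e : H n, lin n K x (neone_u s e) ^ (s e).natAbs ∈ P := by
    refine P.mem_of_dvd (Finset.dvd_prod_of_mem _ (Finset.mem_univ e₀)) ?_
    exact Ideal.pow_mem_of_mem P hmem _ (Int.natAbs_pos.2 he₀)
  rw [hUV] at hU
  obtain ⟨e, -, he⟩ := (Ideal.IsPrime.prod_mem_iff (hp := hP.isPrime)).1 hU
  have he' := hP.isPrime.mem_of_pow_mem _ he
  have hcop := lin_cop S (K := K) (neone_ne hn2 s e₀ e)
  rw [Ideal.isCoprime_iff_sup_eq] at hcop
  apply hP.ne_top
  rw [eq_top_iff, ← hcop]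
  refine sup_le ?_ hle
  rw [Ideal.span_singleton_le_iff_mem]
  exact he'

end Pool.Agent.NLS.D0
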