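import Mathlib

/-!
# NLS-DcDiv: divisors of smooth numbers

A number `A ≥ X ≥ 1` whose prime factors are at most `B` has a divisor `D` with `X ≤ D ≤ X B`: the smallest divisor which
is at least `X`.
-/

namespace Pool.Agent.NLS.DC

theorem exists_smooth_dvd {A : ℕ} {X B : ℝ} (hX : 1 ≤ X) (hB : 1 ≤ B) (hA : A ≠ 0)
    (hp : ∀ p : ℕ, p.Prime → p ∣ A → (p : ℝ) ≤ B) (hXA : X ≤ A) :
    ∃ D : ℕ, D ∣ A ∧ X ≤ D ∧ (D : ℝ) ≤ X * B := by
  classical
  have hex : ∃ D : ℕ, D ∣ A ∧ X ≤ (D : ℝ) := ⟨A, dvd_rfl, hXA⟩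
  obtain ⟨hD, hXD⟩ := Nat.find_spec hex
  have hmin := fun D (h : D < Nat.find hex) => Nat.find_min hex h
  obtain ⟨D, hDdef⟩ : ∃ D, D = Nat.find hex := ⟨_, rfl⟩
  rw [← hDdef] at hD hXD hmin
  refine ⟨D, hD, hXD, ?_⟩
  rcases eq_or_ne D 1 with h1 | h1
  · rw [h1, Nat.cast_one]
    exact one_le_mul_of_one_le_of_one_le hX hB
  · have hD0 : D ≠ 0 := ne_zero_of_dvd_ne_zero hA hD
    obtain ⟨p, hpp, E, hE⟩ := Nat.exists_prime_and_dvd h1
    have hE0 : E ≠ 0 := by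
      rintro rfl
      rw [mul_zero] at hE
      exact hD0 hE
    have hED : E < D := by
      rw [hE]
      have := hpp.one_lt
      nlinarith [Nat.pos_of_ne_zero hE0]
    have h2 : (E : ℝ) < X := by
      by_contra hc
      exact hmin E hED ⟨(Dvd.intro_left p hE.symm).trans hD, not_lt.1 hc⟩
    have h3 : (p : ℝ) ≤ B := hp p hpp ((Dvd.intro E hE.symm).trans hD)
    rw [hE, Nat.cast_mul, mul_comm]
    exact mul_le_mul h2.le h3 (Nat.cast_nonneg p) (by linarith)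

end Pool.Agent.NLS.DC
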