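import Pool.Agent.NLS.IdxM

/-!
# NLS-DcIdxM: the indices for pairwise coprime exponents

As `IdxM.lean`: the indices of the lattices `Lq n (f i)`, `f i` pairwise coprime, are pairwise coprime divisors of the
determinant of the sign matrix, which is bounded by Hadamard's inequality.
-/

open NumberField Finset
open Pool.Agent.AAP Pool.Agent.Helper7.HU

namespace Pool.Agent.NLS.DC

variable {n : ℕ} [Fact n.Prime]

private theorem dcidxm_index (hn2 : n ≠ 2) :
    ((Matrix.vecMulLinear (M n)).toAddMonoidHom.range).index = (M n).det.natAbs := by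
  have hd : (M n).det ≠ 0 := det_ne hn2
  have hinj : Function.Injective (Matrix.vecMulLinear (M n)) := by
    rw [injective_iff_map_eq_zero]
    intro v hv
    exact Matrix.eq_zero_of_vecMul_eq_zero hd hv
  have h1 := Submodule.natAbs_det_equiv (LinearMap.range (Matrix.vecMulLinear (M n)))
    (LinearEquiv.ofInjective (Matrix.vecMulLinear (M n)) hinj)
  have h2 : (LinearMap.range (Matrix.vecMulLinear (M n))).subtype ∘ₗ
      AddMonoidHom.toIntLinearMap
        ((LinearEquiv.ofInjective (Matrix.vecMulLinear (M n)) hinj :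
          (H n → ℤ) ≃ₗ[ℤ] LinearMap.range (Matrix.vecMulLinear (M n))) :
          (H n → ℤ) →+ LinearMap.range (Matrix.vecMulLinear (M n))) =
      Matrix.toLin' (M n).transpose := by
    apply LinearMap.ext
    intro v
    rw [Matrix.toLin'_apply, Matrix.mulVec_transpose]
    rfl
  rw [h2, LinearMap.det_toLin', Matrix.det_transpose] at h1
  rw [h1]
  rfl

private theorem dcidxm_dvd (hn2 : n ≠ 2) (q : ℕ) : (Lq n q).index ∣ (M n).det.natAbs := by
  rw [← dcidxm_index hn2]
  exact AddSubgroup.index_dvd_of_le le_sup_left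

private theorem dcidxm_dvd_pow (q : ℕ) : ∃ m : ℕ, (Lq n q).index ∣ q ^ m :=
  ⟨_, (AddSubgroup.index_dvd_of_le le_sup_right).trans
    (AddSubgroup.index_range_nsmul (H n → ℤ) q).dvd⟩

private theorem dcidxm_prod (hn2 : n ≠ 2) {ι : Type} [DecidableEq ι] (f : ι → ℕ) (P : Finset ι)
    (hP : ∀ i ∈ P, ∀ j ∈ P, i ≠ j → (f i).Coprime (f j)) :
    ∏ i ∈ P, (Lq n (f i)).index ∣ (M n).det.natAbs := by
  induction P using Finset.induction_on with
  | empty => rw [Finset.prod_empty]; exact one_dvd _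
  | insert i P hi ih =>
    rw [Finset.prod_insert hi]
    refine Nat.Coprime.mul_dvd_of_dvd_of_dvd ?_ (dcidxm_dvd hn2 (f i))
      (ih fun a ha b hb => hP a (Finset.mem_insert_of_mem ha) b (Finset.mem_insert_of_mem hb))
    refine Nat.Coprime.prod_right fun j hj => ?_
    obtain ⟨a, ha⟩ := dcidxm_dvd_pow (n := n) (f i)
    obtain ⟨b, hb⟩ := dcidxm_dvd_pow (n := n) (f j)
    refine Nat.Coprime.coprime_dvd_left ha (Nat.Coprime.coprime_dvd_right hb ?_)
    refine Nat.Coprime.pow _ _ (hP i (Finset.mem_insert_self _ _) j (Finset.mem_insert_of_mem hj) ?_)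
    intro h
    exact hi (h ▸ hj)

/-- the logarithms of the indices for pairwise coprime exponents -/
theorem sum_log_index (hn2 : n ≠ 2) {ι : Type} (f : ι → ℕ) (P : Finset ι)
    (hP : ∀ i ∈ P, ∀ j ∈ P, i ≠ j → (f i).Coprime (f j)) :
    ∑ i ∈ P, Real.log ((Lq n (f i)).index : ℝ) ≤ ((H n).card : ℝ) / 2 * Real.log ((H n).card : ℝ) := by
  classical
  have h1 : ∑ i ∈ P, Real.log ((Lq n (f i)).index : ℝ) =
      Real.log ((∏ i ∈ P, (Lq n (f i)).index : ℕ) : ℝ) := by
    rw [Nat.cast_prod, Real.log_prod]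
    intro i _
    exact Nat.cast_ne_zero.2 (lq_index_ne hn2 (f i))
  have hd : (M n).det ≠ 0 := det_ne hn2
  have hd0 : 0 < (M n).det.natAbs := Int.natAbs_pos.2 hd
  have h2 : Real.log ((∏ i ∈ P, (Lq n (f i)).index : ℕ) : ℝ) ≤ Real.log ((M n).det.natAbs : ℝ) := by
    apply Real.log_le_log
    · exact Nat.cast_pos.2 (Nat.pos_of_ne_zero (Finset.prod_ne_zero_iff.2 fun i _ =>
        lq_index_ne hn2 (f i)))
    · exact_mod_cast Nat.le_of_dvd hd0 (dcidxm_prod hn2 f P hP)
  have h3 : (((M n).det : ℤ) : ℝ) ^ 2 ≤ ((H n).card : ℝ) ^ ((H n).card) := by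
    have h4 := Pool.Agent.Helper42.Asum.hadamard ((M n).map (Int.cast : ℤ → ℝ)) (by
      intro i j
      rw [Matrix.map_apply]
      unfold M sg
      rw [Matrix.of_apply]
      split_ifs <;> simp)
    rw [Fintype.card_coe] at h4
    have h5 : ((M n).map (Int.cast : ℤ → ℝ)).det = (((M n).det : ℤ) : ℝ) :=
      (Int.cast_det (M n)).symm
    rwa [h5] at h4
  have h6 : (((M n).det.natAbs : ℕ) : ℝ) ^ 2 = (((M n).det : ℤ) : ℝ) ^ 2 := by
    rw [Nat.cast_natAbs, Int.cast_abs, sq_abs]
  have h7 : 2 * Real.log ((M n).det.natAbs : ℝ) ≤ ((H n).card : ℝ) * Real.log ((H n).card : ℝ) := by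
    have h8 : Real.log ((((M n).det.natAbs : ℕ) : ℝ) ^ 2) ≤
        Real.log (((H n).card : ℝ) ^ ((H n).card)) := by
      apply Real.log_le_log
      · positivity
      · rw [h6]
        exact h3
    rw [Real.log_pow, Real.log_pow] at h8
    exact_mod_cast h8
  rw [h1]
  linarith

end Pool.Agent.NLS.DC
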