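import Mathlib

/-!
# NLS-DgPar: parameters for `q = n`

The choice is `k = m / 20` with `m = (n - 1) / 2`, `r + 1` the least integer `≥ n ^ (3/5)` and
`N = 42 r`.
-/

namespace Pool.Agent.NLS

open Filter Real

private theorem dgpar_ev : ∃ n1 : ℕ, ∀ n : ℕ, n1 ≤ n →
    21168 * Real.log n ≤ (n : ℝ) ^ (1 / 15 : ℝ) := by
  have h1 := (isLittleO_log_rpow_atTop (r := (1 / 15 : ℝ)) (by norm_num)).def
    (c := (1 / 21168 : ℝ)) (by norm_num)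
  have h2 := tendsto_natCast_atTop_atTop (R := ℝ) |>.eventually h1
  obtain ⟨n1, hn1⟩ := eventually_atTop.1 h2
  refine ⟨n1, fun n hn => ?_⟩
  have h3 := hn1 n hn
  rw [Real.norm_eq_abs, Real.norm_eq_abs] at h3
  have h4 : |(n : ℝ) ^ (1 / 15 : ℝ)| = (n : ℝ) ^ (1 / 15 : ℝ) :=
    abs_of_nonneg (Real.rpow_nonneg (Nat.cast_nonneg n) _)
  rw [h4] at h3
  have h5 := le_abs_self (Real.log n)
  linarith

private theorem dgpar_seven {n m k r N : ℕ} {I : ℝ} (hn : 1000 ≤ n) (hm : 400 ≤ m)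
    (hk : 20 * k ≤ m) (hr : (n : ℝ) ^ (3 / 5 : ℝ) ≤ (r : ℝ) + 1) (hN : N ≤ n) (hI0 : 0 < I)
    (hI : I ≤ Real.exp (1 / 2 * (m : ℝ) * Real.log n)) :
    (N : ℝ) * (I * n * (n : ℝ) ^ k) < ((r : ℝ) + 1) ^ m := by
  have hn0 : (0 : ℝ) < n := by
    have : 0 < n := by omega
    exact_mod_cast this
  have hn1 : (1 : ℝ) < n := by
    have : 1 < n := by omega
    exact_mod_cast this
  have hL : 0 < Real.log n := Real.log_pos hn1
  have e1 : (n : ℝ) = Real.exp (Real.log n) := (Real.exp_log hn0).symm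
  have e2 : (n : ℝ) ^ k = Real.exp (k * Real.log n) := by
    rw [Real.exp_nat_mul, Real.exp_log hn0]
  have e3 : ((n : ℝ) ^ (3 / 5 : ℝ)) ^ m = Real.exp (m * (Real.log n * (3 / 5))) := by
    rw [Real.rpow_def_of_pos hn0, ← Real.exp_nat_mul]
  have h1 : (N : ℝ) * (I * n * (n : ℝ) ^ k) ≤
      n * (Real.exp (1 / 2 * (m : ℝ) * Real.log n) * n * (n : ℝ) ^ k) := by
    have hN' : (N : ℝ) ≤ n := by exact_mod_cast hN
    have hp : (0 : ℝ) < (n : ℝ) ^ k := by positivity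
    gcongr
  have h2 : (n : ℝ) * (Real.exp (1 / 2 * (m : ℝ) * Real.log n) * n * (n : ℝ) ^ k) =
      Real.exp (Real.log n + (1 / 2 * (m : ℝ) * Real.log n + Real.log n + k * Real.log n)) := by
    rw [Real.exp_add, Real.exp_add, Real.exp_add, ← e2, Real.exp_log hn0]
  have h3 : Real.exp (Real.log n + (1 / 2 * (m : ℝ) * Real.log n + Real.log n + k * Real.log n)) <
      Real.exp (m * (Real.log n * (3 / 5))) := by
    rw [Real.exp_lt_exp]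
    have hk' : 20 * (k : ℝ) ≤ m := by exact_mod_cast hk
    have hm' : (400 : ℝ) ≤ m := by exact_mod_cast hm
    nlinarith
  have h4 : ((n : ℝ) ^ (3 / 5 : ℝ)) ^ m ≤ ((r : ℝ) + 1) ^ m :=
    pow_le_pow_left₀ (Real.rpow_nonneg hn0.le _) hr m
  calc (N : ℝ) * (I * n * (n : ℝ) ^ k) ≤ _ := h1
    _ = _ := h2
    _ < _ := h3
    _ = ((n : ℝ) ^ (3 / 5 : ℝ)) ^ m := e3.symm
    _ ≤ _ := h4

private theorem dgpar_eight {n m k r : ℕ} (hn : 1000 ≤ n)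
    (hk : m ≤ 21 * k) (hr : (r : ℝ) ≤ (n : ℝ) ^ (3 / 5 : ℝ)) (hN : 42 * r ≤ n)
    (hlog : 21168 * Real.log n ≤ (n : ℝ) ^ (1 / 15 : ℝ)) :
    8 * (m : ℝ) * ((42 * r : ℕ) : ℝ) * Real.log (4 * n * (((42 * r : ℕ) : ℝ) + 1)) ≤
      k * (n : ℝ) ^ (2 / 3 : ℝ) := by
  have hn0 : (0 : ℝ) < n := by
    have : 0 < n := by omega
    exact_mod_cast this
  have hn1 : (1000 : ℝ) ≤ n := by exact_mod_cast hn
  have hN' : ((42 * r : ℕ) : ℝ) ≤ n := by exact_mod_cast hN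
  have hc : ((42 * r : ℕ) : ℝ) = 42 * (r : ℝ) := by push_cast; ring
  have hr0 : (0 : ℝ) ≤ r := Nat.cast_nonneg r
  have hL0 : 0 ≤ Real.log n := Real.log_nonneg (by linarith)
  have h1 : Real.log (4 * n * (((42 * r : ℕ) : ℝ) + 1)) ≤ 3 * Real.log n := by
    have h11 : 4 * (n : ℝ) * (((42 * r : ℕ) : ℝ) + 1) ≤ (n : ℝ) ^ 3 := by
      have ha : 4 * (((42 * r : ℕ) : ℝ) + 1) ≤ (n : ℝ) * n := by nlinarith
      have hb := mul_le_mul_of_nonneg_left ha hn0.le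
      calc 4 * (n : ℝ) * (((42 * r : ℕ) : ℝ) + 1) = n * (4 * (((42 * r : ℕ) : ℝ) + 1)) := by ring
        _ ≤ n * ((n : ℝ) * n) := hb
        _ = (n : ℝ) ^ 3 := by ring
    have h12 : (0 : ℝ) < 4 * (n : ℝ) * (((42 * r : ℕ) : ℝ) + 1) := by positivity
    have h13 := Real.log_le_log h12 h11
    rw [Real.log_pow] at h13
    exact_mod_cast h13
  have h2 : (m : ℝ) ≤ 21 * k := by exact_mod_cast hk
  have h3 : (n : ℝ) ^ (3 / 5 : ℝ) * (n : ℝ) ^ (1 / 15 : ℝ) = (n : ℝ) ^ (2 / 3 : ℝ) := by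
    rw [← Real.rpow_add hn0]
    norm_num
  have hk0 : (0 : ℝ) ≤ k := Nat.cast_nonneg k
  have hp : 0 ≤ (n : ℝ) ^ (3 / 5 : ℝ) := Real.rpow_nonneg hn0.le _
  rw [hc] at h1 ⊢
  calc 8 * (m : ℝ) * (42 * (r : ℝ)) * Real.log (4 * n * (42 * (r : ℝ) + 1))
      ≤ 8 * (21 * (k : ℝ)) * (42 * (n : ℝ) ^ (3 / 5 : ℝ)) * (3 * Real.log n) := by
        have ha : 8 * (m : ℝ) ≤ 8 * (21 * (k : ℝ)) := by linarith
        have hb : 42 * (r : ℝ) ≤ 42 * (n : ℝ) ^ (3 / 5 : ℝ) := by linarith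
        have hab : 8 * (m : ℝ) * (42 * (r : ℝ)) ≤
            8 * (21 * (k : ℝ)) * (42 * (n : ℝ) ^ (3 / 5 : ℝ)) :=
          mul_le_mul ha hb (by linarith) (by linarith)
        exact (mul_le_mul_of_nonneg_left h1 (by positivity)).trans
          (mul_le_mul_of_nonneg_right hab (by linarith))
    _ = k * ((n : ℝ) ^ (3 / 5 : ℝ) * (21168 * Real.log n)) := by ring
    _ ≤ k * ((n : ℝ) ^ (3 / 5 : ℝ) * (n : ℝ) ^ (1 / 15 : ℝ)) := by gcongr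
    _ = k * (n : ℝ) ^ (2 / 3 : ℝ) := by rw [h3]

theorem exists_parDg : ∃ n0 : ℕ, ∀ (n : ℕ) (I : ℝ), n0 ≤ n → Odd n → 0 < I →
    I ≤ Real.exp (1 / 2 * ((n - 1) / 2 : ℕ) * Real.log n) →
    ∃ k r N : ℕ, 1 ≤ k ∧ k ≤ (n - 1) / 2 ∧ 1 ≤ r ∧ r < n ∧ 1 ≤ N ∧ N ≤ n ∧
      (N : ℝ) * (I * n * (n : ℝ) ^ k) < ((r : ℝ) + 1) ^ ((n - 1) / 2) ∧
      2 * ((n - 1) / 2) * r * n ≤ k * N * n ∧
      8 * (((n - 1) / 2 : ℕ) : ℝ) * N * Real.log (4 * n * (N + 1)) ≤ k * (n : ℝ) ^ (2 / 3 : ℝ) := by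
  obtain ⟨n1, hn1⟩ := dgpar_ev
  refine ⟨max n1 1000, fun n I hn _ hI0 hI => ?_⟩
  have hlog := hn1 n ((le_max_left _ _).trans hn)
  have hn2 : 1000 ≤ n := (le_max_right _ _).trans hn
  have hn0 : (0 : ℝ) < n := by
    have : 0 < n := by omega
    exact_mod_cast this
  have hn1' : (1000 : ℝ) ≤ n := by exact_mod_cast hn2
  obtain ⟨m, hm⟩ : ∃ m, m = (n - 1) / 2 := ⟨_, rfl⟩
  rw [← hm] at hI ⊢
  have hm400 : 400 ≤ m := by omega
  obtain ⟨k, hk⟩ : ∃ k, k = m / 20 := ⟨_, rfl⟩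
  have hk1 : 20 * k ≤ m := by omega
  have hk2 : m ≤ 21 * k := by omega
  obtain ⟨q, hq⟩ : ∃ q : ℝ, q = (n : ℝ) ^ (3 / 5 : ℝ) := ⟨_, rfl⟩
  have hL1 : 1 ≤ Real.log n := by
    rw [Real.le_log_iff_exp_le hn0]
    have := Real.exp_one_lt_d9
    linarith
  have hq15 : (21168 : ℝ) ≤ (n : ℝ) ^ (1 / 15 : ℝ) := by linarith
  have hq42 : 42 * q ≤ n := by
    have h1 : (n : ℝ) ^ (3 / 5 : ℝ) * (n : ℝ) ^ (1 / 15 : ℝ) = (n : ℝ) ^ (2 / 3 : ℝ) := by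
      rw [← Real.rpow_add hn0]
      norm_num
    have h2 : (n : ℝ) ^ (2 / 3 : ℝ) ≤ (n : ℝ) ^ (1 : ℝ) :=
      Real.rpow_le_rpow_of_exponent_le (by linarith) (by norm_num)
    rw [Real.rpow_one] at h2
    have h3 : 0 ≤ q := by rw [hq]; exact Real.rpow_nonneg hn0.le _
    rw [← hq] at h1
    nlinarith
  have hq2 : 2 ≤ q := by
    have h1 : (n : ℝ) ^ (1 / 15 : ℝ) ≤ (n : ℝ) ^ (3 / 5 : ℝ) :=
      Real.rpow_le_rpow_of_exponent_le (by linarith) (by norm_num)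
    rw [hq]
    linarith
  obtain ⟨c, hc⟩ : ∃ c : ℕ, c = ⌈q⌉₊ := ⟨_, rfl⟩
  have hc1 : q ≤ c := by rw [hc]; exact Nat.le_ceil q
  have hc2 : (c : ℝ) < q + 1 := by rw [hc]; exact Nat.ceil_lt_add_one (by linarith)
  have hc3 : 2 ≤ c := by
    have : (2 : ℝ) ≤ c := hq2.trans hc1
    exact_mod_cast this
  obtain ⟨r, hr⟩ : ∃ r : ℕ, r + 1 = c := ⟨c - 1, by omega⟩
  have hr1 : (r : ℝ) + 1 = c := by exact_mod_cast hr
  have hrq : (r : ℝ) ≤ q := by linarith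
  have hN : 42 * r ≤ n := by
    have : ((42 * r : ℕ) : ℝ) ≤ n := by
      push_cast
      linarith
    exact_mod_cast this
  refine ⟨k, r, 42 * r, by omega, by omega, by omega, by omega, by omega, hN, ?_, ?_, ?_⟩
  · exact dgpar_seven hn2 hm400 hk1 (by rw [← hq]; linarith) hN hI0 hI
  · have h1 : 2 * m * r ≤ k * (42 * r) := by nlinarith
    exact Nat.mul_le_mul_right n h1
  · exact dgpar_eight hn2 hk2 (by rw [← hq]; exact hrq) hN hlog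

end Pool.Agent.NLS
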