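import Mathlib

/-!
# NLS-ParB: parameters for the upper bound

`m = (n - 1) / 2`, `L = log q`. The choice is `k = ⌊m / L⌋`, `r = ⌈q ^ δ⌉`, `N = ⌈4 r n L / q⌉`, for `q` large
depending on `δ`. `exists_parB`: order at least `8 / δ`; `exists_parC`: order at least `3` and `n ≤ q`.
-/

namespace Pool.Agent.NLS

open Filter in
private theorem parb_log (s C : ℝ) (hs : 0 < s) (hC : 0 < C) :
    ∀ᶠ x : ℝ in atTop, C * Real.log x ≤ x ^ s := by
  have h1 := (isLittleO_log_rpow_atTop hs).bound (c := 1 / C) (by positivity)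
  filter_upwards [h1, eventually_ge_atTop (1 : ℝ)] with x hx hx1
  have h2 : Real.log x ≤ 1 / C * x ^ s := by
    have h3 : ‖x ^ s‖ = x ^ s := Real.norm_of_nonneg (by positivity)
    rw [h3] at hx
    exact (Real.le_norm_self _).trans hx
  calc C * Real.log x ≤ C * (1 / C * x ^ s) := mul_le_mul_of_nonneg_left h2 hC.le
    _ = x ^ s := by field_simp

open Filter in
private theorem parb_ev (δ : ℝ) (hδ : 0 < δ) : ∃ q0 : ℕ, ∀ q : ℕ, q0 ≤ q →
    (100 : ℝ) ≤ q ∧ 8 / δ < Real.log q ∧ 5 * Real.log q ≤ (q : ℝ) ^ (δ / 2) ∧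
    100 * Real.log q ≤ (q : ℝ) ^ (1 / 10 : ℝ) ∧ 100 * Real.log q ≤ (q : ℝ) ^ (δ / 8) := by
  have h1 : ∀ᶠ x : ℝ in atTop, 8 / δ < Real.log x :=
    Real.tendsto_log_atTop.eventually_gt_atTop _
  have h2 := parb_log (δ / 2) 5 (by positivity) (by norm_num)
  have h3 := parb_log (1 / 10) 100 (by norm_num) (by norm_num)
  have h3' := parb_log (δ / 8) 100 (by positivity) (by norm_num)
  have h4 := (eventually_ge_atTop (100 : ℝ)).and (h1.and (h2.and (h3.and h3')))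
  exact eventually_atTop.1 (tendsto_natCast_atTop_atTop.eventually h4)

private theorem parb_core (δ : ℝ) (hδ : 0 < δ) (hδ1 : δ ≤ 1 / 10) : ∃ q0 : ℕ, ∀ (n q f : ℕ) (I : ℝ),
    q0 ≤ q → Odd n → (n : ℝ) ≤ (q : ℝ) ^ (2 - 3 * δ) → (q : ℝ) ≤ (n : ℝ) ^ 2 → 0 < I →
    ((8 / δ ≤ f ∧ I ≤ Real.exp (δ / 4 * ((n - 1) / 2 : ℕ) * Real.log q)) ∨
      (3 ≤ f ∧ (n : ℝ) ≤ q ∧ I ≤ Real.exp (δ / 16 * ((n - 1) / 2 : ℕ) * Real.log q))) →
    ∃ k r N : ℕ, 1 ≤ k ∧ k ≤ (n - 1) / 2 ∧ 1 ≤ N ∧ N + 1 ≤ q ∧ 1 ≤ r ∧ r < q ∧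
      (N : ℝ) ^ ((n - 1) / f) * (I * (q : ℝ) ^ k) < ((r : ℝ) + 1) ^ ((n - 1) / 2) ∧
      2 * ((n - 1) / 2) * r * n ≤ k * N * q ∧
      6 * (((n - 1) / 2 : ℕ) : ℝ) * N * Real.log q ≤ k * ((q : ℝ) ^ (3 * δ) * (n / q + 1)) := by
  obtain ⟨q0, hq0⟩ := parb_ev δ hδ
  refine ⟨q0, fun n q f I hq hn hnq hqn hI hI2 => ?_⟩
  obtain ⟨h100, hL2, hL5, hL100, hL8⟩ := hq0 q hq
  obtain ⟨m, rfl⟩ := hn
  have hm1 : 2 * m + 1 - 1 = 2 * m := by omega
  have hm2 : 2 * m / 2 = m := by omega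
  rw [hm1, hm2] at hI2 ⊢
  set x : ℝ := (q : ℝ) with hx
  set L : ℝ := Real.log x with hL
  set M : ℝ := (m : ℝ) with hM
  set n' : ℝ := ((2 * m + 1 : ℕ) : ℝ) with hn'
  have hnM : n' = 2 * M + 1 := by rw [hn', hM]; push_cast; ring
  have hM0 : 0 ≤ M := Nat.cast_nonneg m
  have hn0 : 0 < n' := by linarith
  have hx0 : 0 < x := by linarith
  have hx1 : 1 ≤ x := by linarith
  have hLδ : 8 < L * δ := (div_lt_iff₀ hδ).1 hL2
  have hL20 : 20 < L := by
    have h1 : (20 : ℝ) ≤ 8 / δ := by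
      rw [le_div_iff₀ hδ]
      linarith
    linarith
  have hL0 : 0 < L := by linarith
  -- powers of x
  have hy : x ^ (1 / 2 : ℝ) * x ^ (1 / 2 : ℝ) = x := by
    rw [← Real.rpow_add hx0]
    norm_num
  have hy0 : 0 < x ^ (1 / 2 : ℝ) := Real.rpow_pos_of_pos hx0 _
  have hy10 : 10 ≤ x ^ (1 / 2 : ℝ) := by
    by_contra h
    push Not at h
    nlinarith
  have ht : x ^ (1 / 10 : ℝ) ≤ x ^ (1 / 2 : ℝ) :=
    Real.rpow_le_rpow_of_exponent_le hx1 (by norm_num)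
  have hd : x ^ δ ≤ x ^ (1 / 10 : ℝ) := Real.rpow_le_rpow_of_exponent_le hx1 hδ1
  have hd1 : 1 ≤ x ^ δ := Real.one_le_rpow hx1 hδ.le
  have hyn : x ^ (1 / 2 : ℝ) ≤ n' := by
    by_contra h
    push Not at h
    have h2 : n' ^ 2 < x := by
      rw [← hy]
      nlinarith
    linarith
  have hnx : n' / x ≤ x ^ (1 - 3 * δ) := by
    rw [div_le_iff₀ hx0]
    refine hnq.trans ?_
    rw [← Real.rpow_add_one hx0.ne']
    exact Real.rpow_le_rpow_of_exponent_le hx1 (by linarith)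
  have hML : L ≤ M := by linarith
  have hM1 : 0 < M := by linarith
  -- k
  obtain ⟨k, hk⟩ : ∃ k, k = ⌊M / L⌋₊ := ⟨_, rfl⟩
  have hML1 : 1 ≤ M / L := by
    rw [le_div_iff₀ hL0]
    linarith
  have hk1 : 1 ≤ k := by
    rw [hk]
    exact Nat.le_floor (by simpa using hML1)
  have hk1' : (1 : ℝ) ≤ k := by exact_mod_cast hk1
  have hk2 : (k : ℝ) * L ≤ M := by
    rw [← le_div_iff₀ hL0, hk]
    exact Nat.floor_le (by positivity)
  have hk3 : M ≤ 2 * L * k := by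
    have h1 : M / L < k + 1 := by
      rw [hk]
      exact Nat.lt_floor_add_one _
    have h2 : M < (k + 1) * L := (div_lt_iff₀ hL0).1 h1
    nlinarith
  have hkm : k ≤ m := by
    have h1 : (k : ℝ) ≤ (m : ℝ) := by
      rw [← hM]
      nlinarith
    exact_mod_cast h1
  -- r
  obtain ⟨r, hr⟩ : ∃ r, r = ⌈x ^ δ⌉₊ := ⟨_, rfl⟩
  have hr1 : x ^ δ ≤ r := by
    rw [hr]
    exact Nat.le_ceil _
  have hr2 : (r : ℝ) < x ^ δ + 1 := by
    rw [hr]
    exact Nat.ceil_lt_add_one (by positivity)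
  have hr3 : 1 ≤ r := by
    have h1 : (1 : ℝ) ≤ r := hd1.trans hr1
    exact_mod_cast h1
  have hr3' : (1 : ℝ) ≤ r := hd1.trans hr1
  have hrq : r < q := by
    have h1 : (r : ℝ) < (q : ℝ) := by
      rw [← hx]
      nlinarith
    exact_mod_cast h1
  -- N
  obtain ⟨N, hN⟩ : ∃ N, N = ⌈4 * r * n' * L / x⌉₊ := ⟨_, rfl⟩
  have hNpos : 0 < 4 * r * n' * L / x := by positivity
  have hN1 : 4 * r * n' * L / x ≤ N := by
    rw [hN]
    exact Nat.le_ceil _
  have hN2 : (N : ℝ) < 4 * r * n' * L / x + 1 := by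
    rw [hN]
    exact Nat.ceil_lt_add_one hNpos.le
  have hN3 : 1 ≤ N := by
    rw [hN]
    exact Nat.ceil_pos.2 hNpos
  have hN4 : 4 * r * n' * L ≤ N * x := (div_le_iff₀ hx0).1 hN1
  have hN5 : (N : ℝ) ≤ 8 * x ^ δ * (n' / x) * L + 1 := by
    have h1 : 4 * r * n' * L / x = 4 * r * ((n' / x) * L) := by ring
    have h2 : 4 * r * ((n' / x) * L) ≤ 8 * x ^ δ * ((n' / x) * L) := by
      apply mul_le_mul_of_nonneg_right _ (by positivity)
      linarith
    have h3 : 8 * x ^ δ * ((n' / x) * L) = 8 * x ^ δ * (n' / x) * L := by ring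
    linarith
  have hN6 : 8 * x ^ δ * (n' / x) * L + 2 < x := by
    have h1 : x ^ δ * x ^ (1 - 3 * δ) * x ^ (δ / 8) ≤ x := by
      rw [← Real.rpow_add hx0, ← Real.rpow_add hx0]
      calc x ^ (δ + (1 - 3 * δ) + δ / 8) ≤ x ^ (1 : ℝ) :=
            Real.rpow_le_rpow_of_exponent_le hx1 (by linarith)
        _ = x := Real.rpow_one x
    have h2 : x ^ δ * (n' / x) * (100 * L) ≤ x ^ δ * x ^ (1 - 3 * δ) * x ^ (δ / 8) :=
      mul_le_mul (mul_le_mul_of_nonneg_left hnx (by positivity)) hL8 (by positivity) (by positivity)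
    have h3 : x ^ δ * (n' / x) * (100 * L) ≤ x := h2.trans h1
    have h4 : 0 ≤ x ^ δ * (n' / x) * L := by positivity
    have h5 : 8 * x ^ δ * (n' / x) * L = 8 * (x ^ δ * (n' / x) * L) := by ring
    have h6 : x ^ δ * (n' / x) * (100 * L) = 100 * (x ^ δ * (n' / x) * L) := by ring
    rw [h6] at h3
    rw [h5]
    linarith
  have hNq : N + 1 ≤ q := by
    have h1 : ((N + 1 : ℕ) : ℝ) ≤ (q : ℝ) := by
      push_cast
      rw [← hx]
      linarith
    exact_mod_cast h1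
  refine ⟨k, r, N, hk1, hkm, hN3, hNq, hr3, hrq, ?_, ?_, ?_⟩
  · have hxe : x = Real.exp L := (Real.exp_log hx0).symm
    have hNx : (N : ℝ) ≤ x := by linarith
    have hN1' : (1 : ℝ) ≤ N := by exact_mod_cast hN3
    have e1 : (N : ℝ) ^ ((2 * m) / f) * I ≤ Real.exp (M * (7 / 8) * δ * L) := by
      rcases hI2 with ⟨hf, hI2⟩ | ⟨hf, hnx1, hI2⟩
      · have hf0 : (0 : ℝ) < f := lt_of_lt_of_le (by positivity) hf
        have e0 : (((2 * m) / f : ℕ) : ℝ) ≤ M * δ / 4 := by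
          have h1 : (((2 * m) / f : ℕ) : ℝ) ≤ ((2 * m : ℕ) : ℝ) / f := Nat.cast_div_le
          have h2 : ((2 * m : ℕ) : ℝ) / f ≤ M * δ / 4 := by
            rw [div_le_iff₀ hf0]
            push_cast
            rw [← hM]
            have h3 : 8 ≤ f * δ := (div_le_iff₀ hδ).1 hf
            nlinarith
          exact h1.trans h2
        have e1 : (N : ℝ) ^ ((2 * m) / f) ≤ Real.exp (M * δ / 4 * L) := by
          calc (N : ℝ) ^ ((2 * m) / f) ≤ x ^ ((2 * m) / f) := pow_le_pow_left₀ (by positivity) hNx _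
            _ = Real.exp (((2 * m) / f : ℕ) * L) := by
                rw [Real.exp_nat_mul, ← hxe]
            _ ≤ Real.exp (M * δ / 4 * L) := by
                apply Real.exp_le_exp.2
                exact mul_le_mul_of_nonneg_right e0 hL0.le
        calc (N : ℝ) ^ ((2 * m) / f) * I ≤ Real.exp (M * δ / 4 * L) * Real.exp (δ / 4 * M * L) := by
              gcongr
          _ = Real.exp (M * δ / 4 * L + δ / 4 * M * L) := (Real.exp_add _ _).symm
          _ ≤ Real.exp (M * (7 / 8) * δ * L) := by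
              apply Real.exp_le_exp.2
              have h1 : 0 < M * δ * L := by positivity
              nlinarith
      · have hf0 : (0 : ℝ) < f := by exact_mod_cast (by omega : 0 < f)
        have hf3 : (3 : ℝ) ≤ f := by exact_mod_cast hf
        have e0 : (((2 * m) / f : ℕ) : ℝ) ≤ M * (2 / 3) := by
          have h1 : (((2 * m) / f : ℕ) : ℝ) ≤ ((2 * m : ℕ) : ℝ) / f := Nat.cast_div_le
          have h2 : ((2 * m : ℕ) : ℝ) / f ≤ M * (2 / 3) := by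
            rw [div_le_iff₀ hf0]
            push_cast
            rw [← hM]
            nlinarith
          exact h1.trans h2
        have hN7 : (N : ℝ) ≤ x ^ (9 / 8 * δ) := by
          have h1 : n' / x ≤ 1 := (div_le_one hx0).2 hnx1
          have h2 : (N : ℝ) ≤ 8 * x ^ δ * 1 * L + 1 := by
            refine hN5.trans ?_
            gcongr
          have h3 : x ^ (9 / 8 * δ) = x ^ δ * x ^ (δ / 8) := by
            rw [← Real.rpow_add hx0]
            congr 1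
            ring
          have h4 : x ^ δ * (100 * L) ≤ x ^ δ * x ^ (δ / 8) := by gcongr
          rw [h3]
          nlinarith
        have e1 : (N : ℝ) ^ ((2 * m) / f) ≤ Real.exp (M * (3 / 4) * δ * L) := by
          calc (N : ℝ) ^ ((2 * m) / f) ≤ (x ^ (9 / 8 * δ)) ^ ((2 * m) / f) :=
                pow_le_pow_left₀ (by positivity) hN7 _
            _ = Real.exp (((2 * m) / f : ℕ) * (9 / 8 * δ * L)) := by
                rw [Real.exp_nat_mul, Real.rpow_def_of_pos hx0]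
                congr 2
                ring
            _ ≤ Real.exp (M * (3 / 4) * δ * L) := by
                apply Real.exp_le_exp.2
                have h5 : 0 ≤ 9 / 8 * δ * L := by positivity
                have h6 := mul_le_mul_of_nonneg_right e0 h5
                linarith
        calc (N : ℝ) ^ ((2 * m) / f) * I ≤ Real.exp (M * (3 / 4) * δ * L) * Real.exp (δ / 16 * M * L) := by
              gcongr
          _ = Real.exp (M * (3 / 4) * δ * L + δ / 16 * M * L) := (Real.exp_add _ _).symm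
          _ ≤ Real.exp (M * (7 / 8) * δ * L) := by
              apply Real.exp_le_exp.2
              have h1 : 0 < M * δ * L := by positivity
              nlinarith
    have e3 : x ^ k ≤ Real.exp M := by
      calc x ^ k = Real.exp (k * L) := by rw [Real.exp_nat_mul, ← hxe]
        _ ≤ Real.exp M := Real.exp_le_exp.2 hk2
    have e4 : Real.exp (M * (L * δ)) ≤ ((r : ℝ) + 1) ^ m := by
      rw [hM, Real.exp_nat_mul]
      apply pow_le_pow_left₀ (Real.exp_pos _).le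
      rw [← Real.rpow_def_of_pos hx0]
      linarith
    have e5 : M * (7 / 8) * δ * L + M < M * (L * δ) := by nlinarith
    calc (N : ℝ) ^ ((2 * m) / f) * (I * x ^ k)
        = ((N : ℝ) ^ ((2 * m) / f) * I) * x ^ k := by ring
      _ ≤ Real.exp (M * (7 / 8) * δ * L) * Real.exp M := by gcongr
      _ = Real.exp (M * (7 / 8) * δ * L + M) := (Real.exp_add _ _).symm
      _ < Real.exp (M * (L * δ)) := Real.exp_lt_exp.2 e5
      _ ≤ ((r : ℝ) + 1) ^ m := e4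
  · have h1 : ((2 * m * r * (2 * m + 1) : ℕ) : ℝ) ≤ ((k * N * q : ℕ) : ℝ) := by
      have h2 : ((2 * m * r * (2 * m + 1) : ℕ) : ℝ) = M * (2 * r * n') := by
        rw [hM, hn']
        push_cast
        ring
      have h3 : ((k * N * q : ℕ) : ℝ) = k * (N * x) := by
        rw [hx]
        push_cast
        ring
      rw [h2, h3]
      calc M * (2 * r * n') ≤ (2 * L * k) * (2 * r * n') :=
            mul_le_mul_of_nonneg_right hk3 (by positivity)
        _ = k * (4 * r * n' * L) := by ring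
        _ ≤ k * (N * x) := mul_le_mul_of_nonneg_left hN4 (by positivity)
    exact_mod_cast h1
  · have h2δ : 96 * L ^ 3 ≤ x ^ (2 * δ) := by
      have h1 : (5 * L) ^ 3 ≤ (x ^ (δ / 2)) ^ 3 := pow_le_pow_left₀ (by positivity) hL5 3
      have h2 : (x ^ (δ / 2)) ^ 3 = x ^ (δ / 2 * 3) := by
        rw [Real.rpow_mul hx0.le]
        norm_cast
      have h3 : x ^ (δ / 2 * 3) ≤ x ^ (2 * δ) :=
        Real.rpow_le_rpow_of_exponent_le hx1 (by linarith)
      have h4 : 0 < L ^ 3 := by positivity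
      nlinarith
    have h3δ : x ^ (2 * δ) * x ^ δ = x ^ (3 * δ) := by
      rw [← Real.rpow_add hx0]
      congr 1
      ring
    have h1 : 96 * L ^ 3 * x ^ δ ≤ x ^ (3 * δ) := by
      rw [← h3δ]
      exact mul_le_mul_of_nonneg_right h2δ (by positivity)
    have h2 : 12 * L ^ 2 ≤ x ^ (3 * δ) := by
      have h3 : 12 * L ^ 2 ≤ 96 * L ^ 3 := by nlinarith [sq_nonneg L, hL20, mul_pos hL0 hL0]
      have h4 : x ^ (2 * δ) ≤ x ^ (3 * δ) :=
        Real.rpow_le_rpow_of_exponent_le hx1 (by linarith)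
      linarith
    have hnx0 : 0 ≤ n' / x := by positivity
    calc 6 * M * N * L ≤ 6 * (2 * L * k) * N * L := by gcongr
      _ = k * (12 * L ^ 2 * N) := by ring
      _ ≤ k * (12 * L ^ 2 * (8 * x ^ δ * (n' / x) * L + 1)) := by gcongr
      _ = k * (96 * L ^ 3 * x ^ δ * (n' / x) + 12 * L ^ 2) := by ring
      _ ≤ k * (x ^ (3 * δ) * (n' / x) + x ^ (3 * δ)) := by gcongr
      _ = k * (x ^ (3 * δ) * (n' / x + 1)) := by ring

theorem exists_parB (δ : ℝ) (hδ : 0 < δ) (hδ1 : δ ≤ 1 / 10) : ∃ q0 : ℕ, ∀ (n q f : ℕ) (I : ℝ),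
    q0 ≤ q → Odd n → (n : ℝ) ≤ (q : ℝ) ^ (2 - 3 * δ) → (q : ℝ) ≤ (n : ℝ) ^ 2 → 8 / δ ≤ f → 0 < I →
    I ≤ Real.exp (δ / 4 * ((n - 1) / 2 : ℕ) * Real.log q) →
    ∃ k r N : ℕ, 1 ≤ k ∧ k ≤ (n - 1) / 2 ∧ 1 ≤ N ∧ N + 1 ≤ q ∧ 1 ≤ r ∧ r < q ∧
      (N : ℝ) ^ ((n - 1) / f) * (I * (q : ℝ) ^ k) < ((r : ℝ) + 1) ^ ((n - 1) / 2) ∧
      2 * ((n - 1) / 2) * r * n ≤ k * N * q ∧
      6 * (((n - 1) / 2 : ℕ) : ℝ) * N * Real.log q ≤ k * ((q : ℝ) ^ (3 * δ) * (n / q + 1)) := by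
  obtain ⟨q0, h⟩ := parb_core δ hδ hδ1
  exact ⟨q0, fun n q f I h1 h2 h3 h4 h5 h6 h7 => h n q f I h1 h2 h3 h4 h6 (Or.inl ⟨h5, h7⟩)⟩

theorem exists_parC (δ : ℝ) (hδ : 0 < δ) (hδ1 : δ ≤ 1 / 10) : ∃ q0 : ℕ, ∀ (n q f : ℕ) (I : ℝ),
    q0 ≤ q → Odd n → (n : ℝ) ≤ (q : ℝ) → (q : ℝ) ≤ (n : ℝ) ^ 2 → 3 ≤ f → 0 < I →
    I ≤ Real.exp (δ / 16 * ((n - 1) / 2 : ℕ) * Real.log q) →
    ∃ k r N : ℕ, 1 ≤ k ∧ k ≤ (n - 1) / 2 ∧ 1 ≤ N ∧ N + 1 ≤ q ∧ 1 ≤ r ∧ r < q ∧
      (N : ℝ) ^ ((n - 1) / f) * (I * (q : ℝ) ^ k) < ((r : ℝ) + 1) ^ ((n - 1) / 2) ∧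
      2 * ((n - 1) / 2) * r * n ≤ k * N * q ∧
      6 * (((n - 1) / 2 : ℕ) : ℝ) * N * Real.log q ≤ k * ((q : ℝ) ^ (3 * δ) * (n / q + 1)) := by
  obtain ⟨q0, h⟩ := parb_core δ hδ hδ1
  refine ⟨max q0 1, fun n q f I h1 h2 h3 h4 h5 h6 h7 => ?_⟩
  refine h n q f I ((le_max_left _ _).trans h1) h2 ?_ h4 h6 (Or.inr ⟨h5, h3, h7⟩)
  have hq1 : (1 : ℝ) ≤ q := by exact_mod_cast (le_max_right _ _).trans h1
  calc (n : ℝ) ≤ q := h3
    _ = (q : ℝ) ^ (1 : ℝ) := (Real.rpow_one _).symm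
    _ ≤ (q : ℝ) ^ (2 - 3 * δ) := Real.rpow_le_rpow_of_exponent_le hq1 (by linarith)

end Pool.Agent.NLS
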