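import Pool.Agent.NLS.UB
import Pool.Agent.NLS.ParB

/-!
# NLS-VGood: no solutions for the good exponents

`PL` is the statement of Part L (lower bound for the base).
-/

open NumberField Finset
open Pool.Agent.AAP Pool.Agent.Helper7.HU

namespace Pool.Agent.NLS

/-- the statement of the lower bound for the base -/
def PL : Prop := ∀ ε : ℝ, 0 < ε → ∃ q0 : ℕ, ∀ q n x y : ℕ, q0 ≤ q → q.Prime → 2 ≤ x →
  q ≤ 4 * n ^ 2 → n ≤ q ^ 2 → y ^ q * (x - 1) = x ^ n - 1 →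
    ((min n q : ℕ) : ℝ) ≤ Real.log x * (q : ℝ) ^ ε

private theorem vgood_large (ε δ : ℝ) (hε : 0 < ε) (hδ : 0 < δ) (h1 : δ ≤ 1 / 100) (h2 : δ ≤ ε / 20)
    (q0 : ℕ) : ∃ n0 : ℕ, 5 ≤ n0 ∧ ∀ n q : ℕ, n0 ≤ n → (n : ℝ) ^ (1 / 2 + ε) ≤ q → (q : ℝ) ≤ (n : ℝ) ^ 2 →
      q0 ≤ q ∧ 3 ≤ q ∧ n ≤ q ^ 2 ∧ q ≤ 4 * n ^ 2 ∧ (n : ℝ) ≤ (q : ℝ) ^ (2 - 3 * δ) ∧
      (q : ℝ) ^ (4 * δ) * (n / q + 1) < ((min n q : ℕ) : ℝ) := by
  have hlim : Filter.Tendsto (fun n : ℕ => ((n : ℝ)) ^ (min ε (1 / 2))) Filter.atTop Filter.atTop :=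
    (tendsto_rpow_atTop (by positivity)).comp tendsto_natCast_atTop_atTop
  obtain ⟨n0, hn0⟩ := Filter.eventually_atTop.1 (hlim.eventually_ge_atTop (max 3 (q0 : ℝ)))
  refine ⟨max n0 5, le_max_right _ _, fun n q hn hq1 hq2 => ?_⟩
  have hn' := hn0 n ((le_max_left _ _).trans hn)
  have hn5 : 5 ≤ n := (le_max_right _ _).trans hn
  have hn5R : (5 : ℝ) ≤ n := by exact_mod_cast hn5
  have hn1 : (1 : ℝ) ≤ n := by linarith
  have hnpos : (0 : ℝ) < n := by linarith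
  have hA : max 3 (q0 : ℝ) ≤ (n : ℝ) ^ (1 / 2 + ε) :=
    hn'.trans (Real.rpow_le_rpow_of_exponent_le hn1 ((min_le_left _ _).trans (by linarith)))
  have hq3 : (3 : ℝ) ≤ q := (le_max_left _ _).trans (hA.trans hq1)
  have hqpos : (0 : ℝ) < q := by linarith
  have hq1' : (1 : ℝ) ≤ q := by linarith
  have hq0 : (q0 : ℝ) ≤ q := (le_max_right _ _).trans (hA.trans hq1)
  -- `n ^ ((1/2 + ε) t) ≤ q ^ t`
  have hpow : ∀ t : ℝ, 0 ≤ t → (n : ℝ) ^ ((1 / 2 + ε) * t) ≤ (q : ℝ) ^ t := by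
    intro t ht
    rw [Real.rpow_mul hnpos.le]
    exact Real.rpow_le_rpow (by positivity) hq1 ht
  have hup : ∀ t : ℝ, 0 ≤ t → (q : ℝ) ^ t ≤ (n : ℝ) ^ (2 * t) := by
    intro t ht
    rw [Real.rpow_mul hnpos.le]
    refine Real.rpow_le_rpow hqpos.le ?_ ht
    calc (q : ℝ) ≤ (n : ℝ) ^ 2 := hq2
      _ = (n : ℝ) ^ (2 : ℝ) := by norm_cast
  refine ⟨by exact_mod_cast hq0, by exact_mod_cast hq3, ?_, ?_, ?_, ?_⟩
  · have h3 := hpow 2 (by norm_num)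
    have h4 : (n : ℝ) ≤ (n : ℝ) ^ ((1 / 2 + ε) * 2) := by
      calc (n : ℝ) = (n : ℝ) ^ (1 : ℝ) := (Real.rpow_one _).symm
        _ ≤ _ := Real.rpow_le_rpow_of_exponent_le hn1 (by linarith)
    have h5 : (n : ℝ) ≤ (q : ℝ) ^ (2 : ℝ) := h4.trans h3
    have h6 : (q : ℝ) ^ (2 : ℝ) = (q : ℝ) ^ 2 := by norm_cast
    rw [h6] at h5
    exact_mod_cast h5
  · have h3 : q ≤ n ^ 2 := by exact_mod_cast hq2
    omega
  · have h3 := hpow (2 - 3 * δ) (by linarith)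
    refine le_trans ?_ h3
    calc (n : ℝ) = (n : ℝ) ^ (1 : ℝ) := (Real.rpow_one _).symm
      _ ≤ _ := Real.rpow_le_rpow_of_exponent_le hn1 (by nlinarith)
  · have hn3 : (3 : ℝ) ≤ (n : ℝ) ^ (min ε (1 / 2)) := (le_max_left _ _).trans hn'
    rcases le_total q n with hqn | hqn
    · rw [min_eq_right hqn]
      have hqnR : (q : ℝ) ≤ n := by exact_mod_cast hqn
      have h3 : (n : ℝ) / q + 1 ≤ 2 * n / q := by
        rw [div_add_one hqpos.ne']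
        exact div_le_div_of_nonneg_right (by linarith) hqpos.le
      have h4 : (q : ℝ) ^ (4 * δ) * (n / q + 1) ≤ (q : ℝ) ^ (4 * δ) * (2 * n / q) :=
        mul_le_mul_of_nonneg_left h3 (by positivity)
      refine lt_of_le_of_lt h4 ?_
      rw [← mul_div_assoc, div_lt_iff₀ hqpos]
      -- `q ^ (4δ) * 2 n < q * q`
      have h5 := hpow (2 - 4 * δ) (by linarith)
      have h6 : (n : ℝ) ^ (1 + ε) ≤ (n : ℝ) ^ ((1 / 2 + ε) * (2 - 4 * δ)) :=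
        Real.rpow_le_rpow_of_exponent_le hn1 (by nlinarith)
      have h7 : 3 * (n : ℝ) ≤ (n : ℝ) ^ (1 + ε) := by
        rw [Real.rpow_add hnpos, Real.rpow_one]
        have h8 : (3 : ℝ) ≤ (n : ℝ) ^ ε :=
          hn3.trans (Real.rpow_le_rpow_of_exponent_le hn1 (min_le_left _ _))
        nlinarith
      have h9 : 2 * (n : ℝ) < (q : ℝ) ^ (2 - 4 * δ) := by linarith
      have h10 : (q : ℝ) * q = (q : ℝ) ^ (4 * δ) * (q : ℝ) ^ (2 - 4 * δ) := by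
        rw [← Real.rpow_add hqpos]
        have : 4 * δ + (2 - 4 * δ) = (2 : ℝ) := by ring
        rw [this]
        have h11 : (q : ℝ) ^ (2 : ℝ) = (q : ℝ) ^ 2 := by norm_cast
        rw [h11]
        ring
      rw [h10]
      exact mul_lt_mul_of_pos_left h9 (by positivity)
    · rw [min_eq_left hqn]
      have hqnR : (n : ℝ) ≤ q := by exact_mod_cast hqn
      have h3 : (n : ℝ) / q + 1 ≤ 2 := by
        have : (n : ℝ) / q ≤ 1 := (div_le_one hqpos).2 hqnR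
        linarith
      have h4 := hup (4 * δ) (by linarith)
      have h5 : (n : ℝ) ^ (2 * (4 * δ)) ≤ (n : ℝ) ^ (1 / 2 : ℝ) :=
        Real.rpow_le_rpow_of_exponent_le hn1 (by linarith)
      have h6 : (3 : ℝ) ≤ (n : ℝ) ^ (1 / 2 : ℝ) :=
        hn3.trans (Real.rpow_le_rpow_of_exponent_le hn1 (min_le_right _ _))
      have h7 : (n : ℝ) = (n : ℝ) ^ (1 / 2 : ℝ) * (n : ℝ) ^ (1 / 2 : ℝ) := by
        rw [← Real.rpow_add hnpos]
        norm_num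
      have h8 : (q : ℝ) ^ (4 * δ) * (n / q + 1) ≤ (n : ℝ) ^ (1 / 2 : ℝ) * 2 :=
        mul_le_mul (h4.trans h5) h3 (by positivity) (by positivity)
      refine lt_of_le_of_lt h8 ?_
      have h9 : (n : ℝ) ^ (1 / 2 : ℝ) * 2 < (n : ℝ) ^ (1 / 2 : ℝ) * (n : ℝ) ^ (1 / 2 : ℝ) :=
        mul_lt_mul_of_pos_left (by linarith) (by linarith)
      linarith

theorem good_none (hL : PL) (ε : ℝ) (hε : 0 < ε) : ∃ (δ : ℝ) (n0 : ℕ), 0 < δ ∧ 5 ≤ n0 ∧
    ∀ (n : ℕ) [Fact n.Prime] (q x y : ℕ), n0 ≤ n → q.Prime → q ≠ n →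
      (n : ℝ) ^ (1 / 2 + ε) ≤ q → (q : ℝ) ≤ (n : ℝ) ^ 2 → 8 / δ ≤ orderOf (q : ZMod n) →
      ((Lq n q).index : ℝ) ≤ Real.exp (δ / 4 * ((n - 1) / 2 : ℕ) * Real.log q) → 1 < x → 1 < y →
      y ^ q * (x - 1) ≠ x ^ n - 1 := by
  set δ : ℝ := min (1 / 100) (ε / 20) with hδ
  have hδ0 : 0 < δ := lt_min (by norm_num) (by positivity)
  have hδ1 : δ ≤ 1 / 100 := min_le_left _ _
  have hδ2 : δ ≤ ε / 20 := min_le_right _ _
  obtain ⟨q0, hq0⟩ := exists_parB δ hδ0 (by linarith)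
  obtain ⟨q1, hq1⟩ := hL δ hδ0
  obtain ⟨n0, hn05, hn0⟩ := vgood_large ε δ hε hδ0 hδ1 hδ2 (max q0 q1)
  refine ⟨δ, n0, hδ0, hn05, fun n _ q x y hn hq hqn h1 h2 h3 h4 hx hy heq => ?_⟩
  have hnp : n.Prime := Fact.out
  obtain ⟨hqq, hq3, hnq, hq4, hnq2, hfin⟩ := hn0 n q hn h1 h2
  have hn5 : 5 ≤ n := hn05.trans hn
  have hodd : Odd n := hnp.odd_of_ne_two (by omega)
  have S : Sol n q x y := ⟨hnp, hq, hn5, hq3, hqn, hx, hy, heq⟩
  have hcard : (H n).card = (n - 1) / 2 := card_H n (by omega)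
  have hI0 : (0 : ℝ) < ((Lq n q).index : ℝ) := by
    have := lq_index_ne (n := n) (by omega) q
    positivity
  obtain ⟨k, r, N, hk, hkm, hN, hNq, hr, hrq, hH2, hH3, hH4⟩ := hq0 n q (orderOf (q : ZMod n))
    ((Lq n q).index : ℝ) ((le_max_left _ _).trans hqq) hodd hnq2 h2 h3 hI0 h4
  have hub := upper S hk (by rw [hcard]; exact hkm) hN hNq hr hrq
    (by rw [hcard]; exact_mod_cast hH2) (by rw [hcard]; exact hH3)
  rw [hcard] at hub
  have hkR : (0 : ℝ) < k := by exact_mod_cast hk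
  have h5 : Real.log x ≤ (q : ℝ) ^ (3 * δ) * (n / q + 1) := by
    have h6 := hub.trans hH4
    exact le_of_mul_le_mul_left h6 hkR
  have h6 := hq1 q n x y ((le_max_right _ _).trans hqq) hq (by omega) hq4 hnq heq
  have hqpos : (0 : ℝ) < q := by
    have : 0 < q := by omega
    exact_mod_cast this
  have h7 : Real.log x * (q : ℝ) ^ δ ≤ (q : ℝ) ^ (4 * δ) * (n / q + 1) := by
    calc Real.log x * (q : ℝ) ^ δ ≤ ((q : ℝ) ^ (3 * δ) * (n / q + 1)) * (q : ℝ) ^ δ :=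
          mul_le_mul_of_nonneg_right h5 (by positivity)
      _ = ((q : ℝ) ^ (3 * δ) * (q : ℝ) ^ δ) * (n / q + 1) := by ring
      _ = (q : ℝ) ^ (4 * δ) * (n / q + 1) := by
          rw [← Real.rpow_add hqpos]
          congr 2
          ring
  linarith

theorem good_noneC (hL : PL) : ∃ (δ : ℝ) (n0 : ℕ), 0 < δ ∧ 5 ≤ n0 ∧
    ∀ (n : ℕ) [Fact n.Prime] (q x y : ℕ), n0 ≤ n → q.Prime → q ≠ n →
      n ≤ q → (q : ℝ) ≤ (n : ℝ) ^ 2 → 3 ≤ orderOf (q : ZMod n) →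
      ((Lq n q).index : ℝ) ≤ Real.exp (δ / 16 * ((n - 1) / 2 : ℕ) * Real.log q) → 1 < x → 1 < y →
      y ^ q * (x - 1) ≠ x ^ n - 1 := by
  set δ : ℝ := 1 / 100 with hδ
  have hδ0 : 0 < δ := by norm_num [hδ]
  obtain ⟨q0, hq0⟩ := exists_parC δ hδ0 (by norm_num [hδ])
  obtain ⟨q1, hq1⟩ := hL δ hδ0
  obtain ⟨n0, hn05, hn0⟩ := vgood_large (1 / 5) δ (by norm_num) hδ0 (by norm_num [hδ])
    (by norm_num [hδ]) (max q0 q1)
  refine ⟨δ, n0, hδ0, hn05, fun n _ q x y hn hq hqn h1 h2 h3 h4 hx hy heq => ?_⟩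
  have hnp : n.Prime := Fact.out
  have hn5 : 5 ≤ n := hn05.trans hn
  have hn1 : (1 : ℝ) ≤ n := by exact_mod_cast (by omega : 1 ≤ n)
  have h1R : (n : ℝ) ≤ q := by exact_mod_cast h1
  have h1' : (n : ℝ) ^ ((1 : ℝ) / 2 + 1 / 5) ≤ q := by
    refine le_trans ?_ h1R
    calc (n : ℝ) ^ ((1 : ℝ) / 2 + 1 / 5) ≤ (n : ℝ) ^ (1 : ℝ) :=
          Real.rpow_le_rpow_of_exponent_le hn1 (by norm_num)
      _ = n := Real.rpow_one _
  obtain ⟨hqq, hq3, hnq, hq4, hnq2, hfin⟩ := hn0 n q hn h1' h2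
  have hodd : Odd n := hnp.odd_of_ne_two (by omega)
  have S : Sol n q x y := ⟨hnp, hq, hn5, hq3, hqn, hx, hy, heq⟩
  have hcard : (H n).card = (n - 1) / 2 := card_H n (by omega)
  have hI0 : (0 : ℝ) < ((Lq n q).index : ℝ) := by
    have := lq_index_ne (n := n) (by omega) q
    positivity
  obtain ⟨k, r, N, hk, hkm, hN, hNq, hr, hrq, hH2, hH3, hH4⟩ := hq0 n q (orderOf (q : ZMod n))
    ((Lq n q).index : ℝ) ((le_max_left _ _).trans hqq) hodd h1R h2 h3 hI0 h4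
  have hub := upper S hk (by rw [hcard]; exact hkm) hN hNq hr hrq
    (by rw [hcard]; exact_mod_cast hH2) (by rw [hcard]; exact hH3)
  rw [hcard] at hub
  have hkR : (0 : ℝ) < k := by exact_mod_cast hk
  have h5 : Real.log x ≤ (q : ℝ) ^ (3 * δ) * (n / q + 1) := by
    have h6 := hub.trans hH4
    exact le_of_mul_le_mul_left h6 hkR
  have h6 := hq1 q n x y ((le_max_right _ _).trans hqq) hq (by omega) hq4 hnq heq
  have hqpos : (0 : ℝ) < q := by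
    have : 0 < q := by omega
    exact_mod_cast this
  have h7 : Real.log x * (q : ℝ) ^ δ ≤ (q : ℝ) ^ (4 * δ) * (n / q + 1) := by
    calc Real.log x * (q : ℝ) ^ δ ≤ ((q : ℝ) ^ (3 * δ) * (n / q + 1)) * (q : ℝ) ^ δ :=
          mul_le_mul_of_nonneg_right h5 (by positivity)
      _ = ((q : ℝ) ^ (3 * δ) * (q : ℝ) ^ δ) * (n / q + 1) := by ring
      _ = (q : ℝ) ^ (4 * δ) * (n / q + 1) := by
          rw [← Real.rpow_add hqpos]
          congr 2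
          ring
  linarith

end Pool.Agent.NLS
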