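import Pool.Agent.NLS.DgUp
import Pool.Agent.NLS.DgPar
import Pool.Agent.NLS.VGood

/-!
# NLS-DgFin: no solutions with `q = n` for large `n`
-/

open NumberField Finset
open Pool.Agent.AAP Pool.Agent.Helper7.HU

namespace Pool.Agent.NLS

private theorem dgfin_index {n : ℕ} [Fact n.Prime] (h5 : 5 ≤ n) {q : ℕ} (hq : q.Prime) :
    ((Lq n q).index : ℝ) ≤ Real.exp (1 / 2 * ((n - 1) / 2 : ℕ) * Real.log n) := by
  have hn2 : n ≠ 2 := by omega
  have hcard := card_H n hn2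
  have hi : (0 : ℝ) < ((Lq n q).index : ℝ) := by
    exact_mod_cast Nat.pos_of_ne_zero (lq_index_ne hn2 q)
  have hs := sum_log_index hn2 {q} fun q' hq' => by
    rw [mem_singleton] at hq'
    rw [hq']
    exact hq
  rw [sum_singleton, hcard] at hs
  rw [← Real.log_le_iff_le_exp hi]
  refine hs.trans ?_
  have hm2 : 2 ≤ (n - 1) / 2 := by omega
  have hmR : (2 : ℝ) ≤ (((n - 1) / 2 : ℕ) : ℝ) := by exact_mod_cast hm2
  have h4 : Real.log (((n - 1) / 2 : ℕ) : ℝ) ≤ Real.log n := by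
    refine Real.log_le_log (by linarith) ?_
    exact_mod_cast (by omega : (n - 1) / 2 ≤ n)
  have h6 : (((n - 1) / 2 : ℕ) : ℝ) / 2 * Real.log (((n - 1) / 2 : ℕ) : ℝ) ≤
      (((n - 1) / 2 : ℕ) : ℝ) / 2 * Real.log n := mul_le_mul_of_nonneg_left h4 (by linarith)
  linarith

/-- for large primes `n` the equation `y ^ n (x - 1) = x ^ n - 1` has no solution -/
theorem no_diag (hL : PL) : ∃ n0 : ℕ, ∀ n x y : ℕ, n0 ≤ n → n.Prime → 1 < x → 1 < y →
    y ^ n * (x - 1) ≠ x ^ n - 1 := by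
  obtain ⟨n1, hn1⟩ := exists_parDg
  obtain ⟨q1, hq1⟩ := hL (1 / 6) (by norm_num)
  refine ⟨max (max n1 q1) 5, fun n x y hn hnp hx hy heq => ?_⟩
  have : Fact n.Prime := ⟨hnp⟩
  have hn5 : 5 ≤ n := (le_max_right _ _).trans hn
  have hnn1 : n1 ≤ n := ((le_max_left _ _).trans (le_max_left _ _)).trans hn
  have hnq1 : q1 ≤ n := ((le_max_right _ _).trans (le_max_left _ _)).trans hn
  have hn0 : (0 : ℝ) < n := by
    have : 0 < n := by omega
    exact_mod_cast this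
  have hn1R : (1 : ℝ) < n := by
    have : 1 < n := by omega
    exact_mod_cast this
  have hodd : Odd n := hnp.odd_of_ne_two (by omega)
  have S : D0.Sol n n x y := ⟨hnp, hnp, hn5, by omega, hx, hy, heq⟩
  have hcard : (H n).card = (n - 1) / 2 := card_H n (by omega)
  have hI0 : (0 : ℝ) < ((Lq n n).index : ℝ) := by
    have := lq_index_ne (n := n) (by omega) n
    positivity
  obtain ⟨k, r, N, hk, hkm, hr, hrn, hN, hNn, hH2, hH3, hH4⟩ := hn1 n ((Lq n n).index : ℝ) hnn1 hodd hI0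
    (dgfin_index hn5 hnp)
  have hub := upperDg S hk (by rw [hcard]; exact hkm) hN hNn hrn
    (by rw [hcard]; exact_mod_cast hH2) (by rw [hcard]; exact hH3)
  rw [hcard] at hub
  have hkR : (0 : ℝ) < k := by exact_mod_cast hk
  have h5 : Real.log x ≤ (n : ℝ) ^ (2 / 3 : ℝ) := by
    have h6 := hub.trans hH4
    exact le_of_mul_le_mul_left h6 hkR
  have h6 := hq1 n n x y (by omega) hnp (by omega) (by nlinarith)
    (by nlinarith) heq
  rw [min_self] at h6
  have h7 : (n : ℝ) ≤ (n : ℝ) ^ (2 / 3 : ℝ) * (n : ℝ) ^ (1 / 6 : ℝ) :=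
    h6.trans (mul_le_mul_of_nonneg_right h5 (by positivity))
  rw [← Real.rpow_add hn0] at h7
  have h8 : (n : ℝ) ^ (2 / 3 + 1 / 6 : ℝ) < (n : ℝ) ^ (1 : ℝ) :=
    Real.rpow_lt_rpow_of_exponent_lt hn1R (by norm_num)
  rw [Real.rpow_one] at h8
  linarith

end Pool.Agent.NLS
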