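import Pool.Agent.NLS.DcOne
import Pool.Agent.NLS.DcDiv
import Pool.Agent.NLS.DcIdxM
import Pool.Agent.NLS.DgFin
import Pool.Agent.NLE.SqAll

/-!
# NLS-DcAll: bounds for the exponents, prime lengths

For a solution with exponent `m` and `q = 1` or `q` a prime `≥ n ^ (ι + ε)` exactly dividing `m`, with `m q ≥ n ^ (1 + ι + ε)`, the
exponent `m` has a divisor whose index is larger than `n ^ (ι (n - 1) / 2)` (`exists_big`). The indices for pairwise coprime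
exponents multiply to at most `n ^ ((n - 1) / 4)`, so there are fewer than `1 / (2 ι)` such exponents.
-/

open NumberField Finset
open Pool.Agent.AAP Pool.Agent.Helper7.HU

namespace Pool.Agent.NLS.DC

/-- `t.1` is the exponent of a solution of length `n`; `t.2` is `1` or a prime `≥ B` which exactly divides `t.1` -/
def Good (n : ℕ) (B : ℝ) (t : ℕ × ℕ) : Prop :=
  1 < t.1 ∧ (∃ x y : ℕ, 1 < x ∧ 1 < y ∧ y ^ t.1 * (x - 1) = x ^ n - 1) ∧
    (t.2 = 1 ∨ (t.2.Prime ∧ t.2 ∣ t.1 ∧ ¬ t.2 ^ 2 ∣ t.1 ∧ B ≤ t.2))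

private theorem dcall_down {n m d x y : ℕ} (hm : m ≠ 0) (hd : d ∣ m) (hy : 1 < y)
    (h : y ^ m * (x - 1) = x ^ n - 1) : ∃ z : ℕ, 1 < z ∧ z ^ d * (x - 1) = x ^ n - 1 := by
  obtain ⟨e, rfl⟩ := hd
  have he : e ≠ 0 := by
    rintro rfl
    exact hm (mul_zero d)
  refine ⟨y ^ e, Nat.one_lt_pow he hy, ?_⟩
  rw [← pow_mul, mul_comm e d]
  exact h

private theorem dcall_even {n x y : ℕ} (hn : 5 < n) (hx : 1 < x) (h : y ^ 2 * (x - 1) = x ^ n - 1) :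
    False := by
  have h1 : y ^ 2 = NL.rep x n := geom_eq hx h
  rcases NLE.sq_all hx (by omega) h1 with h2 | h2 <;> omega

theorem exists_big (ι ε : ℝ) (hι : 0 < ι) (hι' : ι ≤ 1 / 2) (hε : 0 < ε) (hε' : ε ≤ 1 / 2) :
    ∃ n0 : ℕ, ∀ (n : ℕ) [Fact n.Prime] (t : ℕ × ℕ), n0 ≤ n → Good n ((n : ℝ) ^ (ι + ε)) t →
    (n : ℝ) ^ (1 + ι + ε) ≤ (t.1 : ℝ) * t.2 →
    ∃ M : ℕ, M ∣ t.1 ∧ ι * ((n - 1) / 2 : ℕ) * Real.log n < Real.log ((Lq n M).index : ℝ) := by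
  obtain ⟨n1, hn1⟩ := none_whole ι ε hι hε
  obtain ⟨n2, hn2⟩ := none_pair ι ε hι hι' hε
  obtain ⟨n3, hn35, hn3⟩ := none_sq2
  obtain ⟨n4, hn4⟩ := no_diag partL2
  refine ⟨max (max n1 n2) (max (max n3 n4) 7), ?_⟩
  rintro n _ ⟨m, q⟩ hn ⟨hm1, ⟨x, y, hx, hy, heq⟩, hq⟩ hmq
  have hnp : n.Prime := Fact.out
  have hnn1 : n1 ≤ n := ((le_max_left _ _).trans (le_max_left _ _)).trans hn
  have hnn2 : n2 ≤ n := ((le_max_right _ _).trans (le_max_left _ _)).trans hn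
  have hnn3 : n3 ≤ n := (((le_max_left _ _).trans (le_max_left _ _)).trans (le_max_right _ _)).trans hn
  have hnn4 : n4 ≤ n := (((le_max_right _ _).trans (le_max_left _ _)).trans (le_max_right _ _)).trans hn
  have hn7 : 7 ≤ n := ((le_max_right _ _).trans (le_max_right _ _)).trans hn
  simp only at hm1 heq hq hmq ⊢
  have hm0 : m ≠ 0 := by omega
  have hn1R : (1 : ℝ) ≤ n := by
    have : 1 ≤ n := by omega
    exact_mod_cast this
  have hn0R : (0 : ℝ) < n := by linarith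
  -- `m` is prime to `2 n`
  have h2m : ¬ 2 ∣ m := by
    intro h
    obtain ⟨z, hz, hze⟩ := dcall_down hm0 h hy heq
    exact dcall_even (by omega) hx hze
  have hnm : ¬ n ∣ m := by
    intro h
    obtain ⟨z, hz, hze⟩ := dcall_down hm0 h hy heq
    exact hn4 n x z hnn4 hnp hx hz hze
  have hcop : m.Coprime (2 * n) := by
    refine Nat.Coprime.mul_right ?_ ?_
    · exact ((Nat.Prime.coprime_iff_not_dvd Nat.prime_two).2 h2m).symm
    · exact ((Nat.Prime.coprime_iff_not_dvd hnp).2 hnm).symm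
  -- the prime factors of `m`
  have hpr : ∀ p : ℕ, p.Prime → p ∣ m → (p : ℝ) ≤ (n : ℝ) ^ 2 := by
    intro p hp hpm
    obtain ⟨z, hz, hze⟩ := dcall_down hm0 hpm hy heq
    exact hn3 n p x z hnp hnn3 hp hx hz hze
  have hsq1 : (1 : ℝ) ≤ (n : ℝ) ^ 2 := one_le_pow₀ hn1R
  have hX1 : (1 : ℝ) ≤ (n : ℝ) ^ (1 + ι + ε) := Real.one_le_rpow hn1R (by linarith)
  have hX4 : (n : ℝ) ^ (1 + ι + ε) * (n : ℝ) ^ 2 ≤ (n : ℝ) ^ 4 := by
    have h1 : (n : ℝ) ^ (1 + ι + ε) ≤ (n : ℝ) ^ 2 := by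
      rw [← Real.rpow_natCast (n : ℝ) 2]
      refine Real.rpow_le_rpow_of_exponent_le hn1R ?_
      push_cast
      linarith
    calc (n : ℝ) ^ (1 + ι + ε) * (n : ℝ) ^ 2 ≤ (n : ℝ) ^ 2 * (n : ℝ) ^ 2 := by gcongr
      _ = (n : ℝ) ^ 4 := by ring
  rcases hq with hq1 | ⟨hq, hqm, hqm2, hqB⟩
  · -- the whole exponent
    rw [hq1, Nat.cast_one, mul_one] at hmq
    obtain ⟨D, hD, hXD, hDB⟩ := exists_smooth_dvd hX1 hsq1 hm0 hpr hmq
    refine ⟨D, hD, ?_⟩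
    by_contra hcon
    push Not at hcon
    obtain ⟨z, hz, hze⟩ := dcall_down hm0 hD hy heq
    have hnX : (n : ℝ) ≤ (n : ℝ) ^ (1 + ι + ε) := by
      calc (n : ℝ) = (n : ℝ) ^ (1 : ℝ) := (Real.rpow_one _).symm
        _ ≤ (n : ℝ) ^ (1 + ι + ε) := Real.rpow_le_rpow_of_exponent_le hn1R (by linarith)
    have hD3 : 3 ≤ D := by
      have h1 : (n : ℝ) ≤ D := hnX.trans hXD
      have h2 : n ≤ D := by exact_mod_cast h1
      omega
    exact hn1 n D x z hnn1 (Nat.Coprime.coprime_dvd_left hD hcop) hD3 hXD (hDB.trans hX4) hcon hx hz hze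
  · -- `q` exactly divides `m`
    obtain ⟨A, hA⟩ := hqm
    have hqA : ¬ q ∣ A := by
      rintro ⟨B, hB⟩
      apply hqm2
      refine ⟨B, ?_⟩
      rw [hA, hB]
      ring
    have hA0 : A ≠ 0 := by
      rintro rfl
      exact hqA (dvd_zero q)
    have hq0 : (0 : ℝ) < q := by exact_mod_cast hq.pos
    have hqn : q ≠ n := by
      rintro rfl
      exact hnm ⟨A, hA⟩
    have hAm : A ∣ m := ⟨q, by rw [hA, mul_comm]⟩
    have hq2n : (q : ℝ) ≤ (n : ℝ) ^ 2 := hpr q hq ⟨A, hA⟩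
    have hXA : max 1 ((n : ℝ) ^ (1 + ι + ε) / (q : ℝ) ^ 2) ≤ (A : ℝ) := by
      refine max_le ?_ ?_
      · exact_mod_cast Nat.one_le_iff_ne_zero.2 hA0
      · rw [div_le_iff₀ (by positivity)]
        refine hmq.trans (le_of_eq ?_)
        rw [hA]
        push_cast
        ring
    obtain ⟨D, hD, hXD, hDB⟩ := exists_smooth_dvd (le_max_left 1 ((n : ℝ) ^ (1 + ι + ε) / (q : ℝ) ^ 2)) hsq1 hA0
      (fun p hp hpA => hpr p hp (hpA.trans hAm)) hXA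
    have hqDm : q * D ∣ m := by
      rw [hA]
      exact Nat.mul_dvd_mul_left q hD
    refine ⟨q * D, hqDm, ?_⟩
    by_contra hcon
    push Not at hcon
    obtain ⟨z, hz, hze⟩ := dcall_down hm0 hqDm hy heq
    refine hn2 n q D x z hnn2 hq hqn (fun h => hqA (h.trans hD)) (Nat.Coprime.coprime_dvd_left hqDm hcop) hqB
      ?_ ?_ hcon hx hz hze
    · have h1 : (D : ℝ) * q ≤ (n : ℝ) ^ 4 := by
        calc (D : ℝ) * q ≤ max 1 ((n : ℝ) ^ (1 + ι + ε) / (q : ℝ) ^ 2) * (n : ℝ) ^ 2 * q :=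
              mul_le_mul_of_nonneg_right hDB hq0.le
          _ ≤ (n : ℝ) ^ 4 := by
              rcases le_total 1 ((n : ℝ) ^ (1 + ι + ε) / (q : ℝ) ^ 2) with h | h
              · rw [max_eq_right h]
                have h2 : (n : ℝ) ^ (1 + ι + ε) / (q : ℝ) ^ 2 * q ≤ (n : ℝ) ^ (1 + ι + ε) := by
                  have hq1 : (1 : ℝ) ≤ q := by exact_mod_cast hq.one_lt.le
                  rw [pow_two, div_mul_eq_mul_div, div_le_iff₀ (by positivity)]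
                  refine mul_le_mul_of_nonneg_left ?_ (by linarith)
                  nlinarith
                calc (n : ℝ) ^ (1 + ι + ε) / (q : ℝ) ^ 2 * (n : ℝ) ^ 2 * q
                    = (n : ℝ) ^ (1 + ι + ε) / (q : ℝ) ^ 2 * q * (n : ℝ) ^ 2 := by ring
                  _ ≤ (n : ℝ) ^ (1 + ι + ε) * (n : ℝ) ^ 2 := mul_le_mul_of_nonneg_right h2 (by positivity)
                  _ ≤ (n : ℝ) ^ 4 := hX4
              · rw [max_eq_left h, one_mul]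
                calc (n : ℝ) ^ 2 * q ≤ (n : ℝ) ^ 2 * (n : ℝ) ^ 2 := by gcongr
                  _ = (n : ℝ) ^ 4 := by ring
      rw [Nat.cast_mul, mul_comm]
      exact h1
    · have h1 : (n : ℝ) ^ (1 + ι + ε) / (q : ℝ) ^ 2 ≤ D := (le_max_right _ _).trans hXD
      rw [div_le_iff₀ (by positivity)] at h1
      rw [Nat.cast_mul]
      linarith

/-- fixed number of exponents -/
private theorem dcall_fixed (j : ℕ) (hj : 1 ≤ j) (ε : ℝ) (hε : 0 < ε) (hε' : ε ≤ 1 / 2) : ∃ n0 : ℕ, ∀ n : ℕ, n0 ≤ n → n.Prime →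
    ∀ P : Finset (ℕ × ℕ), P.card = j → (∀ t ∈ P, Good n ((n : ℝ) ^ (1 / (2 * (j : ℝ)) + ε)) t) →
    (∀ s ∈ P, ∀ t ∈ P, s ≠ t → s.1.Coprime t.1) →
    ∃ t ∈ P, (t.1 : ℝ) * t.2 < (n : ℝ) ^ (1 + 1 / (2 * (j : ℝ)) + ε) := by
  obtain ⟨ι, hιdef⟩ : ∃ ι : ℝ, ι = 1 / (2 * (j : ℝ)) := ⟨_, rfl⟩
  have hj1 : (1 : ℝ) ≤ j := by exact_mod_cast hj
  have hι0 : 0 < ι := by
    rw [hιdef]
    positivity
  have hι1 : ι ≤ 1 / 2 := by
    rw [hιdef]
    exact one_div_le_one_div_of_le (by norm_num) (by linarith)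
  have hιj : (j : ℝ) * ι = 1 / 2 := by
    rw [hιdef]
    field_simp
  obtain ⟨n1, hn1⟩ := exists_big ι ε hι0 hι1 hε hε'
  refine ⟨max n1 7, fun n hn hnp P hPj hP hcop => ?_⟩
  have : Fact n.Prime := ⟨hnp⟩
  have hnn1 : n1 ≤ n := (le_max_left _ _).trans hn
  have hn7 : 7 ≤ n := (le_max_right _ _).trans hn
  rw [← hιdef] at hP ⊢
  by_contra hcon
  push Not at hcon
  have hex : ∀ t : ℕ × ℕ, ∃ M : ℕ, t ∈ P → M ∣ t.1 ∧
      ι * ((n - 1) / 2 : ℕ) * Real.log n < Real.log ((Lq n M).index : ℝ) := by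
    intro t
    by_cases ht : t ∈ P
    · obtain ⟨M, hM⟩ := hn1 n t hnn1 (hP t ht) (hcon t ht)
      exact ⟨M, fun _ => hM⟩
    · exact ⟨0, fun h => absurd h ht⟩
  choose f hf using hex
  have hP0 : P.Nonempty := by
    rw [← Finset.card_pos]
    omega
  have hsum := Finset.sum_lt_sum_of_nonempty hP0 fun t ht => (hf t ht).2
  rw [Finset.sum_const, hPj, nsmul_eq_mul] at hsum
  have hs := sum_log_index (n := n) (by omega) f P fun s hs t ht hst =>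
    Nat.Coprime.coprime_dvd_left (hf s hs).1 (Nat.Coprime.coprime_dvd_right (hf t ht).1 (hcop s hs t ht hst))
  rw [card_H n (by omega)] at hs
  have hm2 : 2 ≤ (n - 1) / 2 := by omega
  have hmR : (2 : ℝ) ≤ (((n - 1) / 2 : ℕ) : ℝ) := by exact_mod_cast hm2
  have h4 : Real.log (((n - 1) / 2 : ℕ) : ℝ) ≤ Real.log n := by
    refine Real.log_le_log (by linarith) ?_
    exact_mod_cast (by omega : (n - 1) / 2 ≤ n)
  have h6 : (((n - 1) / 2 : ℕ) : ℝ) / 2 * Real.log (((n - 1) / 2 : ℕ) : ℝ) ≤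
      (((n - 1) / 2 : ℕ) : ℝ) / 2 * Real.log n := mul_le_mul_of_nonneg_left h4 (by linarith)
  have h7 : (j : ℝ) * (ι * ((n - 1) / 2 : ℕ) * Real.log n) =
      (((n - 1) / 2 : ℕ) : ℝ) / 2 * Real.log n := by
    calc (j : ℝ) * (ι * (((n - 1) / 2 : ℕ) : ℝ) * Real.log n) =
          ((j : ℝ) * ι) * ((((n - 1) / 2 : ℕ) : ℝ) * Real.log n) := by ring
      _ = _ := by rw [hιj]; ring
  rw [h7] at hsum
  linarith

private theorem dcall_unif (ε : ℝ) (hε : 0 < ε) (hε' : ε ≤ 1 / 2) : ∃ n0 : ℕ, ∀ n : ℕ, n0 ≤ n → n.Prime →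
    ∀ P : Finset (ℕ × ℕ), P.Nonempty → (∀ t ∈ P, Good n ((n : ℝ) ^ (1 / (2 * (P.card : ℝ)) + ε)) t) →
    (∀ s ∈ P, ∀ t ∈ P, s ≠ t → s.1.Coprime t.1) →
    ∃ t ∈ P, (t.1 : ℝ) * t.2 < (n : ℝ) ^ (1 + 1 / (2 * (P.card : ℝ)) + ε) := by
  -- `K` with `1 / (2 K) ≤ ε / 2`
  obtain ⟨K, hK⟩ := exists_nat_gt (1 / ε)
  have hK1 : 1 ≤ K := by
    rcases Nat.eq_zero_or_pos K with h | h
    · rw [h, Nat.cast_zero] at hK
      have : 0 < 1 / ε := by positivity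
      linarith
    · exact h
  have hK0 : (0 : ℝ) < K := by exact_mod_cast hK1
  have hKε : 1 / (2 * (K : ℝ)) ≤ ε / 2 := by
    rw [div_lt_iff₀ hε] at hK
    rw [div_le_iff₀ (by positivity)]
    nlinarith
  have hex : ∀ j : ℕ, ∃ n0 : ℕ, 1 ≤ j → ∀ n : ℕ, n0 ≤ n → n.Prime →
      ∀ P : Finset (ℕ × ℕ), P.card = j → (∀ t ∈ P, Good n ((n : ℝ) ^ (1 / (2 * (j : ℝ)) + ε / 2)) t) →
      (∀ s ∈ P, ∀ t ∈ P, s ≠ t → s.1.Coprime t.1) →
      ∃ t ∈ P, (t.1 : ℝ) * t.2 < (n : ℝ) ^ (1 + 1 / (2 * (j : ℝ)) + ε / 2) := by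
    intro j
    by_cases hj : 1 ≤ j
    · obtain ⟨n0, h⟩ := dcall_fixed j hj (ε / 2) (by positivity) (by linarith)
      exact ⟨n0, fun _ => h⟩
    · exact ⟨0, fun h => absurd h hj⟩
  choose f hf using hex
  refine ⟨max 2 ((range (K + 1)).sup f), fun n hn hnp P hP0 hP hcop => ?_⟩
  have hn1 : (1 : ℝ) ≤ n := by exact_mod_cast hnp.one_lt.le
  have hfn : ∀ j, j ≤ K → f j ≤ n := fun j hj =>
    (Finset.le_sup (mem_range.2 (Nat.lt_succ_of_le hj))).trans ((le_max_right _ _).trans hn)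
  have hPc : 1 ≤ P.card := hP0.card_pos
  have hPc' : (0 : ℝ) < P.card := by exact_mod_cast hPc
  obtain ⟨j, hj⟩ : ∃ j, j = min P.card K := ⟨_, rfl⟩
  have hj1 : 1 ≤ j := by
    rw [hj]
    exact le_min hPc hK1
  have hjK : j ≤ K := by
    rw [hj]
    exact min_le_right _ _
  have hjP : j ≤ P.card := by
    rw [hj]
    exact min_le_left _ _
  have hmin : 1 / (2 * (j : ℝ)) ≤ 1 / (2 * (P.card : ℝ)) + ε / 2 := by
    rcases le_total P.card K with h | h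
    · rw [hj, min_eq_left h]
      linarith
    · rw [hj, min_eq_right h]
      have : 0 ≤ 1 / (2 * (P.card : ℝ)) := by positivity
      linarith
  obtain ⟨Q, hQP, hQc⟩ := Finset.exists_subset_card_eq hjP
  obtain ⟨t, ht, hlt⟩ := hf j hj1 n (hfn j hjK) hnp Q hQc (fun t ht => by
    obtain ⟨h1, h2, h3⟩ := hP t (hQP ht)
    refine ⟨h1, h2, h3.imp_right fun h => ⟨h.1, h.2.1, h.2.2.1, le_trans ?_ h.2.2.2⟩⟩
    exact Real.rpow_le_rpow_of_exponent_le hn1 (by linarith))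
    fun s hs t ht => hcop s (hQP hs) t (hQP ht)
  exact ⟨t, hQP ht, lt_of_lt_of_le hlt (Real.rpow_le_rpow_of_exponent_le hn1 (by linarith))⟩

/-- **prime lengths**: among pairwise coprime exponents `t.1` of solutions of length `n`, with `t.2 = 1` or `t.2` a large prime
which exactly divides `t.1`, the smallest product `t.1 * t.2` is smaller than `n ^ (1 + 1/(2 |P|) + ε)` -/
theorem full_prime (ε : ℝ) (hε : 0 < ε) : ∃ n0 : ℕ, ∀ n : ℕ, n0 ≤ n → n.Prime →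
    ∀ P : Finset (ℕ × ℕ), P.Nonempty → (∀ t ∈ P, Good n ((n : ℝ) ^ (1 / (2 * (P.card : ℝ)) + ε)) t) →
    (∀ s ∈ P, ∀ t ∈ P, s ≠ t → s.1.Coprime t.1) →
    ∃ t ∈ P, (t.1 : ℝ) * t.2 < (n : ℝ) ^ (1 + 1 / (2 * (P.card : ℝ)) + ε) := by
  obtain ⟨n0, h0⟩ := dcall_unif (min ε (1 / 2)) (lt_min hε (by norm_num)) (min_le_right _ _)
  refine ⟨max n0 1, fun n hn hnp P hP0 hP hcop => ?_⟩
  have hn1 : (1 : ℝ) ≤ n := by exact_mod_cast hnp.one_lt.le
  have hle : min ε (1 / 2) ≤ ε := min_le_left _ _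
  obtain ⟨t, ht, hlt⟩ := h0 n ((le_max_left _ _).trans hn) hnp P hP0 (fun t ht => by
    obtain ⟨h1, h2, h3⟩ := hP t ht
    refine ⟨h1, h2, h3.imp_right fun h => ⟨h.1, h.2.1, h.2.2.1, le_trans ?_ h.2.2.2⟩⟩
    exact Real.rpow_le_rpow_of_exponent_le hn1 (by linarith)) hcop
  exact ⟨t, ht, lt_of_lt_of_le hlt (Real.rpow_le_rpow_of_exponent_le hn1 (by linarith))⟩

end Pool.Agent.NLS.DC
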