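import Pool.Agent.NLS.DcIdx
import Pool.Agent.NLS.Ang
import Pool.Agent.NLS.DcNormB
import Pool.Agent.NLS.DcNeOne
import Pool.Agent.NLS.Pig
import Pool.Agent.NLS.Emb

/-!
# NLS-DcCrit: the criterion, composite exponents

A nonzero point of the lattice of exponents in a box gives an element close to `1` at many embeddings; its norm is bounded
from below by `norm_lower` and from above by `norm_le_T`.
-/

open NumberField Finset
open Pool.Agent.AAP Pool.Agent.Helper7.HU

namespace Pool.Agent.NLS.DC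

private theorem dccrit_y {n q x y : ℕ} (S : Sol n q x y) : y ^ q < x ^ n := by
  have h1 := S.eq
  have h2 := S.hx
  have h3 : 1 ≤ x ^ n := Nat.one_le_pow _ _ (by omega)
  have h4 : y ^ q * 1 ≤ y ^ q * (x - 1) := Nat.mul_le_mul_left _ (by omega)
  omega

/-- the arithmetic of the exponents -/
private theorem dccrit_nat {n q x y : ℕ} (S : Sol n q x y) {m k r : ℕ} (hk : 1 ≤ k) (hr : 4 ≤ r)
    (h : x ^ (2 * k) ≤ y ^ (m * r) * 16 ^ m) (h2 : n * m * r ≤ k * q) : False := by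
  have hx := S.hx
  have hxp : 0 < x := by omega
  have h3 : (x ^ (2 * k)) ^ q ≤ (y ^ (m * r) * 16 ^ m) ^ q := Nat.pow_le_pow_left h q
  have h4 : (y ^ (m * r) * 16 ^ m) ^ q ≤ x ^ (k * q) * (16 ^ m) ^ q := by
    rw [mul_pow]
    refine Nat.mul_le_mul_right _ ?_
    calc (y ^ (m * r)) ^ q = (y ^ q) ^ (m * r) := by rw [← pow_mul, ← pow_mul, mul_comm]
      _ ≤ (x ^ n) ^ (m * r) := Nat.pow_le_pow_left (dccrit_y S).le _
      _ = x ^ (n * m * r) := by rw [← pow_mul, mul_assoc]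
      _ ≤ x ^ (k * q) := Nat.pow_le_pow_right hxp h2
  have h5 : x ^ (k * q) * x ^ (k * q) ≤ x ^ (k * q) * (16 ^ m) ^ q := by
    refine le_trans (le_of_eq ?_) (h3.trans h4)
    rw [← pow_add, ← pow_mul]
    congr 1
    ring
  have h6 : (x ^ k) ^ q ≤ (16 ^ m) ^ q := by
    rw [← pow_mul]
    exact Nat.le_of_mul_le_mul_left h5 (Nat.pow_pos hxp)
  have hq := S.hq3
  have h7 : x ^ k ≤ 16 ^ m := (Nat.pow_le_pow_iff_left (by omega)).1 h6
  have h8 : 2 ^ (q * k) < 2 ^ (4 * m * n) := by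
    calc 2 ^ (q * k) = (2 ^ q) ^ k := by rw [pow_mul]
      _ ≤ (y ^ q) ^ k := Nat.pow_le_pow_left (Nat.pow_le_pow_left S.hy _) _
      _ < (x ^ n) ^ k := Nat.pow_lt_pow_left (dccrit_y S) (by omega)
      _ = (x ^ k) ^ n := by rw [← pow_mul, ← pow_mul, mul_comm]
      _ ≤ (16 ^ m) ^ n := Nat.pow_le_pow_left h7 _
      _ = 2 ^ (4 * m * n) := by
        rw [show (16 : ℕ) = 2 ^ 4 by norm_num, ← pow_mul, ← pow_mul, ← mul_assoc]
  have h9 : q * k < 4 * m * n := (Nat.pow_lt_pow_iff_right (by norm_num)).1 h8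
  have h10 : n * m * 4 ≤ n * m * r := Nat.mul_le_mul_left _ hr
  have h11 : 4 * m * n = n * m * 4 := by ring
  have h12 : q * k = k * q := by ring
  omega

private theorem dccrit_cyc (m : ℕ) [NeZero m] : ∃ (K : Type) (_ : Field K) (_ : NumberField K)
    (_ : IsCyclotomicExtension {m} ℚ K), True := by
  have h1 : @IsCyclotomicExtension {m} ℚ (CyclotomicField m ℚ) _ _
      (CyclotomicField.algebra m ℚ) := CyclotomicField.isCyclotomicExtension m ℚ
  have e : (CyclotomicField.algebra m ℚ : Algebra ℚ (CyclotomicField m ℚ)) =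
      DivisionRing.toRatAlgebra := Subsingleton.elim _ _
  rw [e] at h1
  exact ⟨CyclotomicField m ℚ, inferInstance, IsCyclotomicExtension.numberField {m} ℚ _, h1,
    trivial⟩

private theorem dccrit_aux {n : ℕ} [Fact n.Prime] {q x y : ℕ} (S : Sol n q x y) {k r : ℕ} (hk : 1 ≤ k)
    (hkm : k ≤ (H n).card) (hr : 4 ≤ r) (h1 : (Lq n q).index * q ^ k < (r + 1) ^ (H n).card)
    (h2 : n * (H n).card * r ≤ k * q) (L : Type) [Field L] [NumberField L]
    [IsCyclotomicExtension {n} ℚ L] : False := by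
  have hn3 : 3 ≤ n := by
    have := S.hn5
    omega
  obtain ⟨T, hT1, hT2⟩ := exists_T n L hn3 hkm
  obtain ⟨h0, hidx⟩ := lam_index (K := L) S T
  rw [hT1] at hidx
  obtain ⟨s, hs1, hs2, hs3⟩ := pigeon (Lam (n := n) (K := L) q S.hx T) h0 (r := r) (by
    rw [Fintype.card_coe]
    exact lt_of_le_of_lt hidx h1)
  obtain ⟨b, hb⟩ := (mem_Lam S.hx).1 hs1
  have hq1 : 1 ≤ q := by
    have := S.hq3
    omega
  have hb1 : b - 1 ≠ 0 := by
    intro h
    have h3 : b = 1 := by linear_combination h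
    refine pr_ne_one (K := L) S hs2 ?_
    rw [← hb.1, h3, one_pow]
  have hsum : ∑ i ∈ (Finset.univ : Finset Bool), (((if i then (1 : 𝓞 L) else -1 :
      𝓞 L)) : L) * (if i then b else 1) = b - 1 := by
    rw [Fintype.sum_bool]
    simp
    ring
  have key := norm_lower S (ι := Bool) Finset.univ (fun i => if i then s else 0) (fun i => if i then b else 1)
    (fun i => if i then 1 else -1) (fun e => (s e).toNat) (fun e => (-s e).toNat) (by
      intro i _ e
      cases i with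
      | true =>
        show -(((-s e).toNat : ℕ) : ℤ) ≤ s e ∧ s e ≤ (((s e).toNat : ℕ) : ℤ)
        omega
      | false =>
        show -(((-s e).toNat : ℕ) : ℤ) ≤ (0 : H n → ℤ) e ∧ (0 : H n → ℤ) e ≤ (((s e).toNat : ℕ) : ℤ)
        rw [Pi.zero_apply]
        omega) (by
      intro i _
      cases i with
      | true => exact hb.1
      | false =>
        show (1 : L) ^ q = pr n _ x 0
        rw [one_pow, pr_zero]) (by
      rw [hsum]
      exact hb1)
  rw [hsum] at key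
  have hE : ∑ e : H n, ((s e).toNat + (-s e).toNat) ≤ (H n).card * r := by
    have h3 : ∑ e : H n, ((s e).toNat + (-s e).toNat) ≤ ∑ _e : H n, r := by
      refine Finset.sum_le_sum fun e _ => ?_
      have h4 := abs_le.1 (hs3 e)
      omega
    refine h3.trans (le_of_eq ?_)
    rw [Finset.sum_const, Finset.card_univ, Fintype.card_coe, smul_eq_mul]
  have hx0 : (0 : ℝ) < x := by
    have := S.hx
    exact_mod_cast (by omega : 0 < x)
  have hq0 : (0 : ℝ) < q := by exact_mod_cast hq1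
  have hA : ∀ τ ∈ T, ‖τ (b - 1)‖ ≤ 4 / x := by
    intro τ hτ
    rw [map_sub, map_one]
    refine (root_near S.hx hq1 hb hs3 hτ).trans ?_
    rw [div_le_div_iff₀ (by positivity) hx0]
    have h3 : (n : ℝ) * (H n).card * r ≤ k * q := by exact_mod_cast h2
    have h4 : 2 * (k : ℝ) ≤ n := by
      have h5 := card_H n (by omega)
      have h6 : 2 * k ≤ n := by omega
      exact_mod_cast h6
    have hn0 : (0 : ℝ) < n := by exact_mod_cast (by omega : 0 < n)
    have h7 : (n : ℝ) * (2 * ((H n).card * r)) ≤ n * q := by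
      have h8 : 2 * (k : ℝ) * q ≤ n * q := mul_le_mul_of_nonneg_right h4 hq0.le
      nlinarith
    have h9 : 2 * (((H n).card : ℝ) * r) ≤ q := le_of_mul_le_mul_left h7 hn0
    have h10 : 7 * ((H n).card : ℝ) * r ≤ 4 * q := by nlinarith
    calc 7 * ((H n).card : ℝ) * r * x ≤ 4 * q * x := mul_le_mul_of_nonneg_right h10 hx0.le
      _ = 4 * (x * q) := by ring
  have hB : ∀ τ : L →+* ℂ, ‖τ (b - 1)‖ ≤ 2 := by
    intro τ
    rw [map_sub, map_one]
    refine (norm_sub_le _ _).trans ?_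
    rw [root_norm S.hx hq1 hb.1 τ, norm_one]
    norm_num
  obtain ⟨-, hN⟩ := norm_le_T hn3 hT2 (b - 1) hA hB
  rw [hT1] at hN
  have hy1 : (1 : ℝ) ≤ y := by
    have := S.hy
    exact_mod_cast (by omega : 1 ≤ y)
  have hfin : (x : ℝ) ^ (2 * k) ≤ (y : ℝ) ^ ((H n).card * r) * 16 ^ (H n).card := by
    have h3 : (1 : ℝ) ≤ (y : ℝ) ^ ((H n).card * r) * ((4 / x) ^ (2 * k) * 2 ^ (2 * ((H n).card - k))) :=
      key.trans (mul_le_mul (pow_le_pow_right₀ hy1 hE) hN (abs_nonneg _) (by positivity))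
    have h4 : (4 / (x : ℝ)) ^ (2 * k) = 4 ^ (2 * k) / (x : ℝ) ^ (2 * k) := div_pow _ _ _
    have h5 : (0 : ℝ) < (x : ℝ) ^ (2 * k) := by positivity
    have h6 : (x : ℝ) ^ (2 * k) ≤ (y : ℝ) ^ ((H n).card * r) * (4 ^ (2 * k) * 2 ^ (2 * ((H n).card - k))) := by
      rw [h4] at h3
      calc (x : ℝ) ^ (2 * k) = x ^ (2 * k) * 1 := by rw [mul_one]
        _ ≤ x ^ (2 * k) * ((y : ℝ) ^ ((H n).card * r) * (4 ^ (2 * k) / x ^ (2 * k) * 2 ^ (2 * ((H n).card - k)))) :=
          mul_le_mul_of_nonneg_left h3 h5.le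
        _ = _ := by
          field_simp
    refine h6.trans (mul_le_mul_of_nonneg_left ?_ (by positivity))
    rw [show (4 : ℝ) = 2 ^ 2 by norm_num, show (16 : ℝ) = 2 ^ 4 by norm_num, ← pow_mul, ← pow_mul, ← pow_add]
    exact pow_le_pow_right₀ (by norm_num) (by omega)
  exact dccrit_nat S hk hr (m := (H n).card) (by exact_mod_cast hfin) h2

theorem crit {n : ℕ} [Fact n.Prime] {q x y : ℕ} (S : Sol n q x y) {k r : ℕ} (hk : 1 ≤ k)
    (hkm : k ≤ (H n).card) (hr : 4 ≤ r) (h1 : (Lq n q).index * q ^ k < (r + 1) ^ (H n).card)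
    (h2 : n * (H n).card * r ≤ k * q) : False := by
  have hne : NeZero n := ⟨(Fact.out : n.Prime).ne_zero⟩
  obtain ⟨L, _, _, _, _⟩ := dccrit_cyc n
  exact dccrit_aux S hk hkm hr h1 h2 L

end Pool.Agent.NLS.DC
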