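import Pool.Agent.NLS.Defs

/-!
# NLS-DC: solutions with a composite exponent

The files `DcCop`, `DcRows`, `DcNeOne`, `DcNormB`, `DcNStep`, `DcUnit`, `DcIdx`, `DcUp`, `DcCrit` are the files `Cop`, `Rows`, `NeOne`,
`NormB`, `NStepG`, `UnitRt`, `IdxT`, `UBH`, `Crit` for an exponent `q ≥ 3` prime to `2 n`.
-/

namespace Pool.Agent.NLS.DC

/-- a solution of the equation with prime length `n ≥ 5` and an exponent `q ≥ 3` prime to `2 n` -/
structure Sol (n q x y : ℕ) : Prop where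
  hn : n.Prime
  hq : q.Coprime (2 * n)
  hn5 : 5 ≤ n
  hq3 : 3 ≤ q
  hx : 1 < x
  hy : 1 < y
  eq : y ^ q * (x - 1) = x ^ n - 1

theorem Sol.ne0 {n q x y : ℕ} (S : Sol n q x y) : q ≠ 0 := by
  have := S.hq3
  omega

end Pool.Agent.NLS.DC
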