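import Pool.Agent.NLS.Defs
import Pool.Agent.Helper7.HU.NZ
import Pool.Agent.Helper42.Asum.Hadamard

/-!
# NLS-IdxM: the index of the lattice of the Stickelberger relations modulo `q`

The index of the row lattice of `M n` is `|det (M n)|`; the index of `Lq n q` divides it and a power of
`q`, so the indices for different primes are coprime. Hadamard's inequality bounds the determinant.
-/

open NumberField Finset
open Pool.Agent.AAP Pool.Agent.Helper7.HU

namespace Pool.Agent.NLS

variable {n : ℕ} [Fact n.Prime]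

private theorem idxm_index (hn2 : n ≠ 2) :
    ((Matrix.vecMulLinear (M n)).toAddMonoidHom.range).index = (M n).det.natAbs := by
  have hd : (M n).det ≠ 0 := det_ne hn2
  have hinj : Function.Injective (Matrix.vecMulLinear (M n)) := by
    rw [injective_iff_map_eq_zero]
    intro v hv
    exact Matrix.eq_zero_of_vecMul_eq_zero hd hv
  have h1 := Submodule.natAbs_det_equiv (LinearMap.range (Matrix.vecMulLinear (M n)))
    (LinearEquiv.ofInjective (Matrix.vecMulLinear (M n)) hinj)
  have h2 : (LinearMap.range (Matrix.vecMulLinear (M n))).subtype ∘ₗ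
      AddMonoidHom.toIntLinearMap
        ((LinearEquiv.ofInjective (Matrix.vecMulLinear (M n)) hinj :
          (H n → ℤ) ≃ₗ[ℤ] LinearMap.range (Matrix.vecMulLinear (M n))) :
          (H n → ℤ) →+ LinearMap.range (Matrix.vecMulLinear (M n))) =
      Matrix.toLin' (M n).transpose := by
    apply LinearMap.ext
    intro v
    rw [Matrix.toLin'_apply, Matrix.mulVec_transpose]
    rfl
  rw [h2, LinearMap.det_toLin', Matrix.det_transpose] at h1
  rw [h1]
  rfl

private theorem idxm_dvd (hn2 : n ≠ 2) (q : ℕ) : (Lq n q).index ∣ (M n).det.natAbs := by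
  rw [← idxm_index hn2]
  exact AddSubgroup.index_dvd_of_le le_sup_left

private theorem idxm_dvd_pow (q : ℕ) : ∃ m : ℕ, (Lq n q).index ∣ q ^ m :=
  ⟨_, (AddSubgroup.index_dvd_of_le le_sup_right).trans
    (AddSubgroup.index_range_nsmul (H n → ℤ) q).dvd⟩

theorem lq_index_ne (hn2 : n ≠ 2) (q : ℕ) : (Lq n q).index ≠ 0 := by
  intro h
  have h1 := idxm_dvd hn2 q
  rw [h, zero_dvd_iff, Int.natAbs_eq_zero] at h1
  exact det_ne hn2 h1

theorem prod_index_dvd (hn2 : n ≠ 2) (P : Finset ℕ) (hP : ∀ q ∈ P, q.Prime) :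
    ∏ q ∈ P, (Lq n q).index ∣ (M n).det.natAbs := by
  classical
  induction P using Finset.induction_on with
  | empty => rw [Finset.prod_empty]; exact one_dvd _
  | insert q P hq ih =>
    rw [Finset.prod_insert hq]
    refine Nat.Coprime.mul_dvd_of_dvd_of_dvd ?_ (idxm_dvd hn2 q)
      (ih fun r hr => hP r (Finset.mem_insert_of_mem hr))
    refine Nat.Coprime.prod_right fun r hr => ?_
    obtain ⟨a, ha⟩ := idxm_dvd_pow (n := n) q
    obtain ⟨b, hb⟩ := idxm_dvd_pow (n := n) r
    refine Nat.Coprime.coprime_dvd_left ha (Nat.Coprime.coprime_dvd_right hb ?_)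
    refine Nat.Coprime.pow _ _ ((Nat.coprime_primes (hP q (Finset.mem_insert_self _ _))
      (hP r (Finset.mem_insert_of_mem hr))).2 ?_)
    intro h
    exact hq (h ▸ hr)

theorem sum_log_index (hn2 : n ≠ 2) (P : Finset ℕ) (hP : ∀ q ∈ P, q.Prime) :
    ∑ q ∈ P, Real.log ((Lq n q).index : ℝ) ≤ ((H n).card : ℝ) / 2 * Real.log ((H n).card : ℝ) := by
  have h1 : ∑ q ∈ P, Real.log ((Lq n q).index : ℝ) =
      Real.log ((∏ q ∈ P, (Lq n q).index : ℕ) : ℝ) := by
    rw [Nat.cast_prod, Real.log_prod]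
    intro q _
    exact Nat.cast_ne_zero.2 (lq_index_ne hn2 q)
  have hd : (M n).det ≠ 0 := det_ne hn2
  have hd0 : 0 < (M n).det.natAbs := Int.natAbs_pos.2 hd
  have h2 : Real.log ((∏ q ∈ P, (Lq n q).index : ℕ) : ℝ) ≤ Real.log ((M n).det.natAbs : ℝ) := by
    apply Real.log_le_log
    · exact Nat.cast_pos.2 (Nat.pos_of_ne_zero (Finset.prod_ne_zero_iff.2 fun q _ =>
        lq_index_ne hn2 q))
    · exact_mod_cast Nat.le_of_dvd hd0 (prod_index_dvd hn2 P hP)
  have h3 : (((M n).det : ℤ) : ℝ) ^ 2 ≤ ((H n).card : ℝ) ^ ((H n).card) := by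
    have h4 := Pool.Agent.Helper42.Asum.hadamard ((M n).map (Int.cast : ℤ → ℝ)) (by
      intro i j
      rw [Matrix.map_apply]
      unfold M sg
      rw [Matrix.of_apply]
      split_ifs <;> simp)
    rw [Fintype.card_coe] at h4
    have h5 : ((M n).map (Int.cast : ℤ → ℝ)).det = (((M n).det : ℤ) : ℝ) :=
      (Int.cast_det (M n)).symm
    rwa [h5] at h4
  have h6 : (((M n).det.natAbs : ℕ) : ℝ) ^ 2 = (((M n).det : ℤ) : ℝ) ^ 2 := by
    rw [Nat.cast_natAbs, Int.cast_abs, sq_abs]
  have h7 : 2 * Real.log ((M n).det.natAbs : ℝ) ≤ ((H n).card : ℝ) * Real.log ((H n).card : ℝ) := by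
    have h8 : Real.log ((((M n).det.natAbs : ℕ) : ℝ) ^ 2) ≤
        Real.log (((H n).card : ℝ) ^ ((H n).card)) := by
      apply Real.log_le_log
      · positivity
      · rw [h6]
        exact h3
    rw [Real.log_pow, Real.log_pow] at h8
    exact_mod_cast h8
  rw [h1]
  linarith

end Pool.Agent.NLS
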