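import Mathlib

/-!
# NLS-Ex: formal exponentials

`ex g` = the coefficients of `exp (∑ g_i t ^ i / i)`.

They are determined by their recursion (`ex_unique`), the exponential of a sum is the product of the exponentials
(`ex_add`, by the differential equation of the power series), and at an embedding they grow at most like `(1 + B) ^ j`.
-/

open Finset

namespace Pool.Agent.NLS

/-- the coefficients of `exp (∑ g_i t ^ i / i)`, `i ≥ 1` -/
noncomputable def ex {K : Type*} [Field K] (g : ℕ → K) : ℕ → K
  | 0 => 1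
  | j + 1 => (∑ i : Fin (j + 1), g ((i : ℕ) + 1) * ex g (j - (i : ℕ))) / ((j : K) + 1)

variable {K : Type*} [Field K]

theorem ex_zero (g : ℕ → K) : ex g 0 = 1 := by
  rw [ex]

theorem ex_succ [CharZero K] (g : ℕ → K) (j : ℕ) :
    ((j : K) + 1) * ex g (j + 1) = ∑ i ∈ range (j + 1), g (i + 1) * ex g (j - i) := by
  rw [ex, Finset.sum_range]
  have h : (j : K) + 1 ≠ 0 := by exact_mod_cast Nat.succ_ne_zero j
  rw [mul_div_cancel₀ _ h]

theorem ex_unique [CharZero K] {g P : ℕ → K} (h0 : P 0 = 1)
    (h : ∀ j : ℕ, ((j : K) + 1) * P (j + 1) = ∑ i ∈ range (j + 1), g (i + 1) * P (j - i)) (j : ℕ) :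
    P j = ex g j := by
  induction j using Nat.strong_induction_on with
  | _ j ih =>
    rcases j with _ | j
    · rw [h0, ex_zero]
    · have h1 : (j : K) + 1 ≠ 0 := by exact_mod_cast Nat.succ_ne_zero j
      refine mul_left_cancel₀ h1 ?_
      rw [h, ex_succ]
      exact Finset.sum_congr rfl fun i _ => by rw [ih (j - i) (by omega)]

theorem ex_congr [CharZero K] {g g' : ℕ → K} (h : ∀ i, g (i + 1) = g' (i + 1)) (j : ℕ) :
    ex g j = ex g' j := by
  refine ex_unique (ex_zero g) (fun j => ?_) j
  rw [ex_succ]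
  exact Finset.sum_congr rfl fun i _ => by rw [h]

private theorem ex_deriv [CharZero K] (g : ℕ → K) :
    PowerSeries.derivative K (PowerSeries.mk (ex g)) =
      PowerSeries.mk (fun i => g (i + 1)) * PowerSeries.mk (ex g) := by
  ext j
  rw [PowerSeries.coeff_derivative, PowerSeries.coeff_mul, PowerSeries.coeff_mk, mul_comm, ex_succ,
    Finset.Nat.sum_antidiagonal_eq_sum_range_succ_mk]
  exact Finset.sum_congr rfl fun i _ => by simp only [PowerSeries.coeff_mk]

theorem ex_add [CharZero K] (g g' : ℕ → K) (j : ℕ) :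
    ex (fun i => g i + g' i) j = ∑ p ∈ antidiagonal j, ex g p.1 * ex g' p.2 := by
  have hP : ∀ j, ∑ p ∈ antidiagonal j, ex g p.1 * ex g' p.2 =
      PowerSeries.coeff j (PowerSeries.mk (ex g) * PowerSeries.mk (ex g')) := by
    intro j
    rw [PowerSeries.coeff_mul]
    exact Finset.sum_congr rfl fun i _ => by simp only [PowerSeries.coeff_mk]
  symm
  refine ex_unique (P := fun j => ∑ p ∈ antidiagonal j, ex g p.1 * ex g' p.2) ?_ (fun j => ?_) j
  · simp [ex_zero]
  · have h1 : PowerSeries.derivative K (PowerSeries.mk (ex g) * PowerSeries.mk (ex g')) =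
        PowerSeries.mk (fun i => g (i + 1) + g' (i + 1)) *
          (PowerSeries.mk (ex g) * PowerSeries.mk (ex g')) := by
      have h2 : (PowerSeries.mk (fun i => g (i + 1) + g' (i + 1)) : PowerSeries K) =
          PowerSeries.mk (fun i => g (i + 1)) + PowerSeries.mk (fun i => g' (i + 1)) := by
        ext i
        simp only [PowerSeries.coeff_mk, map_add]
      rw [Derivation.leibniz, ex_deriv, ex_deriv, h2, smul_eq_mul, smul_eq_mul]
      ring
    have h3 := congrArg (PowerSeries.coeff j) h1
    rw [PowerSeries.coeff_derivative, PowerSeries.coeff_mul (n := j),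
      Finset.Nat.sum_antidiagonal_eq_sum_range_succ_mk] at h3
    simp only [hP]
    rw [mul_comm, h3]
    exact Finset.sum_congr rfl fun i _ => by simp only [PowerSeries.coeff_mk]

theorem ex_of_zero (j : ℕ) : ex (fun _ => (0 : K)) j = if j = 0 then 1 else 0 := by
  rcases j with _ | j
  · rw [ex_zero, if_pos rfl]
  · rw [ex, if_neg (Nat.succ_ne_zero j)]
    simp

theorem ex_neg_pow [CharZero K] (w : K) (j : ℕ) :
    ex (fun i => -w ^ i) j = if j = 0 then 1 else if j = 1 then -w else 0 := by
  symm
  refine ex_unique (P := fun j => if j = 0 then (1 : K) else if j = 1 then -w else 0)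
    (if_pos rfl) (fun j => ?_) j
  rcases j with _ | j
  · simp
  · rw [Finset.sum_range_succ, Finset.sum_range_succ]
    have h1 : ∑ i ∈ range j, -w ^ (i + 1) *
        (if j + 1 - i = 0 then (1 : K) else if j + 1 - i = 1 then -w else 0) = 0 := by
      refine Finset.sum_eq_zero fun i hi => ?_
      have hi' := Finset.mem_range.1 hi
      rw [if_neg (by omega), if_neg (by omega), mul_zero]
    rw [h1]
    have h2 : j + 1 - j = 1 := by omega
    have h3 : j + 1 - (j + 1) = 0 := by omega
    rw [h2, h3, if_neg (by omega), if_neg (by omega), if_neg one_ne_zero, if_pos rfl, if_pos rfl]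
    ring

/-- a crude bound for the coefficients at an embedding -/
theorem ex_bound [CharZero K] (τ : K →+* ℂ) (g : ℕ → K) {B : ℝ} (hB0 : 0 ≤ B)
    (hB : ∀ i, ‖τ (g (i + 1))‖ ≤ B) (j : ℕ) : ‖τ (ex g j)‖ ≤ (1 + B) ^ j := by
  induction j using Nat.strong_induction_on with
  | _ j ih =>
    rcases j with _ | j
    · rw [ex_zero, map_one, norm_one, pow_zero]
    · have h1 := congrArg (fun z => ‖τ z‖) (ex_succ g j)
      simp only [map_mul, map_add, map_natCast, map_one, norm_mul, map_sum] at h1
      have h2 : ‖(j : ℂ) + 1‖ = (j : ℝ) + 1 := by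
        have h := Complex.norm_natCast (j + 1)
        push_cast at h
        exact h
      rw [h2] at h1
      have h3 : ‖∑ i ∈ range (j + 1), τ (g (i + 1)) * τ (ex g (j - i))‖ ≤
          ∑ i ∈ range (j + 1), B * (1 + B) ^ (j - i) := by
        refine norm_sum_le_of_le _ fun i hi => ?_
        rw [norm_mul]
        exact mul_le_mul (hB i) (ih (j - i) (by omega)) (norm_nonneg _) hB0
      have h4 : ∑ i ∈ range (j + 1), B * (1 + B) ^ (j - i) = (1 + B) ^ (j + 1) - 1 := by
        rw [← Finset.sum_range_reflect]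
        have h5 : ∀ i ∈ range (j + 1), B * (1 + B) ^ (j - (j + 1 - 1 - i)) = B * (1 + B) ^ i := by
          intro i hi
          have hi' := Finset.mem_range.1 hi
          have h6 : j - (j + 1 - 1 - i) = i := by omega
          rw [h6]
        rw [Finset.sum_congr rfl h5, ← Finset.mul_sum]
        have h7 := mul_geom_sum (1 + B) (j + 1)
        rw [add_sub_cancel_left] at h7
        exact h7
      have h5 : (1 : ℝ) ≤ (j : ℝ) + 1 := by
        have : (0 : ℝ) ≤ j := Nat.cast_nonneg j
        linarith
      have h6 : ‖τ (ex g (j + 1))‖ ≤ ((j : ℝ) + 1) * ‖τ (ex g (j + 1))‖ := by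
        nlinarith [norm_nonneg (τ (ex g (j + 1)))]
      linarith

end Pool.Agent.NLS
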