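import Pool.Agent.NLS.Defs
import Pool.Agent.NLS.Ex

/-!
# NLS-Pj: the coefficients `P_j(s)` and the integers `Q_j(s) = q ^ j j! P_j(s)`

`ps s i = ∑ s_e (ζ^(e i) - ζ^(-e i))`, `P q s = ex (-ps s i / q)`.

`Pj_add`: additivity of `ps` and `ex_add`. `coe_Qj`: strong induction with `ex_succ`. `Qj_congr`: only the term `i = 0` of the recursion is
not a multiple of `q`. `Pj_bound`: `ex_bound`.
-/

set_option linter.unusedSectionVars false

open NumberField Finset
open Pool.Agent.AAP Pool.Agent.Helper7.HU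

namespace Pool.Agent.NLS

section

variable (n : ℕ) [Fact n.Prime] (K : Type) [Field K] [NumberField K] [IsCyclotomicExtension {n} ℚ K]

/-- `∑ s_e (ζ^(e i) - ζ^(-e i))` -/
noncomputable def ps (s : H n → ℤ) (i : ℕ) : 𝓞 K :=
  ∑ e : H n, (s e : 𝓞 K) * (zp n K (e : (ZMod n)ˣ) ^ i - zp n K (-(e : (ZMod n)ˣ)) ^ i)

/-- `P_j(s)` -/
noncomputable def Pj (q : ℕ) (s : H n → ℤ) (j : ℕ) : K :=
  ex (fun i => -((ps n K s i : 𝓞 K) : K) / (q : K)) j

/-- `q ^ j j! P_j(s)` -/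
noncomputable def Qj (q : ℕ) (s : H n → ℤ) : ℕ → 𝓞 K
  | 0 => 1
  | j + 1 => -∑ i : Fin (j + 1), ps n K s ((i : ℕ) + 1) * (q : 𝓞 K) ^ (i : ℕ) *
      (j.descFactorial (i : ℕ) : 𝓞 K) * Qj q s (j - (i : ℕ))

end

variable {n : ℕ} [Fact n.Prime] {K : Type} [Field K] [NumberField K] [IsCyclotomicExtension {n} ℚ K]
  {q : ℕ}

private theorem pj_zp_pow (a : (ZMod n)ˣ) : ((zp n K a : 𝓞 K) : K) ^ n = 1 := by
  have h1 := congrArg (algebraMap (𝓞 K) K) (zp_pow_n (n := n) (K := K) a)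
  rw [map_pow, map_one] at h1
  exact h1

private theorem pj_norm_zp (τ : K →+* ℂ) (a : (ZMod n)ˣ) : ‖τ ((zp n K a : 𝓞 K) : K)‖ = 1 := by
  refine Complex.norm_eq_one_of_pow_eq_one (n := n) ?_ (Fact.out : n.Prime).ne_zero
  rw [← map_pow, pj_zp_pow, map_one]

private theorem pj_alg (x : 𝓞 K) : (x : K) = algebraMap (𝓞 K) K x := rfl

private theorem pj_coe (s : H n → ℤ) (i : ℕ) : ((ps n K s i : 𝓞 K) : K) =
    ∑ e : H n, (s e : K) * (((zp n K (e : (ZMod n)ˣ) : 𝓞 K) : K) ^ i -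
      ((zp n K (-(e : (ZMod n)ˣ)) : 𝓞 K) : K) ^ i) := by
  unfold ps
  simp only [pj_alg]
  rw [map_sum]
  refine Finset.sum_congr rfl fun e _ => ?_
  rw [map_mul, map_sub, map_pow, map_pow, map_intCast]

theorem ps_add (s t : H n → ℤ) (i : ℕ) : ps n K (s + t) i = ps n K s i + ps n K t i := by
  unfold ps
  rw [← Finset.sum_add_distrib]
  refine Finset.sum_congr rfl fun e _ => ?_
  rw [Pi.add_apply]
  push_cast
  ring

theorem ps_norm (τ : K →+* ℂ) (s : H n → ℤ) (i : ℕ) :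
    ‖τ ((ps n K s i : 𝓞 K) : K)‖ ≤ 2 * ∑ e, |(s e : ℝ)| := by
  rw [pj_coe, map_sum, Finset.mul_sum]
  refine (norm_sum_le _ _).trans (Finset.sum_le_sum fun e _ => ?_)
  rw [map_mul, map_sub, map_pow, map_pow, map_intCast, norm_mul, Complex.norm_intCast,
    mul_comm (2 : ℝ)]
  refine mul_le_mul_of_nonneg_left ((norm_sub_le _ _).trans ?_) (abs_nonneg _)
  rw [norm_pow, norm_pow, pj_norm_zp, pj_norm_zp, one_pow]
  norm_num

theorem Pj_zero (s : H n → ℤ) : Pj n K q s 0 = 1 := ex_zero _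

theorem Pj_add (s t : H n → ℤ) (j : ℕ) :
    Pj n K q (s + t) j = ∑ p ∈ antidiagonal j, Pj n K q s p.1 * Pj n K q t p.2 := by
  unfold Pj
  rw [← ex_add]
  refine congrFun (congrArg ex (funext fun i => ?_)) j
  simp only [pj_alg]
  rw [ps_add, map_add, neg_add, add_div]

theorem coe_Qj (hq : q ≠ 0) (s : H n → ℤ) (j : ℕ) :
    ((Qj n K q s j : 𝓞 K) : K) = (q : K) ^ j * (j.factorial : K) * Pj n K q s j := by
  induction j using Nat.strong_induction_on with
  | _ j ih =>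
    cases j with
    | zero =>
      rw [pj_alg, Qj, Pj_zero, map_one, pow_zero, Nat.factorial_zero, Nat.cast_one, one_mul, one_mul]
    | succ j =>
      have hq' : (q : K) ≠ 0 := Nat.cast_ne_zero.2 hq
      have h1 := ex_succ (fun i => -((ps n K s i : 𝓞 K) : K) / (q : K)) j
      have h2 : (q : K) ^ (j + 1) * ((j + 1).factorial : K) * Pj n K q s (j + 1) =
          (q : K) ^ (j + 1) * (j.factorial : K) * (((j : K) + 1) * Pj n K q s (j + 1)) := by
        rw [Nat.factorial_succ]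
        push_cast
        ring
      rw [h2]
      unfold Pj at ih ⊢
      simp only [pj_alg] at ih h1 ⊢
      rw [h1, Qj, map_neg, map_sum, Finset.sum_range, Finset.mul_sum, ← Finset.sum_neg_distrib]
      refine Finset.sum_congr rfl fun i _ => ?_
      have hi : (i : ℕ) ≤ j := Nat.lt_succ_iff.1 i.2
      rw [map_mul, map_mul, map_mul, map_pow, map_natCast, map_natCast,
        ih (j - i) (by omega)]
      have h3 : ((j - (i : ℕ)).factorial : K) * (j.descFactorial (i : ℕ) : K) = (j.factorial : K) := by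
        exact_mod_cast Nat.factorial_mul_descFactorial hi
      have h4 : (q : K) ^ (i : ℕ) * (q : K) ^ (j - (i : ℕ)) = (q : K) ^ j := by
        rw [← pow_add, Nat.add_sub_cancel' hi]
      rw [← h3, pow_succ, ← h4]
      field_simp

theorem Qj_congr (s : H n → ℤ) (j : ℕ) :
    Qj n K q s j - (-ps n K s 1) ^ j ∈ Ideal.span {(q : 𝓞 K)} := by
  induction j with
  | zero => rw [Qj, pow_zero, sub_self]; exact Ideal.zero_mem _
  | succ j ih =>
    have h1 : Qj n K q s (j + 1) - (-ps n K s 1) ^ (j + 1) =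
        -ps n K s 1 * (Qj n K q s j - (-ps n K s 1) ^ j) -
        ∑ i : Fin j, ps n K s ((i.succ : ℕ) + 1) * (q : 𝓞 K) ^ (i.succ : ℕ) *
          (j.descFactorial (i.succ : ℕ) : 𝓞 K) * Qj n K q s (j - (i.succ : ℕ)) := by
      rw [Qj, Fin.sum_univ_succ, Fin.val_zero, zero_add, pow_zero, Nat.descFactorial_zero,
        Nat.cast_one, Nat.sub_zero]
      ring
    rw [h1]
    refine Ideal.sub_mem _ (Ideal.mul_mem_left _ _ ih) (Ideal.sum_mem _ fun i _ => ?_)
    rw [Ideal.mem_span_singleton, Fin.val_succ, pow_succ]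
    exact Dvd.intro _ (by ring : (q : 𝓞 K) * (ps n K s ((i : ℕ) + 1 + 1) * (q : 𝓞 K) ^ (i : ℕ) *
      (j.descFactorial ((i : ℕ) + 1) : 𝓞 K) * Qj n K q s (j - ((i : ℕ) + 1))) = _)

theorem Pj_bound (hq : q ≠ 0) (τ : K →+* ℂ) (s : H n → ℤ) {w : ℝ} (hw : 2 * ∑ e, |(s e : ℝ)| ≤ w * q)
    (j : ℕ) : ‖τ (Pj n K q s j)‖ ≤ (1 + w) ^ j := by
  have hq' : (0 : ℝ) < q := by exact_mod_cast Nat.pos_of_ne_zero hq
  have h0 : 0 ≤ 2 * ∑ e, |(s e : ℝ)| :=
    mul_nonneg (by norm_num) (Finset.sum_nonneg fun _ _ => abs_nonneg _)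
  have hw0 : 0 ≤ w := by
    by_contra h
    push Not at h
    have := mul_neg_of_neg_of_pos h hq'
    linarith
  refine ex_bound τ _ hw0 (fun i => ?_) j
  rw [map_div₀, map_neg, map_natCast, norm_div, norm_neg, Complex.norm_natCast, div_le_iff₀ hq']
  exact (ps_norm τ s (i + 1)).trans hw

end Pool.Agent.NLS
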