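import Pool.Agent.NLS.Prs
import Pool.Agent.NLS.Pj

/-!
# NLS-Prs2: half of the prime ideals over `q` suffice

`Q` is the set of all primes over `q`, `f₀` the order of `q` modulo `n`, `#Q f₀ = n - 1`. If `f₀` is even, `P = Q`. If `f₀` is odd, the complex conjugation `c` fixes no `p ∈ Q`
(the stabilizer of `p` has order `f₀`), and `P` has one element of each pair `p, c • p`; `c • ps s 1 = -ps s 1`.
-/

open NumberField Finset
open Pool.Agent.AAP Pool.Agent.Helper7.HU
open scoped Pointwise MulAction Ideal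

namespace Pool.Agent.NLS

private theorem prs2_half {α : Type*} (Q : Finset α) (c : α → α)
    (hc : ∀ p ∈ Q, c p ∈ Q) (hcc : ∀ p ∈ Q, c (c p) = p) (hne : ∀ p ∈ Q, c p ≠ p) :
    ∃ P : Finset α, P ⊆ Q ∧ 2 * P.card = Q.card ∧ ∀ p ∈ Q, p ∈ P ∨ c p ∈ P := by
  classical
  let lo : LinearOrder α := linearOrderOfSTO WellOrderingRel
  refine ⟨Q.filter (fun p => p < c p), filter_subset _ _, ?_, ?_⟩
  · have h1 : (Q.filter (fun p => ¬ p < c p)).card = (Q.filter (fun p => p < c p)).card := by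
      refine Finset.card_bij (fun p _ => c p) ?_ ?_ ?_
      · intro p hp
        rw [mem_filter] at hp ⊢
        refine ⟨hc p hp.1, ?_⟩
        rw [hcc p hp.1]
        exact lt_of_le_of_ne (not_lt.1 hp.2) (hne p hp.1)
      · intro a ha b hb h
        rw [mem_filter] at ha hb
        have h3 := congrArg c h
        rwa [hcc a ha.1, hcc b hb.1] at h3
      · intro b hb
        rw [mem_filter] at hb
        refine ⟨c b, ?_, hcc b hb.1⟩
        rw [mem_filter]
        refine ⟨hc b hb.1, ?_⟩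
        rw [hcc b hb.1]
        exact not_lt.2 hb.2.le
    have h2 := Finset.card_filter_add_card_filter_not (s := Q) (fun p => p < c p)
    omega
  · intro p hp
    rcases lt_or_gt_of_ne (hne p hp) with h | h
    · right
      rw [mem_filter, hcc p hp]
      exact ⟨hc p hp, h⟩
    · left
      rw [mem_filter]
      exact ⟨hp, h⟩

variable {n : ℕ} [Fact n.Prime] {K : Type} [Field K] [NumberField K] [IsCyclotomicExtension {n} ℚ K]

private theorem prs2_zp_mul (a : (ZMod n)ˣ) : zp n K a * zp n K (-a) = 1 := by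
  unfold zp
  rw [← pow_add]
  have hn1 : Fact (1 < n) := ⟨(Fact.out : n.Prime).one_lt⟩
  have h0 : (a : ZMod n) ≠ 0 := a.ne_zero
  have h1 : ((-a : (ZMod n)ˣ) : ZMod n).val = n - (a : ZMod n).val := by
    rw [Units.val_neg, ZMod.neg_val, if_neg h0]
  rw [h1, Nat.add_sub_cancel' (ZMod.val_lt _).le]
  exact (zO_spec n K).pow_eq_one

private theorem prs2_conj_zO : ((gq n K).symm (-1) : Gal(K/ℚ)) • zO n K * zO n K = 1 := by
  have hn1 : Fact (1 < n) := ⟨(Fact.out : n.Prime).one_lt⟩
  have h1 : (gq n K).symm (-1) (zt n K) * zt n K = 1 := by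
    rw [gq_spec, MulEquiv.apply_symm_apply, Units.val_neg, Units.val_one, ZMod.neg_val,
      if_neg one_ne_zero, ZMod.val_one]
    rw [← pow_succ, Nat.sub_add_cancel (Fact.out : n.Prime).one_lt.le]
    exact (zt_spec n K).pow_eq_one
  apply RingOfIntegers.coe_injective
  rw [map_mul, map_one]
  exact h1

private theorem prs2_conj_zp (a : (ZMod n)ˣ) :
    ((gq n K).symm (-1) : Gal(K/ℚ)) • zp n K a = zp n K (-a) := by
  have h1 : ((gq n K).symm (-1) : Gal(K/ℚ)) • zp n K a * zp n K a = 1 := by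
    unfold zp
    rw [smul_pow', ← mul_pow, prs2_conj_zO, one_pow]
  have h2 : zp n K (-a) * zp n K a = 1 := by rw [mul_comm, prs2_zp_mul]
  have h3 : zp n K a ≠ 0 := right_ne_zero_of_mul_eq_one h2
  exact mul_right_cancel₀ h3 (h1.trans h2.symm)

private theorem prs2_conj_ps (s : H n → ℤ) :
    ((gq n K).symm (-1) : Gal(K/ℚ)) • ps n K s 1 = -ps n K s 1 := by
  unfold ps
  rw [Finset.smul_sum, ← Finset.sum_neg_distrib]
  refine Finset.sum_congr rfl fun e _ => ?_
  have h1 : ((gq n K).symm (-1) : Gal(K/ℚ)) • ((s e : ℤ) : 𝓞 K) = ((s e : ℤ) : 𝓞 K) :=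
    map_intCast (MulSemiringAction.toRingHom Gal(K/ℚ) (𝓞 K) ((gq n K).symm (-1))) (s e)
  rw [smul_mul', smul_sub, pow_one, pow_one, prs2_conj_zp, prs2_conj_zp, neg_neg, h1]
  ring

private theorem prs2_conj_sq : ((gq n K).symm (-1) : Gal(K/ℚ)) * (gq n K).symm (-1) = 1 := by
  rw [← map_mul, neg_mul_neg, one_mul, map_one]

private theorem prs2_conj_ne (hn2 : n ≠ 2) : ((gq n K).symm (-1) : Gal(K/ℚ)) ≠ 1 := by
  intro h
  have h1 : (-1 : (ZMod n)ˣ) = 1 := by
    rw [← (gq n K).apply_symm_apply (-1), h, map_one]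
  have h2 : (-1 : ZMod n) = 1 := by
    have := congrArg (fun u : (ZMod n)ˣ => (u : ZMod n)) h1
    simpa using this
  have h3 : Fact (2 < n) := ⟨lt_of_le_of_ne (Fact.out : n.Prime).two_le (Ne.symm hn2)⟩
  exact ZMod.neg_one_ne_one h2

theorem exists_primes2 (n : ℕ) [Fact n.Prime] (K : Type) [Field K] [NumberField K]
    [IsCyclotomicExtension {n} ℚ K] {q : ℕ} (hn2 : n ≠ 2) (hq : q.Prime) (hqn : q ≠ n) :
    ∃ P : Finset (Ideal (𝓞 K)), (∀ p ∈ P, p.IsMaximal) ∧
      (∀ p ∈ P, (q : 𝓞 K) ∈ p) ∧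
      (∀ s t : H n → ℤ, (∀ p ∈ P, ps n K s 1 - ps n K t 1 ∈ p) →
        ps n K s 1 - ps n K t 1 ∈ Ideal.span {(q : 𝓞 K)}) ∧
      P.card * orderOf ((q : ZMod n) ^ 2) ≤ (n - 1) / 2 := by
  classical
  have hfq : Fact q.Prime := ⟨hq⟩
  have hn : n.Prime := Fact.out
  have hndvd : ¬ q ∣ n := fun h => hqn ((Nat.prime_dvd_prime_iff_eq hq hn).1 h)
  have hgal : IsGalois ℚ K := IsCyclotomicExtension.isGalois {n} ℚ K
  have hq0 : (Ideal.span {(q : ℤ)}) ≠ ⊥ := by
    simpa using hq.ne_zero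
  have hmax : (Ideal.span {(q : ℤ)}).IsMaximal :=
    Int.ideal_span_isMaximal_of_prime q
  have hfin : (Ideal.primesOver (Ideal.span {(q : ℤ)}) (𝓞 K)).Finite :=
    Algebra.QuasiFinite.finite_primesOver _
  have hQmax : ∀ p ∈ hfin.toFinset, p.IsMaximal := by
    intro p hp
    rw [Set.Finite.mem_toFinset] at hp
    obtain ⟨h1, h2⟩ := hp
    exact Ideal.IsMaximal.of_liesOver_isMaximal p (Ideal.span {(q : ℤ)})
  have hQq : ∀ p ∈ hfin.toFinset, (q : 𝓞 K) ∈ p := by
    intro p hp
    rw [Set.Finite.mem_toFinset] at hp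
    obtain ⟨h1, h2⟩ := hp
    have h3 : (q : ℤ) ∈ p.under ℤ := by
      rw [← h2.over]
      exact Ideal.mem_span_singleton_self _
    have h4 := Ideal.mem_comap.1 h3
    simpa using h4
  have hQz : ∀ z : 𝓞 K, (∀ p ∈ hfin.toFinset, z ∈ p) → z ∈ Ideal.span {(q : 𝓞 K)} := by
    intro z hz
    have h1 := Ideal.map_algebraMap_eq_finsetProd_pow (R := 𝓞 K) (p := Ideal.span {(q : ℤ)}) hq0
    have h2 : Ideal.map (algebraMap ℤ (𝓞 K)) (Ideal.span {(q : ℤ)}) =
        Ideal.span {(q : 𝓞 K)} := by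
      rw [Ideal.map_span, Set.image_singleton]
      simp
    rw [h2] at h1
    have h3 : Ideal.span {(q : 𝓞 K)} ∣ Ideal.span {z} := by
      rw [h1]
      have h4 : ∀ p ∈ Ideal.primesOver (Ideal.span {(q : ℤ)}) (𝓞 K),
          Ideal.ramificationIdx p ℤ = 1 := by
        intro p hp
        obtain ⟨h5, h6⟩ := hp
        exact IsCyclotomicExtension.Rat.ramificationIdx_eq_of_not_dvd q K p hndvd
      rw [Finset.prod_congr rfl (g := fun p => p) fun p hp => by
        rw [h4 p (by simpa using hp), pow_one]]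
      refine Finset.prod_primes_dvd _ ?_ ?_
      · intro p hp
        have h5 : p ∈ Ideal.primesOver (Ideal.span {(q : ℤ)}) (𝓞 K) := by simpa using hp
        obtain ⟨h6, h7⟩ := h5
        refine Ideal.prime_of_isPrime ?_ h6
        exact Ideal.ne_bot_of_liesOver_of_ne_bot hq0 p
      · intro p hp
        rw [Ideal.dvd_span_singleton]
        apply hz
        rw [Set.Finite.mem_toFinset]
        simpa using hp
    rw [Ideal.dvd_span_singleton] at h3
    exact h3
  have hcard : hfin.toFinset.card * orderOf (q : ZMod n) = n - 1 := by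
    have h1 := Ideal.ncard_primesOver_mul_ramificationIdxIn_mul_inertiaDegIn
      (Ideal.span {(q : ℤ)}) (𝓞 K) Gal(K/ℚ)
    rw [IsCyclotomicExtension.Rat.inertiaDegIn_eq_of_not_dvd q K hndvd,
      IsCyclotomicExtension.Rat.ramificationIdxIn_eq_of_not_dvd q K hndvd, one_mul] at h1
    rw [← Set.ncard_eq_toFinset_card _ hfin, h1]
    rw [IsGaloisGroup.card_eq_finrank Gal(K/ℚ) ℚ K,
      IsCyclotomicExtension.finrank K (Polynomial.cyclotomic.irreducible_rat hn.pos),
      Nat.totient_prime hn]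
  have hn1 : 2 ∣ n - 1 := by
    have h1 := hn.odd_of_ne_two hn2
    obtain ⟨k, hk⟩ := h1
    exact ⟨k, by omega⟩
  obtain ⟨m, hm⟩ := hn1
  rcases Nat.even_or_odd (orderOf (q : ZMod n)) with hev | hod
  · refine ⟨hfin.toFinset, hQmax, hQq, fun s t h => hQz _ h, ?_⟩
    obtain ⟨k, hk⟩ := hev
    have h1 : orderOf ((q : ZMod n) ^ 2) = k := by
      rw [orderOf_pow' _ two_ne_zero, hk]
      have h2 : Nat.gcd (k + k) 2 = 2 := by
        rw [Nat.gcd_eq_right_iff_dvd]
        exact ⟨k, by ring⟩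
      rw [h2]
      omega
    rw [h1]
    rw [hk, hm] at hcard
    rw [hm, Nat.mul_div_cancel_left _ two_pos]
    have h2 : 2 * (hfin.toFinset.card * k) = 2 * m := by
      rw [← hcard]
      ring
    omega
  · have h1 : orderOf ((q : ZMod n) ^ 2) = orderOf (q : ZMod n) := by
      rw [orderOf_pow' _ two_ne_zero]
      have h2 : Nat.gcd (orderOf (q : ZMod n)) 2 = 1 :=
        (Nat.coprime_two_right.2 hod)
      rw [h2, Nat.div_one]
    set c : Gal(K/ℚ) := (gq n K).symm (-1) with hc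
    have hcQ : ∀ p ∈ hfin.toFinset, c • p ∈ hfin.toFinset := by
      intro p hp
      rw [Set.Finite.mem_toFinset] at hp ⊢
      obtain ⟨h2, h3⟩ := hp
      have h4 : (c • p).IsPrime := inferInstance
      have h5 : (c • p).LiesOver (Ideal.span {(q : ℤ)}) := inferInstance
      exact ⟨h4, h5⟩
    have hcc : ∀ p ∈ hfin.toFinset, c • (c • p) = p := by
      intro p _
      rw [smul_smul, prs2_conj_sq, one_smul]
    have hne : ∀ p ∈ hfin.toFinset, c • p ≠ p := by
      intro p hp hfix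
      rw [Set.Finite.mem_toFinset] at hp
      obtain ⟨h2, h3⟩ := hp
      have h4 : Nat.card (MulAction.stabilizer Gal(K/ℚ) p) = orderOf (q : ZMod n) := by
        rw [Ideal.card_stabilizer_eq (Ideal.span {(q : ℤ)}),
          IsCyclotomicExtension.Rat.ramificationIdxIn_eq_of_not_dvd q K hndvd, one_mul,
          IsCyclotomicExtension.Rat.inertiaDegIn_eq_of_not_dvd q K hndvd]
      have h5 : orderOf (⟨c, MulAction.mem_stabilizer_iff.2 hfix⟩ :
          MulAction.stabilizer Gal(K/ℚ) p) = 2 := by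
        rw [orderOf_eq_prime_iff]
        refine ⟨?_, ?_⟩
        · apply Subtype.ext
          change c ^ 2 = 1
          rw [pow_two]
          exact prs2_conj_sq
        · intro h6
          exact prs2_conj_ne hn2 (congrArg Subtype.val h6)
      have h6 := orderOf_dvd_natCard (⟨c, MulAction.mem_stabilizer_iff.2 hfix⟩ :
          MulAction.stabilizer Gal(K/ℚ) p)
      rw [h5, h4] at h6
      exact (Nat.not_even_iff_odd.2 hod) (even_iff_two_dvd.2 h6)
    obtain ⟨P, hPQ, hPc, hP⟩ := prs2_half hfin.toFinset (fun p => c • p) hcQ hcc hne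
    refine ⟨P, fun p hp => hQmax p (hPQ hp), fun p hp => hQq p (hPQ hp), fun s t h => ?_, ?_⟩
    · apply hQz
      intro p hp
      rcases hP p hp with h2 | h2
      · exact h p h2
      · have h3 := h _ h2
        have h4 : c • (ps n K s 1 - ps n K t 1) ∈ c • p := by
          rw [smul_sub, prs2_conj_ps, prs2_conj_ps]
          have h5 : -ps n K s 1 - -ps n K t 1 = -(ps n K s 1 - ps n K t 1) := by ring
          rw [h5]
          exact neg_mem h3
        exact (Ideal.smul_mem_pointwise_smul_iff).1 h4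
    · rw [h1, hm, Nat.mul_div_cancel_left _ two_pos]
      have h2 : 2 * (P.card * orderOf (q : ZMod n)) = 2 * m := by
        rw [← mul_assoc, hPc, hcard, hm]
      omega

end Pool.Agent.NLS
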