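import Pool.Agent.NLS.LvDef
import Pool.Agent.NLS.Prs2

/-!
# NLS-LvDv: the valuation of a prime of the cyclotomic field over `q ≠ n`

`q` is unramified, so it is a uniformizer at every prime `p` over `q`. `O` is the valuation subring of `p`, `k` its
residue field.
-/

open NumberField Finset
open Pool.Agent.AAP Pool.Agent.Helper7.HU

namespace Pool.Agent.NLS

private theorem lvdv_notsq (n : ℕ) [Fact n.Prime] (K : Type) [Field K] [NumberField K]
    [IsCyclotomicExtension {n} ℚ K] {q : ℕ} (hq : q.Prime) (hqn : q ≠ n) (p : Ideal (𝓞 K))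
    (hp : p.IsMaximal) (hqp : (q : 𝓞 K) ∈ p) : (q : 𝓞 K) ∉ p ^ 2 := by
  classical
  have hfq : Fact q.Prime := ⟨hq⟩
  have hn : n.Prime := Fact.out
  have hndvd : ¬ q ∣ n := fun h => hqn ((Nat.prime_dvd_prime_iff_eq hq hn).1 h)
  have hq0 : (Ideal.span {(q : ℤ)}) ≠ ⊥ := by
    simpa using hq.ne_zero
  have hmax : (Ideal.span {(q : ℤ)}).IsMaximal := Int.ideal_span_isMaximal_of_prime q
  have hfin : (Ideal.primesOver (Ideal.span {(q : ℤ)}) (𝓞 K)).Finite :=
    Algebra.QuasiFinite.finite_primesOver _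
  have h1 := Ideal.map_algebraMap_eq_finsetProd_pow (R := 𝓞 K) (p := Ideal.span {(q : ℤ)}) hq0
  have h2 : Ideal.map (algebraMap ℤ (𝓞 K)) (Ideal.span {(q : ℤ)}) =
      Ideal.span {(q : 𝓞 K)} := by
    rw [Ideal.map_span, Set.image_singleton]
    simp
  rw [h2] at h1
  have h4 : ∀ P ∈ Ideal.primesOver (Ideal.span {(q : ℤ)}) (𝓞 K),
      Ideal.ramificationIdx P ℤ = 1 := by
    intro P hP
    obtain ⟨h5, h6⟩ := hP
    exact IsCyclotomicExtension.Rat.ramificationIdx_eq_of_not_dvd q K P hndvd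
  rw [Finset.prod_congr rfl (g := fun P => P) fun P hP => by
    rw [h4 P (by simpa using hP), pow_one]] at h1
  have hple : Ideal.span {(q : ℤ)} ≤ p.under ℤ := by
    rw [Ideal.span_singleton_le_iff_mem]
    refine Ideal.mem_comap.2 ?_
    simpa using hqp
  have hpu : p.under ℤ = Ideal.span {(q : ℤ)} := by
    refine (hmax.eq_of_le ?_ hple).symm
    intro h
    have h5 : (1 : ℤ) ∈ p.under ℤ := by rw [h]; exact Submodule.mem_top
    have h6 := Ideal.mem_comap.1 h5
    rw [map_one] at h6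
    exact hp.ne_top ((Ideal.eq_top_iff_one p).2 h6)
  have hpmem : p ∈ Ideal.primesOver (Ideal.span {(q : ℤ)}) (𝓞 K) := ⟨hp.isPrime, ⟨hpu.symm⟩⟩
  intro hsq
  rw [← Ideal.dvd_span_singleton, h1, pow_two, ← Finset.mul_prod_erase _ _ (by simpa using hpmem)] at hsq
  have hpbot : p ≠ ⊥ := by
    intro h
    rw [h, Ideal.mem_bot] at hqp
    exact hq.ne_zero (by exact_mod_cast hqp)
  have h7 := (mul_dvd_mul_iff_left (show (p : Ideal (𝓞 K)) ≠ 0 from hpbot)).1 hsq
  obtain ⟨P, hP, hpP⟩ := (Prime.dvd_finsetProd_iff (Ideal.prime_of_isPrime hpbot hp.isPrime) _).1 h7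
  rw [Finset.mem_erase] at hP
  have h8 : P ∈ Ideal.primesOver (Ideal.span {(q : ℤ)}) (𝓞 K) := by simpa using hP.2
  obtain ⟨h9, h10⟩ := h8
  have hPmax : P.IsMaximal := Ideal.IsMaximal.of_liesOver_isMaximal P (Ideal.span {(q : ℤ)})
  exact hP.1 (hPmax.eq_of_le hp.ne_top (Ideal.le_of_dvd hpP))

private theorem lvdv_unit {K : Type} [Field K] (w : Valuation K (WithZero (Multiplicative ℤ)))
    (x : w.valuationSubring) : IsUnit x ↔ w (x : K) = 1 := by
  constructor
  · rintro ⟨u, rfl⟩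
    have h1 : w ((u : w.valuationSubring) : K) ≤ 1 := (Valuation.mem_valuationSubring_iff _ _).1 u.1.2
    have h2 : w (((u⁻¹ : (w.valuationSubring)ˣ) : w.valuationSubring) : K) ≤ 1 :=
      (Valuation.mem_valuationSubring_iff _ _).1 (u⁻¹).1.2
    have h3 : w ((u : w.valuationSubring) : K) *
        w (((u⁻¹ : (w.valuationSubring)ˣ) : w.valuationSubring) : K) = 1 := by
      rw [← map_mul]
      have h4 : ((u : w.valuationSubring) : K) * (((u⁻¹ : (w.valuationSubring)ˣ) :
          w.valuationSubring) : K) = 1 := by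
        have h5 := congrArg (fun y : w.valuationSubring => (y : K)) u.mul_inv
        exact h5
      rw [h4, map_one]
    refine le_antisymm h1 ?_
    calc (1 : WithZero (Multiplicative ℤ)) = _ := h3.symm
      _ ≤ w ((u : w.valuationSubring) : K) * 1 := mul_le_mul_right h2 _
      _ = _ := mul_one _
  · intro h
    have hx : (x : K) ≠ 0 := by
      intro h0
      rw [h0, map_zero] at h
      exact zero_ne_one h
    have h1 : (x : K)⁻¹ ∈ w.valuationSubring := by
      rw [Valuation.mem_valuationSubring_iff, map_inv₀, h, inv_one]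
    exact IsUnit.of_mul_eq_one (⟨(x : K)⁻¹, h1⟩ : w.valuationSubring) (Subtype.ext (mul_inv_cancel₀ hx))

theorem exists_dv (n : ℕ) [Fact n.Prime] (K : Type) [Field K] [NumberField K] [IsCyclotomicExtension {n} ℚ K] (hn2 : n ≠ 2)
    {q : ℕ} (hq : q.Prime) (hqn : q ≠ n) (p : Ideal (𝓞 K)) (hp : p.IsMaximal) (hqp : (q : 𝓞 K) ∈ p) :
    ∃ (k : Type) (_ : Field k) (D : DV K k), D.π = (q : K) ∧ (∀ i : ℕ, 1 ≤ i → i < q → (i : k) ≠ 0) ∧
      (∀ x : 𝓞 K, D.ge (x : K) 0) ∧ ∀ x : 𝓞 K, D.ge (x : K) 1 ↔ x ∈ p := by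
  classical
  have hsq := lvdv_notsq n K hq hqn p hp hqp
  have hpbot : p ≠ ⊥ := by
    intro h
    rw [h, Ideal.mem_bot] at hqp
    exact hq.ne_zero (by exact_mod_cast hqp)
  obtain ⟨v, hv⟩ : ∃ v : IsDedekindDomain.HeightOneSpectrum (𝓞 K), v.asIdeal = p :=
    ⟨⟨p, hp.isPrime, hpbot⟩, rfl⟩
  obtain ⟨w, hw⟩ : ∃ w : Valuation K (WithZero (Multiplicative ℤ)), w = v.valuation K := ⟨_, rfl⟩
  have hwi : ∀ x : 𝓞 K, w (x : K) = v.intValuation x := fun x => by
    rw [hw]; exact v.valuation_of_algebraMap x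
  have hq0 : (q : K) ≠ 0 := by exact_mod_cast hq.ne_zero
  have hqw : w (q : K) = WithZero.exp (-1 : ℤ) := by
    have h1 : w (q : K) = v.intValuation (q : 𝓞 K) := by
      rw [← hwi]; congr 1
    have h2 : v.intValuation (q : 𝓞 K) ≤ WithZero.exp (-((1 : ℕ) : ℤ)) := by
      rw [v.intValuation_le_pow_iff_mem, hv, pow_one]; exact hqp
    have h3 : ¬ v.intValuation (q : 𝓞 K) ≤ WithZero.exp (-((2 : ℕ) : ℤ)) := by
      rw [v.intValuation_le_pow_iff_mem, hv]; exact hsq
    have h4 : w (q : K) ≠ 0 := (Valuation.ne_zero_iff _).2 hq0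
    rw [← h1] at h2 h3
    rw [← WithZero.exp_log h4] at h2 h3 ⊢
    rw [WithZero.exp_le_exp] at h2 h3
    congr 1
    omega
  have hlt : ∀ x : K, w x < 1 ↔ w x ≤ WithZero.exp (-1 : ℤ) := by
    intro x
    rcases eq_or_ne x 0 with h0 | h0
    · rw [h0, map_zero]
      exact ⟨fun _ => zero_le, fun _ => zero_lt_one⟩
    · have h4 : w x ≠ 0 := (Valuation.ne_zero_iff _).2 h0
      rw [← WithZero.exp_log h4, WithZero.exp_le_exp, ← WithZero.exp_zero, WithZero.exp_lt_exp]
      omega
  have hmem : ∀ x : K, x ∈ w.valuationSubring ↔ w x ≤ 1 := fun x =>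
    Valuation.mem_valuationSubring_iff _ _
  have hdiv : ∀ x : K, (q : K)⁻¹ * x ∈ w.valuationSubring ↔ w x < 1 := by
    intro x
    rw [hmem, map_mul, map_inv₀, hqw, hlt, ← WithZero.exp_neg, neg_neg]
    have h5 : WithZero.exp (1 : ℤ) * WithZero.exp (-1 : ℤ) = (1 : WithZero (Multiplicative ℤ)) := by
      rw [← WithZero.exp_add, add_neg_cancel, WithZero.exp_zero]
    constructor
    · intro h
      have h6 := mul_le_mul_right h (WithZero.exp (-1 : ℤ))
      rwa [← mul_assoc, mul_comm (WithZero.exp (-1 : ℤ)) (WithZero.exp (1 : ℤ)), h5, one_mul, mul_one] at h6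
    · intro h
      have h6 := mul_le_mul_right h (WithZero.exp (1 : ℤ))
      rwa [h5] at h6
  let ρ : w.valuationSubring.toSubring →+* IsLocalRing.ResidueField w.valuationSubring :=
    (IsLocalRing.residue w.valuationSubring).comp
      { toFun := fun x => ⟨x.1, x.2⟩
        map_one' := rfl
        map_mul' := fun _ _ => rfl
        map_zero' := rfl
        map_add' := fun _ _ => rfl }
  have hρ : ∀ x : w.valuationSubring.toSubring, ρ x = 0 ↔ w (x : K) < 1 := by
    intro x
    have h1 : ρ x = IsLocalRing.residue w.valuationSubring ⟨x.1, x.2⟩ := rfl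
    rw [h1, IsLocalRing.residue_eq_zero_iff, IsLocalRing.mem_maximalIdeal, mem_nonunits_iff,
      lvdv_unit]
    have h2 : w (x : K) ≤ 1 := (hmem _).1 x.2
    exact ⟨fun h => lt_of_le_of_ne h2 h, fun h => h.ne⟩
  let D : DV K (IsLocalRing.ResidueField w.valuationSubring) :=
    { O := w.valuationSubring.toSubring
      π := (q : K)
      ρ := ρ
      hπO := by
        show (q : K) ∈ w.valuationSubring
        rw [hmem, hqw, ← WithZero.exp_zero, WithZero.exp_le_exp]
        norm_num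
      hπ0 := hq0
      ker := by
        intro x
        rw [hρ]
        constructor
        · intro h
          exact ⟨⟨(q : K)⁻¹ * x, (hdiv _).2 h⟩, by rw [mul_inv_cancel_left₀ hq0]⟩
        · rintro ⟨y, hy⟩
          rw [← hdiv, hy, inv_mul_cancel_left₀ hq0]
          exact y.2
      ex := by
        intro x hx
        have h4 : w x ≠ 0 := (Valuation.ne_zero_iff _).2 hx
        have h5 : w ((q : K) ^ (WithZero.log (w x)) * x) = 1 := by
          rw [map_mul, map_zpow₀, hqw, ← WithZero.exp_zsmul]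
          conv_lhs => rw [← WithZero.exp_log h4]
          rw [← WithZero.exp_add, WithZero.log_exp]
          have h6 : WithZero.log (w x) • (-1 : ℤ) + WithZero.log (w x) = 0 := by
            rw [smul_eq_mul]; ring
          rw [h6, WithZero.exp_zero]
        refine ⟨WithZero.log (w x), (hmem _).2 h5.le, ?_⟩
        rw [Ne, hρ]
        exact fun h => absurd h5 h.ne }
  refine ⟨IsLocalRing.ResidueField w.valuationSubring, inferInstance, D, rfl, ?_, ?_, ?_⟩
  · intro i h1 h2 h3
    have h4 : ρ (i : w.valuationSubring.toSubring) = 0 := by rw [map_natCast]; exact h3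
    rw [hρ] at h4
    have h5 : w ((i : 𝓞 K) : K) < 1 := by
      have h6 : ((i : 𝓞 K) : K) = ((i : w.valuationSubring.toSubring) : K) := by simp
      rw [h6]; exact h4
    rw [hw] at h5
    have h6 : (i : 𝓞 K) ∈ p := by
      rw [← hv]
      exact (v.valuation_lt_one_iff_mem (K := K) (i : 𝓞 K)).1 h5
    have h7 : Nat.Coprime i q := (Nat.coprime_of_lt_prime (by omega) h2 hq).symm
    have h8 : (1 : 𝓞 K) ∈ p := by
      have h9 := Nat.isCoprime_iff_coprime.2 h7
      obtain ⟨a, b, hab⟩ := h9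
      have h10 : ((a : ℤ) : 𝓞 K) * (i : 𝓞 K) + ((b : ℤ) : 𝓞 K) * (q : 𝓞 K) = 1 := by
        exact_mod_cast congrArg (fun z : ℤ => (z : 𝓞 K)) hab
      rw [← h10]
      exact p.add_mem (p.mul_mem_left _ h6) (p.mul_mem_left _ hqp)
    exact hp.ne_top ((Ideal.eq_top_iff_one p).2 h8)
  · intro x
    show (q : K) ^ (-(0 : ℤ)) * (x : K) ∈ w.valuationSubring
    rw [neg_zero, zpow_zero, one_mul, hmem, hw]
    exact v.valuation_le_one x
  · intro x
    show (q : K) ^ (-(1 : ℤ)) * (x : K) ∈ w.valuationSubring ↔ _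
    rw [zpow_neg_one, hdiv, hw, ← hv]
    exact v.valuation_lt_one_iff_mem x

end Pool.Agent.NLS
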