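import Mathlib

/-!
# NLS-LvSch: sums of a set of positive density (Schnirelmann)

For `S ∋ 0` and `M < N` let `S(M)` be the number of elements of `S` in `[1, M]`. `σ`-condition: `σ M ≤ S(M)` for `M < N`.
(1) At the start `σ = 1/(2c)`: `M + 1 ≤ c (A(M) + 1)` and `A(M) ≥ 1` for `M ≥ 1`, so `M ≤ 2 c A(M)`.
(2) Schnirelmann (`lv_add`): if `B` satisfies the condition with `τ`, then `(A+B)(M) ≥ A(M) + τ (M - A(M))`, by induction on `M`: let
`a` be the largest element of `A` in `[0, M]`; if `a = M`, `M` is a new element of both sets; if `a < M`, the sums `a + b` are new.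
(3) If `A(M) + B(M) ≥ M` then `M ∈ A + B` (`lv_full`).
The `k`-fold sums satisfy the condition with `1 - (1 - σ)^k`; if this is `≥ 1/2`, take `h = 2 k`.
-/

open Finset

namespace Pool.Agent.NLS

open Classical in
/-- the number of elements of `S` in `[1, M]` -/
private noncomputable def lvCnt (S : Set ℕ) (M : ℕ) : ℕ := ((Icc 1 M).filter fun a => a ∈ S).card

private lemma lvCnt_zero (S : Set ℕ) : lvCnt S 0 = 0 := by
  simp [lvCnt]

private lemma lvCnt_mem {S : Set ℕ} {M : ℕ} (h : M + 1 ∈ S) : lvCnt S (M + 1) = lvCnt S M + 1 := by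
  classical
  have e : ((Icc 1 (M + 1)).filter fun a => a ∈ S) =
      insert (M + 1) ((Icc 1 M).filter fun a => a ∈ S) := by
    ext a
    simp only [mem_filter, mem_insert, mem_Icc]
    constructor
    · rintro ⟨⟨h1, h2⟩, h3⟩
      by_cases h4 : a = M + 1
      · exact Or.inl h4
      · exact Or.inr ⟨⟨h1, by omega⟩, h3⟩
    · rintro (rfl | ⟨⟨h1, h2⟩, h3⟩)
      · exact ⟨⟨by omega, le_rfl⟩, h⟩
      · exact ⟨⟨h1, by omega⟩, h3⟩
  unfold lvCnt
  have hn : M + 1 ∉ ((Icc 1 M).filter fun a => a ∈ S) := by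
    intro h5
    have h6 := (mem_Icc.mp (mem_filter.mp h5).1).2
    omega
  have h7 := card_insert_of_notMem hn
  rw [← e] at h7
  exact h7

private lemma lvCnt_pos {S : Set ℕ} {M : ℕ} (h : 1 ∈ S) (hM : 1 ≤ M) : 1 ≤ lvCnt S M := by
  classical
  unfold lvCnt
  exact card_pos.mpr ⟨1, mem_filter.mpr ⟨mem_Icc.mpr ⟨le_rfl, hM⟩, h⟩⟩

private lemma lvCnt_gap {S : Set ℕ} {a M : ℕ} (ha : a ≤ M) (h : ∀ x, a < x → x ≤ M → x ∉ S) :
    lvCnt S M = lvCnt S a := by
  classical
  unfold lvCnt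
  congr 1
  ext x
  simp only [mem_filter, mem_Icc]
  constructor
  · rintro ⟨⟨h1, h2⟩, h3⟩
    refine ⟨⟨h1, ?_⟩, h3⟩
    by_contra h4
    exact h x (by omega) h2 h3
  · rintro ⟨⟨h1, h2⟩, h3⟩
    exact ⟨⟨h1, h2.trans ha⟩, h3⟩

private lemma lvCnt_shift {B C : Set ℕ} {a M : ℕ} (ha : a ≤ M) (h : ∀ b ∈ B, a + b ∈ C) :
    lvCnt C a + lvCnt B (M - a) ≤ lvCnt C M := by
  classical
  unfold lvCnt
  have hinj : Function.Injective fun b : ℕ => a + b := fun x y hxy => by
    simpa using hxy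
  rw [← card_image_of_injective ((Icc 1 (M - a)).filter fun x => x ∈ B) hinj,
    ← card_union_of_disjoint]
  · apply card_le_card
    intro x hx
    rcases mem_union.mp hx with hx | hx
    · obtain ⟨h1, h2⟩ := mem_filter.mp hx
      obtain ⟨h3, h4⟩ := mem_Icc.mp h1
      exact mem_filter.mpr ⟨mem_Icc.mpr ⟨h3, h4.trans ha⟩, h2⟩
    · obtain ⟨b, hb, rfl⟩ := mem_image.mp hx
      obtain ⟨h1, h2⟩ := mem_filter.mp hb
      obtain ⟨h3, h4⟩ := mem_Icc.mp h1
      exact mem_filter.mpr ⟨mem_Icc.mpr ⟨by omega, by omega⟩, h b h2⟩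
  · rw [disjoint_left]
    intro x hx hx'
    obtain ⟨b, hb, rfl⟩ := mem_image.mp hx'
    have h1 := (mem_Icc.mp (mem_filter.mp hx).1).2
    have h2 := (mem_Icc.mp (mem_filter.mp hb).1).1
    omega

private lemma lv_add {A B C : Set ℕ} {N : ℕ} {τ : ℝ} (hA0 : 0 ∈ A) (hB0 : 0 ∈ B)
    (hC : ∀ a ∈ A, ∀ b ∈ B, a + b ∈ C) (hB : ∀ M < N, τ * M ≤ lvCnt B M) :
    ∀ M < N, (lvCnt A M : ℝ) + τ * (M - lvCnt A M) ≤ lvCnt C M := by
  classical
  intro M
  induction M using Nat.strong_induction_on with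
  | _ M ih =>
    intro hM
    by_cases hMA : M ∈ A
    · rcases M with _ | M
      · simp [lvCnt_zero]
      · rw [lvCnt_mem hMA, lvCnt_mem (hC (M + 1) hMA 0 hB0)]
        have h1 := ih M (by omega) (by omega)
        push_cast
        linarith
    · set a := Nat.findGreatest (fun x => x ∈ A) M with ha
      have haA : a ∈ A := Nat.findGreatest_spec (P := fun x => x ∈ A) (Nat.zero_le M) hA0
      have haM : a ≤ M := Nat.findGreatest_le M
      have hgap : ∀ x, a < x → x ≤ M → x ∉ A := fun x h1 h2 =>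
        Nat.findGreatest_is_greatest h1 h2
      have hlt : a < M := by
        rcases haM.lt_or_eq with h | h
        · exact h
        · exact absurd (h ▸ haA) hMA
      have h1 := ih a hlt (hlt.trans hM)
      have h2 := hB (M - a) (by omega)
      have h3 : lvCnt C a + lvCnt B (M - a) ≤ lvCnt C M := lvCnt_shift haM (hC a haA)
      have h4 : ((lvCnt C a : ℝ) + lvCnt B (M - a)) ≤ lvCnt C M := by exact_mod_cast h3
      rw [lvCnt_gap haM hgap]
      rw [Nat.cast_sub haM] at h2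
      linarith

private lemma lv_full {A B : Set ℕ} (hA0 : 0 ∈ A) (hB0 : 0 ∈ B) {M : ℕ}
    (h : M ≤ lvCnt A M + lvCnt B M) : ∃ a ∈ A, ∃ b ∈ B, a + b = M := by
  classical
  by_cases hMA : M ∈ A
  · exact ⟨M, hMA, 0, hB0, add_zero M⟩
  by_cases hMB : M ∈ B
  · exact ⟨0, hA0, M, hMB, zero_add M⟩
  have hM1 : 1 ≤ M := by
    rcases Nat.eq_zero_or_pos M with rfl | h1
    · exact absurd hA0 hMA
    · exact h1
  have hgA : lvCnt A M = lvCnt A (M - 1) := lvCnt_gap (by omega) fun x h1 h2 => by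
    have : x = M := by omega
    rw [this]; exact hMA
  have hgB : lvCnt B M = lvCnt B (M - 1) := lvCnt_gap (by omega) fun x h1 h2 => by
    have : x = M := by omega
    rw [this]; exact hMB
  rw [hgA, hgB] at h
  by_contra hcon
  push Not at hcon
  have hdis : Disjoint ((Icc 1 (M - 1)).filter fun x => x ∈ A)
      (((Icc 1 (M - 1)).filter fun x => x ∈ B).image fun b => M - b) := by
    rw [disjoint_left]
    intro x hx hx'
    obtain ⟨b, hb, rfl⟩ := mem_image.mp hx'
    have h1 := mem_Icc.mp (mem_filter.mp hb).1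
    exact hcon _ (mem_filter.mp hx).2 b (mem_filter.mp hb).2 (by omega)
  have hc2 : (((Icc 1 (M - 1)).filter fun x => x ∈ B).image fun b => M - b).card =
      ((Icc 1 (M - 1)).filter fun x => x ∈ B).card := by
    apply card_image_of_injOn
    intro x hx y hy hxy
    have h1 := mem_Icc.mp (mem_filter.mp (mem_coe.mp hx)).1
    have h2 := mem_Icc.mp (mem_filter.mp (mem_coe.mp hy)).1
    simp only at hxy
    omega
  have hsub : ((Icc 1 (M - 1)).filter fun x => x ∈ A) ∪
      (((Icc 1 (M - 1)).filter fun x => x ∈ B).image fun b => M - b) ⊆ Icc 1 (M - 1) := by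
    intro x hx
    rcases mem_union.mp hx with hx | hx
    · exact (mem_filter.mp hx).1
    · obtain ⟨b, hb, rfl⟩ := mem_image.mp hx
      have h1 := mem_Icc.mp (mem_filter.mp hb).1
      exact mem_Icc.mpr ⟨by omega, by omega⟩
  have h1 := card_le_card hsub
  rw [card_union_of_disjoint hdis, hc2, Nat.card_Icc] at h1
  have h2 : lvCnt A (M - 1) = ((Icc 1 (M - 1)).filter fun x => x ∈ A).card := by
    unfold lvCnt; congr
  have h3 : lvCnt B (M - 1) = ((Icc 1 (M - 1)).filter fun x => x ∈ B).card := by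
    unfold lvCnt; congr
  rw [h2, h3] at h
  omega

/-- the `k`-fold sums -/
private def lvRep (A : Finset ℕ) (k : ℕ) : Set ℕ :=
  {a | ∃ f : Fin k → ℕ, (∀ i, f i ∈ A) ∧ ∑ i, f i = a}

private lemma lvRep_zero_mem {A : Finset ℕ} (h : 0 ∈ A) (k : ℕ) : 0 ∈ lvRep A k :=
  ⟨fun _ => 0, fun _ => h, by simp⟩

private lemma lvRep_succ {A : Finset ℕ} {k a b : ℕ} (ha : a ∈ lvRep A k) (hb : b ∈ A) :
    a + b ∈ lvRep A (k + 1) := by
  obtain ⟨f, hf, rfl⟩ := ha
  refine ⟨Fin.cons b f, ?_, ?_⟩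
  · intro i
    refine Fin.cases ?_ (fun j => ?_) i
    · rw [Fin.cons_zero]; exact hb
    · rw [Fin.cons_succ]; exact hf j
  · rw [Fin.sum_univ_succ, Fin.cons_zero]
    simp only [Fin.cons_succ]
    exact add_comm _ _

private lemma lvRep_add {A : Finset ℕ} {k a b : ℕ} (ha : a ∈ lvRep A k) (hb : b ∈ lvRep A k) :
    a + b ∈ lvRep A (k + k) := by
  obtain ⟨f, hf, rfl⟩ := ha
  obtain ⟨g, hg, rfl⟩ := hb
  refine ⟨Fin.append f g, ?_, ?_⟩
  · intro i
    refine Fin.addCases (fun j => ?_) (fun j => ?_) i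
    · rw [Fin.append_left]; exact hf j
    · rw [Fin.append_right]; exact hg j
  · rw [Fin.sum_univ_add]
    simp only [Fin.append_left, Fin.append_right]

theorem lv_sch (c : ℕ) (hc : 1 ≤ c) : ∃ h : ℕ, 1 ≤ h ∧ ∀ (N : ℕ) (A : Finset ℕ), 0 ∈ A → 1 ∈ A →
    (∀ M ≤ N, M ≤ c * (A.filter fun a => a < M).card) →
    ∀ a < N, ∃ f : Fin h → ℕ, (∀ i, f i ∈ A) ∧ ∑ i, f i = a := by
  have hcR : (1 : ℝ) ≤ c := by exact_mod_cast hc
  set σ : ℝ := 1 / (2 * c) with hσ
  have hσ0 : 0 < σ := by positivity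
  have hσ1 : σ ≤ 1 := by
    rw [hσ, div_le_one (by positivity)]
    linarith
  obtain ⟨k, hk⟩ := exists_pow_lt_of_lt_one (show (0 : ℝ) < 1 / 2 by norm_num)
    (show 1 - σ < 1 by linarith)
  have hk1 : 1 ≤ k := by
    rcases Nat.eq_zero_or_pos k with rfl | h
    · norm_num at hk
    · exact h
  refine ⟨k + k, by omega, ?_⟩
  intro N A h0 h1 hA
  -- the condition for `A`
  have hstart : ∀ M < N, σ * M ≤ lvCnt (A : Set ℕ) M := by
    classical
    intro M hM
    rcases Nat.eq_zero_or_pos M with rfl | hM1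
    · simp
    have h2 := hA (M + 1) (by omega)
    have h3 : (A.filter fun a => a < M + 1).card ≤ lvCnt (A : Set ℕ) M + 1 := by
      have h4 : (A.filter fun a => a < M + 1) ⊆
          insert 0 ((Icc 1 M).filter fun x => x ∈ (A : Set ℕ)) := by
        intro x hx
        obtain ⟨h5, h6⟩ := mem_filter.mp hx
        rw [mem_insert, mem_filter, mem_Icc]
        rcases Nat.eq_zero_or_pos x with h7 | h7
        · exact Or.inl h7
        · exact Or.inr ⟨⟨h7, by omega⟩, h5⟩
      refine (card_le_card h4).trans ((card_insert_le _ _).trans ?_)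
      unfold lvCnt
      apply le_of_eq
      congr
    have h5 : 1 ≤ lvCnt (A : Set ℕ) M := lvCnt_pos h1 hM1
    have h6 : M + 1 ≤ c * (lvCnt (A : Set ℕ) M + 1) := h2.trans (Nat.mul_le_mul_left c h3)
    have h7 : M ≤ 2 * c * lvCnt (A : Set ℕ) M := by nlinarith
    have h8 : (M : ℝ) ≤ 2 * c * lvCnt (A : Set ℕ) M := by exact_mod_cast h7
    rw [hσ, div_mul_eq_mul_div, one_mul, div_le_iff₀ (by positivity)]
    linarith
  -- the condition for the `k`-fold sums
  have hsum : ∀ j : ℕ, ∀ M < N, (1 - (1 - σ) ^ j) * M ≤ lvCnt (lvRep A j) M := by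
    intro j
    induction j with
    | zero =>
      intro M _
      simp
    | succ j ih =>
      intro M hM
      have h2 := lv_add (A := lvRep A j) (B := (A : Set ℕ)) (C := lvRep A (j + 1))
        (lvRep_zero_mem h0 j) h0 (fun a ha b hb => lvRep_succ ha hb) hstart M hM
      have h3 := ih M hM
      have h4 : (1 - σ) * ((1 - (1 - σ) ^ j) * M) ≤ (1 - σ) * lvCnt (lvRep A j) M :=
        mul_le_mul_of_nonneg_left h3 (by linarith)
      rw [pow_succ]
      nlinarith
  intro a ha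
  have h2 := hsum k a ha
  have h3 : a ≤ lvCnt (lvRep A k) a + lvCnt (lvRep A k) a := by
    have h4 : (a : ℝ) ≤ lvCnt (lvRep A k) a + lvCnt (lvRep A k) a := by
      have h5 : (1 / 2 : ℝ) * a ≤ (1 - (1 - σ) ^ k) * a :=
        mul_le_mul_of_nonneg_right (by linarith) (Nat.cast_nonneg a)
      linarith
    exact_mod_cast h4
  obtain ⟨x, hx, y, hy, rfl⟩ := lv_full (lvRep_zero_mem h0 k) (lvRep_zero_mem h0 k) h3
  exact lvRep_add hx hy

end Pool.Agent.NLS
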