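import Pool.Agent.NLS.LvOrd
import Pool.Agent.NLS.LvSch

/-!
# NLS-LvFull: products of `h` elements have all orders, so they span everything

The set `A` of the orders of elements of the span contains `0` and `1` and has positive density by `lv_ord`, so by
`lv_sch` every `a < N` is a sum of `h` elements of `A`; the product of elements of these orders has order `a`, and it is a
combination of products of `h` of the given series. A functional which kills all the products is zero (downward induction).
-/

open Finset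

namespace Pool.Agent.NLS

open Classical in
private theorem lvFull_ord_zero {K : Type} [Field K] {V : Type} (X : Finset V) (F : V → ℕ → K) {v : V} (hv : v ∈ X)
    (h0 : F v 0 = 1) : IsOrd X F 0 := by
  refine ⟨fun x => if x = v then 1 else 0, fun j hj => absurd hj (Nat.not_lt_zero j), ?_⟩
  have e : ∑ x ∈ X, (if x = v then (1 : K) else 0) * F x 0 = F v 0 := by
    rw [Finset.sum_eq_single v]
    · simp
    · intro b _ hb; simp [hb]
    · intro h; exact absurd hv h
  rw [e, h0]; exact one_ne_zero

open Classical in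
private theorem lvFull_ord_one {K : Type} [Field K] {V : Type} (X : Finset V) (F : V → ℕ → K) {v w : V} (hv : v ∈ X)
    (hw : w ∈ X) (h0 : ∀ x ∈ X, F x 0 = 1) (h1 : F v 1 ≠ F w 1) : IsOrd X F 1 := by
  have e : ∀ j, ∑ x ∈ X, ((if x = v then (1 : K) else 0) - (if x = w then (1 : K) else 0)) * F x j = F v j - F w j := by
    intro j
    simp only [sub_mul, Finset.sum_sub_distrib]
    congr 1
    · rw [Finset.sum_eq_single v]
      · simp
      · intro b _ hb; simp [hb]
      · intro h; exact absurd hv h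
    · rw [Finset.sum_eq_single w]
      · simp
      · intro b _ hb; simp [hb]
      · intro h; exact absurd hw h
  refine ⟨fun x => (if x = v then 1 else 0) - (if x = w then 1 else 0), fun j hj => ?_, ?_⟩
  · obtain rfl : j = 0 := by omega
    rw [e, h0 v hv, h0 w hw, sub_self]
  · rw [e]; exact sub_ne_zero.2 h1

private theorem lvFull_prod_order {K : Type} [Field K] {h : ℕ} (g : Fin h → PowerSeries K) (f : Fin h → ℕ)
    (hg : ∀ i, (g i).order = f i) : (∏ i, g i).order = ((∑ i, f i : ℕ) : ℕ∞) := by
  induction h with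
  | zero => simp
  | succ n ih =>
    rw [Fin.prod_univ_succ, Fin.sum_univ_succ, PowerSeries.order_mul, hg 0,
      ih (fun i => g i.succ) (fun i => f i.succ) (fun i => hg i.succ)]
    push_cast; rfl

theorem lv_full (c : ℕ) (hc : 1 ≤ c) : ∃ h : ℕ, 1 ≤ h ∧ ∀ (K : Type) [Field K] (V : Type) (X : Finset V) (F : V → ℕ → K) (N : ℕ),
    (∀ v ∈ X, F v 0 = 1) → (∃ v ∈ X, ∃ w ∈ X, F v 1 ≠ F w 1) →
    (∀ M ≤ N, ∃ Y ⊆ X, M ≤ c * Y.card ∧
      ∀ μ : V → K, (∀ j < M, ∑ v ∈ Y, μ v * F v j = 0) → ∀ v ∈ Y, μ v = 0) →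
    ∀ lam : ℕ → K, (∀ u : Fin h → V, (∀ i, u i ∈ X) →
      ∑ j ∈ range N, lam j * PowerSeries.coeff j (∏ i, PowerSeries.mk (F (u i)) : PowerSeries K) = 0) →
    ∀ j < N, lam j = 0 := by
  classical
  obtain ⟨h, hh, H⟩ := lv_sch c hc
  refine ⟨h, hh, ?_⟩
  intro K _ V X F N h0 hvw hY lam hlam
  obtain ⟨v, hv, w, hw, h1⟩ := hvw
  -- the set of orders
  set A : Finset ℕ := (range (N + 2)).filter (fun a => IsOrd X F a) with hA
  have hA0 : 0 ∈ A := by
    rw [hA, mem_filter]
    exact ⟨by simp, lvFull_ord_zero X F hv (h0 v hv)⟩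
  have hA1 : 1 ∈ A := by
    rw [hA, mem_filter]
    exact ⟨by simp, lvFull_ord_one X F hv hw h0 h1⟩
  have hAc : ∀ M ≤ N, M ≤ c * (A.filter fun a => a < M).card := by
    intro M hM
    obtain ⟨Y, hYX, hMc, hind⟩ := hY M hM
    obtain ⟨S, hS, hSc⟩ := lv_ord X Y hYX F M hind
    have hsub : S ⊆ A.filter fun a => a < M := by
      intro a ha
      obtain ⟨h2, h3⟩ := hS a ha
      rw [mem_filter, hA, mem_filter, mem_range]
      exact ⟨⟨by omega, h3⟩, h2⟩
    exact hMc.trans (Nat.mul_le_mul_left c (hSc.trans (card_le_card hsub)))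
  have key : ∀ a < N, ∃ P : PowerSeries K, (∀ j < a, PowerSeries.coeff j P = 0) ∧ PowerSeries.coeff a P ≠ 0 ∧
      ∑ j ∈ range N, lam j * PowerSeries.coeff j P = 0 := by
    intro a ha
    obtain ⟨f, hf, hfa⟩ := H N A hA0 hA1 hAc a ha
    have hord : ∀ i, IsOrd X F (f i) := fun i => (mem_filter.1 (hf i)).2
    choose μ hμ1 hμ2 using hord
    set g : Fin h → PowerSeries K := fun i => ∑ x ∈ X, PowerSeries.C (μ i x) * PowerSeries.mk (F x) with hg
    have hgc : ∀ i j, PowerSeries.coeff j (g i) = ∑ x ∈ X, μ i x * F x j := by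
      intro i j
      rw [hg]
      simp only [map_sum, PowerSeries.coeff_C_mul, PowerSeries.coeff_mk]
    have hgo : ∀ i, (g i).order = f i := by
      intro i
      rw [PowerSeries.order_eq_nat]
      exact ⟨by rw [hgc]; exact hμ2 i, fun j hj => by rw [hgc]; exact hμ1 i j hj⟩
    have hPo := lvFull_prod_order g f hgo
    rw [hfa, PowerSeries.order_eq_nat] at hPo
    refine ⟨∏ i, g i, hPo.2, hPo.1, ?_⟩
    have hexp : ∏ i, g i = ∑ u ∈ Fintype.piFinset (fun _ : Fin h => X),
        PowerSeries.C (∏ i, μ i (u i)) * ∏ i, PowerSeries.mk (F (u i)) := by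
      rw [hg, Finset.prod_univ_sum]
      refine Finset.sum_congr rfl fun u _ => ?_
      rw [Finset.prod_mul_distrib, map_prod]
    rw [hexp]
    simp only [map_sum, PowerSeries.coeff_C_mul, Finset.mul_sum]
    rw [Finset.sum_comm]
    refine Finset.sum_eq_zero fun u hu => ?_
    have h3 := hlam u (fun i => Fintype.mem_piFinset.1 hu i)
    have h4 : ∑ j ∈ range N, lam j * ((∏ i, μ i (u i)) * PowerSeries.coeff j (∏ i, PowerSeries.mk (F (u i)) : PowerSeries K)) =
        (∏ i, μ i (u i)) * ∑ j ∈ range N, lam j * PowerSeries.coeff j (∏ i, PowerSeries.mk (F (u i)) : PowerSeries K) := by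
      rw [Finset.mul_sum]
      exact Finset.sum_congr rfl fun j _ => by ring
    rw [h4, h3, mul_zero]
  -- downward induction
  have hdown : ∀ d a, a < N → N ≤ a + d → lam a = 0 := by
    intro d
    induction d with
    | zero => intro a ha hd; omega
    | succ d ih =>
      intro a ha hd
      obtain ⟨P, hP1, hP2, hP3⟩ := key a ha
      have h5 : ∑ j ∈ range N, lam j * PowerSeries.coeff j P = lam a * PowerSeries.coeff a P := by
        refine Finset.sum_eq_single a ?_ ?_
        · intro b hb hba
          rcases lt_or_gt_of_ne hba with hlt | hgt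
          · rw [hP1 b hlt, mul_zero]
          · rw [ih b (mem_range.1 hb) (by omega), zero_mul]
        · intro h6; exact absurd (mem_range.2 ha) h6
      rw [h5] at hP3
      exact (mul_eq_zero.1 hP3).resolve_right hP2
  intro j hj
  exact hdown N j hj (by omega)

end Pool.Agent.NLS
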