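import Pool.Agent.NLS.LvClaim
import Pool.Agent.NLS.LvDv
import Pool.Agent.NLS.LvFull
import Pool.Agent.NLS.Pj

/-!
# NLS-DcLoc: the zero estimate at one prime over `q`, exponent `M = q a` with `q` not dividing `a`

If the vectors `(ps s 1, ..., ps s c)` of the elements of `Y ⊆ X` are distinct modulo a prime `p` over `q`, `|Y| ≥ N`, `N ≤ q`, then
`h(c)`-fold sums of elements of `X` have a nonzero minor.

Copy of `NLS/LvLoc` with `Pj n K (q a)`: at `p` the number `a` is a unit (`dclo_unit`), so `x v l = -ps v l / a` is integral and the uniformizer is `q`.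

`h` from `lv_full c`; `F v j = Pj n K (q a) v j = ex (fun l => -ps v l / (q a)) j`, `F v 0 = 1` (`Pj_zero`), `F v 1 = -ps v 1 / (q a)`. For `1 ≤ M ≤ N` take
`Y_M ⊆ Y` of cardinality `⌈M / c⌉` (so `M ≤ c |Y_M|`, `c (|Y_M| - 1) < M`) and `lv_indep` with `N := M`, `x v l = -ps v l`, `D` from `exists_dv`
(`D.π = q`; `D.ge (x v l - x w l) 1 ↔ ps v l - ps w l ∈ p`); `M = 0`: `Y_0 = ∅`. `lv_full`: only the functional `0` on `K^N` kills all the vectors
`(Pj (∑ w_k) j)_(j < N)` (`∏ mk (F (w k)) = mk (F (∑ w k))` by `Pj_add`; `Pj 0 = δ`), so they span `K^N` and `N` of them have a nonzero determinant;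
`coe_Qj`: `Q_j = q^j j! P_j` (multiply the columns).
-/

open NumberField Finset
open Pool.Agent.AAP Pool.Agent.Helper7.HU

namespace Pool.Agent.NLS.DC

/-- a spanning family of vectors has a nonzero minor -/
private theorem dclo_minor {K V : Type} [Field K] (N : ℕ) (S : Set V) (r : V → Fin N → K)
    (hs : Submodule.span K (r '' S) = ⊤) :
    ∃ u : Fin N → V, (∀ i, u i ∈ S) ∧ (Matrix.of fun i j : Fin N => r (u i) j).det ≠ 0 := by
  classical
  obtain ⟨b, hb1, hb2, hb3⟩ := exists_linearIndependent K (r '' S)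
  rw [hs] at hb2
  let B : Module.Basis b K (Fin N → K) := Module.Basis.mk hb3 (by rw [Subtype.range_coe, hb2])
  have : Fintype b := FiniteDimensional.fintypeBasisIndex B
  have hcard : Fintype.card b = N := by
    rw [← Module.finrank_eq_card_basis B, Module.finrank_fintype_fun_eq_card, Fintype.card_fin]
  let e : Fin N ≃ b := (Fintype.equivFinOfCardEq hcard).symm
  have hex : ∀ x : b, ∃ s ∈ S, r s = (x : Fin N → K) := fun x => hb1 x.2
  choose s hsS hsr using hex
  refine ⟨fun i => s (e i), fun i => hsS _, ?_⟩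
  have hli : LinearIndependent K (fun i : Fin N => ((e i : b) : Fin N → K)) :=
    hb3.comp e e.injective
  have hrow : (Matrix.of fun i j : Fin N => r (s (e i)) j).row = fun i : Fin N => ((e i : b) : Fin N → K) := by
    funext i j
    show r (s (e i)) j = _
    rw [hsr]
  have hu : IsUnit (Matrix.of fun i j : Fin N => r (s (e i)) j) := by
    rw [← Matrix.linearIndependent_rows_iff_isUnit, hrow]
    exact hli
  exact ((Matrix.isUnit_iff_isUnit_det _).1 hu).ne_zero

/-- multiplication of the columns by nonzero numbers -/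
private theorem dclo_scale {ι K : Type*} [Fintype ι] [DecidableEq ι] [Field K] (A B : ι → ι → K)
    (c : ι → K) (hc : ∀ j, c j ≠ 0) (h : ∀ i j, B i j = c j * A i j) (hA : (Matrix.of A).det ≠ 0) :
    (Matrix.of B).det ≠ 0 := by
  have h1 : Matrix.of B = Matrix.of fun i j => c j * (Matrix.of A) i j := by
    ext i j
    exact h i j
  rw [h1, Matrix.det_mul_row]
  exact mul_ne_zero (Finset.prod_ne_zero_iff.2 fun j _ => hc j) hA

private theorem dclo_one {n : ℕ} [Fact n.Prime] {K : Type} [Field K] [NumberField K]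
    [IsCyclotomicExtension {n} ℚ K] {q : ℕ} (s : H n → ℤ) :
    Pj n K q s 1 = -((ps n K s 1 : 𝓞 K) : K) / (q : K) := by
  have h1 := ex_succ (fun i => -((ps n K s i : 𝓞 K) : K) / (q : K)) 0
  rw [Finset.sum_range_one, Nat.cast_zero, zero_add, one_mul, Nat.sub_zero, ex_zero, mul_one] at h1
  exact h1

private theorem dclo_mk_add {n : ℕ} [Fact n.Prime] {K : Type} [Field K] [NumberField K]
    [IsCyclotomicExtension {n} ℚ K] {q : ℕ} (s t : H n → ℤ) :
    PowerSeries.mk (Pj n K q (s + t)) = PowerSeries.mk (Pj n K q s) * PowerSeries.mk (Pj n K q t) := by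
  ext j
  rw [PowerSeries.coeff_mk, PowerSeries.coeff_mul, Pj_add]
  exact Finset.sum_congr rfl fun p _ => by rw [PowerSeries.coeff_mk, PowerSeries.coeff_mk]

private theorem dclo_mk_zero {n : ℕ} [Fact n.Prime] {K : Type} [Field K] [NumberField K]
    [IsCyclotomicExtension {n} ℚ K] {q : ℕ} :
    PowerSeries.mk (Pj n K q (0 : H n → ℤ)) = 1 := by
  have h1 := dclo_mk_add (n := n) (K := K) (q := q) 0 0
  rw [add_zero] at h1
  have h2 : PowerSeries.mk (Pj n K q (0 : H n → ℤ)) ≠ 0 := by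
    intro h
    have h3 := congrArg (PowerSeries.coeff 0) h
    rw [PowerSeries.coeff_mk, Pj_zero, map_zero] at h3
    exact one_ne_zero h3
  exact mul_left_cancel₀ h2 (by rw [← h1, mul_one])

private theorem dclo_mk_sum {n : ℕ} [Fact n.Prime] {K : Type} [Field K] [NumberField K]
    [IsCyclotomicExtension {n} ℚ K] {q : ℕ} {ι : Type} (S : Finset ι) (w : ι → H n → ℤ) :
    ∏ i ∈ S, PowerSeries.mk (Pj n K q (w i)) = PowerSeries.mk (Pj n K q (∑ i ∈ S, w i)) := by
  classical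
  induction S using Finset.induction_on with
  | empty => rw [Finset.prod_empty, Finset.sum_empty, dclo_mk_zero]
  | insert a S ha ih => rw [Finset.prod_insert ha, Finset.sum_insert ha, ih, dclo_mk_add]

private theorem dclo_arith {c M : ℕ} (hc : 1 ≤ c) (hM : 1 ≤ M) : M + c - 1 ≤ c * M := by
  obtain ⟨c, rfl⟩ := Nat.exists_eq_add_of_le hc
  obtain ⟨M, rfl⟩ := Nat.exists_eq_add_of_le hM
  have h1 : (1 + c) * (1 + M) = 1 + M + c + c * M := by ring
  omega

/-- a natural number prime to `q` is a unit -/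
private theorem dclo_unit {K k : Type} [Field K] [NumberField K] [Field k] (D : DV K k) (p : Ideal (𝓞 K)) (hp : p.IsMaximal) {q a : ℕ}
    (hqp : (q : 𝓞 K) ∈ p) (hqa : ¬ q ∣ a) (hge0 : ∀ x : 𝓞 K, D.ge (x : K) 0) (hge1 : ∀ x : 𝓞 K, D.ge (x : K) 1 ↔ x ∈ p) (hq : q.Prime) :
    D.ge (a : K)⁻¹ 0 ∧ D.ge (a : K) 0 := by
  have ha0 : (a : K) ≠ 0 := Nat.cast_ne_zero.2 fun h0 => hqa (by rw [h0]; exact dvd_zero q)
  have hcast : ((a : 𝓞 K) : K) = (a : K) := map_natCast (algebraMap (𝓞 K) K) a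
  have h0 : D.ge (a : K) 0 := by
    have h := hge0 (a : 𝓞 K)
    rwa [hcast] at h
  have h1 : ¬ D.ge (a : K) 1 := by
    intro h
    rw [← hcast, hge1] at h
    have hco : IsCoprime (q : ℤ) (a : ℤ) := Nat.isCoprime_iff_coprime.2 ((Nat.Prime.coprime_iff_not_dvd hq).2 hqa)
    obtain ⟨u, v, huv⟩ := hco
    apply hp.ne_top
    rw [Ideal.eq_top_iff_one]
    have h2 : (1 : 𝓞 K) = (u : 𝓞 K) * (q : 𝓞 K) + (v : 𝓞 K) * (a : 𝓞 K) := by
      have h3 := congrArg (fun z : ℤ => (z : 𝓞 K)) huv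
      push_cast at h3
      exact h3.symm
    rw [h2]
    exact p.add_mem (p.mul_mem_left _ hqp) (p.mul_mem_left _ h)
  obtain ⟨v, hv⟩ := D.ex_val ha0
  obtain ⟨w, hw⟩ := D.ex_val (inv_ne_zero ha0)
  have hv0 : v = 0 := by
    have h2 := (hv 0).1 h0
    have h3 : ¬ (1 : ℤ) ≤ v := fun h => h1 ((hv 1).2 h)
    omega
  have hone : D.ge 1 0 := D.ge_one
  have h4 := D.val_mul hv hw
  have h5 : (0 : ℤ) ≤ v + w := by
    rw [← h4, mul_inv_cancel₀ ha0]
    exact hone
  exact ⟨(hw 0).2 (by omega), h0⟩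

theorem lv_loc (c : ℕ) (hc : 1 ≤ c) : ∃ h : ℕ, 1 ≤ h ∧ ∀ (n : ℕ) [Fact n.Prime] (K : Type) [Field K] [NumberField K]
    [IsCyclotomicExtension {n} ℚ K] (q a : ℕ) (p : Ideal (𝓞 K)) (N : ℕ) (X Y : Finset (H n → ℤ)), n ≠ 2 → q.Prime → q ≠ n → ¬ q ∣ a →
    p.IsMaximal → (q : 𝓞 K) ∈ p → N ≤ q → (∃ v ∈ X, ∃ w ∈ X, ps n K v 1 ≠ ps n K w 1) → Y ⊆ X → N ≤ Y.card →
    (∀ s ∈ Y, ∀ t ∈ Y, (∀ l, 1 ≤ l → l ≤ c → ps n K s l - ps n K t l ∈ p) → s = t) →
    ∃ u : Fin N → (H n → ℤ), (∀ i, ∃ w : Fin h → (H n → ℤ), (∀ j, w j ∈ X) ∧ u i = ∑ j, w j) ∧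
      (Matrix.of fun i j : Fin N => Qj n K (q * a) (u i) (j : ℕ)).det ≠ 0 := by
  classical
  obtain ⟨h, hh, Hf⟩ := lv_full c hc
  refine ⟨h, hh, ?_⟩
  intro n _ K _ _ _ q a p N X Y hn2 hq hqn hqa hp hqp hNq hXw hYX hNY hinj
  obtain ⟨k, _, D, hDπ, hk, hge0, hge1⟩ := exists_dv n K hn2 hq hqn p hp hqp
  have hM0 : q * a ≠ 0 := Nat.mul_ne_zero hq.ne_zero fun h0 => hqa (by rw [h0]; exact dvd_zero q)
  have hq0 : ((q * a : ℕ) : K) ≠ 0 := Nat.cast_ne_zero.2 hM0
  have ha0 : (a : K) ≠ 0 := Nat.cast_ne_zero.2 fun h0 => hqa (by rw [h0]; exact dvd_zero q)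
  have hqK : (q : K) ≠ 0 := Nat.cast_ne_zero.2 hq.ne_zero
  obtain ⟨hai, haO⟩ := dclo_unit D p hp hqp hqa hge0 hge1 hq
  have hFd : ∃ v ∈ X, ∃ w ∈ X, Pj n K (q * a) v 1 ≠ Pj n K (q * a) w 1 := by
    obtain ⟨v, hv, w, hw, hvw⟩ := hXw
    refine ⟨v, hv, w, hw, fun h1 => hvw ?_⟩
    rw [dclo_one, dclo_one, div_left_inj' hq0, neg_inj] at h1
    exact RingOfIntegers.coe_injective h1
  have hFM : ∀ M ≤ N, ∃ Y' ⊆ X, M ≤ c * Y'.card ∧
      ∀ μ : (H n → ℤ) → K, (∀ j < M, ∑ v ∈ Y', μ v * Pj n K (q * a) v j = 0) → ∀ v ∈ Y', μ v = 0 := by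
    intro M hM
    rcases Nat.eq_zero_or_pos M with rfl | hM0
    · exact ⟨∅, Finset.empty_subset _, Nat.zero_le _, fun μ _ v hv => absurd hv (Finset.notMem_empty _)⟩
    · have ha1 : M ≤ c * ((M + c - 1) / c) := by
        have h1 := Nat.lt_div_mul_add (a := M + c - 1) (b := c) (by omega)
        rw [mul_comm] at h1
        omega
      have ha2 : c * ((M + c - 1) / c - 1) < M := by
        have h1 := Nat.div_mul_le_self (M + c - 1) c
        rw [Nat.mul_sub, mul_one]
        rw [mul_comm] at h1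
        omega
      have ha3 : (M + c - 1) / c ≤ M := by
        have h1 : (M + c - 1) / c ≤ (c * M) / c := by
          exact Nat.div_le_div_right (dclo_arith hc hM0)
        rwa [Nat.mul_div_cancel_left _ (by omega : 0 < c)] at h1
      obtain ⟨Y', hY', hcard⟩ := Finset.exists_subset_card_eq (s := Y) (n := (M + c - 1) / c) (by omega)
      refine ⟨Y', hY'.trans hYX, by rw [hcard]; exact ha1, fun μ hμ => ?_⟩
      refine lv_indep D hc hk (hM.trans hNq) (fun (v : H n → ℤ) (l : ℕ) => -((ps n K v l : 𝓞 K) : K) * (a : K)⁻¹)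
        (fun v l => ?_) Y' (fun v hv w hw hl => ?_) (by rw [hcard]; exact ha2) μ (fun j hj => ?_)
      · have h1 := hge0 (-ps n K v l)
        have h2 : ((-ps n K v l : 𝓞 K) : K) = -((ps n K v l : 𝓞 K) : K) := map_neg (algebraMap (𝓞 K) K) _
        rw [h2] at h1
        have h3 := D.ge_mul h1 hai
        rwa [add_zero] at h3
      · refine hinj v (hY' hv) w (hY' hw) fun l hl1 hl2 => ?_
        have h1 := hl l hl1 hl2
        have h2 : -((ps n K v l : 𝓞 K) : K) * (a : K)⁻¹ - -((ps n K w l : 𝓞 K) : K) * (a : K)⁻¹ =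
            ((ps n K w l - ps n K v l : 𝓞 K) : K) * (a : K)⁻¹ := by
          have h3 : ((ps n K w l - ps n K v l : 𝓞 K) : K) = ((ps n K w l : 𝓞 K) : K) - ((ps n K v l : 𝓞 K) : K) :=
            map_sub (algebraMap (𝓞 K) K) _ _
          rw [h3]
          ring
        rw [h2] at h1
        have h1 := D.ge_mul h1 haO
        rw [add_zero, mul_assoc, inv_mul_cancel₀ ha0, mul_one, hge1] at h1
        have h4 := p.neg_mem h1
        rwa [neg_sub] at h4
      · have h1 := hμ j hj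
        rw [← h1]
        refine Finset.sum_congr rfl fun v _ => ?_
        congr 1
        unfold Pj
        refine congrFun (congrArg ex (funext fun i => ?_)) j
        rw [hDπ, Nat.cast_mul]
        field_simp
  have key := Hf K (H n → ℤ) X (fun v => Pj n K (q * a) v) N (fun v _ => Pj_zero v) hFd hFM
  -- the span
  set S : Set (H n → ℤ) := {s | ∃ w : Fin h → (H n → ℤ), (∀ j, w j ∈ X) ∧ s = ∑ j, w j} with hS
  have hspan : Submodule.span K ((fun s (j : Fin N) => Pj n K (q * a) s (j : ℕ)) '' S) = ⊤ := by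
    by_contra hne
    obtain ⟨f, hf0, hf⟩ := Submodule.exists_le_ker_of_lt_top _ (lt_top_iff_ne_top.2 hne)
    have hfx : ∀ y : Fin N → K, f y = ∑ j, y j * f (Pi.single j 1) := by
      intro y
      conv_lhs => rw [← Finset.univ_sum_single y]
      rw [map_sum]
      refine Finset.sum_congr rfl fun j _ => ?_
      have h1 : (Pi.single j (y j) : Fin N → K) = y j • Pi.single j 1 := by
        rw [← Pi.single_smul, smul_eq_mul, mul_one]
      rw [h1, map_smul, smul_eq_mul]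
    have h2 := key (fun j => if hj : j < N then f (Pi.single ⟨j, hj⟩ 1) else 0) (fun u hu => by
      rw [dclo_mk_sum]
      have h3 : f (fun j : Fin N => Pj n K (q * a) (∑ i, u i) (j : ℕ)) = 0 := by
        have h4 : (fun j : Fin N => Pj n K (q * a) (∑ i, u i) (j : ℕ)) ∈
            Submodule.span K ((fun s (j : Fin N) => Pj n K (q * a) s (j : ℕ)) '' S) :=
          Submodule.subset_span ⟨∑ i, u i, ⟨u, hu, rfl⟩, rfl⟩
        exact LinearMap.mem_ker.1 (hf h4)
      rw [hfx] at h3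
      rw [Finset.sum_range, ← h3]
      refine Finset.sum_congr rfl fun j _ => ?_
      rw [dif_pos j.2, PowerSeries.coeff_mk, mul_comm])
    apply hf0
    ext j
    have h3 := h2 j j.2
    simp only [j.2, dif_pos] at h3
    simpa using h3
  obtain ⟨u, huS, hdet⟩ := dclo_minor N S _ hspan
  refine ⟨u, huS, fun h0 => ?_⟩
  have h5 : (Matrix.of fun i j : Fin N => ((Qj n K (q * a) (u i) (j : ℕ) : 𝓞 K) : K)).det ≠ 0 := by
    refine dclo_scale (fun i j : Fin N => Pj n K (q * a) (u i) (j : ℕ)) _ (fun j : Fin N => ((q * a : ℕ) : K) ^ (j : ℕ) *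
      ((j : ℕ).factorial : K)) (fun j => ?_) (fun i j => ?_) hdet
    · exact mul_ne_zero (pow_ne_zero _ hq0) (Nat.cast_ne_zero.2 (Nat.factorial_ne_zero _))
    · exact coe_Qj hM0 _ _
  apply h5
  have h6 := congrArg (algebraMap (𝓞 K) K) h0
  rw [map_zero, RingHom.map_det] at h6
  exact h6

end Pool.Agent.NLS.DC
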