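import Mathlib

/-!
# NLS-LvCov: covering a finite group by few runs of powers of an element

For an element `g` of a finite group `G` and `1 ≤ t ≤ orderOf g` there is a set `A` of at most `2 |G| / t` elements such that every
element of `G` is `a g^i` with `a ∈ A` and `i < t`; and the order of `2` modulo a prime `n > 2^t` is at least `t`.
-/

open Finset

namespace Pool.Agent.NLS

/-- the run of `t` powers of `g` starting at `a` -/
private def lvCovRun {G : Type} [Group G] [DecidableEq G] (g : G) (t : ℕ) (a : G) : Finset G :=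
  (Finset.range t).image (fun i => a * g ^ i)

private theorem lvCov_card {G : Type} [Group G] [DecidableEq G] (g : G) {t : ℕ} (hg : t ≤ orderOf g) (a : G) :
    (lvCovRun g t a).card = t := by
  unfold lvCovRun
  rw [Finset.card_image_of_injOn, Finset.card_range]
  intro i hi j hj hij
  have h1 : g ^ i = g ^ j := mul_left_cancel hij
  have hi' : i < t := by simpa using hi
  have hj' : j < t := by simpa using hj
  exact pow_injOn_Iio_orderOf (Set.mem_Iio.mpr (lt_of_lt_of_le hi' hg)) (Set.mem_Iio.mpr (lt_of_lt_of_le hj' hg)) h1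

private theorem lvCov_fam {G : Type} [Group G] [Fintype G] [DecidableEq G] (g : G) {t : ℕ} (ht : 1 ≤ t) (hg : t ≤ orderOf g) :
    ∃ A : Finset G, t * A.card ≤ Fintype.card G ∧ ∀ x : G, ∃ a ∈ A, ∃ i < t, ∃ j < t, x * g ^ i = a * g ^ j := by
  classical
  let S : Finset (Finset G) := Finset.univ.filter (fun A : Finset G => ∀ x ∈ A, ∀ y ∈ A, x ≠ y →
    Disjoint (lvCovRun g t x) (lvCovRun g t y))
  have hne : S.Nonempty := ⟨∅, by simp [S]⟩
  obtain ⟨A, hA, hmax⟩ := Finset.exists_max_image S Finset.card hne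
  have hA' : ∀ x ∈ A, ∀ y ∈ A, x ≠ y → Disjoint (lvCovRun g t x) (lvCovRun g t y) := by
    have := (Finset.mem_filter.mp hA).2
    exact this
  refine ⟨A, ?_, ?_⟩
  · have h1 : (A.biUnion (lvCovRun g t)).card = ∑ u ∈ A, (lvCovRun g t u).card := Finset.card_biUnion hA'
    have h2 : ∑ u ∈ A, (lvCovRun g t u).card = A.card * t := by
      rw [Finset.sum_congr rfl (fun u _ => lvCov_card g hg u)]
      simp
    have h3 : (A.biUnion (lvCovRun g t)).card ≤ Fintype.card G := Finset.card_le_univ _
    rw [h1, h2] at h3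
    rw [mul_comm]
    exact h3
  · intro x
    by_contra hcon
    push Not at hcon
    have hx : x ∉ A := by
      intro hxA
      exact hcon x hxA 0 (by omega) 0 (by omega) rfl
    have hdis : ∀ a ∈ A, Disjoint (lvCovRun g t x) (lvCovRun g t a) := by
      intro a ha
      rw [Finset.disjoint_left]
      intro z hz1 hz2
      unfold lvCovRun at hz1 hz2
      obtain ⟨i, hi, hzi⟩ := Finset.mem_image.mp hz1
      obtain ⟨j, hj, hzj⟩ := Finset.mem_image.mp hz2
      exact hcon a ha i (Finset.mem_range.mp hi) j (Finset.mem_range.mp hj) (hzi.trans hzj.symm)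
    have hmem : insert x A ∈ S := by
      refine Finset.mem_filter.mpr ⟨Finset.mem_univ _, ?_⟩
      intro u hu v hv huv
      rcases Finset.mem_insert.mp hu with rfl | hu'
      · rcases Finset.mem_insert.mp hv with rfl | hv'
        · exact absurd rfl huv
        · exact hdis v hv'
      · rcases Finset.mem_insert.mp hv with rfl | hv'
        · exact (hdis u hu').symm
        · exact hA' u hu' v hv' huv
    have hle := hmax _ hmem
    rw [Finset.card_insert_of_notMem hx] at hle
    omega

theorem lv_cover {G : Type} [Group G] [Fintype G] [DecidableEq G] (g : G) {t : ℕ} (ht : 1 ≤ t) (hg : t ≤ orderOf g) :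
    ∃ A : Finset G, t * A.card ≤ 2 * Fintype.card G ∧ ∀ x : G, ∃ a ∈ A, ∃ i < t, x = a * g ^ i := by
  obtain ⟨A, hA, hcov⟩ := lvCov_fam g ht hg
  refine ⟨A ∪ A.image (fun a => a * (g ^ (t - 1))⁻¹), ?_, ?_⟩
  · have h1 : (A ∪ A.image (fun a => a * (g ^ (t - 1))⁻¹)).card ≤ A.card + A.card :=
      le_trans (Finset.card_union_le _ _) (Nat.add_le_add_left Finset.card_image_le _)
    calc t * (A ∪ A.image (fun a => a * (g ^ (t - 1))⁻¹)).card ≤ t * (A.card + A.card) := Nat.mul_le_mul_left _ h1
      _ = 2 * (t * A.card) := by ring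
      _ ≤ 2 * Fintype.card G := Nat.mul_le_mul_left _ hA
  · intro x
    obtain ⟨a, ha, i, hi, j, hj, h⟩ := hcov x
    rcases le_or_gt i j with hij | hij
    · refine ⟨a, Finset.mem_union_left _ ha, j - i, by omega, ?_⟩
      have h1 : g ^ j = g ^ (j - i) * g ^ i := by rw [← pow_add]; congr 1; omega
      rw [h1, ← mul_assoc] at h
      exact mul_right_cancel h
    · refine ⟨a * (g ^ (t - 1))⁻¹, Finset.mem_union_right _ (Finset.mem_image_of_mem _ ha), t - 1 - (i - j), by omega, ?_⟩
      have h1 : g ^ i = g ^ (i - j) * g ^ j := by rw [← pow_add]; congr 1; omega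
      rw [h1, ← mul_assoc] at h
      have h2 : x * g ^ (i - j) = a := mul_right_cancel h
      have h3 : g ^ (t - 1) = g ^ (t - 1 - (i - j)) * g ^ (i - j) := by rw [← pow_add]; congr 1; omega
      rw [h3, ← h2]
      group

/-- the order of `2` modulo `n` is large -/
theorem lv_two {n t : ℕ} [Fact n.Prime] (ht : 1 ≤ t) (hn : 2 ^ t < n) : ∃ g : (ZMod n)ˣ, (g : ZMod n) = 2 ∧ t ≤ orderOf g := by
  have hp : n.Prime := Fact.out
  have h2n : 2 < n := lt_of_le_of_lt (by simpa using Nat.pow_le_pow_right (by norm_num : 0 < 2) ht) hn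
  have hcop : Nat.Coprime 2 n := (Nat.coprime_primes Nat.prime_two hp).mpr (by omega)
  refine ⟨ZMod.unitOfCoprime 2 hcop, by simp, ?_⟩
  by_contra hcon
  push Not at hcon
  set g := ZMod.unitOfCoprime 2 hcop with hgdef
  have hd : 0 < orderOf g := orderOf_pos g
  have h1 : g ^ orderOf g = 1 := pow_orderOf_eq_one g
  have h2 : ((g ^ orderOf g : (ZMod n)ˣ) : ZMod n) = 1 := by rw [h1]; simp
  have h3 : ((2 ^ orderOf g : ℕ) : ZMod n) = ((1 : ℕ) : ZMod n) := by
    have : ((g : (ZMod n)ˣ) : ZMod n) = ((2 : ℕ) : ZMod n) := ZMod.coe_unitOfCoprime 2 hcop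
    rw [Units.val_pow_eq_pow_val, this] at h2
    push_cast at h2 ⊢
    exact h2
  rw [ZMod.natCast_eq_natCast_iff] at h3
  have h4 : 2 ^ orderOf g < n := lt_trans (Nat.pow_lt_pow_right (by norm_num) hcon) hn
  have h5 : 2 ^ orderOf g = 1 := Nat.ModEq.eq_of_lt_of_lt h3 h4 (by omega)
  have h6 : 2 ≤ 2 ^ orderOf g := by
    calc 2 = 2 ^ 1 := by norm_num
      _ ≤ 2 ^ orderOf g := Nat.pow_le_pow_right (by norm_num) hd
  omega

end Pool.Agent.NLS
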