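import Pool.Agent.NLS.Pj
import Pool.Agent.NLS.Prs2

/-!
# NLS-LvGal: the primes over `q` and the Galois action on the power sums

`p0` is a prime over `q`, `σ_a` the automorphism `ζ ↦ ζ^a`, `P a` the inverse image of `p0` under `σ_a`. `σ_a (ps s l) = σ_b (ps s l')` if
`l a = l' b` modulo `n`. The Galois group is transitive on the primes over `q`, and `(q)` is their intersection since `q` is unramified.
-/

set_option linter.unusedVariables false

open NumberField Finset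
open Pool.Agent.AAP Pool.Agent.Helper7.HU
open scoped Pointwise MulAction Ideal

namespace Pool.Agent.NLS

private theorem lvg_zO (n : ℕ) [Fact n.Prime] (K : Type) [Field K] [NumberField K]
    [IsCyclotomicExtension {n} ℚ K] (a : (ZMod n)ˣ) :
    ((gq n K).symm a : Gal(K/ℚ)) • zO n K = zO n K ^ (a : ZMod n).val := by
  have h1 : (gq n K).symm a (zt n K) = zt n K ^ (a : ZMod n).val := by
    rw [gq_spec, MulEquiv.apply_symm_apply]
  apply RingOfIntegers.coe_injective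
  rw [map_pow]
  exact h1

private theorem lvg_zp (n : ℕ) [Fact n.Prime] (K : Type) [Field K] [NumberField K]
    [IsCyclotomicExtension {n} ℚ K] (a b e : (ZMod n)ˣ) (l l' : ℕ)
    (h : (l : ZMod n) * a = (l' : ZMod n) * b) :
    ((gq n K).symm a : Gal(K/ℚ)) • (zp n K e ^ l) =
      ((gq n K).symm b : Gal(K/ℚ)) • (zp n K e ^ l') := by
  unfold zp
  rw [smul_pow', smul_pow', smul_pow', smul_pow', lvg_zO, lvg_zO, ← pow_mul, ← pow_mul, ← pow_mul,
    ← pow_mul, pow_eq_pow_mod _ (zO_spec n K).pow_eq_one,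
    pow_eq_pow_mod ((b : ZMod n).val * ((e : ZMod n).val * l')) (zO_spec n K).pow_eq_one]
  congr 1
  rw [← ZMod.natCast_eq_natCast_iff']
  push_cast
  rw [ZMod.natCast_zmod_val, ZMod.natCast_zmod_val, ZMod.natCast_zmod_val]
  linear_combination (e : ZMod n) * h

private theorem lvg_ps (n : ℕ) [Fact n.Prime] (K : Type) [Field K] [NumberField K]
    [IsCyclotomicExtension {n} ℚ K] (a b : (ZMod n)ˣ) (s : H n → ℤ) (l l' : ℕ)
    (h : (l : ZMod n) * a = (l' : ZMod n) * b) :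
    ((gq n K).symm a : Gal(K/ℚ)) • ps n K s l = ((gq n K).symm b : Gal(K/ℚ)) • ps n K s l' := by
  unfold ps
  rw [Finset.smul_sum, Finset.smul_sum]
  refine Finset.sum_congr rfl fun e _ => ?_
  have h1 : ∀ σ : Gal(K/ℚ), σ • ((s e : ℤ) : 𝓞 K) = ((s e : ℤ) : 𝓞 K) := fun σ =>
    map_intCast (MulSemiringAction.toRingHom Gal(K/ℚ) (𝓞 K) σ) (s e)
  rw [smul_mul', smul_mul', smul_sub, smul_sub, h1, h1, lvg_zp n K a b _ l l' h,
    lvg_zp n K a b _ l l' h]

private theorem lvg_span (n : ℕ) [Fact n.Prime] (K : Type) [Field K] [NumberField K]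
    [IsCyclotomicExtension {n} ℚ K] {q : ℕ} (hq : q.Prime) (hqn : q ≠ n) (z : 𝓞 K)
    (hz : ∀ p ∈ Ideal.primesOver (Ideal.span {(q : ℤ)}) (𝓞 K), z ∈ p) :
    z ∈ Ideal.span {(q : 𝓞 K)} := by
  have hfq : Fact q.Prime := ⟨hq⟩
  have hn : n.Prime := Fact.out
  have hndvd : ¬ q ∣ n := fun h => hqn ((Nat.prime_dvd_prime_iff_eq hq hn).1 h)
  have hq0 : (Ideal.span {(q : ℤ)}) ≠ ⊥ := by
    simpa using hq.ne_zero
  have hmax : (Ideal.span {(q : ℤ)}).IsMaximal :=
    Int.ideal_span_isMaximal_of_prime q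
  have h1 := Ideal.map_algebraMap_eq_finsetProd_pow (R := 𝓞 K) (p := Ideal.span {(q : ℤ)}) hq0
  have h2 : Ideal.map (algebraMap ℤ (𝓞 K)) (Ideal.span {(q : ℤ)}) =
      Ideal.span {(q : 𝓞 K)} := by
    rw [Ideal.map_span, Set.image_singleton]
    simp
  rw [h2] at h1
  have h3 : Ideal.span {(q : 𝓞 K)} ∣ Ideal.span {z} := by
    rw [h1]
    have h4 : ∀ p ∈ Ideal.primesOver (Ideal.span {(q : ℤ)}) (𝓞 K),
        Ideal.ramificationIdx p ℤ = 1 := by
      intro p hp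
      obtain ⟨h5, h6⟩ := hp
      exact IsCyclotomicExtension.Rat.ramificationIdx_eq_of_not_dvd q K p hndvd
    rw [Finset.prod_congr rfl (g := fun p => p) fun p hp => by
      rw [h4 p (by simpa using hp), pow_one]]
    refine Finset.prod_primes_dvd _ ?_ ?_
    · intro p hp
      have h5 : p ∈ Ideal.primesOver (Ideal.span {(q : ℤ)}) (𝓞 K) := by simpa using hp
      obtain ⟨h6, h7⟩ := h5
      refine Ideal.prime_of_isPrime ?_ h6
      exact Ideal.ne_bot_of_liesOver_of_ne_bot hq0 p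
    · intro p hp
      rw [Ideal.dvd_span_singleton]
      apply hz
      simpa using hp
  rw [Ideal.dvd_span_singleton] at h3
  exact h3

theorem exists_pa (n : ℕ) [Fact n.Prime] (hn2 : n ≠ 2) (K : Type) [Field K] [NumberField K] [IsCyclotomicExtension {n} ℚ K]
    {q : ℕ} (hq : q.Prime) (hqn : q ≠ n) : ∃ P : (ZMod n)ˣ → Ideal (𝓞 K), (∀ a, (P a).IsMaximal ∧ (q : 𝓞 K) ∈ P a) ∧
      (∀ (a b : (ZMod n)ˣ) (s : H n → ℤ) (l l' : ℕ), (l : ZMod n) * a = (l' : ZMod n) * b →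
        (ps n K s l ∈ P a ↔ ps n K s l' ∈ P b)) ∧
      ∀ s : H n → ℤ, (∀ a, ps n K s 1 ∈ P a) → ps n K s 1 ∈ Ideal.span {(q : 𝓞 K)} := by
  have hfq : Fact q.Prime := ⟨hq⟩
  have hgal : IsGalois ℚ K := IsCyclotomicExtension.isGalois {n} ℚ K
  have hmax : (Ideal.span {(q : ℤ)}).IsMaximal :=
    Int.ideal_span_isMaximal_of_prime q
  obtain ⟨p0, hp0, hl0⟩ : Nonempty (Ideal.primesOver (Ideal.span {(q : ℤ)}) (𝓞 K)) :=
    inferInstance
  refine ⟨fun a => ((gq n K).symm a)⁻¹ • p0, fun a => ?_, fun a b s l l' h => ?_, fun s h => ?_⟩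
  · have h1 : (((gq n K).symm a)⁻¹ • p0).IsPrime := inferInstance
    have h2 : (((gq n K).symm a)⁻¹ • p0).LiesOver (Ideal.span {(q : ℤ)}) := inferInstance
    refine ⟨Ideal.IsMaximal.of_liesOver_isMaximal _ (Ideal.span {(q : ℤ)}), ?_⟩
    have h3 : (q : ℤ) ∈ (((gq n K).symm a)⁻¹ • p0).under ℤ := by
      rw [← h2.over]
      exact Ideal.mem_span_singleton_self _
    have h4 := Ideal.mem_comap.1 h3
    simpa using h4
  · show ps n K s l ∈ ((gq n K).symm a)⁻¹ • p0 ↔ ps n K s l' ∈ ((gq n K).symm b)⁻¹ • p0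
    rw [Ideal.mem_inv_pointwise_smul_iff, Ideal.mem_inv_pointwise_smul_iff, lvg_ps n K a b s l l' h]
  · apply lvg_span n K hq hqn
    rintro p ⟨hp, hl⟩
    obtain ⟨σ, rfl⟩ := Ideal.exists_smul_eq_of_isGaloisGroup (Ideal.span {(q : ℤ)}) p0 p Gal(K/ℚ)
    have h1 : ps n K s 1 ∈ ((gq n K).symm ((gq n K) σ⁻¹))⁻¹ • p0 := h ((gq n K) σ⁻¹)
    rw [MulEquiv.symm_apply_apply, inv_inv] at h1
    exact h1

end Pool.Agent.NLS
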