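import Pool.Agent.NLS.Pj

/-!
# NLS-Theta: `s ↦ ps s 1` is injective modulo `q`

`ps s 1 - ps t 1 = ∑ c_k ζ^(k+1)` over `k < n - 1`, where the `c_k` are the numbers `± (s_e - t_e)`; the powers `1, …, ζ^(n-2)` are an integral
basis, so all `c_k` are divisible by `q`; they are smaller than `q` in absolute value.
-/

open NumberField Finset
open Pool.Agent.AAP Pool.Agent.Helper7.HU

namespace Pool.Agent.NLS

variable {n : ℕ} [Fact n.Prime] {K : Type} [Field K] [NumberField K] [IsCyclotomicExtension {n} ℚ K]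
  {q : ℕ}

variable (n K) in
private theorem theta_dim : (zt_spec n K).integralPowerBasis.dim = n - 1 := by
  rw [IsPrimitiveRoot.integralPowerBasis_dim, Nat.totient_prime Fact.out]

private theorem theta_span (w : 𝓞 K) : ∃ m : ℕ → ℤ, w = ∑ k ∈ range (n - 1), (m k : 𝓞 K) * zO n K ^ k := by
  classical
  obtain ⟨f, hf⟩ : ∃ f : Fin (zt_spec n K).integralPowerBasis.dim → ℤ, w = ∑ i, f i • (zt_spec n K).integralPowerBasis.basis i :=
    ⟨(zt_spec n K).integralPowerBasis.basis.repr w, ((zt_spec n K).integralPowerBasis.basis.sum_repr w).symm⟩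
  refine ⟨fun k => if h : k < (zt_spec n K).integralPowerBasis.dim then f ⟨k, h⟩ else 0, ?_⟩
  rw [hf, ← theta_dim n K, Finset.sum_range]
  refine Finset.sum_congr rfl fun i _ => ?_
  have h1 : (if h : (i : ℕ) < (zt_spec n K).integralPowerBasis.dim then f ⟨i, h⟩ else 0) = f i := dif_pos i.2
  show _ = (((if h : (i : ℕ) < (zt_spec n K).integralPowerBasis.dim then f ⟨i, h⟩ else 0) : ℤ) : 𝓞 K) * _
  rw [h1, PowerBasis.coe_basis, IsPrimitiveRoot.integralPowerBasis_gen, zsmul_eq_mul]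
  rfl

private theorem theta_indep {c : ℕ → ℤ} (h : ∑ k ∈ range (n - 1), (c k : 𝓞 K) * zO n K ^ k = 0) {k : ℕ} (hk : k < n - 1) : c k = 0 := by
  rw [← theta_dim n K, Finset.sum_range] at h
  have h1 := Fintype.linearIndependent_iff.1 (zt_spec n K).integralPowerBasis.basis.linearIndependent (fun i => c i) (by
    rw [← h]
    refine Finset.sum_congr rfl fun i _ => ?_
    rw [PowerBasis.coe_basis, IsPrimitiveRoot.integralPowerBasis_gen, zsmul_eq_mul]
    rfl)
  exact h1 ⟨k, by rw [theta_dim n K]; exact hk⟩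

/-- the unit `k + 1` -/
private noncomputable def theta_u (n : ℕ) (k : ℕ) : (ZMod n)ˣ := if h : (k + 1).Coprime n then ZMod.unitOfCoprime (k + 1) h else 1

private theorem theta_val {k : ℕ} (hk : k < n - 1) : ((theta_u n k : (ZMod n)ˣ) : ZMod n).val = k + 1 := by
  have hn : n.Prime := Fact.out
  have h1 : (k + 1).Coprime n := by
    rw [Nat.coprime_comm]
    exact (Nat.Prime.coprime_iff_not_dvd hn).2 (Nat.not_dvd_of_pos_of_lt (by omega) (by omega))
  rw [theta_u, dif_pos h1, ZMod.coe_unitOfCoprime, ZMod.val_natCast_of_lt (by omega)]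

private theorem theta_pos (a : (ZMod n)ˣ) : 0 < (a : ZMod n).val := by
  rcases Nat.eq_zero_or_pos (a : ZMod n).val with h | h
  · exact absurd ((ZMod.val_eq_zero _).1 h) a.ne_zero
  · exact h

private theorem theta_eq (a : (ZMod n)ˣ) : (a : ZMod n).val - 1 < n - 1 ∧ theta_u n ((a : ZMod n).val - 1) = a := by
  have h0 := theta_pos a
  have h1 := ZMod.val_lt (a : ZMod n)
  have h2 : (a : ZMod n).val - 1 < n - 1 := by omega
  refine ⟨h2, Units.ext (ZMod.val_injective n ?_)⟩
  rw [theta_val h2]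
  omega

omit [NumberField K] [IsCyclotomicExtension {n} ℚ K] in
private theorem theta_sum (f : (ZMod n)ˣ → 𝓞 K) : ∑ a, f a = ∑ k ∈ range (n - 1), f (theta_u n k) := by
  refine Finset.sum_bij (fun a _ => (a : ZMod n).val - 1) ?_ ?_ ?_ ?_
  · intro a _
    exact mem_range.2 (theta_eq a).1
  · intro a _ b _ hab
    rw [← (theta_eq a).2, hab, (theta_eq b).2]
  · intro k hk
    refine ⟨theta_u n k, mem_univ _, ?_⟩
    rw [theta_val (mem_range.1 hk)]
    omega
  · intro a _
    rw [(theta_eq a).2]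

omit [NumberField K] [IsCyclotomicExtension {n} ℚ K] in
private theorem theta_half (hn2 : n ≠ 2) (f : (ZMod n)ˣ → 𝓞 K) : ∑ a, f a = ∑ e : H n, (f e + f (-(e : (ZMod n)ˣ))) := by
  classical
  have h1 : ∑ a, f a = ∑ a ∈ H n, f a + ∑ a ∈ (H n)ᶜ, f a := (sum_add_sum_compl _ _).symm
  rw [h1, Finset.sum_coe_sort (H n) (fun a => f a + f (-a)), Finset.sum_add_distrib]
  congr 1
  refine sum_bij (fun a _ => -a) ?_ ?_ ?_ ?_
  · intro a ha
    rw [mem_compl] at ha
    exact (neg_mem_H n hn2 a).2 ha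
  · intro a _ b _ hab
    exact neg_injective hab
  · intro b hb
    refine ⟨-b, ?_, neg_neg b⟩
    rw [mem_compl, neg_mem_H n hn2]
    exact not_not.2 hb
  · intro a _
    rw [neg_neg]

/-- the coefficients -/
private noncomputable def theta_c (d : H n → ℤ) (a : (ZMod n)ˣ) : ℤ :=
  if h : a ∈ H n then d ⟨a, h⟩ else if h' : -a ∈ H n then -d ⟨-a, h'⟩ else 0

private theorem theta_ps (hn2 : n ≠ 2) (s t : H n → ℤ) : ps n K s 1 - ps n K t 1 =
    ∑ a : (ZMod n)ˣ, (theta_c (fun e => s e - t e) a : 𝓞 K) * zp n K a := by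
  rw [theta_half hn2]
  unfold ps
  rw [← Finset.sum_sub_distrib]
  refine Finset.sum_congr rfl fun e _ => ?_
  have h1 : theta_c (fun e => s e - t e) (e : (ZMod n)ˣ) = s e - t e := by
    rw [theta_c, dif_pos e.2]
  have h0 : -(e : (ZMod n)ˣ) ∉ H n := by
    rw [neg_mem_H n hn2]
    exact not_not.2 e.2
  have h2 : theta_c (fun e => s e - t e) (-(e : (ZMod n)ˣ)) = -(s e - t e) := by
    rw [theta_c, dif_neg h0, dif_pos (by rw [neg_neg]; exact e.2)]
    have h3 : (⟨- -(e : (ZMod n)ˣ), by rw [neg_neg]; exact e.2⟩ : H n) = e := Subtype.ext (neg_neg _)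
    rw [h3]
  rw [h1, h2, pow_one, pow_one]
  push_cast
  ring

theorem theta_inj (hn2 : n ≠ 2) {s t : H n → ℤ} (h : ∀ e, |s e - t e| < q)
    (hq : ps n K s 1 - ps n K t 1 ∈ Ideal.span {(q : 𝓞 K)}) : s = t := by
  obtain ⟨w', hw'⟩ := Ideal.mem_span_singleton'.1 hq
  have hn : n.Prime := Fact.out
  have hz : zO n K ^ n = 1 := (zO_spec n K).pow_eq_one
  have hz0 : zO n K ≠ 0 := (zO_spec n K).ne_zero hn.ne_zero
  obtain ⟨m, hm⟩ := theta_span (n := n) (zO n K ^ (n - 1) * w')
  have h1 : w' = zO n K * (zO n K ^ (n - 1) * w') := by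
    rw [← mul_assoc, ← pow_succ', Nat.sub_add_cancel hn.one_le, hz, one_mul]
  have h2 : zO n K * ∑ k ∈ range (n - 1), ((theta_c (fun e => s e - t e) (theta_u n k) - q * m k : ℤ) : 𝓞 K) * zO n K ^ k = 0 := by
    rw [theta_ps hn2, theta_sum, h1, hm] at hw'
    rw [Finset.mul_sum]
    have h3 : ∀ k ∈ range (n - 1), zO n K * (((theta_c (fun e => s e - t e) (theta_u n k) - q * m k : ℤ) : 𝓞 K) * zO n K ^ k) =
        (theta_c (fun e => s e - t e) (theta_u n k) : 𝓞 K) * zp n K (theta_u n k) - zO n K * ((m k : 𝓞 K) * zO n K ^ k) * q := by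
      intro k hk
      have h4 : zp n K (theta_u n k) = zO n K ^ (k + 1) := by
        unfold zp
        rw [theta_val (mem_range.1 hk)]
      rw [h4, pow_succ]
      push_cast
      ring
    rw [Finset.sum_congr rfl h3, Finset.sum_sub_distrib, ← Finset.sum_mul, ← Finset.mul_sum, hw', sub_self]
  have h3 := (mul_eq_zero.1 h2).resolve_left hz0
  funext e
  have h4 := theta_indep h3 (theta_eq (e : (ZMod n)ˣ)).1
  rw [(theta_eq (e : (ZMod n)ˣ)).2, theta_c, dif_pos e.2] at h4
  have h5 : s e - t e = q * m (((e : (ZMod n)ˣ) : ZMod n).val - 1) := by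
    have h6 : (⟨(e : (ZMod n)ˣ), e.2⟩ : H n) = e := rfl
    rw [h6] at h4
    linarith
  have h6 : s e - t e = 0 := Int.eq_zero_of_abs_lt_dvd (Dvd.intro _ h5.symm) (h e)
  linarith

end Pool.Agent.NLS
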