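import Mathlib

/-!
# NLS-LaCmp: the inequalities for the determinant bounds

Real inequalities for the parameters of LaNum: the sizes of the arguments (`la_Z`, `la_Y`, `la_X`, `la_Lam`) and the
final comparison of the lower and the upper bound of the determinant (`la_cmp`).
-/

namespace Pool.Agent.NLS

private theorem lacmp_in {κ A g q rho : ℝ} (hκ : 1 ≤ κ) (hA : 0 ≤ A) (hg : 0 ≤ g)
    (hr : rho ≤ q) (hq : 0 ≤ q) :
    rho * (3 * (A * g ^ 13)) + q * (3 * (κ * (A * g ^ 13))) ≤ 6 * q * κ * A * g ^ 13 := by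
  have h1 : 0 ≤ A * g ^ 13 := by positivity
  have h2 : rho * (3 * (A * g ^ 13)) ≤ q * (3 * (A * g ^ 13)) :=
    mul_le_mul_of_nonneg_right hr (by positivity)
  have h3 : 0 ≤ (κ - 1) * (q * (A * g ^ 13)) :=
    mul_nonneg (by linarith) (mul_nonneg hq h1)
  nlinarith

theorem la_Z {κ A g q rho : ℕ} (hg : 1000 ≤ g) (hκ : 1 ≤ κ) (hA : 1 ≤ A) (hr : rho ≤ q) :
    Real.exp 1 * ((rho : ℝ) * ((3 * (A * g ^ 13) : ℕ) : ℝ) + q * ((3 * (κ * (A * g ^ 13)) : ℕ) : ℝ)) ≤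
      (q : ℝ) * ((κ * (A ^ 2 * g ^ 15) : ℕ) : ℝ) := by
  push_cast
  have hg' : (1000 : ℝ) ≤ g := by exact_mod_cast hg
  have hκ' : (1 : ℝ) ≤ κ := by exact_mod_cast hκ
  have hA' : (1 : ℝ) ≤ A := by exact_mod_cast hA
  have hr' : (rho : ℝ) ≤ q := by exact_mod_cast hr
  have hq' : (0 : ℝ) ≤ q := Nat.cast_nonneg q
  have h1 := lacmp_in hκ' (by linarith : (0 : ℝ) ≤ A) (by linarith : (0 : ℝ) ≤ g) hr' hq'
  have he : Real.exp 1 ≤ 3 := Real.exp_one_lt_three.le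
  have h2 : (0 : ℝ) ≤ (q : ℝ) * κ * A * g ^ 13 := by positivity
  have h3 : (18 : ℝ) ≤ A * g ^ 2 := by nlinarith
  have h4 : (0 : ℝ) ≤ (rho : ℝ) * (3 * (A * g ^ 13)) + q * (3 * (κ * (A * g ^ 13))) := by
    positivity
  calc Real.exp 1 * ((rho : ℝ) * (3 * (A * g ^ 13)) + q * (3 * (κ * (A * g ^ 13))))
      ≤ 3 * (6 * q * κ * A * g ^ 13) := mul_le_mul he h1 h4 (by norm_num)
    _ = ((q : ℝ) * κ * A * g ^ 13) * 18 := by ring
    _ ≤ ((q : ℝ) * κ * A * g ^ 13) * (A * g ^ 2) := mul_le_mul_of_nonneg_left h3 h2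
    _ = _ := by ring

theorem la_Y {κ A g q : ℕ} (hg : 1000 ≤ g) (hκ : 1 ≤ κ) (hA : 1 ≤ A) (hq : 1 ≤ q) :
    ((3 * (A * g ^ 13) : ℕ) : ℝ) + q * ((3 * (κ * (A * g ^ 13)) : ℕ) : ℝ) ≤
      (6 * (q : ℝ) / (g : ℝ) ^ 4) * ((κ * (A * g ^ 17) : ℕ) : ℝ) := by
  push_cast
  have hg' : (1000 : ℝ) ≤ g := by exact_mod_cast hg
  have hκ' : (1 : ℝ) ≤ κ := by exact_mod_cast hκ
  have hA' : (1 : ℝ) ≤ A := by exact_mod_cast hA
  have hq' : (1 : ℝ) ≤ q := by exact_mod_cast hq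
  have h1 := lacmp_in hκ' (by linarith : (0 : ℝ) ≤ A) (by linarith : (0 : ℝ) ≤ g) hq'
    (by linarith : (0 : ℝ) ≤ q)
  have h2 : (6 * (q : ℝ) / (g : ℝ) ^ 4) * ((κ : ℝ) * (A * g ^ 17)) =
      6 * q * κ * A * g ^ 13 := by
    have h3 : (g : ℝ) ≠ 0 := by linarith
    field_simp
  rw [h2]
  linarith

theorem la_X {κ A g q rho x G : ℕ} (hg : 1000 ≤ g) (hκ : 1 ≤ κ) (hA : 1 ≤ A) (hq : 1 ≤ q) (hr : rho ≤ q) (hx : 2 ≤ x)
    (hA1 : Real.log x ≤ A) (hG : 2 * (G : ℝ) ≤ Real.log x) {η : ℝ} (hη0 : 0 ≤ η) (hη : η ≤ 2 / x) :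
    ((g ^ 3 : ℕ) : ℝ) * (|Real.log x| / q * (Real.exp 1 * ((rho : ℝ) * ((3 * (A * g ^ 13) : ℕ) : ℝ) +
        q * ((3 * (κ * (A * g ^ 13)) : ℕ) : ℝ))) +
      |η| / q * (((3 * (A * g ^ 13) : ℕ) : ℝ) + q * ((3 * (κ * (A * g ^ 13)) : ℕ) : ℝ)) * Real.exp G) ≤
      29 * κ * A ^ 2 * g ^ 16 := by
  push_cast
  have hg' : (1000 : ℝ) ≤ g := by exact_mod_cast hg
  have hκ' : (1 : ℝ) ≤ κ := by exact_mod_cast hκ
  have hA' : (1 : ℝ) ≤ A := by exact_mod_cast hA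
  have hq' : (1 : ℝ) ≤ q := by exact_mod_cast hq
  have hr' : (rho : ℝ) ≤ q := by exact_mod_cast hr
  have hx' : (2 : ℝ) ≤ x := by exact_mod_cast hx
  have hL0 : 0 ≤ Real.log x := Real.log_nonneg (by linarith)
  have h1 := lacmp_in hκ' (by linarith : (0 : ℝ) ≤ A) (by linarith : (0 : ℝ) ≤ g) hr'
    (by linarith : (0 : ℝ) ≤ q)
  have h2 := lacmp_in hκ' (by linarith : (0 : ℝ) ≤ A) (by linarith : (0 : ℝ) ≤ g) hq'
    (by linarith : (0 : ℝ) ≤ q)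
  have he : Real.exp 1 ≤ 17 / 6 := by
    have h3 := Real.exp_one_lt_d9
    linarith
  rw [abs_of_nonneg hL0, abs_of_nonneg hη0]
  have hB : (0 : ℝ) ≤ 6 * q * κ * A * g ^ 13 := by positivity
  have h4 : (0 : ℝ) ≤ (rho : ℝ) * (3 * (A * g ^ 13)) + q * (3 * (κ * (A * g ^ 13))) := by
    positivity
  have h5 : Real.exp 1 * ((rho : ℝ) * (3 * (A * g ^ 13)) + q * (3 * (κ * (A * g ^ 13)))) ≤
      17 / 6 * (6 * q * κ * A * g ^ 13) := mul_le_mul he h1 h4 (by norm_num)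
  have h6 : Real.log x / q * (Real.exp 1 * ((rho : ℝ) * (3 * (A * g ^ 13)) +
      q * (3 * (κ * (A * g ^ 13))))) ≤ A / q * (17 / 6 * (6 * q * κ * A * g ^ 13)) := by
    apply mul_le_mul _ h5 (mul_nonneg (Real.exp_pos 1).le h4) (by positivity)
    exact div_le_div_of_nonneg_right hA1 (by linarith)
  have h7 : (A : ℝ) / q * (17 / 6 * (6 * q * κ * A * g ^ 13)) = 17 * κ * A ^ 2 * g ^ 13 := by
    have h8 : (q : ℝ) ≠ 0 := by linarith
    field_simp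
  have h9 : Real.exp G ≤ x := by
    have h10 : Real.exp (Real.log x) = x := Real.exp_log (by linarith)
    rw [← h10]
    apply Real.exp_le_exp.2
    have h11 : (0 : ℝ) ≤ G := Nat.cast_nonneg G
    linarith
  have h12 : η * Real.exp G ≤ 2 := by
    calc η * Real.exp G ≤ (2 / x) * x :=
          mul_le_mul hη h9 (Real.exp_pos _).le (by positivity)
      _ = 2 := by
          have h13 : (x : ℝ) ≠ 0 := by linarith
          field_simp
  have h14 : (3 * ((A : ℝ) * g ^ 13)) + q * (3 * (κ * (A * g ^ 13))) ≤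
      6 * q * κ * A * g ^ 13 := by linarith
  have h15 : η / q * ((3 * ((A : ℝ) * g ^ 13)) + q * (3 * (κ * (A * g ^ 13)))) * Real.exp G ≤
      12 * κ * A * g ^ 13 := by
    have h16 : η / q * ((3 * ((A : ℝ) * g ^ 13)) + q * (3 * (κ * (A * g ^ 13)))) * Real.exp G =
        (η * Real.exp G) * (((3 * ((A : ℝ) * g ^ 13)) + q * (3 * (κ * (A * g ^ 13)))) / q) := by
      ring
    have h17 : ((3 * ((A : ℝ) * g ^ 13)) + q * (3 * (κ * (A * g ^ 13)))) / q ≤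
        6 * κ * A * g ^ 13 := by
      rw [div_le_iff₀ (by linarith)]
      have h20 : 6 * (κ : ℝ) * A * g ^ 13 * q = 6 * q * κ * A * g ^ 13 := by ring
      rw [h20]
      exact h14
    rw [h16]
    calc _ ≤ 2 * (6 * (κ : ℝ) * A * g ^ 13) :=
          mul_le_mul h12 h17 (by positivity) (by norm_num)
      _ = _ := by ring
  have h18 : (0 : ℝ) ≤ (κ : ℝ) * A * g ^ 13 := by positivity
  have h19 : (12 : ℝ) * κ * A * g ^ 13 ≤ 12 * κ * A ^ 2 * g ^ 13 := by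
    nlinarith
  calc (g : ℝ) ^ 3 * (Real.log x / q * (Real.exp 1 * ((rho : ℝ) * (3 * (A * g ^ 13)) +
          q * (3 * (κ * (A * g ^ 13))))) +
        η / q * ((3 * ((A : ℝ) * g ^ 13)) + q * (3 * (κ * (A * g ^ 13)))) * Real.exp G)
      ≤ (g : ℝ) ^ 3 * (17 * κ * A ^ 2 * g ^ 13 + 12 * κ * A ^ 2 * g ^ 13) := by
        apply mul_le_mul_of_nonneg_left _ (by positivity)
        linarith
    _ = _ := by ring

theorem la_Lam {κ A g n x : ℕ} (hg : 1000 ≤ g) (hκ : 1 ≤ κ) (hA : 1 ≤ A) (hx : 2 ≤ x) (hA2 : (A : ℝ) ≤ 2 * Real.log x)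
    (hbig : 4 * κ * A * g ^ 60 ≤ n) {τ : ℝ} (h0 : 0 ≤ τ) (hτ : τ ≤ 2 / (x : ℝ) ^ n) :
    ((g ^ 3 : ℕ) : ℝ) * ((3 * (A * g ^ 13) : ℕ) : ℝ) * |τ| * Real.exp ((κ * (A ^ 2 * g ^ 17) : ℕ) : ℝ) ≤ 1 := by
  push_cast
  have hg' : (1000 : ℝ) ≤ g := by exact_mod_cast hg
  have hκ' : (1 : ℝ) ≤ κ := by exact_mod_cast hκ
  have hA' : (1 : ℝ) ≤ A := by exact_mod_cast hA
  have hx' : (2 : ℝ) ≤ x := by exact_mod_cast hx
  have hn' : 4 * (κ : ℝ) * A * g ^ 60 ≤ n := by exact_mod_cast hbig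
  rw [abs_of_nonneg h0]
  have h1 : 2 * (κ : ℝ) * A ^ 2 * g ^ 60 ≤ n * Real.log x := by
    calc 2 * (κ : ℝ) * A ^ 2 * g ^ 60 = (4 * (κ : ℝ) * A * g ^ 60) * (A / 2) := by ring
      _ ≤ n * Real.log x := mul_le_mul hn' (by linarith) (by linarith) (Nat.cast_nonneg n)
  have h2 : Real.exp (2 * (κ : ℝ) * A ^ 2 * g ^ 60) ≤ (x : ℝ) ^ n := by
    have h3 : (x : ℝ) ^ n = Real.exp (n * Real.log x) := by
      rw [Real.exp_nat_mul, Real.exp_log (by linarith)]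
    rw [h3]
    exact Real.exp_le_exp.2 h1
  have h4 : τ ≤ 2 * Real.exp (-(2 * (κ : ℝ) * A ^ 2 * g ^ 60)) := by
    calc τ ≤ 2 / (x : ℝ) ^ n := hτ
      _ ≤ 2 / Real.exp (2 * (κ : ℝ) * A ^ 2 * g ^ 60) :=
          div_le_div_of_nonneg_left (by norm_num) (Real.exp_pos _) h2
      _ = _ := by rw [Real.exp_neg]; ring
  have h5 : 6 * (A : ℝ) * g ^ 16 ≤ Real.exp (6 * (A : ℝ) * g ^ 16) := by
    have h6 := Real.add_one_le_exp (6 * (A : ℝ) * g ^ 16)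
    linarith
  have h7 : 6 * (A : ℝ) * g ^ 16 ≤ κ * A ^ 2 * g ^ 17 := by
    have h8 : (0 : ℝ) ≤ A * g ^ 16 := by positivity
    have h9 : (6 : ℝ) ≤ κ * A * g := by
      have h10 : (1 : ℝ) ≤ κ * A := by nlinarith
      nlinarith
    calc 6 * (A : ℝ) * g ^ 16 = (A * g ^ 16) * 6 := by ring
      _ ≤ ((A : ℝ) * g ^ 16) * (κ * A * g) := mul_le_mul_of_nonneg_left h9 h8
      _ = _ := by ring
  have h11 : 2 * ((κ : ℝ) * A ^ 2 * g ^ 17) ≤ 2 * κ * A ^ 2 * g ^ 60 := by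
    have h12 : (g : ℝ) ^ 17 ≤ g ^ 60 := pow_le_pow_right₀ (by linarith) (by norm_num)
    have h13 : (0 : ℝ) ≤ κ * A ^ 2 := by positivity
    nlinarith
  calc (g : ℝ) ^ 3 * (3 * (A * g ^ 13)) * τ * Real.exp (κ * (A ^ 2 * g ^ 17))
      ≤ (g : ℝ) ^ 3 * (3 * (A * g ^ 13)) * (2 * Real.exp (-(2 * (κ : ℝ) * A ^ 2 * g ^ 60))) *
        Real.exp (κ * (A ^ 2 * g ^ 17)) := by
        apply mul_le_mul_of_nonneg_right _ (Real.exp_pos _).le
        exact mul_le_mul_of_nonneg_left h4 (by positivity)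
    _ = (6 * (A : ℝ) * g ^ 16) * (Real.exp (-(2 * (κ : ℝ) * A ^ 2 * g ^ 60)) *
        Real.exp (κ * (A ^ 2 * g ^ 17))) := by ring
    _ ≤ Real.exp (6 * (A : ℝ) * g ^ 16) * (Real.exp (-(2 * (κ : ℝ) * A ^ 2 * g ^ 60)) *
        Real.exp (κ * (A ^ 2 * g ^ 17))) := by
        apply mul_le_mul_of_nonneg_right h5
        positivity
    _ = Real.exp (6 * (A : ℝ) * g ^ 16 + (-(2 * (κ : ℝ) * A ^ 2 * g ^ 60) +
        κ * (A ^ 2 * g ^ 17))) := by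
        rw [← Real.exp_add, ← Real.exp_add]
    _ ≤ Real.exp 0 := by
        apply Real.exp_le_exp.2
        linarith
    _ = 1 := Real.exp_zero

theorem la_cmp {κ A g q N D K1 K2 : ℕ} (hg : 1000 ≤ g) (hκ : 1 ≤ κ) (hA : 1 ≤ A) (hbq : 4 * A * g ^ 60 ≤ q)
    (hlq : 20 * Real.log (50 * q) ≤ g) (hqA : 13 * Real.log q ≤ A)
    (hK1 : K1 = κ * (A ^ 2 * g ^ 15)) (hK2 : K2 = κ * (A * g ^ 17)) (hD : D = κ * (A ^ 2 * g ^ 17))
    (hN : N = K1 * K2 * g ^ 3) {t H : ℝ} (hH : H ≤ 6 * κ * (A : ℝ) ^ 2 * (g : ℝ) ^ 16)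
    (hlow : Real.exp (-((N : ℝ) * H)) ≤ t)
    (hup : t ≤ (N.factorial : ℝ) * Real.exp (-((N : ℝ) * D / 2)) *
        ((3 * ((q : ℝ) + 1)) ^ K1 * (3 * (6 * (q : ℝ) / (g : ℝ) ^ 4 + 1)) ^ K2 *
          Real.exp (29 * κ * A ^ 2 * g ^ 16 + 1)) ^ N) : False := by
  have hg' : (1000 : ℝ) ≤ g := by exact_mod_cast hg
  have hκ' : (1 : ℝ) ≤ κ := by exact_mod_cast hκ
  have hA' : (1 : ℝ) ≤ A := by exact_mod_cast hA
  have hbq' : 4 * (A : ℝ) * g ^ 60 ≤ q := by exact_mod_cast hbq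
  have hq1 : (1 : ℝ) ≤ q := by
    have h1 : (1 : ℝ) ≤ (g : ℝ) ^ 60 := one_le_pow₀ (by linarith)
    nlinarith
  have hlogq : Real.log q ≤ g / 20 := by
    have h1 : Real.log q ≤ Real.log (50 * q) := Real.log_le_log (by linarith) (by linarith)
    linarith
  set E : ℝ := κ * A ^ 2 * g ^ 16 with hE
  have hDE : (D : ℝ) = g * E := by
    rw [hD, hE]
    push_cast
    ring
  have hκA : (1 : ℝ) ≤ κ * A ^ 2 := by
    have h1 : (1 : ℝ) ≤ (A : ℝ) ^ 2 := one_le_pow₀ hA'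
    nlinarith
  have hgE : (g : ℝ) ≤ E := by
    have h1 : (g : ℝ) ≤ g ^ 16 := by
      calc (g : ℝ) = g ^ 1 := (pow_one _).symm
        _ ≤ g ^ 16 := pow_le_pow_right₀ (by linarith) (by norm_num)
    have h2 : (0 : ℝ) ≤ (g : ℝ) ^ 16 := by positivity
    rw [hE]
    nlinarith
  have hE0 : 0 < E := by linarith
  have hNpos : 0 < N := by
    rw [hN, hK1, hK2]
    have hg0 : 0 < g := by omega
    have hκ0 : 0 < κ := hκ
    have hA0 : 0 < A := hA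
    positivity
  have hNr : (1 : ℝ) ≤ N := by exact_mod_cast hNpos
  -- the size of N
  have hAq : (A : ℝ) ≤ q := by
    have h1 : (1 : ℝ) ≤ (g : ℝ) ^ 60 := one_le_pow₀ (by linarith)
    nlinarith
  have hgq : (g : ℝ) ≤ q := by
    have h1 : (g : ℝ) ≤ g ^ 60 := by
      calc (g : ℝ) = g ^ 1 := (pow_one _).symm
        _ ≤ g ^ 60 := pow_le_pow_right₀ (by linarith) (by norm_num)
    nlinarith
  have hNq : (N : ℝ) ≤ κ ^ 2 * q ^ 38 := by
    have h1 : (N : ℝ) = κ ^ 2 * A ^ 3 * g ^ 35 := by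
      rw [hN, hK1, hK2]
      push_cast
      ring
    rw [h1]
    calc (κ : ℝ) ^ 2 * (A : ℝ) ^ 3 * (g : ℝ) ^ 35
        ≤ (κ : ℝ) ^ 2 * (q : ℝ) ^ 3 * (q : ℝ) ^ 35 := by
          gcongr
      _ = (κ : ℝ) ^ 2 * (q : ℝ) ^ 38 := by ring
  have hκgE : (κ : ℝ) + g ≤ E := by
    have h1 : (2 * g : ℝ) ≤ g ^ 16 := by
      calc (2 * g : ℝ) ≤ g ^ 2 := by nlinarith
        _ ≤ g ^ 16 := pow_le_pow_right₀ (by linarith) (by norm_num)
    have h2 : (κ : ℝ) ≤ κ * A ^ 2 := by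
      have h3 : (1 : ℝ) ≤ (A : ℝ) ^ 2 := one_le_pow₀ hA'
      nlinarith
    have h4 : (κ : ℝ) * A ^ 2 * (2 * g) ≤ E := by
      rw [hE]
      exact mul_le_mul_of_nonneg_left h1 (by positivity)
    have h5 : (κ : ℝ) * g ≤ κ * A ^ 2 * g := mul_le_mul_of_nonneg_right h2 (by linarith)
    have h6 : (κ : ℝ) ≤ κ * g := by nlinarith
    have h7 : (g : ℝ) ≤ κ * g := by nlinarith
    linarith
  have hNexp : (N : ℝ) ≤ Real.exp (2 * E) := by
    have h1 : (q : ℝ) ^ 38 = Real.exp (38 * Real.log q) := by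
      have h2 := Real.exp_nat_mul (Real.log q) 38
      rw [Real.exp_log (by linarith)] at h2
      rw [← h2]
      norm_num
    have h3 : (κ : ℝ) ^ 2 ≤ Real.exp (2 * κ) := by
      have h4 : (κ : ℝ) ≤ Real.exp κ := by
        have h5 := Real.add_one_le_exp (κ : ℝ)
        linarith
      calc (κ : ℝ) ^ 2 ≤ Real.exp κ ^ 2 := pow_le_pow_left₀ (by linarith) h4 2
        _ = Real.exp (2 * κ) := by rw [← Real.exp_nat_mul]; norm_num
    rw [h1] at hNq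
    refine le_trans hNq ?_
    calc (κ : ℝ) ^ 2 * Real.exp (38 * Real.log q)
        ≤ Real.exp (2 * κ) * Real.exp (38 * Real.log q) :=
          mul_le_mul_of_nonneg_right h3 (Real.exp_pos _).le
      _ = Real.exp (2 * κ + 38 * Real.log q) := by rw [Real.exp_add]
      _ ≤ Real.exp (2 * E) := by
          apply Real.exp_le_exp.2
          linarith
  have hfac : (N.factorial : ℝ) ≤ Real.exp (2 * E) ^ N := by
    calc (N.factorial : ℝ) ≤ (N : ℝ) ^ N := by exact_mod_cast Nat.factorial_le_pow N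
      _ ≤ Real.exp (2 * E) ^ N := pow_le_pow_left₀ (by linarith) hNexp N
  have hp1 : (3 * ((q : ℝ) + 1)) ^ K1 ≤ Real.exp (E / 20) := by
    have h1 : (3 * ((q : ℝ) + 1)) ^ K1 ≤ (50 * (q : ℝ)) ^ K1 :=
      pow_le_pow_left₀ (by linarith) (by linarith) K1
    have h2 : (50 * (q : ℝ)) ^ K1 = Real.exp (K1 * Real.log (50 * q)) := by
      rw [Real.exp_nat_mul, Real.exp_log (by linarith)]
    rw [h2] at h1
    refine le_trans h1 (Real.exp_le_exp.2 ?_)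
    have h3 : (K1 : ℝ) * g = E := by
      rw [hK1, hE]
      push_cast
      ring
    have h4 : (0 : ℝ) ≤ K1 := Nat.cast_nonneg K1
    have h5 : (K1 : ℝ) * Real.log (50 * q) ≤ K1 * (g / 20) :=
      mul_le_mul_of_nonneg_left (by linarith) h4
    linarith
  have hp2 : (3 * (6 * (q : ℝ) / (g : ℝ) ^ 4 + 1)) ^ K2 ≤ Real.exp ((D : ℝ) / 13) := by
    have h0 : 3 * (6 * (q : ℝ) / (g : ℝ) ^ 4 + 1) ≤ q := by
      have h1 : (36 : ℝ) ≤ (g : ℝ) ^ 4 := by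
        calc (36 : ℝ) ≤ 1000 ^ 4 := by norm_num
          _ ≤ (g : ℝ) ^ 4 := pow_le_pow_left₀ (by norm_num) hg' 4
      have h2 : 6 * (q : ℝ) / (g : ℝ) ^ 4 ≤ q / 6 := by
        rw [div_le_iff₀ (by linarith)]
        nlinarith
      linarith
    have h1 : (3 * (6 * (q : ℝ) / (g : ℝ) ^ 4 + 1)) ^ K2 ≤ (q : ℝ) ^ K2 :=
      pow_le_pow_left₀ (by positivity) h0 K2
    have h2 : (q : ℝ) ^ K2 = Real.exp (K2 * Real.log q) := by
      rw [Real.exp_nat_mul, Real.exp_log (by linarith)]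
    rw [h2] at h1
    refine le_trans h1 (Real.exp_le_exp.2 ?_)
    have h3 : (K2 : ℝ) * A = D := by
      rw [hK2, hD]
      push_cast
      ring
    have h4 : (0 : ℝ) ≤ K2 := Nat.cast_nonneg K2
    have h5 : (K2 : ℝ) * Real.log q ≤ K2 * (A / 13) :=
      mul_le_mul_of_nonneg_left (by linarith) h4
    linarith
  have hp3 : Real.exp (29 * κ * A ^ 2 * g ^ 16 + 1) ≤ Real.exp (30 * E) := by
    apply Real.exp_le_exp.2
    have h1 : 29 * (κ : ℝ) * A ^ 2 * g ^ 16 = 29 * E := by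
      rw [hE]
      ring
    rw [h1]
    linarith
  have hZ : (3 * ((q : ℝ) + 1)) ^ K1 * (3 * (6 * (q : ℝ) / (g : ℝ) ^ 4 + 1)) ^ K2 *
      Real.exp (29 * κ * A ^ 2 * g ^ 16 + 1) ≤ Real.exp (E / 20 + D / 13 + 30 * E) := by
    rw [Real.exp_add (E / 20 + (D : ℝ) / 13) (30 * E), Real.exp_add (E / 20) ((D : ℝ) / 13)]
    have h1 : (0 : ℝ) ≤ (3 * (6 * (q : ℝ) / (g : ℝ) ^ 4 + 1)) ^ K2 := by positivity
    apply mul_le_mul _ hp3 (Real.exp_pos _).le (by positivity)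
    exact mul_le_mul hp1 hp2 h1 (Real.exp_pos _).le
  have hZ0 : (0 : ℝ) ≤ (3 * ((q : ℝ) + 1)) ^ K1 * (3 * (6 * (q : ℝ) / (g : ℝ) ^ 4 + 1)) ^ K2 *
      Real.exp (29 * κ * A ^ 2 * g ^ 16 + 1) := by positivity
  have hfin : Real.exp (-((N : ℝ) * H)) ≤
      Real.exp ((N : ℝ) * (2 * E + -(D / 2) + (E / 20 + D / 13 + 30 * E))) := by
    calc Real.exp (-((N : ℝ) * H)) ≤ t := hlow
      _ ≤ _ := hup
      _ ≤ Real.exp (2 * E) ^ N * Real.exp (-((N : ℝ) * D / 2)) *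
          Real.exp (E / 20 + D / 13 + 30 * E) ^ N := by
          apply mul_le_mul _ (pow_le_pow_left₀ hZ0 hZ N) (by positivity) (by positivity)
          exact mul_le_mul_of_nonneg_right hfac (Real.exp_pos _).le
      _ = _ := by
          rw [← Real.exp_nat_mul, ← Real.exp_nat_mul, ← Real.exp_add, ← Real.exp_add]
          congr 1
          ring
  have hexp := Real.exp_le_exp.1 hfin
  have h1 : (N : ℝ) * H ≤ N * (6 * E) := by
    apply mul_le_mul_of_nonneg_left _ (by linarith)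
    calc H ≤ _ := hH
      _ = 6 * E := by
        rw [hE]
        ring
  have h2 : (0 : ℝ) ≤ N * (2 * E + -(D / 2) + (E / 20 + D / 13 + 30 * E) + 6 * E) := by
    have h3 : (N : ℝ) * (2 * E + -(D / 2) + (E / 20 + D / 13 + 30 * E) + 6 * E) =
        N * (2 * E + -(D / 2) + (E / 20 + D / 13 + 30 * E)) + N * (6 * E) := by ring
    rw [h3]
    linarith
  have h4 : 2 * E + -((D : ℝ) / 2) + (E / 20 + D / 13 + 30 * E) + 6 * E < 0 := by
    rw [hDE]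
    nlinarith
  have h5 : (N : ℝ) * (2 * E + -(D / 2) + (E / 20 + D / 13 + 30 * E) + 6 * E) < 0 :=
    mul_neg_of_pos_of_neg (by linarith) h4
  linarith

end Pool.Agent.NLS
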