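import Pool.Agent.NLS.LaDefs

/-!
# NLS-LaLow: lower bound for a nonzero determinant

Column `j` times `b₁^((L-1) rr j) b₃^((L-1) tt j)` has integral entries (`α₂ = a₂` is a natural), so the
product of these numbers with the determinant is a nonzero integer, and the product of these numbers is
at most `exp (N (L (R1 H1 + R3 H3)))`.
-/

namespace Pool.Agent.NLS

private theorem LaLow_pow {L l r : ℕ} (hl : l < L) (a b : ℝ) (hb : b ≠ 0) :
    b ^ ((L - 1) * r) * ((a / b) ^ r) ^ l = a ^ (l * r) * b ^ ((L - 1 - l) * r) := by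
  obtain ⟨m, hm⟩ : ∃ m, L - 1 = m + l := ⟨L - 1 - l, by omega⟩
  have h2 : L - 1 - l = m := by omega
  rw [h2, hm]
  have h3 : (a / b) ^ (r * l) = a ^ (l * r) / b ^ (l * r) := by
    rw [div_pow, mul_comm r l]
  rw [← pow_mul, h3, add_mul, pow_add]
  have h4 : b ^ (l * r) ≠ 0 := pow_ne_zero _ hb
  field_simp

private theorem LaLow_entry {L l r s t : ℕ} (hl : l < L) (c a₁ b₁ a₂ a₃ b₃ : ℝ) (hb₁ : b₁ ≠ 0)
    (hb₃ : b₃ ≠ 0) :
    (b₁ ^ ((L - 1) * r) * b₃ ^ ((L - 1) * t)) * (c * ((a₁ / b₁) ^ r * a₂ ^ s * (a₃ / b₃) ^ t) ^ l) =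
      c * (a₁ ^ (l * r) * b₁ ^ ((L - 1 - l) * r)) *
        (a₂ ^ (l * s) * (a₃ ^ (l * t) * b₃ ^ ((L - 1 - l) * t))) := by
  have e1 := LaLow_pow (r := r) hl a₁ b₁ hb₁
  have e3 := LaLow_pow (r := t) hl a₃ b₃ hb₃
  have e2 : (a₂ ^ s) ^ l = a₂ ^ (l * s) := by rw [← pow_mul, mul_comm]
  rw [mul_pow, mul_pow, ← e1, ← e2, ← e3]
  ring

private theorem LaLow_col {L R r : ℕ} (hr : r < R) {b : ℕ} (hb : 1 ≤ b) {H : ℝ}
    (hH : Real.log b ≤ H) : (b : ℝ) ^ ((L - 1) * r) ≤ Real.exp (L * (R * H)) := by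
  have hb' : (1 : ℝ) ≤ b := by exact_mod_cast hb
  have h1 : 0 ≤ Real.log b := Real.log_nonneg hb'
  have h2 : (b : ℝ) = Real.exp (Real.log b) := (Real.exp_log (by linarith)).symm
  have h3 : (b : ℝ) ^ ((L - 1) * r) = Real.exp (((L - 1) * r : ℕ) * Real.log b) := by
    conv_lhs => rw [h2]
    rw [← Real.exp_nat_mul]
  rw [h3]
  refine Real.exp_le_exp.2 ?_
  have h4 : ((L - 1) * r : ℕ) ≤ L * R := Nat.mul_le_mul (Nat.sub_le _ _) hr.le
  have h5 : (((L - 1) * r : ℕ) : ℝ) ≤ (L : ℝ) * R := by exact_mod_cast h4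
  have h6 : (0 : ℝ) ≤ (L : ℝ) * R := by positivity
  calc (((L - 1) * r : ℕ) : ℝ) * Real.log b ≤ ((L : ℝ) * R) * H :=
        mul_le_mul h5 hH h1 h6
    _ = L * (R * H) := by ring

theorem det_lower4 (N L R1 R3 q rho : ℕ) (aa cc ll rr ss tt : Fin N → ℕ)
    (hl : ∀ i, ll i < L) (hr : ∀ j, rr j < R1) (ht : ∀ j, tt j < R3) (a₁ b₁ a₂ a₃ b₃ : ℕ) (hb₁ : 1 ≤ b₁) (hb₃ : 1 ≤ b₃)
    (H1 H3 : ℝ) (hH1 : Real.log b₁ ≤ H1) (hH3 : Real.log b₃ ≤ H3)
    (hne : (Matrix.of fun i j : Fin N =>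
      ent4 q rho ((a₁ : ℝ) / b₁) a₂ ((a₃ : ℝ) / b₃) (aa i) (cc i) (ll i) (rr j) (ss j) (tt j)).det ≠ 0) :
    Real.exp (-(N * (L * (R1 * H1 + R3 * H3)))) ≤
      |(Matrix.of fun i j : Fin N =>
        ent4 q rho ((a₁ : ℝ) / b₁) a₂ ((a₃ : ℝ) / b₃) (aa i) (cc i) (ll i) (rr j) (ss j) (tt j)).det| := by
  have hb₁0 : (b₁ : ℝ) ≠ 0 := by exact_mod_cast (by omega : b₁ ≠ 0)
  have hb₃0 : (b₃ : ℝ) ≠ 0 := by exact_mod_cast (by omega : b₃ ≠ 0)
  set M : Matrix (Fin N) (Fin N) ℝ := Matrix.of fun i j : Fin N =>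
    ent4 q rho ((a₁ : ℝ) / b₁) a₂ ((a₃ : ℝ) / b₃) (aa i) (cc i) (ll i) (rr j) (ss j) (tt j) with hM
  set D : Fin N → ℝ := fun j => (b₁ : ℝ) ^ ((L - 1) * rr j) * (b₃ : ℝ) ^ ((L - 1) * tt j) with hD
  let B : Matrix (Fin N) (Fin N) ℤ := Matrix.of fun i j =>
    ((((rho * rr j + q * ss j).choose (aa i) : ℕ) : ℤ) *
      (((rr j + q * tt j).choose (cc i) : ℕ) : ℤ)) *
      ((a₁ : ℤ) ^ (ll i * rr j) * (b₁ : ℤ) ^ ((L - 1 - ll i) * rr j)) *
      ((a₂ : ℤ) ^ (ll i * ss j) * ((a₃ : ℤ) ^ (ll i * tt j) * (b₃ : ℤ) ^ ((L - 1 - ll i) * tt j)))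
  have h1 : (∏ j, D j) * M.det = ((B.det : ℤ) : ℝ) := by
    rw [← Matrix.det_mul_row, Int.cast_det]
    congr 1
    ext i j
    have h2 := LaLow_entry (r := rr j) (s := ss j) (t := tt j) (hl i)
      ((((rho * rr j + q * ss j).choose (aa i) : ℕ) : ℝ) *
        (((rr j + q * tt j).choose (cc i) : ℕ) : ℝ)) a₁ b₁ a₂ a₃ b₃ hb₁0 hb₃0
    simp only [hD, hM, Matrix.of_apply, ent4, Matrix.map_apply, B]
    push_cast
    exact h2
  have hDpos : ∀ j, 0 < D j := fun j => by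
    have h3 : (0 : ℝ) < b₁ := by exact_mod_cast hb₁
    have h4 : (0 : ℝ) < b₃ := by exact_mod_cast hb₃
    simp only [hD]
    positivity
  have hprod : 0 < ∏ j, D j := Finset.prod_pos fun j _ => hDpos j
  have hB : B.det ≠ 0 := by
    intro h0
    rw [h0, Int.cast_zero] at h1
    rcases mul_eq_zero.1 h1 with h2 | h2
    · exact hprod.ne' h2
    · exact hne h2
  have h5 : (1 : ℝ) ≤ (∏ j, D j) * |M.det| := by
    have h6 : (1 : ℝ) ≤ |((B.det : ℤ) : ℝ)| := by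
      rw [← Int.cast_abs]
      exact_mod_cast Int.one_le_abs hB
    rw [← h1, abs_mul, abs_of_pos hprod] at h6
    exact h6
  have h7 : ∏ j, D j ≤ Real.exp (N * (L * (R1 * H1 + R3 * H3))) := by
    calc ∏ j, D j ≤ ∏ _j : Fin N, Real.exp (L * (R1 * H1 + R3 * H3)) := by
          refine Finset.prod_le_prod (fun j _ => (hDpos j).le) fun j _ => ?_
          have e : Real.exp (L * (R1 * H1 + R3 * H3)) =
              Real.exp (L * (R1 * H1)) * Real.exp (L * (R3 * H3)) := by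
            rw [← Real.exp_add]
            congr 1
            ring
          rw [e]
          exact mul_le_mul (LaLow_col (hr j) hb₁ hH1) (LaLow_col (ht j) hb₃ hH3)
            (pow_nonneg (Nat.cast_nonneg _) _) (Real.exp_nonneg _)
      _ = Real.exp (N * (L * (R1 * H1 + R3 * H3))) := by
          rw [Finset.prod_const, Finset.card_univ, Fintype.card_fin, ← Real.exp_nat_mul]
  have h8 : (1 : ℝ) ≤ Real.exp (N * (L * (R1 * H1 + R3 * H3))) * |M.det| :=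
    h5.trans (mul_le_mul_of_nonneg_right h7 (abs_nonneg _))
  rw [Real.exp_neg]
  exact (inv_le_iff_one_le_mul₀ (Real.exp_pos _)).2 (by linarith)

end Pool.Agent.NLS
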