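import Mathlib

/-!
# NLS-LaNum: the inequalities between the parameters

`a = A`; `R1 = A g^13`, `R2 = R3 = κ A g^13`, `L = g^3`, `K1 = κ A^2 g^15`, `K2 = κ A g^17`, `D = κ A^2 g^17`.
In every inequality both sides are monomials in `κ, A, g`, up to a constant `≤ 1000 ≤ g`. For the last one,
`D / G ≤ 8 κ A g^17` since `A ≤ 8 G`.
-/

namespace Pool.Agent.NLS

private lemma lanum_lt {M c h : ℕ} (hM : 1 ≤ M) (hc : c < h) : c * M < M * h := by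
  rw [mul_comm c M]
  exact Nat.mul_lt_mul_of_pos_left hc hM

theorem la_num {κ A g G : ℕ} (hg : 1000 ≤ g) (hκ : 1 ≤ κ) (hA : 1 ≤ A) (hAG : A ≤ 8 * G) (hG : 1 ≤ G) :
    g ^ 3 ≤ κ * (A * g ^ 13) ∧
    2 * g ^ 3 * (κ * (A ^ 2 * g ^ 15)) < A * g ^ 13 * (κ * (A * g ^ 13)) ∧
    2 * g ^ 3 * (κ * (A * g ^ 17)) < A * g ^ 13 * (κ * (A * g ^ 13)) ∧
    2 * g ^ 3 * (κ * (A * g ^ 17)) < κ * (A * g ^ 13) * (κ * (A * g ^ 13)) ∧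
    κ * (A * g ^ 13) ≤ 2 * g ^ 3 * (κ * (A * g ^ 17)) ∧
    8 * (g ^ 3) ^ 2 * (κ * (A ^ 2 * g ^ 15) * (κ * (A * g ^ 17))) <
      A * g ^ 13 * (κ * (A * g ^ 13)) * (κ * (A * g ^ 13)) ∧
    (κ * (A * g ^ 17) + 1 + κ * (A ^ 2 * g ^ 17) / G) * (κ * (A ^ 2 * g ^ 17) + 1) ≤
      κ * (A ^ 2 * g ^ 15) * (κ * (A * g ^ 17)) * g ^ 3 := by
  have hg1 : 1 ≤ g := by omega
  have hgp : ∀ n : ℕ, 1 ≤ g ^ n := fun n => Nat.one_le_pow _ _ hg1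
  have hbig : ∀ n : ℕ, n ≠ 0 → 1000 ≤ g ^ n := fun n hn => hg.trans (Nat.le_self_pow hn g)
  have pos2 : ∀ {a b : ℕ}, 1 ≤ a → 1 ≤ b → 1 ≤ a * b := fun ha hb => Nat.mul_pos ha hb
  have hA2 : 1 ≤ A ^ 2 := Nat.one_le_pow _ _ hA
  refine ⟨?_, ?_, ?_, ?_, ?_, ?_, ?_⟩
  · calc g ^ 3 ≤ g ^ 13 := Nat.pow_le_pow_right hg1 (by norm_num)
      _ = 1 * (1 * g ^ 13) := by ring
      _ ≤ κ * (A * g ^ 13) := Nat.mul_le_mul hκ (Nat.mul_le_mul hA le_rfl)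
  · have h := lanum_lt (M := κ * A ^ 2 * g ^ 18) (c := 2) (h := g ^ 8) (pos2 (pos2 hκ hA2) (hgp 18))
      (lt_of_lt_of_le (by norm_num) (hbig 8 (by norm_num)))
    calc 2 * g ^ 3 * (κ * (A ^ 2 * g ^ 15)) = 2 * (κ * A ^ 2 * g ^ 18) := by ring
      _ < κ * A ^ 2 * g ^ 18 * g ^ 8 := h
      _ = A * g ^ 13 * (κ * (A * g ^ 13)) := by ring
  · have h := lanum_lt (M := κ * A * g ^ 20) (c := 2) (h := g ^ 6) (pos2 (pos2 hκ hA) (hgp 20))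
      (lt_of_lt_of_le (by norm_num) (hbig 6 (by norm_num)))
    calc 2 * g ^ 3 * (κ * (A * g ^ 17)) = 2 * (κ * A * g ^ 20) := by ring
      _ < κ * A * g ^ 20 * g ^ 6 := h
      _ = κ * A * g ^ 20 * g ^ 6 * 1 := by ring
      _ ≤ κ * A * g ^ 20 * g ^ 6 * A := Nat.mul_le_mul le_rfl hA
      _ = A * g ^ 13 * (κ * (A * g ^ 13)) := by ring
  · have h := lanum_lt (M := κ * A * g ^ 20) (c := 2) (h := g ^ 6) (pos2 (pos2 hκ hA) (hgp 20))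
      (lt_of_lt_of_le (by norm_num) (hbig 6 (by norm_num)))
    calc 2 * g ^ 3 * (κ * (A * g ^ 17)) = 2 * (κ * A * g ^ 20) := by ring
      _ < κ * A * g ^ 20 * g ^ 6 := h
      _ = κ * A * g ^ 20 * g ^ 6 * 1 := by ring
      _ ≤ κ * A * g ^ 20 * g ^ 6 * (κ * A) := Nat.mul_le_mul le_rfl (pos2 hκ hA)
      _ = κ * (A * g ^ 13) * (κ * (A * g ^ 13)) := by ring
  · calc κ * (A * g ^ 13) = κ * (A * g ^ 13) * 1 := by ring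
      _ ≤ κ * (A * g ^ 13) * (2 * g ^ 7) :=
          Nat.mul_le_mul le_rfl (pos2 (by norm_num) (hgp 7))
      _ = 2 * g ^ 3 * (κ * (A * g ^ 17)) := by ring
  · have h := lanum_lt (M := κ ^ 2 * A ^ 3 * g ^ 38) (c := 8) (h := g)
      (pos2 (pos2 (Nat.one_le_pow _ _ hκ) (Nat.one_le_pow _ _ hA)) (hgp 38))
      (lt_of_lt_of_le (by norm_num) hg)
    calc 8 * (g ^ 3) ^ 2 * (κ * (A ^ 2 * g ^ 15) * (κ * (A * g ^ 17)))
        = 8 * (κ ^ 2 * A ^ 3 * g ^ 38) := by ring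
      _ < κ ^ 2 * A ^ 3 * g ^ 38 * g := h
      _ = A * g ^ 13 * (κ * (A * g ^ 13)) * (κ * (A * g ^ 13)) := by ring
  · have hdiv : κ * (A ^ 2 * g ^ 17) / G ≤ 8 * (κ * (A * g ^ 17)) := by
      apply Nat.div_le_of_le_mul
      calc κ * (A ^ 2 * g ^ 17) = κ * (A * g ^ 17) * A := by ring
        _ ≤ κ * (A * g ^ 17) * (8 * G) := Nat.mul_le_mul le_rfl hAG
        _ = G * (8 * (κ * (A * g ^ 17))) := by ring
    have hP : 1 ≤ κ * (A * g ^ 17) := pos2 hκ (pos2 hA (hgp 17))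
    have hQ : 1 ≤ κ * (A ^ 2 * g ^ 17) := pos2 hκ (pos2 hA2 (hgp 17))
    have h1 : κ * (A * g ^ 17) + 1 + κ * (A ^ 2 * g ^ 17) / G ≤ 10 * (κ * (A * g ^ 17)) := by omega
    have h2 : κ * (A ^ 2 * g ^ 17) + 1 ≤ 2 * (κ * (A ^ 2 * g ^ 17)) := by omega
    calc (κ * (A * g ^ 17) + 1 + κ * (A ^ 2 * g ^ 17) / G) * (κ * (A ^ 2 * g ^ 17) + 1)
        ≤ (10 * (κ * (A * g ^ 17))) * (2 * (κ * (A ^ 2 * g ^ 17))) := Nat.mul_le_mul h1 h2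
      _ = κ ^ 2 * A ^ 3 * g ^ 34 * 20 := by ring
      _ ≤ κ ^ 2 * A ^ 3 * g ^ 34 * g := Nat.mul_le_mul le_rfl (le_trans (by norm_num) hg)
      _ = κ * (A ^ 2 * g ^ 15) * (κ * (A * g ^ 17)) * g ^ 3 := by ring

private lemma lanum_le {κ A g : ℕ} (hg : 1000 ≤ g) (hκ : 1 ≤ κ) (hA : 1 ≤ A) {B : ℤ}
    (hB : |B| * ((κ * (A * g ^ 13) : ℕ) : ℤ) ≤ ((2 * g ^ 3 * (κ * (A * g ^ 17)) : ℕ) : ℤ)) :
    |B| ≤ 2 * (g : ℤ) ^ 7 := by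
  have hg1 : 1 ≤ g := by omega
  have hp : (0 : ℤ) < ((κ * (A * g ^ 13) : ℕ) : ℤ) := by
    exact_mod_cast Nat.mul_pos hκ (Nat.mul_pos hA (Nat.one_le_pow _ _ hg1))
  have he : ((2 * g ^ 3 * (κ * (A * g ^ 17)) : ℕ) : ℤ) =
      (2 * (g : ℤ) ^ 7) * ((κ * (A * g ^ 13) : ℕ) : ℤ) := by
    push_cast
    ring
  rw [he] at hB
  exact le_of_mul_le_mul_right hB hp

private lemma lanum_pos {q rho g : ℕ} (hg : 1000 ≤ g) (h1 : 1 ≤ rho)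
    (h : ∀ b : ℕ, ∀ a : ℤ, 1 ≤ b → b < g ^ 8 → (g : ℤ) ^ 8 ≤ |(b : ℤ) * rho - a * q|) (B C : ℤ)
    (hB0 : 0 < B) (hB : |B| ≤ 2 * (g : ℤ) ^ 7) (hC : |C| ≤ 2 * (g : ℤ) ^ 7)
    (hd : (q : ℤ) ∣ ((rho - 1 : ℕ) : ℤ) * B + C) : False := by
  obtain ⟨a, ha⟩ := hd
  have hgz : (1000 : ℤ) ≤ (g : ℤ) := by exact_mod_cast hg
  have hg7 : (1 : ℤ) ≤ (g : ℤ) ^ 7 := one_le_pow₀ (by linarith)
  have hg8 : 1000 * (g : ℤ) ^ 7 ≤ (g : ℤ) ^ 8 := by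
    have : (g : ℤ) ^ 8 = g * (g : ℤ) ^ 7 := by ring
    rw [this]
    exact mul_le_mul_of_nonneg_right hgz (by linarith)
  have hBn : ((B.toNat : ℕ) : ℤ) = B := Int.toNat_of_nonneg hB0.le
  have hBle : B ≤ 2 * (g : ℤ) ^ 7 := (le_abs_self B).trans hB
  have hb1 : 1 ≤ B.toNat := by omega
  have hb2 : B.toNat < g ^ 8 := by
    have : ((B.toNat : ℕ) : ℤ) < ((g ^ 8 : ℕ) : ℤ) := by
      rw [hBn]
      push_cast
      linarith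
    exact_mod_cast this
  have h3 := h B.toNat a hb1 hb2
  rw [hBn] at h3
  have hr : ((rho - 1 : ℕ) : ℤ) = (rho : ℤ) - 1 := by
    rw [Nat.cast_sub h1]
    simp
  rw [hr] at ha
  have he : B * (rho : ℤ) - a * q = B - C := by linear_combination ha
  rw [he] at h3
  have h4 : |B - C| ≤ |B| + |C| := abs_sub B C
  linarith

/-- The non-degeneracy used by `LaNon`: both coefficients are at most `2 g^7` in absolute value, and a nonzero `B`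
would give a good rational approximation of `rho / q` with denominator less than `g^8`. -/
theorem la_nd {q rho κ A g : ℕ} (hg : 1000 ≤ g) (hκ : 1 ≤ κ) (hA : 1 ≤ A) (h1 : 1 ≤ rho) (hgq : g ^ 8 ≤ q)
    (h : ∀ b : ℕ, ∀ a : ℤ, 1 ≤ b → b < g ^ 8 → (g : ℤ) ^ 8 ≤ |(b : ℤ) * rho - a * q|) (B C : ℤ)
    (hB : |B| * ((κ * (A * g ^ 13) : ℕ) : ℤ) ≤ ((2 * g ^ 3 * (κ * (A * g ^ 17)) : ℕ) : ℤ))
    (hC : |C| * ((κ * (A * g ^ 13) : ℕ) : ℤ) ≤ ((2 * g ^ 3 * (κ * (A * g ^ 17)) : ℕ) : ℤ))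
    (hd : (q : ℤ) ∣ ((rho - 1 : ℕ) : ℤ) * B + C) : C = 0 := by
  have hB' := lanum_le hg hκ hA hB
  have hC' := lanum_le hg hκ hA hC
  rcases lt_trichotomy B 0 with hneg | hzero | hpos
  · exfalso
    refine lanum_pos hg h1 h (-B) (-C) (by linarith) (by rwa [abs_neg]) (by rwa [abs_neg]) ?_
    have : ((rho - 1 : ℕ) : ℤ) * (-B) + (-C) = -(((rho - 1 : ℕ) : ℤ) * B + C) := by ring
    rw [this]
    exact (dvd_neg).mpr hd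
  · rw [hzero, mul_zero, zero_add] at hd
    have hgz : (1000 : ℤ) ≤ (g : ℤ) := by exact_mod_cast hg
    have hg7 : (1 : ℤ) ≤ (g : ℤ) ^ 7 := one_le_pow₀ (by linarith)
    have hg8 : 1000 * (g : ℤ) ^ 7 ≤ (g : ℤ) ^ 8 := by
      have : (g : ℤ) ^ 8 = g * (g : ℤ) ^ 7 := by ring
      rw [this]
      exact mul_le_mul_of_nonneg_right hgz (by linarith)
    have hq : (g : ℤ) ^ 8 ≤ (q : ℤ) := by exact_mod_cast hgq
    exact Int.eq_zero_of_abs_lt_dvd hd (by linarith)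
  · exact (lanum_pos hg h1 h B C hpos hB' hC' hd).elim

end Pool.Agent.NLS
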