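import Pool.Agent.NLS.LaZero

/-!
# NLS-LaPick: a nonzero interpolation determinant

The rows `(a, b, l) ∈ Fin K1 × Fin K2 × Fin L ≃ Fin (K1 * K2 * L)` are linearly independent on the columns
`(r, s, t) ∈ Fin (3R1) × Fin (3R2) × Fin (3R3)` by `zero_est4`, so `N` columns with a nonzero minor exist.
-/

namespace Pool.Agent.NLS

private theorem LaPick_minor {N : ℕ} {C : Type*} [Fintype C] (M : Matrix (Fin N) C ℝ)
    (h : LinearIndependent ℝ M.row) :
    ∃ c : Fin N → C, (Matrix.of fun i j : Fin N => M i (c j)).det ≠ 0 := by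
  have h1 : M.rank = N := by
    rw [h.rank_matrix, Fintype.card_fin]
  rw [Matrix.rank_eq_finrank_span_cols] at h1
  obtain ⟨f, hf1, -, hf3⟩ := Submodule.exists_fun_fin_finrank_span_eq ℝ (Set.range M.col)
  choose g hg using hf1
  refine ⟨fun j => g (Fin.cast h1.symm j), ?_⟩
  have h2 : LinearIndependent ℝ
      (Matrix.of fun i j : Fin N => M i (g (Fin.cast h1.symm j))).col := by
    have h3 : (Matrix.of fun i j : Fin N => M i (g (Fin.cast h1.symm j))).col =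
        f ∘ Fin.cast h1.symm := by
      ext j i
      rw [Function.comp_apply, ← hg]
      rfl
    rw [h3]
    exact hf3.comp _ (Fin.cast_injective _)
  rw [Matrix.linearIndependent_cols_iff_isUnit, Matrix.isUnit_iff_isUnit_det] at h2
  exact h2.ne_zero

theorem pick4 {q rho R1 R2 R3 K1 K2 L N : ℕ} {α₁ α₂ α₃ : ℝ} (h1 : 0 < α₁) (h2 : 1 < α₂) (h3 : 0 < α₃)
    (hq : q ≠ 0) (hcop : Nat.Coprime rho q) (hR1 : 1 ≤ R1) (hR2 : 1 ≤ R2) (hR3 : 1 ≤ R3) (hK1 : 1 ≤ K1)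
    (hK2 : 1 ≤ K2) (hL1 : 1 ≤ L) (hR1q : R1 ≤ q) (hL : L ≤ R2) (hZ : 2 * L * K1 < R1 * R2)
    (h12 : 2 * L * K2 < R1 * R2) (h13 : 2 * L * K2 < R1 * R3) (h23 : 2 * L * K2 < R2 * R3)
    (hnd : ∀ B C : ℤ, |B| * R2 ≤ ((2 * L * K2 : ℕ) : ℤ) → |C| * R3 ≤ ((2 * L * K2 : ℕ) : ℤ) →
      (q : ℤ) ∣ rho * B + C → C = 0)
    (hm : R3 ≤ 2 * L * K2) (h123 : 8 * L ^ 2 * (K1 * K2) < R1 * R2 * R3)
    (hN : K1 * K2 * L = N) :
    ∃ aa cc ll rr ss tt : Fin N → ℕ, (∀ i, aa i < K1) ∧ (∀ i, cc i < K2) ∧ (∀ i, ll i < L) ∧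
      (∀ j, rr j < 3 * R1) ∧ (∀ j, ss j < 3 * R2) ∧ (∀ j, tt j < 3 * R3) ∧
      (Matrix.of fun i j : Fin N =>
        ent4 q rho α₁ α₂ α₃ (aa i) (cc i) (ll i) (rr j) (ss j) (tt j)).det ≠ 0 := by
  have hcard : Fintype.card (Fin K1 × Fin K2 × Fin L) = N := by
    rw [Fintype.card_prod, Fintype.card_prod, Fintype.card_fin, Fintype.card_fin,
      Fintype.card_fin, ← hN]
    ring
  let e : Fin K1 × Fin K2 × Fin L ≃ Fin N := Fintype.equivFinOfCardEq hcard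
  obtain ⟨c, hc⟩ := LaPick_minor (N := N) (C := Fin (3 * R1) × Fin (3 * R2) × Fin (3 * R3))
    (Matrix.of fun i j => ent4 q rho α₁ α₂ α₃ (e.symm i).1 (e.symm i).2.1 (e.symm i).2.2
      j.1 j.2.1 j.2.2) (by
    rw [Fintype.linearIndependent_iff]
    intro g hg
    have h5 := zero_est4 h1 h2 h3 hq hcop hR1 hR2 hR3 hK1 hK2 hL1 hR1q hL hZ h12 h13 h23 hnd hm
      h123
      (fun a b l => if h : a < K1 ∧ b < K2 ∧ l < L then
        g (e (⟨a, h.1⟩, ⟨b, h.2.1⟩, ⟨l, h.2.2⟩)) else 0) (by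
        intro r hr s hs t ht
        have h4 := congrFun hg (⟨r, hr⟩, ⟨s, hs⟩, ⟨t, ht⟩)
        rw [Finset.sum_apply] at h4
        rw [← Equiv.sum_comp e, Fintype.sum_prod_type] at h4
        rw [Pi.zero_apply] at h4
        rw [← h4, Finset.sum_range]
        refine Finset.sum_congr rfl fun a _ => ?_
        rw [Fintype.sum_prod_type, Finset.sum_range]
        refine Finset.sum_congr rfl fun b _ => ?_
        rw [Finset.sum_range]
        refine Finset.sum_congr rfl fun l _ => ?_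
        rw [dif_pos ⟨a.2, b.2, l.2⟩]
        simp only [Matrix.row, Matrix.of_apply, Equiv.symm_apply_apply, Pi.smul_apply,
          smul_eq_mul])
    intro i
    have h6 := h5 (e.symm i).1 (e.symm i).1.2 (e.symm i).2.1 (e.symm i).2.1.2
      (e.symm i).2.2 (e.symm i).2.2.2
    rw [dif_pos ⟨(e.symm i).1.2, (e.symm i).2.1.2, (e.symm i).2.2.2⟩] at h6
    simpa only [Fin.eta, Prod.mk.eta, Equiv.apply_symm_apply] using h6)
  exact ⟨fun i => (e.symm i).1, fun i => (e.symm i).2.1, fun i => (e.symm i).2.2,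
    fun j => (c j).1, fun j => (c j).2.1, fun j => (c j).2.2, fun i => (e.symm i).1.2,
    fun i => (e.symm i).2.1.2, fun i => (e.symm i).2.2.2, fun j => (c j).1.2,
    fun j => (c j).2.1.2, fun j => (c j).2.2.2, hc⟩

end Pool.Agent.NLS
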