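import Pool.Agent.NLE.LMaj

/-!
# NLS-LaMaj: power series of `z ↦ C(z,k) exp(ω z)`, majorant with weight `exp (G (m - k)⁺)`

The coefficients are those of `NLE.maj2`; the weighted majorant `S_k` satisfies
`S_0 = exp (|ω| ρ exp G)` and `S_{k+1} ≤ (ρ + k) S_k / (k+1)`.
-/

namespace Pool.Agent.NLS

private theorem laMaj_shift {a : ℕ → ℝ} {x s : ℝ} (h : HasSum (fun m => a m * x ^ m) s) :
    HasSum (fun m => (if m = 0 then 0 else a (m - 1)) * x ^ m) (x * s) := by
  have h1 : HasSum (fun m => (if m + 1 = 0 then 0 else a (m + 1 - 1)) * x ^ (m + 1)) (x * s) := by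
    refine (h.mul_left x).congr_fun fun m => ?_
    rw [if_neg (Nat.succ_ne_zero m), Nat.add_sub_cancel, pow_succ]
    ring
  have h2 := HasSum.zero_add (f := fun m => (if m = 0 then 0 else a (m - 1)) * x ^ m) h1
  rw [if_pos rfl, zero_mul, zero_add] at h2
  exact h2

private theorem laMaj_choose (z k : ℕ) :
    ((z.choose (k + 1) : ℕ) : ℝ) = ((z : ℝ) - k) * ((z.choose k : ℕ) : ℝ) / (k + 1) := by
  have h1 := Nat.choose_succ_right_eq z k
  rw [eq_div_iff (by positivity)]
  rcases le_total k z with h | h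
  · have h2 : ((z.choose (k + 1) : ℕ) : ℝ) * ((k + 1 : ℕ) : ℝ) = ((z.choose k : ℕ) : ℝ) * ((z - k : ℕ) : ℝ) := by
      exact_mod_cast h1
    rw [Nat.cast_sub h] at h2
    push_cast at h2
    rw [h2]
    ring
  · rcases eq_or_lt_of_le h with h' | h'
    · subst h'
      rw [Nat.choose_succ_self]
      simp
    · rw [Nat.choose_eq_zero_of_lt h', Nat.choose_eq_zero_of_lt (by omega)]
      simp

private theorem laMaj_zero (x : ℝ) (ω : ℝ) :
    HasSum (fun m : ℕ => ω ^ m / (m.factorial : ℝ) * x ^ m) (Real.exp (ω * x)) := by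
  have h := NormedSpace.expSeries_div_hasSum_exp (ω * x)
  rw [← Real.exp_eq_exp_ℝ] at h
  refine h.congr_fun fun m => ?_
  rw [mul_pow]
  ring

theorem maj3 (k : ℕ) (ω G : ℝ) (hG : 0 ≤ G) : ∃ a : ℕ → ℝ,
    (∀ z : ℕ, HasSum (fun m => a m * (z : ℝ) ^ m) (((z.choose k : ℕ) : ℝ) * Real.exp (ω * z))) ∧
    ∀ ρ : ℝ, 0 ≤ ρ → Summable (fun m => |a m| * ρ ^ m * Real.exp (G * ((m - k : ℕ) : ℝ))) ∧
      ∑' m, |a m| * ρ ^ m * Real.exp (G * ((m - k : ℕ) : ℝ)) ≤
        (ρ + k) ^ k / k.factorial * Real.exp (|ω| * ρ * Real.exp G) := by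
  induction k with
  | zero =>
    refine ⟨fun m => ω ^ m / (m.factorial : ℝ), fun z => ?_, fun ρ hρ => ?_⟩
    · rw [Nat.choose_zero_right, Nat.cast_one, one_mul]
      exact laMaj_zero z ω
    · have h1 : (fun m : ℕ => |ω ^ m / (m.factorial : ℝ)| * ρ ^ m * Real.exp (G * ((m - 0 : ℕ) : ℝ))) =
          fun m : ℕ => (|ω|) ^ m / (m.factorial : ℝ) * (ρ * Real.exp G) ^ m := by
        funext m
        rw [abs_div, abs_pow, abs_of_nonneg (show (0 : ℝ) ≤ (m.factorial : ℝ) from Nat.cast_nonneg _),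
          Nat.sub_zero, mul_pow, ← Real.exp_nat_mul, mul_comm G (m : ℝ)]
        ring
      have h2 := laMaj_zero (ρ * Real.exp G) |ω|
      rw [h1]
      refine ⟨h2.summable, ?_⟩
      rw [h2.tsum_eq, pow_zero, Nat.factorial_zero, Nat.cast_one, div_one, one_mul, ← mul_assoc]
  | succ k ih =>
    obtain ⟨a, ha, hρ⟩ := ih
    refine ⟨fun m => ((if m = 0 then 0 else a (m - 1)) - k * a m) / (k + 1), fun z => ?_, fun ρ h0 => ?_⟩
    · have h1 := ((laMaj_shift (ha z)).sub ((ha z).mul_left (k : ℝ))).div_const ((k : ℝ) + 1)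
      rw [laMaj_choose]
      have h2 : (((z : ℝ) * (((z.choose k : ℕ) : ℝ) * Real.exp (ω * z)) -
          (k : ℝ) * (((z.choose k : ℕ) : ℝ) * Real.exp (ω * z))) / ((k : ℝ) + 1)) =
          ((z : ℝ) - k) * ((z.choose k : ℕ) : ℝ) / (k + 1) * Real.exp (ω * z) := by ring
      rw [h2] at h1
      refine h1.congr_fun fun m => ?_
      ring
    · obtain ⟨hs', ht'⟩ := hρ ρ h0
      obtain ⟨g, hg⟩ : ∃ g : ℕ → ℝ, ∀ m, g m = |a m| * Real.exp (G * ((m - k : ℕ) : ℝ)) :=
        ⟨_, fun _ => rfl⟩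
      have hg0 : ∀ m, 0 ≤ g m := fun m => by
        rw [hg]
        positivity
      have he : (fun m => |a m| * ρ ^ m * Real.exp (G * ((m - k : ℕ) : ℝ))) =
          fun m => g m * ρ ^ m := by
        funext m
        rw [hg]
        ring
      rw [he] at hs' ht'
      have hk1 : (0 : ℝ) < (k : ℝ) + 1 := by positivity
      have h1 := laMaj_shift hs'.hasSum
      have h2 := (h1.add (hs'.hasSum.mul_left (k : ℝ))).div_const ((k : ℝ) + 1)
      have h3 : ∀ m : ℕ, |((if m = 0 then 0 else a (m - 1)) - k * a m) / (k + 1)| * ρ ^ m *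
          Real.exp (G * ((m - (k + 1) : ℕ) : ℝ)) ≤
          ((if m = 0 then 0 else g (m - 1)) * ρ ^ m + k * (g m * ρ ^ m)) / ((k : ℝ) + 1) := by
        intro m
        have e0 : 0 ≤ Real.exp (G * ((m - (k + 1) : ℕ) : ℝ)) := (Real.exp_pos _).le
        have e2 : |((if m = 0 then 0 else a (m - 1)) - k * a m)| ≤
            (if m = 0 then 0 else |a (m - 1)|) + k * |a m| := by
          refine (abs_sub _ _).trans ?_
          rw [abs_mul, abs_of_nonneg (show (0 : ℝ) ≤ k from Nat.cast_nonneg k)]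
          split_ifs
          · rw [abs_zero]
          · exact le_rfl
        have e5 : (if m = 0 then 0 else |a (m - 1)|) * Real.exp (G * ((m - (k + 1) : ℕ) : ℝ)) =
            if m = 0 then 0 else g (m - 1) := by
          split_ifs with h
          · rw [zero_mul]
          · rw [hg]
            have e6 : m - (k + 1) = m - 1 - k := by omega
            rw [e6]
        have e7 : |a m| * Real.exp (G * ((m - (k + 1) : ℕ) : ℝ)) ≤ g m := by
          rw [hg]
          refine mul_le_mul_of_nonneg_left ?_ (abs_nonneg _)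
          refine Real.exp_le_exp.2 (mul_le_mul_of_nonneg_left ?_ hG)
          exact_mod_cast (by omega : m - (k + 1) ≤ m - k)
        have e3 : 0 ≤ ρ ^ m := by positivity
        rw [abs_div, abs_of_pos hk1, le_div_iff₀ hk1]
        have e4 : |((if m = 0 then 0 else a (m - 1)) - k * a m)| / ((k : ℝ) + 1) * ρ ^ m *
            Real.exp (G * ((m - (k + 1) : ℕ) : ℝ)) * ((k : ℝ) + 1) =
            |((if m = 0 then 0 else a (m - 1)) - k * a m)| * Real.exp (G * ((m - (k + 1) : ℕ) : ℝ)) *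
              ρ ^ m := by
          field_simp
        rw [e4]
        have e8 : |((if m = 0 then 0 else a (m - 1)) - k * a m)| *
            Real.exp (G * ((m - (k + 1) : ℕ) : ℝ)) ≤ (if m = 0 then 0 else g (m - 1)) + k * g m := by
          refine (mul_le_mul_of_nonneg_right e2 e0).trans ?_
          rw [add_mul, e5, mul_assoc]
          have := mul_le_mul_of_nonneg_left e7 (show (0 : ℝ) ≤ k from Nat.cast_nonneg k)
          linarith
        calc _ ≤ ((if m = 0 then 0 else g (m - 1)) + k * g m) * ρ ^ m :=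
              mul_le_mul_of_nonneg_right e8 e3
          _ = _ := by ring
      have h4 : Summable (fun m : ℕ => |((if m = 0 then 0 else a (m - 1)) - k * a m) / (k + 1)| * ρ ^ m *
          Real.exp (G * ((m - (k + 1) : ℕ) : ℝ))) :=
        Summable.of_nonneg_of_le (fun m => by positivity) h3 h2.summable
      refine ⟨h4, ?_⟩
      have h5 := h4.tsum_le_tsum h3 h2.summable
      rw [h2.tsum_eq] at h5
      refine h5.trans ?_
      have h6 : (ρ * ∑' m, g m * ρ ^ m + k * ∑' m, g m * ρ ^ m) / ((k : ℝ) + 1) =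
          (ρ + k) / ((k : ℝ) + 1) * ∑' m, g m * ρ ^ m := by ring
      rw [h6]
      have hk0 : (0 : ℝ) ≤ ρ + k := by positivity
      have hf : (((k + 1).factorial : ℕ) : ℝ) = ((k : ℝ) + 1) * (k.factorial : ℝ) := by
        rw [Nat.factorial_succ]
        push_cast
        ring
      have hfk : (0 : ℝ) < (k.factorial : ℝ) := by exact_mod_cast Nat.factorial_pos k
      calc (ρ + k) / ((k : ℝ) + 1) * ∑' m, g m * ρ ^ m
          ≤ (ρ + k) / ((k : ℝ) + 1) * ((ρ + k) ^ k / k.factorial * Real.exp (|ω| * ρ * Real.exp G)) :=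
            mul_le_mul_of_nonneg_left ht' (by positivity)
        _ = (ρ + k) ^ (k + 1) / ((k + 1).factorial : ℝ) * Real.exp (|ω| * ρ * Real.exp G) := by
            rw [hf]
            field_simp
            try ring
        _ ≤ (ρ + ((k + 1 : ℕ) : ℝ)) ^ (k + 1) / ((k + 1).factorial : ℝ) *
              Real.exp (|ω| * ρ * Real.exp G) := by
            refine mul_le_mul_of_nonneg_right ?_ (Real.exp_pos _).le
            refine div_le_div_of_nonneg_right ?_ (Nat.cast_nonneg _)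
            refine pow_le_pow_left₀ hk0 ?_ _
            push_cast
            linarith

theorem maj3_K (k K : ℕ) (hk : k ≤ K) (ω G : ℝ) (hG : 0 ≤ G) : ∃ a : ℕ → ℝ,
    (∀ z : ℕ, HasSum (fun m => a m * (z : ℝ) ^ m) (((z.choose k : ℕ) : ℝ) * Real.exp (ω * z))) ∧
    ∀ ρ : ℝ, 0 ≤ ρ → Summable (fun m => |a m| * ρ ^ m * Real.exp (G * ((m - K : ℕ) : ℝ))) ∧
      ∑' m, |a m| * ρ ^ m * Real.exp (G * ((m - K : ℕ) : ℝ)) ≤
        (ρ + k) ^ k / k.factorial * Real.exp (|ω| * ρ * Real.exp G) := by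
  obtain ⟨a, h1, h2⟩ := maj3 k ω G hG
  refine ⟨a, h1, fun ρ hρ => ?_⟩
  obtain ⟨h3, h4⟩ := h2 ρ hρ
  have h5 : ∀ m : ℕ, |a m| * ρ ^ m * Real.exp (G * ((m - K : ℕ) : ℝ)) ≤
      |a m| * ρ ^ m * Real.exp (G * ((m - k : ℕ) : ℝ)) := by
    intro m
    refine mul_le_mul_of_nonneg_left ?_ (by positivity)
    refine Real.exp_le_exp.2 (mul_le_mul_of_nonneg_left ?_ hG)
    exact_mod_cast (by omega : m - K ≤ m - k)
  have h6 : Summable (fun m => |a m| * ρ ^ m * Real.exp (G * ((m - K : ℕ) : ℝ))) :=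
    Summable.of_nonneg_of_le (fun m => by positivity) h5 h3
  exact ⟨h6, (h6.tsum_le_tsum h5 h3).trans h4⟩

end Pool.Agent.NLS
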