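import Mathlib

/-!
# NLS-LaWt: the sum of the weights of distinct monomials

`LaWt_w` is the weight: `m1 + G (m2 - K2)⁺` if `ν = (m1, m2, 0)`, else `D`. `∑ w (ν i) ≥ N D - ∑ (D - w (ν i))⁺`. The `ν i` with
`w (ν i) < D` are distinct elements `(m1, m2, 0)` with `m1 < D` and `m2 < K2 + 1 + D / G`, and `D - w ≤ D - m1`. So
`∑ (D - w (ν i))⁺ ≤ (K2 + 1 + D / G) ∑_{m1 < D} (D - m1) = (K2 + 1 + D / G) D (D + 1) / 2 ≤ N D / 2`.
-/

namespace Pool.Agent.NLS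

private def LaWt_w (D K2 G : ℕ) (t : ℕ × ℕ × ℕ) : ℕ := if t.2.2 = 0 then t.1 + G * (t.2.1 - K2) else D

private lemma LaWt_S (D : ℕ) : 2 * ∑ k ∈ Finset.range D, (D - k) = D * (D + 1) := by
  induction D with
  | zero => simp
  | succ D ih =>
    rw [Finset.sum_range_succ', mul_add]
    have h : ∑ k ∈ Finset.range D, (D + 1 - (k + 1)) = ∑ k ∈ Finset.range D, (D - k) :=
      Finset.sum_congr rfl fun k _ => Nat.add_sub_add_right D 1 k
    rw [h, ih, Nat.sub_zero]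
    ring

private lemma LaWt_in {D K2 G : ℕ} (hG : 1 ≤ G) {t : ℕ × ℕ × ℕ} (h : LaWt_w D K2 G t < D) :
    t.2.2 = 0 ∧ t.1 < D ∧ t.2.1 < K2 + 1 + D / G := by
  unfold LaWt_w at h
  split_ifs at h with h0
  · refine ⟨h0, by omega, ?_⟩
    have h1 : (t.2.1 - K2) * G ≤ D := by
      rw [mul_comm]
      omega
    have h2 : t.2.1 - K2 ≤ D / G := (Nat.le_div_iff_mul_le (by omega)).2 h1
    omega
  · omega

private lemma LaWt_sub {D K2 G : ℕ} {t : ℕ × ℕ × ℕ} (h : t.2.2 = 0) : D - LaWt_w D K2 G t ≤ D - t.1 := by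
  unfold LaWt_w
  rw [if_pos h]
  omega

private lemma LaWt_sum {ι : Type*} [Fintype ι] {D K2 G : ℕ} (hG : 1 ≤ G) {ν : ι → ℕ × ℕ × ℕ}
    (hν : Function.Injective ν) :
    ∑ i, (D - LaWt_w D K2 G (ν i)) ≤ (K2 + 1 + D / G) * ∑ k ∈ Finset.range D, (D - k) := by
  classical
  set s : Finset ι := Finset.univ.filter fun i => LaWt_w D K2 G (ν i) < D with hs
  have h1 : ∑ i, (D - LaWt_w D K2 G (ν i)) = ∑ i ∈ s, (D - LaWt_w D K2 G (ν i)) := by
    rw [hs, Finset.sum_filter]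
    refine Finset.sum_congr rfl fun i _ => ?_
    split_ifs with h
    · rfl
    · omega
  have hm : ∀ i ∈ s, (ν i).2.2 = 0 ∧ (ν i).1 < D ∧ (ν i).2.1 < K2 + 1 + D / G := fun i hi =>
    LaWt_in hG (Finset.mem_filter.1 hi).2
  have h2 : ∑ i ∈ s, (D - LaWt_w D K2 G (ν i)) ≤ ∑ i ∈ s, (D - (ν i).1) :=
    Finset.sum_le_sum fun i hi => LaWt_sub (hm i hi).1
  have hinj : Set.InjOn (fun i => ((ν i).1, (ν i).2.1)) (s : Set ι) := by
    intro i hi j hj hij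
    have hi' := hm i (Finset.mem_coe.1 hi)
    have hj' := hm j (Finset.mem_coe.1 hj)
    have h4 : ((ν i).1, (ν i).2.1) = ((ν j).1, (ν j).2.1) := hij
    have h3 : (ν i).1 = (ν j).1 ∧ (ν i).2.1 = (ν j).2.1 := by
      rw [Prod.mk.injEq] at h4
      exact h4
    refine hν (Prod.ext h3.1 (Prod.ext h3.2 ?_))
    rw [hi'.1, hj'.1]
  have h3 : ∑ i ∈ s, (D - (ν i).1) = ∑ p ∈ s.image (fun i => ((ν i).1, (ν i).2.1)), (D - p.1) := by
    rw [Finset.sum_image hinj]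
  have h4 : s.image (fun i => ((ν i).1, (ν i).2.1)) ⊆ Finset.range D ×ˢ Finset.range (K2 + 1 + D / G) := by
    intro p hp
    obtain ⟨i, hi, rfl⟩ := Finset.mem_image.1 hp
    exact Finset.mem_product.2 ⟨Finset.mem_range.2 (hm i hi).2.1, Finset.mem_range.2 (hm i hi).2.2⟩
  have h5 : ∑ p ∈ Finset.range D ×ˢ Finset.range (K2 + 1 + D / G), (D - p.1) =
      (K2 + 1 + D / G) * ∑ k ∈ Finset.range D, (D - k) := by
    rw [Finset.sum_product, Finset.mul_sum]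
    refine Finset.sum_congr rfl fun k _ => ?_
    change ∑ _y ∈ Finset.range (K2 + 1 + D / G), (D - k) = (K2 + 1 + D / G) * (D - k)
    rw [Finset.sum_const, Finset.card_range, smul_eq_mul]
  rw [h1, ← h5]
  exact h2.trans (h3.le.trans (Finset.sum_le_sum_of_subset h4))

theorem weight4 (N D K2 G : ℕ) (hG : 1 ≤ G) (h1 : (K2 + 1 + D / G) * (D + 1) ≤ N)
    (ν : Fin N → ℕ × ℕ × ℕ) (hν : Function.Injective ν) :
    ((N : ℝ) * D / 2) ≤ ∑ i, (if (ν i).2.2 = 0 then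
      (((ν i).1 : ℝ) + (G : ℝ) * (((ν i).2.1 - K2 : ℕ) : ℝ)) else (D : ℝ)) := by
  have e1 : (∑ i, (if (ν i).2.2 = 0 then
      (((ν i).1 : ℝ) + (G : ℝ) * (((ν i).2.1 - K2 : ℕ) : ℝ)) else (D : ℝ))) =
      ((∑ i, LaWt_w D K2 G (ν i) : ℕ) : ℝ) := by
    rw [Nat.cast_sum]
    refine Finset.sum_congr rfl fun i _ => ?_
    unfold LaWt_w
    split_ifs
    · push_cast
      ring
    · rfl
  rw [e1]
  have h2 := LaWt_sum (D := D) (K2 := K2) hG hν
  have h3 := LaWt_S D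
  have h4 : N * D ≤ ∑ i, LaWt_w D K2 G (ν i) + ∑ i, (D - LaWt_w D K2 G (ν i)) := by
    rw [← Finset.sum_add_distrib]
    have h5 : ∑ _i : Fin N, D ≤ ∑ i, (LaWt_w D K2 G (ν i) + (D - LaWt_w D K2 G (ν i))) :=
      Finset.sum_le_sum fun i _ => by omega
    rw [Finset.sum_const, Finset.card_univ, Fintype.card_fin, smul_eq_mul] at h5
    exact h5
  have h6 : (K2 + 1 + D / G) * (D * (D + 1)) ≤ N * D := by
    calc (K2 + 1 + D / G) * (D * (D + 1)) = (K2 + 1 + D / G) * (D + 1) * D := by ring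
      _ ≤ N * D := Nat.mul_le_mul_right D h1
  have h7 : 2 * ((K2 + 1 + D / G) * ∑ k ∈ Finset.range D, (D - k)) ≤ N * D := by
    calc 2 * ((K2 + 1 + D / G) * ∑ k ∈ Finset.range D, (D - k)) =
        (K2 + 1 + D / G) * (2 * ∑ k ∈ Finset.range D, (D - k)) := by ring
      _ = (K2 + 1 + D / G) * (D * (D + 1)) := by rw [h3]
      _ ≤ N * D := h6
  have h8 : N * D ≤ 2 * ∑ i, LaWt_w D K2 G (ν i) := by omega
  have h9 : (N : ℝ) * D ≤ 2 * ((∑ i, LaWt_w D K2 G (ν i) : ℕ) : ℝ) := by exact_mod_cast h8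
  linarith

end Pool.Agent.NLS
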