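import Pool.Agent.NLS.LaDefs
import Pool.Agent.NLS.LaMaj
import Pool.Agent.NLS.LaWt
import Pool.Agent.NLE.LMaj
import Pool.Agent.GTT.IDet

/-!
# Upper bound for the interpolation determinants

As `NLE.det_upper3`. With `Z = ρ r + q s`, `Y = r + q t` and the small number
`τ = ρ log α₂ + log α₃ - q log α₁` one has
`q (r log α₁ + s log α₂ + t log α₃) = Z log α₂ + Y log α₃ - r τ`, so the entry is
`(C(Z,a) exp (l (log α₂/q) Z)) * ((C(Y,b) exp (l (log α₃/q) Y)) * exp (- l (τ/q) r))`. The three factors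
are expanded in power series (`NLE.maj2`, `maj3_K`, the exponential series) and `GTT.idet_bound` is used
with the weights of `weight4`.
-/

namespace Pool.Agent.NLS

private theorem laup_exp (y : ℝ) :
    HasSum (fun b : ℕ => y ^ b / (b.factorial : ℝ)) (Real.exp y) := by
  rw [Real.exp_eq_exp_ℝ]
  exact NormedSpace.expSeries_div_hasSum_exp y

private theorem laup_mul {f g h : ℕ → ℝ} {x y z : ℝ} (hf : HasSum f x) (hg : HasSum g y)
    (hh : HasSum h z) :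
    HasSum (fun ν : ℕ × ℕ × ℕ => f ν.1 * (g ν.2.1 * h ν.2.2)) (x * (y * z)) := by
  have h4 : HasSum (fun ν : ℕ × ℕ => g ν.1 * h ν.2) (y * z) :=
    hg.mul hh (summable_mul_of_summable_norm hg.summable.norm hh.summable.norm)
  exact hf.mul h4 (summable_mul_of_summable_norm hf.summable.norm h4.summable.norm)

private theorem laup_ent {q rho : ℕ} (hq : 1 ≤ q) {α₁ α₂ α₃ : ℝ} (h1 : 0 < α₁) (h2 : 0 < α₂)
    (h3 : 0 < α₃) (k c l r s t : ℕ) :
    ((((rho * r + q * s : ℕ).choose k : ℕ) : ℝ) *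
      Real.exp ((l : ℝ) * (Real.log α₂ / q) * ((rho * r + q * s : ℕ) : ℝ))) *
    (((((r + q * t : ℕ).choose c : ℕ) : ℝ) *
      Real.exp ((l : ℝ) * (Real.log α₃ / q) * ((r + q * t : ℕ) : ℝ))) *
      Real.exp ((l : ℝ) * (-(rho * Real.log α₂ + Real.log α₃ - q * Real.log α₁) / q) * r)) =
    ent4 q rho α₁ α₂ α₃ k c l r s t := by
  have hr : (q : ℝ) ≠ 0 := by
    have : q ≠ 0 := by omega
    exact_mod_cast this
  have e1 : (α₁ ^ r * α₂ ^ s * α₃ ^ t) ^ l =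
      Real.exp ((l : ℝ) * ((r : ℝ) * Real.log α₁ + (s : ℝ) * Real.log α₂ + (t : ℝ) * Real.log α₃)) := by
    rw [Real.exp_nat_mul, Real.exp_add, Real.exp_add, Real.exp_nat_mul, Real.exp_nat_mul,
      Real.exp_nat_mul, Real.exp_log h1, Real.exp_log h2, Real.exp_log h3]
  have e2 : (l : ℝ) * ((r : ℝ) * Real.log α₁ + (s : ℝ) * Real.log α₂ + (t : ℝ) * Real.log α₃) =
      (l : ℝ) * (Real.log α₂ / q) * ((rho * r + q * s : ℕ) : ℝ) +
        ((l : ℝ) * (Real.log α₃ / q) * ((r + q * t : ℕ) : ℝ) +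
        (l : ℝ) * (-(rho * Real.log α₂ + Real.log α₃ - q * Real.log α₁) / q) * r) := by
    push_cast
    field_simp
    ring
  unfold ent4
  rw [e1, e2, Real.exp_add, Real.exp_add]
  ring

theorem det_upper4 (N D K1 K2 L R1 R2 R3 q rho G : ℕ) (hq : 1 ≤ q) (hK1 : 1 ≤ K1) (hK2 : 1 ≤ K2) (hG : 1 ≤ G)
    (hw : (K2 + 1 + D / G) * (D + 1) ≤ N)
    (aa cc ll rr ss tt : Fin N → ℕ)
    (ha : ∀ i, aa i < K1) (hc : ∀ i, cc i < K2) (hl : ∀ i, ll i < L) (hr : ∀ j, rr j < R1)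
    (hs : ∀ j, ss j < R2) (ht : ∀ j, tt j < R3) (α₁ α₂ α₃ : ℝ) (h1 : 0 < α₁) (h2 : 0 < α₂)
    (h3 : 0 < α₃) (B1 B2 X : ℝ) (hB1 : 1 ≤ B1) (hB2 : 1 ≤ B2)
    (hZ : Real.exp 1 * ((rho : ℝ) * R1 + q * R2) ≤ B1 * K1)
    (hY : (R1 : ℝ) + q * R3 ≤ B2 * K2)
    (hX : (L : ℝ) * (|Real.log α₂| / q * (Real.exp 1 * ((rho : ℝ) * R1 + q * R2)) +
      |Real.log α₃| / q * ((R1 : ℝ) + q * R3) * Real.exp G) ≤ X)
    (hΛ : (L : ℝ) * R1 * |rho * Real.log α₂ + Real.log α₃ - q * Real.log α₁| * Real.exp D ≤ 1) :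
    |(Matrix.of fun i j : Fin N =>
      ent4 q rho α₁ α₂ α₃ (aa i) (cc i) (ll i) (rr j) (ss j) (tt j)).det| ≤
      N.factorial * Real.exp (-((N : ℝ) * D / 2)) *
        ((3 * (B1 + 1)) ^ K1 * (3 * (B2 + 1)) ^ K2 * Real.exp (X + 1)) ^ N := by
  classical
  choose a hA using fun i => NLE.maj2 (aa i) ((ll i : ℝ) * (Real.log α₂ / q))
  choose b hBB using fun i => maj3_K (cc i) K2 (hc i).le ((ll i : ℝ) * (Real.log α₃ / q)) (G : ℝ)
    (Nat.cast_nonneg G)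
  set Λ : ℝ := rho * Real.log α₂ + Real.log α₃ - q * Real.log α₁ with hΛdef
  set δ : ℝ := -Λ / q with hδ
  set Z1 : ℝ := (rho : ℝ) * R1 + q * R2 with hZ1
  set Y1 : ℝ := (R1 : ℝ) + q * R3 with hY1
  have hZ10 : 0 ≤ Z1 := by positivity
  have hY10 : 0 ≤ Y1 := by positivity
  set GG : ℝ := ((3 * (B1 + 1)) ^ K1 * (3 * (B2 + 1)) ^ K2 * Real.exp (X + 1)) with hGG
  have main := GTT.idet_bound (ι := ℕ × ℕ × ℕ) N
    (fun i ν => a i ν.1 * (b i ν.2.1 * (((ll i : ℝ) * δ) ^ ν.2.2 / (ν.2.2.factorial : ℝ))))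
    (fun ν j => ((rho * rr j + q * ss j : ℕ) : ℝ) ^ ν.1 *
      (((rr j + q * tt j : ℕ) : ℝ) ^ ν.2.1 * (rr j : ℝ) ^ ν.2.2))
    (fun ν => Z1 ^ ν.1 * (Y1 ^ ν.2.1 * (R1 : ℝ) ^ ν.2.2))
    (fun ν => if ν.2.2 = 0 then ((ν.1 : ℝ) + (G : ℝ) * ((ν.2.1 - K2 : ℕ) : ℝ)) else (D : ℝ))
    (Matrix.of fun i j : Fin N =>
      ent4 q rho α₁ α₂ α₃ (aa i) (cc i) (ll i) (rr j) (ss j) (tt j)) ?_ ?_ (fun _ => GG) ?_
    ((N : ℝ) * D / 2) (weight4 N D K2 G hG hw)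
  · rw [Finset.prod_const, Finset.card_univ, Fintype.card_fin] at main
    exact main
  · intro i j
    have hs1 := (hA i).1 (rho * rr j + q * ss j)
    have hs2 := (hBB i).1 (rr j + q * tt j)
    have hs3 := laup_exp (((ll i : ℝ) * δ) * rr j)
    have h5 := laup_mul hs1 hs2 hs3
    have h6 := laup_ent hq h1 h2 h3 (rho := rho) (aa i) (cc i) (ll i) (rr j) (ss j) (tt j)
    show HasSum _ (ent4 q rho α₁ α₂ α₃ (aa i) (cc i) (ll i) (rr j) (ss j) (tt j))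
    rw [← h6]
    have h7 : (fun ν : ℕ × ℕ × ℕ => a i ν.1 * (b i ν.2.1 *
        (((ll i : ℝ) * δ) ^ ν.2.2 / (ν.2.2.factorial : ℝ))) *
        (((rho * rr j + q * ss j : ℕ) : ℝ) ^ ν.1 *
          (((rr j + q * tt j : ℕ) : ℝ) ^ ν.2.1 * (rr j : ℝ) ^ ν.2.2))) =
        fun ν : ℕ × ℕ × ℕ => a i ν.1 * ((rho * rr j + q * ss j : ℕ) : ℝ) ^ ν.1 *
          (b i ν.2.1 * ((rr j + q * tt j : ℕ) : ℝ) ^ ν.2.1 *
            ((((ll i : ℝ) * δ) * rr j) ^ ν.2.2 / (ν.2.2.factorial : ℝ))) := by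
      funext ν
      rw [mul_pow ((ll i : ℝ) * δ)]
      ring
    show HasSum (fun ν : ℕ × ℕ × ℕ => a i ν.1 * (b i ν.2.1 *
        (((ll i : ℝ) * δ) ^ ν.2.2 / (ν.2.2.factorial : ℝ))) *
        (((rho * rr j + q * ss j : ℕ) : ℝ) ^ ν.1 *
          (((rr j + q * tt j : ℕ) : ℝ) ^ ν.2.1 * (rr j : ℝ) ^ ν.2.2))) _
    rw [h7]
    exact h5
  · intro ν j
    have e1 : (rr j : ℝ) ≤ R1 := by exact_mod_cast (hr j).le
    have e2 : (ss j : ℝ) ≤ R2 := by exact_mod_cast (hs j).le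
    have e3 : (tt j : ℝ) ≤ R3 := by exact_mod_cast (ht j).le
    have e4 : (0 : ℝ) ≤ rho := Nat.cast_nonneg rho
    have e5 : (0 : ℝ) ≤ q := Nat.cast_nonneg q
    have h4 : ((rho * rr j + q * ss j : ℕ) : ℝ) ≤ Z1 := by
      rw [hZ1]
      push_cast
      exact add_le_add (mul_le_mul_of_nonneg_left e1 e4) (mul_le_mul_of_nonneg_left e2 e5)
    have h5 : ((rr j + q * tt j : ℕ) : ℝ) ≤ Y1 := by
      rw [hY1]
      push_cast
      exact add_le_add e1 (mul_le_mul_of_nonneg_left e3 e5)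
    show |((rho * rr j + q * ss j : ℕ) : ℝ) ^ ν.1 *
      (((rr j + q * tt j : ℕ) : ℝ) ^ ν.2.1 * (rr j : ℝ) ^ ν.2.2)| ≤
      Z1 ^ ν.1 * (Y1 ^ ν.2.1 * (R1 : ℝ) ^ ν.2.2)
    rw [abs_of_nonneg (by positivity)]
    exact mul_le_mul (pow_le_pow_left₀ (Nat.cast_nonneg _) h4 _)
      (mul_le_mul (pow_le_pow_left₀ (Nat.cast_nonneg _) h5 _)
        (pow_le_pow_left₀ (Nat.cast_nonneg _) e1 _) (by positivity) (by positivity))
      (by positivity) (by positivity)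
  · intro i F
    have hq1 : (1 : ℝ) ≤ q := by exact_mod_cast hq
    have hq0 : (0 : ℝ) < q := by linarith
    have hlL : (ll i : ℝ) ≤ L := by exact_mod_cast (hl i).le
    have hl0 : (0 : ℝ) ≤ ll i := Nat.cast_nonneg _
    set y : ℝ := (ll i : ℝ) * δ with hy
    have hδabs : |δ| ≤ |Λ| := by
      rw [hδ, abs_div, abs_neg, abs_of_pos hq0]
      exact div_le_self (abs_nonneg _) hq1
    have hyabs : |y| ≤ L * |Λ| := by
      rw [hy, abs_mul, abs_of_nonneg hl0]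
      exact mul_le_mul hlL hδabs (abs_nonneg _) (Nat.cast_nonneg _)
    set u : ℝ := |y| * R1 * Real.exp D with hu
    have hu0 : 0 ≤ u := by positivity
    have hu1 : u ≤ 1 := by
      rw [hu]
      calc |y| * R1 * Real.exp D ≤ (L * |Λ|) * R1 * Real.exp D := by gcongr
        _ = (L : ℝ) * R1 * |Λ| * Real.exp D := by ring
        _ ≤ 1 := hΛ
    set ρ1 : ℝ := Real.exp 1 * Z1 with hρ1
    have hρ10 : 0 ≤ ρ1 := by positivity
    obtain ⟨hsum1, hbd1⟩ := (hA i).2 ρ1 hρ10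
    obtain ⟨hsum3, hbd3⟩ := (hBB i).2 Y1 hY10
    have hn1 := NLE.maj2_num (ha i).le hK1 hρ10 hB1 hZ
    have hn3 := NLE.maj2_num (hc i).le hK2 hY10 hB2 hY
    have hterm : ∀ ν : ℕ × ℕ × ℕ,
        |a i ν.1 * (b i ν.2.1 * (y ^ ν.2.2 / (ν.2.2.factorial : ℝ)))| *
          (Z1 ^ ν.1 * (Y1 ^ ν.2.1 * (R1 : ℝ) ^ ν.2.2)) *
          Real.exp (if ν.2.2 = 0 then ((ν.1 : ℝ) + (G : ℝ) * ((ν.2.1 - K2 : ℕ) : ℝ)) else (D : ℝ)) ≤
        (|a i ν.1| * ρ1 ^ ν.1) * ((|b i ν.2.1| * Y1 ^ ν.2.1 *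
          Real.exp ((G : ℝ) * ((ν.2.1 - K2 : ℕ) : ℝ))) * (u ^ ν.2.2 / (ν.2.2.factorial : ℝ))) := by
      intro ν
      have e1 : Real.exp (if ν.2.2 = 0 then ((ν.1 : ℝ) + (G : ℝ) * ((ν.2.1 - K2 : ℕ) : ℝ))
            else (D : ℝ)) ≤
          Real.exp 1 ^ ν.1 * Real.exp ((G : ℝ) * ((ν.2.1 - K2 : ℕ) : ℝ)) * Real.exp D ^ ν.2.2 := by
        rw [← Real.exp_nat_mul, ← Real.exp_nat_mul, ← Real.exp_add, ← Real.exp_add]
        apply Real.exp_le_exp.2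
        have e0 : 0 ≤ (G : ℝ) * ((ν.2.1 - K2 : ℕ) : ℝ) :=
          mul_nonneg (Nat.cast_nonneg _) (Nat.cast_nonneg _)
        split_ifs with h
        · rw [h]
          push_cast
          linarith
        · have e2 : (1 : ℝ) ≤ ν.2.2 := by exact_mod_cast Nat.one_le_iff_ne_zero.2 h
          have e3 : (0 : ℝ) ≤ ν.1 := Nat.cast_nonneg _
          have e5 : (0 : ℝ) ≤ D := Nat.cast_nonneg _
          nlinarith
      calc |a i ν.1 * (b i ν.2.1 * (y ^ ν.2.2 / (ν.2.2.factorial : ℝ)))| *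
            (Z1 ^ ν.1 * (Y1 ^ ν.2.1 * (R1 : ℝ) ^ ν.2.2)) *
            Real.exp (if ν.2.2 = 0 then ((ν.1 : ℝ) + (G : ℝ) * ((ν.2.1 - K2 : ℕ) : ℝ)) else (D : ℝ))
          ≤ |a i ν.1 * (b i ν.2.1 * (y ^ ν.2.2 / (ν.2.2.factorial : ℝ)))| *
            (Z1 ^ ν.1 * (Y1 ^ ν.2.1 * (R1 : ℝ) ^ ν.2.2)) *
            (Real.exp 1 ^ ν.1 * Real.exp ((G : ℝ) * ((ν.2.1 - K2 : ℕ) : ℝ)) *
              Real.exp D ^ ν.2.2) :=
            mul_le_mul_of_nonneg_left e1 (by positivity)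
        _ = (|a i ν.1| * ρ1 ^ ν.1) * ((|b i ν.2.1| * Y1 ^ ν.2.1 *
          Real.exp ((G : ℝ) * ((ν.2.1 - K2 : ℕ) : ℝ))) *
          (u ^ ν.2.2 / (ν.2.2.factorial : ℝ))) := by
            rw [abs_mul, abs_mul, abs_div, abs_pow, Nat.abs_cast, hρ1, hu, mul_pow, mul_pow,
              mul_pow]
            ring
    have hF : F ⊆ F.image Prod.fst ×ˢ ((F.image Prod.snd).image Prod.fst ×ˢ
        (F.image Prod.snd).image Prod.snd) :=
      Finset.subset_product.trans (Finset.product_subset_product_right Finset.subset_product)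
    have hXX : |(ll i : ℝ) * (Real.log α₂ / q)| * ρ1 +
        |(ll i : ℝ) * (Real.log α₃ / q)| * Y1 * Real.exp G ≤ X := by
      rw [abs_mul, abs_mul, abs_div, abs_div, abs_of_nonneg hl0, abs_of_pos hq0, hρ1]
      have e1 : 0 ≤ |Real.log α₂| / q * (Real.exp 1 * Z1) +
          |Real.log α₃| / q * Y1 * Real.exp G := by positivity
      calc (ll i : ℝ) * (|Real.log α₂| / q) * (Real.exp 1 * Z1) +
            (ll i : ℝ) * (|Real.log α₃| / q) * Y1 * Real.exp G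
          = ll i * (|Real.log α₂| / q * (Real.exp 1 * Z1) +
            |Real.log α₃| / q * Y1 * Real.exp G) := by ring
        _ ≤ L * (|Real.log α₂| / q * (Real.exp 1 * Z1) +
            |Real.log α₃| / q * Y1 * Real.exp G) := mul_le_mul_of_nonneg_right hlL e1
        _ ≤ X := hX
    calc ∑ ν ∈ F, |a i ν.1 * (b i ν.2.1 * (y ^ ν.2.2 / (ν.2.2.factorial : ℝ)))| *
          (Z1 ^ ν.1 * (Y1 ^ ν.2.1 * (R1 : ℝ) ^ ν.2.2)) *
          Real.exp (if ν.2.2 = 0 then ((ν.1 : ℝ) + (G : ℝ) * ((ν.2.1 - K2 : ℕ) : ℝ)) else (D : ℝ))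
        ≤ ∑ ν ∈ F, (|a i ν.1| * ρ1 ^ ν.1) * ((|b i ν.2.1| * Y1 ^ ν.2.1 *
          Real.exp ((G : ℝ) * ((ν.2.1 - K2 : ℕ) : ℝ))) * (u ^ ν.2.2 / (ν.2.2.factorial : ℝ))) :=
          Finset.sum_le_sum fun ν _ => hterm ν
      _ ≤ ∑ ν ∈ F.image Prod.fst ×ˢ ((F.image Prod.snd).image Prod.fst ×ˢ
            (F.image Prod.snd).image Prod.snd), (|a i ν.1| * ρ1 ^ ν.1) *
            ((|b i ν.2.1| * Y1 ^ ν.2.1 * Real.exp ((G : ℝ) * ((ν.2.1 - K2 : ℕ) : ℝ))) *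
              (u ^ ν.2.2 / (ν.2.2.factorial : ℝ))) :=
          Finset.sum_le_sum_of_subset_of_nonneg hF fun ν _ _ => by positivity
      _ = (∑ m ∈ F.image Prod.fst, |a i m| * ρ1 ^ m) *
          ((∑ m ∈ (F.image Prod.snd).image Prod.fst, |b i m| * Y1 ^ m *
              Real.exp ((G : ℝ) * ((m - K2 : ℕ) : ℝ))) *
            ∑ b ∈ (F.image Prod.snd).image Prod.snd, u ^ b / (b.factorial : ℝ)) := by
          rw [Finset.sum_mul_sum (F.image Prod.snd |>.image Prod.fst), ← Finset.sum_product',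
            Finset.sum_mul_sum, ← Finset.sum_product']
      _ ≤ ((ρ1 + aa i) ^ aa i / (aa i).factorial *
            Real.exp (|(ll i : ℝ) * (Real.log α₂ / q)| * ρ1)) *
          (((Y1 + cc i) ^ cc i / (cc i).factorial *
            Real.exp (|(ll i : ℝ) * (Real.log α₃ / q)| * Y1 * Real.exp G)) * Real.exp u) := by
          refine mul_le_mul ?_ (mul_le_mul ?_
            (sum_le_hasSum _ (fun b _ => by positivity) (laup_exp u))
            (Finset.sum_nonneg fun b _ => by positivity) (by positivity))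
            (by positivity) (by positivity)
          · exact (hsum1.sum_le_tsum _ (fun m _ => by positivity)).trans hbd1
          · exact (hsum3.sum_le_tsum _ (fun m _ => by positivity)).trans hbd3
      _ ≤ ((3 * (B1 + 1)) ^ K1 * Real.exp (|(ll i : ℝ) * (Real.log α₂ / q)| * ρ1)) *
          (((3 * (B2 + 1)) ^ K2 * Real.exp (|(ll i : ℝ) * (Real.log α₃ / q)| * Y1 * Real.exp G)) *
            Real.exp 1) := by
          gcongr
      _ = (3 * (B1 + 1)) ^ K1 * (3 * (B2 + 1)) ^ K2 *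
          Real.exp ((|(ll i : ℝ) * (Real.log α₂ / q)| * ρ1 +
          |(ll i : ℝ) * (Real.log α₃ / q)| * Y1 * Real.exp G) + 1) := by
          rw [Real.exp_add, Real.exp_add]
          ring
      _ ≤ GG := by
          rw [hGG]
          have hB0 : 0 ≤ (3 * (B1 + 1)) ^ K1 * (3 * (B2 + 1)) ^ K2 := by positivity
          exact mul_le_mul_of_nonneg_left (Real.exp_le_exp.2 (by linarith)) hB0

end Pool.Agent.NLS
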