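import Pool.Agent.NLS.LaSet
import Pool.Agent.NLS.LaUp
import Pool.Agent.NLS.LaLow
import Pool.Agent.NLS.LaPick
import Pool.Agent.NLS.LaNum
import Pool.Agent.NLS.LaCmp

/-!
# NLS-LaNon: the non-degenerate case

Boxes `R1 = A g^13`, `R2 = R3 = κ (A g^13)`, `L = g^3`, `K1 = κ (A^2 g^15)`, `K2 = κ (A g^17)`, `D = κ (A^2 g^17)`, `N = K1 K2 L`, and
`ρ = rho - 1`; `α₁ = y / x^k`, `α₂ = x`, `α₃ = x/(x-1)`. An interpolation determinant which does not vanish (`pick4`) is bounded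
from below (`det_lower4`) and from above (`det_upper4`), and the bounds contradict each other (`la_cmp`).
-/

namespace Pool.Agent.NLS

theorem part_non2 {q n x y k rho κ g A : ℕ} (S : Sit2 q n x y k rho κ g A)
    (h : ∀ b : ℕ, ∀ a : ℤ, 1 ≤ b → b < g ^ 8 → (g : ℤ) ^ 8 ≤ |(b : ℤ) * rho - a * q|) : False := by
  obtain ⟨hq2, hn2, hx, hA, hκ, hkκ, hqA, hqx⟩ := S.basic
  have hg := S.hg
  have hg0 : 0 < g := by omega
  have hc : ∀ m : ℕ, 0 < g ^ m := fun m => Nat.pow_pos hg0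
  have hq1 : 1 ≤ q := by omega
  -- `rho` is at least two
  have hrho : 2 ≤ rho := by
    by_contra hlt
    have h1 := S.h1
    have h2 : rho = 1 := by omega
    have h3 := h 1 0 le_rfl (Nat.one_lt_pow (by norm_num) (by omega))
    rw [h2] at h3
    have h4 : (1000 : ℤ) ≤ (g : ℤ) := by exact_mod_cast hg
    have h5 : (g : ℤ) ^ 1 ≤ (g : ℤ) ^ 8 := pow_le_pow_right₀ (by linarith) (by norm_num)
    norm_num at h3
    linarith
  have hr1 : 1 ≤ rho - 1 := by omega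
  have hrq : rho - 1 < q := by
    have := S.h2
    omega
  -- sizes
  have hbq := S.hbq
  have hAg : ∀ m : ℕ, m ≤ 60 → A * g ^ m ≤ A * g ^ 60 := fun m hm =>
    Nat.mul_le_mul_left _ (Nat.pow_le_pow_right hg0 hm)
  have hb2 : 4 * (A * g ^ 60) ≤ q := by
    rw [← mul_assoc]
    exact hbq
  have h13 : 3 * (A * g ^ 13) ≤ q := by
    have h1 := hAg 13 (by norm_num)
    omega
  have hg8 : g ^ 8 ≤ q := by
    have h1 := hAg 8 (by norm_num)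
    have h2 : 1 * g ^ 8 ≤ A * g ^ 8 := Nat.mul_le_mul_right _ hA
    omega
  have hg4 : g ^ 4 ≤ q := (Nat.pow_le_pow_right hg0 (by norm_num)).trans hg8
  have hR1 : 1 ≤ A * g ^ 13 := Nat.mul_pos hA (hc 13)
  have hR2 : 1 ≤ κ * (A * g ^ 13) := Nat.mul_pos hκ hR1
  have hK1 : 1 ≤ κ * (A ^ 2 * g ^ 15) := Nat.mul_pos hκ (Nat.mul_pos (Nat.pow_pos hA) (hc 15))
  have hK2 : 1 ≤ κ * (A * g ^ 17) := Nat.mul_pos hκ (Nat.mul_pos hA (hc 17))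
  -- the integer `G`
  have hlq2 : Real.log 2 ≤ Real.log q := Real.log_le_log (by norm_num) (by exact_mod_cast hq2)
  have hl2 := Real.log_two_gt_d9
  have hlx9 : (9 : ℝ) ≤ Real.log x := by linarith
  obtain ⟨G, hGdef⟩ : ∃ G : ℕ, G = ⌊Real.log x / 2⌋₊ := ⟨_, rfl⟩
  have hG2 : 2 * (G : ℝ) ≤ Real.log x := by
    have h1 := Nat.floor_le (a := Real.log x / 2) (by linarith)
    rw [← hGdef] at h1
    linarith
  have hG3 : Real.log x < 2 * (G : ℝ) + 2 := by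
    have h1 := Nat.lt_floor_add_one (Real.log x / 2)
    rw [← hGdef] at h1
    linarith
  have hG1 : 1 ≤ G := by
    rcases Nat.eq_zero_or_pos G with h0 | h0
    · rw [h0] at hG3
      norm_num at hG3
      linarith
    · exact h0
  have hG1R : (1 : ℝ) ≤ G := by exact_mod_cast hG1
  have hAG : A ≤ 8 * G := by
    have h1 := S.hA2
    have h2 : (A : ℝ) ≤ ((8 * G : ℕ) : ℝ) := by
      push_cast
      linarith
    exact_mod_cast h2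
  obtain ⟨n1, n2, n3, n4, n5, n6, n7⟩ := la_num hg hκ hA hAG hG1
  -- the numbers `α`
  have hx2 : 2 ≤ x := by omega
  have hxR : (2 : ℝ) ≤ x := by exact_mod_cast hx2
  have hx1N : 1 ≤ x - 1 := by omega
  have hx1 : (1 : ℝ) ≤ ((x - 1 : ℕ) : ℝ) := by exact_mod_cast hx1N
  have hx1x : ((x - 1 : ℕ) : ℝ) ≤ x := by exact_mod_cast Nat.sub_le x 1
  obtain ⟨hy1, hrel0, hrel1⟩ := S.rel
  obtain ⟨heta0, heta1⟩ := S.eta
  have hyR : (0 : ℝ) < y := by exact_mod_cast hy1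
  have hxk : (0 : ℝ) < ((x ^ k : ℕ) : ℝ) := by
    have : 0 < x ^ k := Nat.pow_pos (by omega)
    exact_mod_cast this
  have hα1 : (0 : ℝ) < (y : ℝ) / ((x ^ k : ℕ) : ℝ) := div_pos hyR hxk
  have hα3 : (0 : ℝ) < (x : ℝ) / ((x - 1 : ℕ) : ℝ) := div_pos (by linarith) (by linarith)
  obtain ⟨aa, cc, ll, rr, ss, tt, ha, hcc, hl, hr, hs, ht, hdet⟩ :=
    pick4 (q := q) (rho := rho - 1) (R1 := A * g ^ 13) (R2 := κ * (A * g ^ 13)) (R3 := κ * (A * g ^ 13))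
      (K1 := κ * (A ^ 2 * g ^ 15)) (K2 := κ * (A * g ^ 17)) (L := g ^ 3)
      (N := κ * (A ^ 2 * g ^ 15) * (κ * (A * g ^ 17)) * g ^ 3)
      (α₁ := (y : ℝ) / ((x ^ k : ℕ) : ℝ)) (α₂ := (x : ℝ)) (α₃ := (x : ℝ) / ((x - 1 : ℕ) : ℝ))
      hα1 (by linarith) hα3 (by omega) S.hcop hR1 hR2 hR2 hK1 hK2 (hc 3) (by omega) n1 n2 n3 n3 n4
      (fun B C hB hC hd => la_nd hg hκ hA S.h1 hg8 h B C hB hC hd) n5 n6 rfl
  -- the lower bound
  have hlx0 : 0 ≤ Real.log x := by linarith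
  have hH1 : Real.log ((x ^ k : ℕ) : ℝ) ≤ (κ : ℝ) * A := by
    rw [Nat.cast_pow, Real.log_pow]
    have h1 : (k : ℝ) ≤ κ := by exact_mod_cast hkκ
    exact mul_le_mul h1 S.hA1 hlx0 (Nat.cast_nonneg _)
  have hH3 : Real.log ((x - 1 : ℕ) : ℝ) ≤ (A : ℝ) :=
    (Real.log_le_log (by linarith) hx1x).trans S.hA1
  have hlow := det_lower4 (κ * (A ^ 2 * g ^ 15) * (κ * (A * g ^ 17)) * g ^ 3) (g ^ 3)
    (3 * (A * g ^ 13)) (3 * (κ * (A * g ^ 13))) q (rho - 1) aa cc ll rr ss tt hl hr ht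
    y (x ^ k) x x (x - 1) (Nat.pow_pos (by omega)) hx1N ((κ : ℝ) * A) (A : ℝ) hH1 hH3 hdet
  -- the upper bound
  have hB2 : (1 : ℝ) ≤ 6 * (q : ℝ) / (g : ℝ) ^ 4 := by
    have h0 : (0 : ℝ) < (g : ℝ) ^ 4 := by
      have : (0 : ℝ) < g := by exact_mod_cast hg0
      positivity
    rw [le_div_iff₀ h0, one_mul]
    have h1 : (g : ℝ) ^ 4 ≤ q := by exact_mod_cast hg4
    have h2 : (1 : ℝ) ≤ q := by exact_mod_cast hq1
    linarith
  have hup := det_upper4 (κ * (A ^ 2 * g ^ 15) * (κ * (A * g ^ 17)) * g ^ 3) (κ * (A ^ 2 * g ^ 17))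
    (κ * (A ^ 2 * g ^ 15)) (κ * (A * g ^ 17)) (g ^ 3) (3 * (A * g ^ 13)) (3 * (κ * (A * g ^ 13)))
    (3 * (κ * (A * g ^ 13))) q (rho - 1) G hq1 hK1 hK2 hG1 n7 aa cc ll rr ss tt ha hcc hl hr hs ht
    ((y : ℝ) / ((x ^ k : ℕ) : ℝ)) (x : ℝ) ((x : ℝ) / ((x - 1 : ℕ) : ℝ)) hα1 (by linarith) hα3
    (q : ℝ) (6 * (q : ℝ) / (g : ℝ) ^ 4) (29 * κ * A ^ 2 * g ^ 16) (by exact_mod_cast hq1) hB2
    (la_Z hg hκ hA hrq.le) (la_Y hg hκ hA hq1)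
    (la_X hg hκ hA hq1 hrq.le hx2 S.hA1 hG2 heta0 heta1)
    (la_Lam hg hκ hA hx2 S.hA2 S.hbig hrel0 hrel1)
  refine la_cmp (κ := κ) (A := A) (g := g) (q := q)
    (N := κ * (A ^ 2 * g ^ 15) * (κ * (A * g ^ 17)) * g ^ 3) (D := κ * (A ^ 2 * g ^ 17))
    (K1 := κ * (A ^ 2 * g ^ 15)) (K2 := κ * (A * g ^ 17))
    (H := ((g ^ 3 : ℕ) : ℝ) * (((3 * (A * g ^ 13) : ℕ) : ℝ) * ((κ : ℝ) * A) +
      ((3 * (κ * (A * g ^ 13)) : ℕ) : ℝ) * (A : ℝ)))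
    hg hκ hA S.hbq S.hlq hqA rfl rfl rfl rfl ?_ hlow hup
  refine le_of_eq ?_
  push_cast
  ring

end Pool.Agent.NLS
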