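import Pool.Agent.NLS.LaSet
import Pool.Agent.NLE.LFin
import Pool.Agent.NLE.SameU

/-!
# NLS-LaPar: choice of the parameters

PLAN.  As `NLE.exists_sit` (Pool/Agent/NLE/LPar.lean). `M = ⌈100/ε⌉₊ + 1`, `g` = the largest natural with `g^M ≤ q`
(`q < (g+1)^M`), so `log q ≤ M log (g+1)` and for large `q`: `20 log (50 q) ≤ 20 log 50 + 20 M log (g+1) ≤ g`, `g ≥ 1000`.
`x ≥ q^C`, `C ≥ 13`, by `NLE.partL C` (if `x ≤ q^C` there is no solution); `q` is prime to `n - 1` by `NLE.pair_same_u` with `n1 = 1`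
(`lapar_cop`; `q` odd). `A = ⌈log x⌉₊`: `log x ≤ A ≤ log x + 1 ≤ 2 log x`
(`log x ≥ 13 log q ≥ 9`). `q^ε ≥ (g^M)^ε = g^(M ε) ≥ g^100` (rpow), so `4 A g^60 ≤ 8 log x g^60 ≤ log x g^100 ≤ log x q^ε <
min n q`. `k = (n-1)/q`, `rho = (n-1) % q + 1`, `κ = max k 1 ≤ q` (`n ≤ q^2`); `4 κ A g^60 ≤ n`: if `k = 0` from `< min n q ≤ n`,
otherwise `4 k A g^60 ≤ k q ≤ n - 1`.
-/

namespace Pool.Agent.NLS

private theorem lapar_g0 (M : ℕ) : ∃ g0 : ℕ, 1000 ≤ g0 ∧ ∀ g : ℕ, g0 ≤ g →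
    (20 * M + 20 : ℝ) * Real.log (g + 1) ≤ g := by
  have hA : (0 : ℝ) < 20 * M + 20 := by positivity
  have h := Real.isLittleO_log_id_atTop.bound (c := 1 / (2 * (20 * M + 20 : ℝ)))
    (by positivity)
  obtain ⟨a, ha⟩ := Filter.eventually_atTop.1 h
  refine ⟨⌈a⌉₊ + 1000, by omega, fun g hg => ?_⟩
  have h1 : (⌈a⌉₊ : ℝ) + 1000 ≤ g := by exact_mod_cast hg
  have h2 : a ≤ ⌈a⌉₊ := Nat.le_ceil a
  have h3 := ha (g + 1) (by linarith)
  have h4 : (0 : ℝ) ≤ ⌈a⌉₊ := Nat.cast_nonneg _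
  have h5 : Real.log (g + 1) ≤ 1 / (2 * (20 * M + 20 : ℝ)) * (g + 1) := by
    refine (le_abs_self _).trans ?_
    have h6 : ‖(id ((g : ℝ) + 1) : ℝ)‖ = g + 1 := by
      rw [id, Real.norm_eq_abs, abs_of_nonneg (by linarith)]
    rw [h6, Real.norm_eq_abs] at h3
    exact h3
  calc (20 * M + 20 : ℝ) * Real.log (g + 1)
      ≤ (20 * M + 20) * (1 / (2 * (20 * M + 20 : ℝ)) * (g + 1)) :=
        mul_le_mul_of_nonneg_left h5 hA.le
    _ = (g + 1) / 2 := by field_simp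
    _ ≤ g := by linarith

private theorem lapar_find (M : ℕ) (hM : M ≠ 0) (q : ℕ) : ∃ g : ℕ, g ^ M ≤ q ∧ q < (g + 1) ^ M ∧
    ∀ m, m ^ M ≤ q → m ≤ g := by
  refine ⟨Nat.findGreatest (fun g => g ^ M ≤ q) q, ?_, ?_, ?_⟩
  · exact Nat.findGreatest_spec (P := fun g => g ^ M ≤ q) (m := 0) (Nat.zero_le _)
      (by rw [zero_pow hM]; exact Nat.zero_le _)
  · by_contra hc
    push Not at hc
    have h1 : Nat.findGreatest (fun g => g ^ M ≤ q) q + 1 ≤ q :=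
      (Nat.le_self_pow hM _).trans hc
    exact Nat.findGreatest_is_greatest (P := fun g => g ^ M ≤ q) (Nat.lt_succ_self _) h1 hc
  · intro m hm
    exact Nat.le_findGreatest ((Nat.le_self_pow hM _).trans hm) hm

private theorem lapar_pow {ε : ℝ} (hε : 0 < ε) {M g q : ℕ} (hM : 100 / ε ≤ M) (hg : 1000 ≤ g)
    (hq : g ^ M ≤ q) : (g : ℝ) ^ 100 ≤ (q : ℝ) ^ ε := by
  have hg1 : (1 : ℝ) ≤ g := by exact_mod_cast (by omega : 1 ≤ g)
  have h1 : ((g : ℝ) ^ M) ^ ε ≤ (q : ℝ) ^ ε :=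
    Real.rpow_le_rpow (by positivity) (by exact_mod_cast hq) hε.le
  have h2 : (100 : ℝ) ≤ M * ε := by
    rw [div_le_iff₀ hε] at hM
    exact hM
  calc (g : ℝ) ^ 100 = (g : ℝ) ^ ((100 : ℕ) : ℝ) := (Real.rpow_natCast _ _).symm
    _ ≤ (g : ℝ) ^ ((M : ℝ) * ε) := Real.rpow_le_rpow_of_exponent_le hg1 (by exact_mod_cast h2)
    _ = ((g : ℝ) ^ M) ^ ε := by
      rw [Real.rpow_mul (by positivity), Real.rpow_natCast]
    _ ≤ (q : ℝ) ^ ε := h1

private theorem lapar_eight {g : ℕ} (hg : 1000 ≤ g) : (8 : ℝ) * (g : ℝ) ^ 60 ≤ (g : ℝ) ^ 100 := by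
  have h40 : (8 : ℝ) ≤ (g : ℝ) ^ 40 := by
    have h1 : g ^ 1 ≤ g ^ 40 := Nat.pow_le_pow_right (by omega) (by norm_num)
    rw [pow_one] at h1
    have h2 : 8 ≤ g ^ 40 := by omega
    exact_mod_cast h2
  calc (8 : ℝ) * (g : ℝ) ^ 60 ≤ (g : ℝ) ^ 40 * (g : ℝ) ^ 60 :=
        mul_le_mul_of_nonneg_right h40 (by positivity)
    _ = (g : ℝ) ^ 100 := by rw [← pow_add]

/-- Shorey's case: an odd exponent of a solution with a large base is prime to `n - 1` -/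
private theorem lapar_cop : ∃ C : ℕ, ∀ q n x y : ℕ, 1 ≤ q → Odd q → 2 ≤ x → 2 ≤ n → q ^ C ≤ x →
    y ^ q * (x - 1) = x ^ n - 1 → Nat.Coprime ((n - 1) % q) q := by
  obtain ⟨C, hC⟩ := NLE.pair_same_u
  refine ⟨C, fun q n x y hq hodd hx hn hqx heq => ?_⟩
  have hgcd : Nat.gcd ((n - 1) % q) q = Nat.gcd q (n - 1) := (Nat.gcd_rec q (n - 1)).symm
  unfold Nat.Coprime
  rw [hgcd]
  by_contra hne
  obtain ⟨d, hd⟩ : ∃ d, d = Nat.gcd q (n - 1) := ⟨_, rfl⟩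
  rw [← hd] at hne
  obtain ⟨e, he⟩ : d ∣ q := by
    rw [hd]
    exact Nat.gcd_dvd_left _ _
  obtain ⟨k, hk⟩ : d ∣ n - 1 := by
    rw [hd]
    exact Nat.gcd_dvd_right _ _
  have hdo : Odd d := by
    rw [he] at hodd
    exact (Nat.odd_mul.1 hodd).1
  have hd3 : 3 ≤ d := by
    obtain ⟨t, ht⟩ := hdo
    omega
  have hdq : d ≤ q := Nat.le_of_dvd (by omega) ⟨e, he⟩
  have hrep : y ^ q = NL.rep x n := by
    have h1 : NL.rep x n * (x - 1) = x ^ n - 1 := by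
      unfold NL.rep
      have h2 := geom_sum_mul (x : ℤ) n
      have h3 : ((∑ i ∈ Finset.range n, x ^ i : ℕ) : ℤ) * (((x - 1 : ℕ)) : ℤ) = ((x ^ n - 1 : ℕ) : ℤ) := by
        rw [Nat.cast_sub (by omega : 1 ≤ x), Nat.cast_sub (Nat.one_le_pow _ _ (by omega))]
        push_cast
        exact h2
      exact_mod_cast h3
    have h2 : y ^ q * (x - 1) = NL.rep x n * (x - 1) := by rw [heq, h1]
    exact Nat.eq_of_mul_eq_mul_right (by omega) h2
  refine hC d hd3 x 1 n k 1 (y ^ e) ((Nat.pow_le_pow_left hdq C).trans hqx) le_rfl (by omega) (by omega) ?_ ?_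
  · unfold NL.rep
    simp
  · rw [← hrep, ← pow_mul, he, mul_comm e d]

theorem exists_sit2 (ε : ℝ) (hε : 0 < ε) : ∃ q0 : ℕ, ∀ q n x y : ℕ, q0 ≤ q → Odd q → 2 ≤ x → q ≤ 4 * n ^ 2 →
    y ^ q * (x - 1) = x ^ n - 1 → Real.log x * (q : ℝ) ^ ε < ((min n q : ℕ) : ℝ) →
    ∃ k rho κ g A : ℕ, Sit2 q n x y k rho κ g A := by
  obtain ⟨C, hC⟩ := lapar_cop
  obtain ⟨q1, hL⟩ := NLE.partL (max 13 C)
  set M : ℕ := ⌈100 / ε⌉₊ + 1 with hMd
  have hM0 : M ≠ 0 := by omega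
  have hM : 100 / ε ≤ (M : ℝ) := by
    rw [hMd]
    push_cast
    linarith [Nat.le_ceil (100 / ε)]
  obtain ⟨g0, hg0, hg⟩ := lapar_g0 M
  refine ⟨max 2 (max q1 (g0 ^ M)), fun q n x y hq hodd hx hqn heq hlt => ?_⟩
  have hq2 : 2 ≤ q := (le_max_left _ _).trans hq
  have hq : max q1 (g0 ^ M) ≤ q := (le_max_right _ _).trans hq
  obtain ⟨g, h1, h2, h3⟩ := lapar_find M hM0 q
  have h4 : g0 ≤ g := h3 g0 ((le_max_right _ _).trans hq)
  have h5 := hg g h4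
  have h6 : 1000 ≤ g := hg0.trans h4
  have hn1 : 1 ≤ n := by
    rcases Nat.eq_zero_or_pos n with h | h
    · rw [h] at hqn
      omega
    · exact h
  have hqC : q ^ (max 13 C) ≤ x := by
    by_contra hc
    push Not at hc
    exact hL q n x y ((le_max_left _ _).trans hq) hx hc.le hqn heq
  have hqx : q ^ 13 ≤ x := (Nat.pow_le_pow_right (by omega) (le_max_left _ _)).trans hqC
  have hqR : (0 : ℝ) < q := by exact_mod_cast (by omega : 0 < q)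
  have hxR : (0 : ℝ) < x := by exact_mod_cast (by omega : 0 < x)
  have hg1 : (1000 : ℝ) ≤ g := by exact_mod_cast h6
  have hl0 : 0 ≤ Real.log ((g : ℝ) + 1) := Real.log_nonneg (by linarith)
  have hlog : Real.log q ≤ M * Real.log (g + 1) := by
    have h7 : (q : ℝ) ≤ ((g : ℝ) + 1) ^ M := by exact_mod_cast h2.le
    have h8 := Real.log_le_log hqR h7
    rw [Real.log_pow] at h8
    exact_mod_cast h8
  have hlx1 : 1 ≤ Real.log x := by
    have h7 : 3 ≤ x := by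
      have h8 : 2 ^ 13 ≤ q ^ 13 := Nat.pow_le_pow_left hq2 13
      have h9 : (3 : ℕ) ≤ 2 ^ 13 := by norm_num
      omega
    have h7' : (3 : ℝ) ≤ x := by exact_mod_cast h7
    rw [Real.le_log_iff_exp_le hxR]
    have h10 := Real.exp_one_lt_d9
    linarith
  have hA1 : Real.log x ≤ (⌈Real.log x⌉₊ : ℝ) := Nat.le_ceil _
  have hA2 : (⌈Real.log x⌉₊ : ℝ) ≤ 2 * Real.log x := by
    have h7 := Nat.ceil_lt_add_one (show 0 ≤ Real.log x by linarith)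
    linarith
  have hmain : (4 : ℝ) * (⌈Real.log x⌉₊ : ℝ) * (g : ℝ) ^ 60 < ((min n q : ℕ) : ℝ) := by
    have h7 := lapar_pow hε hM h6 h1
    have h8 := lapar_eight h6
    calc (4 : ℝ) * (⌈Real.log x⌉₊ : ℝ) * (g : ℝ) ^ 60
        ≤ 4 * (2 * Real.log x) * (g : ℝ) ^ 60 :=
          mul_le_mul_of_nonneg_right (by linarith) (by positivity)
      _ = Real.log x * (8 * (g : ℝ) ^ 60) := by ring
      _ ≤ Real.log x * (g : ℝ) ^ 100 := mul_le_mul_of_nonneg_left h8 (by linarith)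
      _ ≤ Real.log x * (q : ℝ) ^ ε := mul_le_mul_of_nonneg_left h7 (by linarith)
      _ < ((min n q : ℕ) : ℝ) := hlt
  have hmainN : 4 * ⌈Real.log x⌉₊ * g ^ 60 < min n q := by exact_mod_cast hmain
  have hmn : 4 * ⌈Real.log x⌉₊ * g ^ 60 ≤ n := (hmainN.le).trans (min_le_left _ _)
  have hmq : 4 * ⌈Real.log x⌉₊ * g ^ 60 ≤ q := (hmainN.le).trans (min_le_right _ _)
  have hdm := Nat.div_add_mod (n - 1) q
  have hml := Nat.mod_lt (n - 1) (by omega : 0 < q)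
  refine ⟨(n - 1) / q, (n - 1) % q + 1, max ((n - 1) / q) 1, g, ⌈Real.log x⌉₊, ?_⟩
  have hn2 : 2 ≤ n := by
    have h7 : 1 ≤ g ^ 60 := Nat.one_le_pow _ _ (by omega)
    have h8 : 1 ≤ ⌈Real.log x⌉₊ := by
      have h9 : (0 : ℝ) < (⌈Real.log x⌉₊ : ℝ) := by linarith
      exact_mod_cast h9
    have h9 : 1 ≤ ⌈Real.log x⌉₊ * g ^ 60 := Nat.mul_pos h8 h7
    have h10 : 4 * ⌈Real.log x⌉₊ * g ^ 60 = 4 * (⌈Real.log x⌉₊ * g ^ 60) := by ring
    omega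
  have hcop := hC q n x y (by omega) hodd hx hn2
    ((Nat.pow_le_pow_right (by omega) (le_max_right _ _)).trans hqC) heq
  refine ⟨hq2, by rwa [Nat.add_sub_cancel], h6, ?_, hqx, hA1, hA2, by omega, by omega, by omega, rfl, ?_, hmq, heq⟩
  · have h7 : Real.log (50 * q) = Real.log 50 + Real.log q :=
      Real.log_mul (by norm_num) hqR.ne'
    have h8 : Real.log 50 ≤ Real.log (g + 1) := Real.log_le_log (by norm_num) (by linarith)
    rw [h7]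
    have h9 : (20 * M + 20 : ℝ) * Real.log (g + 1) =
      20 * (M * Real.log (g + 1)) + 20 * Real.log (g + 1) := by ring
    linarith
  · rcases Nat.eq_zero_or_pos ((n - 1) / q) with h | h
    · rw [h, Nat.zero_max, mul_one]
      exact hmn
    · rw [max_eq_left h]
      calc 4 * ((n - 1) / q) * ⌈Real.log x⌉₊ * g ^ 60
          = 4 * ⌈Real.log x⌉₊ * g ^ 60 * ((n - 1) / q) := by ring
        _ ≤ q * ((n - 1) / q) := Nat.mul_le_mul_right _ hmq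
        _ ≤ n := by omega

end Pool.Agent.NLS
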