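import Pool.Agent.NLS.LaDeg
import Pool.Agent.NLS.LaNon
import Pool.Agent.NLS.LaPar

/-!
# NLS-LaFin: PART L*: `log x ≥ min (n, q) q^(-ε)`
-/

namespace Pool.Agent.NLS

/-- **Part L\*** for all `n` with `q ≤ 4 n²` and all odd exponents `q`, prime or not. -/
theorem partL4 (ε : ℝ) (hε : 0 < ε) : ∃ q0 : ℕ, ∀ q n x y : ℕ, q0 ≤ q → Odd q → 2 ≤ x → q ≤ 4 * n ^ 2 →
    y ^ q * (x - 1) = x ^ n - 1 → ((min n q : ℕ) : ℝ) ≤ Real.log x * (q : ℝ) ^ ε := by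
  obtain ⟨q0, h⟩ := exists_sit2 ε hε
  refine ⟨q0, fun q n x y hq hodd hx hqn heq => ?_⟩
  by_contra hcon
  push Not at hcon
  obtain ⟨k, rho, κ, g, A, S⟩ := h q n x y hq hodd hx hqn heq hcon
  by_cases hd : ∃ b : ℕ, ∃ a : ℤ, 1 ≤ b ∧ b < g ^ 8 ∧ |(b : ℤ) * rho - a * q| < (g : ℤ) ^ 8
  · obtain ⟨b, a, h1, h2, h3⟩ := hd
    exact part_deg2 S h1 h2 h3
  · refine part_non2 S fun b a h1 h2 => ?_
    by_contra h3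
    exact hd ⟨b, a, h1, h2, not_le.1 h3⟩

/-- **Part L\*** for all `n` with `q ≤ 4 n²`. -/
theorem partL3 (ε : ℝ) (hε : 0 < ε) : ∃ q0 : ℕ, ∀ q n x y : ℕ, q0 ≤ q → q.Prime → 2 ≤ x → q ≤ 4 * n ^ 2 →
    y ^ q * (x - 1) = x ^ n - 1 → ((min n q : ℕ) : ℝ) ≤ Real.log x * (q : ℝ) ^ ε := by
  obtain ⟨q0, h⟩ := partL4 ε hε
  refine ⟨max 3 q0, fun q n x y hq hp hx hqn heq => ?_⟩
  have hq3 : 3 ≤ q := (le_max_left _ _).trans hq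
  exact h q n x y ((le_max_right _ _).trans hq) (hp.odd_of_ne_two (by omega)) hx hqn heq

theorem partL2 (ε : ℝ) (hε : 0 < ε) : ∃ q0 : ℕ, ∀ q n x y : ℕ, q0 ≤ q → q.Prime → 2 ≤ x → q ≤ 4 * n ^ 2 → n ≤ q ^ 2 →
    y ^ q * (x - 1) = x ^ n - 1 → ((min n q : ℕ) : ℝ) ≤ Real.log x * (q : ℝ) ^ ε := by
  obtain ⟨q0, h⟩ := partL3 ε hε
  exact ⟨q0, fun q n x y hq hp hx hqn _ heq => h q n x y hq hp hx hqn heq⟩

end Pool.Agent.NLS
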