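import Pool.Agent.NLS.VOne
import Pool.Agent.NLS.IdxM

/-!
# NLS-VSq: no solutions for `q > n ^ 2`
-/

open NumberField Finset
open Pool.Agent.AAP Pool.Agent.Helper7.HU

namespace Pool.Agent.NLS

private theorem vsq_large (C : ℝ) (hC : 1 ≤ C) : ∃ n0 : ℕ, ∀ n : ℕ, n0 ≤ n →
    1 ≤ 3 / 4 * Real.log n ∧
      C * Real.exp (3 / 4 * Real.log n) * n * Real.log n ≤ (n : ℝ) ^ 2 := by
  have h1 := ((isLittleO_log_rpow_atTop (r := 1 / 4) (by norm_num)).def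
    (c := 1 / C) (by positivity)).and
    ((Real.tendsto_log_atTop.eventually_ge_atTop (2 : ℝ)).and
      (Filter.eventually_ge_atTop (1 : ℝ)))
  obtain ⟨n0, hn0⟩ := Filter.eventually_atTop.1
    (tendsto_natCast_atTop_atTop.eventually h1)
  refine ⟨n0, fun n hn => ?_⟩
  obtain ⟨h2, h3, h4⟩ := hn0 n hn
  have hn : (0 : ℝ) < n := by linarith
  have hp : (0 : ℝ) < (n : ℝ) ^ (1 / 4 : ℝ) := Real.rpow_pos_of_pos hn _
  rw [Real.norm_eq_abs, Real.norm_eq_abs, abs_of_pos hp] at h2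
  have h5 : C * Real.log n ≤ (n : ℝ) ^ (1 / 4 : ℝ) := by
    have h6 := (le_abs_self _).trans h2
    rw [div_mul_eq_mul_div, one_mul, le_div_iff₀ (by linarith)] at h6
    linarith
  refine ⟨by linarith, ?_⟩
  have h7 : Real.exp (3 / 4 * Real.log n) = (n : ℝ) ^ (3 / 4 : ℝ) := by
    rw [Real.rpow_def_of_pos hn, mul_comm]
  rw [h7]
  calc C * (n : ℝ) ^ (3 / 4 : ℝ) * n * Real.log n =
        (C * Real.log n) * ((n : ℝ) ^ (3 / 4 : ℝ) * n) := by ring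
    _ ≤ (n : ℝ) ^ (1 / 4 : ℝ) * ((n : ℝ) ^ (3 / 4 : ℝ) * n) :=
        mul_le_mul_of_nonneg_right h5 (by positivity)
    _ = (n : ℝ) ^ 2 := by
        rw [← mul_assoc, ← Real.rpow_add hn]
        norm_num
        ring

/-- for large `n` there is no solution with `q > n ^ 2` -/
theorem none_sq2 : ∃ n0 : ℕ, 5 ≤ n0 ∧ ∀ n q x y : ℕ, n.Prime → n0 ≤ n → q.Prime → 1 < x →
    1 < y → y ^ q * (x - 1) = x ^ n - 1 → (q : ℝ) ≤ (n : ℝ) ^ 2 := by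
  obtain ⟨C, hC, hv⟩ := v_one
  obtain ⟨n2, hn2⟩ := vsq_large C hC
  refine ⟨max n2 5, le_max_right _ _, fun n q x y hn hnn hq hx hy heq => ?_⟩
  have hn5 : 5 ≤ n := (le_max_right _ _).trans hnn
  obtain ⟨hρ, hbig⟩ := hn2 n ((le_max_left _ _).trans hnn)
  have hlog : 0 < Real.log n := by linarith
  obtain ⟨hvf, hvc⟩ := hv n hn hn5 (3 / 4 * Real.log n) hρ
  have h1 : Real.log n / (2 * (3 / 4 * Real.log n)) = 2 / 3 := by
    field_simp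
    norm_num
  rw [h1] at hvc
  by_contra hc
  push Not at hc
  have h2 : q ∈ {q : ℕ | q.Prime ∧ C * Real.exp (3 / 4 * Real.log n) * n * Real.log n ≤ q ∧
      ∃ x y : ℕ, 1 < x ∧ 1 < y ∧ y ^ q * (x - 1) = x ^ n - 1} :=
    ⟨hq, hbig.trans hc.le, x, y, hx, hy, heq⟩
  have h3 := (Set.ncard_pos hvf).2 ⟨q, h2⟩
  have h7 : (1 : ℝ) ≤ ({q : ℕ | q.Prime ∧
      C * Real.exp (3 / 4 * Real.log n) * n * Real.log n ≤ q ∧
      ∃ x y : ℕ, 1 < x ∧ 1 < y ∧ y ^ q * (x - 1) = x ^ n - 1}.ncard : ℝ) := by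
    exact_mod_cast h3
  linarith

end Pool.Agent.NLS
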