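import Pool.Agent.NLS.DcUp
import Pool.Agent.NLS.DcCrit
import Pool.Agent.NLS.DcZer
import Pool.Agent.NLS.DcPar
import Pool.Agent.NLS.VSq
import Pool.Agent.NLS.LaFin

/-!
# NLS-DcOne: no solutions for large composite exponents with a small index

`none_whole`: for `M ≥ n ^ (1 + ι + ε)`, by the criterion `crit`. `none_pair`: for `M = q a`, `q` a prime which does not divide `a`,
`q ≥ n ^ (ι + ε)`, `M q ≥ n ^ (1 + ι + ε)`, by the upper bound `upperH` for the base (zero estimate at `q`) and the lower bound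
`partL3` for the exponent `q`.
-/

open NumberField Finset
open Pool.Agent.AAP Pool.Agent.Helper7.HU

namespace Pool.Agent.NLS.DC

theorem none_whole (ι ε : ℝ) (hι : 0 < ι) (hε : 0 < ε) : ∃ n0 : ℕ, ∀ (n : ℕ) [Fact n.Prime] (M x y : ℕ),
    n0 ≤ n → M.Coprime (2 * n) → 3 ≤ M → (n : ℝ) ^ (1 + ι + ε) ≤ M → (M : ℝ) ≤ (n : ℝ) ^ 4 →
    Real.log ((Lq n M).index : ℝ) ≤ ι * ((n - 1) / 2 : ℕ) * Real.log n → 1 < x → 1 < y →
      y ^ M * (x - 1) ≠ x ^ n - 1 := by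
  obtain ⟨n1, hn1⟩ := exists_parCrit ι ε hι hε
  refine ⟨max n1 5, fun n _ M x y hn hcop hM3 hM hM4 hidx hx hy heq => ?_⟩
  have hnp : n.Prime := Fact.out
  have hnn1 : n1 ≤ n := (le_max_left _ _).trans hn
  have hn5 : 5 ≤ n := (le_max_right _ _).trans hn
  have hodd : Odd n := hnp.odd_of_ne_two (by omega)
  have S : Sol n M x y := ⟨hnp, hcop, hn5, hM3, hx, hy, heq⟩
  have hcard : (H n).card = (n - 1) / 2 := card_H n (by omega)
  have hI0 : (0 : ℝ) < ((Lq n M).index : ℝ) := by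
    have := lq_index_ne (n := n) (by omega) M
    positivity
  have hI1 : ((Lq n M).index : ℝ) ≤ Real.exp (ι * ((n - 1) / 2 : ℕ) * Real.log n) := by
    rw [← Real.log_le_iff_le_exp hI0]
    exact hidx
  obtain ⟨k, r, hk, hkm, hr, h1, h2⟩ := hn1 n M ((Lq n M).index : ℝ) hnn1 hodd hM hM4 hI0 hI1
  refine crit S hk (by rw [hcard]; exact hkm) hr ?_ ?_
  · rw [hcard]
    exact_mod_cast h1
  · rw [hcard]
    exact h2

theorem none_pair (ι ε : ℝ) (hι : 0 < ι) (hι' : ι ≤ 1 / 2) (hε : 0 < ε) : ∃ n0 : ℕ, ∀ (n : ℕ) [Fact n.Prime] (q a x y : ℕ),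
    n0 ≤ n → q.Prime → q ≠ n → ¬ q ∣ a → (q * a).Coprime (2 * n) → (n : ℝ) ^ (ι + ε) ≤ q →
    ((q * a : ℕ) : ℝ) ≤ (n : ℝ) ^ 4 → (n : ℝ) ^ (1 + ι + ε) ≤ ((q * a : ℕ) : ℝ) * q →
    Real.log ((Lq n (q * a)).index : ℝ) ≤ ι * ((n - 1) / 2 : ℕ) * Real.log n → 1 < x → 1 < y →
      y ^ (q * a) * (x - 1) ≠ x ^ n - 1 := by
  obtain ⟨δ, γ, hδ, hγ, hpar⟩ := exists_parA ι ε hι hι' hε
  obtain ⟨h, n1, hh, hzer⟩ := lv_zer γ hγ
  obtain ⟨n2, hn2⟩ := hpar h hh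
  obtain ⟨q1, hq1⟩ := partL3 (δ / 2) (by positivity)
  obtain ⟨n3, hn35, hn3⟩ := none_sq2
  -- `n ^ (ι + ε)` is large
  obtain ⟨n4, hn4⟩ := Filter.eventually_atTop.1 ((tendsto_rpow_atTop (show 0 < ι + ε by linarith)).comp
    tendsto_natCast_atTop_atTop |>.eventually_ge_atTop (max (q1 : ℝ) 3))
  refine ⟨max (max n1 n2) (max n3 n4), fun n _ q a x y hn hq hqn hqa hcop hqreg hM4 hMq hidx hx hy heq => ?_⟩
  have hnp : n.Prime := Fact.out
  have hnn1 : n1 ≤ n := ((le_max_left _ _).trans (le_max_left _ _)).trans hn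
  have hnn2 : n2 ≤ n := ((le_max_right _ _).trans (le_max_left _ _)).trans hn
  have hnn3 : n3 ≤ n := ((le_max_left _ _).trans (le_max_right _ _)).trans hn
  have hnn4 : n4 ≤ n := ((le_max_right _ _).trans (le_max_right _ _)).trans hn
  have hn5 : 5 ≤ n := hn35.trans hnn3
  have hbig : max (q1 : ℝ) 3 ≤ q := (hn4 n hnn4).trans hqreg
  have hq1q : q1 ≤ q := by exact_mod_cast (le_max_left _ _).trans hbig
  have hq3 : 3 ≤ q := by exact_mod_cast (le_max_right _ _).trans hbig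
  have ha0 : a ≠ 0 := by
    rintro rfl
    exact hqa (dvd_zero q)
  have ha1 : 1 ≤ a := Nat.one_le_iff_ne_zero.2 ha0
  have hqM : q ≤ q * a := Nat.le_mul_of_pos_right q ha1
  -- the solution with exponent `q`
  have hyq : (y ^ a) ^ q * (x - 1) = x ^ n - 1 := by
    rw [← pow_mul, mul_comm a q]
    exact heq
  have hy1 : 1 < y ^ a := Nat.one_lt_pow ha0 hy
  have hq2 := hn3 n q x (y ^ a) hnp hnn3 hq hx hy1 hyq
  have hodd : Odd n := hnp.odd_of_ne_two (by omega)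
  have S : Sol n (q * a) x y := ⟨hnp, hcop, hn5, hq3.trans hqM, hx, hy, heq⟩
  have hcard : (H n).card = (n - 1) / 2 := card_H n (by omega)
  have hI0 : (0 : ℝ) < ((Lq n (q * a)).index : ℝ) := by
    have := lq_index_ne (n := n) (by omega) (q * a)
    positivity
  have hI1 : ((Lq n (q * a)).index : ℝ) ≤ Real.exp (ι * ((n - 1) / 2 : ℕ) * Real.log n) := by
    rw [← Real.log_le_iff_le_exp hI0]
    exact hidx
  obtain ⟨k, r, N, hk, hkm, hr, hrq, hN, hNq, hH2, hH3, hH4⟩ := hn2 n q (q * a) ((Lq n (q * a)).index : ℝ)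
    hnn2 hodd hqreg hq2 hqM hM4 hMq hI0 hI1
  have hM : MinorH n (q * a) r N (N ^ ⌊γ * (((n - 1) / 2 : ℕ) : ℝ)⌋₊) h := by
    intro K _ _ _ X _ hX hc
    exact hzer n hnn1 q a r N hq hqn ha1 hqa (by omega) hNq.le hrq K X hX hc
  have hub := upperH S hk (by rw [hcard]; exact hkm) (by omega) hh (Nat.one_le_pow _ _ (by omega)) hM
    (by rw [hcard]; exact_mod_cast hH2) (by rw [hcard]; exact hH3)
  rw [hcard] at hub
  have hkR : (0 : ℝ) < k := by exact_mod_cast hk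
  have hqR : (1 : ℝ) < q := by exact_mod_cast hq.one_lt
  have hq0 : (0 : ℝ) < q := by linarith
  have hlx : 0 < Real.log x := Real.log_pos (by exact_mod_cast hx)
  have hq4 : q ≤ n ^ 2 := by exact_mod_cast hq2
  have hlow := hq1 q n x (y ^ a) hq1q hq (by omega) (by omega) hyq
  have h1 : (k : ℝ) * Real.log x * (q : ℝ) ^ δ ≤ k * (Real.log x * (q : ℝ) ^ (δ / 2)) := by
    calc (k : ℝ) * Real.log x * (q : ℝ) ^ δ ≤
          8 * (((n - 1) / 2 : ℕ) : ℝ) * N * Real.log (4 * ((q * a : ℕ) : ℝ) * (N + 1)) * (q : ℝ) ^ δ :=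
            mul_le_mul_of_nonneg_right hub (by positivity)
      _ ≤ k * ((min n q : ℕ) : ℝ) := hH4
      _ ≤ k * (Real.log x * (q : ℝ) ^ (δ / 2)) := mul_le_mul_of_nonneg_left hlow hkR.le
  have h2 : (q : ℝ) ^ (δ / 2) < (q : ℝ) ^ δ := Real.rpow_lt_rpow_of_exponent_lt hqR (by linarith)
  have h3 : (k : ℝ) * (Real.log x * (q : ℝ) ^ (δ / 2)) < k * Real.log x * (q : ℝ) ^ δ := by
    rw [← mul_assoc]
    exact mul_lt_mul_of_pos_left h2 (mul_pos hkR hlx)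
  exact absurd h1 (not_le.2 h3)

end Pool.Agent.NLS.DC
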