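import Mathlib

/-!
# NLS-Hank: a homomorphism is not a combination of few coefficients (linear algebra)

`exists_rows`: linearly independent functions on a finite set have a nonzero minor. `hankel`: a nontrivial
multiplicative function is not a combination of the first `N` members of a sequence of functions satisfying the
addition theorem of divided powers, so the corresponding bordered matrix has a nonzero minor on `X + X`.
-/

open Finset

namespace Pool.Agent.NLS

theorem exists_rows {A K : Type*} [Field K] [DecidableEq A] (d : ℕ) (φ : Fin d → A → K) (Y : Finset A)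
    (h : ∀ c : Fin d → K, (∀ y ∈ Y, ∑ j, c j * φ j y = 0) → c = 0) :
    ∃ v : Fin d → A, (∀ i, v i ∈ Y) ∧ (Matrix.of fun i j : Fin d => φ j (v i)).det ≠ 0 := by
  classical
  let row : A → (Fin d → K) := fun y j => φ j y
  have hspan : Submodule.span K (row '' (Y : Set A)) = ⊤ := by
    by_contra hne
    obtain ⟨f, hf0, hf⟩ := Submodule.exists_le_ker_of_lt_top _ (lt_top_iff_ne_top.2 hne)
    apply hf0
    have hc := h (fun j => f (Pi.single j 1)) (by
      intro y hy
      have h1 : row y ∈ LinearMap.ker f := hf (Submodule.subset_span ⟨y, hy, rfl⟩)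
      rw [LinearMap.mem_ker] at h1
      have h2 : row y = ∑ j, (row y j) • (Pi.single j (1 : K) : Fin d → K) := by
        ext k
        rw [Finset.sum_apply, Finset.sum_eq_single k]
        · simp
        · intro j _ hj
          simp [Ne.symm hj]
        · intro hk
          exact absurd (Finset.mem_univ k) hk
      rw [h2, map_sum] at h1
      rw [← h1]
      apply Finset.sum_congr rfl
      intro j _
      rw [map_smul, smul_eq_mul, mul_comm])
    apply LinearMap.pi_ext'
    intro j
    apply LinearMap.ext_ring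
    exact congrFun hc j
  obtain ⟨s, hs, hspan', hli⟩ := exists_linearIndependent K (row '' (Y : Set A))
  rw [hspan] at hspan'
  let B : Module.Basis s K (Fin d → K) :=
    Module.Basis.mk hli (by rw [Subtype.range_coe]; exact hspan'.ge)
  have hfin : Finite s := Module.Finite.finite_basis B
  have hft : Fintype s := Fintype.ofFinite s
  have hcard : Fintype.card s = d := by
    have h1 := Module.finrank_eq_card_basis B
    rw [Module.finrank_fin_fun] at h1
    exact h1.symm
  let e : Fin d ≃ s := (Fintype.equivFinOfCardEq hcard).symm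
  have hg : ∀ x : s, ∃ y ∈ Y, row y = x := by
    intro x
    obtain ⟨y, hy, hyx⟩ := hs x.2
    exact ⟨y, hy, hyx⟩
  choose g hgY hgr using hg
  refine ⟨fun i => g (e i), fun i => hgY _, ?_⟩
  have h1 : LinearIndependent K (Matrix.of fun i j : Fin d => φ j (g (e i))).row := by
    have h2 : (Matrix.of fun i j : Fin d => φ j (g (e i))).row =
        (fun x : s => (x : Fin d → K)) ∘ e := by
      funext i
      exact hgr (e i)
    rw [h2]
    exact hli.comp e e.injective
  rw [Matrix.linearIndependent_rows_iff_isUnit, Matrix.isUnit_iff_isUnit_det] at h1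
  exact h1.ne_zero

private theorem hank_sum {K : Type*} [Field K] (N : ℕ) (k : ℕ → K) (hk : ∀ j, N ≤ j → k j = 0)
    (F G : ℕ → K) :
    ∑ j ∈ range N, k j * ∑ p ∈ antidiagonal j, F p.1 * G p.2 =
      ∑ a ∈ range N, F a * ∑ d ∈ range N, k (a + d) * G d := by
  have h1 : ∑ a ∈ range N, F a * ∑ d ∈ range N, k (a + d) * G d =
      ∑ p ∈ range N ×ˢ range N, k (p.1 + p.2) * (F p.1 * G p.2) := by
    rw [Finset.sum_product]
    apply Finset.sum_congr rfl
    intro a _
    rw [Finset.mul_sum]
    apply Finset.sum_congr rfl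
    intro d _
    ring
  have h2 : ∑ p ∈ range N ×ˢ range N, k (p.1 + p.2) * (F p.1 * G p.2) =
      ∑ p ∈ (range N ×ˢ range N).filter (fun p => p.1 + p.2 < N),
        k (p.1 + p.2) * (F p.1 * G p.2) := by
    symm
    apply Finset.sum_subset (Finset.filter_subset _ _)
    intro p hp hp'
    rw [Finset.mem_filter, not_and] at hp'
    rw [hk _ (not_lt.1 (hp' hp)), zero_mul]
  rw [h1, h2, ← Finset.sum_fiberwise_of_maps_to (t := range N) (g := fun p : ℕ × ℕ => p.1 + p.2)]
  · apply Finset.sum_congr rfl
    intro j hj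
    rw [Finset.mem_range] at hj
    have h3 : (((range N ×ˢ range N).filter (fun p => p.1 + p.2 < N)).filter
        (fun p : ℕ × ℕ => p.1 + p.2 = j)) = antidiagonal j := by
      ext p
      simp only [Finset.mem_filter, Finset.mem_product, Finset.mem_range,
        Finset.HasAntidiagonal.mem_antidiagonal]
      constructor
      · rintro ⟨_, h⟩
        exact h
      · intro h
        refine ⟨⟨⟨?_, ?_⟩, ?_⟩, h⟩ <;> omega
    rw [h3, Finset.mul_sum]
    apply Finset.sum_congr rfl
    intro p hp
    rw [Finset.HasAntidiagonal.mem_antidiagonal] at hp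
    rw [hp]
  · intro p hp
    rw [Finset.mem_filter] at hp
    exact Finset.mem_range.2 hp.2

theorem hankel {A K : Type*} [AddCommGroup A] [Field K] {N : ℕ} (hN : 1 ≤ N) (P : ℕ → A → K)
    (b : A → K) (X : Finset A) (h0 : 0 ∈ X) (hP0 : ∀ a, P 0 a = 1)
    (hadd : ∀ u ∈ X, ∀ v ∈ X, ∀ j, P j (u + v) = ∑ p ∈ antidiagonal j, P p.1 u * P p.2 v)
    (hb : ∀ u ∈ X, ∀ v ∈ X, b (u + v) = b u * b v) (hb0 : b 0 = 1) (hb1 : ∃ u ∈ X, b u ≠ 1)
    (u : Fin N → A) (hu : ∀ i, u i ∈ X)
    (hdet : (Matrix.of fun i j : Fin N => P (j : ℕ) (u i)).det ≠ 0) :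
    ∃ v : Fin (N + 1) → A, (∀ i, ∃ a ∈ X, ∃ c ∈ X, v i = a + c) ∧
      (Matrix.of fun i j : Fin (N + 1) => if (j : ℕ) < N then P (j : ℕ) (v i) else b (v i)).det ≠
        0 := by
  classical
  by_contra hcon
  push Not at hcon
  -- the key injectivity of the minor
  have hinj : ∀ w : ℕ → K, (∀ i, ∑ a ∈ range N, P a (u i) * w a = 0) → ∀ a < N, w a = 0 := by
    intro w hw a ha
    have h1 : (fun j : Fin N => w j) = 0 := by
      apply Matrix.eq_zero_of_mulVec_eq_zero hdet
      funext i
      have h2 := hw i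
      rw [Finset.sum_range] at h2
      exact h2
    exact congrFun h1 ⟨a, ha⟩
  have hex : ∃ c : Fin (N + 1) → K, (∀ y ∈ (X ×ˢ X).image (fun p => p.1 + p.2),
      ∑ j, c j * (if (j : ℕ) < N then P (j : ℕ) y else b y) = 0) ∧ c ≠ 0 := by
    by_contra hno
    push Not at hno
    obtain ⟨v, hv, hvd⟩ := exists_rows (N + 1)
      (fun j a => if (j : ℕ) < N then P (j : ℕ) a else b a)
      ((X ×ˢ X).image (fun p => p.1 + p.2)) hno
    apply hvd
    apply hcon v
    intro i
    have h1 := hv i
    rw [Finset.mem_image] at h1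
    obtain ⟨p, hp, hpi⟩ := h1
    rw [Finset.mem_product] at hp
    exact ⟨p.1, hp.1, p.2, hp.2, hpi.symm⟩
  obtain ⟨c, hc, hc0⟩ := hex
  have hc' : ∀ y ∈ (X ×ˢ X).image (fun p => p.1 + p.2),
      ∑ j : Fin N, c j.castSucc * P j y + c (Fin.last N) * b y = 0 := by
    intro y hy
    have h1 := hc y hy
    rw [Fin.sum_univ_castSucc] at h1
    simpa using h1
  have hXY : ∀ a ∈ X, ∀ a' ∈ X, a + a' ∈ (X ×ˢ X).image (fun p => p.1 + p.2) := by
    intro a ha a' ha'
    exact Finset.mem_image.2 ⟨(a, a'), Finset.mem_product.2 ⟨ha, ha'⟩, rfl⟩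
  have hX : ∀ a ∈ X, a ∈ (X ×ˢ X).image (fun p => p.1 + p.2) := by
    intro a ha
    have h1 := hXY a ha 0 h0
    rwa [add_zero] at h1
  have hcN : c (Fin.last N) ≠ 0 := by
    intro hcN
    apply hc0
    have h1 := hinj (fun a => if ha : a < N then c (⟨a, ha⟩ : Fin N).castSucc else 0) (by
      intro i
      have h2 := hc' (u i) (hX _ (hu i))
      rw [hcN, zero_mul, add_zero] at h2
      rw [Finset.sum_range, ← h2]
      apply Finset.sum_congr rfl
      intro j _
      rw [dif_pos j.2, mul_comm])
    funext j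
    refine Fin.lastCases ?_ (fun j => ?_) j
    · exact hcN
    · have h3 := h1 j j.2
      rw [dif_pos j.2] at h3
      exact h3
  let k : ℕ → K := fun a => if ha : a < N then -(c (⟨a, ha⟩ : Fin N).castSucc) / c (Fin.last N)
    else 0
  have hk0 : ∀ j, N ≤ j → k j = 0 := by
    intro j hj
    exact dif_neg (not_lt.2 hj)
  have hbk : ∀ y ∈ (X ×ˢ X).image (fun p => p.1 + p.2), b y = ∑ j ∈ range N, k j * P j y := by
    intro y hy
    have h1 := hc' y hy
    have h2 : ∑ j ∈ range N, k j * P j y =
        -(∑ j : Fin N, c j.castSucc * P j y) / c (Fin.last N) := by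
      rw [Finset.sum_range, neg_div, Finset.sum_div, ← Finset.sum_neg_distrib]
      apply Finset.sum_congr rfl
      intro j _
      have h3 : k j = -(c j.castSucc) / c (Fin.last N) := dif_pos j.2
      rw [h3]
      ring
    rw [h2, eq_div_iff hcN]
    linear_combination h1
  have hkey : ∀ v ∈ X, ∀ a < N, ∑ d ∈ range N, k (a + d) * P d v = b v * k a := by
    intro v hv a ha
    have h1 := hinj (fun a => ∑ d ∈ range N, k (a + d) * P d v - b v * k a) (by
      intro i
      have h2 : b (u i + v) = ∑ a ∈ range N, P a (u i) * ∑ d ∈ range N, k (a + d) * P d v := by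
        rw [hbk _ (hXY _ (hu i) _ hv), ← hank_sum N k hk0 (fun j => P j (u i)) (fun j => P j v)]
        apply Finset.sum_congr rfl
        intro j _
        rw [hadd _ (hu i) _ hv]
      have h3 : b v * b (u i) = ∑ a ∈ range N, P a (u i) * (b v * k a) := by
        rw [hbk _ (hX _ (hu i)), Finset.mul_sum]
        apply Finset.sum_congr rfl
        intro j _
        ring
      have h4 := hb _ (hu i) _ hv
      simp only [mul_sub, Finset.sum_sub_distrib]
      rw [← h2, ← h3, h4]
      ring) a ha
    exact sub_eq_zero.1 h1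
  have hne : ∃ a ∈ range N, k a ≠ 0 := by
    by_contra hno
    push Not at hno
    have h1 := hbk 0 (hX _ h0)
    rw [hb0, Finset.sum_eq_zero] at h1
    · exact one_ne_zero h1
    · intro j hj
      rw [hno j hj, zero_mul]
  obtain ⟨a, ha, hamax⟩ := Finset.exists_max_image ((range N).filter (fun a => k a ≠ 0)) id (by
    obtain ⟨a, ha, hka⟩ := hne
    exact ⟨a, Finset.mem_filter.2 ⟨ha, hka⟩⟩)
  rw [Finset.mem_filter, Finset.mem_range] at ha
  obtain ⟨v, hv, hv1⟩ := hb1
  apply hv1
  have h1 := hkey v hv a ha.1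
  rw [Finset.sum_eq_single 0] at h1
  · rw [add_zero, hP0, mul_one] at h1
    have h2 : (b v - 1) * k a = 0 := by linear_combination -h1
    rcases mul_eq_zero.1 h2 with h3 | h3
    · exact sub_eq_zero.1 h3
    · exact absurd h3 ha.2
  · intro d hd hd0
    have h3 : k (a + d) = 0 := by
      by_contra h4
      have h5 : a + d < N := by
        by_contra h6
        exact h4 (hk0 _ (not_lt.1 h6))
      have h7 := hamax (a + d) (Finset.mem_filter.2 ⟨Finset.mem_range.2 h5, h4⟩)
      simp only [id] at h7
      omega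
    rw [h3, zero_mul]
  · intro h
    exact absurd (Finset.mem_range.2 (by omega)) h

end Pool.Agent.NLS
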