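import Pool.Agent.NLS.Defs

/-!
# NLS-UnitRt: units times `q`-th powers

`K` has no primitive `q`-th root of unity, so `q`-th roots are unique (`root_unique`). The elements `pr s` have norm one
at all complex embeddings. If `pr s = u g ^ q` with a unit `u`, then with the complex conjugation `c` of `K` one gets
`(pr s) ^ 2 = (u / c u) (g / c g) ^ q`; `u / c u` is a root of unity of order prime to `q`, so it is a `q`-th power, and
so is `pr s`, as `q` is odd (`unit_root`).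
-/

open NumberField Finset
open Pool.Agent.AAP Pool.Agent.Helper7.HU

namespace Pool.Agent.NLS

variable {n : ℕ} [Fact n.Prime] {K : Type} [Field K] [NumberField K] [IsCyclotomicExtension {n} ℚ K]
  {q x : ℕ}

private theorem unitrt_not_dvd (hq : q.Prime) (hq3 : 3 ≤ q) (hqn : q ≠ n) : ¬ q ∣ 2 * n := by
  intro h
  rcases (Nat.Prime.dvd_mul hq).1 h with h | h
  · exact absurd (Nat.le_of_dvd two_pos h) (by omega)
  · exact hqn ((Nat.prime_dvd_prime_iff_eq hq (Fact.out : n.Prime)).1 h)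

theorem root_unique (hq : q.Prime) (hq3 : 3 ≤ q) (hqn : q ≠ n) {b c : K} (h : b ^ q = c ^ q) :
    b = c := by
  by_cases hc : c = 0
  · rw [hc, zero_pow hq.ne_zero] at h
    rw [hc]
    exact eq_zero_of_pow_eq_zero h
  by_contra hbc
  have h1 : (b / c) ^ q = 1 := by
    rw [div_pow, h, div_self (pow_ne_zero _ hc)]
  have h2 : b / c ≠ 1 := fun h2 => hbc ((div_eq_one_iff_eq hc).1 h2)
  have : Fact q.Prime := ⟨hq⟩
  have h3 : orderOf (b / c) = q := orderOf_eq_prime h1 h2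
  have h4 : IsPrimitiveRoot (b / c) q := by
    rw [← h3]
    exact IsPrimitiveRoot.orderOf _
  exact unitrt_not_dvd hq hq3 hqn (h4.dvd_of_isCyclotomicExtension n hq.ne_zero)

private theorem unitrt_zp_mul (a : (ZMod n)ˣ) : zp n K a * zp n K (-a) = 1 := by
  unfold zp
  rw [← pow_add]
  have hn1 : Fact (1 < n) := ⟨(Fact.out : n.Prime).one_lt⟩
  have h0 : (a : ZMod n) ≠ 0 := a.ne_zero
  have h1 : ((-a : (ZMod n)ˣ) : ZMod n).val = n - (a : ZMod n).val := by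
    rw [Units.val_neg, ZMod.neg_val, if_neg h0]
  rw [h1, Nat.add_sub_cancel' (ZMod.val_lt _).le]
  exact (zO_spec n K).pow_eq_one

private theorem unitrt_conj_inv {z : ℂ} {k : ℕ} (hk : k ≠ 0) (h : z ^ k = 1) :
    starRingEnd ℂ z = z⁻¹ :=
  (Complex.inv_eq_conj (Complex.norm_eq_one_of_pow_eq_one h hk)).symm

private theorem unitrt_conj_lin (τ : K →+* ℂ) (a : (ZMod n)ˣ) :
    starRingEnd ℂ (τ ((lin n K x a : 𝓞 K) : K)) = τ ((lin n K x (-a) : 𝓞 K) : K) := by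
  have h1 : τ (algebraMap (𝓞 K) K (zp n K a)) ^ n = 1 := by
    rw [← map_pow, ← map_pow, zp_pow_n, map_one, map_one]
  have h2 : τ (algebraMap (𝓞 K) K (zp n K a)) * τ (algebraMap (𝓞 K) K (zp n K (-a))) = 1 := by
    rw [← map_mul, ← map_mul, unitrt_zp_mul, map_one, map_one]
  have h3 : starRingEnd ℂ (τ (algebraMap (𝓞 K) K (zp n K a))) =
      τ (algebraMap (𝓞 K) K (zp n K (-a))) := by
    rw [unitrt_conj_inv (Fact.out : n.Prime).ne_zero h1]
    exact inv_eq_of_mul_eq_one_right h2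
  change starRingEnd ℂ (τ (algebraMap (𝓞 K) K ((x : 𝓞 K) - zp n K a))) =
    τ (algebraMap (𝓞 K) K ((x : 𝓞 K) - zp n K (-a)))
  rw [map_sub (algebraMap (𝓞 K) K), map_sub (algebraMap (𝓞 K) K), map_sub τ, map_sub τ, map_sub,
    h3, map_natCast (algebraMap (𝓞 K) K), map_natCast τ, map_natCast]

theorem norm_al (hx : 1 < x) (τ : K →+* ℂ) (a : (ZMod n)ˣ) : ‖τ (al n K x a)‖ = 1 := by
  unfold al
  rw [map_div₀, norm_div, ← unitrt_conj_lin, RCLike.norm_conj]
  refine div_self (norm_ne_zero_iff.2 ?_)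
  exact (_root_.map_ne_zero τ).2 (lin_coe_ne_zero hx a)

theorem norm_pr (hx : 1 < x) (τ : K →+* ℂ) (s : H n → ℤ) : ‖τ (pr n K x s)‖ = 1 := by
  unfold pr
  rw [map_prod, norm_prod]
  refine Finset.prod_eq_one fun e _ => ?_
  rw [map_zpow₀, norm_zpow, norm_al hx, one_zpow]

/-- the complex conjugation of `K` -/
private theorem unitrt_conj (τ : K →+* ℂ) (z : K) :
    τ ((gq n K).symm (-1) z) = starRingEnd ℂ (τ z) := by
  have hn1 : Fact (1 < n) := ⟨(Fact.out : n.Prime).one_lt⟩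
  have h1 : (gq n K).symm (-1) (zt n K) = (zt n K)⁻¹ := by
    rw [gq_spec, MulEquiv.apply_symm_apply, Units.val_neg, Units.val_one, ZMod.neg_val,
      if_neg one_ne_zero, ZMod.val_one]
    have h2 : zt n K ^ (n - 1) * zt n K = 1 := by
      rw [← pow_succ, Nat.sub_add_cancel (Fact.out : n.Prime).one_lt.le]
      exact (zt_spec n K).pow_eq_one
    exact eq_inv_of_mul_eq_one_left h2
  have h3 : τ (zt n K) ^ n = 1 := by
    rw [← map_pow, (zt_spec n K).pow_eq_one, map_one]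
  let f : K →ₐ[ℚ] ℂ := (τ.comp ((gq n K).symm (-1) : K →+* K)).toRatAlgHom
  let g : K →ₐ[ℚ] ℂ := ((starRingEnd ℂ).comp τ).toRatAlgHom
  have h4 : f = g := by
    refine ((zt_spec n K).powerBasis ℚ).algHom_ext ?_
    rw [IsPrimitiveRoot.powerBasis_gen]
    show τ ((gq n K).symm (-1) (zt n K)) = starRingEnd ℂ (τ (zt n K))
    rw [h1, map_inv₀, unitrt_conj_inv (Fact.out : n.Prime).ne_zero h3]
  exact DFunLike.congr_fun h4 z

theorem unit_root (hn3 : 3 ≤ n) (hq : q.Prime) (hq3 : 3 ≤ q) (hqn : q ≠ n) (hx : 1 < x)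
    {s : H n → ℤ} {g : K} {u : (𝓞 K)ˣ} (hg : g ≠ 0)
    (h : pr n K x s = ((u : 𝓞 K) : K) * g ^ q) : ∃ b : K, b ^ q = pr n K x s := by
  set c : Gal(K/ℚ) := (gq n K).symm (-1) with hc
  have hcτ : ∀ (τ : K →+* ℂ) (z : K), τ (c z) = starRingEnd ℂ (τ z) := unitrt_conj
  obtain ⟨τ⟩ : Nonempty (K →+* ℂ) := inferInstance
  set P : K := pr n K x s with hP
  have hP0 : P ≠ 0 := pr_ne_zero hx s
  have hcP : c P = P⁻¹ := by
    apply τ.injective
    rw [hcτ, map_inv₀, Complex.inv_eq_conj (norm_pr hx τ s)]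
  have hu0 : ((u : 𝓞 K) : K) ≠ 0 := by
    intro h0
    rw [h0, zero_mul] at h
    exact hP0 h
  set w : K := ((u : 𝓞 K) : K) / c ((u : 𝓞 K) : K) with hw
  have hcu0 : c ((u : 𝓞 K) : K) ≠ 0 := (_root_.map_ne_zero c).2 hu0
  have hcg0 : c g ≠ 0 := (_root_.map_ne_zero c).2 hg
  have hP2 : P ^ 2 = w * (g / c g) ^ q := by
    have h1 : c P = c ((u : 𝓞 K) : K) * c g ^ q := by rw [h, map_mul, map_pow]
    have h2 : P ^ 2 = P / c P := by
      rw [hcP]
      field_simp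
    rw [h2, h1, hw, div_pow, h, mul_div_mul_comm]
  -- `w` is a root of unity
  have hwi : IsIntegral ℤ w := by
    have h1 : w = ((u : 𝓞 K) : K) * c (((u⁻¹ : (𝓞 K)ˣ) : 𝓞 K) : K) := by
      have h2 : ((u : 𝓞 K) : K) * (((u⁻¹ : (𝓞 K)ˣ) : 𝓞 K) : K) = 1 := by
        rw [← map_mul, Units.mul_inv, map_one]
      have h3 : c ((u : 𝓞 K) : K) * c (((u⁻¹ : (𝓞 K)ˣ) : 𝓞 K) : K) = 1 := by
        rw [← map_mul, h2, map_one]
      rw [hw, div_eq_mul_inv]
      congr 1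
      exact inv_eq_of_mul_eq_one_right h3
    rw [h1]
    refine (RingOfIntegers.isIntegral_coe _).mul ?_
    exact (RingOfIntegers.isIntegral_coe (((u⁻¹ : (𝓞 K)ˣ) : 𝓞 K))).map
      ((c : K →+* K).toIntAlgHom)
  have hwn : ∀ τ : K →+* ℂ, ‖τ w‖ = 1 := by
    intro τ
    rw [hw, map_div₀, norm_div, hcτ, RCLike.norm_conj]
    exact div_self (norm_ne_zero_iff.2 ((_root_.map_ne_zero τ).2 hu0))
  obtain ⟨N, hN, hwN⟩ := NumberField.Embeddings.pow_eq_one_of_norm_eq_one K ℂ hwi hwn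
  have hfin : IsOfFinOrder w := isOfFinOrder_iff_pow_eq_one.2 ⟨N, hN, hwN⟩
  have hord : orderOf w ∣ 2 * n :=
    (IsPrimitiveRoot.orderOf w).dvd_of_isCyclotomicExtension n hfin.orderOf_pos.ne'
  have hcop : Nat.Coprime q (orderOf w) := by
    rw [Nat.Prime.coprime_iff_not_dvd hq]
    exact fun h1 => unitrt_not_dvd (n := n) hq hq3 hqn (h1.trans hord)
  obtain ⟨k, hk⟩ := exists_pow_eq_self_of_coprime hcop
  have hk' : (w ^ k) ^ q = w := by
    rw [← pow_mul, mul_comm, pow_mul]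
    exact hk
  set b₂ : K := w ^ k * (g / c g) with hb₂
  have hb : b₂ ^ q = P ^ 2 := by
    rw [hb₂, mul_pow, hk', hP2]
  have hodd : Odd q := hq.odd_of_ne_two (by omega)
  obtain ⟨m, hm⟩ := hodd
  refine ⟨P * (b₂⁻¹) ^ m, ?_⟩
  have h5 : ((b₂⁻¹) ^ m) ^ q = ((P ^ 2)⁻¹) ^ m := by
    rw [← pow_mul, mul_comm, pow_mul, inv_pow, hb]
  rw [mul_pow, h5, inv_pow, ← pow_mul]
  have h6 : P ^ q = P * P ^ (2 * m) := by
    rw [hm, pow_succ, mul_comm]
  rw [h6, mul_assoc, mul_inv_cancel₀ (pow_ne_zero _ hP0), mul_one]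

end Pool.Agent.NLS
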