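import Pool.Agent.NLS.Rows
import Pool.Agent.NLS.UnitRt
import Pool.Agent.NLS.IdxM

/-!
# NLS-IdxT: the index of the lattice `Lam q hx T`

`Lq n q ≤ Lam q hx ∅`: the rows of the sign matrix by `rows_unit` and `unit_root`, and `pr (q • v) = (pr v) ^ q`. Adding
an embedding `τ` to `T` multiplies the index by at most `q`: for `s` with root `b` the number
`τ b * exp (-i ang s / q)` is a `q`-th root of unity, and two elements with the same root of unity differ by an
element of the smaller lattice.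
-/

open NumberField Finset
open Pool.Agent.AAP Pool.Agent.Helper7.HU

namespace Pool.Agent.NLS

variable {n : ℕ} [Fact n.Prime] {K : Type} [Field K] [NumberField K] [IsCyclotomicExtension {n} ℚ K]
  {q x y : ℕ}

private theorem idxt_pr_nsmul (x q : ℕ) (v : H n → ℤ) : pr n K x (q • v) = pr n K x v ^ q := by
  unfold pr
  rw [← Finset.prod_pow]
  refine Finset.prod_congr rfl fun e _ => ?_
  rw [Pi.smul_apply, nsmul_eq_mul, mul_comm, zpow_mul, zpow_natCast]

private theorem idxt_row (S : Sol n q x y) (b : H n) :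
    (M n b : H n → ℤ) ∈ Lam (K := K) q S.hx ∅ := by
  obtain ⟨g, u, hg, h⟩ := rows_unit (K := K) S b
  have h5 := S.hn5
  obtain ⟨c, hc⟩ := unit_root (by omega) S.hq S.hq3 S.hqn S.hx hg h
  exact ⟨c, hc, fun τ hτ => absurd hτ (Finset.notMem_empty τ)⟩

theorem lq_le_lam (S : Sol n q x y) : Lq n q ≤ Lam (K := K) q S.hx ∅ := by
  refine sup_le ?_ ?_
  · rintro s ⟨c, rfl⟩
    have h1 : (Matrix.vecMulLinear (M n)).toAddMonoidHom c = ∑ b, c b • (M n b : H n → ℤ) := by
      change Matrix.vecMul c (M n) = _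
      rw [Matrix.vecMul_eq_sum]
    rw [h1]
    exact AddSubgroup.sum_mem _ fun b _ => AddSubgroup.zsmul_mem _ (idxt_row S b) _
  · rintro s ⟨v, rfl⟩
    refine ⟨pr n K x v, ?_, fun τ hτ => absurd hτ (Finset.notMem_empty τ)⟩
    exact (idxt_pr_nsmul x q v).symm

private theorem idxt_tau_pr (hx : 1 < x) (τ : K →+* ℂ) (s : H n → ℤ) :
    τ (pr n K x s) = Complex.exp (((ang n K x τ s : ℝ) : ℂ) * Complex.I) := by
  unfold pr ang
  rw [map_prod, Complex.ofReal_sum, Finset.sum_mul, Complex.exp_sum]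
  refine Finset.prod_congr rfl fun e _ => ?_
  rw [map_zpow₀]
  have h1 := Complex.norm_mul_exp_arg_mul_I (τ (al n K x (e : (ZMod n)ˣ)))
  rw [norm_al hx, Complex.ofReal_one, one_mul] at h1
  rw [Complex.ofReal_mul, Complex.ofReal_intCast, mul_assoc, Complex.exp_int_mul, h1]

private theorem idxt_sub [DecidableEq (K →+* ℂ)] (hx : 1 < x) {T : Finset (K →+* ℂ)} (τ : K →+* ℂ) {s t : H n → ℤ}
    {b c : K} (hb : IsRt n q x T s b) (hc : IsRt n q x T t c)
    (h : τ b * Complex.exp (-(((ang n K x τ s / q : ℝ) : ℂ) * Complex.I)) =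
      τ c * Complex.exp (-(((ang n K x τ t / q : ℝ) : ℂ) * Complex.I))) (hb0 : b ≠ 0) :
    IsRt n q x (insert τ T) (-s + t) (b⁻¹ * c) := by
  have h0 := hb.neg.add hx hc
  refine ⟨h0.1, fun σ hσ => ?_⟩
  rcases Finset.mem_insert.1 hσ with rfl | hσ
  · have hσb : σ b ≠ 0 := by
      intro h1
      exact hb0 ((map_eq_zero σ).1 h1)
    rw [Complex.exp_neg, Complex.exp_neg] at h
    rw [map_mul, map_inv₀, ang_add, ang_neg]
    have h1 : ((((-ang n K x σ s + ang n K x σ t) / q : ℝ) : ℂ) * Complex.I) =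
        (((ang n K x σ t / q : ℝ) : ℂ) * Complex.I) -
          (((ang n K x σ s / q : ℝ) : ℂ) * Complex.I) := by
      push_cast
      ring
    rw [h1, Complex.exp_sub]
    have h2 := Complex.exp_ne_zero (((ang n K x σ s / q : ℝ) : ℂ) * Complex.I)
    have h3 := Complex.exp_ne_zero (((ang n K x σ t / q : ℝ) : ℂ) * Complex.I)
    field_simp at h ⊢
    rw [mul_comm] at h
    linear_combination -h
  · exact h0.2 σ hσ

private theorem idxt_root (hx : 1 < x) (hq0 : q ≠ 0) {T : Finset (K →+* ℂ)} (τ : K →+* ℂ)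
    {s : H n → ℤ} {b : K} (hb : IsRt n q x T s b) :
    (τ b * Complex.exp (-(((ang n K x τ s / q : ℝ) : ℂ) * Complex.I))) ^ q = 1 := by
  rw [mul_pow, ← map_pow, hb.1, idxt_tau_pr hx, ← Complex.exp_nat_mul, ← Complex.exp_add,
    ← Complex.exp_zero]
  congr 1
  have h1 : (q : ℂ) ≠ 0 := Nat.cast_ne_zero.2 hq0
  push_cast
  field_simp
  ring

private theorem idxt_step [DecidableEq (K →+* ℂ)] (hx : 1 < x) (hq0 : q ≠ 0) (T : Finset (K →+* ℂ)) (τ : K →+* ℂ) :
    (Lam (n := n) (K := K) q hx (insert τ T)).relIndex (Lam q hx T) ≠ 0 ∧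
      (Lam (n := n) (K := K) q hx (insert τ T)).relIndex (Lam q hx T) ≤ q := by
  set A := Lam (n := n) (K := K) q hx T with hA
  set B := (Lam (n := n) (K := K) q hx (insert τ T)).addSubgroupOf A with hB
  choose r hr using fun s : A => s.2
  have hr0 : ∀ s : A, r s ≠ 0 := by
    intro s h
    have h1 := (hr s).1
    rw [h, zero_pow hq0] at h1
    exact pr_ne_zero hx _ h1.symm
  let F : A → ℂ := fun s => τ (r s) *
    Complex.exp (-(((ang n K x τ (s : H n → ℤ) / q : ℝ) : ℂ) * Complex.I))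
  have hF : ∀ s, F s ∈ Polynomial.nthRootsFinset q (1 : ℂ) := by
    intro s
    rw [Polynomial.mem_nthRootsFinset (Nat.pos_of_ne_zero hq0)]
    exact idxt_root hx hq0 τ (hr s)
  have hFi : ∀ s t : A, F s = F t → (QuotientAddGroup.mk s : A ⧸ B) = QuotientAddGroup.mk t := by
    intro s t hst
    rw [QuotientAddGroup.eq, hB, AddSubgroup.mem_addSubgroupOf]
    exact ⟨_, idxt_sub hx τ (hr s) (hr t) hst (hr0 s)⟩
  let G : A ⧸ B → Polynomial.nthRootsFinset q (1 : ℂ) := fun z =>
    ⟨F (Quotient.out z), hF _⟩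
  have hG : Function.Injective G := by
    intro z w hzw
    have h1 : F (Quotient.out z) = F (Quotient.out w) := congrArg Subtype.val hzw
    have h2 := hFi _ _ h1
    rwa [QuotientAddGroup.out_eq', QuotientAddGroup.out_eq'] at h2
  have hfin : Finite (A ⧸ B) := Finite.of_injective G hG
  have hidx : (Lam (n := n) (K := K) q hx (insert τ T)).relIndex A = Nat.card (A ⧸ B) := rfl
  rw [hidx]
  refine ⟨Nat.card_pos.ne', ?_⟩
  refine (Nat.card_le_card_of_injective G hG).trans ?_
  rw [Nat.card_eq_fintype_card, Fintype.card_coe,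
    (Complex.isPrimitiveRoot_exp q hq0).card_nthRootsFinset]

theorem lam_index (S : Sol n q x y) (T : Finset (K →+* ℂ)) :
    (Lam (n := n) (K := K) q S.hx T).index ≠ 0 ∧
      (Lam (n := n) (K := K) q S.hx T).index ≤ (Lq n q).index * q ^ T.card := by
  classical
  have hq0 : q ≠ 0 := S.hq.ne_zero
  induction T using Finset.induction_on with
  | empty =>
    have h5 := S.hn5
    have h0 : (Lq n q).index ≠ 0 := lq_index_ne (by omega) q
    have h1 := AddSubgroup.index_dvd_of_le (lq_le_lam (K := K) S)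
    refine ⟨ne_zero_of_dvd_ne_zero h0 h1, ?_⟩
    rw [Finset.card_empty, pow_zero, mul_one]
    exact Nat.le_of_dvd (Nat.pos_of_ne_zero h0) h1
  | insert τ T hτ ih =>
    have h1 : Lam (n := n) (K := K) q S.hx (insert τ T) ≤ Lam q S.hx T := by
      rintro s ⟨b, hb⟩
      exact ⟨b, hb.mono (Finset.subset_insert τ T)⟩
    have h2 := AddSubgroup.relIndex_mul_index h1
    obtain ⟨h3, h4⟩ := idxt_step (n := n) S.hx hq0 T τ
    rw [← h2]
    refine ⟨mul_ne_zero h3 ih.1, ?_⟩
    rw [Finset.card_insert_of_notMem hτ]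
    calc _ ≤ q * ((Lq n q).index * q ^ T.card) := Nat.mul_le_mul h4 ih.2
      _ = (Lq n q).index * q ^ (T.card + 1) := by ring

end Pool.Agent.NLS
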