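import Pool.Agent.NLS.Pj

/-!
# NLS-UBX: interface for zero estimates
-/

open NumberField Finset
open Pool.Agent.AAP Pool.Agent.Helper7.HU

namespace Pool.Agent.NLS

/-- every set of more than `B` exponents with differences at most `r` has a nonzero minor of the
matrix `Q_j(s)`, `j < N` -/
def MinorOK (n : ℕ) [Fact n.Prime] (q r N B : ℕ) : Prop :=
  ∀ (K : Type) [Field K] [NumberField K] [IsCyclotomicExtension {n} ℚ K] (X : Finset (H n → ℤ)),
    (∀ s ∈ X, ∀ t ∈ X, ∀ e, |s e - t e| ≤ r) → B < X.card →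
    ∃ u : Fin N → (H n → ℤ), (∀ i, u i ∈ X) ∧
      (Matrix.of fun i j : Fin N => Qj n K q (u i) (j : ℕ)).det ≠ 0

end Pool.Agent.NLS
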