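import Pool.Agent.NLS.NStepG
import Pool.Agent.NLS.UBX
import Pool.Agent.NLS.Hank
import Pool.Agent.NLS.IdxT
import Pool.Agent.NLS.NeOne
import Pool.Agent.NLS.Pig

/-!
# The upper bound for the base with minors from sumsets

As UBY.lean; the nonzero minor of the `Q_j` may use sums of `h` elements of the set of exponents.
-/

open NumberField Finset
open Pool.Agent.AAP Pool.Agent.Helper7.HU

namespace Pool.Agent.NLS

/-- every set of more than `B` exponents with differences at most `r`, `0` among them, has a nonzero minor of the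
matrix `Q_j(u)`, `j < N`, where the `u` are sums of `h` elements of the set -/
def MinorH (n : ℕ) [Fact n.Prime] (q r N B h : ℕ) : Prop :=
  ∀ (K : Type) [Field K] [NumberField K] [IsCyclotomicExtension {n} ℚ K] (X : Finset (H n → ℤ)),
    0 ∈ X → (∀ s ∈ X, ∀ t ∈ X, ∀ e, |s e - t e| ≤ r) → B < X.card →
    ∃ u : Fin N → (H n → ℤ), (∀ i, ∃ w : Fin h → (H n → ℤ), (∀ k, w k ∈ X) ∧ u i = ∑ k, w k) ∧
      (Matrix.of fun i j : Fin N => Qj n K q (u i) (j : ℕ)).det ≠ 0

theorem MinorOK.minorH {n : ℕ} [Fact n.Prime] {q r N B h : ℕ} (hh : 1 ≤ h) (hM : MinorOK n q r N B) :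
    MinorH n q r N B h := by
  intro K _ _ _ X h0X hX hc
  obtain ⟨u, hu, hdet⟩ := hM K X hX hc
  refine ⟨u, fun i => ?_, hdet⟩
  have i0 : Fin h := ⟨0, hh⟩
  refine ⟨fun k => if k = i0 then u i else 0, fun k => ?_, ?_⟩
  · change (if k = i0 then u i else 0) ∈ X
    by_cases hki : k = i0
    · rw [if_pos hki]
      exact hu i
    · rw [if_neg hki]
      exact h0X
  · rw [Finset.sum_ite_eq' univ i0 (fun _ => u i), if_pos (mem_univ _)]

/-- multiplication of the columns by nonzero numbers -/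
private theorem ubh_scale {ι K : Type*} [Fintype ι] [DecidableEq ι] [Field K] (A B : ι → ι → K)
    (c : ι → K) (hc : ∀ j, c j ≠ 0) (h : ∀ i j, B i j = c j * A i j) :
    (Matrix.of B).det ≠ 0 ↔ (Matrix.of A).det ≠ 0 := by
  have h1 : Matrix.of B = Matrix.of fun i j => c j * (Matrix.of A) i j := by
    ext i j
    exact h i j
  rw [h1, Matrix.det_mul_row, mul_ne_zero_iff]
  exact ⟨fun h => h.2, fun h => ⟨Finset.prod_ne_zero_iff.2 fun j _ => hc j, h⟩⟩

private theorem ubh_main {n : ℕ} [Fact n.Prime] (K : Type) [Field K] [NumberField K]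
    [IsCyclotomicExtension {n} ℚ K] {q x y : ℕ} (S : Sol n q x y) {k r N h : ℕ} (hk : 1 ≤ k)
    (hkm : k ≤ (H n).card) (hN : 1 ≤ N) (hh : 1 ≤ h) {B : ℕ} (hB : 1 ≤ B) (hM : MinorH n q r N B h)
    (h2 : B * ((Lq n q).index * q ^ k) < (r + 1) ^ (H n).card)
    (h3 : 2 * (H n).card * (h * r) * n ≤ k * N * q) :
    (k : ℝ) * Real.log x ≤ 8 * (H n).card * N * Real.log (4 * q * (N + 1)) := by
  classical
  have hn5 := S.hn5
  have hq0 : q ≠ 0 := S.hq.ne_zero
  obtain ⟨T, hTc, hTf⟩ := exists_T n K (by omega) hkm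
  obtain ⟨hi0, hi1⟩ := lam_index (K := K) S T
  obtain ⟨p, X, hp, hX, h0X, hXs⟩ := pigeon_many (Lam (n := n) (K := K) q S.hx T) hi0 r
  rw [Fintype.card_coe] at hX
  have hNX : B < X.card := by
    by_contra hcon
    push Not at hcon
    have h4 : X.card * (Lam (n := n) (K := K) q S.hx T).index ≤
        B * ((Lq n q).index * q ^ k) := by
      rw [← hTc]
      exact Nat.mul_le_mul hcon hi1
    omega
  obtain ⟨u, huX, hudet⟩ := hM K X h0X
    (fun s hs t ht e => by
      have h5 := (hXs s hs).2 e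
      have h6 := (hXs t ht).2 e
      rw [abs_le]
      constructor <;> omega) hNX
  -- the sumset
  obtain ⟨Y, hY⟩ : ∃ Y : Finset (H n → ℤ), Y = (Fintype.piFinset (fun _ : Fin h => X)).image
    (fun w => ∑ k, w k) := ⟨_, rfl⟩
  have hYmem : ∀ s, s ∈ Y ↔ ∃ w : Fin h → (H n → ℤ), (∀ k, w k ∈ X) ∧ s = ∑ k, w k := by
    intro s
    rw [hY, mem_image]
    constructor
    · rintro ⟨w, hw, rfl⟩
      exact ⟨w, fun k => (Fintype.mem_piFinset.1 hw) k, rfl⟩
    · rintro ⟨w, hw, rfl⟩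
      exact ⟨w, Fintype.mem_piFinset.2 hw, rfl⟩
  have hXY : ∀ s ∈ X, s ∈ Y := by
    intro s hs
    have i0 : Fin h := ⟨0, hh⟩
    refine (hYmem s).2 ⟨fun k => if k = i0 then s else 0, fun k => ?_, ?_⟩
    · change (if k = i0 then s else 0) ∈ X
      by_cases hki : k = i0
      · rw [if_pos hki]
        exact hs
      · rw [if_neg hki]
        exact h0X
    · rw [Finset.sum_ite_eq' univ i0 (fun _ => s), if_pos (mem_univ _)]
  have h0Y : (0 : H n → ℤ) ∈ Y := hXY 0 h0X
  have hYs : ∀ s ∈ Y, s ∈ Lam (n := n) (K := K) q S.hx T ∧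
      ∀ e, -((h * p e : ℕ) : ℤ) ≤ s e ∧ s e ≤ ((h * r : ℕ) : ℤ) - ((h * p e : ℕ) : ℤ) := by
    intro s hs
    obtain ⟨w, hw, rfl⟩ := (hYmem s).1 hs
    refine ⟨sum_mem fun k _ => (hXs (w k) (hw k)).1, fun e => ?_⟩
    rw [Finset.sum_apply]
    constructor
    · have h5 : ∑ _k : Fin h, -(p e : ℤ) ≤ ∑ k : Fin h, w k e :=
        Finset.sum_le_sum fun k _ => ((hXs (w k) (hw k)).2 e).1
      rw [Finset.sum_const, Finset.card_univ, Fintype.card_fin, nsmul_eq_mul] at h5
      push_cast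
      linarith
    · have h5 : ∑ k : Fin h, w k e ≤ ∑ _k : Fin h, ((r : ℤ) - p e) :=
        Finset.sum_le_sum fun k _ => ((hXs (w k) (hw k)).2 e).2
      rw [Finset.sum_const, Finset.card_univ, Fintype.card_fin, nsmul_eq_mul] at h5
      push_cast
      linarith
  have huY : ∀ i, u i ∈ Y := fun i => (hYmem _).2 (huX i)
  choose! b hb using fun (s : H n → ℤ) (hs : s ∈ Lam (n := n) (K := K) q S.hx T) => hs
  have hroot : ∀ s ∈ Lam (n := n) (K := K) q S.hx T, IsRt n q x T s (b s) := hb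
  have hq3 := S.hq3
  have h1X : 1 < X.card := lt_of_le_of_lt hB hNX
  have hbadd : ∀ s ∈ Y, ∀ t ∈ Y, b (s + t) = b s * b t := by
    intro s hs t ht
    have h5 := (hYs s hs).1
    have h6 := (hYs t ht).1
    refine root_unique (n := n) (K := K) S.hq hq3 S.hqn ?_
    rw [(hroot _ (add_mem h5 h6)).1, ((hroot _ h5).add S.hx (hroot _ h6)).1]
  have hb0 : b 0 = 1 := by
    refine root_unique (n := n) (K := K) S.hq hq3 S.hqn ?_
    rw [(hroot _ (zero_mem _)).1, pr_zero, one_pow]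
  have hb1 : ∃ s ∈ Y, b s ≠ 1 := by
    obtain ⟨s, hs, hs0⟩ := Finset.exists_mem_ne h1X 0
    refine ⟨s, hXY s hs, fun h => pr_ne_one (K := K) S hs0 ?_⟩
    rw [← (hroot _ (hXs s hs).1).1, h, one_pow]
  have hPdet : (Matrix.of fun i j : Fin N =>
      Pj n K q (u i) (j : ℕ)).det ≠ 0 := by
    have h5 : (Matrix.of fun i j : Fin N =>
        ((Qj n K q (u i) (j : ℕ) : 𝓞 K) :
          K)).det ≠ 0 := by
      intro h
      apply hudet
      apply RingOfIntegers.coe_injective
      rw [map_zero, RingHom.map_det]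
      exact h
    refine (ubh_scale _ _ (fun j : Fin N => (q : K) ^ (j : ℕ) *
      ((j : ℕ).factorial : K)) (fun j => ?_) fun i j => ?_).1 h5
    · exact mul_ne_zero (pow_ne_zero _ (Nat.cast_ne_zero.2 hq0))
        (Nat.cast_ne_zero.2 (Nat.factorial_ne_zero _))
    · exact coe_Qj hq0 _ _
  obtain ⟨v, hv, hvdet⟩ := hankel hN (fun j s => Pj n K q s j) b Y h0Y
    (fun s => Pj_zero s) (fun s _ t _ j => Pj_add s t j) hbadd hb0 hb1 u huY hPdet
  have hfin := norm_stepG S hTf hN (by omega) (r := h * r) (fun e => h * p e)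
    (fun e => Nat.mul_le_mul_left h (hp e)) v (fun i => b (v i)) (fun i => by
      obtain ⟨a, ha, c, hc, h5⟩ := hv i
      refine hroot _ ?_
      rw [h5]
      exact add_mem (hYs a ha).1 (hYs c hc).1) (fun i e => by
      obtain ⟨a, ha, c, hc, h5⟩ := hv i
      have h6 := (hYs a ha).2 e
      have h7 := (hYs c hc).2 e
      rw [h5, Pi.add_apply]
      constructor <;> linarith [h6.1, h6.2, h7.1, h7.2]) ((ubh_scale _ _ (fun j : Fin (N + 1) =>
        if (j : ℕ) < N then (q : K) ^ (j : ℕ) * ((j : ℕ).factorial : K) else 1)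
        (fun j => by
          split_ifs
          · exact mul_ne_zero (pow_ne_zero _ (Nat.cast_ne_zero.2 hq0))
              (Nat.cast_ne_zero.2 (Nat.factorial_ne_zero _))
          · exact one_ne_zero)
        (fun i j => by
          split_ifs
          · exact coe_Qj hq0 _ _
          · exact (one_mul _).symm)).2 hvdet) (by rw [hTc]; exact h3)
  rw [hTc] at hfin
  exact hfin

private theorem ubh_field (n : ℕ) [NeZero n] : ∃ (K : Type) (_ : Field K) (_ : NumberField K),
    IsCyclotomicExtension {n} ℚ K := by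
  refine ⟨CyclotomicField n ℚ, inferInstance, inferInstance, ?_⟩
  have h := CyclotomicField.isCyclotomicExtension n ℚ
  have h1 : CyclotomicField.algebra n ℚ = DivisionRing.toRatAlgebra := Subsingleton.elim _ _
  rw [h1] at h
  exact h

theorem upperH {n : ℕ} [Fact n.Prime] {q x y : ℕ} (S : Sol n q x y) {k r N B h : ℕ} (hk : 1 ≤ k)
    (hkm : k ≤ (H n).card) (hN : 1 ≤ N) (hh : 1 ≤ h) (hB : 1 ≤ B) (hM : MinorH n q r N B h)
    (h2 : B * ((Lq n q).index * q ^ k) < (r + 1) ^ (H n).card)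
    (h3 : 2 * (H n).card * (h * r) * n ≤ k * N * q) :
    (k : ℝ) * Real.log x ≤ 8 * (H n).card * N * Real.log (4 * q * (N + 1)) := by
  have hn0 : NeZero n := ⟨S.hn.ne_zero⟩
  obtain ⟨K, _, _, _⟩ := ubh_field n
  exact ubh_main K S hk hkm hN hh hB hM h2 h3

end Pool.Agent.NLS
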