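import Pool.Agent.NLS.DcNStep
import Pool.Agent.NLS.UBH
import Pool.Agent.NLS.Hank
import Pool.Agent.NLS.DcIdx
import Pool.Agent.NLS.DcNeOne
import Pool.Agent.NLS.Pig

/-!
# The upper bound for the base with minors from sumsets, composite exponents

As UBH.lean, for an exponent prime to `2 n`.
-/

open NumberField Finset
open Pool.Agent.AAP Pool.Agent.Helper7.HU

namespace Pool.Agent.NLS.DC

/-- multiplication of the columns by nonzero numbers -/
private theorem dcup_scale {ι K : Type*} [Fintype ι] [DecidableEq ι] [Field K] (A B : ι → ι → K)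
    (c : ι → K) (hc : ∀ j, c j ≠ 0) (h : ∀ i j, B i j = c j * A i j) :
    (Matrix.of B).det ≠ 0 ↔ (Matrix.of A).det ≠ 0 := by
  have h1 : Matrix.of B = Matrix.of fun i j => c j * (Matrix.of A) i j := by
    ext i j
    exact h i j
  rw [h1, Matrix.det_mul_row, mul_ne_zero_iff]
  exact ⟨fun h => h.2, fun h => ⟨Finset.prod_ne_zero_iff.2 fun j _ => hc j, h⟩⟩

private theorem dcup_main {n : ℕ} [Fact n.Prime] (K : Type) [Field K] [NumberField K]
    [IsCyclotomicExtension {n} ℚ K] {q x y : ℕ} (S : Sol n q x y) {k r N h : ℕ} (hk : 1 ≤ k)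
    (hkm : k ≤ (H n).card) (hN : 1 ≤ N) (hh : 1 ≤ h) {B : ℕ} (hB : 1 ≤ B) (hM : MinorH n q r N B h)
    (h2 : B * ((Lq n q).index * q ^ k) < (r + 1) ^ (H n).card)
    (h3 : 2 * (H n).card * (h * r) * n ≤ k * N * q) :
    (k : ℝ) * Real.log x ≤ 8 * (H n).card * N * Real.log (4 * q * (N + 1)) := by
  classical
  have hn5 := S.hn5
  have hq0 : q ≠ 0 := S.ne0
  obtain ⟨T, hTc, hTf⟩ := exists_T n K (by omega) hkm
  obtain ⟨hi0, hi1⟩ := lam_index (K := K) S T
  obtain ⟨p, X, hp, hX, h0X, hXs⟩ := pigeon_many (Lam (n := n) (K := K) q S.hx T) hi0 r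
  rw [Fintype.card_coe] at hX
  have hNX : B < X.card := by
    by_contra hcon
    push Not at hcon
    have h4 : X.card * (Lam (n := n) (K := K) q S.hx T).index ≤
        B * ((Lq n q).index * q ^ k) := by
      rw [← hTc]
      exact Nat.mul_le_mul hcon hi1
    omega
  obtain ⟨u, huX, hudet⟩ := hM K X h0X
    (fun s hs t ht e => by
      have h5 := (hXs s hs).2 e
      have h6 := (hXs t ht).2 e
      rw [abs_le]
      constructor <;> omega) hNX
  -- the sumset
  obtain ⟨Y, hY⟩ : ∃ Y : Finset (H n → ℤ), Y = (Fintype.piFinset (fun _ : Fin h => X)).image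
    (fun w => ∑ k, w k) := ⟨_, rfl⟩
  have hYmem : ∀ s, s ∈ Y ↔ ∃ w : Fin h → (H n → ℤ), (∀ k, w k ∈ X) ∧ s = ∑ k, w k := by
    intro s
    rw [hY, mem_image]
    constructor
    · rintro ⟨w, hw, rfl⟩
      exact ⟨w, fun k => (Fintype.mem_piFinset.1 hw) k, rfl⟩
    · rintro ⟨w, hw, rfl⟩
      exact ⟨w, Fintype.mem_piFinset.2 hw, rfl⟩
  have hXY : ∀ s ∈ X, s ∈ Y := by
    intro s hs
    have i0 : Fin h := ⟨0, hh⟩
    refine (hYmem s).2 ⟨fun k => if k = i0 then s else 0, fun k => ?_, ?_⟩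
    · change (if k = i0 then s else 0) ∈ X
      by_cases hki : k = i0
      · rw [if_pos hki]
        exact hs
      · rw [if_neg hki]
        exact h0X
    · rw [Finset.sum_ite_eq' univ i0 (fun _ => s), if_pos (mem_univ _)]
  have h0Y : (0 : H n → ℤ) ∈ Y := hXY 0 h0X
  have hYs : ∀ s ∈ Y, s ∈ Lam (n := n) (K := K) q S.hx T ∧
      ∀ e, -((h * p e : ℕ) : ℤ) ≤ s e ∧ s e ≤ ((h * r : ℕ) : ℤ) - ((h * p e : ℕ) : ℤ) := by
    intro s hs
    obtain ⟨w, hw, rfl⟩ := (hYmem s).1 hs
    refine ⟨sum_mem fun k _ => (hXs (w k) (hw k)).1, fun e => ?_⟩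
    rw [Finset.sum_apply]
    constructor
    · have h5 : ∑ _k : Fin h, -(p e : ℤ) ≤ ∑ k : Fin h, w k e :=
        Finset.sum_le_sum fun k _ => ((hXs (w k) (hw k)).2 e).1
      rw [Finset.sum_const, Finset.card_univ, Fintype.card_fin, nsmul_eq_mul] at h5
      push_cast
      linarith
    · have h5 : ∑ k : Fin h, w k e ≤ ∑ _k : Fin h, ((r : ℤ) - p e) :=
        Finset.sum_le_sum fun k _ => ((hXs (w k) (hw k)).2 e).2
      rw [Finset.sum_const, Finset.card_univ, Fintype.card_fin, nsmul_eq_mul] at h5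
      push_cast
      linarith
  have huY : ∀ i, u i ∈ Y := fun i => (hYmem _).2 (huX i)
  choose! b hb using fun (s : H n → ℤ) (hs : s ∈ Lam (n := n) (K := K) q S.hx T) => hs
  have hroot : ∀ s ∈ Lam (n := n) (K := K) q S.hx T, IsRt n q x T s (b s) := hb
  have hq3 := S.hq3
  have h1X : 1 < X.card := lt_of_le_of_lt hB hNX
  have hbadd : ∀ s ∈ Y, ∀ t ∈ Y, b (s + t) = b s * b t := by
    intro s hs t ht
    have h5 := (hYs s hs).1
    have h6 := (hYs t ht).1
    refine root_unique (n := n) (K := K) S.hq hq0 ?_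
    rw [(hroot _ (add_mem h5 h6)).1, ((hroot _ h5).add S.hx (hroot _ h6)).1]
  have hb0 : b 0 = 1 := by
    refine root_unique (n := n) (K := K) S.hq hq0 ?_
    rw [(hroot _ (zero_mem _)).1, pr_zero, one_pow]
  have hb1 : ∃ s ∈ Y, b s ≠ 1 := by
    obtain ⟨s, hs, hs0⟩ := Finset.exists_mem_ne h1X 0
    refine ⟨s, hXY s hs, fun h => pr_ne_one (K := K) S hs0 ?_⟩
    rw [← (hroot _ (hXs s hs).1).1, h, one_pow]
  have hPdet : (Matrix.of fun i j : Fin N =>
      Pj n K q (u i) (j : ℕ)).det ≠ 0 := by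
    have h5 : (Matrix.of fun i j : Fin N =>
        ((Qj n K q (u i) (j : ℕ) : 𝓞 K) :
          K)).det ≠ 0 := by
      intro h
      apply hudet
      apply RingOfIntegers.coe_injective
      rw [map_zero, RingHom.map_det]
      exact h
    refine (dcup_scale _ _ (fun j : Fin N => (q : K) ^ (j : ℕ) *
      ((j : ℕ).factorial : K)) (fun j => ?_) fun i j => ?_).1 h5
    · exact mul_ne_zero (pow_ne_zero _ (Nat.cast_ne_zero.2 hq0))
        (Nat.cast_ne_zero.2 (Nat.factorial_ne_zero _))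
    · exact coe_Qj hq0 _ _
  obtain ⟨v, hv, hvdet⟩ := hankel hN (fun j s => Pj n K q s j) b Y h0Y
    (fun s => Pj_zero s) (fun s _ t _ j => Pj_add s t j) hbadd hb0 hb1 u huY hPdet
  have hfin := norm_stepG S hTf hN (by omega) (r := h * r) (fun e => h * p e)
    (fun e => Nat.mul_le_mul_left h (hp e)) v (fun i => b (v i)) (fun i => by
      obtain ⟨a, ha, c, hc, h5⟩ := hv i
      refine hroot _ ?_
      rw [h5]
      exact add_mem (hYs a ha).1 (hYs c hc).1) (fun i e => by
      obtain ⟨a, ha, c, hc, h5⟩ := hv i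
      have h6 := (hYs a ha).2 e
      have h7 := (hYs c hc).2 e
      rw [h5, Pi.add_apply]
      constructor <;> linarith [h6.1, h6.2, h7.1, h7.2]) ((dcup_scale _ _ (fun j : Fin (N + 1) =>
        if (j : ℕ) < N then (q : K) ^ (j : ℕ) * ((j : ℕ).factorial : K) else 1)
        (fun j => by
          split_ifs
          · exact mul_ne_zero (pow_ne_zero _ (Nat.cast_ne_zero.2 hq0))
              (Nat.cast_ne_zero.2 (Nat.factorial_ne_zero _))
          · exact one_ne_zero)
        (fun i j => by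
          split_ifs
          · exact coe_Qj hq0 _ _
          · exact (one_mul _).symm)).2 hvdet) (by rw [hTc]; exact h3)
  rw [hTc] at hfin
  exact hfin

private theorem dcup_field (n : ℕ) [NeZero n] : ∃ (K : Type) (_ : Field K) (_ : NumberField K),
    IsCyclotomicExtension {n} ℚ K := by
  refine ⟨CyclotomicField n ℚ, inferInstance, inferInstance, ?_⟩
  have h := CyclotomicField.isCyclotomicExtension n ℚ
  have h1 : CyclotomicField.algebra n ℚ = DivisionRing.toRatAlgebra := Subsingleton.elim _ _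
  rw [h1] at h
  exact h

theorem upperH {n : ℕ} [Fact n.Prime] {q x y : ℕ} (S : Sol n q x y) {k r N B h : ℕ} (hk : 1 ≤ k)
    (hkm : k ≤ (H n).card) (hN : 1 ≤ N) (hh : 1 ≤ h) (hB : 1 ≤ B) (hM : MinorH n q r N B h)
    (h2 : B * ((Lq n q).index * q ^ k) < (r + 1) ^ (H n).card)
    (h3 : 2 * (H n).card * (h * r) * n ≤ k * N * q) :
    (k : ℝ) * Real.log x ≤ 8 * (H n).card * N * Real.log (4 * q * (N + 1)) := by
  have hn0 : NeZero n := ⟨S.hn.ne_zero⟩
  obtain ⟨K, _, _, _⟩ := dcup_field n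
  exact dcup_main K S hk hkm hN hh hB hM h2 h3

end Pool.Agent.NLS.DC
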