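import Pool.Agent.AAP.Cyc
import Pool.Agent.Helper7.HU.Det

/-!
# NLS: repunits that are powers, many conjugates: definitions

`n` prime, `K = ℚ(ζ_n)`, `G = (ZMod n)ˣ = Gal(K/ℚ)`, `H n` = the half system `2 a < n` of `G`, `M n` = the matrix of the
signs of `a b⁻¹` (`Pool.Agent.Helper7.HU`). `lin x a = x - ζ ^ a`, `al x a = (x - ζ ^ a) / (x - ζ ^ (-a))`,
`pr x s = ∏ al x e ^ s e`, `s : H n → ℤ`.
-/

open NumberField Finset
open Pool.Agent.AAP Pool.Agent.Helper7.HU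

namespace Pool.Agent.NLS

section

variable (n : ℕ) [Fact n.Prime] (K : Type) [Field K] [NumberField K] [IsCyclotomicExtension {n} ℚ K]

/-- the root of unity `ζ` in the ring of integers -/
noncomputable def zO : 𝓞 K := (zt_spec n K).toInteger

theorem zO_spec : IsPrimitiveRoot (zO n K) n := (zt_spec n K).toInteger_isPrimitiveRoot

theorem coe_zO : ((zO n K : 𝓞 K) : K) = zt n K := rfl

/-- `ζ ^ a`, `a` a unit modulo `n` -/
noncomputable def zp (a : (ZMod n)ˣ) : 𝓞 K := zO n K ^ (a : ZMod n).val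

/-- `x - ζ ^ a` -/
noncomputable def lin (x : ℕ) (a : (ZMod n)ˣ) : 𝓞 K := (x : 𝓞 K) - zp n K a

/-- `(x - ζ ^ a) / (x - ζ ^ (-a))` -/
noncomputable def al (x : ℕ) (a : (ZMod n)ˣ) : K :=
  ((lin n K x a : 𝓞 K) : K) / ((lin n K x (-a) : 𝓞 K) : K)

/-- `∏ al x e ^ s e` over the half system -/
noncomputable def pr (x : ℕ) (s : H n → ℤ) : K := ∏ e : H n, al n K x (e : (ZMod n)ˣ) ^ s e

/-- a solution of the equation with prime length `n ≥ 5` and prime exponent `q ≥ 3`, `q ≠ n` -/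
structure Sol (n q x y : ℕ) : Prop where
  hn : n.Prime
  hq : q.Prime
  hn5 : 5 ≤ n
  hq3 : 3 ≤ q
  hqn : q ≠ n
  hx : 1 < x
  hy : 1 < y
  eq : y ^ q * (x - 1) = x ^ n - 1

/-- the argument of the product at the embedding `τ` -/
noncomputable def ang (x : ℕ) (τ : K →+* ℂ) (s : H n → ℤ) : ℝ :=
  ∑ e : H n, (s e : ℝ) * Complex.arg (τ (al n K x (e : (ZMod n)ˣ)))

variable {K}

/-- `b` is a `q`-th root of `pr x s`, close to `1` at the embeddings `τ ∈ T` -/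
def IsRt (q x : ℕ) (T : Finset (K →+* ℂ)) (s : H n → ℤ) (b : K) : Prop :=
  b ^ q = pr n K x s ∧ ∀ τ ∈ T, τ b = Complex.exp (((ang n K x τ s / q : ℝ) : ℂ) * Complex.I)

end

section

variable (n : ℕ) [Fact n.Prime]

/-- combinations of the rows of the sign matrix, modulo `q` -/
noncomputable def Lq (q : ℕ) : AddSubgroup (H n → ℤ) :=
  (Matrix.vecMulLinear (M n)).toAddMonoidHom.range ⊔ (nsmulAddMonoidHom (α := H n → ℤ) q).range

end

section

variable {n : ℕ} [Fact n.Prime] {K : Type} [Field K] [NumberField K] [IsCyclotomicExtension {n} ℚ K]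

theorem zp_inj {a b : (ZMod n)ˣ} (h : zp n K a = zp n K b) : a = b := by
  have h1 := (zO_spec n K).pow_inj (ZMod.val_lt _) (ZMod.val_lt _) h
  exact Units.ext (ZMod.val_injective n h1)

theorem zp_pow_n (a : (ZMod n)ˣ) : zp n K a ^ n = 1 := by
  unfold zp
  rw [← pow_mul, mul_comm, pow_mul, (zO_spec n K).pow_eq_one, one_pow]

theorem lin_ne_zero {x : ℕ} (hx : 1 < x) (a : (ZMod n)ˣ) : lin n K x a ≠ 0 := by
  intro h
  have h1 : (x : 𝓞 K) = zp n K a := sub_eq_zero.1 h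
  have h2 : (x : 𝓞 K) ^ n = 1 := by rw [h1, zp_pow_n]
  have h3 : x ^ n = 1 := by exact_mod_cast h2
  have h4 : n ≠ 0 := (Fact.out : n.Prime).ne_zero
  have := Nat.one_lt_pow h4 hx
  omega

theorem lin_coe_ne_zero {x : ℕ} (hx : 1 < x) (a : (ZMod n)ˣ) : ((lin n K x a : 𝓞 K) : K) ≠ 0 := by
  intro h
  exact lin_ne_zero hx a (by exact_mod_cast h)

theorem al_ne_zero {x : ℕ} (hx : 1 < x) (a : (ZMod n)ˣ) : al n K x a ≠ 0 :=
  div_ne_zero (lin_coe_ne_zero hx a) (lin_coe_ne_zero hx _)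

theorem al_neg (x : ℕ) (a : (ZMod n)ˣ) : al n K x (-a) = (al n K x a)⁻¹ := by
  unfold al
  rw [neg_neg, inv_div]

theorem pr_ne_zero {x : ℕ} (hx : 1 < x) (s : H n → ℤ) : pr n K x s ≠ 0 :=
  Finset.prod_ne_zero_iff.2 fun _ _ => zpow_ne_zero _ (al_ne_zero hx _)

theorem pr_zero (x : ℕ) : pr n K x 0 = 1 := by
  unfold pr
  simp

theorem pr_add {x : ℕ} (hx : 1 < x) (s t : H n → ℤ) :
    pr n K x (s + t) = pr n K x s * pr n K x t := by
  unfold pr
  rw [← Finset.prod_mul_distrib]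
  exact Finset.prod_congr rfl fun e _ => zpow_add₀ (al_ne_zero hx _) _ _

theorem pr_neg (x : ℕ) (s : H n → ℤ) : pr n K x (-s) = (pr n K x s)⁻¹ := by
  unfold pr
  rw [← Finset.prod_inv_distrib]
  exact Finset.prod_congr rfl fun e _ => zpow_neg _ _

theorem ang_add (x : ℕ) (τ : K →+* ℂ) (s t : H n → ℤ) :
    ang n K x τ (s + t) = ang n K x τ s + ang n K x τ t := by
  unfold ang
  rw [← Finset.sum_add_distrib]
  refine Finset.sum_congr rfl fun e _ => ?_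
  rw [Pi.add_apply]
  push_cast
  ring

theorem ang_neg (x : ℕ) (τ : K →+* ℂ) (s : H n → ℤ) : ang n K x τ (-s) = -ang n K x τ s := by
  unfold ang
  rw [← Finset.sum_neg_distrib]
  refine Finset.sum_congr rfl fun e _ => ?_
  rw [Pi.neg_apply]
  push_cast
  ring

theorem ang_zero (x : ℕ) (τ : K →+* ℂ) : ang n K x τ 0 = 0 := by
  unfold ang
  simp

theorem IsRt.add {q x : ℕ} (hx : 1 < x) {T : Finset (K →+* ℂ)} {s t : H n → ℤ} {b c : K}
    (hb : IsRt n q x T s b) (hc : IsRt n q x T t c) : IsRt n q x T (s + t) (b * c) := by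
  refine ⟨by rw [mul_pow, hb.1, hc.1, pr_add hx], fun τ hτ => ?_⟩
  rw [map_mul, hb.2 τ hτ, hc.2 τ hτ, ← Complex.exp_add, ang_add]
  congr 1
  push_cast
  ring

theorem IsRt.neg {q x : ℕ} {T : Finset (K →+* ℂ)} {s : H n → ℤ} {b : K}
    (hb : IsRt n q x T s b) : IsRt n q x T (-s) b⁻¹ := by
  refine ⟨by rw [inv_pow, hb.1, pr_neg], fun τ hτ => ?_⟩
  rw [map_inv₀, hb.2 τ hτ, ← Complex.exp_neg, ang_neg]
  congr 1
  push_cast
  ring

theorem isRt_zero (q x : ℕ) (T : Finset (K →+* ℂ)) : IsRt n q x T (0 : H n → ℤ) (1 : K) := by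
  refine ⟨by rw [one_pow, pr_zero], fun τ _ => ?_⟩
  rw [map_one, ang_zero]
  simp

theorem IsRt.mono {q x : ℕ} {T T' : Finset (K →+* ℂ)} (h : T' ⊆ T) {s : H n → ℤ} {b : K}
    (hb : IsRt n q x T s b) : IsRt n q x T' s b := ⟨hb.1, fun τ hτ => hb.2 τ (h hτ)⟩

/-- the exponents `s` such that `pr x s` is a `q`-th power of an element close to `1` at the
embeddings in `T` -/
def Lam (q : ℕ) {x : ℕ} (hx : 1 < x) (T : Finset (K →+* ℂ)) : AddSubgroup (H n → ℤ) where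
  carrier := {s | ∃ b : K, IsRt n q x T s b}
  zero_mem' := ⟨1, isRt_zero q x T⟩
  add_mem' := by
    rintro s t ⟨b, hb⟩ ⟨c, hc⟩
    exact ⟨b * c, hb.add hx hc⟩
  neg_mem' := by
    rintro s ⟨b, hb⟩
    exact ⟨b⁻¹, hb.neg⟩

theorem mem_Lam {q x : ℕ} (hx : 1 < x) {T : Finset (K →+* ℂ)} {s : H n → ℤ} :
    s ∈ Lam q hx T ↔ ∃ b : K, IsRt n q x T s b := Iff.rfl

end

end Pool.Agent.NLS
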