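import Pool.Agent.NLS.DgDvA
import Pool.Agent.NLS.Pj
import Pool.Agent.NLS.UnitRt

/-!
# NLS-DgDv: the valuation at `1 - ζ` and the power sums

`D` is the valuation of `p = ζ - 1`, and `(n) = (p) ^ (n - 1)`. For `l` prime to `n` the automorphism `g` with
`g ζ = ζ ^ l` maps `ps s 1` to `ps s l` and `p` divides `g p`, so the valuation of `ps s l` is at least that of `ps s 1`;
for `n ∣ l` one has `ps s l = 0`.
-/

open NumberField Finset
open Pool.Agent.AAP Pool.Agent.Helper7.HU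

namespace Pool.Agent.NLS

section

variable {n : ℕ} [Fact n.Prime] {K : Type} [Field K] [NumberField K] [IsCyclotomicExtension {n} ℚ K]

private theorem dgdv_prime : Prime (zO n K - 1) := (zt_spec n K).zeta_sub_one_prime'

private theorem dgdv_assoc : Associated ((zO n K - 1) ^ (n - 1)) ((n : ℕ) : 𝓞 K) :=
  IsCyclotomicExtension.Rat.associated_zeta_sub_one_pow_prime n (zt_spec n K)

private theorem dgdv_zero (s : H n → ℤ) {l : ℕ} (h : n ∣ l) : ps n K s l = 0 := by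
  unfold ps
  obtain ⟨c, rfl⟩ := h
  refine Finset.sum_eq_zero fun e _ => ?_
  rw [pow_mul, pow_mul, zp_pow_n, zp_pow_n, sub_self, mul_zero]

omit [NumberField K] in
private theorem dgdv_coe_inj {a b : 𝓞 K} (h : (a : K) = (b : K)) : a = b := RingOfIntegers.ext h

private theorem dgdv_aut {l : ℕ} (h : ¬ n ∣ l) :
    ∃ g : 𝓞 K →+* 𝓞 K, g (zO n K) = zO n K ^ l := by
  have hcop : Nat.Coprime l n := ((Nat.Prime.coprime_iff_not_dvd (Fact.out : n.Prime)).2 h).symm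
  refine ⟨RingOfIntegers.mapRingHom (((gq n K).symm (ZMod.unitOfCoprime l hcop) : Gal(K/ℚ)) : K →+* K), ?_⟩
  apply dgdv_coe_inj
  have h1 : (gq n K).symm (ZMod.unitOfCoprime l hcop) (zt n K) = zt n K ^ l := by
    rw [gq_spec, MulEquiv.apply_symm_apply, ZMod.coe_unitOfCoprime, ZMod.val_natCast]
    exact (pow_eq_pow_mod l (zt_spec n K).pow_eq_one).symm
  have h2 : ((zO n K ^ l : 𝓞 K) : K) = zt n K ^ l := by
    change algebraMap (𝓞 K) K (zO n K ^ l) = zt n K ^ l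
    rw [map_pow]
    rfl
  rw [h2, ← h1]
  rfl

private theorem dgdv_dvd (s : H n → ℤ) {l c : ℕ} (h : (zO n K - 1) ^ c ∣ ps n K s 1) :
    (zO n K - 1) ^ c ∣ ps n K s l := by
  by_cases hl : n ∣ l
  · rw [dgdv_zero s hl]
    exact dvd_zero _
  obtain ⟨g, hg⟩ := dgdv_aut (n := n) (K := K) hl
  have h1 : ∀ a : (ZMod n)ˣ, g (zp n K a) = zp n K a ^ l := by
    intro a
    unfold zp
    rw [map_pow, hg, ← pow_mul, ← pow_mul, mul_comm]
  have h2 : g (ps n K s 1) = ps n K s l := by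
    unfold ps
    rw [map_sum]
    refine Finset.sum_congr rfl fun e _ => ?_
    rw [map_mul, map_sub, map_pow, map_pow, map_intCast, h1, h1, pow_one, pow_one]
  have h3 : zO n K - 1 ∣ g (zO n K - 1) := by
    rw [map_sub, map_one, hg]
    have h4 := sub_dvd_pow_sub_pow (zO n K) 1 l
    rwa [one_pow] at h4
  calc (zO n K - 1) ^ c ∣ g (zO n K - 1) ^ c := pow_dvd_pow_of_dvd h3 c
    _ = g ((zO n K - 1) ^ c) := (map_pow g _ c).symm
    _ ∣ g (ps n K s 1) := map_dvd g h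
    _ = ps n K s l := h2

end

private theorem dgdv_div {K k : Type} [Field K] [Field k] (D : DV K k) {m : K} (hm : m ≠ 0) {v : ℤ}
    (hv : ∀ a : ℤ, D.ge m a ↔ a ≤ v) (y : K) (a : ℤ) : D.ge (y / m) a ↔ D.ge y (a + v) := by
  by_cases hy : y = 0
  · rw [hy, zero_div]
    exact ⟨fun _ => D.ge_zero _, fun _ => D.ge_zero _⟩
  obtain ⟨u, hu⟩ := D.ex_val (div_ne_zero hy hm)
  have h1 := D.val_mul hu hv (a + v)
  rw [div_mul_cancel₀ y hm] at h1
  rw [h1, hu]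
  omega

theorem exists_dvn (n : ℕ) [Fact n.Prime] (K : Type) [Field K] [NumberField K] [IsCyclotomicExtension {n} ℚ K] (hn3 : 3 ≤ n) :
    ∃ (k : Type) (_ : Field k) (D : DV K k), (∀ i : ℕ, 1 ≤ i → i < n → (i : k) ≠ 0) ∧
      (∀ (s : H n → ℤ) (a : ℤ), D.ge (((ps n K s 1 : 𝓞 K) : K) / (n : K)) a →
        ∀ l, 1 ≤ l → D.ge (((ps n K s l : 𝓞 K) : K) / (n : K)) a) ∧
      ∀ s : H n → ℤ, D.ge (((ps n K s 1 : 𝓞 K) : K) / (n : K)) 0 → ps n K s 1 ∈ Ideal.span {(n : 𝓞 K)} := by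
  have hp : Prime (zO n K - 1) := dgdv_prime
  have has : Associated ((zO n K - 1) ^ (n - 1)) ((n : ℕ) : 𝓞 K) := dgdv_assoc
  obtain ⟨k, fk, D, hπ, hint, hdvd, hres⟩ := exists_dv_pi K (zO n K - 1) hp
  have hn0 : ((n : ℕ) : K) ≠ 0 := Nat.cast_ne_zero.2 (by omega)
  have hnO : ((n : ℕ) : 𝓞 K) ≠ 0 := Nat.cast_ne_zero.2 (by omega)
  have hcn : (((n : ℕ) : 𝓞 K) : K) = (n : K) := map_natCast (algebraMap (𝓞 K) K) n
  -- the valuation of `n`
  have hv : ∀ a : ℤ, D.ge (n : K) a ↔ a ≤ ((n - 1 : ℕ) : ℤ) := by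
    obtain ⟨v, hv⟩ := D.ex_val hn0
    have h1 : D.ge (n : K) ((n - 1 : ℕ) : ℤ) := by
      rw [← hcn]
      exact (hdvd _ _).2 has.dvd
    have h2 : ¬ D.ge (n : K) (((n - 1) + 1 : ℕ) : ℤ) := by
      rw [← hcn, hdvd]
      intro h
      have h3 : (zO n K - 1) ^ (n - 1 + 1) ∣ (zO n K - 1) ^ (n - 1) := h.trans has.symm.dvd
      rw [pow_succ] at h3
      have h4 : (zO n K - 1) ^ (n - 1) ≠ 0 := pow_ne_zero _ hp.ne_zero
      have h5 : (zO n K - 1) ^ (n - 1) * (zO n K - 1) ∣ (zO n K - 1) ^ (n - 1) * 1 := by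
        rwa [mul_one]
      exact hp.not_isUnit (isUnit_of_dvd_one ((mul_dvd_mul_iff_left h4).1 h5))
    rw [hv] at h1 h2
    intro a
    rw [hv]
    push_cast at h1 h2 ⊢
    omega
  -- divisibility
  have hmov : ∀ (s : H n → ℤ) (b : ℤ), D.ge ((ps n K s 1 : 𝓞 K) : K) b →
      ∀ l, D.ge ((ps n K s l : 𝓞 K) : K) b := by
    intro s b hb l
    rcases le_total b 0 with h0 | h0
    · exact D.ge_mono h0 (hint _)
    · obtain ⟨c, rfl⟩ := Int.eq_ofNat_of_zero_le h0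
      exact (hdvd _ c).2 (dgdv_dvd s ((hdvd _ c).1 hb))
  refine ⟨k, fk, D, ?_, ?_, ?_⟩
  · intro i hi hin h
    have h1 : zO n K - 1 ∣ ((i : ℕ) : 𝓞 K) := (hres i).1 h
    have h2 : zO n K - 1 ∣ ((n : ℕ) : 𝓞 K) := (dvd_pow_self _ (by omega)).trans has.dvd
    have hcop : Nat.Coprime i n :=
      ((Nat.Prime.coprime_iff_not_dvd (Fact.out : n.Prime)).2
        (fun h => absurd (Nat.le_of_dvd hi h) (by omega))).symm
    have h3 : IsCoprime (((i : ℕ) : ℤ) : 𝓞 K) (((n : ℕ) : ℤ) : 𝓞 K) :=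
      (Nat.isCoprime_iff_coprime.2 hcop).map (Int.castRingHom (𝓞 K))
    rw [Int.cast_natCast, Int.cast_natCast] at h3
    exact hp.not_isUnit (h3.isUnit_of_dvd' h1 h2)
  · intro s a ha l _
    rw [dgdv_div D hn0 hv] at ha ⊢
    exact hmov s _ ha l
  · intro s hs
    rw [dgdv_div D hn0 hv, zero_add, hdvd] at hs
    rw [Ideal.mem_span_singleton]
    exact has.symm.dvd.trans hs

end Pool.Agent.NLS
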