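import Pool.Agent.NLS.LvDef
import Pool.Agent.NLS.Defs

/-!
# NLS-DgDvA: the valuation of a principal prime of a number field

`v` is the height one prime `span {p}`, `w` its valuation on `K`, `w p = exp (-1)`; `O` is the valuation subring of `w`
and `k` its residue field. For integral `x`: `w x ≤ exp (-a)` iff `x ∈ (p) ^ a` iff `p ^ a` divides `x`.
-/

open NumberField Finset

namespace Pool.Agent.NLS

private theorem dgdva_unit {K : Type} [Field K] (w : Valuation K (WithZero (Multiplicative ℤ)))
    (x : w.valuationSubring) : IsUnit x ↔ w (x : K) = 1 := by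
  constructor
  · rintro ⟨u, rfl⟩
    have h1 : w ((u : w.valuationSubring) : K) ≤ 1 := (Valuation.mem_valuationSubring_iff _ _).1 u.1.2
    have h2 : w (((u⁻¹ : (w.valuationSubring)ˣ) : w.valuationSubring) : K) ≤ 1 :=
      (Valuation.mem_valuationSubring_iff _ _).1 (u⁻¹).1.2
    have h3 : w ((u : w.valuationSubring) : K) *
        w (((u⁻¹ : (w.valuationSubring)ˣ) : w.valuationSubring) : K) = 1 := by
      rw [← map_mul]
      have h4 : ((u : w.valuationSubring) : K) * (((u⁻¹ : (w.valuationSubring)ˣ) :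
          w.valuationSubring) : K) = 1 := by
        have h5 := congrArg (fun y : w.valuationSubring => (y : K)) u.mul_inv
        exact h5
      rw [h4, map_one]
    refine le_antisymm h1 ?_
    calc (1 : WithZero (Multiplicative ℤ)) = _ := h3.symm
      _ ≤ w ((u : w.valuationSubring) : K) * 1 := mul_le_mul_right h2 _
      _ = _ := mul_one _
  · intro h
    have hx : (x : K) ≠ 0 := by
      intro h0
      rw [h0, map_zero] at h
      exact zero_ne_one h
    have h1 : (x : K)⁻¹ ∈ w.valuationSubring := by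
      rw [Valuation.mem_valuationSubring_iff, map_inv₀, h, inv_one]
    exact IsUnit.of_mul_eq_one (⟨(x : K)⁻¹, h1⟩ : w.valuationSubring) (Subtype.ext (mul_inv_cancel₀ hx))

theorem exists_dv_pi (K : Type) [Field K] [NumberField K] (p : 𝓞 K) (hp : Prime p) :
    ∃ (k : Type) (_ : Field k) (D : DV K k), D.π = (p : K) ∧ (∀ x : 𝓞 K, D.ge (x : K) 0) ∧
      (∀ (x : 𝓞 K) (a : ℕ), D.ge (x : K) a ↔ p ^ a ∣ x) ∧ ∀ i : ℕ, (i : k) = 0 ↔ p ∣ (i : 𝓞 K) := by
  classical
  obtain ⟨v, hv⟩ : ∃ v : IsDedekindDomain.HeightOneSpectrum (𝓞 K), v.asIdeal = Ideal.span {p} :=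
    ⟨⟨Ideal.span {p}, (Ideal.span_singleton_prime hp.ne_zero).2 hp, by
      rw [Ne, Ideal.span_singleton_eq_bot]; exact hp.ne_zero⟩, rfl⟩
  have hvm : ∀ (x : 𝓞 K) (a : ℕ), x ∈ v.asIdeal ^ a ↔ p ^ a ∣ x := by
    intro x a
    rw [hv, Ideal.span_singleton_pow, Ideal.mem_span_singleton]
  obtain ⟨w, hw⟩ : ∃ w : Valuation K (WithZero (Multiplicative ℤ)), w = v.valuation K := ⟨_, rfl⟩
  have hwi : ∀ x : 𝓞 K, w (x : K) = v.intValuation x := fun x => by
    rw [hw]; exact v.valuation_of_algebraMap x
  have hq0 : (p : K) ≠ 0 := by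
    intro h
    exact hp.ne_zero (by exact_mod_cast h)
  have hqw : w (p : K) = WithZero.exp (-1 : ℤ) := by
    have h1 : w (p : K) = v.intValuation p := hwi p
    have h2 : v.intValuation p ≤ WithZero.exp (-((1 : ℕ) : ℤ)) := by
      rw [v.intValuation_le_pow_iff_mem, hvm, pow_one]
    have h3 : ¬ v.intValuation p ≤ WithZero.exp (-((2 : ℕ) : ℤ)) := by
      rw [v.intValuation_le_pow_iff_mem, hvm]
      rintro ⟨c, hc⟩
      have h5 : p * (1 - p * c) = 0 := by
        have : p * (1 - p * c) = p - p ^ 2 * c := by ring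
        rw [this, ← hc, sub_self]
      rcases mul_eq_zero.1 h5 with h6 | h6
      · exact hp.ne_zero h6
      · exact hp.not_isUnit (IsUnit.of_mul_eq_one c (sub_eq_zero.1 h6).symm)
    have h4 : w (p : K) ≠ 0 := (Valuation.ne_zero_iff _).2 hq0
    rw [← h1] at h2 h3
    rw [← WithZero.exp_log h4] at h2 h3 ⊢
    rw [WithZero.exp_le_exp] at h2 h3
    congr 1
    omega
  have hlt : ∀ x : K, w x < 1 ↔ w x ≤ WithZero.exp (-1 : ℤ) := by
    intro x
    rcases eq_or_ne x 0 with h0 | h0
    · rw [h0, map_zero]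
      exact ⟨fun _ => zero_le, fun _ => zero_lt_one⟩
    · have h4 : w x ≠ 0 := (Valuation.ne_zero_iff _).2 h0
      rw [← WithZero.exp_log h4, WithZero.exp_le_exp, ← WithZero.exp_zero, WithZero.exp_lt_exp]
      omega
  have hmem : ∀ x : K, x ∈ w.valuationSubring ↔ w x ≤ 1 := fun x =>
    Valuation.mem_valuationSubring_iff _ _
  have hge : ∀ (x : K) (a : ℤ), (p : K) ^ (-a) * x ∈ w.valuationSubring ↔ w x ≤ WithZero.exp (-a) := by
    intro x a
    have h5 : WithZero.exp a * WithZero.exp (-a) = (1 : WithZero (Multiplicative ℤ)) := by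
      rw [← WithZero.exp_add, add_neg_cancel, WithZero.exp_zero]
    have h6 : w ((p : K) ^ (-a)) = WithZero.exp a := by
      rw [map_zpow₀, hqw, ← WithZero.exp_zsmul]
      congr 1
      rw [smul_eq_mul]; ring
    rw [hmem, map_mul, h6]
    constructor
    · intro h
      have h7 := mul_le_mul_right h (WithZero.exp (-a))
      rwa [← mul_assoc, mul_comm (WithZero.exp (-a)) (WithZero.exp a), h5, one_mul, mul_one] at h7
    · intro h
      have h7 := mul_le_mul_right h (WithZero.exp a)
      rwa [h5] at h7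
  have hdiv : ∀ x : K, (p : K)⁻¹ * x ∈ w.valuationSubring ↔ w x < 1 := by
    intro x
    rw [← zpow_neg_one, hge, hlt]
  let ρ : w.valuationSubring.toSubring →+* IsLocalRing.ResidueField w.valuationSubring :=
    (IsLocalRing.residue w.valuationSubring).comp
      { toFun := fun x => ⟨x.1, x.2⟩
        map_one' := rfl
        map_mul' := fun _ _ => rfl
        map_zero' := rfl
        map_add' := fun _ _ => rfl }
  have hρ : ∀ x : w.valuationSubring.toSubring, ρ x = 0 ↔ w (x : K) < 1 := by
    intro x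
    have h1 : ρ x = IsLocalRing.residue w.valuationSubring ⟨x.1, x.2⟩ := rfl
    rw [h1, IsLocalRing.residue_eq_zero_iff, IsLocalRing.mem_maximalIdeal, mem_nonunits_iff,
      dgdva_unit]
    have h2 : w (x : K) ≤ 1 := (hmem _).1 x.2
    exact ⟨fun h => lt_of_le_of_ne h2 h, fun h => h.ne⟩
  let D : DV K (IsLocalRing.ResidueField w.valuationSubring) :=
    { O := w.valuationSubring.toSubring
      π := (p : K)
      ρ := ρ
      hπO := by
        show (p : K) ∈ w.valuationSubring
        rw [hmem, hqw, ← WithZero.exp_zero, WithZero.exp_le_exp]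
        norm_num
      hπ0 := hq0
      ker := by
        intro x
        rw [hρ]
        constructor
        · intro h
          exact ⟨⟨(p : K)⁻¹ * x, (hdiv _).2 h⟩, by rw [mul_inv_cancel_left₀ hq0]⟩
        · rintro ⟨y, hy⟩
          rw [← hdiv, hy, inv_mul_cancel_left₀ hq0]
          exact y.2
      ex := by
        intro x hx
        have h4 : w x ≠ 0 := (Valuation.ne_zero_iff _).2 hx
        have h5 : w ((p : K) ^ (WithZero.log (w x)) * x) = 1 := by
          rw [map_mul, map_zpow₀, hqw, ← WithZero.exp_zsmul]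
          conv_lhs => rw [← WithZero.exp_log h4]
          rw [← WithZero.exp_add, WithZero.log_exp]
          have h6 : WithZero.log (w x) • (-1 : ℤ) + WithZero.log (w x) = 0 := by
            rw [smul_eq_mul]; ring
          rw [h6, WithZero.exp_zero]
        refine ⟨WithZero.log (w x), (hmem _).2 h5.le, ?_⟩
        rw [Ne, hρ]
        exact fun h => absurd h5 h.ne }
  refine ⟨IsLocalRing.ResidueField w.valuationSubring, inferInstance, D, rfl, ?_, ?_, ?_⟩
  · intro x
    show (p : K) ^ (-(0 : ℤ)) * (x : K) ∈ w.valuationSubring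
    rw [neg_zero, zpow_zero, one_mul, hmem, hw]
    exact v.valuation_le_one x
  · intro x a
    show (p : K) ^ (-(a : ℤ)) * (x : K) ∈ w.valuationSubring ↔ _
    rw [hge, hwi, v.intValuation_le_pow_iff_mem, hvm]
  · intro i
    have h4 : (i : IsLocalRing.ResidueField w.valuationSubring) = ρ (i : w.valuationSubring.toSubring) := by
      rw [map_natCast]
    have h6 : ((i : w.valuationSubring.toSubring) : K) = ((i : 𝓞 K) : K) := by simp
    rw [h4, hρ, h6, hw]
    have h7 := v.valuation_lt_one_iff_mem (K := K) (i : 𝓞 K)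
    have h8 := hvm (i : 𝓞 K) 1
    rw [pow_one, pow_one] at h8
    rw [← h8]
    exact h7

end Pool.Agent.NLS
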