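import Pool.Agent.NLS.UnitRt

/-!
# NLS-DgUnit: units times `n`-th powers in the `n`-th cyclotomic field

If `pr s = u g ^ n` with a unit `u`, then `(pr s) ^ 2 = (u / c u) (g / c g) ^ n`, `u / c u` is a root of unity, `±` a power of `ζ`, so
`pr s` is a power of `ζ` times an `n`-th power.
-/

open NumberField Finset
open Pool.Agent.AAP Pool.Agent.Helper7.HU

namespace Pool.Agent.NLS

variable {n : ℕ} [Fact n.Prime] {K : Type} [Field K] [NumberField K] [IsCyclotomicExtension {n} ℚ K]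
  {x : ℕ}

private theorem dgunit_conj_inv {z : ℂ} {k : ℕ} (hk : k ≠ 0) (h : z ^ k = 1) :
    starRingEnd ℂ z = z⁻¹ :=
  (Complex.inv_eq_conj (Complex.norm_eq_one_of_pow_eq_one h hk)).symm

/-- the complex conjugation of `K` -/
private theorem dgunit_conj (τ : K →+* ℂ) (z : K) :
    τ ((gq n K).symm (-1) z) = starRingEnd ℂ (τ z) := by
  have hn1 : Fact (1 < n) := ⟨(Fact.out : n.Prime).one_lt⟩
  have h1 : (gq n K).symm (-1) (zt n K) = (zt n K)⁻¹ := by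
    rw [gq_spec, MulEquiv.apply_symm_apply, Units.val_neg, Units.val_one, ZMod.neg_val,
      if_neg one_ne_zero, ZMod.val_one]
    have h2 : zt n K ^ (n - 1) * zt n K = 1 := by
      rw [← pow_succ, Nat.sub_add_cancel (Fact.out : n.Prime).one_lt.le]
      exact (zt_spec n K).pow_eq_one
    exact eq_inv_of_mul_eq_one_left h2
  have h3 : τ (zt n K) ^ n = 1 := by
    rw [← map_pow, (zt_spec n K).pow_eq_one, map_one]
  let f : K →ₐ[ℚ] ℂ := (τ.comp ((gq n K).symm (-1) : K →+* K)).toRatAlgHom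
  let g : K →ₐ[ℚ] ℂ := ((starRingEnd ℂ).comp τ).toRatAlgHom
  have h4 : f = g := by
    refine ((zt_spec n K).powerBasis ℚ).algHom_ext ?_
    rw [IsPrimitiveRoot.powerBasis_gen]
    show τ ((gq n K).symm (-1) (zt n K)) = starRingEnd ℂ (τ (zt n K))
    rw [h1, map_inv₀, dgunit_conj_inv (Fact.out : n.Prime).ne_zero h3]
  exact DFunLike.congr_fun h4 z


theorem unit_rootn (hn3 : 3 ≤ n) (hx : 1 < x) {s : H n → ℤ} {g : K} {u : (𝓞 K)ˣ} (hg : g ≠ 0)
    (h : pr n K x s = ((u : 𝓞 K) : K) * g ^ n) : ∃ (i : ℕ) (b : K), i < n ∧ pr n K x s = zt n K ^ i * b ^ n := by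
  have hnp : n.Prime := Fact.out
  set c : Gal(K/ℚ) := (gq n K).symm (-1) with hc
  have hcτ : ∀ (τ : K →+* ℂ) (z : K), τ (c z) = starRingEnd ℂ (τ z) := dgunit_conj
  obtain ⟨τ⟩ : Nonempty (K →+* ℂ) := inferInstance
  set P : K := pr n K x s with hP
  have hP0 : P ≠ 0 := pr_ne_zero hx s
  have hcP : c P = P⁻¹ := by
    apply τ.injective
    rw [hcτ, map_inv₀, Complex.inv_eq_conj (norm_pr hx τ s)]
  have hu0 : ((u : 𝓞 K) : K) ≠ 0 := by
    intro h0
    rw [h0, zero_mul] at h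
    exact hP0 h
  set w : K := ((u : 𝓞 K) : K) / c ((u : 𝓞 K) : K) with hw
  have hcu0 : c ((u : 𝓞 K) : K) ≠ 0 := (_root_.map_ne_zero c).2 hu0
  have hcg0 : c g ≠ 0 := (_root_.map_ne_zero c).2 hg
  have hP2 : P ^ 2 = w * (g / c g) ^ n := by
    have h1 : c P = c ((u : 𝓞 K) : K) * c g ^ n := by rw [h, map_mul, map_pow]
    have h2 : P ^ 2 = P / c P := by
      rw [hcP]
      field_simp
    rw [h2, h1, hw, div_pow, h, mul_div_mul_comm]
  -- `w` is a root of unity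
  have hwi : IsIntegral ℤ w := by
    have h1 : w = ((u : 𝓞 K) : K) * c (((u⁻¹ : (𝓞 K)ˣ) : 𝓞 K) : K) := by
      have h2 : ((u : 𝓞 K) : K) * (((u⁻¹ : (𝓞 K)ˣ) : 𝓞 K) : K) = 1 := by
        rw [← map_mul, Units.mul_inv, map_one]
      have h3 : c ((u : 𝓞 K) : K) * c (((u⁻¹ : (𝓞 K)ˣ) : 𝓞 K) : K) = 1 := by
        rw [← map_mul, h2, map_one]
      rw [hw, div_eq_mul_inv]
      congr 1
      exact inv_eq_of_mul_eq_one_right h3
    rw [h1]
    refine (RingOfIntegers.isIntegral_coe _).mul ?_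
    exact (RingOfIntegers.isIntegral_coe (((u⁻¹ : (𝓞 K)ˣ) : 𝓞 K))).map
      ((c : K →+* K).toIntAlgHom)
  have hwn : ∀ τ : K →+* ℂ, ‖τ w‖ = 1 := by
    intro τ
    rw [hw, map_div₀, norm_div, hcτ, RCLike.norm_conj]
    exact div_self (norm_ne_zero_iff.2 ((_root_.map_ne_zero τ).2 hu0))
  obtain ⟨N, hN, hwN⟩ := NumberField.Embeddings.pow_eq_one_of_norm_eq_one K ℂ hwi hwn
  have hfin : IsOfFinOrder w := isOfFinOrder_iff_pow_eq_one.2 ⟨N, hN, hwN⟩
  have hord : orderOf w ∣ 2 * n :=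
    (IsPrimitiveRoot.orderOf w).dvd_of_isCyclotomicExtension n hfin.orderOf_pos.ne'
  have hw2n : (w ^ 2) ^ n = 1 := by
    rw [← pow_mul]
    exact orderOf_dvd_iff_pow_eq_one.1 hord
  obtain ⟨i, -, hi⟩ := (zt_spec n K).eq_pow_of_pow_eq_one hw2n
  -- `P ^ 4` is a power of `ζ` times an `n`-th power, and `n` is odd
  have hP4 : P ^ 4 = zt n K ^ i * ((g / c g) ^ 2) ^ n := by
    calc P ^ 4 = (P ^ 2) ^ 2 := by ring
      _ = w ^ 2 * ((g / c g) ^ 2) ^ n := by rw [hP2]; ring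
      _ = _ := by rw [← hi]
  have hodd : Odd n := hnp.odd_of_ne_two (by omega)
  -- `4 t = n * v + 1`
  obtain ⟨t, v, htv⟩ : ∃ t v : ℕ, 4 * t = n * v + 1 := by
    obtain ⟨m, hm⟩ := hodd
    rcases Nat.even_or_odd' m with ⟨l, hl | hl⟩
    · -- `n = 4 l + 1`, `v = 3`
      exact ⟨3 * l + 1, 3, by rw [hm, hl]; ring⟩
    · -- `n = 4 l + 3`, `v = 1`
      exact ⟨l + 1, 1, by rw [hm, hl]; ring⟩
  have hfin2 : P = zt n K ^ (i * t) * (((g / c g) ^ 2) ^ t / P ^ v) ^ n := by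
    have h1 : (P ^ 4) ^ t = P * (P ^ v) ^ n := by
      rw [← pow_mul, htv, pow_succ, mul_comm n v, pow_mul, mul_comm]
    rw [div_pow, ← mul_div_assoc, eq_div_iff (pow_ne_zero _ (pow_ne_zero _ hP0)), ← h1, hP4, mul_pow,
      ← pow_mul (zt n K), ← pow_mul ((g / c g) ^ 2) n t, ← pow_mul ((g / c g) ^ 2) t n, mul_comm n t]
  refine ⟨(i * t) % n, ((g / c g) ^ 2) ^ t / P ^ v, Nat.mod_lt _ hnp.pos, ?_⟩
  have h5 : zt n K ^ (i * t) = zt n K ^ ((i * t) % n) := by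
    conv_lhs => rw [← Nat.mod_add_div (i * t) n, pow_add, pow_mul, (zt_spec n K).pow_eq_one, one_pow, mul_one]
  rw [← h5]
  exact hfin2

end Pool.Agent.NLS
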