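import Pool.Agent.NLS.D0Rows
import Pool.Agent.NLS.DgUnit
import Pool.Agent.NLS.IdxM

/-!
# NLS-DgIdx: the index of the lattice `Lam n hx T` for `q = n`

For `s ∈ Lq n n` the product `pr s` is a power of `ζ` times an `n`-th power; the power of `ζ` has `n` possible values, so the
index of `Lam n hx ∅` is at most `n` times the index of `Lq n n`. Adding an embedding to `T` multiplies the index by at most `n`.
-/

open NumberField Finset
open Pool.Agent.AAP Pool.Agent.Helper7.HU

namespace Pool.Agent.NLS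

variable {n : ℕ} [Fact n.Prime] {K : Type} [Field K] [NumberField K] [IsCyclotomicExtension {n} ℚ K]
  {q x y : ℕ}

private theorem dgidx_pr_nsmul (x q : ℕ) (v : H n → ℤ) : pr n K x (q • v) = pr n K x v ^ q := by
  unfold pr
  rw [← Finset.prod_pow]
  refine Finset.prod_congr rfl fun e _ => ?_
  rw [Pi.smul_apply, nsmul_eq_mul, mul_comm, zpow_mul, zpow_natCast]

private theorem dgidx_tau_pr (hx : 1 < x) (τ : K →+* ℂ) (s : H n → ℤ) :
    τ (pr n K x s) = Complex.exp (((ang n K x τ s : ℝ) : ℂ) * Complex.I) := by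
  unfold pr ang
  rw [map_prod, Complex.ofReal_sum, Finset.sum_mul, Complex.exp_sum]
  refine Finset.prod_congr rfl fun e _ => ?_
  rw [map_zpow₀]
  have h1 := Complex.norm_mul_exp_arg_mul_I (τ (al n K x (e : (ZMod n)ˣ)))
  rw [norm_al hx, Complex.ofReal_one, one_mul] at h1
  rw [Complex.ofReal_mul, Complex.ofReal_intCast, mul_assoc, Complex.exp_int_mul, h1]

private theorem dgidx_sub [DecidableEq (K →+* ℂ)] (hx : 1 < x) {T : Finset (K →+* ℂ)} (τ : K →+* ℂ) {s t : H n → ℤ}
    {b c : K} (hb : IsRt n q x T s b) (hc : IsRt n q x T t c)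
    (h : τ b * Complex.exp (-(((ang n K x τ s / q : ℝ) : ℂ) * Complex.I)) =
      τ c * Complex.exp (-(((ang n K x τ t / q : ℝ) : ℂ) * Complex.I))) (hb0 : b ≠ 0) :
    IsRt n q x (insert τ T) (-s + t) (b⁻¹ * c) := by
  have h0 := hb.neg.add hx hc
  refine ⟨h0.1, fun σ hσ => ?_⟩
  rcases Finset.mem_insert.1 hσ with rfl | hσ
  · have hσb : σ b ≠ 0 := by
      intro h1
      exact hb0 ((map_eq_zero σ).1 h1)
    rw [Complex.exp_neg, Complex.exp_neg] at h
    rw [map_mul, map_inv₀, ang_add, ang_neg]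
    have h1 : ((((-ang n K x σ s + ang n K x σ t) / q : ℝ) : ℂ) * Complex.I) =
        (((ang n K x σ t / q : ℝ) : ℂ) * Complex.I) -
          (((ang n K x σ s / q : ℝ) : ℂ) * Complex.I) := by
      push_cast
      ring
    rw [h1, Complex.exp_sub]
    have h2 := Complex.exp_ne_zero (((ang n K x σ s / q : ℝ) : ℂ) * Complex.I)
    have h3 := Complex.exp_ne_zero (((ang n K x σ t / q : ℝ) : ℂ) * Complex.I)
    field_simp at h ⊢
    rw [mul_comm] at h
    linear_combination -h
  · exact h0.2 σ hσ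

private theorem dgidx_root (hx : 1 < x) (hq0 : q ≠ 0) {T : Finset (K →+* ℂ)} (τ : K →+* ℂ)
    {s : H n → ℤ} {b : K} (hb : IsRt n q x T s b) :
    (τ b * Complex.exp (-(((ang n K x τ s / q : ℝ) : ℂ) * Complex.I))) ^ q = 1 := by
  rw [mul_pow, ← map_pow, hb.1, dgidx_tau_pr hx, ← Complex.exp_nat_mul, ← Complex.exp_add,
    ← Complex.exp_zero]
  congr 1
  have h1 : (q : ℂ) ≠ 0 := Nat.cast_ne_zero.2 hq0
  push_cast
  field_simp
  ring

private theorem dgidx_step [DecidableEq (K →+* ℂ)] (hx : 1 < x) (hq0 : q ≠ 0) (T : Finset (K →+* ℂ)) (τ : K →+* ℂ) :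
    (Lam (n := n) (K := K) q hx (insert τ T)).relIndex (Lam q hx T) ≠ 0 ∧
      (Lam (n := n) (K := K) q hx (insert τ T)).relIndex (Lam q hx T) ≤ q := by
  set A := Lam (n := n) (K := K) q hx T with hA
  set B := (Lam (n := n) (K := K) q hx (insert τ T)).addSubgroupOf A with hB
  choose r hr using fun s : A => s.2
  have hr0 : ∀ s : A, r s ≠ 0 := by
    intro s h
    have h1 := (hr s).1
    rw [h, zero_pow hq0] at h1
    exact pr_ne_zero hx _ h1.symm
  let F : A → ℂ := fun s => τ (r s) *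
    Complex.exp (-(((ang n K x τ (s : H n → ℤ) / q : ℝ) : ℂ) * Complex.I))
  have hF : ∀ s, F s ∈ Polynomial.nthRootsFinset q (1 : ℂ) := by
    intro s
    rw [Polynomial.mem_nthRootsFinset (Nat.pos_of_ne_zero hq0)]
    exact dgidx_root hx hq0 τ (hr s)
  have hFi : ∀ s t : A, F s = F t → (QuotientAddGroup.mk s : A ⧸ B) = QuotientAddGroup.mk t := by
    intro s t hst
    rw [QuotientAddGroup.eq, hB, AddSubgroup.mem_addSubgroupOf]
    exact ⟨_, dgidx_sub hx τ (hr s) (hr t) hst (hr0 s)⟩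
  let G : A ⧸ B → Polynomial.nthRootsFinset q (1 : ℂ) := fun z =>
    ⟨F (Quotient.out z), hF _⟩
  have hG : Function.Injective G := by
    intro z w hzw
    have h1 : F (Quotient.out z) = F (Quotient.out w) := congrArg Subtype.val hzw
    have h2 := hFi _ _ h1
    rwa [QuotientAddGroup.out_eq', QuotientAddGroup.out_eq'] at h2
  have hfin : Finite (A ⧸ B) := Finite.of_injective G hG
  have hidx : (Lam (n := n) (K := K) q hx (insert τ T)).relIndex A = Nat.card (A ⧸ B) := rfl
  rw [hidx]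
  refine ⟨Nat.card_pos.ne', ?_⟩
  refine (Nat.card_le_card_of_injective G hG).trans ?_
  rw [Nat.card_eq_fintype_card, Fintype.card_coe,
    (Complex.isPrimitiveRoot_exp q hq0).card_nthRootsFinset]

/-- the exponents `s` such that `pr s` is a power of `ζ` times an `n`-th power -/
private def dgidx_A (n : ℕ) [Fact n.Prime] (K : Type) [Field K] [NumberField K] [IsCyclotomicExtension {n} ℚ K]
    {x : ℕ} (hx : 1 < x) : AddSubgroup (H n → ℤ) where
  carrier := {s | ∃ (i : ℕ) (b : K), i < n ∧ pr n K x s = zt n K ^ i * b ^ n}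
  zero_mem' := ⟨0, 1, (Fact.out : n.Prime).pos, by rw [pr_zero, pow_zero, one_pow, mul_one]⟩
  add_mem' := by
    rintro s t ⟨i, b, hi, hb⟩ ⟨j, c, hj, hc⟩
    refine ⟨(i + j) % n, b * c, Nat.mod_lt _ (Fact.out : n.Prime).pos, ?_⟩
    have h5 : zt n K ^ (i + j) = zt n K ^ ((i + j) % n) := by
      conv_lhs => rw [← Nat.mod_add_div (i + j) n, pow_add, pow_mul, (zt_spec n K).pow_eq_one, one_pow, mul_one]
    rw [pr_add hx, hb, hc, ← h5, pow_add, mul_pow]
    ring
  neg_mem' := by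
    rintro s ⟨i, b, hi, hb⟩
    refine ⟨(n - i) % n, b⁻¹, Nat.mod_lt _ (Fact.out : n.Prime).pos, ?_⟩
    have h5 : zt n K ^ (n - i) = zt n K ^ ((n - i) % n) := by
      conv_lhs => rw [← Nat.mod_add_div (n - i) n, pow_add, pow_mul, (zt_spec n K).pow_eq_one, one_pow, mul_one]
    have h6 : zt n K ^ (n - i) * zt n K ^ i = 1 := by
      rw [← pow_add, Nat.sub_add_cancel hi.le, (zt_spec n K).pow_eq_one]
    rw [pr_neg, hb, ← h5, mul_inv, inv_pow]
    congr 1
    exact inv_eq_of_mul_eq_one_left h6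

private theorem dgidx_row (S : D0.Sol n n x y) (b : H n) : (M n b : H n → ℤ) ∈ dgidx_A n K S.hx := by
  obtain ⟨g, u, hg, h⟩ := D0.rows_unit (K := K) S b
  have h5 := S.hn5
  exact unit_rootn (by omega) S.hx hg h

private theorem dgidx_le (S : D0.Sol n n x y) : Lq n n ≤ dgidx_A n K S.hx := by
  refine sup_le ?_ ?_
  · rintro s ⟨c, rfl⟩
    have h1 : (Matrix.vecMulLinear (M n)).toAddMonoidHom c = ∑ b, c b • (M n b : H n → ℤ) := by
      change Matrix.vecMul c (M n) = _
      rw [Matrix.vecMul_eq_sum]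
    rw [h1]
    exact AddSubgroup.sum_mem _ fun b _ => AddSubgroup.zsmul_mem _ (dgidx_row S b) _
  · rintro s ⟨v, rfl⟩
    refine ⟨0, pr n K x v, (Fact.out : n.Prime).pos, ?_⟩
    rw [pow_zero, one_mul]
    exact dgidx_pr_nsmul x n v

private theorem dgidx_empty {x : ℕ} (hx : 1 < x) :
    (Lam (n := n) (K := K) n hx ∅).relIndex (dgidx_A n K hx) ≠ 0 ∧
      (Lam (n := n) (K := K) n hx ∅).relIndex (dgidx_A n K hx) ≤ n := by
  classical
  set A := dgidx_A n K hx with hA
  set B := (Lam (n := n) (K := K) n hx ∅).addSubgroupOf A with hB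
  have hA' : ∀ s : A, ∃ (i : Fin n) (b : K), pr n K x (s : H n → ℤ) = zt n K ^ (i : ℕ) * b ^ n := by
    intro s
    obtain ⟨i, b, hi, hb⟩ := s.2
    exact ⟨⟨i, hi⟩, b, hb⟩
  choose F r hr using hA'
  have hz0 : zt n K ≠ 0 := (zt_spec n K).ne_zero (Fact.out : n.Prime).ne_zero
  have hFi : ∀ s t : A, F s = F t → (QuotientAddGroup.mk s : A ⧸ B) = QuotientAddGroup.mk t := by
    intro s t hst
    rw [QuotientAddGroup.eq, hB, AddSubgroup.mem_addSubgroupOf]
    refine ⟨(r s)⁻¹ * r t, ?_, fun τ hτ => absurd hτ (Finset.notMem_empty τ)⟩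
    show ((r s)⁻¹ * r t) ^ n = pr n K x (-(s : H n → ℤ) + (t : H n → ℤ))
    have hzF : zt n K ^ (F t : ℕ) ≠ 0 := pow_ne_zero _ hz0
    rw [pr_add hx, pr_neg, hr s, hr t, hst, mul_inv, mul_pow, inv_pow]
    field_simp
  let G : A ⧸ B → Fin n := fun z => F (Quotient.out z)
  have hG : Function.Injective G := by
    intro z w hzw
    have h2 := hFi _ _ hzw
    rwa [QuotientAddGroup.out_eq', QuotientAddGroup.out_eq'] at h2
  have hfin : Finite (A ⧸ B) := Finite.of_injective G hG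
  have hidx : (Lam (n := n) (K := K) n hx ∅).relIndex A = Nat.card (A ⧸ B) := rfl
  rw [hidx]
  refine ⟨Nat.card_pos.ne', ?_⟩
  refine (Nat.card_le_card_of_injective G hG).trans ?_
  rw [Nat.card_eq_fintype_card, Fintype.card_fin]

theorem lam_index0 (S : D0.Sol n n x y) (T : Finset (K →+* ℂ)) :
    (Lam (n := n) (K := K) n S.hx T).index ≠ 0 ∧
      (Lam (n := n) (K := K) n S.hx T).index ≤ (Lq n n).index * n * n ^ T.card := by
  classical
  have hq0 : n ≠ 0 := S.hn.ne_zero
  induction T using Finset.induction_on with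
  | empty =>
    have h5 := S.hn5
    have h0 : (Lq n n).index ≠ 0 := lq_index_ne (by omega) n
    have h1 := AddSubgroup.index_dvd_of_le (dgidx_le (K := K) S)
    have h2 : (dgidx_A n K S.hx).index ≠ 0 := ne_zero_of_dvd_ne_zero h0 h1
    have h3 : (dgidx_A n K S.hx).index ≤ (Lq n n).index := Nat.le_of_dvd (Nat.pos_of_ne_zero h0) h1
    have h4 : Lam (n := n) (K := K) n S.hx ∅ ≤ dgidx_A n K S.hx := by
      rintro s ⟨b, hb, -⟩
      exact ⟨0, b, S.hn.pos, by rw [pow_zero, one_mul, hb]⟩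
    have h6 := AddSubgroup.relIndex_mul_index h4
    obtain ⟨h7, h8⟩ := dgidx_empty (n := n) (K := K) S.hx
    rw [← h6]
    refine ⟨mul_ne_zero h7 h2, ?_⟩
    rw [Finset.card_empty, pow_zero, mul_one, mul_comm]
    exact Nat.mul_le_mul h3 h8
  | insert τ T hτ ih =>
    have h1 : Lam (n := n) (K := K) n S.hx (insert τ T) ≤ Lam n S.hx T := by
      rintro s ⟨b, hb⟩
      exact ⟨b, hb.mono (Finset.subset_insert τ T)⟩
    have h2 := AddSubgroup.relIndex_mul_index h1
    obtain ⟨h3, h4⟩ := dgidx_step (n := n) S.hx hq0 T τ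
    rw [← h2]
    refine ⟨mul_ne_zero h3 ih.1, ?_⟩
    rw [Finset.card_insert_of_notMem hτ]
    calc _ ≤ n * ((Lq n n).index * n * n ^ T.card) := Nat.mul_le_mul h4 ih.2
      _ = (Lq n n).index * n * n ^ (T.card + 1) := by ring

end Pool.Agent.NLS
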