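import Mathlib

/-!
# NLS-LvPerf: exponentials times polynomials over a field of characteristic `q`, truncated below `q`

`∑_b exp(β_b S) g_b(S)` with distinct `β_b` and `g_b` of degree `< d_b` does not vanish to the order `∑ d_b ≤ q`.

Proof. Put `γ b r = r! g_b(r)` (`r < d_b ≤ q`; `r! ≠ 0`). `s!` times the coefficient of `S^s` is `∑_b ∑_(r ≤ s) C(s, r) β_b^(s-r) γ b r`
(`s! / (i! (s-i)!) = C(s, i)`), which is `∑_b ∑_(r < d_b) γ b r * (hasseDeriv r (X^s)).eval β_b`. By linearity `∑_b ∑_r γ b r *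
(hasseDeriv r p).eval β_b = 0` for all polynomials `p` of degree `< D = ∑ d_b`. If some `γ b r0 ≠ 0` (take `r0 < d_b` maximal for this
`b`), use `p = (X - β_b)^r0 ∏_(b' ≠ b) (X - β_b')^(d_b')` (degree `< D`): by `Polynomial.taylor_coeff` its Hasse derivatives of order
`r < d_b'` at `β_b'` vanish, those of order `r < r0` at `β_b` vanish, and the one of order `r0` at `β_b` is `∏ (β_b - β_b')^(d_b') ≠ 0`.
-/

open Finset

namespace Pool.Agent.NLS

private theorem LvPerf_fact {k : Type} [Field k] {q : ℕ} (hq : ∀ i : ℕ, 1 ≤ i → i < q → (i : k) ≠ 0) :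
    ∀ s : ℕ, s < q → (s.factorial : k) ≠ 0 := by
  intro s
  induction s with
  | zero => intro _; simp
  | succ n ih =>
    intro hn
    rw [Nat.factorial_succ, Nat.cast_mul]
    exact mul_ne_zero (hq (n + 1) (Nat.le_add_left 1 n) hn) (ih (by omega))

private theorem LvPerf_lin {k : Type} [Field k] (a : k) (m : ℕ) :
    Polynomial.taylor a ((Polynomial.X - Polynomial.C a) ^ m) = Polynomial.X ^ m := by
  rw [Polynomial.taylor_pow, map_sub, Polynomial.taylor_X, Polynomial.taylor_C, add_sub_cancel_right]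

private theorem LvPerf_dvd {k : Type} [Field k] (a : k) (m : ℕ) (p : Polynomial k)
    (h : (Polynomial.X - Polynomial.C a) ^ m ∣ p) (r : ℕ) (hr : r < m) :
    (Polynomial.taylor a p).coeff r = 0 := by
  obtain ⟨c, rfl⟩ := h
  rw [Polynomial.taylor_mul, LvPerf_lin, Polynomial.coeff_X_pow_mul', if_neg (by omega)]

private theorem LvPerf_top {k : Type} [Field k] (a : k) (m : ℕ) (c : Polynomial k) :
    (Polynomial.taylor a ((Polynomial.X - Polynomial.C a) ^ m * c)).coeff m = c.eval a := by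
  rw [Polynomial.taylor_mul, LvPerf_lin, Polynomial.coeff_X_pow_mul', if_pos le_rfl, Nat.sub_self,
    Polynomial.taylor_coeff_zero]

private theorem LvPerf_term {k : Type} [Field k] {q : ℕ} (hq : ∀ i : ℕ, 1 ≤ i → i < q → (i : k) ≠ 0)
    (β : k) (g : ℕ → k) (s i : ℕ) (hi : i ≤ s) (hs : s < q) :
    (s.factorial : k) * (β ^ i / (i.factorial : k) * g (s - i)) =
      (s.choose (s - i) : k) * β ^ (s - (s - i)) * (((s - i).factorial : k) * g (s - i)) := by
  have h1 : ((s.choose i * i.factorial * (s - i).factorial : ℕ) : k) = (s.factorial : k) := by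
    rw [Nat.choose_mul_factorial_mul_factorial hi]
  have h2 : (i.factorial : k) ≠ 0 := LvPerf_fact hq i (lt_of_le_of_lt hi hs)
  rw [Nat.choose_symm hi, Nat.sub_sub_self hi, ← h1]
  push_cast
  field_simp

private theorem LvPerf_mon {k : Type} [Field k] {q : ℕ} (hq : ∀ i : ℕ, 1 ≤ i → i < q → (i : k) ≠ 0)
    (β : k) (g : ℕ → k) (d s : ℕ) (hg : ∀ r, d ≤ r → g r = 0) (hs : s < q) :
    ∑ r ∈ range d, ((r.factorial : k) * g r) * (Polynomial.taylor β (Polynomial.X ^ s)).coeff r =
      (s.factorial : k) * ∑ i ∈ range (s + 1), β ^ i / (i.factorial : k) * g (s - i) := by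
  set t : ℕ → k := fun r => (s.choose r : k) * β ^ (s - r) * ((r.factorial : k) * g r) with ht
  have h1 : ∑ r ∈ range d, ((r.factorial : k) * g r) *
      (Polynomial.taylor β (Polynomial.X ^ s)).coeff r = ∑ r ∈ range d, t r := by
    refine Finset.sum_congr rfl fun r _ => ?_
    rw [Polynomial.taylor_X_pow, Polynomial.coeff_X_add_C_pow]
    simp only [ht]
    ring
  have h2 : (s.factorial : k) * ∑ i ∈ range (s + 1), β ^ i / (i.factorial : k) * g (s - i) =
      ∑ r ∈ range (s + 1), t r := by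
    rw [Finset.mul_sum, ← Finset.sum_range_reflect t (s + 1)]
    refine Finset.sum_congr rfl fun i hi => ?_
    have hi' : i ≤ s := Nat.lt_succ_iff.mp (Finset.mem_range.mp hi)
    rw [LvPerf_term hq β g s i hi' hs, Nat.add_sub_cancel]
  rw [h1, h2]
  have h3 : ∑ r ∈ range d, t r = ∑ r ∈ range (max d (s + 1)), t r := by
    refine Finset.sum_subset (Finset.range_mono (le_max_left _ _)) fun r _ hr => ?_
    have hr' : d ≤ r := not_lt.mp fun h => hr (Finset.mem_range.mpr h)
    simp only [ht, hg r hr', mul_zero]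
  have h4 : ∑ r ∈ range (s + 1), t r = ∑ r ∈ range (max d (s + 1)), t r := by
    refine Finset.sum_subset (Finset.range_mono (le_max_right _ _)) fun r _ hr => ?_
    have hr' : s < r := by
      have : ¬ r < s + 1 := fun h => hr (Finset.mem_range.mpr h)
      omega
    simp only [ht, Nat.choose_eq_zero_of_lt hr', Nat.cast_zero, zero_mul]
  rw [h3, h4]

/-- the functional of the proof -/
private noncomputable def LvPerf_L {k : Type} [Field k] {ι : Type} (B : Finset ι) (β : ι → k)
    (g : ι → ℕ → k) (d : ι → ℕ) : Polynomial k →ₗ[k] k :=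
  ∑ b ∈ B, ∑ r ∈ range (d b), ((r.factorial : k) * g b r) •
    ((Polynomial.lcoeff k r).comp (Polynomial.taylor (β b)))

private theorem LvPerf_L_apply {k : Type} [Field k] {ι : Type} (B : Finset ι) (β : ι → k)
    (g : ι → ℕ → k) (d : ι → ℕ) (p : Polynomial k) :
    LvPerf_L B β g d p = ∑ b ∈ B, ∑ r ∈ range (d b),
      ((r.factorial : k) * g b r) * (Polynomial.taylor (β b) p).coeff r := by
  simp [LvPerf_L, LinearMap.sum_apply, Polynomial.lcoeff_apply]

theorem lv_perf {k : Type} [Field k] {q : ℕ} (hq : ∀ i : ℕ, 1 ≤ i → i < q → (i : k) ≠ 0) {ι : Type}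
    (B : Finset ι) (β : ι → k) (hβ : ∀ b ∈ B, ∀ b' ∈ B, β b = β b' → b = b') (g : ι → ℕ → k) (d : ι → ℕ)
    (hg : ∀ b ∈ B, ∀ s, d b ≤ s → g b s = 0) (hD : ∑ b ∈ B, d b ≤ q)
    (h : ∀ s < ∑ b ∈ B, d b, ∑ b ∈ B, ∑ i ∈ range (s + 1), β b ^ i / (i.factorial : k) * g b (s - i) = 0) :
    ∀ b ∈ B, ∀ s, g b s = 0 := by
  classical
  have hX : ∀ s < ∑ b ∈ B, d b, LvPerf_L B β g d (Polynomial.X ^ s) = 0 := by
    intro s hs
    rw [LvPerf_L_apply]
    have h1 : ∀ b ∈ B, ∑ r ∈ range (d b), ((r.factorial : k) * g b r) *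
        (Polynomial.taylor (β b) (Polynomial.X ^ s)).coeff r =
        (s.factorial : k) * ∑ i ∈ range (s + 1), β b ^ i / (i.factorial : k) * g b (s - i) :=
      fun b hb => LvPerf_mon hq (β b) (g b) (d b) s (hg b hb) (lt_of_lt_of_le hs hD)
    rw [Finset.sum_congr rfl h1, ← Finset.mul_sum, h s hs, mul_zero]
  have hp : ∀ p : Polynomial k, p.natDegree < ∑ b ∈ B, d b → LvPerf_L B β g d p = 0 := by
    intro p hdeg
    rw [p.as_sum_range_C_mul_X_pow' hdeg, map_sum]
    refine Finset.sum_eq_zero fun s hs => ?_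
    rw [← Polynomial.smul_eq_C_mul, map_smul, hX s (Finset.mem_range.mp hs), smul_zero]
  by_contra hcon
  simp only [not_forall] at hcon
  obtain ⟨b, hb, s, hs⟩ := hcon
  have hsd : s < d b := by
    by_contra hn
    exact hs (hg b hb s (not_lt.mp hn))
  have hne : ((range (d b)).filter fun r => g b r ≠ 0).Nonempty :=
    ⟨s, Finset.mem_filter.mpr ⟨Finset.mem_range.mpr hsd, hs⟩⟩
  set r0 := ((range (d b)).filter fun r => g b r ≠ 0).max' hne with hr0
  have hr0m := Finset.max'_mem _ hne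
  rw [← hr0, Finset.mem_filter, Finset.mem_range] at hr0m
  obtain ⟨hr0d, hr0g⟩ := hr0m
  have hmax : ∀ r, r < d b → r0 < r → g b r = 0 := by
    intro r hr hlt
    by_contra hg0
    have hm : r ∈ (range (d b)).filter fun r => g b r ≠ 0 :=
      Finset.mem_filter.mpr ⟨Finset.mem_range.mpr hr, hg0⟩
    have hle := Finset.le_max' _ r hm
    rw [← hr0] at hle
    omega
  set Q : Polynomial k := ∏ b' ∈ B.erase b, (Polynomial.X - Polynomial.C (β b')) ^ d b' with hQ
  set p : Polynomial k := (Polynomial.X - Polynomial.C (β b)) ^ r0 * Q with hpdef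
  have hsum : d b + ∑ b' ∈ B.erase b, d b' = ∑ b ∈ B, d b := Finset.add_sum_erase B d hb
  have hdeg : p.natDegree < ∑ b ∈ B, d b := by
    have h1 : p.natDegree ≤ r0 + ∑ b' ∈ B.erase b, d b' := by
      refine Polynomial.natDegree_mul_le.trans (Nat.add_le_add ?_ ?_)
      · rw [Polynomial.natDegree_pow, Polynomial.natDegree_X_sub_C, mul_one]
      · refine (Polynomial.natDegree_prod_le _ _).trans (Finset.sum_le_sum fun b' _ => ?_)
        show ((Polynomial.X - Polynomial.C (β b')) ^ d b').natDegree ≤ d b'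
        rw [Polynomial.natDegree_pow, Polynomial.natDegree_X_sub_C, mul_one]
    omega
  have h0 := hp p hdeg
  rw [LvPerf_L_apply, Finset.sum_eq_single b, Finset.sum_eq_single r0, hpdef, LvPerf_top] at h0
  · have hrq : r0 < q := by
      have : d b ≤ ∑ b ∈ B, d b := Finset.single_le_sum (f := d) (fun _ _ => Nat.zero_le _) hb
      omega
    have hQ0 : Q.eval (β b) ≠ 0 := by
      rw [hQ, Polynomial.eval_prod]
      refine Finset.prod_ne_zero_iff.mpr fun b' hb' => ?_
      rw [Polynomial.eval_pow, Polynomial.eval_sub, Polynomial.eval_X, Polynomial.eval_C]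
      refine pow_ne_zero _ (sub_ne_zero.mpr fun he => ?_)
      exact (Finset.ne_of_mem_erase hb') (hβ b hb b' (Finset.mem_of_mem_erase hb') he).symm
    exact mul_ne_zero (mul_ne_zero (LvPerf_fact hq r0 hrq) hr0g) hQ0 h0
  · intro r hr hrne
    rcases lt_or_gt_of_ne hrne with hlt | hgt
    · rw [LvPerf_dvd (β b) r0 p (Dvd.intro _ rfl) r hlt, mul_zero]
    · rw [hmax r (Finset.mem_range.mp hr) hgt, mul_zero, zero_mul]
  · intro hn
    exact absurd (Finset.mem_range.mpr hr0d) hn
  · intro b' hb' hne'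
    refine Finset.sum_eq_zero fun r hr => ?_
    have hd : (Polynomial.X - Polynomial.C (β b')) ^ d b' ∣ p :=
      Dvd.dvd.mul_left (Finset.dvd_prod_of_mem (fun b' => (Polynomial.X - Polynomial.C (β b')) ^ d b')
        (Finset.mem_erase.mpr ⟨hne', hb'⟩)) _
    rw [LvPerf_dvd (β b') (d b') p hd r (Finset.mem_range.mp hr), mul_zero]
  · intro hn
    exact absurd hb hn

end Pool.Agent.NLS
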