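import Pool.Agent.NLS.LvDef
import Pool.Agent.NLS.LvPerf
import Pool.Agent.NLS.Ex

/-!
# NLS-DgKey: leading forms at integral slopes

The weight of `y T ^ j` at the slope `a` is `v(y) + a j`; it is `≥ M` iff `D.ge y (M - a * j)`. `topA`: the smallest weight is `M` and all the
indices of this weight are `≤ J`. `lowA`: some index `≤ J` has the smallest weight.

Proofs. `low_topA`: compare the weights at the slope `a + 1` with the one of an index `j1 ≤ J` of minimal weight at the slope `a`.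
`dg_ex`: strong induction with `ex_succ`; only the term `i = 0` has the smallest valuation. `dg_key`: if all the residues of the sum
were zero up to the index `∑ m b`, then `lv_perf` would give that the residues of all the `f b` are zero.
-/

open Finset

namespace Pool.Agent.NLS

/-- the weights at the slope `a` have a minimum, and all the indices of minimal weight are at most `J` -/
def topA {K k : Type} [Field K] [Field k] (D : DV K k) (a N : ℕ) (f : ℕ → K) (J : ℕ) : Prop :=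
  ∃ M : ℤ, (∀ j < N, D.ge (f j) (M - a * j)) ∧ (∃ j ≤ J, j < N ∧ ¬ D.ge (f j) (M + 1 - a * j)) ∧
    ∀ j < N, J < j → D.ge (f j) (M + 1 - a * j)

/-- the weights at the slope `a` have a minimum, and some index of minimal weight is at most `J` -/
def lowA {K k : Type} [Field K] [Field k] (D : DV K k) (a N : ℕ) (f : ℕ → K) (J : ℕ) : Prop :=
  ∃ M : ℤ, (∀ j < N, D.ge (f j) (M - a * j)) ∧ ∃ j ≤ J, j < N ∧ ¬ D.ge (f j) (M + 1 - a * j)

theorem low_topA {K k : Type} [Field K] [Field k] (D : DV K k) {a N : ℕ} {f : ℕ → K} {J : ℕ} (h : lowA D a N f J) :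
    topA D (a + 1) N f J := by
  classical
  obtain ⟨M, hM, j1, hj1J, hj1N, hj1⟩ := h
  have hf1 : f j1 ≠ 0 := by
    intro h0
    apply hj1
    rw [h0]
    exact D.ge_zero _
  have hval : ∀ j : ℕ, ∃ v : ℤ, f j ≠ 0 → ∀ a : ℤ, D.ge (f j) a ↔ a ≤ v := by
    intro j
    by_cases hj : f j = 0
    · exact ⟨0, fun h => absurd hj h⟩
    · obtain ⟨v, hv⟩ := D.ex_val hj
      exact ⟨v, fun _ => hv⟩
  choose v hv using hval
  have hM1 := hM j1 hj1N
  rw [hv j1 hf1] at hM1 hj1
  have hbig : ∀ j < N, J < j → f j ≠ 0 → v j1 + ((a : ℤ) + 1) * j1 + 1 ≤ v j + ((a : ℤ) + 1) * j := by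
    intro j hjN hjJ hj0
    have h1 := hM j hjN
    rw [hv j hj0] at h1
    have h3 : (j1 : ℤ) + 1 ≤ j := by exact_mod_cast lt_of_le_of_lt hj1J hjJ
    have h4 : v j1 < M + 1 - a * j1 := not_le.1 hj1
    have h5 : v j1 ≤ M - a * j1 := by linarith [Int.lt_add_one_iff.1 (by linarith : v j1 < M - a * j1 + 1)]
    linarith
  let S : Finset ℕ := (Finset.range N).filter fun j => f j ≠ 0
  have hS : S.Nonempty := ⟨j1, Finset.mem_filter.2 ⟨Finset.mem_range.2 hj1N, hf1⟩⟩
  obtain ⟨j2, hj2, hmin⟩ := Finset.exists_min_image S (fun j => v j + ((a : ℤ) + 1) * j) hS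
  have hj2' := Finset.mem_filter.1 hj2
  have hj2N : j2 < N := Finset.mem_range.1 hj2'.1
  have h12 := hmin j1 (Finset.mem_filter.2 ⟨Finset.mem_range.2 hj1N, hf1⟩)
  refine ⟨v j2 + ((a : ℤ) + 1) * j2, fun j hj => ?_, ⟨j2, ?_, hj2N, ?_⟩, fun j hj hJj => ?_⟩
  · by_cases hj0 : f j = 0
    · rw [hj0]
      exact D.ge_zero _
    · rw [hv j hj0]
      have := hmin j (Finset.mem_filter.2 ⟨Finset.mem_range.2 hj, hj0⟩)
      push_cast
      linarith
  · by_contra hlt
    have := hbig j2 hj2N (by omega) hj2'.2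
    linarith
  · rw [hv j2 hj2'.2]
    push_cast
    intro h
    linarith
  · by_cases hj0 : f j = 0
    · rw [hj0]
      exact D.ge_zero _
    · rw [hv j hj0]
      have := hbig j hj hJj hj0
      push_cast
      linarith

private theorem dgkey_cast {k : Type} [Field k] {K : Type} [Field K] [CharZero K] (D : DV K k) {n : ℕ} (h1 : 1 ≤ n)
    (hn : (n : k) ≠ 0) : ∀ a : ℤ, D.ge (n : K) a ↔ a ≤ 0 := by
  have hg : D.ge (n : K) 0 := D.ge_iff_mem.2 (natCast_mem D.O n)
  have hn0 : (n : K) ≠ 0 := by exact_mod_cast (by omega : n ≠ 0)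
  obtain ⟨v, hv⟩ := D.ex_val hn0
  have h2 : ¬ D.ge (n : K) (0 + 1) := by
    rw [← D.lr_zero_iff hg, D.lr_natCast]
    exact hn
  have h3 := (hv 0).1 hg
  rw [hv] at h2
  have h4 : v = 0 := by omega
  intro a
  rw [hv, h4]

theorem dg_ex {K k : Type} [Field K] [CharZero K] [Field k] (D : DV K k) {q N a : ℕ} (ha : 1 ≤ a)
    (hk : ∀ i : ℕ, 1 ≤ i → i < q → (i : k) ≠ 0) (hNq : N ≤ q) (y : ℕ → K) (hy : ∀ l, 1 ≤ l → D.ge (y l) (-(a : ℤ))) :
    ∀ j < N, D.ge (ex y j) (-((a : ℤ) * j)) ∧ D.lr (ex y j) (-((a : ℤ) * j)) = D.lr (y 1) (-(a : ℤ)) ^ j / (j.factorial : k) := by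
  intro j
  induction j using Nat.strong_induction_on with
  | _ j ih =>
    intro hj
    rcases j with _ | j
    · have h0 : -((a : ℤ) * ((0 : ℕ) : ℤ)) = 0 := by simp
      rw [h0, ex_zero]
      exact ⟨D.ge_one, by rw [D.lr_one]; simp⟩
    · have ha0 : (1 : ℤ) ≤ a := by exact_mod_cast ha
      have hck : ((j + 1 : ℕ) : k) ≠ 0 := hk (j + 1) (by omega) (by omega)
      have hc := dgkey_cast D (K := K) (n := j + 1) (by omega) hck
      have hrec := ex_succ (K := K) y j
      have hcast : ((j : K) + 1) = ((j + 1 : ℕ) : K) := by push_cast; ring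
      rw [hcast] at hrec
      set A : ℤ := -((a : ℤ) * ((j + 1 : ℕ) : ℤ)) with hA
      have hterm : ∀ i ∈ range (j + 1), D.ge (y (i + 1) * ex y (j - i)) (A + a * i) := by
        intro i hi
        have hi' : i ≤ j := Nat.lt_succ_iff.mp (Finset.mem_range.mp hi)
        have h1 := D.ge_mul (hy (i + 1) (by omega)) (ih (j - i) (by omega) (by omega)).1
        have h2 : -(a : ℤ) + -((a : ℤ) * ((j - i : ℕ) : ℤ)) = A + a * i := by
          rw [hA, Nat.cast_sub hi']
          push_cast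
          ring
        rwa [h2] at h1
      have hterm0 : ∀ i ∈ range (j + 1), D.ge (y (i + 1) * ex y (j - i)) A := by
        intro i hi
        refine D.ge_mono ?_ (hterm i hi)
        have : (0 : ℤ) ≤ a * i := by positivity
        linarith
      have hS := D.ge_sum (range (j + 1)) (fun i => y (i + 1) * ex y (j - i)) hterm0
      have hlr := D.lr_sum (range (j + 1)) (fun i => y (i + 1) * ex y (j - i)) hterm0
      have hsing : ∑ i ∈ range (j + 1), D.lr (y (i + 1) * ex y (j - i)) A = D.lr (y (0 + 1) * ex y (j - 0)) A := by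
        refine Finset.sum_eq_single 0 (fun i hi hi0 => ?_) (fun h => ?_)
        · rw [D.lr_zero_iff (hterm0 i hi)]
          refine D.ge_mono ?_ (hterm i hi)
          have h1 : (1 : ℤ) ≤ i := by exact_mod_cast Nat.one_le_iff_ne_zero.2 hi0
          have h2 : (1 : ℤ) ≤ a * i := by nlinarith
          linarith
        · exact absurd (Finset.mem_range.2 (Nat.succ_pos j)) h
      rw [hsing] at hlr
      rw [← hrec] at hS hlr
      obtain ⟨hg, hl⟩ := ih j (by omega) (by omega)
      have hlr0 : D.lr (y (0 + 1) * ex y (j - 0)) A = D.lr (y 1) (-(a : ℤ)) * D.lr (ex y j) (-((a : ℤ) * j)) := by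
        have h2 : A = -(a : ℤ) + -((a : ℤ) * (j : ℤ)) := by
          rw [hA]
          push_cast
          ring
        rw [h2, Nat.sub_zero, zero_add]
        exact D.lr_mul (hy 1 le_rfl) hg
      have hgx : D.ge (ex y (j + 1)) A := by
        by_cases hx : ex y (j + 1) = 0
        · rw [hx]
          exact D.ge_zero _
        · obtain ⟨w, hw⟩ := D.ex_val hx
          have := (D.val_mul hc hw A).1 hS
          rw [hw]
          linarith
      refine ⟨hgx, ?_⟩
      have hprod : D.lr (((j + 1 : ℕ) : K) * ex y (j + 1)) (0 + A) = D.lr ((j + 1 : ℕ) : K) 0 * D.lr (ex y (j + 1)) A :=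
        D.lr_mul ((hc 0).2 le_rfl) hgx
      rw [zero_add, D.lr_natCast, hlr, hlr0, hl] at hprod
      have h3 : D.lr (ex y (j + 1)) A = D.lr (y 1) (-(a : ℤ)) * (D.lr (y 1) (-(a : ℤ)) ^ j / (j.factorial : k)) /
          ((j + 1 : ℕ) : k) := by
        rw [hprod, mul_div_cancel_left₀ _ hck]
      rw [h3, Nat.factorial_succ, Nat.cast_mul, pow_succ, mul_comm ((j + 1 : ℕ) : k), ← div_div]
      congr 1
      ring

theorem dg_key {K k : Type} [Field K] [Field k] (D : DV K k) {q N a : ℕ}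
    (hk : ∀ i : ℕ, 1 ≤ i → i < q → (i : k) ≠ 0) (hNq : N ≤ q) {ι : Type} (B : Finset ι) (hB : B.Nonempty)
    (β : ι → k) (hβ : ∀ b ∈ B, ∀ b' ∈ B, β b = β b' → b = b') (P f : ι → ℕ → K) (m : ι → ℕ) (hm : ∀ b ∈ B, 1 ≤ m b)
    (hN : ∑ b ∈ B, m b ≤ N) (hP : ∀ b ∈ B, ∀ j < N, D.ge (P b j) (-((a : ℤ) * j)))
    (hPr : ∀ b ∈ B, ∀ j < N, D.lr (P b j) (-((a : ℤ) * j)) = β b ^ j / (j.factorial : k))
    (hf : ∀ b ∈ B, topA D a N (f b) (m b - 1)) :
    lowA D a N (fun j => ∑ b ∈ B, ∑ i ∈ range (j + 1), P b i * f b (j - i)) ((∑ b ∈ B, m b) - 1) := by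
  classical
  have hf' : ∀ b, ∃ M : ℤ, b ∈ B → ((∀ j < N, D.ge (f b j) (M - a * j)) ∧
      (∃ j ≤ m b - 1, j < N ∧ ¬ D.ge (f b j) (M + 1 - a * j)) ∧
      ∀ j < N, m b - 1 < j → D.ge (f b j) (M + 1 - a * j)) := by
    intro b
    by_cases hb : b ∈ B
    · obtain ⟨M, hM⟩ := hf b hb
      exact ⟨M, fun _ => hM⟩
    · exact ⟨0, fun h => absurd h hb⟩
  choose M hM using hf'
  obtain ⟨b0, hb0, hmin⟩ := Finset.exists_min_image B M hB
  have hfge : ∀ b ∈ B, ∀ j < N, D.ge (f b j) (M b0 - a * j) := by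
    intro b hb j hj
    refine D.ge_mono ?_ ((hM b hb).1 j hj)
    have := hmin b hb
    linarith
  have hterm : ∀ b ∈ B, ∀ j < N, ∀ i ∈ range (j + 1), D.ge (P b i * f b (j - i)) (M b0 - a * j) ∧
      D.lr (P b i * f b (j - i)) (M b0 - a * j) = β b ^ i / (i.factorial : k) * D.lr (f b (j - i)) (M b0 - a * (j - i : ℕ)) := by
    intro b hb j hj i hi
    have hi' : i ≤ j := Nat.lt_succ_iff.mp (Finset.mem_range.mp hi)
    have h1 := hP b hb i (by omega)
    have h2 := hfge b hb (j - i) (by omega)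
    have h3 : M b0 - (a : ℤ) * j = -((a : ℤ) * i) + (M b0 - a * (j - i : ℕ)) := by
      rw [Nat.cast_sub hi']
      ring
    refine ⟨?_, ?_⟩
    · rw [h3]
      exact D.ge_mul h1 h2
    · rw [h3, D.lr_mul h1 h2, hPr b hb i (by omega)]
  have hin : ∀ b ∈ B, ∀ j < N, D.ge (∑ i ∈ range (j + 1), P b i * f b (j - i)) (M b0 - a * j) :=
    fun b hb j hj => D.ge_sum _ _ fun i hi => (hterm b hb j hj i hi).1
  refine ⟨M b0, fun j hj => D.ge_sum _ _ fun b hb => hin b hb j hj, ?_⟩
  by_contra hcon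
  push Not at hcon
  set g : ι → ℕ → k := fun b s => if s < N then D.lr (f b s) (M b0 - a * s) else 0 with hgdef
  have hperf := lv_perf hk B β hβ g m (fun b hb s hs => ?_) (hN.trans hNq) (fun s hs => ?_)
  · obtain ⟨j0, hj0m, hj0N, hj0⟩ := (hM b0 hb0).2.1
    have h1 := hperf b0 hb0 j0
    simp only [hgdef, if_pos hj0N] at h1
    rw [D.lr_zero_iff (hfge b0 hb0 j0 hj0N)] at h1
    apply hj0
    have h2 : M b0 + 1 - (a : ℤ) * j0 = M b0 - a * j0 + 1 := by ring
    rwa [h2]
  · by_cases hsN : s < N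
    · simp only [hgdef, if_pos hsN]
      rw [D.lr_zero_iff (hfge b hb s hsN)]
      have h1 := hm b hb
      refine D.ge_mono ?_ ((hM b hb).2.2 s hsN (by omega))
      have := hmin b hb
      linarith
    · simp only [hgdef, if_neg hsN]
  · have hsN : s < N := lt_of_lt_of_le hs hN
    have h1 := hcon s (by omega) hsN
    have h2 : M b0 + 1 - (a : ℤ) * s = M b0 - a * s + 1 := by ring
    rw [h2, ← D.lr_zero_iff (D.ge_sum _ _ fun b hb => hin b hb s hsN),
      D.lr_sum _ _ fun b hb => hin b hb s hsN] at h1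
    rw [← h1]
    refine Finset.sum_congr rfl fun b hb => ?_
    rw [D.lr_sum _ _ fun i hi => (hterm b hb s hsN i hi).1]
    refine Finset.sum_congr rfl fun i hi => ?_
    rw [(hterm b hb s hsN i hi).2]
    have h4 : s - i < N := by omega
    simp only [hgdef, if_pos h4]

end Pool.Agent.NLS
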