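import Pool.Agent.NLS.DgZer
import Pool.Agent.NLS.DgDv
import Pool.Agent.NLS.Theta

/-!
# NLS-DgMin: the minors of `Q_j(s)` for `q = n`

A relation between the rows of the matrix `Q_j(s)`, `s ∈ Y`, gives a relation between the exponentials
`ex (x v)`, `x v l = - ps v l / n`, in the degrees below `N` (`coe_Qj`). By `dg_indep` for the valuation of
`exists_dvn` it is trivial; the hypotheses hold as `ps` is additive and by `theta_inj`.
-/

open NumberField Finset
open Pool.Agent.AAP Pool.Agent.Helper7.HU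

namespace Pool.Agent.NLS

private theorem dgmin_sub {n : ℕ} [Fact n.Prime] {K : Type} [Field K] [NumberField K] [IsCyclotomicExtension {n} ℚ K]
    (s t : H n → ℤ) (i : ℕ) : ps n K (s - t) i = ps n K s i - ps n K t i := by
  have h := ps_add (n := n) (K := K) (s - t) t i
  rw [sub_add_cancel] at h
  rw [h, add_sub_cancel_right]

private theorem dgmin_neg {K k : Type} [Field K] [Field k] (D : DV K k) {y : K} {a : ℤ} (h : D.ge y a) :
    D.ge (-y) a := by
  have h1 := D.ge_sub (D.ge_zero a) h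
  rwa [zero_sub] at h1

private theorem dgmin_x {n : ℕ} [Fact n.Prime] {K : Type} [Field K] [NumberField K] [IsCyclotomicExtension {n} ℚ K]
    (v w : H n → ℤ) (l : ℕ) :
    -((ps n K v l : 𝓞 K) : K) / (n : K) - -((ps n K w l : 𝓞 K) : K) / (n : K) =
      -(((ps n K (v - w) l : 𝓞 K) : K) / (n : K)) := by
  have h1 : ((ps n K (v - w) l : 𝓞 K) : K) = ((ps n K v l : 𝓞 K) : K) - ((ps n K w l : 𝓞 K) : K) := by
    rw [dgmin_sub]
    exact map_sub (algebraMap (𝓞 K) K) _ _
  rw [h1]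
  ring

theorem dg_minor {n : ℕ} [Fact n.Prime] (hn3 : 3 ≤ n) {K : Type} [Field K] [NumberField K] [IsCyclotomicExtension {n} ℚ K]
    {N : ℕ} (hN : N ≤ n) (X : Finset (H n → ℤ)) (hX : ∀ s ∈ X, ∀ t ∈ X, ∀ e, |s e - t e| < n) (hc : N ≤ X.card) :
    ∃ u : Fin N → (H n → ℤ), (∀ i, u i ∈ X) ∧ (Matrix.of fun i j : Fin N => Qj n K n (u i) (j : ℕ)).det ≠ 0 := by
  classical
  obtain ⟨Y, hY, hYN⟩ := Finset.exists_subset_card_eq hc
  set e : Fin N ≃ Y := (Y.equivFinOfCardEq hYN).symm with he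
  refine ⟨fun i => ((e i : Y) : H n → ℤ), fun i => hY (e i).2, fun hdet => ?_⟩
  obtain ⟨k, fk, D, hk, hlip, hne⟩ := exists_dvn n K hn3
  have hn0 : (n : K) ≠ 0 := Nat.cast_ne_zero.2 (by omega)
  have hn0' : n ≠ 0 := by omega
  set x : (H n → ℤ) → ℕ → K := fun v l => -((ps n K v l : 𝓞 K) : K) / (n : K) with hx
  set M : Matrix (Fin N) (Fin N) K :=
    Matrix.of fun i j : Fin N => ((Qj n K n ((e i : Y) : H n → ℤ) (j : ℕ) : 𝓞 K) : K) with hMdef
  have hM : M.det = 0 := by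
    have h1 := congrArg (algebraMap (𝓞 K) K) hdet
    rw [map_zero, RingHom.map_det] at h1
    exact h1
  obtain ⟨c, hc0, hcM⟩ := Matrix.exists_vecMul_eq_zero_iff.2 hM
  have h1 : ∀ j < N, ∑ i, c i * ex (x ((e i : Y) : H n → ℤ)) j = 0 := by
    intro j hj
    have h2 : ∑ i, c i * ((Qj n K n ((e i : Y) : H n → ℤ) j : 𝓞 K) : K) = 0 := congrFun hcM ⟨j, hj⟩
    have h3 : ∑ i, c i * ((Qj n K n ((e i : Y) : H n → ℤ) j : 𝓞 K) : K) =
        ((n : K) ^ j * (j.factorial : K)) * ∑ i, c i * ex (x ((e i : Y) : H n → ℤ)) j := by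
      rw [Finset.mul_sum]
      refine Finset.sum_congr rfl fun i _ => ?_
      rw [coe_Qj hn0']
      unfold Pj
      ring
    rw [h3] at h2
    exact (mul_eq_zero.1 h2).resolve_left
      (mul_ne_zero (pow_ne_zero _ hn0) (Nat.cast_ne_zero.2 (Nat.factorial_ne_zero _)))
  set μ : (H n → ℤ) → K := fun v => if h : v ∈ Y then c (e.symm ⟨v, h⟩) else 0 with hμ
  have hμe : ∀ i, μ ((e i : Y) : H n → ℤ) = c i := by
    intro i
    rw [hμ]
    simp only
    rw [dif_pos (e i).2, Subtype.coe_eta, Equiv.symm_apply_apply]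
  have h4 : ∀ j < N, ∑ v ∈ Y, μ v * ex (x v) j = 0 := by
    intro j hj
    rw [← Finset.sum_coe_sort Y (fun v => μ v * ex (x v) j),
      ← Equiv.sum_comp e (fun v : Y => μ (v : H n → ℤ) * ex (x (v : H n → ℤ)) j), ← h1 j hj]
    exact Finset.sum_congr rfl fun i _ => by rw [hμe]
  have h5 := dg_indep D hk hN x Y ?_ ?_ hYN.le μ h4
  · apply hc0
    funext i
    rw [Pi.zero_apply, ← hμe i]
    exact h5 _ (e i).2
  · intro v _ w _ a ha l hl
    rw [hx] at ha ⊢
    simp only at ha ⊢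
    rw [dgmin_x] at ha ⊢
    have h6 := dgmin_neg D ha
    rw [neg_neg] at h6
    exact dgmin_neg D (hlip (v - w) a h6 l hl)
  · intro v hv w hw ha
    rw [hx] at ha
    simp only at ha
    rw [dgmin_x] at ha
    have h6 := dgmin_neg D ha
    rw [neg_neg] at h6
    have h7 := hne (v - w) h6
    rw [dgmin_sub] at h7
    exact theta_inj (by omega) (hX v (hY hv) w (hY hw)) h7

end Pool.Agent.NLS
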