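import Pool.Agent.NLS.DgKey

/-!
# NLS-DgZer: independence of exponentials, ramified case

`DgSt D N a x Y`: for every nonempty `Z ⊆ Y` with differences of valuation at least `1 - a` the function
`∑ v ∈ Z, μ v * ex (x v - x w0)` has at the slope `a` no index above `Z.card - 1` of minimal weight. The level `1` is trivial
(`Z` is a point); from `a` to `a + 1` split `Z` by the residue of `x v 1 - x w0 1` (`dg_key`, `low_topA`). For a large `a` the
whole set `Y` is allowed.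
-/

open Finset

namespace Pool.Agent.NLS

/-- the statement at the level `a` -/
private def dgzer_St {K k : Type} [Field K] [CharZero K] [Field k] (D : DV K k) (N a : ℕ) {V : Type}
    (x : V → ℕ → K) (Y : Finset V) : Prop :=
  ∀ Z : Finset V, Z ⊆ Y → (∀ v ∈ Z, ∀ w ∈ Z, D.ge (x v 1 - x w 1) (1 - (a : ℤ))) →
    ∀ μ : V → K, (∃ v ∈ Z, μ v ≠ 0) → ∀ w0 ∈ Z,
      topA D a N (fun j => ∑ v ∈ Z, μ v * ex (fun l => x v l - x w0 l) j) (Z.card - 1)

private lemma dgzer_lr_sub {K k : Type} [Field K] [Field k] (D : DV K k) {x y : K} {a : ℤ}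
    (hx : D.ge x a) (hy : D.ge y a) : D.lr (x - y) a = D.lr x a - D.lr y a := by
  have h1 := D.lr_add (D.ge_sub hx hy) hy
  rw [sub_add_cancel] at h1
  rw [h1, add_sub_cancel_right]

private lemma dgzer_split {K : Type} [Field K] [CharZero K] (x y z : ℕ → K) (j : ℕ) :
    ex (fun l => x l - z l) j = ∑ i ∈ range (j + 1), ex (fun l => y l - z l) i *
      ex (fun l => x l - y l) (j - i) := by
  have h1 : (fun l => x l - z l) = fun l => (y l - z l) + (x l - y l) := by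
    funext l
    ring
  rw [h1, ex_add, Finset.Nat.sum_antidiagonal_eq_sum_range_succ_mk]

private lemma dgzer_mono {K k : Type} [Field K] [Field k] (D : DV K k) {a N : ℕ} {f : ℕ → K}
    {J J' : ℕ} (hJ : J ≤ J') (h : lowA D a N f J) : lowA D a N f J' := by
  obtain ⟨M, hM, j, hj, hjN, hj'⟩ := h
  exact ⟨M, hM, j, hj.trans hJ, hjN, hj'⟩

private lemma dgzer_one {K k : Type} [Field K] [CharZero K] [Field k] (D : DV K k) {N : ℕ}
    {V : Type} (x : V → ℕ → K) (Y : Finset V)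
    (hne : ∀ v ∈ Y, ∀ w ∈ Y, D.ge (x v 1 - x w 1) 0 → v = w) (hN : Y.card ≤ N) :
    dgzer_St D N 1 x Y := by
  classical
  intro Z hZ hge μ hμ w0 hw0
  obtain ⟨v, hv, hμv⟩ := hμ
  have hall : ∀ u ∈ Z, u = w0 := by
    intro u hu
    apply hne u (hZ hu) w0 (hZ hw0)
    have h1 := hge u hu w0 hw0
    have h2 : (1 : ℤ) - ((1 : ℕ) : ℤ) = 0 := by norm_num
    rwa [h2] at h1
  have hY : Z = {w0} := Finset.eq_singleton_iff_unique_mem.2 ⟨hw0, hall⟩
  have hμ0 : μ w0 ≠ 0 := by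
    rw [← hall v hv]
    exact hμv
  have hN0 : 0 < N := lt_of_lt_of_le (Finset.card_pos.2 ⟨w0, hZ hw0⟩) hN
  obtain ⟨a, ha⟩ := D.ex_val hμ0
  have hfj : ∀ j, (∑ u ∈ Z, μ u * ex (fun l => x u l - x w0 l) j) = if j = 0 then μ w0 else 0 := by
    intro j
    rw [hY, Finset.sum_singleton]
    have h1 : (fun l => x w0 l - x w0 l) = fun _ => (0 : K) := by
      funext l
      rw [sub_self]
    rw [h1, ex_of_zero]
    split_ifs
    · rw [mul_one]
    · rw [mul_zero]
  refine ⟨a, ?_, ⟨0, Nat.zero_le _, hN0, ?_⟩, ?_⟩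
  · intro j _
    simp only [hfj]
    split_ifs with hj
    · subst hj
      rw [ha]
      simp
    · exact D.ge_zero _
  · simp only [hfj, if_true]
    rw [ha]
    simp
  · intro j _ hj
    simp only [hfj]
    rw [if_neg (by omega)]
    exact D.ge_zero _

private lemma dgzer_step {K k : Type} [Field K] [CharZero K] [Field k] (D : DV K k) {q N a : ℕ}
    (ha : 1 ≤ a) (hk : ∀ i : ℕ, 1 ≤ i → i < q → (i : k) ≠ 0) (hNq : N ≤ q) {V : Type}
    (x : V → ℕ → K) (Y : Finset V)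
    (hlip : ∀ v ∈ Y, ∀ w ∈ Y, ∀ a : ℤ, D.ge (x v 1 - x w 1) a → ∀ l, 1 ≤ l →
      D.ge (x v l - x w l) a)
    (hN : Y.card ≤ N) (h : dgzer_St D N a x Y) : dgzer_St D N (a + 1) x Y := by
  classical
  intro Z hZ hge0 μ hμ w0 hw0
  have hge : ∀ v ∈ Z, ∀ w ∈ Z, D.ge (x v 1 - x w 1) (-(a : ℤ)) := by
    intro v hv w hw
    have h1 := hge0 v hv w hw
    have h2 : (1 : ℤ) - ((a + 1 : ℕ) : ℤ) = -(a : ℤ) := by
      push_cast
      ring
    rwa [h2] at h1
  set res : V → k := fun v => D.lr (x v 1 - x w0 1) (-(a : ℤ)) with hres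
  have hres_iff : ∀ v ∈ Z, ∀ w ∈ Z, res v = res w → D.ge (x v 1 - x w 1) (1 - (a : ℤ)) := by
    intro v hv w hw hvw
    have h1 := dgzer_lr_sub D (hge v hv w0 hw0) (hge w hw w0 hw0)
    have h2 : x v 1 - x w0 1 - (x w 1 - x w0 1) = x v 1 - x w 1 := by ring
    rw [h2] at h1
    have h3 : D.lr (x v 1 - x w 1) (-(a : ℤ)) = 0 := by
      rw [h1]
      exact sub_eq_zero.2 hvw
    have h4 := (D.lr_zero_iff (hge v hv w hw)).1 h3
    have h5 : -(a : ℤ) + 1 = 1 - (a : ℤ) := by ring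
    rwa [h5] at h4
  set Zb : k → Finset V := fun b => Z.filter (fun v => res v = b) with hZb
  have hZb_mem : ∀ b v, v ∈ Zb b ↔ v ∈ Z ∧ res v = b := by
    intro b v
    rw [hZb]
    exact Finset.mem_filter
  set w : k → V := fun b => if hb : (Zb b).Nonempty then hb.choose else w0 with hw
  have hwb : ∀ b, (Zb b).Nonempty → w b ∈ Zb b := by
    intro b hb
    rw [hw]
    simp only
    rw [dif_pos hb]
    exact hb.choose_spec
  set B : Finset k := (Z.image res).filter (fun b => ∃ v ∈ Zb b, μ v ≠ 0) with hB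
  have hB_mem : ∀ b, b ∈ B ↔ ∃ v ∈ Zb b, μ v ≠ 0 := by
    intro b
    rw [hB, Finset.mem_filter, Finset.mem_image]
    constructor
    · rintro ⟨-, h1⟩
      exact h1
    · rintro ⟨v, hv, hv2⟩
      exact ⟨⟨v, ((hZb_mem b v).1 hv).1, ((hZb_mem b v).1 hv).2⟩, v, hv, hv2⟩
  have hBne : B.Nonempty := by
    obtain ⟨v, hv, hv2⟩ := hμ
    exact ⟨res v, (hB_mem _).2 ⟨v, (hZb_mem _ _).2 ⟨hv, rfl⟩, hv2⟩⟩
  have hBY : ∀ b ∈ B, (Zb b).Nonempty := by
    intro b hb
    obtain ⟨v, hv, -⟩ := (hB_mem b).1 hb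
    exact ⟨v, hv⟩
  have hcard : ∑ b ∈ B, (Zb b).card ≤ Z.card := by
    have h1 : ∑ b ∈ Z.image res, (Zb b).card = Z.card := by
      rw [Finset.card_eq_sum_card_image res Z]
    rw [← h1]
    exact Finset.sum_le_sum_of_subset (Finset.filter_subset _ _)
  have hZN : Z.card ≤ N := (Finset.card_le_card hZ).trans hN
  set P : k → ℕ → K := fun b => ex (fun l => x (w b) l - x w0 l) with hP
  set f : k → ℕ → K := fun b j => ∑ v ∈ Zb b, μ v * ex (fun l => x v l - x (w b) l) j with hf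
  have hex : ∀ b ∈ B, ∀ j < N, D.ge (P b j) (-((a : ℤ) * j)) ∧
      D.lr (P b j) (-((a : ℤ) * j)) = b ^ j / (j.factorial : k) := by
    intro b hb j hj
    have h1 := (hZb_mem b (w b)).1 (hwb b (hBY b hb))
    have h2 := dg_ex D ha hk hNq (fun l => x (w b) l - x w0 l) (fun l hl =>
      hlip (w b) (hZ h1.1) w0 (hZ hw0) _ (hge (w b) h1.1 w0 hw0) l hl) j hj
    have h3 : D.lr (x (w b) 1 - x w0 1) (-(a : ℤ)) = b := h1.2
    simp only [h3] at h2
    exact h2
  have key := dg_key D hk hNq (a := a) B hBne (fun b => b) (fun _ _ _ _ hbb => hbb) P f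
    (fun b => (Zb b).card) (fun b hb => Finset.card_pos.2 (hBY b hb)) (hcard.trans hZN)
    (fun b hb j hj => (hex b hb j hj).1) (fun b hb j hj => (hex b hb j hj).2) ?_
  · have hfun : (fun j => ∑ b ∈ B, ∑ i ∈ range (j + 1), P b i * f b (j - i)) =
        fun j => ∑ v ∈ Z, μ v * ex (fun l => x v l - x w0 l) j := by
      funext j
      have h1 : ∑ v ∈ Z, μ v * ex (fun l => x v l - x w0 l) j =
          ∑ b ∈ Z.image res, ∑ v ∈ Zb b, μ v * ex (fun l => x v l - x w0 l) j :=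
        (Finset.sum_fiberwise_of_maps_to (fun v hv => Finset.mem_image_of_mem _ hv) _).symm
      rw [h1]
      have h2 : ∑ b ∈ Z.image res, ∑ v ∈ Zb b, μ v * ex (fun l => x v l - x w0 l) j =
          ∑ b ∈ B, ∑ v ∈ Zb b, μ v * ex (fun l => x v l - x w0 l) j := by
        symm
        apply Finset.sum_subset (Finset.filter_subset _ _)
        intro b _ hb2
        apply Finset.sum_eq_zero
        intro v hv
        have h3 : μ v = 0 := by
          by_contra h4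
          exact hb2 ((hB_mem b).2 ⟨v, hv, h4⟩)
        rw [h3, zero_mul]
      rw [h2]
      apply Finset.sum_congr rfl
      intro b _
      have h5 : ∀ v ∈ Zb b, μ v * ex (fun l => x v l - x w0 l) j =
          ∑ i ∈ range (j + 1), P b i * (μ v * ex (fun l => x v l - x (w b) l) (j - i)) := by
        intro v _
        rw [dgzer_split (x v) (x (w b)) (x w0) j, Finset.mul_sum]
        apply Finset.sum_congr rfl
        intro i _
        rw [hP]
        ring
      rw [Finset.sum_congr rfl h5, Finset.sum_comm]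
      apply Finset.sum_congr rfl
      intro i _
      rw [← Finset.mul_sum]
    rw [hfun] at key
    exact low_topA D (dgzer_mono D (Nat.sub_le_sub_right hcard 1) key)
  · intro b hb
    have h1 := hwb b (hBY b hb)
    refine h (Zb b) ((Finset.filter_subset _ _).trans hZ) ?_ μ ((hB_mem b).1 hb) (w b) h1
    intro v hv v' hv'
    have h2 := (hZb_mem b v).1 hv
    have h3 := (hZb_mem b v').1 hv'
    exact hres_iff v h2.1 v' h3.1 (h2.2.trans h3.2.symm)

private lemma dgzer_all {K k : Type} [Field K] [CharZero K] [Field k] (D : DV K k) {q N : ℕ}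
    (hk : ∀ i : ℕ, 1 ≤ i → i < q → (i : k) ≠ 0) (hNq : N ≤ q) {V : Type}
    (x : V → ℕ → K) (Y : Finset V)
    (hlip : ∀ v ∈ Y, ∀ w ∈ Y, ∀ a : ℤ, D.ge (x v 1 - x w 1) a → ∀ l, 1 ≤ l →
      D.ge (x v l - x w l) a)
    (hne : ∀ v ∈ Y, ∀ w ∈ Y, D.ge (x v 1 - x w 1) 0 → v = w)
    (hN : Y.card ≤ N) : ∀ a : ℕ, 1 ≤ a → dgzer_St D N a x Y := by
  intro a ha
  induction a, ha using Nat.le_induction with
  | base => exact dgzer_one D x Y hne hN
  | succ a ha ih => exact dgzer_step D ha hk hNq x Y hlip hN ih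

private lemma dgzer_large {K k : Type} [Field K] [Field k] (D : DV K k) {V : Type}
    (x : V → ℕ → K) (Y : Finset V) :
    ∃ a : ℕ, 1 ≤ a ∧ ∀ v ∈ Y, ∀ w ∈ Y, D.ge (x v 1 - x w 1) (1 - (a : ℤ)) := by
  classical
  have h1 : ∀ p : V × V, ∃ b : ℕ, ∀ c : ℕ, b ≤ c → D.ge (x p.1 1 - x p.2 1) (1 - (c : ℤ)) := by
    intro p
    by_cases hp : x p.1 1 - x p.2 1 = 0
    · exact ⟨0, fun c _ => by rw [hp]; exact D.ge_zero _⟩
    · obtain ⟨v, hv⟩ := D.ex_val hp
      refine ⟨(1 - v).toNat, fun c hc => ?_⟩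
      rw [hv]
      omega
  choose g hg using h1
  refine ⟨(Y ×ˢ Y).sup g + 1, by omega, fun v hv w hw => ?_⟩
  have h2 : g (v, w) ≤ (Y ×ˢ Y).sup g := Finset.le_sup (Finset.mem_product.2 ⟨hv, hw⟩)
  exact hg (v, w) _ (by omega)

theorem dg_indep {K k : Type} [Field K] [CharZero K] [Field k] (D : DV K k) {q N : ℕ}
    (hk : ∀ i : ℕ, 1 ≤ i → i < q → (i : k) ≠ 0) (hNq : N ≤ q) {V : Type} (x : V → ℕ → K) (Y : Finset V)
    (hlip : ∀ v ∈ Y, ∀ w ∈ Y, ∀ a : ℤ, D.ge (x v 1 - x w 1) a → ∀ l, 1 ≤ l → D.ge (x v l - x w l) a)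
    (hne : ∀ v ∈ Y, ∀ w ∈ Y, D.ge (x v 1 - x w 1) 0 → v = w) (hN : Y.card ≤ N)
    (μ : V → K) (h : ∀ j < N, ∑ v ∈ Y, μ v * ex (x v) j = 0) : ∀ v ∈ Y, μ v = 0 := by
  intro w0 hw0
  by_contra hμ
  obtain ⟨a, ha, hge⟩ := dgzer_large D x Y
  obtain ⟨M, -, ⟨j, -, hjN, hj⟩, -⟩ := dgzer_all D hk hNq x Y hlip hne hN a ha Y
    (Finset.Subset.refl Y) hge μ ⟨w0, hw0, hμ⟩ w0 hw0
  apply hj
  have h2 : ∀ v ∈ Y, μ v * ex (fun l => x v l - x w0 l) j =
      ∑ i ∈ range (j + 1), ex (fun l => 0 - x w0 l) i * (μ v * ex (x v) (j - i)) := by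
    intro v _
    rw [dgzer_split (x v) (fun _ => 0) (x w0) j, Finset.mul_sum]
    apply Finset.sum_congr rfl
    intro i _
    simp only [sub_zero]
    ring
  have h3 : ∑ v ∈ Y, μ v * ex (fun l => x v l - x w0 l) j = 0 := by
    rw [Finset.sum_congr rfl h2, Finset.sum_comm]
    apply Finset.sum_eq_zero
    intro i _
    rw [← Finset.mul_sum, h (j - i) (by omega), mul_zero]
  simp only [h3]
  exact D.ge_zero _

end Pool.Agent.NLS
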