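import Pool.Agent.NLS.LvLoc
import Pool.Agent.NLS.LvCov
import Pool.Agent.NLS.LvGal
import Pool.Agent.NLS.Theta

/-!
# NLS-LvZer: the zero estimate of level `c`: the cost of all primes over `q` is `N ^ (γ m)` for any `γ > 0`

`c = 2 ^ t`, `4 ≤ γ t`. The group of units modulo `n` is covered by at most `4 m / t` runs of `t` powers of `2`, `m = (n - 1) / 2`. If for one of
the starting points the vectors `(ps s 1, ..., ps s c)` have `N` values modulo the prime, then `lv_loc` applies; otherwise there are at most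
`N ^ (4 m / t)` elements (pigeonhole).
-/

open NumberField Finset
open Pool.Agent.AAP Pool.Agent.Helper7.HU

namespace Pool.Agent.NLS

private theorem lvz_sub {n : ℕ} [Fact n.Prime] {K : Type} [Field K] [NumberField K] [IsCyclotomicExtension {n} ℚ K]
    (s t : H n → ℤ) (i : ℕ) : ps n K (s - t) i = ps n K s i - ps n K t i := by
  have h := ps_add (n := n) (K := K) (s - t) t i
  rw [sub_add_cancel] at h
  rw [h]
  ring

private theorem lvz_inj {n : ℕ} [Fact n.Prime] {K : Type} [Field K] [NumberField K] [IsCyclotomicExtension {n} ℚ K]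
    {t : ℕ} (hn2 : n ≠ 2) {q r : ℕ} (hr : r < q) {P : (ZMod n)ˣ → Ideal (𝓞 K)}
    (hP2 : ∀ (a b : (ZMod n)ˣ) (s : H n → ℤ) (l l' : ℕ), (l : ZMod n) * a = (l' : ZMod n) * b →
      (ps n K s l ∈ P a ↔ ps n K s l' ∈ P b))
    (hP3 : ∀ s : H n → ℤ, (∀ a, ps n K s 1 ∈ P a) → ps n K s 1 ∈ Ideal.span {(q : 𝓞 K)})
    {g : (ZMod n)ˣ} (hg : (g : ZMod n) = 2) {A : Finset (ZMod n)ˣ} (hA : ∀ x : (ZMod n)ˣ, ∃ a ∈ A, ∃ i < t, x = a * g ^ i)
    {s u : H n → ℤ} (hsu : ∀ e, |s e - u e| ≤ r)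
    (h : ∀ a ∈ A, ∀ l, 1 ≤ l → l ≤ 2 ^ t → ps n K s l - ps n K u l ∈ P a) : s = u := by
  refine theta_inj (K := K) (q := q) hn2 (fun e => lt_of_le_of_lt (hsu e) (by exact_mod_cast hr)) ?_
  have h1 : ∀ x, ps n K (s - u) 1 ∈ P x := by
    intro x
    obtain ⟨a, ha, i, hi, rfl⟩ := hA x
    have h2 := h a ha (2 ^ i) Nat.one_le_two_pow (Nat.pow_le_pow_right (by norm_num) hi.le)
    rw [← lvz_sub] at h2
    refine (hP2 a (a * g ^ i) (s - u) (2 ^ i) 1 ?_).1 h2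
    push_cast
    rw [hg]
    ring
  have h3 := hP3 _ h1
  rwa [lvz_sub] at h3

theorem lv_zer (γ : ℝ) (hγ : 0 < γ) : ∃ h n0 : ℕ, 1 ≤ h ∧ ∀ (n : ℕ) [Fact n.Prime], n0 ≤ n → ∀ q r N : ℕ, q.Prime → q ≠ n →
    1 ≤ N → N ≤ q → r < q → ∀ (K : Type) [Field K] [NumberField K] [IsCyclotomicExtension {n} ℚ K] (X : Finset (H n → ℤ)),
    (∀ s ∈ X, ∀ t ∈ X, ∀ e, |s e - t e| ≤ r) → N ^ ⌊γ * (((n - 1) / 2 : ℕ) : ℝ)⌋₊ < X.card →
    ∃ u : Fin N → (H n → ℤ), (∀ i, ∃ w : Fin h → (H n → ℤ), (∀ j, w j ∈ X) ∧ u i = ∑ j, w j) ∧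
      (Matrix.of fun i j : Fin N => Qj n K q (u i) (j : ℕ)).det ≠ 0 := by
  classical
  obtain ⟨t0, ht0⟩ := exists_nat_gt (4 / γ)
  obtain ⟨t, rfl⟩ : ∃ t, t = t0 + 1 := ⟨_, rfl⟩
  set t := t0 + 1 with htdef
  have ht : 1 ≤ t := by omega
  have htpos : (0 : ℝ) < t := by exact_mod_cast ht
  have htγ : 4 ≤ γ * t := by
    have h1 : 4 / γ < t := ht0.trans_le (by rw [htdef]; push_cast; linarith)
    rw [div_lt_iff₀ hγ] at h1
    linarith
  obtain ⟨h, hh, hloc⟩ := lv_loc (2 ^ t) Nat.one_le_two_pow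
  refine ⟨h, 2 ^ t + 3, hh, ?_⟩
  intro n _ hn q r N hq hqn hN hNq hrq K _ _ _ X hX hc
  have hnp : n.Prime := Fact.out
  have h2t : 1 ≤ 2 ^ t := Nat.one_le_two_pow
  have hn2 : n ≠ 2 := by omega
  have hodd : n % 2 = 1 := hnp.eq_two_or_odd.resolve_left hn2
  obtain ⟨g, hg2, hgt⟩ := lv_two (n := n) ht (by omega)
  obtain ⟨A, hA1, hA2⟩ := lv_cover g ht hgt
  obtain ⟨P, hP1, hP2, hP3⟩ := exists_pa n hn2 K hq hqn
  have hAcard : A.card ≤ ⌊γ * (((n - 1) / 2 : ℕ) : ℝ)⌋₊ := by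
    apply Nat.le_floor
    have h1 : t * A.card ≤ 2 * (n - 1) := by
      rw [ZMod.card_units n] at hA1
      exact hA1
    have h2 : t * A.card ≤ 4 * ((n - 1) / 2) := by omega
    have h3 : (t : ℝ) * A.card ≤ 4 * (((n - 1) / 2 : ℕ) : ℝ) := by exact_mod_cast h2
    have h4 : (0 : ℝ) ≤ (((n - 1) / 2 : ℕ) : ℝ) := Nat.cast_nonneg _
    have h5 : (t : ℝ) * A.card ≤ t * (γ * (((n - 1) / 2 : ℕ) : ℝ)) := by nlinarith
    exact le_of_mul_le_mul_left h5 htpos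
  have hpow : N ^ A.card ≤ N ^ ⌊γ * (((n - 1) / 2 : ℕ) : ℝ)⌋₊ := Nat.pow_le_pow_right hN hAcard
  obtain ⟨φ, hφ⟩ : ∃ φ : (a : (ZMod n)ˣ) → (H n → ℤ) → (Fin (2 ^ t) → 𝓞 K ⧸ P a), ∀ a s u, φ a s = φ a u ↔
      ∀ l, 1 ≤ l → l ≤ 2 ^ t → ps n K s l - ps n K u l ∈ P a := by
    refine ⟨fun a s l => Ideal.Quotient.mk (P a) (ps n K s ((l : ℕ) + 1)), ?_⟩
    intro a s u
    constructor
    · intro h1 l hl1 hl2
      have h2 := congrFun h1 ⟨l - 1, by omega⟩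
      have h3 : l - 1 + 1 = l := by omega
      simp only [h3] at h2
      exact Ideal.Quotient.eq.1 h2
    · intro h1
      funext l
      exact Ideal.Quotient.eq.2 (h1 _ (by omega) (by omega))
  obtain ⟨a, ha, hNa⟩ : ∃ a ∈ A, N ≤ (X.image (φ a)).card := by
    by_contra hcon
    push Not at hcon
    have h1 : X.card ≤ (A.pi fun a => X.image (φ a)).card := by
      refine Finset.card_le_card_of_injOn (fun s => fun a _ => φ a s) ?_ ?_
      · intro s hs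
        rw [Finset.mem_coe, Finset.mem_pi]
        intro a _
        exact Finset.mem_image_of_mem _ hs
      · intro s hs u hu hsu
        refine lvz_inj (r := r) hn2 hrq hP2 hP3 hg2 hA2 (hX s hs u hu) fun a ha => ?_
        exact (hφ a s u).1 (congrFun (congrFun hsu a) ha)
    rw [Finset.card_pi] at h1
    have h2 : ∏ a ∈ A, (X.image (φ a)).card ≤ N ^ A.card := by
      refine (Finset.prod_le_prod' fun a ha => (hcon a ha).le).trans ?_
      rw [Finset.prod_const]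
    omega
  obtain ⟨Y', hY'X, hY'⟩ := Set.exists_subset_bijOn (X : Set (H n → ℤ)) (φ a)
  have hfin : Y'.Finite := X.finite_toSet.subset hY'X
  obtain ⟨Y, rfl⟩ : ∃ Y : Finset (H n → ℤ), (Y : Set (H n → ℤ)) = Y' := ⟨hfin.toFinset, hfin.coe_toFinset⟩
  have hYX : Y ⊆ X := by exact_mod_cast hY'X
  have hYcard : N ≤ Y.card := by
    refine hNa.trans (le_of_eq ?_)
    have h1 : X.image (φ a) = Y.image (φ a) := by
      apply Finset.coe_injective
      rw [Finset.coe_image, Finset.coe_image]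
      exact hY'.image_eq.symm
    rw [h1]
    exact Finset.card_image_of_injOn hY'.injOn
  have hne : ∃ v ∈ X, ∃ w ∈ X, ps n K v 1 ≠ ps n K w 1 := by
    have h1 : 1 < X.card := lt_of_le_of_lt (Nat.one_le_pow _ _ hN) hc
    obtain ⟨v, hv, w, hw, hvw⟩ := Finset.one_lt_card.1 h1
    refine ⟨v, hv, w, hw, fun heq => hvw ?_⟩
    refine theta_inj (K := K) (q := q) hn2 (fun e => lt_of_le_of_lt (hX v hv w hw e) (by exact_mod_cast hrq)) ?_
    rw [heq, sub_self]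
    exact Ideal.zero_mem _
  refine hloc n K q (P a) N X Y hn2 hq hqn (hP1 a).1 (hP1 a).2 hNq hne hYX hYcard ?_
  intro s hs u hu h1
  exact hY'.injOn hs hu ((hφ a s u).2 h1)

end Pool.Agent.NLS
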