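import Mathlib

/-!
# NLS-ParI: parameters for the estimate without exceptions

With `m = (n - 1)/2`, `L = log q`, `η = min ε (1/4)`, `ρ = ι + η/2`: `k = ⌊m / L⌋`,
`r = ⌊n ^ ρ⌋`, `N = ⌈4 h r n L / q⌉ + 1`, `γ = η/8`, `δ = η/4`, for `n` large.
-/

namespace Pool.Agent.NLS

open Filter

private theorem pari_log {c r : ℝ} (hc : 0 < c) (hr : 0 < r) :
    ∀ᶠ x : ℝ in atTop, Real.log x ≤ c * x ^ r := by
  have h1 := (isLittleO_log_rpow_atTop hr).def hc
  filter_upwards [h1, eventually_ge_atTop 1] with x hx hx1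
  have hx0 : (0 : ℝ) < x := by linarith
  have h3 : (0 : ℝ) < x ^ r := Real.rpow_pos_of_pos hx0 _
  rw [Real.norm_eq_abs, Real.norm_eq_abs, abs_of_pos h3] at hx
  exact le_trans (le_abs_self _) hx

private theorem pari_ev (η : ℝ) (hη : 0 < η) (h : ℕ) : ∃ X : ℝ, ∀ x : ℝ, X ≤ x →
    8 * Real.log x + 1 ≤ x ∧ 256 * Real.log x ^ 2 * (8 * h * Real.log x + 3) ≤ x ^ η ∧
    4 < η * Real.log x ∧ 1 ≤ Real.log x ∧ 1 ≤ x := by
  obtain ⟨D, hD⟩ : ∃ D : ℝ, D = 8 * h + 3 := ⟨_, rfl⟩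
  have hh0 : (0 : ℝ) ≤ h := Nat.cast_nonneg h
  have hD3 : 3 ≤ D := by rw [hD]; linarith
  have hD0 : 0 < D := by linarith
  have e1 := pari_log (c := 1 / 16) (r := 1) (by norm_num) one_pos
  have e2 := pari_log (c := 1 / (8 * D)) (r := η / 3) (by positivity) (by positivity)
  obtain ⟨C, hC⟩ : ∃ C, C = 4 / η := ⟨_, rfl⟩
  have e5 := Real.tendsto_log_atTop.eventually (eventually_gt_atTop C)
  have e6 := Real.tendsto_log_atTop.eventually (eventually_ge_atTop (1 : ℝ))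
  obtain ⟨X, hX⟩ := eventually_atTop.1 ((e1.and e2).and ((e5.and e6).and
    (eventually_ge_atTop (2 : ℝ))))
  refine ⟨X, fun x hx => ?_⟩
  obtain ⟨⟨h1, h2⟩, ⟨h5, h6⟩, h7⟩ := hX x hx
  have hx0 : (0 : ℝ) < x := lt_of_lt_of_le two_pos h7
  rw [Real.rpow_one] at h1
  refine ⟨by linarith, ?_, ?_, h6, le_trans one_le_two h7⟩
  · have h8 : Real.log x ^ 3 ≤ (1 / (8 * D) * x ^ (η / 3)) ^ 3 :=
      pow_le_pow_left₀ (by linarith) h2 3
    have h9 : (1 / (8 * D) * x ^ (η / 3)) ^ 3 = 1 / (512 * D ^ 3) * x ^ η := by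
      have h10 : (x ^ (η / 3)) ^ 3 = x ^ η := by
        rw [← Real.rpow_natCast (x ^ (η / 3)) 3, ← Real.rpow_mul hx0.le]
        congr 1
        push_cast
        ring
      rw [mul_pow, h10]
      congr 1
      rw [div_pow, one_pow, mul_pow]
      norm_num
    rw [h9] at h8
    have h10 : 0 < x ^ η := Real.rpow_pos_of_pos hx0 _
    have h11 : 8 * (h : ℝ) * Real.log x + 3 ≤ D * Real.log x := by
      rw [hD]
      linarith
    have hl0 : 0 ≤ Real.log x := by linarith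
    calc 256 * Real.log x ^ 2 * (8 * h * Real.log x + 3)
        ≤ 256 * Real.log x ^ 2 * (D * Real.log x) := by gcongr
      _ = 256 * D * Real.log x ^ 3 := by ring
      _ ≤ 256 * D * (1 / (512 * D ^ 3) * x ^ η) := by gcongr
      _ = (1 / (2 * D ^ 2)) * x ^ η := by
          field_simp
          norm_num
      _ ≤ 1 * x ^ η := by
          apply mul_le_mul_of_nonneg_right _ h10.le
          rw [div_le_one (by positivity)]
          nlinarith
      _ = x ^ η := one_mul _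
  · rw [hC, div_lt_iff₀ hη] at h5
    linarith

theorem exists_parI (ι ε : ℝ) (hι : 0 < ι) (hι' : ι ≤ 1 / 2) (hε : 0 < ε) :
    ∃ δ γ : ℝ, 0 < δ ∧ 0 < γ ∧ ∀ h : ℕ, 1 ≤ h → ∃ n0 : ℕ, ∀ (n q : ℕ) (I : ℝ),
    n0 ≤ n → Odd n → (n : ℝ) ^ ((1 + ι) / 2 + ε) ≤ q → (q : ℝ) ≤ (n : ℝ) ^ 2 → 0 < I →
    I ≤ Real.exp (ι * ((n - 1) / 2 : ℕ) * Real.log n) →
    ∃ k r N : ℕ, 1 ≤ k ∧ k ≤ (n - 1) / 2 ∧ 1 ≤ r ∧ r < q ∧ 2 ≤ N ∧ N < q ∧
      (N : ℝ) ^ ⌊γ * ((n - 1) / 2 : ℕ)⌋₊ * (I * (q : ℝ) ^ k) < ((r : ℝ) + 1) ^ ((n - 1) / 2) ∧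
      2 * ((n - 1) / 2) * (h * r) * n ≤ k * N * q ∧
      8 * (((n - 1) / 2 : ℕ) : ℝ) * N * Real.log (4 * q * (N + 1)) * (q : ℝ) ^ δ ≤
        k * ((min n q : ℕ) : ℝ) := by
  obtain ⟨η, hη⟩ : ∃ η, η = min ε (1 / 4) := ⟨_, rfl⟩
  have hη0 : 0 < η := by rw [hη]; exact lt_min hε (by norm_num)
  have hηε : η ≤ ε := by rw [hη]; exact min_le_left _ _
  have hη4 : η ≤ 1 / 4 := by rw [hη]; exact min_le_right _ _
  refine ⟨η / 4, η / 8, by positivity, by positivity, ?_⟩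
  intro h hh
  obtain ⟨X, hX⟩ := pari_ev η hη0 h
  refine ⟨⌈X⌉₊, ?_⟩
  intro n q I hn hodd hnq hq hI hIb
  obtain ⟨h1, h2, h4, h5, h6⟩ := hX n (Nat.ceil_le.1 hn)
  obtain ⟨m, hm⟩ : ∃ m, m = (n - 1) / 2 := ⟨_, rfl⟩
  have hnm : n = 2 * m + 1 := by
    obtain ⟨t, ht⟩ := hodd
    omega
  rw [← hm] at hIb ⊢
  obtain ⟨x, hx⟩ : ∃ x, x = Real.log n := ⟨_, rfl⟩
  rw [← hx] at h1 h2 h4 h5 hIb
  obtain ⟨L, hL⟩ : ∃ L, L = Real.log q := ⟨_, rfl⟩
  have hn0 : (0 : ℝ) < n := by linarith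
  have hn1 : (1 : ℝ) < n := by linarith
  have hx0 : 0 < x := by linarith
  have hh1 : (1 : ℝ) ≤ h := by exact_mod_cast hh
  -- the lower bound for `q`
  obtain ⟨Q, hQ⟩ : ∃ Q, Q = (n : ℝ) ^ ((1 + ι) / 2 + η) := ⟨_, rfl⟩
  have hQ0 : 0 < Q := by rw [hQ]; exact Real.rpow_pos_of_pos hn0 _
  have hQq : Q ≤ q := by
    rw [hQ]
    exact le_trans (Real.rpow_le_rpow_of_exponent_le h6 (by linarith)) hnq
  have hQn : Q ≤ n := by
    rw [hQ]
    calc (n : ℝ) ^ ((1 + ι) / 2 + η) ≤ (n : ℝ) ^ (1 : ℝ) :=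
          Real.rpow_le_rpow_of_exponent_le h6 (by linarith)
      _ = n := Real.rpow_one _
  have hq0 : (0 : ℝ) < q := lt_of_lt_of_le hQ0 hQq
  have hLc : ((1 + ι) / 2 + η) * x ≤ L := by
    have h7 := Real.log_le_log hQ0 hQq
    rwa [hQ, Real.log_rpow hn0, ← hx, ← hL] at h7
  have hL1 : x ≤ 2 * L := by
    have h7 : (1 / 2 : ℝ) ≤ (1 + ι) / 2 + η := by linarith
    have h8 := mul_le_mul_of_nonneg_right h7 hx0.le
    linarith
  have hL2 : L ≤ 2 * x := by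
    rw [hx, hL]
    calc Real.log q ≤ Real.log ((n : ℝ) ^ 2) := Real.log_le_log hq0 hq
      _ = 2 * Real.log n := by rw [Real.log_pow]; norm_num
  have hL0 : 0 < L := by linarith
  have hnmr : (n : ℝ) = 2 * m + 1 := by rw [hnm]; push_cast; ring
  have hmx : 4 * x ≤ m := by
    rw [hnmr] at h1
    linarith
  have hm0 : (4 : ℝ) ≤ m := by linarith
  -- the parameters
  obtain ⟨k, hk⟩ : ∃ k, k = ⌊(m : ℝ) / L⌋₊ := ⟨_, rfl⟩
  obtain ⟨r, hr⟩ : ∃ r, r = ⌊(n : ℝ) ^ (ι + η / 2)⌋₊ := ⟨_, rfl⟩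
  obtain ⟨N, hN⟩ : ∃ N, N = ⌈4 * h * (r : ℝ) * n * L / q⌉₊ + 1 := ⟨_, rfl⟩
  have hkle : (k : ℝ) ≤ m / L := by
    rw [hk]
    exact Nat.floor_le (by positivity)
  have hkge : (m : ℝ) / (2 * L) ≤ k := by
    have h7 : (m : ℝ) / L < k + 1 := by
      rw [hk]
      exact Nat.lt_floor_add_one _
    have h8 : 1 ≤ (m : ℝ) / (2 * L) := by
      rw [le_div_iff₀ (by positivity)]
      linarith
    have h9 : (m : ℝ) / L = 2 * (m / (2 * L)) := by
      field_simp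
    rw [h9] at h7
    linarith
  have hk1 : 1 ≤ k := by
    have h8 : 1 ≤ (m : ℝ) / (2 * L) := by
      rw [le_div_iff₀ (by positivity)]
      linarith
    have : (1 : ℝ) ≤ k := le_trans h8 hkge
    exact_mod_cast this
  have hkL : (k : ℝ) * L ≤ m := by
    rwa [le_div_iff₀ hL0] at hkle
  have hmk : (m : ℝ) ≤ k * (2 * L) := by
    rwa [div_le_iff₀ (by positivity)] at hkge
  have hk0 : (0 : ℝ) < k := by exact_mod_cast hk1
  have hroot : (1 : ℝ) ≤ (n : ℝ) ^ (ι + η / 2) := Real.one_le_rpow h6 (by positivity)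
  have hr1 : 1 ≤ r := by
    rw [hr]
    exact Nat.le_floor (by exact_mod_cast hroot)
  have hr0 : (0 : ℝ) < r := by exact_mod_cast hr1
  have hrle : (r : ℝ) ≤ (n : ℝ) ^ (ι + η / 2) := by
    rw [hr]
    exact Nat.floor_le (by positivity)
  have hrlt : (n : ℝ) ^ (ι + η / 2) < r + 1 := by
    rw [hr]
    exact Nat.lt_floor_add_one _
  have hrq : r < q := by
    have h7 : (r : ℝ) < q := by
      calc (r : ℝ) ≤ (n : ℝ) ^ (ι + η / 2) := hrle
        _ < (n : ℝ) ^ ((1 + ι) / 2 + η) := Real.rpow_lt_rpow_of_exponent_lt hn1 (by linarith)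
        _ = Q := hQ.symm
        _ ≤ q := hQq
    exact_mod_cast h7
  -- the bound for `N`
  obtain ⟨P, hP⟩ : ∃ P, P = (n : ℝ) ^ ((1 + ι) / 2 - η / 2) := ⟨_, rfl⟩
  have hP0 : 0 < P := by rw [hP]; exact Real.rpow_pos_of_pos hn0 _
  have hP1 : 1 ≤ P := by rw [hP]; exact Real.one_le_rpow h6 (by linarith)
  have hPQ : (n : ℝ) ^ (ι + η / 2) * n = P * Q := by
    rw [hP, hQ, ← Real.rpow_add hn0]
    have h7 := Real.rpow_add hn0 (ι + η / 2) 1
    rw [Real.rpow_one] at h7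
    rw [← h7]
    congr 1
    ring
  have hQP : Q = (n : ℝ) ^ η * ((n : ℝ) ^ (η / 2) * P) := by
    rw [hP, hQ, ← Real.rpow_add hn0, ← Real.rpow_add hn0]
    congr 1
    ring
  have hNpos : 0 < 4 * h * (r : ℝ) * n * L / q := by positivity
  have hN2 : 2 ≤ N := by
    have h7 : 0 < ⌈4 * h * (r : ℝ) * n * L / q⌉₊ := Nat.ceil_pos.2 hNpos
    omega
  have hN0 : (0 : ℝ) < N := by
    have : 0 < N := by omega
    exact_mod_cast this
  have hNge : 4 * h * (r : ℝ) * n * L ≤ N * q := by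
    have h7 : 4 * h * (r : ℝ) * n * L / q ≤ N := by
      have h8 : 4 * h * (r : ℝ) * n * L / q ≤ ⌈4 * h * (r : ℝ) * n * L / q⌉₊ := Nat.le_ceil _
      rw [hN]
      push_cast
      linarith
    rwa [div_le_iff₀ hq0] at h7
  have hNle : (N : ℝ) ≤ (8 * h * x + 2) * P := by
    have h7 : (N : ℝ) ≤ 4 * h * (r : ℝ) * n * L / q + 2 := by
      have h8 : (⌈4 * h * (r : ℝ) * n * L / q⌉₊ : ℝ) < 4 * h * (r : ℝ) * n * L / q + 1 :=
        Nat.ceil_lt_add_one hNpos.le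
      rw [hN]
      push_cast
      linarith
    have h8 : 4 * h * (r : ℝ) * n * L / q ≤ 8 * h * x * P := by
      rw [div_le_iff₀ hq0]
      calc 4 * h * (r : ℝ) * n * L ≤ 4 * h * (n : ℝ) ^ (ι + η / 2) * n * (2 * x) := by gcongr
        _ = 8 * h * x * ((n : ℝ) ^ (ι + η / 2) * n) := by ring
        _ = 8 * h * x * (P * Q) := by rw [hPQ]
        _ = 8 * h * x * P * Q := by ring
        _ ≤ 8 * h * x * P * q := by gcongr
    calc (N : ℝ) ≤ 8 * h * x * P + 2 * 1 := by linarith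
      _ ≤ 8 * h * x * P + 2 * P := by linarith
      _ = (8 * h * x + 2) * P := by ring
  have hnη : 1 ≤ (n : ℝ) ^ (η / 2) := Real.one_le_rpow h6 (by positivity)
  have hx2 : 1 ≤ x ^ 2 := one_le_pow₀ h5
  have hA0 : 0 ≤ 8 * h * x + 3 := by positivity
  have hA : 8 * h * x + 3 ≤ (n : ℝ) ^ η := by
    have h8 : 1 ≤ 256 * x ^ 2 := by linarith
    calc 8 * h * x + 3 = 1 * (8 * h * x + 3) := (one_mul _).symm
      _ ≤ 256 * x ^ 2 * (8 * h * x + 3) := mul_le_mul_of_nonneg_right h8 hA0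
      _ ≤ (n : ℝ) ^ η := h2
  have hN1q : (N : ℝ) + 1 ≤ q := by
    calc (N : ℝ) + 1 ≤ (8 * h * x + 2) * P + P := by linarith
      _ = (8 * h * x + 3) * P := by ring
      _ ≤ (n : ℝ) ^ η * P := mul_le_mul_of_nonneg_right hA hP0.le
      _ = (n : ℝ) ^ η * (1 * P) := by rw [one_mul]
      _ ≤ (n : ℝ) ^ η * ((n : ℝ) ^ (η / 2) * P) := by gcongr
      _ = Q := hQP.symm
      _ ≤ q := hQq
  have hNq : N < q := by
    have : (N : ℝ) < q := by linarith
    exact_mod_cast this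
  refine ⟨k, r, N, hk1, ?_, hr1, hrq, hN2, hNq, ?_, ?_, ?_⟩
  · have h7 : (k : ℝ) ≤ m := by
      have hL1' : 1 / 2 ≤ L := by linarith
      by_contra hcon
      have h8 := not_le.1 hcon
      -- `k L ≤ m`; use the sharper lower bound for `L`
      have h9 : 1 ≤ L := by
        have h10 : η * x ≤ L := by
          have h11 : η * x ≤ ((1 + ι) / 2 + η) * x :=
            mul_le_mul_of_nonneg_right (by linarith) hx0.le
          linarith
        linarith
      have h10 : (k : ℝ) * 1 ≤ k * L := mul_le_mul_of_nonneg_left h9 hk0.le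
      linarith
    exact_mod_cast h7
  · have hposL : 0 < (N : ℝ) ^ ⌊η / 8 * (m : ℝ)⌋₊ * (I * (q : ℝ) ^ k) := by positivity
    have hposR : 0 < ((r : ℝ) + 1) ^ m := by positivity
    rw [← Real.log_lt_log_iff hposL hposR, Real.log_mul (by positivity) (by positivity),
      Real.log_mul hI.ne' (by positivity), Real.log_pow, Real.log_pow, Real.log_pow, ← hL]
    have hlI : Real.log I ≤ ι * m * x := by
      rw [Real.log_le_iff_le_exp hI]
      exact hIb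
    have hlr : (ι + η / 2) * x < Real.log (r + 1) := by
      have h7 := Real.log_lt_log (by positivity) hrlt
      rwa [Real.log_rpow hn0, ← hx] at h7
    have hlN : Real.log N ≤ 2 * x := by
      have h7 := Real.log_le_log hN0 (show (N : ℝ) ≤ q by linarith)
      rw [← hL] at h7
      linarith
    have hlN0 : 0 ≤ Real.log N := Real.log_natCast_nonneg N
    have hfl : (⌊η / 8 * (m : ℝ)⌋₊ : ℝ) ≤ η / 8 * m := Nat.floor_le (by positivity)
    have h8 : (⌊η / 8 * (m : ℝ)⌋₊ : ℝ) * Real.log N ≤ η / 8 * m * (2 * x) := by gcongr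
    have hmpos : (0 : ℝ) < m := by linarith
    have h9 : (m : ℝ) * ((ι + η / 2) * x) < m * Real.log (r + 1) :=
      mul_lt_mul_of_pos_left hlr hmpos
    have h10 : (m : ℝ) * 4 < m * (η * x) := mul_lt_mul_of_pos_left h4 hmpos
    linarith
  · have h7 : (2 : ℝ) * m * (h * r) * n ≤ k * N * q := by
      calc (2 : ℝ) * m * (h * r) * n ≤ 2 * (k * (2 * L)) * (h * r) * n := by gcongr
        _ = k * (4 * h * (r : ℝ) * n * L) := by ring
        _ ≤ k * (N * q) := by gcongr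
        _ = k * N * q := by ring
    exact_mod_cast h7
  · have hL1' : 1 ≤ L := by
      have h10 : η * x ≤ L := by
        have h11 : η * x ≤ ((1 + ι) / 2 + η) * x :=
          mul_le_mul_of_nonneg_right (by linarith) hx0.le
        linarith
      linarith
    have hlog : Real.log (4 * q * (N + 1)) ≤ 8 * x := by
      have h7 : 4 * (q : ℝ) * (N + 1) ≤ 4 * (q : ℝ) ^ 2 := by
        rw [pow_two]
        calc 4 * (q : ℝ) * (N + 1) ≤ 4 * (q : ℝ) * q := by gcongr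
          _ = 4 * ((q : ℝ) * q) := by ring
      have h8 := Real.log_le_log (by positivity) h7
      have h10 : Real.log (4 * (q : ℝ) ^ 2) = Real.log 4 + 2 * L := by
        rw [Real.log_mul (by norm_num) (by positivity), Real.log_pow, ← hL]
        norm_num
      rw [h10] at h8
      have h9 : Real.log 4 ≤ 2 := by
        rw [show (4 : ℝ) = 2 ^ 2 by norm_num, Real.log_pow]
        have := Real.log_two_lt_d9
        push_cast
        linarith
      linarith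
    have hlog0 : 0 ≤ Real.log (4 * q * (N + 1)) := by
      apply Real.log_nonneg
      have h7 : (1 : ℝ) ≤ q := by linarith
      have h8 : (1 : ℝ) ≤ 4 * q := by linarith
      exact one_le_mul_of_one_le_of_one_le h8 (by linarith)
    have hqδ : (q : ℝ) ^ (η / 4) ≤ (n : ℝ) ^ (η / 2) := by
      calc (q : ℝ) ^ (η / 4) ≤ ((n : ℝ) ^ 2) ^ (η / 4) :=
            Real.rpow_le_rpow hq0.le hq (by positivity)
        _ = (n : ℝ) ^ (η / 2) := by
            rw [← Real.rpow_natCast, ← Real.rpow_mul hn0.le]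
            congr 1
            push_cast
            ring
    have hqδ0 : 0 ≤ (q : ℝ) ^ (η / 4) := (Real.rpow_pos_of_pos hq0 _).le
    have hnδ0 : 0 ≤ (n : ℝ) ^ (η / 2) := (Real.rpow_pos_of_pos hn0 _).le
    have hmin : Q ≤ ((min n q : ℕ) : ℝ) := by
      rw [Nat.cast_min]
      exact le_min hQn hQq
    have hB : 8 * h * x + 2 ≤ 8 * h * x + 3 := by linarith
    calc 8 * (m : ℝ) * N * Real.log (4 * q * (N + 1)) * (q : ℝ) ^ (η / 4)
        ≤ 8 * (k * (2 * (2 * x))) * ((8 * h * x + 2) * P) * (8 * x) * (n : ℝ) ^ (η / 2) := by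
          have hmk' : (m : ℝ) ≤ k * (2 * (2 * x)) := by
            calc (m : ℝ) ≤ k * (2 * L) := hmk
              _ ≤ k * (2 * (2 * x)) := by gcongr
          gcongr
      _ = k * (256 * x ^ 2 * (8 * h * x + 2) * ((n : ℝ) ^ (η / 2) * P)) := by ring
      _ ≤ k * (256 * x ^ 2 * (8 * h * x + 3) * ((n : ℝ) ^ (η / 2) * P)) := by gcongr
      _ ≤ k * ((n : ℝ) ^ η * ((n : ℝ) ^ (η / 2) * P)) := by gcongr
      _ = k * Q := by rw [hQP]
      _ ≤ k * ((min n q : ℕ) : ℝ) := by gcongr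

end Pool.Agent.NLS
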