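import Pool.Agent.NLS.UBH
import Pool.Agent.NLS.LvZer
import Pool.Agent.NLS.ParI
import Pool.Agent.NLS.VSq
import Pool.Agent.NLS.DgFin
import Pool.Agent.NLS.LaFin

/-!
# NLS-VAll: few prime exponents `q ≥ n ^ (1/2 + 1/(4 (k + 1)) + ε)`, none for `k = 0`
-/

open NumberField Finset
open Pool.Agent.AAP Pool.Agent.Helper7.HU

namespace Pool.Agent.NLS

/-- no solution for `q ≥ n ^ ((1 + ι) / 2 + ε)`, `q ≠ n`, if the index is at most `n ^ (ι (n - 1) / 2)` -/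
theorem none_level (ι ε : ℝ) (hι : 0 < ι) (hι' : ι ≤ 1 / 2) (hε : 0 < ε) : ∃ n0 : ℕ, ∀ (n : ℕ) [Fact n.Prime] (q x y : ℕ),
    n0 ≤ n → q.Prime → q ≠ n → (n : ℝ) ^ ((1 + ι) / 2 + ε) ≤ q →
    Real.log ((Lq n q).index : ℝ) ≤ ι * ((n - 1) / 2 : ℕ) * Real.log n → 1 < x → 1 < y →
      y ^ q * (x - 1) ≠ x ^ n - 1 := by
  obtain ⟨δ, γ, hδ, hγ, hpar⟩ := exists_parI ι ε hι hι' hε
  obtain ⟨h, n1, hh, hzer⟩ := lv_zer γ hγ
  obtain ⟨n2, hn2⟩ := hpar h hh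
  obtain ⟨q1, hq1⟩ := partL3 (δ / 2) (by positivity)
  obtain ⟨n3, hn35, hn3⟩ := none_sq2
  refine ⟨max (max n1 n2) (max n3 (max 4 (q1 ^ 2))), fun n _ q x y hn hq hqn hreg hidx hx hy heq => ?_⟩
  have hnp : n.Prime := Fact.out
  have hnn1 : n1 ≤ n := ((le_max_left _ _).trans (le_max_left _ _)).trans hn
  have hnn2 : n2 ≤ n := ((le_max_right _ _).trans (le_max_left _ _)).trans hn
  have hnn3 : n3 ≤ n := ((le_max_left _ _).trans (le_max_right _ _)).trans hn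
  have hnq1 : q1 ^ 2 ≤ n := ((le_max_right _ _).trans ((le_max_right _ _).trans (le_max_right _ _))).trans hn
  have hn5 : 5 ≤ n := hn35.trans hnn3
  have hq2 := hn3 n q x y hnp hnn3 hq hx hy heq
  have hn0 : (0 : ℝ) < n := by
    have : 0 < n := by omega
    exact_mod_cast this
  have hn1R : (1 : ℝ) < n := by
    have : 1 < n := by omega
    exact_mod_cast this
  have hsq : (n : ℝ) ^ (1 / 2 : ℝ) < q := by
    refine lt_of_lt_of_le (Real.rpow_lt_rpow_of_exponent_lt hn1R ?_) hreg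
    linarith
  have hsq2 : (n : ℝ) < (q : ℝ) ^ 2 := by
    have h1 : ((n : ℝ) ^ (1 / 2 : ℝ)) ^ 2 = n := by
      rw [← Real.rpow_natCast, ← Real.rpow_mul hn0.le]
      norm_num
    rw [← h1]
    exact pow_lt_pow_left₀ hsq (by positivity) (by norm_num)
  have hnq2 : n < q ^ 2 := by exact_mod_cast hsq2
  have hq1q : q1 ≤ q := by
    by_contra hc
    push Not at hc
    have h1 : q ^ 2 ≤ q1 ^ 2 := Nat.pow_le_pow_left hc.le 2
    omega
  have hq3 : 3 ≤ q := by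
    by_contra hc
    push Not at hc
    have h1 : q ^ 2 ≤ 2 ^ 2 := Nat.pow_le_pow_left (by omega) 2
    omega
  have hodd : Odd n := hnp.odd_of_ne_two (by omega)
  have S : Sol n q x y := ⟨hnp, hq, hn5, hq3, hqn, hx, hy, heq⟩
  have hcard : (H n).card = (n - 1) / 2 := card_H n (by omega)
  have hI0 : (0 : ℝ) < ((Lq n q).index : ℝ) := by
    have := lq_index_ne (n := n) (by omega) q
    positivity
  have hI1 : ((Lq n q).index : ℝ) ≤ Real.exp (ι * ((n - 1) / 2 : ℕ) * Real.log n) := by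
    rw [← Real.log_le_iff_le_exp hI0]
    exact hidx
  obtain ⟨k, r, N, hk, hkm, hr, hrq, hN, hNq, hH2, hH3, hH4⟩ := hn2 n q ((Lq n q).index : ℝ) hnn2 hodd hreg hq2 hI0 hI1
  have hM : MinorH n q r N (N ^ ⌊γ * (((n - 1) / 2 : ℕ) : ℝ)⌋₊) h := by
    intro K _ _ _ X _ hX hc
    exact hzer n hnn1 q r N hq hqn (by omega) hNq.le hrq K X hX hc
  have hub := upperH S hk (by rw [hcard]; exact hkm) (by omega) hh (Nat.one_le_pow _ _ (by omega)) hM
    (by rw [hcard]; exact_mod_cast hH2) (by rw [hcard]; exact hH3)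
  rw [hcard] at hub
  have hkR : (0 : ℝ) < k := by exact_mod_cast hk
  have hqR : (1 : ℝ) < q := by exact_mod_cast hq.one_lt
  have hq0 : (0 : ℝ) < q := by linarith
  have hlx : 0 < Real.log x := Real.log_pos (by exact_mod_cast hx)
  have hq4 : q ≤ n ^ 2 := by exact_mod_cast hq2
  have hlow := hq1 q n x y hq1q hq (by omega) (by omega) heq
  have h1 : (k : ℝ) * Real.log x * (q : ℝ) ^ δ ≤ k * (Real.log x * (q : ℝ) ^ (δ / 2)) := by
    calc (k : ℝ) * Real.log x * (q : ℝ) ^ δ ≤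
          8 * (((n - 1) / 2 : ℕ) : ℝ) * N * Real.log (4 * q * (N + 1)) * (q : ℝ) ^ δ :=
            mul_le_mul_of_nonneg_right hub (by positivity)
      _ ≤ k * ((min n q : ℕ) : ℝ) := hH4
      _ ≤ k * (Real.log x * (q : ℝ) ^ (δ / 2)) := mul_le_mul_of_nonneg_left hlow hkR.le
  have h2 : (q : ℝ) ^ (δ / 2) < (q : ℝ) ^ δ := Real.rpow_lt_rpow_of_exponent_lt hqR (by linarith)
  have h3 : (k : ℝ) * (Real.log x * (q : ℝ) ^ (δ / 2)) < k * Real.log x * (q : ℝ) ^ δ := by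
    rw [← mul_assoc]
    exact mul_lt_mul_of_pos_left h2 (mul_pos hkR hlx)
  exact absurd h1 (not_le.2 h3)

/-- for large primes `n` at most `k` primes `q ≥ n ^ (1/2 + 1/(4 (k + 1)) + ε)` are exponents -/
private theorem few_level (k : ℕ) (ε : ℝ) (hε : 0 < ε) : ∃ n0 : ℕ, ∀ n : ℕ, n0 ≤ n → n.Prime → ∀ P : Finset ℕ,
    (∀ q ∈ P, q.Prime ∧ (n : ℝ) ^ (1 / 2 + 1 / (4 * ((k : ℝ) + 1)) + ε) ≤ q ∧
      ∃ x y : ℕ, 1 < x ∧ 1 < y ∧ y ^ q * (x - 1) = x ^ n - 1) → P.card ≤ k := by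
  obtain ⟨n1, hn1⟩ := no_diag partL2
  obtain ⟨ι, hιdef⟩ : ∃ ι : ℝ, ι = 1 / (2 * ((k : ℝ) + 1)) := ⟨_, rfl⟩
  have hk0 : (0 : ℝ) ≤ k := Nat.cast_nonneg k
  have hι0 : 0 < ι := by
    rw [hιdef]
    positivity
  have hι1 : ι ≤ 1 / 2 := by
    rw [hιdef]
    exact one_div_le_one_div_of_le (by norm_num) (by linarith)
  have hιk : ι * ((k : ℝ) + 1) = 1 / 2 := by
    rw [hιdef]
    field_simp
  have hexp : (1 / 2 + 1 / (4 * ((k : ℝ) + 1)) + ε : ℝ) = (1 + ι) / 2 + ε := by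
    rw [hιdef]
    field_simp
    ring
  obtain ⟨n2, hn2⟩ := none_level ι ε hι0 hι1 hε
  refine ⟨max (max n1 n2) 5, fun n hn hnp P hP => ?_⟩
  have : Fact n.Prime := ⟨hnp⟩
  have hn5 : 5 ≤ n := (le_max_right _ _).trans hn
  have hnn1 : n1 ≤ n := ((le_max_left _ _).trans (le_max_left _ _)).trans hn
  have hnn2 : n2 ≤ n := ((le_max_right _ _).trans (le_max_left _ _)).trans hn
  by_contra hc
  push Not at hc
  obtain ⟨Q, hQP, hQc⟩ := Finset.exists_subset_card_eq (Nat.succ_le_of_lt hc)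
  have hbig : ∀ q ∈ Q, ι * ((n - 1) / 2 : ℕ) * Real.log n < Real.log ((Lq n q).index : ℝ) := by
    intro q hq
    obtain ⟨hqp, hq1, x, y, hx, hy, heq⟩ := hP q (hQP hq)
    by_contra hcon
    push Not at hcon
    have hqn : q ≠ n := by
      rintro rfl
      exact hn1 q x y hnn1 hnp hx hy heq
    rw [hexp] at hq1
    exact hn2 n q x y hnn2 hqp hqn hq1 hcon hx hy heq
  have hQ0 : Q.Nonempty := by
    rw [← Finset.card_pos]
    omega
  have hsum := Finset.sum_lt_sum_of_nonempty hQ0 hbig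
  rw [Finset.sum_const, hQc, nsmul_eq_mul] at hsum
  have hs := sum_log_index (n := n) (by omega) Q fun q hq => (hP q (hQP hq)).1
  rw [card_H n (by omega)] at hs
  have hm2 : 2 ≤ (n - 1) / 2 := by omega
  have hmR : (2 : ℝ) ≤ (((n - 1) / 2 : ℕ) : ℝ) := by exact_mod_cast hm2
  have h4 : Real.log (((n - 1) / 2 : ℕ) : ℝ) ≤ Real.log n := by
    refine Real.log_le_log (by linarith) ?_
    exact_mod_cast (by omega : (n - 1) / 2 ≤ n)
  have h6 : (((n - 1) / 2 : ℕ) : ℝ) / 2 * Real.log (((n - 1) / 2 : ℕ) : ℝ) ≤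
      (((n - 1) / 2 : ℕ) : ℝ) / 2 * Real.log n := mul_le_mul_of_nonneg_left h4 (by linarith)
  have h7 : (((k + 1 : ℕ) : ℝ)) * (ι * ((n - 1) / 2 : ℕ) * Real.log n) =
      (((n - 1) / 2 : ℕ) : ℝ) / 2 * Real.log n := by
    push_cast
    calc ((k : ℝ) + 1) * (ι * (((n - 1) / 2 : ℕ) : ℝ) * Real.log n) =
          (ι * ((k : ℝ) + 1)) * ((((n - 1) / 2 : ℕ) : ℝ) * Real.log n) := by ring
      _ = _ := by rw [hιk]; ring
  rw [Nat.succ_eq_add_one, h7] at hsum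
  linarith

/-- for all large primes `n`: the smallest of `j` primes which are exponents is smaller than `n ^ (1/2 + 1/(4 j) + ε)` -/
theorem few_primes (ε : ℝ) (hε : 0 < ε) : ∃ n0 : ℕ, ∀ n : ℕ, n0 ≤ n → n.Prime → ∀ P : Finset ℕ, P.Nonempty →
    (∀ q ∈ P, q.Prime ∧ ∃ m x y : ℕ, q ∣ m ∧ 1 < x ∧ 1 < y ∧ y ^ m * (x - 1) = x ^ n - 1) →
    ∃ q ∈ P, (q : ℝ) < (n : ℝ) ^ (1 / 2 + 1 / (4 * (P.card : ℝ)) + ε) := by
  -- `K` with `1 / (4 (K + 1)) ≤ ε / 2`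
  obtain ⟨K, hK⟩ := exists_nat_gt (1 / ε)
  have hK0 : (0 : ℝ) ≤ K := Nat.cast_nonneg K
  have hKε : 1 / (4 * ((K : ℝ) + 1)) ≤ ε / 2 := by
    rw [div_lt_iff₀ hε] at hK
    rw [div_le_iff₀ (by positivity)]
    nlinarith
  choose f hf using fun k : ℕ => few_level k (ε / 2) (by positivity)
  refine ⟨max 2 ((range (K + 1)).sup f), fun n hn hnp P hP0 hP => ?_⟩
  have hn1 : (1 : ℝ) ≤ n := by exact_mod_cast hnp.one_lt.le
  have hfn : ∀ k, k ≤ K → f k ≤ n := fun k hk =>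
    (Finset.le_sup (mem_range.2 (Nat.lt_succ_of_le hk))).trans ((le_max_right _ _).trans hn)
  by_contra hc
  push Not at hc
  obtain ⟨j, hj⟩ : ∃ j, P.card = j + 1 := ⟨P.card - 1, by have := hP0.card_pos; omega⟩
  have hj0 : (0 : ℝ) ≤ j := Nat.cast_nonneg j
  have hsol : ∀ q ∈ P, ∃ x y : ℕ, 1 < x ∧ 1 < y ∧ y ^ q * (x - 1) = x ^ n - 1 := by
    intro q hq
    obtain ⟨hqp, m, x, y, ⟨t, ht⟩, hx, hy, heq⟩ := hP q hq
    have ht0 : t ≠ 0 := by
      rintro rfl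
      rw [ht, mul_zero, pow_zero, one_mul] at heq
      have h3 : x ^ 1 < x ^ n := Nat.pow_lt_pow_right hx hnp.one_lt
      rw [pow_one] at h3
      omega
    refine ⟨x, y ^ t, hx, Nat.one_lt_pow ht0 hy, ?_⟩
    rw [← pow_mul, mul_comm t q, ← ht]
    exact heq
  -- the exponent for `min j K`
  have hmin : 1 / (4 * (((min j K : ℕ) : ℝ) + 1)) ≤ 1 / (4 * ((j : ℝ) + 1)) + ε / 2 := by
    rcases le_total j K with h | h
    · rw [min_eq_left h]
      linarith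
    · rw [min_eq_right h]
      have : 0 ≤ 1 / (4 * ((j : ℝ) + 1)) := by positivity
      linarith
  have h1 := hf (min j K) n (hfn _ (min_le_right _ _)) hnp P fun q hq => by
    refine ⟨(hP q hq).1, le_trans ?_ (hc q hq), hsol q hq⟩
    refine Real.rpow_le_rpow_of_exponent_le hn1 ?_
    rw [hj]
    push_cast at hmin ⊢
    linarith
  have h2 := min_le_left j K
  omega

end Pool.Agent.NLS
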