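import Pool.Agent.NLS.DpOne
import Pool.Agent.NLS.DcIdxM
import Pool.Agent.NLS.DcDiv
import Pool.Agent.NLS.VAll
import Pool.Agent.NLS.AllN
import Pool.Agent.NLE.SqAll

/-!
# NLS-DpAll: large pairwise coprime exponents

All exponents `m`, not only prime ones: `m` is odd (Ljunggren), its prime factors are smaller than `n` (`few_primes` for one prime), so `m` has
a divisor `M` with `n ^ θ ≤ M ≤ n ^ θ n ≤ n ^ 2`. For pairwise coprime exponents these divisors are pairwise coprime.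
-/

open NumberField Finset
open Pool.Agent.AAP Pool.Agent.Helper7.HU

namespace Pool.Agent.NLS

private theorem dpall_rep {x y m n : ℕ} (hx : 2 ≤ x) (h : y ^ m * (x - 1) = x ^ n - 1) : y ^ m = NL.rep x n := by
  have h1 := NL.rep_mul (by omega : 1 ≤ x) n
  have h2 : y ^ m * (x - 1) = NL.rep x n * (x - 1) := by omega
  exact Nat.eq_of_mul_eq_mul_right (by omega) h2

/-- exponents of solutions of length `n > 5` are odd -/
private theorem dpall_odd {x y m n : ℕ} (hn : 5 < n) (hx : 1 < x) (h : y ^ m * (x - 1) = x ^ n - 1) : Odd m := by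
  rw [← Nat.not_even_iff_odd]
  rintro ⟨t, ht⟩
  have h1 := dpall_rep (by omega) h
  rw [ht, ← two_mul, mul_comm, pow_mul] at h1
  rcases NLE.sq_all hx (by omega) h1 with h2 | h2 <;> omega

/-- for large primes `n` the prime factors of the exponents are smaller than `n` -/
private theorem dpall_small : ∃ n0 : ℕ, ∀ n m x y p : ℕ, n0 ≤ n → n.Prime → 1 < x → 1 < y → y ^ m * (x - 1) = x ^ n - 1 →
    p.Prime → p ∣ m → p < n := by
  obtain ⟨n1, h1⟩ := few_primes (1 / 4) (by norm_num)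
  refine ⟨n1, fun n m x y p hn hnp hx hy heq hp hpm => ?_⟩
  obtain ⟨q, hq, hqn⟩ := h1 n hn hnp {p} (Finset.singleton_nonempty p) fun q hq => by
    rw [Finset.mem_singleton] at hq
    rw [hq]
    exact ⟨hp, m, x, y, hpm, hx, hy, heq⟩
  rw [Finset.mem_singleton] at hq
  rw [hq, Finset.card_singleton] at hqn
  norm_num at hqn
  exact hqn

/-- for large primes `n` at most `k` pairwise coprime numbers `m ≥ n ^ (1/2 + 1/(4 (k + 1)) + ε)` are exponents -/
private theorem few_levelM (k : ℕ) (ε : ℝ) (hε : 0 < ε) (hε1 : ε ≤ 1 / 4) :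
    ∃ n0 : ℕ, ∀ n : ℕ, n0 ≤ n → n.Prime → ∀ P : Finset ℕ, (∀ m ∈ P, ∀ m' ∈ P, m ≠ m' → m.Coprime m') →
    (∀ m ∈ P, (n : ℝ) ^ (1 / 2 + 1 / (4 * ((k : ℝ) + 1)) + ε) ≤ m ∧
      ∃ x y : ℕ, 1 < x ∧ 1 < y ∧ y ^ m * (x - 1) = x ^ n - 1) → P.card ≤ k := by
  obtain ⟨n1, hn1⟩ := dpall_small
  obtain ⟨ι, hιdef⟩ : ∃ ι : ℝ, ι = 1 / (2 * ((k : ℝ) + 1)) := ⟨_, rfl⟩
  have hk0 : (0 : ℝ) ≤ k := Nat.cast_nonneg k
  have hι0 : 0 < ι := by
    rw [hιdef]
    positivity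
  have hι1 : ι ≤ 1 / 2 := by
    rw [hιdef]
    exact one_div_le_one_div_of_le (by norm_num) (by linarith)
  have hιk : ι * ((k : ℝ) + 1) = 1 / 2 := by
    rw [hιdef]
    field_simp
  have hexp : (1 / 2 + 1 / (4 * ((k : ℝ) + 1)) + ε : ℝ) = (1 + ι) / 2 + ε := by
    rw [hιdef]
    field_simp
    ring
  obtain ⟨n2, hn2⟩ := none_M ι ε hι0 hι1 hε
  refine ⟨max (max n1 n2) 6, fun n hn hnp P hPc hP => ?_⟩
  have : Fact n.Prime := ⟨hnp⟩
  have hn6 : 6 ≤ n := (le_max_right _ _).trans hn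
  have hnn1 : n1 ≤ n := ((le_max_left _ _).trans (le_max_left _ _)).trans hn
  have hnn2 : n2 ≤ n := ((le_max_right _ _).trans (le_max_left _ _)).trans hn
  have hn0 : (0 : ℝ) < n := by
    have : 0 < n := by omega
    exact_mod_cast this
  have hn1R : (1 : ℝ) ≤ n := by
    have : 1 ≤ n := by omega
    exact_mod_cast this
  by_contra hc
  push Not at hc
  obtain ⟨Q, hQP, hQc⟩ := Finset.exists_subset_card_eq (Nat.succ_le_of_lt hc)
  rw [hexp] at hP
  have hX1 : (1 : ℝ) ≤ (n : ℝ) ^ ((1 + ι) / 2 + ε) := Real.one_le_rpow hn1R (by linarith)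
  have hdiv : ∀ m : ℕ, m ∈ P → ∃ M : ℕ, M ∣ m ∧ (n : ℝ) ^ ((1 + ι) / 2 + ε) ≤ M ∧
      (M : ℝ) ≤ (n : ℝ) ^ ((1 + ι) / 2 + ε) * n := by
    intro m hm
    obtain ⟨hm1, x, y, hx, hy, heq⟩ := hP m hm
    refine DC.exists_smooth_dvd hX1 hn1R ?_ ?_ hm1
    · rintro rfl
      rw [Nat.cast_zero] at hm1
      linarith
    · intro p hp hpm
      exact_mod_cast (hn1 n m x y p hnn1 hnp hx hy heq hp hpm).le
  choose! f hf1 hf2 hf3 using hdiv
  have hbig : ∀ m ∈ Q, ι * ((n - 1) / 2 : ℕ) * Real.log n < Real.log ((Lq n (f m)).index : ℝ) := by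
    intro m hm
    obtain ⟨hm1, x, y, hx, hy, heq⟩ := hP m (hQP hm)
    by_contra hcon
    push Not at hcon
    have hodd : Odd m := dpall_odd (by omega) hx heq
    have hfo : Odd (f m) := hodd.of_dvd_nat (hf1 m (hQP hm))
    have hsm : ∀ p : ℕ, p.Prime → p ∣ f m → p < n := fun p hp hpf =>
      hn1 n m x y p hnn1 hnp hx hy heq hp (hpf.trans (hf1 m (hQP hm)))
    have hcop : (f m).Coprime (2 * n) := by
      refine Nat.Coprime.mul_right (Nat.coprime_two_right.2 hfo) ?_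
      rw [Nat.coprime_comm, hnp.coprime_iff_not_dvd]
      intro hd
      exact lt_irrefl n (hsm n hnp hd)
    obtain ⟨t, ht⟩ := hf1 m (hQP hm)
    have ht0 : t ≠ 0 := by
      rintro rfl
      rw [mul_zero] at ht
      rw [ht, Nat.cast_zero] at hm1
      linarith
    have hM2 : (f m : ℝ) ≤ (n : ℝ) ^ 2 := by
      refine (hf3 m (hQP hm)).trans ?_
      have h1 : (n : ℝ) ^ ((1 + ι) / 2 + ε) ≤ (n : ℝ) ^ (1 : ℝ) :=
        Real.rpow_le_rpow_of_exponent_le hn1R (by linarith)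
      rw [Real.rpow_one] at h1
      rw [pow_two]
      exact mul_le_mul_of_nonneg_right h1 hn0.le
    have hnn : n ≤ n ^ 2 := Nat.le_self_pow (by norm_num) n
    refine hn2 n (f m) x (y ^ t) hnn2 hcop (fun p hp hpf => (hsm p hp hpf).le.trans hnn) (hf2 m (hQP hm)) hM2 hcon hx
      (Nat.one_lt_pow ht0 hy) ?_
    rw [← pow_mul, mul_comm t, ← ht]
    exact heq
  have hQ0 : Q.Nonempty := by
    rw [← Finset.card_pos]
    omega
  have hsum := Finset.sum_lt_sum_of_nonempty hQ0 hbig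
  rw [Finset.sum_const, hQc, nsmul_eq_mul] at hsum
  have hs := DC.sum_log_index (n := n) (by omega) f Q fun i hi j hj hij =>
    Nat.Coprime.coprime_dvd_left (hf1 i (hQP hi))
      (Nat.Coprime.coprime_dvd_right (hf1 j (hQP hj)) (hPc i (hQP hi) j (hQP hj) hij))
  rw [card_H n (by omega)] at hs
  have hm2 : 2 ≤ (n - 1) / 2 := by omega
  have hmR : (2 : ℝ) ≤ (((n - 1) / 2 : ℕ) : ℝ) := by exact_mod_cast hm2
  have h4 : Real.log (((n - 1) / 2 : ℕ) : ℝ) ≤ Real.log n := by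
    refine Real.log_le_log (by linarith) ?_
    exact_mod_cast (by omega : (n - 1) / 2 ≤ n)
  have h6 : (((n - 1) / 2 : ℕ) : ℝ) / 2 * Real.log (((n - 1) / 2 : ℕ) : ℝ) ≤
      (((n - 1) / 2 : ℕ) : ℝ) / 2 * Real.log n := mul_le_mul_of_nonneg_left h4 (by linarith)
  have h7 : (((k + 1 : ℕ) : ℝ)) * (ι * ((n - 1) / 2 : ℕ) * Real.log n) =
      (((n - 1) / 2 : ℕ) : ℝ) / 2 * Real.log n := by
    push_cast
    calc ((k : ℝ) + 1) * (ι * (((n - 1) / 2 : ℕ) : ℝ) * Real.log n) =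
          (ι * ((k : ℝ) + 1)) * ((((n - 1) / 2 : ℕ) : ℝ) * Real.log n) := by ring
      _ = _ := by rw [hιk]; ring
  rw [Nat.succ_eq_add_one, h7] at hsum
  linarith

/-- for all large primes `n`: the smallest of `j` pairwise coprime exponents is smaller than `n ^ (1/2 + 1/(4 j) + ε)` -/
private theorem few_M (ε : ℝ) (hε : 0 < ε) (hε1 : ε ≤ 1 / 2) : ∃ n0 : ℕ, ∀ n : ℕ, n0 ≤ n → n.Prime →
    ∀ P : Finset ℕ, P.Nonempty → (∀ m ∈ P, ∀ m' ∈ P, m ≠ m' → m.Coprime m') →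
    (∀ m ∈ P, ∃ x y : ℕ, 1 < x ∧ 1 < y ∧ y ^ m * (x - 1) = x ^ n - 1) →
    ∃ m ∈ P, (m : ℝ) < (n : ℝ) ^ (1 / 2 + 1 / (4 * (P.card : ℝ)) + ε) := by
  -- `K` with `1 / (4 (K + 1)) ≤ ε / 2`
  obtain ⟨K, hK⟩ := exists_nat_gt (1 / ε)
  have hK0 : (0 : ℝ) ≤ K := Nat.cast_nonneg K
  have hKε : 1 / (4 * ((K : ℝ) + 1)) ≤ ε / 2 := by
    rw [div_lt_iff₀ hε] at hK
    rw [div_le_iff₀ (by positivity)]
    nlinarith
  choose f hf using fun k : ℕ => few_levelM k (ε / 2) (by positivity) (by linarith)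
  refine ⟨max 2 ((range (K + 1)).sup f), fun n hn hnp P hP0 hPc hP => ?_⟩
  have hn1 : (1 : ℝ) ≤ n := by exact_mod_cast hnp.one_lt.le
  have hfn : ∀ k, k ≤ K → f k ≤ n := fun k hk =>
    (Finset.le_sup (mem_range.2 (Nat.lt_succ_of_le hk))).trans ((le_max_right _ _).trans hn)
  by_contra hc
  push Not at hc
  obtain ⟨j, hj⟩ : ∃ j, P.card = j + 1 := ⟨P.card - 1, by have := hP0.card_pos; omega⟩
  have hj0 : (0 : ℝ) ≤ j := Nat.cast_nonneg j
  -- the exponent for `min j K`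
  have hmin : 1 / (4 * (((min j K : ℕ) : ℝ) + 1)) ≤ 1 / (4 * ((j : ℝ) + 1)) + ε / 2 := by
    rcases le_total j K with h | h
    · rw [min_eq_left h]
      linarith
    · rw [min_eq_right h]
      have : 0 ≤ 1 / (4 * ((j : ℝ) + 1)) := by positivity
      linarith
  have h1 := hf (min j K) n (hfn _ (min_le_right _ _)) hnp P hPc fun m hm => by
    refine ⟨le_trans ?_ (hc m hm), hP m hm⟩
    refine Real.rpow_le_rpow_of_exponent_le hn1 ?_
    rw [hj]
    push_cast at hmin ⊢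
    linarith
  have h2 := min_le_left j K
  omega

/-- for all large `n`: the smallest of `j` pairwise coprime exponents `m > 1` is smaller than `n ^ (1/2 + 1/(4 j) + ε)` -/
theorem few_exponents (ε : ℝ) (hε : 0 < ε) : ∃ n0 : ℕ, ∀ n : ℕ, n0 ≤ n → ∀ P : Finset ℕ, P.Nonempty →
    (∀ m ∈ P, ∀ m' ∈ P, m ≠ m' → m.Coprime m') →
    (∀ m ∈ P, 1 < m ∧ ∃ x y : ℕ, 1 < x ∧ 1 < y ∧ y ^ m * (x - 1) = x ^ n - 1) →
    ∃ m ∈ P, (m : ℝ) < (n : ℝ) ^ (1 / 2 + 1 / (4 * (P.card : ℝ)) + ε) := by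
  obtain ⟨n1, h1⟩ := few_M (min ε (1 / 2)) (lt_min hε (by norm_num)) (min_le_right _ _)
  obtain ⟨n2, h2⟩ := prime_length
  refine ⟨max (max n1 n2) 2, fun n hn P hP0 hPc hP => ?_⟩
  have hnn1 : n1 ≤ n := ((le_max_left _ _).trans (le_max_left _ _)).trans hn
  have hnn2 : n2 ≤ n := ((le_max_right _ _).trans (le_max_left _ _)).trans hn
  have hn2 : 2 ≤ n := (le_max_right _ _).trans hn
  have hn1R : (1 : ℝ) ≤ n := by
    have : 1 ≤ n := by omega
    exact_mod_cast this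
  have hp : n.Prime := by
    obtain ⟨m, hm⟩ := hP0
    obtain ⟨hm1, x, y, hx, hy, heq⟩ := hP m hm
    exact h2 x y m n hnn2 hx hy hm1 heq
  obtain ⟨m, hm, hlt⟩ := h1 n hnn1 hp P hP0 hPc fun m hm => (hP m hm).2
  refine ⟨m, hm, hlt.trans_le ?_⟩
  refine Real.rpow_le_rpow_of_exponent_le hn1R ?_
  have := min_le_left ε (1 / 2)
  linarith

/-- for large primes `n` the index for an exponent `m` is larger than `n ^ ((2 θ - 1 - 3 η) (n - 1) / 2)`, `m = n ^ θ` -/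
private theorem dpall_index (η : ℝ) (hη : 0 < η) (hη1 : η ≤ 1 / 4) : ∃ n0 : ℕ, ∀ (n : ℕ) [Fact n.Prime] (m x y : ℕ), n0 ≤ n →
    1 < m → 1 < x → 1 < y → y ^ m * (x - 1) = x ^ n - 1 →
    (2 * Real.log m - (1 + 3 * η) * Real.log n) * ((n - 1) / 2 : ℕ) < Real.log ((Lq n m).index : ℝ) := by
  obtain ⟨n1, h1⟩ := few_M η hη (by linarith)
  obtain ⟨T, hT⟩ := exists_nat_gt (1 / η)
  have hchoose : ∀ t : ℕ, ∃ n0 : ℕ, (0 < (t : ℝ) * η ∧ (t : ℝ) * η ≤ 1 / 2) → ∀ (n : ℕ) [Fact n.Prime] (M x y : ℕ), n0 ≤ n →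
      M.Coprime (2 * n) → (∀ p : ℕ, p.Prime → p ∣ M → p ≤ n ^ 2) →
      (n : ℝ) ^ ((1 + (t : ℝ) * η) / 2 + η) ≤ M → (M : ℝ) ≤ (n : ℝ) ^ 2 →
      Real.log ((Lq n M).index : ℝ) ≤ (t : ℝ) * η * ((n - 1) / 2 : ℕ) * Real.log n → 1 < x → 1 < y →
        y ^ M * (x - 1) ≠ x ^ n - 1 := by
    intro t
    by_cases h : 0 < (t : ℝ) * η ∧ (t : ℝ) * η ≤ 1 / 2
    · obtain ⟨n0, hn0⟩ := none_M ((t : ℝ) * η) η h.1 h.2 hη
      exact ⟨n0, fun _ => hn0⟩
    · exact ⟨0, fun h' => absurd h' h⟩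
  choose f hf using hchoose
  refine ⟨max (max n1 6) ((range (T + 1)).sup f), fun n _ m x y hn hm hx hy heq => ?_⟩
  have hnp : n.Prime := Fact.out
  have hnn1 : n1 ≤ n := ((le_max_left _ _).trans (le_max_left _ _)).trans hn
  have hn6 : 6 ≤ n := ((le_max_right _ _).trans (le_max_left _ _)).trans hn
  have hnf : ∀ t, t ≤ T → f t ≤ n := fun t ht =>
    (Finset.le_sup (mem_range.2 (Nat.lt_succ_of_le ht))).trans ((le_max_right _ _).trans hn)
  have hn0 : (0 : ℝ) < n := by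
    have : 0 < n := by omega
    exact_mod_cast this
  have hn1R : (1 : ℝ) < n := by
    have : 1 < n := by omega
    exact_mod_cast this
  have hlog : 0 < Real.log n := Real.log_pos hn1R
  have hm0 : (0 : ℝ) < m := by
    have : 0 < m := by omega
    exact_mod_cast this
  have hμ : (0 : ℝ) < ((n - 1) / 2 : ℕ) := by
    have : 0 < (n - 1) / 2 := by omega
    exact_mod_cast this
  obtain ⟨θ, hθ⟩ : ∃ θ : ℝ, θ = Real.log m / Real.log n := ⟨_, rfl⟩
  have hmθ : Real.log m = θ * Real.log n := by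
    rw [hθ]
    field_simp
  have hmn : (m : ℝ) = (n : ℝ) ^ θ := by
    rw [Real.rpow_def_of_pos hn0, mul_comm, ← hmθ, Real.exp_log hm0]
  -- `m < n ^ (3 / 4 + η)`
  have hθ1 : θ < 3 / 4 + η := by
    obtain ⟨m', hm', hlt⟩ := h1 n hnn1 hnp {m} (Finset.singleton_nonempty m) (by
      intro a ha b hb hab
      rw [Finset.mem_singleton] at ha hb
      exact absurd (ha.trans hb.symm) hab) (by
      intro a ha
      rw [Finset.mem_singleton] at ha
      rw [ha]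
      exact ⟨x, y, hx, hy, heq⟩)
    rw [Finset.mem_singleton] at hm'
    rw [hm', Finset.card_singleton, hmn] at hlt
    have h2 := (Real.rpow_lt_rpow_left_iff hn1R).1 hlt
    norm_num at h2
    linarith
  have hmlt : m < n := by
    have h2 : (m : ℝ) < (n : ℝ) ^ (1 : ℝ) := by
      rw [hmn]
      exact Real.rpow_lt_rpow_of_exponent_lt hn1R (by linarith)
    rw [Real.rpow_one] at h2
    exact_mod_cast h2
  have hidx0 : 0 ≤ Real.log ((Lq n m).index : ℝ) := by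
    refine Real.log_nonneg ?_
    have := lq_index_ne (n := n) (by omega) m
    exact_mod_cast Nat.pos_of_ne_zero this
  have hgoal : (2 * Real.log m - (1 + 3 * η) * Real.log n) * ((n - 1) / 2 : ℕ) =
      (2 * θ - 1 - 3 * η) * (((n - 1) / 2 : ℕ) * Real.log n) := by
    rw [hmθ]
    ring
  rw [hgoal]
  have hμl : 0 < (((n - 1) / 2 : ℕ) : ℝ) * Real.log n := mul_pos hμ hlog
  rcases lt_or_ge (2 * θ - 1 - 3 * η) 0 with hneg | hpos
  · exact lt_of_lt_of_le (mul_neg_of_neg_of_pos hneg hμl) hidx0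
  -- the largest multiple `t η` of `η` below `2 θ - 1 - 2 η`
  obtain ⟨t, htdef⟩ : ∃ t : ℕ, t = ⌊(2 * θ - 1 - 2 * η) / η⌋₊ := ⟨_, rfl⟩
  have ht1 : (t : ℝ) * η ≤ 2 * θ - 1 - 2 * η := by
    have h2 : (t : ℝ) ≤ (2 * θ - 1 - 2 * η) / η := by
      rw [htdef]
      exact Nat.floor_le (div_nonneg (by linarith) hη.le)
    rwa [le_div_iff₀ hη] at h2
  have ht2 : 2 * θ - 1 - 3 * η < (t : ℝ) * η := by
    have h2 : (2 * θ - 1 - 2 * η) / η < (t : ℝ) + 1 := by
      rw [htdef]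
      exact Nat.lt_floor_add_one _
    rw [div_lt_iff₀ hη] at h2
    linarith
  have htT : t ≤ T := by
    have h2 : (t : ℝ) ≤ T := by
      have h3 : (t : ℝ) ≤ 1 / η := by
        rw [le_div_iff₀ hη]
        linarith
      exact h3.trans hT.le
    exact_mod_cast h2
  by_contra hcon
  push Not at hcon
  have hcop : m.Coprime (2 * n) := by
    refine Nat.Coprime.mul_right (Nat.coprime_two_right.2 (dpall_odd (by omega) hx heq)) ?_
    rw [Nat.coprime_comm, hnp.coprime_iff_not_dvd]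
    intro hd
    exact absurd (Nat.le_of_dvd (by omega) hd) (by omega)
  have hnn : n ≤ n ^ 2 := Nat.le_self_pow (by norm_num) n
  have hnnR : (n : ℝ) ≤ (n : ℝ) ^ 2 := by exact_mod_cast hnn
  refine hf t ⟨by linarith, by linarith⟩ n m x y (hnf t htT) hcop (fun p _ hpm =>
    (Nat.le_of_dvd (by omega) hpm).trans (hmlt.le.trans hnn)) ?_ ?_ ?_ hx hy heq
  · rw [hmn]
    refine Real.rpow_le_rpow_of_exponent_le hn1R.le ?_
    linarith
  · have h2 : (m : ℝ) ≤ n := by exact_mod_cast hmlt.le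
    exact h2.trans hnnR
  · refine hcon.trans ?_
    rw [mul_assoc]
    exact mul_le_mul_of_nonneg_right ht2.le hμl.le

/-- for all large `n`: the product of `j` pairwise coprime exponents `m > 1` is smaller than `n ^ (1/4 + j (1/2 + ε))` -/
theorem prod_exponents (ε : ℝ) (hε : 0 < ε) : ∃ n0 : ℕ, ∀ n : ℕ, n0 ≤ n → ∀ P : Finset ℕ,
    (∀ a ∈ P, ∀ b ∈ P, a ≠ b → a.Coprime b) →
    (∀ m ∈ P, 1 < m ∧ ∃ x y : ℕ, 1 < x ∧ 1 < y ∧ y ^ m * (x - 1) = x ^ n - 1) →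
    ∏ m ∈ P, (m : ℝ) < (n : ℝ) ^ (1 / 4 + (P.card : ℝ) * (1 / 2 + ε)) := by
  obtain ⟨η, hηdef⟩ : ∃ η : ℝ, η = min (2 / 3 * ε) (1 / 4) := ⟨_, rfl⟩
  have hη0 : 0 < η := by
    rw [hηdef]
    exact lt_min (by positivity) (by norm_num)
  have hη1 : η ≤ 1 / 4 := by
    rw [hηdef]
    exact min_le_right _ _
  have hη2 : η ≤ 2 / 3 * ε := by
    rw [hηdef]
    exact min_le_left _ _
  obtain ⟨n1, h1⟩ := dpall_index η hη0 hη1
  obtain ⟨n2, h2⟩ := prime_length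
  refine ⟨max (max n1 n2) 6, fun n hn P hPc hP => ?_⟩
  have hnn1 : n1 ≤ n := ((le_max_left _ _).trans (le_max_left _ _)).trans hn
  have hnn2 : n2 ≤ n := ((le_max_right _ _).trans (le_max_left _ _)).trans hn
  have hn6 : 6 ≤ n := (le_max_right _ _).trans hn
  have hn0 : (0 : ℝ) < n := by
    have : 0 < n := by omega
    exact_mod_cast this
  have hn1R : (1 : ℝ) < n := by
    have : 1 < n := by omega
    exact_mod_cast this
  rcases P.eq_empty_or_nonempty with rfl | hP0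
  · rw [Finset.prod_empty]
    refine Real.one_lt_rpow hn1R ?_
    norm_num
  have hnp : n.Prime := by
    obtain ⟨m, hm⟩ := hP0
    obtain ⟨hm1, x, y, hx, hy, heq⟩ := hP m hm
    exact h2 x y m n hnn2 hx hy hm1 heq
  have : Fact n.Prime := ⟨hnp⟩
  have hlog : 0 < Real.log n := Real.log_pos hn1R
  have hμ2 : 2 ≤ (n - 1) / 2 := by omega
  have hμR : (2 : ℝ) ≤ (((n - 1) / 2 : ℕ) : ℝ) := by exact_mod_cast hμ2
  have hsum := Finset.sum_lt_sum_of_nonempty hP0 (f := fun m : ℕ =>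
      (2 * Real.log m - (1 + 3 * η) * Real.log n) * ((n - 1) / 2 : ℕ))
    (g := fun m : ℕ => Real.log ((Lq n m).index : ℝ)) (by
      intro m hm
      obtain ⟨hm1, x, y, hx, hy, heq⟩ := hP m hm
      exact h1 n m x y hnn1 hm1 hx hy heq)
  have hs := DC.sum_log_index (n := n) (by omega) (fun m : ℕ => m) P hPc
  rw [card_H n (by omega)] at hs
  have h4 : Real.log (((n - 1) / 2 : ℕ) : ℝ) ≤ Real.log n := by
    refine Real.log_le_log (by linarith) ?_
    exact_mod_cast (by omega : (n - 1) / 2 ≤ n)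
  have h6 : (((n - 1) / 2 : ℕ) : ℝ) / 2 * Real.log (((n - 1) / 2 : ℕ) : ℝ) ≤
      (((n - 1) / 2 : ℕ) : ℝ) / 2 * Real.log n := mul_le_mul_of_nonneg_left h4 (by linarith)
  have h7 : ∑ m ∈ P, (2 * Real.log m - (1 + 3 * η) * Real.log n) * (((n - 1) / 2 : ℕ) : ℝ) =
      (2 * ∑ m ∈ P, Real.log m - P.card * ((1 + 3 * η) * Real.log n)) * (((n - 1) / 2 : ℕ) : ℝ) := by
    rw [← Finset.sum_mul, Finset.sum_sub_distrib, ← Finset.mul_sum, Finset.sum_const, nsmul_eq_mul]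
  rw [h7] at hsum
  have h8 : (2 * ∑ m ∈ P, Real.log m - P.card * ((1 + 3 * η) * Real.log n)) * (((n - 1) / 2 : ℕ) : ℝ) <
      (1 / 2 * Real.log n) * (((n - 1) / 2 : ℕ) : ℝ) := by
    refine hsum.trans_le (hs.trans (h6.trans (le_of_eq ?_)))
    ring
  have h9 := lt_of_mul_lt_mul_right h8 (by linarith)
  have hlogP : Real.log (∏ m ∈ P, (m : ℝ)) = ∑ m ∈ P, Real.log m := by
    refine Real.log_prod fun m hm => ?_
    have := (hP m hm).1
    exact_mod_cast (by omega : m ≠ 0)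
  have hprod0 : 0 < ∏ m ∈ P, (m : ℝ) := by
    refine Finset.prod_pos fun m hm => ?_
    have := (hP m hm).1
    exact_mod_cast (by omega : 0 < m)
  rw [← Real.log_lt_log_iff hprod0 (Real.rpow_pos_of_pos hn0 _), hlogP, Real.log_rpow hn0]
  have hcard : (0 : ℝ) ≤ P.card := Nat.cast_nonneg _
  have h10 : (P.card : ℝ) * ((1 + 3 * η) * Real.log n) ≤ P.card * ((1 + 2 * ε) * Real.log n) := by
    refine mul_le_mul_of_nonneg_left (mul_le_mul_of_nonneg_right ?_ hlog.le) hcard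
    linarith
  have h11 : (1 / 4 + (P.card : ℝ) * (1 / 2 + ε)) * Real.log n =
      1 / 4 * Real.log n + 1 / 2 * (P.card * ((1 + 2 * ε) * Real.log n)) := by ring
  rw [h11]
  linarith

end Pool.Agent.NLS
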