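import Pool.Agent.NLS.DpOne
import Pool.Agent.NLS.DcIdxM
import Pool.Agent.NLS.DcDiv
import Pool.Agent.NLS.VAll
import Pool.Agent.NLS.AllN
import Pool.Agent.NLE.SqAll

/-!
# NLS-DpGeo: the product of pairwise coprime exponents

`big_index`: an exponent `m ≥ n ^ ((1 + ι) / 2 + ε)` has a divisor `M` whose relation lattice has an index larger than `n ^ (ι (n - 1) / 2)`.
For pairwise coprime exponents the logarithms of the indices have sum at most `(n - 1) / 4 log n`; with `ι` in the grid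
`k / (2 K)`, `k ≤ K`, this gives `∏ m < n ^ ((1 / 2 + ε) |P| + 1 / 4)`.
-/

open NumberField Finset
open Pool.Agent.AAP Pool.Agent.Helper7.HU

namespace Pool.Agent.NLS

private theorem dpgeo_rep {x y m n : ℕ} (hx : 2 ≤ x) (h : y ^ m * (x - 1) = x ^ n - 1) : y ^ m = NL.rep x n := by
  have h1 := NL.rep_mul (by omega : 1 ≤ x) n
  have h2 : y ^ m * (x - 1) = NL.rep x n * (x - 1) := by omega
  exact Nat.eq_of_mul_eq_mul_right (by omega) h2

/-- exponents of solutions of length `n > 5` are odd -/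
private theorem dpgeo_odd {x y m n : ℕ} (hn : 5 < n) (hx : 1 < x) (h : y ^ m * (x - 1) = x ^ n - 1) : Odd m := by
  rw [← Nat.not_even_iff_odd]
  rintro ⟨t, ht⟩
  have h1 := dpgeo_rep (by omega) h
  rw [ht, ← two_mul, mul_comm, pow_mul] at h1
  rcases NLE.sq_all hx (by omega) h1 with h2 | h2 <;> omega

/-- for large primes `n` the prime factors of the exponents are smaller than `n` -/
private theorem dpgeo_small : ∃ n0 : ℕ, ∀ n m x y p : ℕ, n0 ≤ n → n.Prime → 1 < x → 1 < y → y ^ m * (x - 1) = x ^ n - 1 →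
    p.Prime → p ∣ m → p < n := by
  obtain ⟨n1, h1⟩ := few_primes (1 / 4) (by norm_num)
  refine ⟨n1, fun n m x y p hn hnp hx hy heq hp hpm => ?_⟩
  obtain ⟨q, hq, hqn⟩ := h1 n hn hnp {p} (Finset.singleton_nonempty p) fun q hq => by
    rw [Finset.mem_singleton] at hq
    rw [hq]
    exact ⟨hp, m, x, y, hpm, hx, hy, heq⟩
  rw [Finset.mem_singleton] at hq
  rw [hq, Finset.card_singleton] at hqn
  norm_num at hqn
  exact hqn

/-- an exponent `m ≥ n ^ ((1 + ι) / 2 + ε)` has a divisor with a large index -/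
theorem big_index (ι ε : ℝ) (hι0 : 0 < ι) (hι1 : ι ≤ 1 / 2) (hε : 0 < ε) (hε1 : ε ≤ 1 / 4) :
    ∃ n0 : ℕ, ∀ (n : ℕ) [Fact n.Prime] (m x y : ℕ), n0 ≤ n → (n : ℝ) ^ ((1 + ι) / 2 + ε) ≤ m → 1 < x → 1 < y →
    y ^ m * (x - 1) = x ^ n - 1 →
    ∃ M : ℕ, M ∣ m ∧ ι * ((n - 1) / 2 : ℕ) * Real.log n < Real.log ((Lq n M).index : ℝ) := by
  obtain ⟨n1, hn1⟩ := dpgeo_small
  obtain ⟨n2, hn2⟩ := none_M ι ε hι0 hι1 hε
  refine ⟨max (max n1 n2) 6, fun n _ m x y hn hm1 hx hy heq => ?_⟩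
  have hnp : n.Prime := Fact.out
  have hn6 : 6 ≤ n := (le_max_right _ _).trans hn
  have hnn1 : n1 ≤ n := ((le_max_left _ _).trans (le_max_left _ _)).trans hn
  have hnn2 : n2 ≤ n := ((le_max_right _ _).trans (le_max_left _ _)).trans hn
  have hn0 : (0 : ℝ) < n := by
    have : 0 < n := by omega
    exact_mod_cast this
  have hn1R : (1 : ℝ) ≤ n := by
    have : 1 ≤ n := by omega
    exact_mod_cast this
  have hX1 : (1 : ℝ) ≤ (n : ℝ) ^ ((1 + ι) / 2 + ε) := Real.one_le_rpow hn1R (by linarith)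
  have hm0 : m ≠ 0 := by
    rintro rfl
    rw [Nat.cast_zero] at hm1
    linarith
  obtain ⟨M, hf1, hf2, hf3⟩ := DC.exists_smooth_dvd hX1 hn1R hm0 (fun p hp hpm =>
    (by exact_mod_cast (hn1 n m x y p hnn1 hnp hx hy heq hp hpm).le : (p : ℝ) ≤ n)) hm1
  refine ⟨M, hf1, ?_⟩
  by_contra hcon
  push Not at hcon
  have hodd : Odd m := dpgeo_odd (by omega) hx heq
  have hfo : Odd M := hodd.of_dvd_nat hf1
  have hsm : ∀ p : ℕ, p.Prime → p ∣ M → p < n := fun p hp hpf =>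
    hn1 n m x y p hnn1 hnp hx hy heq hp (hpf.trans hf1)
  have hcop : M.Coprime (2 * n) := by
    refine Nat.Coprime.mul_right (Nat.coprime_two_right.2 hfo) ?_
    rw [Nat.coprime_comm, hnp.coprime_iff_not_dvd]
    intro hd
    exact lt_irrefl n (hsm n hnp hd)
  obtain ⟨t, ht⟩ := hf1
  have ht0 : t ≠ 0 := by
    rintro rfl
    exact hm0 (by rw [ht, mul_zero])
  have hM2 : (M : ℝ) ≤ (n : ℝ) ^ 2 := by
    refine hf3.trans ?_
    have h1 : (n : ℝ) ^ ((1 + ι) / 2 + ε) ≤ (n : ℝ) ^ (1 : ℝ) :=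
      Real.rpow_le_rpow_of_exponent_le hn1R (by linarith)
    rw [Real.rpow_one] at h1
    rw [pow_two]
    exact mul_le_mul_of_nonneg_right h1 hn0.le
  have hnn : n ≤ n ^ 2 := Nat.le_self_pow (by norm_num) n
  refine hn2 n M x (y ^ t) hnn2 hcop (fun p hp hpf => (hsm p hp hpf).le.trans hnn) hf2 hM2 hcon hx
    (Nat.one_lt_pow ht0 hy) ?_
  rw [← pow_mul, mul_comm t, ← ht]
  exact heq

/-- for all large primes `n`: the product of pairwise coprime exponents -/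
theorem geo_prime (ε : ℝ) (hε : 0 < ε) (hε1 : ε ≤ 1 / 4) : ∃ n0 : ℕ, ∀ n : ℕ, n0 ≤ n → n.Prime →
    ∀ P : Finset ℕ, P.Nonempty → (∀ m ∈ P, ∀ m' ∈ P, m ≠ m' → m.Coprime m') →
    (∀ m ∈ P, ∃ x y : ℕ, 1 < x ∧ 1 < y ∧ y ^ m * (x - 1) = x ^ n - 1) →
    ∏ m ∈ P, (m : ℝ) < (n : ℝ) ^ ((1 / 2 + ε) * (P.card : ℝ) + 1 / 4) := by
  classical
  -- the grid
  obtain ⟨K, hK⟩ := exists_nat_gt (1 / ε)
  have hK1 : 1 ≤ K := by
    rcases Nat.eq_zero_or_pos K with h | h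
    · rw [h, Nat.cast_zero] at hK
      have : 0 < 1 / ε := by positivity
      linarith
    · exact h
  have hK0 : (0 : ℝ) < K := by exact_mod_cast hK1
  have hKε : 1 / (4 * (K : ℝ)) + ε / 2 ≤ ε := by
    have h1 : 1 / (4 * (K : ℝ)) ≤ ε / 2 := by
      rw [div_lt_iff₀ hε] at hK
      rw [div_le_iff₀ (by positivity)]
      nlinarith
    linarith
  have hex : ∀ k : ℕ, ∃ n0 : ℕ, 1 ≤ k → k ≤ K → ∀ (n : ℕ) [Fact n.Prime] (m x y : ℕ), n0 ≤ n →
      (n : ℝ) ^ ((1 + (k : ℝ) / (2 * K)) / 2 + ε / 2) ≤ m → 1 < x → 1 < y → y ^ m * (x - 1) = x ^ n - 1 →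
      ∃ M : ℕ, M ∣ m ∧ (k : ℝ) / (2 * K) * ((n - 1) / 2 : ℕ) * Real.log n < Real.log ((Lq n M).index : ℝ) := by
    intro k
    by_cases hk : 1 ≤ k ∧ k ≤ K
    · have hk0 : (0 : ℝ) < k := by exact_mod_cast hk.1
      have hkK : (k : ℝ) ≤ K := by exact_mod_cast hk.2
      obtain ⟨n0, h⟩ := big_index ((k : ℝ) / (2 * K)) (ε / 2) (by positivity) (by
        rw [div_le_iff₀ (by positivity)]
        linarith) (by positivity) (by linarith)
      exact ⟨n0, fun _ _ => h⟩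
    · exact ⟨0, fun h1 h2 => absurd ⟨h1, h2⟩ hk⟩
  choose f hf using hex
  refine ⟨max 7 ((range (K + 1)).sup f), fun n hn hnp P hP0 hPc hP => ?_⟩
  have : Fact n.Prime := ⟨hnp⟩
  have hn7 : 7 ≤ n := (le_max_left _ _).trans hn
  have hfn : ∀ k, k ≤ K → f k ≤ n := fun k hk =>
    (Finset.le_sup (mem_range.2 (Nat.lt_succ_of_le hk))).trans ((le_max_right _ _).trans hn)
  have hn1R : (1 : ℝ) < n := by exact_mod_cast hnp.one_lt
  have hn0R : (0 : ℝ) < n := by linarith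
  have hlog : 0 < Real.log n := Real.log_pos hn1R
  have hm2 : 2 ≤ (n - 1) / 2 := by omega
  have hmR : (2 : ℝ) ≤ (((n - 1) / 2 : ℕ) : ℝ) := by exact_mod_cast hm2
  -- the bound for the sum of the indices
  have hsumle : ∀ (g : ℕ → ℕ) (Q : Finset ℕ), (∀ i ∈ Q, ∀ j ∈ Q, i ≠ j → (g i).Coprime (g j)) →
      ∑ i ∈ Q, Real.log ((Lq n (g i)).index : ℝ) ≤ 1 / 2 * ((n - 1) / 2 : ℕ) * Real.log n := by
    intro g Q hQ
    have hs := DC.sum_log_index (n := n) (by omega) g Q hQ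
    rw [card_H n (by omega)] at hs
    have h4 : Real.log (((n - 1) / 2 : ℕ) : ℝ) ≤ Real.log n := by
      refine Real.log_le_log (by linarith) ?_
      exact_mod_cast (by omega : (n - 1) / 2 ≤ n)
    have h6 : (((n - 1) / 2 : ℕ) : ℝ) / 2 * Real.log (((n - 1) / 2 : ℕ) : ℝ) ≤
        (((n - 1) / 2 : ℕ) : ℝ) / 2 * Real.log n := mul_le_mul_of_nonneg_left h4 (by linarith)
    refine hs.trans (h6.trans (le_of_eq ?_))
    ring
  -- the level of an exponent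
  obtain ⟨lev, hlev⟩ : ∃ lev : ℕ → ℕ, lev = fun m : ℕ => Nat.findGreatest (fun k : ℕ =>
    (n : ℝ) ^ ((1 + (k : ℝ) / (2 * K)) / 2 + ε / 2) ≤ (m : ℝ)) K := ⟨_, rfl⟩
  have hlev1 : ∀ m : ℕ, lev m ≤ K := by
    intro m
    rw [hlev]
    exact Nat.findGreatest_le K
  have hlev2 : ∀ m : ℕ, lev m ≠ 0 → (n : ℝ) ^ ((1 + (lev m : ℝ) / (2 * K)) / 2 + ε / 2) ≤ m := by
    intro m hm
    have h1 := Nat.findGreatest_of_ne_zero (P := fun k : ℕ =>
      (n : ℝ) ^ ((1 + (k : ℝ) / (2 * K)) / 2 + ε / 2) ≤ m) (n := K) (m := lev m) (by rw [hlev]) hm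
    exact h1
  have hlev3 : ∀ m : ℕ, lev m < K → (m : ℝ) < (n : ℝ) ^ ((1 + ((lev m : ℝ) + 1) / (2 * K)) / 2 + ε / 2) := by
    intro m hm
    have h1 := Nat.findGreatest_is_greatest (P := fun k : ℕ =>
      (n : ℝ) ^ ((1 + (k : ℝ) / (2 * K)) / 2 + ε / 2) ≤ m) (n := K) (k := lev m + 1) (by
        rw [hlev]
        exact Nat.lt_succ_self _) (by omega)
    rw [not_le] at h1
    push_cast at h1
    exact h1
  have hdiv : ∀ m, ∃ M : ℕ, m ∈ P → M ∣ m ∧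
      (lev m : ℝ) / (2 * K) * ((n - 1) / 2 : ℕ) * Real.log n ≤ Real.log ((Lq n M).index : ℝ) ∧
      (lev m ≠ 0 → (lev m : ℝ) / (2 * K) * ((n - 1) / 2 : ℕ) * Real.log n < Real.log ((Lq n M).index : ℝ)) := by
    intro m
    by_cases hm : m ∈ P
    · rcases Nat.eq_zero_or_pos (lev m) with h0 | h0
      · refine ⟨1, fun _ => ⟨one_dvd _, ?_, fun h => absurd h0 h⟩⟩
        rw [h0, Nat.cast_zero, zero_div, zero_mul, zero_mul]
        exact Real.log_natCast_nonneg _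
      · obtain ⟨x, y, hx, hy, heq⟩ := hP m hm
        obtain ⟨M, hM1, hM2⟩ := hf (lev m) h0 (hlev1 m) n m x y (hfn _ (hlev1 m)) (hlev2 m (by omega)) hx hy heq
        exact ⟨M, fun _ => ⟨hM1, hM2.le, fun _ => hM2⟩⟩
    · exact ⟨0, fun h => absurd h hm⟩
  choose g hg using hdiv
  have hgc : ∀ i ∈ P, ∀ j ∈ P, i ≠ j → (g i).Coprime (g j) := fun i hi j hj hij =>
    Nat.Coprime.coprime_dvd_left (hg i hi).1 (Nat.Coprime.coprime_dvd_right (hg j hj).1 (hPc i hi j hj hij))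
  have hmpos : (0 : ℝ) < ((n - 1) / 2 : ℕ) * Real.log n := mul_pos (by linarith) hlog
  -- the level `K` is impossible
  have hltK : ∀ m ∈ P, lev m < K := by
    intro m hm
    refine lt_of_le_of_ne (hlev1 m) fun hK' => ?_
    have h1 := hsumle g {m} (fun i hi j hj hij => by
      rw [Finset.mem_singleton] at hi hj
      exact absurd (hi.trans hj.symm) hij)
    rw [Finset.sum_singleton] at h1
    have h2 := (hg m hm).2.2 (by omega)
    rw [hK'] at h2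
    have h3 : (K : ℝ) / (2 * K) = 1 / 2 := by
      field_simp
    rw [h3] at h2
    linarith
  -- the sum of the levels
  have hsumlev : ∑ m ∈ P, (lev m : ℝ) / (2 * K) ≤ 1 / 2 := by
    have h1 : ∑ m ∈ P, (lev m : ℝ) / (2 * K) * ((n - 1) / 2 : ℕ) * Real.log n ≤
        1 / 2 * ((n - 1) / 2 : ℕ) * Real.log n :=
      (Finset.sum_le_sum fun m hm => (hg m hm).2.1).trans (hsumle g P hgc)
    have h2 : ∑ m ∈ P, (lev m : ℝ) / (2 * K) * ((n - 1) / 2 : ℕ) * Real.log n =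
        (∑ m ∈ P, (lev m : ℝ) / (2 * K)) * (((n - 1) / 2 : ℕ) * Real.log n) := by
      rw [Finset.sum_mul]
      refine Finset.sum_congr rfl fun m _ => ?_
      ring
    rw [h2] at h1
    have h3 : 1 / 2 * (((n - 1) / 2 : ℕ) : ℝ) * Real.log n = 1 / 2 * (((n - 1) / 2 : ℕ) * Real.log n) := by ring
    rw [h3] at h1
    exact le_of_mul_le_mul_right h1 hmpos
  -- the product
  have hprod : ∏ m ∈ P, (m : ℝ) < ∏ m ∈ P, (n : ℝ) ^ ((1 + ((lev m : ℝ) + 1) / (2 * K)) / 2 + ε / 2) := by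
    refine Finset.prod_lt_prod_of_nonempty (fun m hm => ?_) (fun m hm => hlev3 m (hltK m hm)) hP0
    obtain ⟨x, y, hx, hy, heq⟩ := hP m hm
    have hm0 : m ≠ 0 := by
      rintro rfl
      rw [pow_zero, one_mul] at heq
      have h3 : x ^ 1 < x ^ n := Nat.pow_lt_pow_right hx (by omega)
      rw [pow_one] at h3
      omega
    exact_mod_cast Nat.pos_of_ne_zero hm0
  rw [← Real.rpow_sum_of_pos hn0R] at hprod
  refine hprod.trans_le (Real.rpow_le_rpow_of_exponent_le hn1R.le ?_)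
  have h1 : ∑ m ∈ P, ((1 + ((lev m : ℝ) + 1) / (2 * K)) / 2 + ε / 2) =
      (P.card : ℝ) * (1 / 2 + (1 / (4 * K) + ε / 2)) + 1 / 2 * ∑ m ∈ P, (lev m : ℝ) / (2 * K) := by
    rw [Finset.mul_sum, ← nsmul_eq_mul, ← Finset.sum_const, ← Finset.sum_add_distrib]
    refine Finset.sum_congr rfl fun m _ => ?_
    field_simp
    ring
  rw [h1]
  have hc : (0 : ℝ) ≤ P.card := Nat.cast_nonneg _
  nlinarith

/-- for all large `n`: the product of pairwise coprime exponents `m > 1` is smaller than `n ^ ((1/2 + ε) |P| + 1/4)` -/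
theorem geo_exponents (ε : ℝ) (hε : 0 < ε) : ∃ n0 : ℕ, ∀ n : ℕ, n0 ≤ n → ∀ P : Finset ℕ, P.Nonempty →
    (∀ m ∈ P, ∀ m' ∈ P, m ≠ m' → m.Coprime m') →
    (∀ m ∈ P, 1 < m ∧ ∃ x y : ℕ, 1 < x ∧ 1 < y ∧ y ^ m * (x - 1) = x ^ n - 1) →
    ∏ m ∈ P, (m : ℝ) < (n : ℝ) ^ ((1 / 2 + ε) * (P.card : ℝ) + 1 / 4) := by
  obtain ⟨n1, h1⟩ := geo_prime (min ε (1 / 4)) (lt_min hε (by norm_num)) (min_le_right _ _)
  obtain ⟨n2, h2⟩ := prime_length
  refine ⟨max (max n1 n2) 2, fun n hn P hP0 hPc hP => ?_⟩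
  have hnn1 : n1 ≤ n := ((le_max_left _ _).trans (le_max_left _ _)).trans hn
  have hnn2 : n2 ≤ n := ((le_max_right _ _).trans (le_max_left _ _)).trans hn
  have hn2 : 2 ≤ n := (le_max_right _ _).trans hn
  have hn1R : (1 : ℝ) ≤ n := by
    have : 1 ≤ n := by omega
    exact_mod_cast this
  have hp : n.Prime := by
    obtain ⟨m, hm⟩ := hP0
    obtain ⟨hm1, x, y, hx, hy, heq⟩ := hP m hm
    exact h2 x y m n hnn2 hx hy hm1 heq
  refine (h1 n hnn1 hp P hP0 hPc fun m hm => (hP m hm).2).trans_le ?_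
  refine Real.rpow_le_rpow_of_exponent_le hn1R ?_
  have h3 := min_le_left ε (1 / 4)
  have hc : (0 : ℝ) ≤ P.card := Nat.cast_nonneg _
  nlinarith

end Pool.Agent.NLS
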