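import Pool.Agent.NLS.DpBoxP
import Pool.Agent.NLS.DpGeo

/-!
# NLS-DpBox: the exponents and the sizes of all solutions of a large length, in terms of the index

`dp_io n m = log (index of Lq n m) / (h log n)`, `h = (n - 1) / 2`. `dp_box`: for all solutions of length `n ≥ n0(ε)`:
`m < n ^ ((1 + ι) / 2 + ε)`, `m ≤ n ^ ε log x`, and `m log x ≤ n ^ (1 + ι + ε)` if `m ≥ n ^ (ι + ε)`, `ι = dp_io n m`. The sum of
`dp_io n m` over pairwise coprime `m` is at most `1 / 2`.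
-/

open NumberField Finset
open Pool.Agent.AAP Pool.Agent.Helper7.HU

namespace Pool.Agent.NLS

/-- the bound for `x` if the index is at most `n ^ (ι (n - 1) / 2)` -/
theorem up_M (ι ε : ℝ) (hι : 0 < ι) (hι' : ι ≤ 1 / 2) (hε : 0 < ε) : ∃ n0 : ℕ,
    ∀ (n : ℕ) [Fact n.Prime] (M x y : ℕ), n0 ≤ n → M.Coprime (2 * n) → 3 ≤ M → M ≤ n →
    (n : ℝ) ^ (ι + ε) ≤ M →
    Real.log ((Lq n M).index : ℝ) ≤ ι * ((n - 1) / 2 : ℕ) * Real.log n → 1 < x → 1 < y →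
      y ^ M * (x - 1) = x ^ n - 1 → (M : ℝ) * Real.log x ≤ (n : ℝ) ^ (1 + ι + ε) := by
  obtain ⟨L, n2, hL2, hpar⟩ := exists_parBox ι ε hι hι' hε
  refine ⟨max n2 5, fun n _ M x y hn hcop hM3 hMn hreg hidx hx hy heq => ?_⟩
  have hnp : n.Prime := Fact.out
  have hnn2 : n2 ≤ n := (le_max_left _ _).trans hn
  have hn5 : 5 ≤ n := (le_max_right _ _).trans hn
  have hodd : Odd n := hnp.odd_of_ne_two (by omega)
  have hMcn : M.Coprime n := Nat.Coprime.coprime_mul_left_right hcop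
  have hnM : ¬ n ∣ M := by
    rw [← hnp.coprime_iff_not_dvd]
    exact hMcn.symm
  have S : DC.Sol n M x y := ⟨hnp, hcop, hn5, hM3, hx, hy, heq⟩
  have hcard : (H n).card = (n - 1) / 2 := card_H n (by omega)
  have hI0 : (0 : ℝ) < ((Lq n M).index : ℝ) := by
    have := lq_index_ne (n := n) (by omega) M
    positivity
  have hI1 : ((Lq n M).index : ℝ) ≤ Real.exp (ι * ((n - 1) / 2 : ℕ) * Real.log n) := by
    rw [← Real.log_le_iff_le_exp hI0]
    exact hidx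
  have hsm : ∀ p : ℕ, p.Prime → p ∣ M → p ≤ n ^ 2 := fun p hp hpM =>
    ((Nat.le_of_dvd (by omega) hpM).trans hMn).trans (Nat.le_self_pow (by norm_num) n)
  obtain ⟨k, r, D, hk, hkm, hr, hrM, hrn, hD, hH2, hH3, hH4⟩ := hpar n M ((Lq n M).index : ℝ) hnn2 hodd hreg hMn hI0 hI1
  have hMP : MinorP n M r (L * D) D (L ^ (16 * ((n - 1) / 2))) := by
    intro K _ _ _ X hX hc
    obtain ⟨v, hv, hdet⟩ := dp_zer16 (K := K) (by omega : n ≠ 2) hr hrM hrn hnM (by omega) hsm X hX hc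
    exact ⟨fun i => (v i.divNat, (i.modNat : ℕ)), fun i => ⟨hv _, i.modNat.2⟩, hdet D⟩
  have hN1 : 1 ≤ L * D := Nat.mul_pos (by omega) (by omega)
  have hub := DC.upperP S hk (by rw [hcard]; exact hkm) hN1 hD hMP
    (by rw [hcard]; exact_mod_cast hH2) (by rw [hcard]; exact hH3)
  rw [hcard] at hub
  have hkR : (0 : ℝ) < k := by exact_mod_cast hk
  have h1 : (k : ℝ) * ((M : ℝ) * Real.log x) ≤ k * (n : ℝ) ^ (1 + ι + ε) := by
    calc (k : ℝ) * ((M : ℝ) * Real.log x) = k * Real.log x * M := by ring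
      _ ≤ 20 * (((n - 1) / 2 : ℕ) : ℝ) * ((L * D : ℕ) : ℝ) * Real.log (4 * M * (((L * D : ℕ) : ℝ) + 1)) * M :=
          mul_le_mul_of_nonneg_right hub (Nat.cast_nonneg _)
      _ ≤ _ := hH4
  exact le_of_mul_le_mul_left h1 hkR

open Classical in
/-- `log (index of Lq n m) / (h log n)`, `h = (n - 1) / 2`, if `n` is an odd prime -/
noncomputable def dp_io (n m : ℕ) : ℝ :=
  if h : n.Prime ∧ n ≠ 2 then
    haveI : Fact n.Prime := ⟨h.1⟩
    Real.log ((Lq n m).index : ℝ) / (((n - 1) / 2 : ℕ) * Real.log n)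
  else 0

private theorem dpbox_io {n : ℕ} [Fact n.Prime] (hn2 : n ≠ 2) (m : ℕ) :
    dp_io n m = Real.log ((Lq n m).index : ℝ) / (((n - 1) / 2 : ℕ) * Real.log n) := by
  unfold dp_io
  rw [dif_pos ⟨Fact.out, hn2⟩]

theorem dp_io_nonneg (n m : ℕ) : 0 ≤ dp_io n m := by
  unfold dp_io
  split_ifs with h
  · exact div_nonneg (Real.log_natCast_nonneg _) (mul_nonneg (Nat.cast_nonneg _) (Real.log_natCast_nonneg _))
  · exact le_rfl

private theorem dpbox_pos {n : ℕ} [Fact n.Prime] (hn2 : n ≠ 2) : (0 : ℝ) < (((n - 1) / 2 : ℕ) : ℝ) * Real.log n := by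
  have hnp : n.Prime := Fact.out
  have h2 : 2 < n := lt_of_le_of_ne hnp.two_le (Ne.symm hn2)
  have h3 : 0 < (n - 1) / 2 := by omega
  have h4 : (0 : ℝ) < (((n - 1) / 2 : ℕ) : ℝ) := by exact_mod_cast h3
  have h5 : 0 < Real.log n := Real.log_pos (by exact_mod_cast hnp.one_lt)
  exact mul_pos h4 h5

private theorem dpbox_log {n : ℕ} [Fact n.Prime] (hn2 : n ≠ 2) (m : ℕ) :
    Real.log ((Lq n m).index : ℝ) = dp_io n m * (((n - 1) / 2 : ℕ) * Real.log n) := by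
  rw [dpbox_io hn2, div_mul_cancel₀ _ (dpbox_pos hn2).ne']

theorem sum_dp_io (n : ℕ) (P : Finset ℕ) (hP : ∀ a ∈ P, ∀ b ∈ P, a ≠ b → a.Coprime b) : ∑ m ∈ P, dp_io n m ≤ 1 / 2 := by
  by_cases h : n.Prime ∧ n ≠ 2
  · have : Fact n.Prime := ⟨h.1⟩
    have hs := DC.sum_log_index (n := n) h.2 (fun m : ℕ => m) P hP
    have h2 : 2 < n := lt_of_le_of_ne h.1.two_le (Ne.symm h.2)
    rw [card_H n (by omega)] at hs
    have hpos := dpbox_pos (n := n) h.2
    have h3 : 1 ≤ (n - 1) / 2 := by omega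
    have h3R : (1 : ℝ) ≤ (((n - 1) / 2 : ℕ) : ℝ) := by exact_mod_cast h3
    have h4 : Real.log (((n - 1) / 2 : ℕ) : ℝ) ≤ Real.log n := by
      refine Real.log_le_log (by linarith) ?_
      exact_mod_cast (by omega : (n - 1) / 2 ≤ n)
    have h5 : ∑ m ∈ P, dp_io n m = (∑ m ∈ P, Real.log ((Lq n m).index : ℝ)) / (((n - 1) / 2 : ℕ) * Real.log n) := by
      rw [Finset.sum_div]
      exact Finset.sum_congr rfl fun m _ => dpbox_io h.2 m
    rw [h5, div_le_iff₀ hpos]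
    refine hs.trans ?_
    calc (((n - 1) / 2 : ℕ) : ℝ) / 2 * Real.log (((n - 1) / 2 : ℕ) : ℝ)
        ≤ (((n - 1) / 2 : ℕ) : ℝ) / 2 * Real.log n := mul_le_mul_of_nonneg_left h4 (by linarith)
      _ = _ := by ring
  · have h5 : ∀ m ∈ P, dp_io n m = 0 := fun m _ => by
      unfold dp_io
      rw [dif_neg h]
    rw [Finset.sum_eq_zero h5]
    norm_num

theorem dp_io_le (n m : ℕ) : dp_io n m ≤ 1 / 2 := by
  have h := sum_dp_io n {m} (by
    intro a ha b hb hab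
    rw [Finset.mem_singleton] at ha hb
    exact absurd (ha.trans hb.symm) hab)
  rwa [Finset.sum_singleton] at h

private theorem dpbox_mono {n : ℕ} [Fact n.Prime] (hn2 : n ≠ 2) {M m : ℕ} (h : M ∣ m) :
    (Lq n M).index ≤ (Lq n m).index := by
  haveI : (Lq n m).FiniteIndex := ⟨lq_index_ne hn2 m⟩
  haveI : (Lq n M).FiniteIndex := ⟨lq_index_ne hn2 M⟩
  refine Nat.le_of_dvd (Nat.pos_of_ne_zero (lq_index_ne hn2 m)) (AddSubgroup.index_dvd_of_le ?_)
  unfold Lq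
  refine sup_le_sup le_rfl ?_
  rintro _ ⟨v, rfl⟩
  obtain ⟨c, rfl⟩ := h
  refine ⟨c • v, ?_⟩
  change M • (c • v) = (M * c) • v
  rw [smul_smul]

/-- a grid for the exponents `ι ∈ [0, 1 / 2]` -/
private theorem dpbox_grid (K : ℕ) (hK : 1 ≤ K) {ι : ℝ} (h0 : 0 ≤ ι) (h1 : ι ≤ 1 / 2) :
    ∃ j ∈ Finset.Icc 1 K, ι ≤ (j : ℝ) / (2 * K) ∧ (j : ℝ) / (2 * K) ≤ ι + 1 / (2 * K) := by
  have hK0 : (0 : ℝ) < 2 * K := by
    have : (1 : ℝ) ≤ K := by exact_mod_cast hK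
    linarith
  rcases eq_or_lt_of_le h0 with h | h
  · refine ⟨1, Finset.mem_Icc.2 ⟨le_rfl, hK⟩, ?_, ?_⟩
    · rw [← h]
      positivity
    · rw [← h]
      simp
  · refine ⟨⌈ι * (2 * K)⌉₊, Finset.mem_Icc.2 ⟨Nat.ceil_pos.2 (mul_pos h hK0), ?_⟩, ?_, ?_⟩
    · refine Nat.ceil_le.2 ?_
      calc ι * (2 * (K : ℝ)) ≤ 1 / 2 * (2 * K) := mul_le_mul_of_nonneg_right h1 hK0.le
        _ = K := by ring
    · rw [le_div_iff₀ hK0]
      exact Nat.le_ceil _
    · rw [div_le_iff₀ hK0, add_mul, one_div, inv_mul_cancel₀ hK0.ne']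
      exact (Nat.ceil_lt_add_one (mul_pos h hK0).le).le

private theorem dpbox_rep {x y m n : ℕ} (hx : 2 ≤ x) (h : y ^ m * (x - 1) = x ^ n - 1) : y ^ m = NL.rep x n := by
  have h1 := NL.rep_mul (by omega : 1 ≤ x) n
  have h2 : y ^ m * (x - 1) = NL.rep x n * (x - 1) := by omega
  exact Nat.eq_of_mul_eq_mul_right (by omega) h2

/-- exponents of solutions of length `n > 5` are odd -/
private theorem dpbox_odd {x y m n : ℕ} (hn : 5 < n) (hx : 1 < x) (h : y ^ m * (x - 1) = x ^ n - 1) : Odd m := by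
  rw [← Nat.not_even_iff_odd]
  rintro ⟨t, ht⟩
  have h1 := dpbox_rep (by omega) h
  rw [ht, ← two_mul, mul_comm, pow_mul] at h1
  rcases NLE.sq_all hx (by omega) h1 with h2 | h2 <;> omega

/-- for large primes `n` the prime factors of the exponents are smaller than `n` -/
private theorem dpbox_small : ∃ n0 : ℕ, ∀ n m x y p : ℕ, n0 ≤ n → n.Prime → 1 < x → 1 < y → y ^ m * (x - 1) = x ^ n - 1 →
    p.Prime → p ∣ m → p < n := by
  obtain ⟨n1, h1⟩ := few_primes (1 / 4) (by norm_num)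
  refine ⟨n1, fun n m x y p hn hnp hx hy heq hp hpm => ?_⟩
  obtain ⟨q, hq, hqn⟩ := h1 n hn hnp {p} (Finset.singleton_nonempty p) fun q hq => by
    rw [Finset.mem_singleton] at hq
    rw [hq]
    exact ⟨hp, m, x, y, hpm, hx, hy, heq⟩
  rw [Finset.mem_singleton] at hq
  rw [hq, Finset.card_singleton] at hqn
  norm_num at hqn
  exact hqn

private theorem dp_box_prime (ε : ℝ) (hε : 0 < ε) (hε8 : ε ≤ 1 / 8) : ∃ n0 : ℕ, ∀ n m x y : ℕ, n0 ≤ n → n.Prime → 1 < m →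
    1 < x → 1 < y → y ^ m * (x - 1) = x ^ n - 1 →
    (m : ℝ) < (n : ℝ) ^ ((1 + dp_io n m) / 2 + ε) ∧ (m : ℝ) ≤ (n : ℝ) ^ ε * Real.log x ∧
    ((n : ℝ) ^ (dp_io n m + ε) ≤ m → (m : ℝ) * Real.log x ≤ (n : ℝ) ^ (1 + dp_io n m + ε)) := by
  classical
  -- the grid
  obtain ⟨K, hK⟩ := exists_nat_gt (1 / ε)
  have hK1 : 1 ≤ K := by
    rcases Nat.eq_zero_or_pos K with h | h
    · rw [h, Nat.cast_zero] at hK
      have : 0 < 1 / ε := by positivity
      linarith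
    · exact h
  have hK0 : (0 : ℝ) < K := by exact_mod_cast hK1
  have hKε : 1 / (2 * (K : ℝ)) ≤ ε / 2 := by
    rw [div_lt_iff₀ hε] at hK
    rw [div_le_iff₀ (by positivity)]
    nlinarith
  have hgr : ∀ j ∈ Finset.Icc 1 K, 0 < (j : ℝ) / (2 * K) ∧ (j : ℝ) / (2 * K) ≤ 1 / 2 := by
    intro j hj
    rw [Finset.mem_Icc] at hj
    have hj0 : (0 : ℝ) < j := by exact_mod_cast hj.1
    have hjK : (j : ℝ) ≤ K := by exact_mod_cast hj.2
    refine ⟨by positivity, ?_⟩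
    rw [div_le_iff₀ (by positivity)]
    linarith
  have hex : ∀ j : ℕ, ∃ n0 : ℕ, j ∈ Finset.Icc 1 K → ∀ (n : ℕ) [Fact n.Prime] (m x y : ℕ), n0 ≤ n →
      (n : ℝ) ^ ((1 + (j : ℝ) / (2 * K)) / 2 + ε / 2) ≤ m → 1 < x → 1 < y → y ^ m * (x - 1) = x ^ n - 1 →
      ∃ M : ℕ, M ∣ m ∧ (j : ℝ) / (2 * K) * ((n - 1) / 2 : ℕ) * Real.log n < Real.log ((Lq n M).index : ℝ) := by
    intro j
    by_cases hj : j ∈ Finset.Icc 1 K
    · obtain ⟨n0, h⟩ := big_index ((j : ℝ) / (2 * K)) (ε / 2) (hgr j hj).1 (hgr j hj).2 (by positivity) (by linarith)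
      exact ⟨n0, fun _ => h⟩
    · exact ⟨0, fun h => absurd h hj⟩
  choose f hf using hex
  have hex' : ∀ j : ℕ, ∃ n0 : ℕ, j ∈ Finset.Icc 1 K → ∀ (n : ℕ) [Fact n.Prime] (M x y : ℕ), n0 ≤ n →
      M.Coprime (2 * n) → 3 ≤ M → M ≤ n → (n : ℝ) ^ ((j : ℝ) / (2 * K) + ε / 2) ≤ M →
      Real.log ((Lq n M).index : ℝ) ≤ (j : ℝ) / (2 * K) * ((n - 1) / 2 : ℕ) * Real.log n → 1 < x → 1 < y →
      y ^ M * (x - 1) = x ^ n - 1 → (M : ℝ) * Real.log x ≤ (n : ℝ) ^ (1 + (j : ℝ) / (2 * K) + ε / 2) := by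
    intro j
    by_cases hj : j ∈ Finset.Icc 1 K
    · obtain ⟨n0, h⟩ := up_M ((j : ℝ) / (2 * K)) (ε / 2) (hgr j hj).1 (hgr j hj).2 (by positivity)
      exact ⟨n0, fun _ => h⟩
    · exact ⟨0, fun h => absurd h hj⟩
  choose g hg using hex'
  obtain ⟨n1, hn1⟩ := dpbox_small
  obtain ⟨q0, hq0⟩ := partL4 ε hε
  -- `n ^ ε log 2 ≥ q0` for large `n`
  have hev : ∀ᶠ t : ℝ in Filter.atTop, (q0 : ℝ) / Real.log 2 ≤ t ^ ε :=
    (tendsto_rpow_atTop hε).eventually (Filter.eventually_ge_atTop _)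
  obtain ⟨T, hT⟩ := Filter.eventually_atTop.1 hev
  refine ⟨max (max (max n1 7) ⌈T⌉₊) (max ((Finset.Icc 1 K).sup f) ((Finset.Icc 1 K).sup g)),
    fun n m x y hn hnp hm hx hy heq => ?_⟩
  have : Fact n.Prime := ⟨hnp⟩
  have hnn1 : n1 ≤ n := (((le_max_left _ _).trans (le_max_left _ _)).trans (le_max_left _ _)).trans hn
  have hn7 : 7 ≤ n := (((le_max_right _ _).trans (le_max_left _ _)).trans (le_max_left _ _)).trans hn
  have hnT : T ≤ n := Nat.ceil_le.1 (((le_max_right _ _).trans (le_max_left _ _)).trans hn)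
  have hnf : ∀ j ∈ Finset.Icc 1 K, f j ≤ n := fun j hj =>
    (Finset.le_sup hj).trans (((le_max_left _ _).trans (le_max_right _ _)).trans hn)
  have hng : ∀ j ∈ Finset.Icc 1 K, g j ≤ n := fun j hj =>
    (Finset.le_sup hj).trans (((le_max_right _ _).trans (le_max_right _ _)).trans hn)
  have hn2 : n ≠ 2 := by omega
  have hn1R : (1 : ℝ) < n := by exact_mod_cast hnp.one_lt
  have hn0R : (0 : ℝ) < n := by linarith
  have hpos := dpbox_pos (n := n) hn2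
  have hι0 := dp_io_nonneg n m
  have hι1 := dp_io_le n m
  obtain ⟨j, hj, hj1, hj2⟩ := dpbox_grid K hK1 hι0 hι1
  have hj2' : (j : ℝ) / (2 * K) ≤ dp_io n m + ε / 2 := by linarith
  have hm0 : m ≠ 0 := by omega
  have hodd : Odd m := dpbox_odd (by omega) hx heq
  have hm3 : 3 ≤ m := by
    obtain ⟨t, ht⟩ := hodd
    omega
  have hsm : ∀ p : ℕ, p.Prime → p ∣ m → p < n := fun p hp hpf => hn1 n m x y p hnn1 hnp hx hy heq hp hpf
  have hcop : m.Coprime (2 * n) := by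
    refine Nat.Coprime.mul_right (Nat.coprime_two_right.2 hodd) ?_
    rw [Nat.coprime_comm, hnp.coprime_iff_not_dvd]
    intro hd
    exact lt_irrefl n (hsm n hnp hd)
  have hA : (m : ℝ) < (n : ℝ) ^ ((1 + dp_io n m) / 2 + ε) := by
    by_contra hcon
    push Not at hcon
    have h1 : (n : ℝ) ^ ((1 + (j : ℝ) / (2 * K)) / 2 + ε / 2) ≤ m :=
      (Real.rpow_le_rpow_of_exponent_le hn1R.le (by linarith)).trans hcon
    obtain ⟨M, hM1, hM2⟩ := hf j hj n m x y (hnf j hj) h1 hx hy heq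
    have h2 : Real.log ((Lq n M).index : ℝ) ≤ Real.log ((Lq n m).index : ℝ) := by
      refine Real.log_le_log ?_ (by exact_mod_cast dpbox_mono hn2 hM1)
      have := lq_index_ne hn2 M
      positivity
    rw [dpbox_log hn2 m] at h2
    have h3 : (j : ℝ) / (2 * K) * (((n - 1) / 2 : ℕ) * Real.log n) < dp_io n m * (((n - 1) / 2 : ℕ) * Real.log n) := by
      rw [← mul_assoc]
      exact hM2.trans_le h2
    have h4 := lt_of_mul_lt_mul_right h3 hpos.le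
    linarith
  have hmn : m ≤ n := by
    have h1 : (m : ℝ) ≤ n := by
      calc (m : ℝ) ≤ (n : ℝ) ^ ((1 + dp_io n m) / 2 + ε) := hA.le
        _ ≤ (n : ℝ) ^ (1 : ℝ) := Real.rpow_le_rpow_of_exponent_le hn1R.le (by linarith)
        _ = n := Real.rpow_one _
    exact_mod_cast h1
  refine ⟨hA, ?_, fun hB => ?_⟩
  · have hlx : Real.log 2 ≤ Real.log x := Real.log_le_log (by norm_num) (by exact_mod_cast hx)
    have hl2 : 0 < Real.log 2 := Real.log_pos (by norm_num)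
    rcases Nat.lt_or_ge m q0 with h | h
    · have h1 := hT n hnT
      rw [div_le_iff₀ hl2] at h1
      calc (m : ℝ) ≤ q0 := by exact_mod_cast h.le
        _ ≤ (n : ℝ) ^ ε * Real.log 2 := h1
        _ ≤ (n : ℝ) ^ ε * Real.log x := mul_le_mul_of_nonneg_left hlx (Real.rpow_nonneg hn0R.le _)
    · have h1 := hq0 m n x y h hodd hx (by nlinarith) heq
      rw [min_eq_right hmn] at h1
      have h2 : (m : ℝ) ^ ε ≤ (n : ℝ) ^ ε := Real.rpow_le_rpow (Nat.cast_nonneg _) (by exact_mod_cast hmn) hε.le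
      calc (m : ℝ) ≤ Real.log x * (m : ℝ) ^ ε := h1
        _ ≤ Real.log x * (n : ℝ) ^ ε := mul_le_mul_of_nonneg_left h2 (hl2.le.trans hlx)
        _ = _ := mul_comm _ _
  · have h1 : (n : ℝ) ^ ((j : ℝ) / (2 * K) + ε / 2) ≤ m :=
      (Real.rpow_le_rpow_of_exponent_le hn1R.le (by linarith)).trans hB
    have h2 : Real.log ((Lq n m).index : ℝ) ≤ (j : ℝ) / (2 * K) * ((n - 1) / 2 : ℕ) * Real.log n := by
      rw [dpbox_log hn2 m, mul_assoc]
      exact mul_le_mul_of_nonneg_right hj1 hpos.le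
    refine (hg j hj n m x y (hng j hj) hcop hm3 hmn h1 h2 hx hy heq).trans ?_
    exact Real.rpow_le_rpow_of_exponent_le hn1R.le (by linarith)

/-- all solutions of a large length: the exponent and the size of `x` in terms of the index -/
theorem dp_box (ε : ℝ) (hε : 0 < ε) : ∃ n0 : ℕ, ∀ n m x y : ℕ, n0 ≤ n → 1 < m → 1 < x → 1 < y →
    y ^ m * (x - 1) = x ^ n - 1 →
    (m : ℝ) < (n : ℝ) ^ ((1 + dp_io n m) / 2 + ε) ∧ (m : ℝ) ≤ (n : ℝ) ^ ε * Real.log x ∧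
    ((n : ℝ) ^ (dp_io n m + ε) ≤ m → (m : ℝ) * Real.log x ≤ (n : ℝ) ^ (1 + dp_io n m + ε)) := by
  obtain ⟨n1, h1⟩ := dp_box_prime (min ε (1 / 8)) (lt_min hε (by norm_num)) (min_le_right _ _)
  obtain ⟨n2, h2⟩ := prime_length
  refine ⟨max (max n1 n2) 2, fun n m x y hn hm hx hy heq => ?_⟩
  have hnn1 : n1 ≤ n := ((le_max_left _ _).trans (le_max_left _ _)).trans hn
  have hnn2 : n2 ≤ n := ((le_max_right _ _).trans (le_max_left _ _)).trans hn
  have hn2 : 2 ≤ n := (le_max_right _ _).trans hn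
  have hn1R : (1 : ℝ) ≤ n := by
    have : 1 ≤ n := by omega
    exact_mod_cast this
  have hp : n.Prime := h2 x y m n hnn2 hx hy hm heq
  obtain ⟨hA, hB, hC⟩ := h1 n m x y hnn1 hp hm hx hy heq
  have h3 := min_le_left ε (1 / 8)
  refine ⟨hA.trans_le (Real.rpow_le_rpow_of_exponent_le hn1R (by linarith)), hB.trans ?_, fun hm' => ?_⟩
  · refine mul_le_mul_of_nonneg_right (Real.rpow_le_rpow_of_exponent_le hn1R h3) ?_
    exact Real.log_nonneg (by exact_mod_cast hx.le)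
  · refine (hC ((Real.rpow_le_rpow_of_exponent_le hn1R (by linarith)).trans hm')).trans ?_
    exact Real.rpow_le_rpow_of_exponent_le hn1R (by linarith)

/-- every solution of a large length `n` with `m ≥ n ^ (1/2 + ε)` has `m log x ≤ n ^ (3/2 + ε)` -/
theorem box_exponents (ε : ℝ) (hε : 0 < ε) : ∃ n0 : ℕ, ∀ n m x y : ℕ, n0 ≤ n → 1 < x → 1 < y →
    y ^ m * (x - 1) = x ^ n - 1 → (n : ℝ) ^ (1 / 2 + ε) ≤ m → (m : ℝ) * Real.log x ≤ (n : ℝ) ^ (3 / 2 + ε) := by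
  obtain ⟨n1, h1⟩ := dp_box ε hε
  refine ⟨max n1 2, fun n m x y hn hx hy heq hm => ?_⟩
  have hnn1 : n1 ≤ n := (le_max_left _ _).trans hn
  have hn2 : 2 ≤ n := (le_max_right _ _).trans hn
  have hn1R : (1 : ℝ) < n := by exact_mod_cast (by omega : 1 < n)
  have hm1 : 1 < m := by
    have : (1 : ℝ) < m := (Real.one_lt_rpow hn1R (by linarith)).trans_le hm
    exact_mod_cast this
  have hι := dp_io_le n m
  obtain ⟨-, -, hC⟩ := h1 n m x y hnn1 hm1 hx hy heq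
  refine (hC ((Real.rpow_le_rpow_of_exponent_le hn1R.le (by linarith)).trans hm)).trans ?_
  exact Real.rpow_le_rpow_of_exponent_le hn1R.le (by linarith)

/-- the product over pairwise coprime exponents `m ≥ n ^ (1/2 + ε)` of `m log x` -/
theorem box_product (ε : ℝ) (hε : 0 < ε) : ∃ n0 : ℕ, ∀ n : ℕ, n0 ≤ n → ∀ P : Finset ℕ,
    (∀ m ∈ P, ∀ m' ∈ P, m ≠ m' → m.Coprime m') → ∀ X : ℕ → ℕ,
    (∀ m ∈ P, (n : ℝ) ^ (1 / 2 + ε) ≤ m ∧ 1 < X m ∧ ∃ y : ℕ, 1 < y ∧ y ^ m * (X m - 1) = X m ^ n - 1) →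
    ∏ m ∈ P, ((m : ℝ) * Real.log (X m)) ≤ (n : ℝ) ^ ((1 + ε) * (P.card : ℝ) + 1 / 2) := by
  obtain ⟨n1, h1⟩ := dp_box ε hε
  refine ⟨max n1 2, fun n hn P hPc X hP => ?_⟩
  have hnn1 : n1 ≤ n := (le_max_left _ _).trans hn
  have hn2 : 2 ≤ n := (le_max_right _ _).trans hn
  have hn1R : (1 : ℝ) < n := by exact_mod_cast (by omega : 1 < n)
  have hn0R : (0 : ℝ) < n := by linarith
  have hle : ∀ m ∈ P, (m : ℝ) * Real.log (X m) ≤ (n : ℝ) ^ (1 + dp_io n m + ε) := by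
    intro m hm
    obtain ⟨hmn, hX, y, hy, heq⟩ := hP m hm
    have hm1 : 1 < m := by
      have : (1 : ℝ) < m := (Real.one_lt_rpow hn1R (by linarith)).trans_le hmn
      exact_mod_cast this
    have hι := dp_io_le n m
    obtain ⟨-, -, hC⟩ := h1 n m (X m) y hnn1 hm1 hX hy heq
    exact hC ((Real.rpow_le_rpow_of_exponent_le hn1R.le (by linarith)).trans hmn)
  have hprod : ∏ m ∈ P, ((m : ℝ) * Real.log (X m)) ≤ ∏ m ∈ P, (n : ℝ) ^ (1 + dp_io n m + ε) := by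
    refine Finset.prod_le_prod (fun m hm => ?_) hle
    exact mul_nonneg (Nat.cast_nonneg _) (Real.log_nonneg (by exact_mod_cast (hP m hm).2.1.le))
  rw [← Real.rpow_sum_of_pos hn0R] at hprod
  refine hprod.trans (Real.rpow_le_rpow_of_exponent_le hn1R.le ?_)
  have h2 := sum_dp_io n P hPc
  have h3 : ∑ m ∈ P, (1 + dp_io n m + ε) = (1 + ε) * (P.card : ℝ) + ∑ m ∈ P, dp_io n m := by
    rw [mul_comm, ← nsmul_eq_mul, ← Finset.sum_const, ← Finset.sum_add_distrib]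
    refine Finset.sum_congr rfl fun m _ => ?_
    ring
  rw [h3]
  linarith

/-- **the box**: solutions of a large length `n` with pairwise coprime exponents -/
theorem box_min (ε : ℝ) (hε : 0 < ε) : ∃ n0 : ℕ, ∀ n : ℕ, n0 ≤ n → ∀ P : Finset ℕ,
    (∀ m ∈ P, ∀ m' ∈ P, m ≠ m' → m.Coprime m') → ∀ X : ℕ → ℕ,
    (∀ m ∈ P, 1 < m ∧ 1 < X m ∧ ∃ y : ℕ, 1 < y ∧ y ^ m * (X m - 1) = X m ^ n - 1) →
    (∀ m ∈ P, (m : ℝ) ≤ (n : ℝ) ^ ε * Real.log (X m)) ∧
    ∏ m ∈ P, ((m : ℝ) * min 1 (Real.log (X m) / n)) ≤ (n : ℝ) ^ (1 / 2 + ε * (P.card : ℝ)) := by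
  obtain ⟨n1, h1⟩ := dp_box ε hε
  refine ⟨max n1 2, fun n hn P hPc X hP => ?_⟩
  have hnn1 : n1 ≤ n := (le_max_left _ _).trans hn
  have hn2 : 2 ≤ n := (le_max_right _ _).trans hn
  have hn1R : (1 : ℝ) < n := by exact_mod_cast (by omega : 1 < n)
  have hn0R : (0 : ℝ) < n := by linarith
  have hlog : ∀ m ∈ P, 0 ≤ Real.log (X m) := fun m hm => Real.log_nonneg (by exact_mod_cast (hP m hm).2.1.le)
  have hle : ∀ m ∈ P, (m : ℝ) * min 1 (Real.log (X m) / n) ≤ (n : ℝ) ^ (dp_io n m + ε) := by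
    intro m hm
    obtain ⟨hm1, hX, y, hy, heq⟩ := hP m hm
    obtain ⟨-, -, hC⟩ := h1 n m (X m) y hnn1 hm1 hX hy heq
    rcases le_total ((n : ℝ) ^ (dp_io n m + ε)) (m : ℝ) with h | h
    · have h2 := hC h
      have h3 : (n : ℝ) ^ (1 + dp_io n m + ε) = (n : ℝ) ^ (dp_io n m + ε) * n := by
        rw [add_assoc, Real.rpow_add hn0R, Real.rpow_one, mul_comm]
      rw [h3] at h2
      calc (m : ℝ) * min 1 (Real.log (X m) / n) ≤ (m : ℝ) * (Real.log (X m) / n) :=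
            mul_le_mul_of_nonneg_left (min_le_right _ _) (Nat.cast_nonneg _)
        _ = (m : ℝ) * Real.log (X m) / n := by rw [mul_div_assoc]
        _ ≤ (n : ℝ) ^ (dp_io n m + ε) := by
          rw [div_le_iff₀ hn0R]
          exact h2
    · calc (m : ℝ) * min 1 (Real.log (X m) / n) ≤ (m : ℝ) * 1 :=
            mul_le_mul_of_nonneg_left (min_le_left _ _) (Nat.cast_nonneg _)
        _ = m := mul_one _
        _ ≤ _ := h
  refine ⟨fun m hm => ?_, ?_⟩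
  · obtain ⟨hm1, hX, y, hy, heq⟩ := hP m hm
    exact (h1 n m (X m) y hnn1 hm1 hX hy heq).2.1
  have hprod : ∏ m ∈ P, ((m : ℝ) * min 1 (Real.log (X m) / n)) ≤ ∏ m ∈ P, (n : ℝ) ^ (dp_io n m + ε) := by
    refine Finset.prod_le_prod (fun m hm => ?_) hle
    exact mul_nonneg (Nat.cast_nonneg _) (le_min zero_le_one (div_nonneg (hlog m hm) hn0R.le))
  rw [← Real.rpow_sum_of_pos hn0R] at hprod
  refine hprod.trans (Real.rpow_le_rpow_of_exponent_le hn1R.le ?_)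
  have h2 := sum_dp_io n P hPc
  have h3 : ∑ m ∈ P, (dp_io n m + ε) = ε * (P.card : ℝ) + ∑ m ∈ P, dp_io n m := by
    rw [mul_comm, ← nsmul_eq_mul, ← Finset.sum_const, ← Finset.sum_add_distrib]
    refine Finset.sum_congr rfl fun m _ => ?_
    ring
  rw [h3]
  linarith

/-- one inequality for the exponents and the sizes of the solutions of a large length -/
theorem box_all (ε : ℝ) (hε : 0 < ε) : ∃ n0 : ℕ, ∀ n : ℕ, n0 ≤ n → ∀ P : Finset ℕ,
    (∀ a ∈ P, ∀ b ∈ P, a ≠ b → a.Coprime b) → ∀ x : ℕ → ℕ,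
    (∀ m ∈ P, 1 < m ∧ 1 < x m ∧ ∃ y : ℕ, 1 < y ∧ y ^ m * (x m - 1) = x m ^ n - 1) →
    ∏ m ∈ P, ((m : ℝ) * min 1 (max (m : ℝ) (Real.log (x m)) / n)) ≤ (n : ℝ) ^ (1 / 2 + (P.card : ℝ) * ε) := by
  obtain ⟨n1, h1⟩ := dp_box (ε / 2) (by positivity)
  refine ⟨max n1 2, fun n hn P hPc X hP => ?_⟩
  have hnn1 : n1 ≤ n := (le_max_left _ _).trans hn
  have hn2 : 2 ≤ n := (le_max_right _ _).trans hn
  have hn1R : (1 : ℝ) < n := by exact_mod_cast (by omega : 1 < n)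
  have hn0R : (0 : ℝ) < n := by linarith
  have hlog : ∀ m ∈ P, 0 ≤ Real.log (X m) := fun m hm => Real.log_nonneg (by exact_mod_cast (hP m hm).2.1.le)
  have hle : ∀ m ∈ P, (m : ℝ) * min 1 (max (m : ℝ) (Real.log (X m)) / n) ≤ (n : ℝ) ^ (dp_io n m + ε) := by
    intro m hm
    obtain ⟨hm1, hX, y, hy, heq⟩ := hP m hm
    obtain ⟨-, hL, hC⟩ := h1 n m (X m) y hnn1 hm1 hX hy heq
    rcases le_total ((n : ℝ) ^ (dp_io n m + ε / 2)) (m : ℝ) with h | h
    · have h2 := hC h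
      have h4 : max (m : ℝ) (Real.log (X m)) ≤ (n : ℝ) ^ (ε / 2) * Real.log (X m) := by
        refine max_le hL ?_
        calc Real.log (X m) = 1 * Real.log (X m) := (one_mul _).symm
          _ ≤ (n : ℝ) ^ (ε / 2) * Real.log (X m) :=
            mul_le_mul_of_nonneg_right (Real.one_le_rpow hn1R.le (by positivity)) (hlog m hm)
      have h3 : (n : ℝ) ^ (ε / 2) * (n : ℝ) ^ (1 + dp_io n m + ε / 2) = (n : ℝ) ^ (dp_io n m + ε) * n := by
        rw [← Real.rpow_add hn0R, ← Real.rpow_add_one hn0R.ne']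
        congr 1
        ring
      calc (m : ℝ) * min 1 (max (m : ℝ) (Real.log (X m)) / n) ≤ (m : ℝ) * (max (m : ℝ) (Real.log (X m)) / n) :=
            mul_le_mul_of_nonneg_left (min_le_right _ _) (Nat.cast_nonneg _)
        _ = (m : ℝ) * max (m : ℝ) (Real.log (X m)) / n := by rw [mul_div_assoc]
        _ ≤ (n : ℝ) ^ (dp_io n m + ε) := by
          rw [div_le_iff₀ hn0R, ← h3]
          calc (m : ℝ) * max (m : ℝ) (Real.log (X m)) ≤ (m : ℝ) * ((n : ℝ) ^ (ε / 2) * Real.log (X m)) :=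
                mul_le_mul_of_nonneg_left h4 (Nat.cast_nonneg _)
            _ = (n : ℝ) ^ (ε / 2) * ((m : ℝ) * Real.log (X m)) := by ring
            _ ≤ _ := mul_le_mul_of_nonneg_left h2 (Real.rpow_nonneg hn0R.le _)
    · calc (m : ℝ) * min 1 (max (m : ℝ) (Real.log (X m)) / n) ≤ (m : ℝ) * 1 :=
            mul_le_mul_of_nonneg_left (min_le_left _ _) (Nat.cast_nonneg _)
        _ = m := mul_one _
        _ ≤ _ := h
        _ ≤ (n : ℝ) ^ (dp_io n m + ε) := Real.rpow_le_rpow_of_exponent_le hn1R.le (by linarith)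
  have hprod : ∏ m ∈ P, ((m : ℝ) * min 1 (max (m : ℝ) (Real.log (X m)) / n)) ≤ ∏ m ∈ P, (n : ℝ) ^ (dp_io n m + ε) := by
    refine Finset.prod_le_prod (fun m hm => ?_) hle
    exact mul_nonneg (Nat.cast_nonneg _) (le_min zero_le_one
      (div_nonneg (le_max_of_le_left (Nat.cast_nonneg _)) hn0R.le))
  rw [← Real.rpow_sum_of_pos hn0R] at hprod
  refine hprod.trans (Real.rpow_le_rpow_of_exponent_le hn1R.le ?_)
  have h2 := sum_dp_io n P hPc
  have h3 : ∑ m ∈ P, (dp_io n m + ε) = (P.card : ℝ) * ε + ∑ m ∈ P, dp_io n m := by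
    rw [← nsmul_eq_mul, ← Finset.sum_const, ← Finset.sum_add_distrib]
    refine Finset.sum_congr rfl fun m _ => ?_
    ring
  rw [h3]
  linarith

end Pool.Agent.NLS
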