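import Mathlib

/-!
# NLS-DpBoxP: parameters for the bound `M log x ≤ n ^ (1 + ι + ε)`, `n ^ (ι + ε) ≤ M ≤ n`

With `h = (n - 1)/2`, `η = min ε (1/4)`, `κ = η/16`: `k = ⌊κ h / 2⌋`, `r = ⌊n ^ (ι + η/4)⌋`, `L = ⌈64/κ⌉`, `D = ⌈r n / M⌉ + 1`.
-/

namespace Pool.Agent.NLS

open Filter

private theorem dpbp_log {c r : ℝ} (hc : 0 < c) (hr : 0 < r) :
    ∀ᶠ x : ℝ in atTop, Real.log x ≤ c * x ^ r := by
  have h1 := (isLittleO_log_rpow_atTop hr).def hc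
  filter_upwards [h1, eventually_ge_atTop 1] with x hx hx1
  have hx0 : (0 : ℝ) < x := by linarith
  have h3 : (0 : ℝ) < x ^ r := Real.rpow_pos_of_pos hx0 _
  rw [Real.norm_eq_abs, Real.norm_eq_abs, abs_of_pos h3] at hx
  exact le_trans (le_abs_self _) hx

private theorem dpbp_ev (η κ : ℝ) (hη : 0 < η) (hκ : 0 < κ) (L : ℕ) (hL : 1 ≤ L) :
    ∃ X : ℝ, ∀ x : ℝ, X ≤ x →
    16 * Real.log L < η / 8 * Real.log x ∧ 1681 / κ * L * Real.log x ≤ x ^ (3 * η / 8) ∧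
    1 ≤ Real.log x ∧ 16 ≤ x ∧ (L : ℝ) ≤ x ∧ 8 / κ ≤ x := by
  have hL1 : (1 : ℝ) ≤ L := by exact_mod_cast hL
  have hL0 : (0 : ℝ) < L := by linarith
  have hc : 0 < κ / (1681 * L) := by positivity
  have e2 := dpbp_log (c := κ / (1681 * L)) (r := 3 * η / 8) hc (by positivity)
  obtain ⟨C, hC⟩ : ∃ C, C = 16 * Real.log L / (η / 8) := ⟨_, rfl⟩
  have e5 := Real.tendsto_log_atTop.eventually (eventually_gt_atTop C)
  have e6 := Real.tendsto_log_atTop.eventually (eventually_ge_atTop (1 : ℝ))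
  obtain ⟨X, hX⟩ := eventually_atTop.1 ((e2.and (eventually_ge_atTop (L : ℝ))).and
    ((e5.and e6).and ((eventually_ge_atTop (16 : ℝ)).and (eventually_ge_atTop (8 / κ)))))
  refine ⟨X, fun x hx => ?_⟩
  obtain ⟨⟨h1, h2⟩, ⟨h5, h6⟩, h7, h8⟩ := hX x hx
  refine ⟨?_, ?_, h6, h7, h2, h8⟩
  · rw [hC, div_lt_iff₀ (by positivity)] at h5
    linarith
  · calc 1681 / κ * L * Real.log x ≤ 1681 / κ * L * (κ / (1681 * L) * x ^ (3 * η / 8)) := by
          gcongr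
      _ = x ^ (3 * η / 8) := by
          field_simp

/-- the choice of `k` -/
private theorem dpbp_k {m : ℕ} {κ : ℝ} (_hκ : 0 < κ) (hκ1 : κ ≤ 1) (hm : 2 ≤ κ * m) :
    ∃ k : ℕ, 1 ≤ k ∧ k ≤ m ∧ (k : ℝ) ≤ κ * m / 2 ∧ κ * m ≤ 4 * (k : ℝ) := by
  have h0 : 0 ≤ κ * m / 2 := by positivity
  have h1 : (⌊κ * m / 2⌋₊ : ℝ) ≤ κ * m / 2 := Nat.floor_le h0
  have h2 : κ * m / 2 < ⌊κ * m / 2⌋₊ + 1 := Nat.lt_floor_add_one _
  have h3 : 1 ≤ ⌊κ * m / 2⌋₊ := Nat.le_floor (by push_cast; linarith)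
  have h3' : (1 : ℝ) ≤ ⌊κ * m / 2⌋₊ := by exact_mod_cast h3
  refine ⟨⌊κ * m / 2⌋₊, h3, ?_, h1, by linarith⟩
  have h4 : κ * m ≤ 1 * m := mul_le_mul_of_nonneg_right hκ1 (Nat.cast_nonneg _)
  have h5 : (⌊κ * m / 2⌋₊ : ℝ) ≤ m := by
    have : (0 : ℝ) ≤ κ * m := by positivity
    linarith
  exact_mod_cast h5

theorem exists_parBox (ι ε : ℝ) (hι : 0 < ι) (hι' : ι ≤ 1 / 2) (hε : 0 < ε) :
    ∃ (L n0 : ℕ), 2 ≤ L ∧ ∀ (n M : ℕ) (I : ℝ), n0 ≤ n → Odd n →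
    (n : ℝ) ^ (ι + ε) ≤ M → M ≤ n → 0 < I →
    I ≤ Real.exp (ι * ((n - 1) / 2 : ℕ) * Real.log n) →
    ∃ k r D : ℕ, 1 ≤ k ∧ k ≤ (n - 1) / 2 ∧ 1 ≤ r ∧ r < M ∧ r ≤ n ∧ 2 ≤ D ∧
      (L : ℝ) ^ (16 * ((n - 1) / 2)) * (I * (M : ℝ) ^ k) < ((r : ℝ) + 1) ^ ((n - 1) / 2) ∧
      2 * ((n - 1) / 2) * r * n + 8 * ((n - 1) / 2) * D * M ≤ k * (L * D) * M ∧
      20 * (((n - 1) / 2 : ℕ) : ℝ) * ((L * D : ℕ) : ℝ) * Real.log (4 * M * (((L * D : ℕ) : ℝ) + 1)) * (M : ℝ) ≤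
        k * (n : ℝ) ^ (1 + ι + ε) := by
  obtain ⟨η, hη⟩ : ∃ η, η = min ε (1 / 4) := ⟨_, rfl⟩
  have hη0 : 0 < η := by rw [hη]; exact lt_min hε (by norm_num)
  have hηε : η ≤ ε := by rw [hη]; exact min_le_left _ _
  have hη4 : η ≤ 1 / 4 := by rw [hη]; exact min_le_right _ _
  obtain ⟨κ, hκ⟩ : ∃ κ, κ = η / 16 := ⟨_, rfl⟩
  have hκ0 : 0 < κ := by rw [hκ]; positivity
  have hκ1 : κ ≤ 1 := by rw [hκ]; linarith
  obtain ⟨L, hLd⟩ : ∃ L : ℕ, L = ⌈64 / κ⌉₊ := ⟨_, rfl⟩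
  have hLκ : 64 ≤ κ * L := by
    have h1 : 64 / κ ≤ L := by rw [hLd]; exact Nat.le_ceil _
    rw [div_le_iff₀ hκ0] at h1
    linarith
  have hL1 : 1 ≤ L := by
    rw [hLd]
    exact Nat.ceil_pos.2 (by positivity)
  have hL2 : 2 ≤ L := by
    have h7 : κ * (L : ℝ) ≤ 1 * L := mul_le_mul_of_nonneg_right hκ1 (Nat.cast_nonneg _)
    have h8 : (2 : ℝ) ≤ L := by linarith
    exact_mod_cast h8
  have hL1r : (1 : ℝ) ≤ L := by exact_mod_cast hL1
  have hL0r : (0 : ℝ) < L := by linarith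
  obtain ⟨X, hX⟩ := dpbp_ev η κ hη0 hκ0 L hL1
  refine ⟨L, ⌈X⌉₊, hL2, ?_⟩
  intro n M I hn hodd hM hMn hI hIb
  obtain ⟨h1, h2, h3, h4, h5, h6⟩ := hX n (Nat.ceil_le.1 hn)
  obtain ⟨m, hm⟩ : ∃ m, m = (n - 1) / 2 := ⟨_, rfl⟩
  have hnm : n = 2 * m + 1 := by
    obtain ⟨t, ht⟩ := hodd
    omega
  rw [← hm] at hIb ⊢
  obtain ⟨x, hx⟩ : ∃ x, x = Real.log n := ⟨_, rfl⟩
  rw [← hx] at h1 h2 h3 hIb
  have hn0 : (0 : ℝ) < n := by linarith
  have hn1 : (1 : ℝ) < n := by linarith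
  have hn1' : (1 : ℝ) ≤ n := hn1.le
  have hx0 : 0 < x := by linarith
  have hnmr : (n : ℝ) = 2 * m + 1 := by rw [hnm]; push_cast; ring
  have hκm : 2 ≤ κ * m := by
    rw [div_le_iff₀ hκ0, hnmr] at h6
    have e1 : (2 * (m : ℝ) + 1) * κ = 2 * (κ * m) + κ := by ring
    rw [e1] at h6
    linarith
  obtain ⟨k, hk1, hkm, hkle, hkge⟩ := dpbp_k hκ0 hκ1 hκm
  have hk0 : (0 : ℝ) < k := by exact_mod_cast hk1
  have hm0 : (0 : ℝ) < m := by
    rcases Nat.eq_zero_or_pos m with h | h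
    · rw [h] at hκm
      norm_num at hκm
    · exact_mod_cast h
  -- the size of `M`
  have hMη : (n : ℝ) ^ (ι + η) ≤ M :=
    le_trans (Real.rpow_le_rpow_of_exponent_le hn1' (by linarith)) hM
  have hpow0 : (0 : ℝ) < (n : ℝ) ^ (ι + η) := Real.rpow_pos_of_pos hn0 _
  have hM0 : (0 : ℝ) < M := lt_of_lt_of_le hpow0 hMη
  have hMnr : (M : ℝ) ≤ n := by exact_mod_cast hMn
  have hlM : Real.log M ≤ 4 * x := by
    have h7 : Real.log M ≤ x := by
      rw [hx]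
      exact Real.log_le_log hM0 hMnr
    linarith
  -- `r`
  obtain ⟨r, hr⟩ : ∃ r, r = ⌊(n : ℝ) ^ (ι + η / 4)⌋₊ := ⟨_, rfl⟩
  have hrpos : (0 : ℝ) < (n : ℝ) ^ (ι + η / 4) := Real.rpow_pos_of_pos hn0 _
  have hr1 : 1 ≤ r := by
    rw [hr]
    refine Nat.le_floor ?_
    push_cast
    exact Real.one_le_rpow hn1' (by positivity)
  have hr0 : (0 : ℝ) < r := by exact_mod_cast hr1
  have hr1r : (1 : ℝ) ≤ r := by exact_mod_cast hr1
  have hrle : (r : ℝ) ≤ (n : ℝ) ^ (ι + η / 4) := by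
    rw [hr]
    exact Nat.floor_le hrpos.le
  have hrlt : (n : ℝ) ^ (ι + η / 4) < r + 1 := by
    rw [hr]
    exact Nat.lt_floor_add_one _
  have hrM : r < M := by
    have h7 : (r : ℝ) < M := by
      calc (r : ℝ) ≤ (n : ℝ) ^ (ι + η / 4) := hrle
        _ < (n : ℝ) ^ (ι + η) := Real.rpow_lt_rpow_of_exponent_lt hn1 (by linarith)
        _ ≤ M := hMη
    exact_mod_cast h7
  have hrn : r ≤ n := by
    have h7 : (r : ℝ) ≤ n := by
      calc (r : ℝ) ≤ (n : ℝ) ^ (ι + η / 4) := hrle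
        _ ≤ (n : ℝ) ^ (1 : ℝ) := Real.rpow_le_rpow_of_exponent_le hn1' (by linarith)
        _ = n := Real.rpow_one _
    exact_mod_cast h7
  -- `D`
  obtain ⟨D, hD⟩ : ∃ D, D = ⌈(r : ℝ) * n / M⌉₊ + 1 := ⟨_, rfl⟩
  have hDpos : 0 < (r : ℝ) * n / M := by positivity
  have hD2 : 2 ≤ D := by
    have h7 : 0 < ⌈(r : ℝ) * n / M⌉₊ := Nat.ceil_pos.2 hDpos
    omega
  have hD0 : (0 : ℝ) < D := by
    have : 0 < D := by omega
    exact_mod_cast this
  have hDge : (r : ℝ) * n ≤ D * M := by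
    have h7 : (r : ℝ) * n / M ≤ D := by
      have h8 : (r : ℝ) * n / M ≤ ⌈(r : ℝ) * n / M⌉₊ := Nat.le_ceil _
      rw [hD]
      push_cast
      linarith
    rwa [div_le_iff₀ hM0] at h7
  have hDle : (D : ℝ) ≤ (r : ℝ) * n / M + 2 := by
    have h8 : (⌈(r : ℝ) * n / M⌉₊ : ℝ) < (r : ℝ) * n / M + 1 := Nat.ceil_lt_add_one hDpos.le
    rw [hD]
    push_cast
    linarith
  have hrnge : (n : ℝ) ≤ r * n := by
    have h7 : 1 * (n : ℝ) ≤ r * n := mul_le_mul_of_nonneg_right hr1r hn0.le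
    linarith
  have hDM : (D : ℝ) * M ≤ 3 * ((r : ℝ) * n) := by
    have h7 : (D : ℝ) * M ≤ ((r : ℝ) * n / M + 2) * M := mul_le_mul_of_nonneg_right hDle hM0.le
    have e1 : ((r : ℝ) * n / M + 2) * M = r * n + 2 * M := by
      field_simp
    rw [e1] at h7
    linarith
  have hnum : (r : ℝ) * n ≤ (n : ℝ) ^ (1 + ι + η / 4) := by
    calc (r : ℝ) * n ≤ (n : ℝ) ^ (ι + η / 4) * (n : ℝ) ^ (1 : ℝ) := by
          rw [Real.rpow_one]
          gcongr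
      _ = (n : ℝ) ^ (1 + ι + η / 4) := by
          rw [← Real.rpow_add hn0]
          congr 1
          ring
  refine ⟨k, r, D, hk1, hkm, hr1, hrM, hrn, hD2, ?_, ?_, ?_⟩
  · have hposL : 0 < (L : ℝ) ^ (16 * m) * (I * (M : ℝ) ^ k) := by positivity
    have hposR : 0 < ((r : ℝ) + 1) ^ m := by positivity
    rw [← Real.log_lt_log_iff hposL hposR, Real.log_mul (by positivity) (by positivity),
      Real.log_mul hI.ne' (by positivity), Real.log_pow, Real.log_pow, Real.log_pow]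
    have hlI : Real.log I ≤ ι * m * x := by
      rw [Real.log_le_iff_le_exp hI]
      exact hIb
    have hlr : (ι + η / 4) * x < Real.log (r + 1) := by
      have h7 := Real.log_lt_log hrpos hrlt
      rwa [Real.log_rpow hn0, ← hx] at h7
    have hkM : (k : ℝ) * Real.log M ≤ κ * m / 2 * (4 * x) := by
      calc (k : ℝ) * Real.log M ≤ k * (4 * x) := mul_le_mul_of_nonneg_left hlM hk0.le
        _ ≤ κ * m / 2 * (4 * x) := mul_le_mul_of_nonneg_right hkle (by linarith)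
    have h9 : (m : ℝ) * ((ι + η / 4) * x) < m * Real.log (r + 1) :=
      mul_lt_mul_of_pos_left hlr hm0
    have h10 : (m : ℝ) * (16 * Real.log L) < m * (η / 8 * x) := mul_lt_mul_of_pos_left h1 hm0
    have e1 : κ * m / 2 * (4 * x) = m * (η / 8 * x) := by rw [hκ]; ring
    rw [e1] at hkM
    push_cast
    have e2 : (m : ℝ) * ((ι + η / 4) * x) = ι * m * x + m * (η / 8 * x) + m * (η / 8 * x) := by
      ring
    rw [e2] at h9
    have e3 : 16 * (m : ℝ) * Real.log L = m * (16 * Real.log L) := by ring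
    rw [e3]
    linarith
  · have h7 : (2 : ℝ) * m * r * n + 8 * m * D * M ≤ k * (L * D) * M := by
      have hkL : 16 * (m : ℝ) ≤ k * L := by
        have h8 : κ * (m : ℝ) * L ≤ 4 * k * L := mul_le_mul_of_nonneg_right hkge hL0r.le
        have h9 : 64 * (m : ℝ) ≤ κ * L * m := mul_le_mul_of_nonneg_right hLκ hm0.le
        have e1 : κ * (m : ℝ) * L = κ * L * m := by ring
        have e2 : 4 * (k : ℝ) * L = 4 * (k * L) := by ring
        rw [e1, e2] at h8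
        linarith
      calc (2 : ℝ) * m * r * n + 8 * m * D * M = 2 * m * (r * n) + 8 * m * (D * M) := by ring
        _ ≤ 2 * m * (D * M) + 8 * m * (D * M) := by gcongr
        _ = 10 * m * (D * M) := by ring
        _ ≤ 16 * m * (D * M) := by
            have : 0 ≤ (m : ℝ) * (D * M) := by positivity
            linarith
        _ ≤ k * L * (D * M) := by gcongr
        _ = k * (L * D) * M := by ring
    exact_mod_cast h7
  · push_cast
    have hDn : (D : ℝ) ≤ 3 * (n : ℝ) ^ 2 := by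
      have h7 : (1 : ℝ) ≤ M := by
        have : 1 ≤ M := by omega
        exact_mod_cast this
      calc (D : ℝ) = D * 1 := by ring
        _ ≤ D * M := mul_le_mul_of_nonneg_left h7 hD0.le
        _ ≤ 3 * ((r : ℝ) * n) := hDM
        _ ≤ 3 * ((n : ℝ) * n) := by
            have h8 : (r : ℝ) ≤ n := by exact_mod_cast hrn
            gcongr
        _ = 3 * (n : ℝ) ^ 2 := by ring
    have hLD : (L : ℝ) * D + 1 ≤ 4 * (n : ℝ) ^ 3 := by
      have h7 : (L : ℝ) * D ≤ n * (3 * (n : ℝ) ^ 2) := mul_le_mul h5 hDn hD0.le hn0.le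
      have h8 : (1 : ℝ) ≤ (n : ℝ) ^ 3 := one_le_pow₀ hn1'
      have e1 : (n : ℝ) * (3 * (n : ℝ) ^ 2) = 3 * (n : ℝ) ^ 3 := by ring
      linarith
    have hlog : Real.log (4 * M * (L * D + 1)) ≤ 5 * x := by
      have h7 : 4 * (M : ℝ) * (L * D + 1) ≤ (n : ℝ) ^ 5 := by
        calc 4 * (M : ℝ) * (L * D + 1) ≤ 4 * n * (4 * (n : ℝ) ^ 3) := by gcongr
          _ = 16 * (n : ℝ) ^ 4 := by ring
          _ ≤ n * (n : ℝ) ^ 4 := by gcongr
          _ = (n : ℝ) ^ 5 := by ring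
      have h8 := Real.log_le_log (by positivity) h7
      rw [Real.log_pow, ← hx] at h8
      push_cast at h8
      exact h8
    have hlog0 : 0 ≤ Real.log (4 * M * (L * D + 1)) := by
      apply Real.log_nonneg
      have h7 : (1 : ℝ) ≤ M := by
        have : 1 ≤ M := by omega
        exact_mod_cast this
      have h8 : (1 : ℝ) ≤ 4 * M := by linarith
      have h9 : (0 : ℝ) ≤ L * D := by positivity
      exact one_le_mul_of_one_le_of_one_le h8 (by linarith)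
    have hmk : 20 * (m : ℝ) ≤ 80 / κ * k := by
      rw [div_mul_eq_mul_div, le_div_iff₀ hκ0]
      linarith
    have hDM2 : (D : ℝ) * M ≤ 3 * (n : ℝ) ^ (1 + ι + η / 4) := hDM.trans (by linarith)
    have hq0 : 0 < (n : ℝ) ^ (1 + ι + η / 4) := Real.rpow_pos_of_pos hn0 _
    calc 20 * (m : ℝ) * (L * D) * Real.log (4 * M * (L * D + 1)) * (M : ℝ)
        = 20 * (m : ℝ) * L * (D * M) * Real.log (4 * M * (L * D + 1)) := by ring
      _ ≤ 80 / κ * k * L * (3 * (n : ℝ) ^ (1 + ι + η / 4)) * (5 * x) := by gcongr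
      _ = k * (1200 / κ * L * x) * (n : ℝ) ^ (1 + ι + η / 4) := by ring
      _ ≤ k * (1681 / κ * L * x) * (n : ℝ) ^ (1 + ι + η / 4) := by
          have h8 : 1200 / κ * L * x ≤ 1681 / κ * L * x := by
            have : 1200 / κ ≤ 1681 / κ := div_le_div_of_nonneg_right (by norm_num) hκ0.le
            gcongr
          gcongr
      _ ≤ k * (n : ℝ) ^ (3 * η / 8) * (n : ℝ) ^ (1 + ι + η / 4) := by gcongr
      _ = k * ((n : ℝ) ^ (3 * η / 8) * (n : ℝ) ^ (1 + ι + η / 4)) := by ring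
      _ = k * (n : ℝ) ^ (3 * η / 8 + (1 + ι + η / 4)) := by rw [← Real.rpow_add hn0]
      _ ≤ k * (n : ℝ) ^ (1 + ι + ε) := by
          refine mul_le_mul_of_nonneg_left (Real.rpow_le_rpow_of_exponent_le hn1' (by linarith)) hk0.le

end Pool.Agent.NLS
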