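import Pool.Agent.NLS.Pj

/-!
# NLS-DpDefs: the functions `z ^ i f_v`

`Pz n K q (v, i) j` is the coefficient of `z ^ j` in `z ^ i f_v`, `f_v = ∑ Pj n K q v j z ^ j`.
-/

open NumberField Finset
open Pool.Agent.AAP Pool.Agent.Helper7.HU

namespace Pool.Agent.NLS

/-- the coefficient of `z ^ j` in `z ^ i f_v`, `w = (v, i)` -/
noncomputable def Pz (n : ℕ) [Fact n.Prime] (K : Type) [Field K] [NumberField K] [IsCyclotomicExtension {n} ℚ K] (q : ℕ)
    (w : (H n → ℤ) × ℕ) (j : ℕ) : K := if w.2 ≤ j then Pj n K q w.1 (j - w.2) else 0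

end Pool.Agent.NLS
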