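import Pool.Agent.NLS.LvCov
import Pool.Agent.NLS.LvGal
import Pool.Agent.NLS.Theta

/-!
# NLS-DpInj: the residues of `ps s 1` at all the primes over `p` determine `s` modulo `p`

`g = p` modulo `n` has order `≥ t = ⌊log_p n⌋ + 1`; `(ZMod n)ˣ` is covered by `|A| ≤ 2 (n - 1) / t ≤ 2 (n - 1) log p / log n` runs of `t` powers
of `g` (`lv_cover`). `ps s (p l) = (ps s l) ^ p` modulo `p` (Frobenius), so the condition at `P a` gives the one at `P (a p^i)`.
-/

open NumberField Finset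
open Pool.Agent.AAP Pool.Agent.Helper7.HU

namespace Pool.Agent.NLS

/-- the order of `p` modulo `n` -/
private theorem dpi_order {n p : ℕ} [Fact n.Prime] (hp : p.Prime) (hpn : p ≠ n) :
    ∃ g : (ZMod n)ˣ, (g : ZMod n) = p ∧ Nat.log p n + 1 ≤ orderOf g := by
  have hn : n.Prime := Fact.out
  have hcop : Nat.Coprime p n := (Nat.coprime_primes hp hn).mpr hpn
  refine ⟨ZMod.unitOfCoprime p hcop, by simp, ?_⟩
  by_contra hcon
  push Not at hcon
  set g := ZMod.unitOfCoprime p hcop with hgdef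
  have hd : 0 < orderOf g := orderOf_pos g
  have h1 : g ^ orderOf g = 1 := pow_orderOf_eq_one g
  have h2 : ((g ^ orderOf g : (ZMod n)ˣ) : ZMod n) = 1 := by rw [h1]; simp
  have h3 : ((p ^ orderOf g : ℕ) : ZMod n) = ((1 : ℕ) : ZMod n) := by
    have : ((g : (ZMod n)ˣ) : ZMod n) = ((p : ℕ) : ZMod n) := ZMod.coe_unitOfCoprime p hcop
    rw [Units.val_pow_eq_pow_val, this] at h2
    push_cast at h2 ⊢
    exact h2
  rw [ZMod.natCast_eq_natCast_iff] at h3
  have h4 : p ^ orderOf g ≤ n := Nat.pow_le_of_le_log hn.ne_zero (by omega)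
  have h6 : 2 ≤ p ^ orderOf g := by
    calc 2 ≤ p := hp.two_le
      _ = p ^ 1 := (pow_one p).symm
      _ ≤ p ^ orderOf g := Nat.pow_le_pow_right hp.pos hd
  rcases h4.lt_or_eq with h4 | h4
  · have h5 : p ^ orderOf g = 1 := Nat.ModEq.eq_of_lt_of_lt h3 h4 hn.one_lt
    omega
  · have h7 : p ∣ n := by
      rw [← h4]
      exact dvd_pow_self p hd.ne'
    exact hpn ((Nat.prime_dvd_prime_iff_eq hp hn).1 h7)

section

variable {n : ℕ} [Fact n.Prime] {K : Type} [Field K] [NumberField K] [IsCyclotomicExtension {n} ℚ K]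

private theorem dpi_sub (s t : H n → ℤ) (i : ℕ) : ps n K (s - t) i = ps n K s i - ps n K t i := by
  have h := ps_add (n := n) (K := K) (s - t) t i
  rw [sub_add_cancel] at h
  rw [h]
  ring

/-- Frobenius at a prime over `p` -/
private theorem dpi_frob {p : ℕ} (hp : p.Prime) {P : Ideal (𝓞 K)} (hP : P.IsMaximal) (hpP : (p : 𝓞 K) ∈ P) (s : H n → ℤ) (l : ℕ)
    (h : ps n K s l ∈ P) : ps n K s (p * l) ∈ P := by
  have hnt : Nontrivial (𝓞 K ⧸ P) := Ideal.Quotient.nontrivial_iff.2 hP.ne_top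
  have hp0 : (p : 𝓞 K ⧸ P) = 0 := by
    have h1 := Ideal.Quotient.eq_zero_iff_mem.2 hpP
    rwa [map_natCast] at h1
  have hch : CharP (𝓞 K ⧸ P) p := (CharP.charP_iff_prime_eq_zero hp).2 hp0
  have hfp : Fact p.Prime := ⟨hp⟩
  have h1 : frobenius (𝓞 K ⧸ P) p (Ideal.Quotient.mk P (ps n K s l)) = Ideal.Quotient.mk P (ps n K s (p * l)) := by
    unfold ps
    simp only [map_sum, map_mul, map_sub, map_pow, map_intCast]
    refine Finset.sum_congr rfl fun e _ => ?_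
    simp only [frobenius_def, ← pow_mul, mul_comm p l]
  rw [← Ideal.Quotient.eq_zero_iff_mem, ← h1, Ideal.Quotient.eq_zero_iff_mem.2 h, map_zero]

private theorem dpi_frob_pow {p : ℕ} (hp : p.Prime) {P : Ideal (𝓞 K)} (hP : P.IsMaximal) (hpP : (p : 𝓞 K) ∈ P) (s : H n → ℤ)
    (h : ps n K s 1 ∈ P) (i : ℕ) : ps n K s (p ^ i) ∈ P := by
  induction i with
  | zero => rwa [pow_zero]
  | succ i ih =>
    rw [pow_succ, mul_comm]
    exact dpi_frob hp hP hpP s _ ih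

private theorem dpi_dvd (hn2 : n ≠ 2) {p : ℕ} (hp : p.Prime) (s : H n → ℤ) (h : ps n K s 1 ∈ Ideal.span {(p : 𝓞 K)}) (e : H n) :
    (p : ℤ) ∣ s e := by
  have hp0 : (0 : ℤ) < p := by exact_mod_cast hp.pos
  have h1 : (fun e => s e % (p : ℤ)) = (0 : H n → ℤ) := by
    refine theta_inj (K := K) (q := p) hn2 (fun e => ?_) ?_
    · rw [Pi.zero_apply, sub_zero, abs_of_nonneg (Int.emod_nonneg _ hp0.ne')]
      exact Int.emod_lt_of_pos _ hp0
    · have h2 : s = (fun e => s e % (p : ℤ)) + (fun e => (p : ℤ) * (s e / (p : ℤ))) := by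
        funext e
        rw [Pi.add_apply]
        exact (Int.emod_add_mul_ediv _ _).symm
      have h3 := ps_add (n := n) (K := K) (fun e => s e % (p : ℤ)) (fun e => (p : ℤ) * (s e / (p : ℤ))) 1
      rw [← h2] at h3
      have h4 : ps n K (fun e => (p : ℤ) * (s e / (p : ℤ))) 1 = (p : 𝓞 K) * ps n K (fun e => s e / (p : ℤ)) 1 := by
        unfold ps
        rw [Finset.mul_sum]
        refine Finset.sum_congr rfl fun e _ => ?_
        push_cast
        ring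
      have h5 : ps n K (0 : H n → ℤ) 1 = 0 := by
        unfold ps
        simp
      rw [h5, sub_zero]
      have h6 : ps n K (fun e => s e % (p : ℤ)) 1 = ps n K s 1 - (p : 𝓞 K) * ps n K (fun e => s e / (p : ℤ)) 1 := by
        rw [h3, h4]
        ring
      rw [h6]
      exact Ideal.sub_mem _ h (Ideal.mul_mem_right _ _ (Ideal.mem_span_singleton_self _))
  exact Int.dvd_of_emod_eq_zero (congrFun h1 e)

end

/-- the residues of `ps s 1` at the primes `P a` over `p`, `a ∈ A`, determine `s` modulo `p` -/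
theorem dp_inj (n : ℕ) [Fact n.Prime] (hn2 : n ≠ 2) (K : Type) [Field K] [NumberField K] [IsCyclotomicExtension {n} ℚ K]
    {p : ℕ} (hp : p.Prime) (hpn : p ≠ n) : ∃ (A : Finset (ZMod n)ˣ) (P : (ZMod n)ˣ → Ideal (𝓞 K)),
      (A.card : ℝ) ≤ 2 * ((n : ℝ) - 1) / Real.log n * Real.log p ∧
      (∀ a, (P a).IsMaximal ∧ (p : 𝓞 K) ∈ P a) ∧
      ∀ s t : H n → ℤ, (∀ a ∈ A, ps n K s 1 - ps n K t 1 ∈ P a) → ∀ e, (p : ℤ) ∣ s e - t e := by
  classical
  have hn : n.Prime := Fact.out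
  obtain ⟨g, hg, hgt⟩ := dpi_order hp hpn
  obtain ⟨A, hA1, hA2⟩ := lv_cover g (Nat.succ_le_succ (Nat.zero_le _)) hgt
  obtain ⟨P, hP1, hP2, hP3⟩ := exists_pa n hn2 K hp hpn
  refine ⟨A, P, ?_, hP1, ?_⟩
  · rw [ZMod.card_units n] at hA1
    have h1 : ((Nat.log p n + 1 : ℕ) : ℝ) * A.card ≤ 2 * ((n : ℝ) - 1) := by
      have h2 : (((Nat.log p n + 1) * A.card : ℕ) : ℝ) ≤ ((2 * (n - 1) : ℕ) : ℝ) := by exact_mod_cast hA1
      rw [Nat.cast_mul, Nat.cast_mul, Nat.cast_sub hn.one_le] at h2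
      push_cast at h2 ⊢
      exact h2
    have hlogn : 0 < Real.log n := Real.log_pos (by exact_mod_cast hn.one_lt)
    have h3 : Real.log n ≤ ((Nat.log p n + 1 : ℕ) : ℝ) * Real.log p := by
      have h4 : n < p ^ (Nat.log p n + 1) := Nat.lt_pow_succ_log_self hp.one_lt n
      have h5 : (n : ℝ) ≤ (p : ℝ) ^ (Nat.log p n + 1) := by exact_mod_cast h4.le
      have h6 := Real.log_le_log (by exact_mod_cast hn.pos) h5
      rwa [Real.log_pow] at h6
    rw [div_mul_eq_mul_div, le_div_iff₀ hlogn]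
    have h7 : (0 : ℝ) ≤ A.card := Nat.cast_nonneg _
    have h8 : (0 : ℝ) ≤ Real.log p := Real.log_nonneg (by exact_mod_cast hp.one_lt.le)
    calc (A.card : ℝ) * Real.log n ≤ A.card * (((Nat.log p n + 1 : ℕ) : ℝ) * Real.log p) := mul_le_mul_of_nonneg_left h3 h7
      _ = ((Nat.log p n + 1 : ℕ) : ℝ) * A.card * Real.log p := by ring
      _ ≤ 2 * ((n : ℝ) - 1) * Real.log p := mul_le_mul_of_nonneg_right h1 h8
  · intro s t h e
    have h1 : ∀ x, ps n K (s - t) 1 ∈ P x := by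
      intro x
      obtain ⟨a, ha, i, hi, rfl⟩ := hA2 x
      have h2 := h a ha
      rw [← dpi_sub] at h2
      have h3 := dpi_frob_pow hp (hP1 a).1 (hP1 a).2 (s - t) h2 i
      refine (hP2 a (a * g ^ i) (s - t) (p ^ i) 1 ?_).1 h3
      push_cast
      rw [hg]
      ring
    have h4 := dpi_dvd hn2 hp (s - t) (hP3 _ h1) e
    rwa [Pi.sub_apply] at h4

/-- `dp_inj` for all primes at once -/
theorem dp_data (n : ℕ) [Fact n.Prime] (hn2 : n ≠ 2) (K : Type) [Field K] [NumberField K] [IsCyclotomicExtension {n} ℚ K] :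
    ∃ (A : ℕ → Finset (ZMod n)ˣ) (P : ℕ → (ZMod n)ˣ → Ideal (𝓞 K)), ∀ p : ℕ, p.Prime → p ≠ n →
      ((A p).card : ℝ) ≤ 2 * ((n : ℝ) - 1) / Real.log n * Real.log p ∧
      (∀ a, (P p a).IsMaximal ∧ (p : 𝓞 K) ∈ P p a) ∧
      ∀ s t : H n → ℤ, (∀ a ∈ A p, ps n K s 1 - ps n K t 1 ∈ P p a) → ∀ e, (p : ℤ) ∣ s e - t e := by
  classical
  have h : ∀ p : ℕ, ∃ AP : Finset (ZMod n)ˣ × ((ZMod n)ˣ → Ideal (𝓞 K)), p.Prime → p ≠ n →
      (AP.1.card : ℝ) ≤ 2 * ((n : ℝ) - 1) / Real.log n * Real.log p ∧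
      (∀ a, (AP.2 a).IsMaximal ∧ (p : 𝓞 K) ∈ AP.2 a) ∧
      ∀ s t : H n → ℤ, (∀ a ∈ AP.1, ps n K s 1 - ps n K t 1 ∈ AP.2 a) → ∀ e, (p : ℤ) ∣ s e - t e := by
    intro p
    by_cases hp : p.Prime ∧ p ≠ n
    · obtain ⟨A, P, h1, h2, h3⟩ := dp_inj n hn2 K hp.1 hp.2
      exact ⟨(A, P), fun _ _ => ⟨h1, h2, h3⟩⟩
    · exact ⟨(∅, fun _ => ⊥), fun h1 h2 => absurd ⟨h1, h2⟩ hp⟩
  choose AP hAP using h
  exact ⟨fun p => (AP p).1, fun p => (AP p).2, hAP⟩

/-- congruence of `ps u 1` modulo an ideal -/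
theorem dp_equiv {n : ℕ} [Fact n.Prime] {K : Type} [Field K] [NumberField K] [IsCyclotomicExtension {n} ℚ K] (P : Ideal (𝓞 K)) :
    Equivalence (fun u u' : H n → ℤ => ps n K u 1 - ps n K u' 1 ∈ P) where
  refl u := by
    rw [sub_self]
    exact P.zero_mem
  symm {u u'} h := by
    rw [← neg_sub]
    exact P.neg_mem h
  trans {u u' u''} h h' := by
    have h1 := P.add_mem h h'
    rwa [sub_add_sub_cancel] at h1

end Pool.Agent.NLS
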