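import Mathlib

/-!
# NLS-DpVan: the confluent Vandermonde matrix over a field

Rows `(l, i)`, `i < D`: `(choose j i) t_l ^ (j - i)`, `j < L D`. If the vector `c` is killed by all rows, the polynomial `∑ c_j X ^ j` of degree
`< L D` has vanishing Hasse derivatives of the orders `< D` at the `L` distinct points `t_l`, so it is divisible by `∏ (X - t_l) ^ D`.
-/

open Polynomial

namespace Pool.Agent.NLS

theorem dp_van {k : Type*} [Field k] (L D : ℕ) (t : Fin L → k) (ht : Function.Injective t) :
    (Matrix.of fun r j : Fin (L * D) => ((j : ℕ).choose (r.modNat : ℕ) : k) * t r.divNat ^ ((j : ℕ) - (r.modNat : ℕ))).det ≠ 0 := by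
  intro h0
  obtain ⟨c, hc0, hc⟩ := Matrix.exists_mulVec_eq_zero_iff.2 h0
  apply hc0
  set F : k[X] := ∑ j : Fin (L * D), C (c j) * X ^ (j : ℕ) with hF
  have hev : ∀ (l : Fin L) (i : Fin D), (hasseDeriv (i : ℕ) F).eval (t l) = 0 := by
    intro l i
    have h1 := congrFun hc (finProdFinEquiv (l, i))
    have h2 : (finProdFinEquiv (l, i)).divNat = l := by
      have := congrArg Prod.fst (finProdFinEquiv.symm_apply_apply (l, i))
      exact this
    have h3 : (finProdFinEquiv (l, i)).modNat = i := by
      have := congrArg Prod.snd (finProdFinEquiv.symm_apply_apply (l, i))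
      exact this
    rw [Matrix.mulVec, dotProduct] at h1
    simp only [Matrix.of_apply, h2, h3, Pi.zero_apply] at h1
    rw [hF, map_sum, eval_finsetSum, ← h1]
    refine Finset.sum_congr rfl fun j _ => ?_
    rw [C_mul_X_pow_eq_monomial, hasseDeriv_monomial, eval_monomial]
    ring
  have hdeg : F.degree < ((L * D : ℕ) : WithBot ℕ) := by
    rw [hF]
    refine (degree_sum_le _ _).trans_lt ?_
    rw [Finset.sup_lt_iff (WithBot.bot_lt_coe _)]
    intro j _
    refine (degree_C_mul_X_pow_le _ _).trans_lt ?_
    exact_mod_cast j.2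
  have hdvd : ∏ l : Fin L, (X - C (t l)) ^ D ∣ F := by
    refine Finset.prod_dvd_of_coprime ?_ fun l _ => ?_
    · intro a _ b _ hab
      exact (pairwise_coprime_X_sub_C ht hab).pow
    · rw [X_sub_C_pow_dvd_iff, X_pow_dvd_iff]
      intro i hi
      have h1 := hev l ⟨i, hi⟩
      rw [← taylor_coeff, taylor_apply] at h1
      exact h1
  have hF0 : F = 0 := by
    by_contra hne
    have h1 := degree_le_of_dvd hdvd hne
    rw [degree_prod] at h1
    simp only [degree_pow, degree_X_sub_C, Finset.sum_const, Finset.card_univ, Fintype.card_fin] at h1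
    rw [nsmul_eq_mul, nsmul_eq_mul, mul_one] at h1
    have h2 := h1.trans_lt hdeg
    norm_cast at h2
    exact lt_irrefl _ h2
  funext j
  have h1 := congrArg (fun G : k[X] => G.coeff (j : ℕ)) hF0
  simp only [hF, finsetSum_coeff, coeff_C_mul_X_pow, coeff_zero] at h1
  rw [Finset.sum_eq_single j] at h1
  · simpa using h1
  · intro b _ hb
    rw [if_neg]
    intro h
    exact hb (Fin.ext h.symm)
  · intro h
    exact absurd (Finset.mem_univ j) h

end Pool.Agent.NLS
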