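import Pool.Agent.NLS.DpDefs
import Pool.Agent.NLS.DpVan

/-!
# NLS-DpLoc: zero estimate for `L` functions with polynomial coefficients: one residue class

`v_l = w + d u_l`, `d p ∣ q`, `P` a prime over `p`: if the residues of `ps (u_l) 1` modulo `P` are distinct, the determinant of the
coefficients of `z ^ j`, `j < L D`, in `z ^ i f_(v_l)`, `l < L`, `i < D`, is not zero, for every `D`.

`f_v = f_w g_u`, `g_u` the function of `u` for the exponent `e = q / d`; multiplication by `f_w` is unipotent; the rows of `g_u`, multiplied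
by `e ^ j j!` and divided by `e ^ i i!`, are modulo `P` the rows of the confluent Vandermonde matrix.
-/

open NumberField Finset
open Pool.Agent.AAP Pool.Agent.Helper7.HU

namespace Pool.Agent.NLS

variable {n : ℕ} [Fact n.Prime] {K : Type} [Field K] [NumberField K] [IsCyclotomicExtension {n} ℚ K]

private theorem dpl_ps {v w u : H n → ℤ} {d : ℕ} (hv : ∀ e, v e = w e + d * u e) (i : ℕ) :
    ps n K v i = ps n K w i + (d : 𝓞 K) * ps n K u i := by
  unfold ps
  rw [Finset.mul_sum, ← Finset.sum_add_distrib]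
  refine Finset.sum_congr rfl fun e _ => ?_
  rw [hv]
  push_cast
  ring

private theorem dpl_mul {v w u : H n → ℤ} {d e : ℕ} (hd : d ≠ 0) (he : e ≠ 0) (hv : ∀ e, v e = w e + d * u e) (j : ℕ) :
    Pj n K (d * e) v j = ∑ p ∈ antidiagonal j, Pj n K (d * e) w p.1 * Pj n K e u p.2 := by
  have hd' : (d : K) ≠ 0 := Nat.cast_ne_zero.2 hd
  have he' : (e : K) ≠ 0 := Nat.cast_ne_zero.2 he
  unfold Pj
  rw [← ex_add]
  refine congrFun (congrArg ex (funext fun i => ?_)) j
  have h1 : ((ps n K v i : 𝓞 K) : K) = ((ps n K w i : 𝓞 K) : K) + (d : K) * ((ps n K u i : 𝓞 K) : K) := by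
    have h2 := congrArg (algebraMap (𝓞 K) K) (dpl_ps (K := K) hv i)
    rw [map_add, map_mul, map_natCast] at h2
    exact h2
  rw [h1]
  push_cast
  field_simp
  ring

/-- multiplication by the series with the coefficients `f` -/
private noncomputable def dpT (N : ℕ) (f : ℕ → K) : Matrix (Fin N) (Fin N) K :=
  Matrix.of fun a j => if (a : ℕ) ≤ (j : ℕ) then f ((j : ℕ) - (a : ℕ)) else 0

omit [NumberField K] in
private theorem dpl_detT (N : ℕ) (f : ℕ → K) (hf : f 0 = 1) : (dpT N f).det = 1 := by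
  have h1 : (dpT N f).BlockTriangular id := by
    intro a j haj
    unfold dpT
    have h2 : ¬ (a : ℕ) ≤ (j : ℕ) := not_le.2 haj
    rw [Matrix.of_apply, if_neg h2]
  rw [Matrix.det_of_isUpperTriangular h1]
  refine Finset.prod_eq_one fun i _ => ?_
  unfold dpT
  rw [Matrix.of_apply, if_pos le_rfl, Nat.sub_self, hf]

omit [NumberField K] in
private theorem dpl_conv {f g : ℕ → K} {N i : ℕ} (j : Fin N) :
    (if i ≤ (j : ℕ) then ∑ p ∈ antidiagonal ((j : ℕ) - i), f p.1 * g p.2 else 0) =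
      ∑ a : Fin N, (if i ≤ (a : ℕ) then g ((a : ℕ) - i) else 0) * dpT N f a j := by
  unfold dpT
  simp only [Matrix.of_apply]
  rw [Fin.sum_univ_eq_sum_range (fun a => (if i ≤ a then g (a - i) else 0) * if a ≤ (j : ℕ) then f ((j : ℕ) - a) else 0) N]
  split_ifs with hij
  · rw [Finset.Nat.sum_antidiagonal_eq_sum_range_succ_mk]
    rw [← Finset.sum_range_reflect]
    have h1 : ∀ a ∈ range N, a ∉ (range ((j : ℕ) - i + 1)).image (fun b => b + i) →
        ((if i ≤ a then g (a - i) else 0) * if a ≤ (j : ℕ) then f ((j : ℕ) - a) else 0) = 0 := by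
      intro a ha ha'
      rw [mem_image] at ha'
      push Not at ha'
      by_cases h2 : i ≤ a
      · have h3 : ¬ a ≤ (j : ℕ) := by
          intro h3
          exact ha' (a - i) (mem_range.2 (by omega)) (by omega)
        rw [if_neg h3, mul_zero]
      · rw [if_neg h2, zero_mul]
    have h2 : (range ((j : ℕ) - i + 1)).image (fun b => b + i) ⊆ range N := by
      intro a ha
      rw [mem_image] at ha
      obtain ⟨b, hb, rfl⟩ := ha
      rw [mem_range] at hb ⊢
      have := j.2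
      omega
    rw [← Finset.sum_subset h2 h1, Finset.sum_image (fun a _ b _ h => by omega)]
    refine Finset.sum_congr rfl fun b hb => ?_
    rw [mem_range] at hb
    rw [if_pos (by omega), if_pos (by omega), mul_comm]
    congr 2 <;> omega
  · symm
    refine Finset.sum_eq_zero fun a _ => ?_
    by_cases h2 : i ≤ a
    · rw [if_neg (show ¬ a ≤ (j : ℕ) by omega), mul_zero]
    · rw [if_neg h2, zero_mul]

variable (n K) in
/-- the integral matrix -/
private noncomputable def dpC (e L D : ℕ) (u : Fin L → (H n → ℤ)) : Matrix (Fin (L * D)) (Fin (L * D)) (𝓞 K) :=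
  Matrix.of fun r j => (((j : ℕ).choose (r.modNat : ℕ) : ℕ) : 𝓞 K) * Qj n K e (u r.divNat) ((j : ℕ) - (r.modNat : ℕ))

private theorem dpC_apply (e L D : ℕ) (u : Fin L → (H n → ℤ)) (r j : Fin (L * D)) : dpC n K e L D u r j =
    (((j : ℕ).choose (r.modNat : ℕ) : ℕ) : 𝓞 K) * Qj n K e (u r.divNat) ((j : ℕ) - (r.modNat : ℕ)) := rfl

private theorem dpl_glob {e p : ℕ} (he : e ≠ 0) (hpe : p ∣ e) {P : Ideal (𝓞 K)} (hP : P.IsMaximal) (hpP : (p : 𝓞 K) ∈ P) (L D : ℕ)
    (u : Fin L → (H n → ℤ)) (hu : ∀ l l', l ≠ l' → ps n K (u l) 1 - ps n K (u l') 1 ∉ P) :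
    (Matrix.of fun r j : Fin (L * D) => Pz n K e (u r.divNat, (r.modNat : ℕ)) (j : ℕ)).det ≠ 0 := by
  have he' : (e : K) ≠ 0 := Nat.cast_ne_zero.2 he
  have heP : (e : 𝓞 K) ∈ P := by
    obtain ⟨c, rfl⟩ := hpe
    push_cast
    exact Ideal.mul_mem_right _ _ hpP
  have hspan : Ideal.span {(e : 𝓞 K)} ≤ P := (Ideal.span_singleton_le_iff_mem P).2 heP
  have hC' : (dpC n K e L D u).det ≠ 0 := by
    intro h0
    let _ : Field (𝓞 K ⧸ P) := Ideal.Quotient.field P
    have h1 : (Ideal.Quotient.mk P).mapMatrix (dpC n K e L D u) = Matrix.of fun r j : Fin (L * D) =>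
        (((j : ℕ).choose (r.modNat : ℕ) : ℕ) : 𝓞 K ⧸ P) *
          (-(Ideal.Quotient.mk P (ps n K (u r.divNat) 1))) ^ ((j : ℕ) - (r.modNat : ℕ)) := by
      ext r j
      rw [RingHom.mapMatrix_apply, Matrix.map_apply, dpC_apply, Matrix.of_apply, map_mul, map_natCast]
      congr 1
      rw [← map_neg, ← map_pow, Ideal.Quotient.eq]
      exact hspan (Qj_congr _ _)
    have h2 := congrArg (Ideal.Quotient.mk P) h0
    rw [map_zero, RingHom.map_det, h1] at h2
    refine dp_van L D (fun l => -(Ideal.Quotient.mk P (ps n K (u l) 1))) ?_ h2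
    intro l l' hll
    by_contra hne
    have h3 := neg_injective hll
    rw [Ideal.Quotient.eq] at h3
    exact hu l l' hne h3
  intro hB
  apply hC'
  have hmat : (Matrix.of fun r j : Fin (L * D) => Pz n K e (u r.divNat, (r.modNat : ℕ)) (j : ℕ)) *
      Matrix.diagonal (fun j : Fin (L * D) => (e : K) ^ (j : ℕ) * ((j : ℕ).factorial : K)) =
      Matrix.diagonal (fun r : Fin (L * D) => (e : K) ^ (r.modNat : ℕ) * ((r.modNat : ℕ).factorial : K)) *
        (algebraMap (𝓞 K) K).mapMatrix (dpC n K e L D u) := by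
    ext r j
    rw [Matrix.mul_diagonal, Matrix.diagonal_mul, RingHom.mapMatrix_apply, Matrix.map_apply, dpC_apply, Matrix.of_apply,
      map_mul, map_natCast]
    unfold Pz
    simp only
    have h5 := coe_Qj (K := K) he (u r.divNat) ((j : ℕ) - (r.modNat : ℕ))
    change algebraMap (𝓞 K) K _ = _ at h5
    rw [h5]
    by_cases hij : (r.modNat : ℕ) ≤ (j : ℕ)
    · rw [if_pos hij]
      have h6 : (((j : ℕ).factorial : ℕ) : K) = (((j : ℕ).choose (r.modNat : ℕ) : ℕ) : K) * ((r.modNat : ℕ).factorial : K) *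
          (((j : ℕ) - (r.modNat : ℕ)).factorial : K) := by
        exact_mod_cast (Nat.choose_mul_factorial_mul_factorial hij).symm
      have h7 : (e : K) ^ (j : ℕ) = (e : K) ^ (r.modNat : ℕ) * (e : K) ^ ((j : ℕ) - (r.modNat : ℕ)) := by
        rw [← pow_add, Nat.add_sub_cancel' hij]
      rw [h6, h7]
      ring
    · rw [if_neg hij, Nat.choose_eq_zero_of_lt (not_le.1 hij)]
      simp
  have h8 := congrArg Matrix.det hmat
  rw [Matrix.det_mul, Matrix.det_mul, hB, zero_mul, Matrix.det_diagonal, ← RingHom.map_det] at h8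
  have h9 : ∏ r : Fin (L * D), ((e : K) ^ (r.modNat : ℕ) * ((r.modNat : ℕ).factorial : K)) ≠ 0 :=
    Finset.prod_ne_zero_iff.2 fun r _ => mul_ne_zero (pow_ne_zero _ he') (Nat.cast_ne_zero.2 (Nat.factorial_ne_zero _))
  have h10 := (mul_eq_zero.1 h8.symm).resolve_left h9
  exact (map_eq_zero_iff _ (FaithfulSMul.algebraMap_injective (𝓞 K) K)).1 h10

theorem dp_loc {q d p : ℕ} (hq : q ≠ 0) (hdp : d * p ∣ q) {P : Ideal (𝓞 K)} (hP : P.IsMaximal) (hpP : (p : 𝓞 K) ∈ P) (L D : ℕ)
    (v : Fin L → (H n → ℤ)) (w : H n → ℤ) (u : Fin L → (H n → ℤ)) (hv : ∀ l, ∀ e, v l e = w e + d * u l e)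
    (hu : ∀ l l', l ≠ l' → ps n K (u l) 1 - ps n K (u l') 1 ∉ P) :
    (Matrix.of fun r j : Fin (L * D) => Pz n K q (v r.divNat, (r.modNat : ℕ)) (j : ℕ)).det ≠ 0 := by
  obtain ⟨c, rfl⟩ := hdp
  have hd : d ≠ 0 := by rintro rfl; simp at hq
  have he : p * c ≠ 0 := by
    intro h
    rw [mul_assoc, h, mul_zero] at hq
    exact hq rfl
  rw [mul_assoc]
  have h1 : (Matrix.of fun r j : Fin (L * D) => Pz n K (d * (p * c)) (v r.divNat, (r.modNat : ℕ)) (j : ℕ)) =
      (Matrix.of fun r j : Fin (L * D) => Pz n K (p * c) (u r.divNat, (r.modNat : ℕ)) (j : ℕ)) *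
        dpT (L * D) (fun i => Pj n K (d * (p * c)) w i) := by
    ext r j
    rw [Matrix.mul_apply, Matrix.of_apply]
    unfold Pz
    simp only [Matrix.of_apply]
    rw [← dpl_conv]
    split_ifs with hij
    · exact dpl_mul hd he (hv _) _
    · rfl
  rw [h1, Matrix.det_mul, dpl_detT _ _ (Pj_zero _), mul_one]
  exact dpl_glob he (Dvd.intro _ rfl) hP hpP L D u hu

end Pool.Agent.NLS
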