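import Mathlib

/-!
# NLS-DpTree: pigeonhole along a chain of divisors

`X` is a finite set of integral vectors which differ by at most `r < M`. For the primes `p` dividing `M` there are equivalence
relations `R p a`, `a ∈ A p`, which together determine a vector modulo `p`. If `X` is large then there are `d p ∣ M`, `w ∈ X`
and `N + 1` elements `w + d u` of `X` with inequivalent `u` for one `R p a`.
-/

open Finset

namespace Pool.Agent.NLS

private def dptCls {ι : Type} [Fintype ι] (X : Finset (ι → ℤ)) (w : ι → ℤ) (d : ℕ) :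
    Finset (ι → ℤ) :=
  open Classical in X.filter (fun v => ∀ e, (d : ℤ) ∣ v e - w e)

private theorem dpt_mem {ι : Type} [Fintype ι] {X : Finset (ι → ℤ)} {w v : ι → ℤ} {d : ℕ} :
    v ∈ dptCls X w d ↔ v ∈ X ∧ ∀ e, (d : ℤ) ∣ v e - w e := by
  unfold dptCls
  rw [mem_filter]

private theorem dpt_one {ι : Type} [Fintype ι] {X : Finset (ι → ℤ)} {r : ℕ}
    (hX : ∀ s ∈ X, ∀ t ∈ X, ∀ e, |s e - t e| ≤ (r : ℤ)) {d : ℕ} (hd : r < d) (w : ι → ℤ) :
    (dptCls X w d).card ≤ 1 := by
  rw [card_le_one]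
  intro v hv v' hv'
  rw [dpt_mem] at hv hv'
  funext e
  have h1 : (d : ℤ) ∣ v e - v' e := by
    have := dvd_sub (hv.2 e) (hv'.2 e)
    have e1 : v e - w e - (v' e - w e) = v e - v' e := by ring
    rwa [e1] at this
  have h2 := hX v hv.1 v' hv'.1 e
  have h3 : |v e - v' e| < (d : ℤ) := lt_of_le_of_lt h2 (by exact_mod_cast hd)
  have h4 := Int.eq_zero_of_abs_lt_dvd h1 h3
  linarith

/-- the quotient vector -/
private def dptU {ι : Type} (w : ι → ℤ) (d : ℕ) (v : ι → ℤ) : ι → ℤ := fun e => (v e - w e) / d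

private theorem dptU_spec {ι : Type} [Fintype ι] {X : Finset (ι → ℤ)} {w v : ι → ℤ} {d : ℕ}
    (hv : v ∈ dptCls X w d) : w + (d : ℤ) • dptU w d v = v := by
  rw [dpt_mem] at hv
  funext e
  simp only [Pi.add_apply, Pi.smul_apply, smul_eq_mul, dptU]
  rw [Int.mul_ediv_cancel' (hv.2 e)]
  ring

/-- one splitting step -/
private theorem dpt_split {ι α T : Type} [Fintype ι] (X : Finset (ι → ℤ)) {N : ℕ}
    (A : Finset α) (φ : α → (ι → ℤ) → T) {p d : ℕ} (w : ι → ℤ)
    (hφ : ∀ u u' : ι → ℤ, (∀ a ∈ A, φ a u = φ a u') → ∀ e, (p : ℤ) ∣ u e - u' e)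
    (himg : ∀ a ∈ A, ((open Classical in (dptCls X w d).image (fun v => φ a (dptU w d v))).card) ≤ N)
    {b : ℕ} (hb : ∀ v ∈ X, (dptCls X v (d * p)).card ≤ b) :
    (dptCls X w d).card ≤ b * N ^ A.card := by
  classical
  let Ψ : (ι → ℤ) → (∀ a ∈ A, T) := fun v a _ => φ a (dptU w d v)
  have h1 : (dptCls X w d).card ≤ b * ((dptCls X w d).image Ψ).card := by
    refine Finset.card_le_mul_card_image _ b ?_
    intro z hz
    obtain ⟨v, hv, rfl⟩ := mem_image.1 hz
    refine le_trans (card_le_card ?_) (hb v (dpt_mem.1 hv).1)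
    intro v' hv'
    rw [mem_filter] at hv'
    obtain ⟨hv'1, hv'2⟩ := hv'
    rw [dpt_mem]
    refine ⟨(dpt_mem.1 hv'1).1, fun e => ?_⟩
    have h2 : ∀ a ∈ A, φ a (dptU w d v') = φ a (dptU w d v) := by
      intro a ha
      exact congrFun (congrFun hv'2 a) ha
    obtain ⟨c, hc⟩ := hφ _ _ h2 e
    have h3 := congrFun (dptU_spec hv'1) e
    have h4 := congrFun (dptU_spec hv) e
    simp only [Pi.add_apply, Pi.smul_apply, smul_eq_mul] at h3 h4
    refine ⟨c, ?_⟩
    push_cast
    have h5 : v' e - v e = (d : ℤ) * (dptU w d v' e - dptU w d v e) := by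
      linear_combination h4 - h3
    rw [h5, hc]
    ring
  have h2 : ((dptCls X w d).image Ψ).card ≤ N ^ A.card := by
    have h3 : (dptCls X w d).image Ψ ⊆
        A.pi (fun a => (dptCls X w d).image (fun v => φ a (dptU w d v))) := by
      intro z hz
      obtain ⟨v, hv, rfl⟩ := mem_image.1 hz
      rw [Finset.mem_pi]
      intro a ha
      exact mem_image_of_mem (fun v => φ a (dptU w d v)) hv
    refine (card_le_card h3).trans ?_
    rw [Finset.card_pi]
    refine (Finset.prod_le_prod' (fun a ha => himg a ha)).trans ?_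
    rw [prod_const]
  exact h1.trans (Nat.mul_le_mul_left b h2)

private theorem dp_tree_aux {ι α T : Type} [Fintype ι] (X : Finset (ι → ℤ)) {r M N : ℕ}
    (hr : 1 ≤ r) (hrM : r < M) (hX : ∀ s ∈ X, ∀ t ∈ X, ∀ e, |s e - t e| ≤ (r : ℤ)) (hN : 1 ≤ N)
    {c L : ℝ} (hc : 0 ≤ c) (A : ℕ → Finset α) (φ : ℕ → α → (ι → ℤ) → T)
    (hA : ∀ p : ℕ, p.Prime → p ∣ M → ((A p).card : ℝ) ≤ c * Real.log p)
    (hL : ∀ p : ℕ, p.Prime → p ∣ M → (p : ℝ) ≤ L)
    (hφ : ∀ p : ℕ, p.Prime → p ∣ M → ∀ u u' : ι → ℤ, (∀ a ∈ A p, φ p a u = φ p a u') →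
      ∀ e, (p : ℤ) ∣ u e - u' e)
    (himg : ∀ d p : ℕ, p.Prime → d * p ∣ M → ∀ w ∈ X, ∀ a ∈ A p,
      ((open Classical in (dptCls X w d).image (fun v => φ p a (dptU w d v))).card) ≤ N)
    (k : ℕ) : ∀ d : ℕ, d ∣ M → d ≤ r → M / d = k → ∀ w ∈ X,
      ((dptCls X w d).card : ℝ) ≤ (N : ℝ) ^ (c * (Real.log r + Real.log L - Real.log d)) := by
  induction k using Nat.strong_induction_on with
  | _ k ih =>
    intro d hdM hdr hk w hw
    have hM0 : 0 < M := by omega
    have hd0 : 0 < d := Nat.pos_of_dvd_of_pos hdM hM0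
    have hNR : (1 : ℝ) ≤ (N : ℝ) := by exact_mod_cast hN
    have hNpos : (0 : ℝ) < (N : ℝ) := by linarith
    have hMd : M / d ≠ 1 := by
      intro h
      have := Nat.div_mul_cancel hdM
      rw [h] at this
      omega
    obtain ⟨p, hp, hpd⟩ := Nat.exists_prime_and_dvd hMd
    have hdpM : d * p ∣ M := by
      obtain ⟨z, hz⟩ := hpd
      refine ⟨z, ?_⟩
      have := Nat.div_mul_cancel hdM
      rw [hz] at this
      rw [← this]; ring
    have hpM : p ∣ M := (dvd_mul_left p d).trans hdpM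
    have hp1 : (1 : ℝ) ≤ (p : ℝ) := by exact_mod_cast hp.one_lt.le
    have hp0 : (0 : ℝ) < (p : ℝ) := by linarith
    have hd0R : (0 : ℝ) < (d : ℝ) := by exact_mod_cast hd0
    have hlogd : Real.log d ≤ Real.log r :=
      Real.log_le_log hd0R (by exact_mod_cast hdr)
    have hpL := hL p hp hpM
    have hlogp : Real.log p ≤ Real.log L := Real.log_le_log hp0 hpL
    have hNA : (N : ℝ) ^ ((A p).card) ≤ (N : ℝ) ^ (c * Real.log p) := by
      rw [← Real.rpow_natCast]
      exact Real.rpow_le_rpow_of_exponent_le hNR (hA p hp hpM)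
    rcases le_or_gt (d * p) r with hdp | hdp
    · -- the next level
      have hlt : M / (d * p) < k := by
        rw [← hk, ← Nat.div_div_eq_div_mul]
        refine Nat.div_lt_self ?_ hp.one_lt
        exact Nat.div_pos (Nat.le_of_dvd hM0 hdM) hd0
      have h1 := ih _ hlt (d * p) hdpM hdp rfl
      have hb : ∀ v ∈ X, (dptCls X v (d * p)).card ≤
          ⌊(N : ℝ) ^ (c * (Real.log r + Real.log L - Real.log ((d * p : ℕ) : ℝ)))⌋₊ :=
        fun v hv => Nat.le_floor (h1 v hv)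
      have h2 := dpt_split X (A p) (φ p) w (hφ p hp hpM) (himg d p hp hdpM w hw) hb
      have h3 : ((dptCls X w d).card : ℝ) ≤
          (N : ℝ) ^ (c * (Real.log r + Real.log L - Real.log ((d * p : ℕ) : ℝ))) *
            (N : ℝ) ^ ((A p).card) := by
        have h4 : ((dptCls X w d).card : ℝ) ≤
            ((⌊(N : ℝ) ^ (c * (Real.log r + Real.log L -
              Real.log ((d * p : ℕ) : ℝ)))⌋₊ * N ^ (A p).card : ℕ) : ℝ) := by exact_mod_cast h2
        refine h4.trans ?_
        push_cast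
        refine mul_le_mul_of_nonneg_right ?_ (by positivity)
        have := Nat.floor_le (Real.rpow_nonneg hNpos.le
          (c * (Real.log r + Real.log L - Real.log ((d * p : ℕ) : ℝ))))
        push_cast at this
        exact this
      refine h3.trans ?_
      refine (mul_le_mul_of_nonneg_left hNA (by positivity)).trans (le_of_eq ?_)
      rw [← Real.rpow_add hNpos]
      congr 1
      push_cast
      rw [Real.log_mul hd0R.ne' hp0.ne']
      ring
    · have hb : ∀ v ∈ X, (dptCls X v (d * p)).card ≤ 1 := fun v _ => dpt_one hX hdp v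
      have h2 := dpt_split X (A p) (φ p) w (hφ p hp hpM) (himg d p hp hdpM w hw) hb
      rw [one_mul] at h2
      have h3 : ((dptCls X w d).card : ℝ) ≤ (N : ℝ) ^ ((A p).card) := by exact_mod_cast h2
      refine h3.trans (hNA.trans ?_)
      refine Real.rpow_le_rpow_of_exponent_le hNR ?_
      refine mul_le_mul_of_nonneg_left ?_ hc
      linarith

/-- pigeonhole along a chain of divisors of `M` -/
theorem dp_tree {ι α : Type} [Fintype ι] (X : Finset (ι → ℤ)) {r M N : ℕ} (hr : 1 ≤ r)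
    (hrM : r < M) (hX : ∀ s ∈ X, ∀ t ∈ X, ∀ e, |s e - t e| ≤ (r : ℤ)) (hN : 1 ≤ N) {c L : ℝ}
    (hc : 0 ≤ c) (A : ℕ → Finset α) (R : ℕ → α → (ι → ℤ) → (ι → ℤ) → Prop)
    (hA : ∀ p : ℕ, p.Prime → p ∣ M → ((A p).card : ℝ) ≤ c * Real.log p)
    (hL : ∀ p : ℕ, p.Prime → p ∣ M → (p : ℝ) ≤ L)
    (hR : ∀ (p : ℕ) (a : α), Equivalence (R p a))
    (hdvd : ∀ p : ℕ, p.Prime → p ∣ M → ∀ u u' : ι → ℤ, (∀ a ∈ A p, R p a u u') →
      ∀ e, (p : ℤ) ∣ u e - u' e)
    (hcard : (N : ℝ) ^ (c * (Real.log r + Real.log L)) < (X.card : ℝ)) :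
    ∃ d p : ℕ, p.Prime ∧ d * p ∣ M ∧ ∃ w ∈ X, ∃ a ∈ A p, ∃ u : Fin (N + 1) → (ι → ℤ),
      (∀ i, w + (d : ℤ) • u i ∈ X) ∧ ∀ i j, R p a (u i) (u j) → i = j := by
  classical
  by_contra hcon
  push Not at hcon
  obtain ⟨φ, hφ⟩ : ∃ φ : ℕ → α → (ι → ℤ) → Set (ι → ℤ), ∀ p a u u', φ p a u = φ p a u' ↔
      R p a u u' := by
    refine ⟨fun p a u => {z | R p a z u}, fun p a u u' => ?_⟩
    constructor
    · intro h
      have h1 : u ∈ {z | R p a z u} := (hR p a).refl u
      have h' : {z | R p a z u} = {z | R p a z u'} := h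
      have h2 : u ∈ {z | R p a z u'} := by rw [← h']; exact h1
      exact h2
    · intro h
      refine Set.Subset.antisymm (fun z hz => ?_) (fun z hz => ?_)
      · exact (hR p a).trans hz h
      · exact (hR p a).trans hz ((hR p a).symm h)
  have himg : ∀ d p : ℕ, p.Prime → d * p ∣ M → ∀ w ∈ X, ∀ a ∈ A p,
      ((open Classical in (dptCls X w d).image (fun v => φ p a (dptU w d v))).card) ≤ N := by
    intro d p hp hdp w hw a ha
    by_contra hlt
    push Not at hlt
    obtain ⟨Z, hZ1, hZ2⟩ := Finset.exists_subset_card_eq (Nat.succ_le_of_lt hlt)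
    have e : Fin (N + 1) ≃ Z := by
      refine (Fintype.equivFinOfCardEq ?_).symm
      rw [Fintype.card_coe, hZ2]
    have hpre : ∀ i : Fin (N + 1), ∃ v ∈ dptCls X w d,
        φ p a (dptU w d v) = ((e i : Z) : Set (ι → ℤ)) := by
      intro i
      exact mem_image.1 (hZ1 (e i).2)
    choose v hv hv2 using hpre
    obtain ⟨i, j, hij, hne⟩ := hcon d p hp hdp w hw a ha (fun i => dptU w d (v i))
      (fun i => by
        rw [dptU_spec (hv i)]
        exact (dpt_mem.1 (hv i)).1)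
    apply hne
    have h1 := (hφ p a _ _).2 hij
    rw [hv2, hv2] at h1
    exact e.injective (Subtype.ext h1)
  have hXne : X.Nonempty := by
    rw [← card_pos]
    have h1 : (0 : ℝ) < (X.card : ℝ) := lt_of_le_of_lt (by positivity) hcard
    exact_mod_cast h1
  obtain ⟨w, hw⟩ := hXne
  have h := dp_tree_aux X hr hrM hX hN hc A φ hA hL
    (fun p hp hpM u u' h e => hdvd p hp hpM u u' (fun a ha => (hφ p a _ _).1 (h a ha)) e)
    himg (M / 1) 1 (one_dvd M) hr rfl w hw
  have h1 : dptCls X w 1 = X := by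
    ext v
    rw [dpt_mem]
    simp
  rw [h1] at h
  simp only [Nat.cast_one, Real.log_one, sub_zero] at h
  linarith

end Pool.Agent.NLS
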