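import Pool.Agent.NLS.DpLoc
import Pool.Agent.NLS.DpInj
import Pool.Agent.NLS.DpTree

/-!
# NLS-DpZer: zero estimate for `L + 1` functions with polynomial coefficients, any exponent `q` not divisible by `n`

`X` with differences `≤ r < q` and more than `L ^ (8 m)` elements, `m = (n - 1) / 2`, `r ≤ n`, all primes of `q` at most `n`.
-/

open NumberField Finset
open Pool.Agent.AAP Pool.Agent.Helper7.HU

namespace Pool.Agent.NLS

theorem dp_zer {n : ℕ} [Fact n.Prime] (hn2 : n ≠ 2) {q r L : ℕ} {B : ℝ} (hr : 1 ≤ r) (hrq : r < q) (hnq : ¬ n ∣ q) (hL : 1 ≤ L)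
    (hB : ∀ p : ℕ, p.Prime → p ∣ q → (p : ℝ) ≤ B) {K : Type} [Field K] [NumberField K] [IsCyclotomicExtension {n} ℚ K]
    (X : Finset (H n → ℤ)) (hX : ∀ s ∈ X, ∀ t ∈ X, ∀ e, |s e - t e| ≤ r)
    (hcard : (L : ℝ) ^ (2 * ((n : ℝ) - 1) / Real.log n * (Real.log r + Real.log B)) < (X.card : ℝ)) :
    ∃ v : Fin (L + 1) → (H n → ℤ), (∀ l, v l ∈ X) ∧ ∀ D : ℕ,
      (Matrix.of fun r j : Fin ((L + 1) * D) => Pz n K q (v r.divNat, (r.modNat : ℕ)) (j : ℕ)).det ≠ 0 := by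
  obtain ⟨A, P, hAP⟩ := dp_data n hn2 K
  have hne : ∀ p : ℕ, p ∣ q → p ≠ n := by
    rintro p hp rfl
    exact hnq hp
  have hn1 : (1 : ℝ) ≤ n := by exact_mod_cast (Fact.out : n.Prime).one_lt.le
  have hc : 0 ≤ 2 * ((n : ℝ) - 1) / Real.log n :=
    div_nonneg (mul_nonneg (by norm_num) (sub_nonneg.2 hn1)) (Real.log_nonneg hn1)
  obtain ⟨d, p, hp, hdp, w, hw, a, ha, u, hu, hinj⟩ := dp_tree X hr hrq hX hL hc A
    (fun p a u u' => ps n K u 1 - ps n K u' 1 ∈ P p a) (fun p hp hpq => (hAP p hp (hne p hpq)).1) hB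
    (fun p a => dp_equiv (P p a)) (fun p hp hpq u u' h => (hAP p hp (hne p hpq)).2.2 u u' h) hcard
  have hpq : p ∣ q := (Dvd.intro_left d rfl).trans hdp
  obtain ⟨-, hP, -⟩ := hAP p hp (hne p hpq)
  have hq0 : q ≠ 0 := by
    rintro rfl
    exact absurd hrq (Nat.not_lt_zero _)
  obtain ⟨v, hv⟩ : ∃ v : Fin (L + 1) → (H n → ℤ), ∀ l, v l = w + (d : ℤ) • u l := ⟨fun l => w + (d : ℤ) • u l, fun _ => rfl⟩
  have hv1 : ∀ l, v l ∈ X := fun l => by rw [hv]; exact hu l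
  have hv2 : ∀ l, ∀ e, v l e = w e + d * u l e := fun l e => by
    rw [hv, Pi.add_apply, Pi.smul_apply, smul_eq_mul]
  have hinj' : ∀ l l', l ≠ l' → ps n K (u l) 1 - ps n K (u l') 1 ∉ P p a := fun l l' hll h => hll (hinj l l' h)
  exact ⟨v, hv1, fun D => dp_loc hq0 hdp (hP a).1 (hP a).2 (L + 1) D v w u hv2 hinj'⟩

/-- `dp_zer` with natural numbers: `r ≤ n`, the primes dividing `q` are at most `n` -/
theorem dp_zer_nat {n : ℕ} [Fact n.Prime] (hn2 : n ≠ 2) {q r L : ℕ} (hr : 1 ≤ r) (hrq : r < q) (hrn : r ≤ n) (hnq : ¬ n ∣ q)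
    (hL : 1 ≤ L) (hB : ∀ p : ℕ, p.Prime → p ∣ q → p ≤ n) {K : Type} [Field K] [NumberField K] [IsCyclotomicExtension {n} ℚ K]
    (X : Finset (H n → ℤ)) (hX : ∀ s ∈ X, ∀ t ∈ X, ∀ e, |s e - t e| ≤ r) (hcard : L ^ (4 * (n - 1)) < X.card) :
    ∃ v : Fin (L + 1) → (H n → ℤ), (∀ l, v l ∈ X) ∧ ∀ D : ℕ,
      (Matrix.of fun r j : Fin ((L + 1) * D) => Pz n K q (v r.divNat, (r.modNat : ℕ)) (j : ℕ)).det ≠ 0 := by
  have hn1 : 1 < n := (Fact.out : n.Prime).one_lt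
  have hn1' : (1 : ℝ) < n := by exact_mod_cast hn1
  have hlog : 0 < Real.log n := Real.log_pos hn1'
  refine dp_zer (B := n) hn2 hr hrq hnq hL (fun p hp hpq => by exact_mod_cast hB p hp hpq) X hX ?_
  have h1 : 2 * ((n : ℝ) - 1) / Real.log n * (Real.log r + Real.log n) ≤ ((4 * (n - 1) : ℕ) : ℝ) := by
    have h2 : Real.log r ≤ Real.log n := Real.log_le_log (by exact_mod_cast hr) (by exact_mod_cast hrn)
    have h3 : ((4 * (n - 1) : ℕ) : ℝ) = 2 * ((n : ℝ) - 1) / Real.log n * (Real.log n + Real.log n) := by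
      rw [Nat.cast_mul, Nat.cast_sub hn1.le]
      push_cast
      field_simp
      ring
    rw [h3]
    refine mul_le_mul_of_nonneg_left (by linarith) ?_
    exact div_nonneg (mul_nonneg (by norm_num) (by linarith)) hlog.le
  have h4 : (1 : ℝ) ≤ L := by exact_mod_cast hL
  refine (Real.rpow_le_rpow_of_exponent_le h4 h1).trans_lt ?_
  rw [Real.rpow_natCast]
  exact_mod_cast hcard

private theorem dpz_one {n : ℕ} [Fact n.Prime] (hn2 : n ≠ 2) {q : ℕ} (hq : 1 < q) (hnq : ¬ n ∣ q) {K : Type} [Field K] [NumberField K]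
    [IsCyclotomicExtension {n} ℚ K] (v : Fin 1 → (H n → ℤ)) (D : ℕ) :
    (Matrix.of fun r j : Fin (1 * D) => Pz n K q (v r.divNat, (r.modNat : ℕ)) (j : ℕ)).det ≠ 0 := by
  obtain ⟨A, P, hAP⟩ := dp_data n hn2 K
  obtain ⟨p, hp, hpq⟩ := Nat.exists_prime_and_dvd hq.ne'
  have hpn : p ≠ n := by
    rintro rfl
    exact hnq hpq
  obtain ⟨-, hP, -⟩ := hAP p hp hpn
  have hq0 : q ≠ 0 := by
    rintro rfl
    exact absurd hq (Nat.not_lt_zero _)
  have hdp : 1 * p ∣ q := by rwa [one_mul]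
  have hv : ∀ l, ∀ e, v l e = (0 : H n → ℤ) e + ((1 : ℕ) : ℤ) * v l e := fun l e => by
    rw [Pi.zero_apply, zero_add, Nat.cast_one, one_mul]
  have hu : ∀ l l' : Fin 1, l ≠ l' → ps n K (v l) 1 - ps n K (v l') 1 ∉ P p 1 := fun l l' h => absurd (Subsingleton.elim l l') h
  exact dp_loc hq0 hdp (hP 1).1 (hP 1).2 1 D v 0 v hv hu

/-- `dp_zer` for `L` functions: `r ≤ n`, the primes dividing `q` are at most `n ^ 2`, `X` has more than `L ^ (16 m)` elements -/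
theorem dp_zer16 {n : ℕ} [Fact n.Prime] (hn2 : n ≠ 2) {q r L : ℕ} (hr : 1 ≤ r) (hrq : r < q) (hrn : r ≤ n) (hnq : ¬ n ∣ q)
    (hL : 1 ≤ L) (hB : ∀ p : ℕ, p.Prime → p ∣ q → p ≤ n ^ 2) {K : Type} [Field K] [NumberField K] [IsCyclotomicExtension {n} ℚ K]
    (X : Finset (H n → ℤ)) (hX : ∀ s ∈ X, ∀ t ∈ X, ∀ e, |s e - t e| ≤ r) (hcard : L ^ (16 * ((n - 1) / 2)) < X.card) :
    ∃ v : Fin L → (H n → ℤ), (∀ l, v l ∈ X) ∧ ∀ D : ℕ,
      (Matrix.of fun r j : Fin (L * D) => Pz n K q (v r.divNat, (r.modNat : ℕ)) (j : ℕ)).det ≠ 0 := by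
  have hn1 : 1 < n := (Fact.out : n.Prime).one_lt
  rcases Nat.lt_or_ge 1 L with hL1 | hL1
  · obtain ⟨L', rfl⟩ : ∃ L', L = L' + 1 := ⟨L - 1, by omega⟩
    have hL' : 1 ≤ L' := by omega
    have hn1' : (1 : ℝ) < n := by exact_mod_cast hn1
    have hlog : 0 < Real.log n := Real.log_pos hn1'
    have hodd : n - 1 = 2 * ((n - 1) / 2) := by
      have h1 := (Fact.out : n.Prime).eq_two_or_odd
      omega
    refine dp_zer (B := (n : ℝ) ^ 2) hn2 hr hrq hnq hL' (fun p hp hpq => by exact_mod_cast hB p hp hpq) X hX ?_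
    have h1 : 2 * ((n : ℝ) - 1) / Real.log n * (Real.log r + Real.log ((n : ℝ) ^ 2)) ≤ ((16 * ((n - 1) / 2) : ℕ) : ℝ) := by
      have h2 : Real.log r ≤ Real.log n := Real.log_le_log (by exact_mod_cast hr) (by exact_mod_cast hrn)
      have h3 : (((n - 1) / 2 : ℕ) : ℝ) = ((n : ℝ) - 1) / 2 := by
        have h4 := congrArg (Nat.cast : ℕ → ℝ) hodd
        rw [Nat.cast_sub hn1.le] at h4
        push_cast at h4
        linarith
      have h5 : ((16 * ((n - 1) / 2) : ℕ) : ℝ) = 2 * ((n : ℝ) - 1) / Real.log n * (4 * Real.log n) := by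
        rw [Nat.cast_mul, h3]
        push_cast
        field_simp
        ring
      rw [h5, Real.log_pow]
      refine mul_le_mul_of_nonneg_left ?_ (div_nonneg (mul_nonneg (by norm_num) (by linarith)) hlog.le)
      push_cast
      linarith
    have h4 : (1 : ℝ) ≤ L' := by exact_mod_cast hL'
    refine (Real.rpow_le_rpow_of_exponent_le h4 h1).trans_lt ?_
    rw [Real.rpow_natCast]
    refine lt_of_le_of_lt (pow_le_pow_left₀ (by linarith) (show (L' : ℝ) ≤ ((L' + 1 : ℕ) : ℝ) by push_cast; linarith) _) ?_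
    exact_mod_cast hcard
  · have hL' : L = 1 := by omega
    subst hL'
    rw [one_pow] at hcard
    obtain ⟨x, hx⟩ := Finset.card_pos.1 (zero_lt_one.trans hcard)
    obtain ⟨v, hv⟩ : ∃ v : Fin 1 → (H n → ℤ), ∀ l, v l = x := ⟨fun _ => x, fun _ => rfl⟩
    have hv1 : ∀ l, v l ∈ X := fun l => by rw [hv]; exact hx
    have hq1 : 1 < q := hr.trans_lt hrq
    exact ⟨v, hv1, fun D => dpz_one hn2 hq1 hnq v D⟩

end Pool.Agent.NLS
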