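import Pool.Agent.NLS.DpUB
import Pool.Agent.NLS.DpPar
import Pool.Agent.NLS.DpZer
import Pool.Agent.NLS.LaFin
import Pool.Agent.NLS.IdxM

/-!
# NLS-DpOne: no solution with a large exponent and a small index, whole exponents
-/

open NumberField Finset
open Pool.Agent.AAP Pool.Agent.Helper7.HU

namespace Pool.Agent.NLS

/-- no solution for exponents `M ≥ n ^ ((1 + ι) / 2 + ε)` if the index is at most `n ^ (ι (n - 1) / 2)` -/
theorem none_M (ι ε : ℝ) (hι : 0 < ι) (hι' : ι ≤ 1 / 2) (hε : 0 < ε) : ∃ n0 : ℕ,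
    ∀ (n : ℕ) [Fact n.Prime] (M x y : ℕ), n0 ≤ n → M.Coprime (2 * n) → (∀ p : ℕ, p.Prime → p ∣ M → p ≤ n ^ 2) →
    (n : ℝ) ^ ((1 + ι) / 2 + ε) ≤ M → (M : ℝ) ≤ (n : ℝ) ^ 2 →
    Real.log ((Lq n M).index : ℝ) ≤ ι * ((n - 1) / 2 : ℕ) * Real.log n → 1 < x → 1 < y →
      y ^ M * (x - 1) ≠ x ^ n - 1 := by
  obtain ⟨δ, L, n2, hδ, hL2, hpar⟩ := exists_parP ι ε hι hι' hε
  obtain ⟨q1, hq1⟩ := partL4 (δ / 2) (by positivity)
  refine ⟨max n2 (max 5 (q1 ^ 2)), fun n _ M x y hn hcop hsm hreg hM2 hidx hx hy heq => ?_⟩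
  have hnp : n.Prime := Fact.out
  have hnn2 : n2 ≤ n := (le_max_left _ _).trans hn
  have hn5 : 5 ≤ n := ((le_max_left _ _).trans (le_max_right _ _)).trans hn
  have hnq1 : q1 ^ 2 ≤ n := ((le_max_right _ _).trans (le_max_right _ _)).trans hn
  have hn0 : (0 : ℝ) < n := by
    have : 0 < n := by omega
    exact_mod_cast this
  have hn1R : (1 : ℝ) < n := by
    have : 1 < n := by omega
    exact_mod_cast this
  have hsq : (n : ℝ) ^ (1 / 2 : ℝ) < M := by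
    refine lt_of_lt_of_le (Real.rpow_lt_rpow_of_exponent_lt hn1R ?_) hreg
    linarith
  have hsq2 : (n : ℝ) < (M : ℝ) ^ 2 := by
    have h1 : ((n : ℝ) ^ (1 / 2 : ℝ)) ^ 2 = n := by
      rw [← Real.rpow_natCast, ← Real.rpow_mul hn0.le]
      norm_num
    rw [← h1]
    exact pow_lt_pow_left₀ hsq (by positivity) (by norm_num)
  have hnq2 : n < M ^ 2 := by exact_mod_cast hsq2
  have hq1q : q1 ≤ M := by
    by_contra hc
    push Not at hc
    have h1 : M ^ 2 ≤ q1 ^ 2 := Nat.pow_le_pow_left hc.le 2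
    omega
  have hq3 : 3 ≤ M := by
    by_contra hc
    push Not at hc
    have h1 : M ^ 2 ≤ 2 ^ 2 := Nat.pow_le_pow_left (by omega) 2
    omega
  have hodd : Odd n := hnp.odd_of_ne_two (by omega)
  have hMo : Odd M := by
    have h1 : M.Coprime 2 := Nat.Coprime.coprime_mul_right_right hcop
    exact Nat.coprime_two_right.1 h1
  have hMn : M.Coprime n := Nat.Coprime.coprime_mul_left_right hcop
  have hnM : ¬ n ∣ M := by
    rw [← hnp.coprime_iff_not_dvd]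
    exact hMn.symm
  have S : DC.Sol n M x y := ⟨hnp, hcop, hn5, hq3, hx, hy, heq⟩
  have hcard : (H n).card = (n - 1) / 2 := card_H n (by omega)
  have hI0 : (0 : ℝ) < ((Lq n M).index : ℝ) := by
    have := lq_index_ne (n := n) (by omega) M
    positivity
  have hI1 : ((Lq n M).index : ℝ) ≤ Real.exp (ι * ((n - 1) / 2 : ℕ) * Real.log n) := by
    rw [← Real.log_le_iff_le_exp hI0]
    exact hidx
  have hM4 : (M : ℝ) ≤ (n : ℝ) ^ 4 := hM2.trans (pow_le_pow_right₀ hn1R.le (by norm_num))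
  obtain ⟨k, r, D, hk, hkm, hr, hrM, hrn, hD, hH2, hH3, hH4⟩ := hpar n M ((Lq n M).index : ℝ) hnn2 hodd hreg hM4 hI0 hI1
  have hMP : MinorP n M r (L * D) D (L ^ (16 * ((n - 1) / 2))) := by
    intro K _ _ _ X hX hc
    obtain ⟨v, hv, hdet⟩ := dp_zer16 (K := K) (by omega : n ≠ 2) hr hrM hrn hnM (by omega) hsm X hX hc
    exact ⟨fun i => (v i.divNat, (i.modNat : ℕ)), fun i => ⟨hv _, i.modNat.2⟩, hdet D⟩
  have hN1 : 1 ≤ L * D := Nat.mul_pos (by omega) (by omega)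
  have hub := DC.upperP S hk (by rw [hcard]; exact hkm) hN1 hD hMP
    (by rw [hcard]; exact_mod_cast hH2) (by rw [hcard]; exact hH3)
  rw [hcard] at hub
  have hkR : (0 : ℝ) < k := by exact_mod_cast hk
  have hMR : (1 : ℝ) < M := by exact_mod_cast (by omega : 1 < M)
  have hM0 : (0 : ℝ) < M := by linarith
  have hlx : 0 < Real.log x := Real.log_pos (by exact_mod_cast hx)
  have hMn2 : M ≤ n ^ 2 := by exact_mod_cast hM2
  have hlow := hq1 M n x y hq1q hMo (by omega) (by omega) heq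
  have h1 : (k : ℝ) * Real.log x * (M : ℝ) ^ δ ≤ k * (Real.log x * (M : ℝ) ^ (δ / 2)) := by
    calc (k : ℝ) * Real.log x * (M : ℝ) ^ δ ≤
          20 * (((n - 1) / 2 : ℕ) : ℝ) * ((L * D : ℕ) : ℝ) * Real.log (4 * M * (((L * D : ℕ) : ℝ) + 1)) * (M : ℝ) ^ δ :=
            mul_le_mul_of_nonneg_right hub (by positivity)
      _ ≤ k * ((min n M : ℕ) : ℝ) := hH4
      _ ≤ k * (Real.log x * (M : ℝ) ^ (δ / 2)) := mul_le_mul_of_nonneg_left hlow hkR.le
  have h2 : (M : ℝ) ^ (δ / 2) < (M : ℝ) ^ δ := Real.rpow_lt_rpow_of_exponent_lt hMR (by linarith)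
  have h3 : (k : ℝ) * (Real.log x * (M : ℝ) ^ (δ / 2)) < k * Real.log x * (M : ℝ) ^ δ := by
    rw [← mul_assoc]
    exact mul_lt_mul_of_pos_left h2 (mul_pos hkR hlx)
  exact absurd h1 (not_le.2 h3)

end Pool.Agent.NLS
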