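import Pool.Agent.NLS.DcNStep
import Pool.Agent.NLS.DpDefs

/-!
# NLS-DpStep: the product formula for the determinant of the functions `z ^ i f_v`

As `DcNStep`; the determinant now has the columns of the coefficients of `z ^ i f_v`, and the last column `b / x ^ i`. After
multiplication by `x ^ (2 D)` its expansion is a combination of the `b` with coefficients in `𝓞 K`.
-/

open NumberField Finset
open Pool.Agent.AAP Pool.Agent.Helper7.HU

namespace Pool.Agent.NLS.DC

private theorem dpstep_fac (N : ℕ) : (N + 1).factorial ≤ (N + 1) ^ N := by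
  induction N with
  | zero => simp
  | succ N ih =>
    rw [Nat.factorial_succ, pow_succ']
    exact Nat.mul_le_mul_left _ (ih.trans (Nat.pow_le_pow_left (by omega) N))

private theorem dpstep_small {x N m k M : ℕ} (hx : 1 < x) (hN : 1 ≤ N) (hk : k ≤ m) (h : x ≤ M) :
    (k : ℝ) * Real.log x ≤ 6 * m * N * Real.log M := by
  have h2 : Real.log x ≤ Real.log M := Real.log_le_log (by positivity) (by exact_mod_cast h)
  have h3 : 0 ≤ Real.log x := Real.log_nonneg (by exact_mod_cast hx.le)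
  have h5 : (k : ℝ) ≤ m := by exact_mod_cast hk
  have h6 : (1 : ℝ) ≤ N := by exact_mod_cast hN
  have h7 : (0 : ℝ) ≤ m := by positivity
  calc (k : ℝ) * Real.log x ≤ m * Real.log x := mul_le_mul_of_nonneg_right h5 h3
    _ ≤ m * Real.log M := mul_le_mul_of_nonneg_left h2 h7
    _ ≤ m * (6 * N * Real.log M) := by
      refine mul_le_mul_of_nonneg_left ?_ h7
      nlinarith
    _ = 6 * m * N * Real.log M := by ring

/-- the numerical part -/
private theorem dpstep_num {q x y n N r m k M D : ℕ} (hq : 2 ≤ q) (hM : 1 ≤ M) (hx : 1 < x) (hy : 1 < y) (hN : 1 ≤ N)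
    (hk : k ≤ m) (hyx : y ^ q < x ^ n) (h3 : 2 * m * r * n + 8 * m * D * q ≤ k * N * q) {U V : ℝ} (hU0 : 0 < U) (hV0 : 0 < V)
    (hU : U ≤ (M : ℝ) ^ (N + 3 * (N * (N - 1) / 2))) (hV : V ≤ (M : ℝ) ^ (N + 1))
    (h : 1 ≤ (y : ℝ) ^ (2 * r * m) * (((x : ℝ) ^ (2 * D) * (U * (V / (x : ℝ) ^ N))) ^ (2 * k) *
      ((x : ℝ) ^ (2 * D) * U) ^ (2 * (m - k)))) :
    (k : ℝ) * Real.log x ≤ 6 * m * N * Real.log M := by
  have hx0 : (0 : ℝ) < x := by positivity
  have hy0 : (0 : ℝ) < y := by positivity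
  have hq0 : (0 : ℝ) < q := by positivity
  have hlx : 0 ≤ Real.log x := Real.log_nonneg (by exact_mod_cast hx.le)
  have hly : 0 ≤ Real.log y := Real.log_nonneg (by exact_mod_cast hy.le)
  have hlq : 0 ≤ Real.log M := Real.log_nonneg (by exact_mod_cast hM)
  have e1 : ((x : ℝ) ^ (2 * D) * (U * (V / (x : ℝ) ^ N))) ^ (2 * k) * ((x : ℝ) ^ (2 * D) * U) ^ (2 * (m - k)) =
      ((x : ℝ) ^ (2 * D)) ^ (2 * m) * (U ^ (2 * m) * (V / (x : ℝ) ^ N) ^ (2 * k)) := by
    have : 2 * m = 2 * k + 2 * (m - k) := by omega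
    rw [this, pow_add, pow_add, mul_pow, mul_pow, mul_pow]
    ring
  rw [e1] at h
  have h4 := Real.log_nonneg h
  rw [Real.log_mul (by positivity) (by positivity), Real.log_mul (by positivity) (by positivity),
    Real.log_mul (by positivity) (by positivity), ← pow_mul, Real.log_pow, Real.log_pow, Real.log_pow, Real.log_pow,
    Real.log_div (by positivity) (by positivity), Real.log_pow] at h4
  push_cast at h4
  have h5 : Real.log U ≤ (N + 3 * (N * (N - 1) / 2) : ℕ) * Real.log M := by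
    rw [← Real.log_pow]
    exact Real.log_le_log hU0 hU
  have h6 : Real.log V ≤ (N + 1 : ℕ) * Real.log M := by
    rw [← Real.log_pow]
    exact Real.log_le_log hV0 hV
  have h7 : (q : ℝ) * Real.log y ≤ n * Real.log x := by
    rw [← Real.log_pow, ← Real.log_pow]
    exact Real.log_le_log (by positivity) (by exact_mod_cast hyx.le)
  have h8 : 2 * (r : ℝ) * m * Real.log y + 4 * D * m * Real.log x ≤ k * N * Real.log x := by
    have h9 : (2 * (m : ℝ) * r * n) + 8 * m * D * q ≤ k * N * q := by exact_mod_cast h3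
    have h10 : (2 * (r : ℝ) * m * Real.log y + 4 * D * m * Real.log x) * q ≤ k * N * Real.log x * q := by
      calc (2 * (r : ℝ) * m * Real.log y + 4 * D * m * Real.log x) * q =
            2 * r * m * (q * Real.log y) + 4 * m * D * q * Real.log x := by ring
        _ ≤ 2 * r * m * (n * Real.log x) + 8 * m * D * q * Real.log x := by
            refine add_le_add (mul_le_mul_of_nonneg_left h7 (by positivity)) (mul_le_mul_of_nonneg_right ?_ hlx)
            have : 0 ≤ (m : ℝ) * D * q := by positivity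
            linarith
        _ = (2 * m * r * n + 8 * m * D * q) * Real.log x := by ring
        _ ≤ (k * N * q) * Real.log x := mul_le_mul_of_nonneg_right h9 hlx
        _ = k * N * Real.log x * q := by ring
    exact le_of_mul_le_mul_right h10 hq0
  have h9 : ((N * (N - 1) / 2 : ℕ) : ℝ) * 2 ≤ N * (N - 1) := by
    have : N * (N - 1) / 2 * 2 ≤ N * (N - 1) := Nat.div_mul_le_self _ _
    have h10 : ((N * (N - 1) / 2 * 2 : ℕ) : ℝ) ≤ ((N * (N - 1) : ℕ) : ℝ) := by exact_mod_cast this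
    rw [Nat.cast_mul, Nat.cast_mul, Nat.cast_sub hN] at h10
    exact_mod_cast h10
  set e : ℝ := ((N * (N - 1) / 2 : ℕ) : ℝ) with he
  have h5' : Real.log U ≤ (N + 3 * e) * Real.log M := by
    refine h5.trans (le_of_eq ?_)
    rw [he]
    push_cast
    ring
  have h6' : Real.log V ≤ (N + 1) * Real.log M := by
    refine h6.trans (le_of_eq ?_)
    push_cast
    ring
  have hk' : (k : ℝ) ≤ m := by exact_mod_cast hk
  have hN' : (1 : ℝ) ≤ N := by exact_mod_cast hN
  have hm0 : (0 : ℝ) ≤ m := by positivity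
  have hk0 : (0 : ℝ) ≤ k := by positivity
  have h10 : (k : ℝ) * N * Real.log x ≤ 2 * m * Real.log U + 2 * k * Real.log V := by
    linarith
  have h11 : 2 * (m : ℝ) * Real.log U ≤ 2 * m * ((N + 3 * e) * Real.log M) := mul_le_mul_of_nonneg_left h5' (by positivity)
  have h12 : 2 * (k : ℝ) * Real.log V ≤ 2 * m * ((N + 1) * Real.log M) := by
    calc 2 * (k : ℝ) * Real.log V ≤ 2 * k * ((N + 1) * Real.log M) := mul_le_mul_of_nonneg_left h6' (by positivity)
      _ ≤ 2 * m * ((N + 1) * Real.log M) := mul_le_mul_of_nonneg_right (by linarith) (by positivity)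
  have h13 : (N : ℝ) + 3 * e + (N + 1) ≤ 3 * N * N := by nlinarith
  have h14 : 2 * (m : ℝ) * (((N : ℝ) + 3 * e + (N + 1)) * Real.log M) ≤ 2 * m * ((3 * N * N) * Real.log M) :=
    mul_le_mul_of_nonneg_left (mul_le_mul_of_nonneg_right h13 hlq) (by positivity)
  have h15 : (k : ℝ) * Real.log x * N ≤ 6 * m * N * Real.log M * N := by
    nlinarith
  exact le_of_mul_le_mul_right h15 (by linarith)

/-- the coefficient of `z ^ j` in `z ^ i f_v`, multiplied by `q ^ j j!` -/
private noncomputable def dpstep_A (n : ℕ) [Fact n.Prime] (K : Type) [Field K] [NumberField K] [IsCyclotomicExtension {n} ℚ K] (q : ℕ)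
    (w : (H n → ℤ) × ℕ) (j : ℕ) : 𝓞 K :=
  if w.2 ≤ j then ((q ^ w.2 * j.descFactorial w.2 : ℕ) : 𝓞 K) * Qj n K q w.1 (j - w.2) else 0

private theorem dpstep_coe {n : ℕ} [Fact n.Prime] {K : Type} [Field K] [NumberField K] [IsCyclotomicExtension {n} ℚ K] {q : ℕ}
    (hq : q ≠ 0) (w : (H n → ℤ) × ℕ) (j : ℕ) :
    ((dpstep_A n K q w j : 𝓞 K) : K) = (q : K) ^ j * (j.factorial : K) * Pz n K q w j := by
  unfold dpstep_A Pz
  split_ifs with h
  · have h1 : (algebraMap (𝓞 K) K) (((q ^ w.2 * j.descFactorial w.2 : ℕ) : 𝓞 K) * Qj n K q w.1 (j - w.2)) =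
        ((q ^ w.2 * j.descFactorial w.2 : ℕ) : K) * ((Qj n K q w.1 (j - w.2) : 𝓞 K) : K) := by
      rw [map_mul, map_natCast]
    refine h1.trans ?_
    rw [coe_Qj hq]
    have h2 : ((j - w.2).factorial : K) * (j.descFactorial w.2 : K) = (j.factorial : K) := by
      exact_mod_cast Nat.factorial_mul_descFactorial h
    have h3 : (q : K) ^ j = (q : K) ^ w.2 * (q : K) ^ (j - w.2) := by
      rw [← pow_add]
      congr 1
      omega
    rw [← h2, h3]
    push_cast
    ring
  · rw [mul_zero]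
    exact map_zero _

private theorem dpstep_tail {n : ℕ} [Fact n.Prime] {K : Type} [Field K] [NumberField K] [IsCyclotomicExtension {n} ℚ K] {q x : ℕ}
    (hx : 1 < x) (hq : 2 ≤ q) {T : Finset (K →+* ℂ)} {w : (H n → ℤ) × ℕ} {b : K}
    (hb : IsRt n q x T w.1 b) {N : ℕ} (hw : 2 * ∑ e, |(w.1 e : ℝ)| ≤ N * q)
    (hxw : 4 * (q : ℝ) * (1 + N) ≤ x) {τ : K →+* ℂ} (hτ : τ ∈ T) :
    ‖τ (b / (x : K) ^ w.2) - ∑ j ∈ range N, τ (Pz n K q w j) * (1 / (x : ℂ)) ^ j‖ ≤ 2 * (1 + N) ^ N / (x : ℝ) ^ N := by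
  have hx0 : (0 : ℝ) < x := by positivity
  have hx1 : (1 : ℝ) ≤ x := by exact_mod_cast hx.le
  have hN1 : (1 : ℝ) ≤ 1 + N := by
    have : (0 : ℝ) ≤ N := by positivity
    linarith
  have hnx : ‖(1 / (x : ℂ)) ^ w.2‖ = 1 / (x : ℝ) ^ w.2 := by
    rw [norm_pow, norm_div, norm_one, Complex.norm_natCast, div_pow, one_pow]
  have e0 : τ (b / (x : K) ^ w.2) = τ b * (1 / (x : ℂ)) ^ w.2 := by
    rw [map_div₀, map_pow, map_natCast, div_pow, one_pow, mul_one_div]
  rcases Nat.lt_or_ge N w.2 with hlt | hge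
  · have e1 : ∑ j ∈ range N, τ (Pz n K q w j) * (1 / (x : ℂ)) ^ j = 0 := by
      refine Finset.sum_eq_zero fun j hj => ?_
      have hj := mem_range.1 hj
      rw [Pz, if_neg (by omega), map_zero, zero_mul]
    rw [e1, sub_zero, e0, norm_mul, root_norm hx (by omega) hb.1 τ, one_mul, hnx]
    have h1 : (x : ℝ) ^ N ≤ (x : ℝ) ^ w.2 := pow_le_pow_right₀ hx1 hlt.le
    have h2 : (1 : ℝ) ≤ (1 + N) ^ N := one_le_pow₀ hN1
    calc 1 / (x : ℝ) ^ w.2 ≤ 1 / (x : ℝ) ^ N := one_div_le_one_div_of_le (by positivity) h1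
      _ ≤ 2 * (1 + N) ^ N / (x : ℝ) ^ N := by
        apply div_le_div_of_nonneg_right _ (by positivity)
        linarith
  · have e1 : ∑ j ∈ range N, τ (Pz n K q w j) * (1 / (x : ℂ)) ^ j =
        (∑ j ∈ range (N - w.2), τ (Pj n K q w.1 j) * (1 / (x : ℂ)) ^ j) * (1 / (x : ℂ)) ^ w.2 := by
      have h1 : N = w.2 + (N - w.2) := by omega
      conv_lhs => rw [h1]
      rw [Finset.sum_range_add]
      have h2 : ∑ j ∈ range w.2, τ (Pz n K q w j) * (1 / (x : ℂ)) ^ j = 0 := by
        refine Finset.sum_eq_zero fun j hj => ?_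
        have hj := mem_range.1 hj
        rw [Pz, if_neg (by omega), map_zero, zero_mul]
      rw [h2, zero_add, Finset.sum_mul]
      refine Finset.sum_congr rfl fun j _ => ?_
      rw [Pz, if_pos (by omega), pow_add]
      have h4 : w.2 + j - w.2 = j := by omega
      rw [h4]
      ring
    rw [e1, e0, ← sub_mul, norm_mul, hnx]
    have h1 := tail_le hx hq hb (w := (N : ℝ)) (by positivity) hw hxw hτ (N - w.2)
    calc ‖τ b - ∑ j ∈ range (N - w.2), τ (Pj n K q w.1 j) * (1 / (x : ℂ)) ^ j‖ * (1 / (x : ℝ) ^ w.2) ≤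
          2 * ((1 + N) / x) ^ (N - w.2) * (1 / (x : ℝ) ^ w.2) := mul_le_mul_of_nonneg_right h1 (by positivity)
      _ = 2 * (1 + N) ^ (N - w.2) / (x : ℝ) ^ N := by
        have h2 : (x : ℝ) ^ N = (x : ℝ) ^ (N - w.2) * (x : ℝ) ^ w.2 := by
          rw [← pow_add]
          congr 1
          omega
        rw [h2, div_pow]
        field_simp
      _ ≤ 2 * (1 + N) ^ N / (x : ℝ) ^ N := by
        apply div_le_div_of_nonneg_right _ (by positivity)
        exact mul_le_mul_of_nonneg_left (pow_le_pow_right₀ hN1 (by omega)) (by norm_num)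

theorem norm_stepP {n : ℕ} [Fact n.Prime] {K : Type} [Field K] [NumberField K] [IsCyclotomicExtension {n} ℚ K] {q x y : ℕ}
    (S : Sol n q x y) {T : Finset (K →+* ℂ)} (hT : CFree T) {N r D : ℕ} (hN : 1 ≤ N) (hT1 : 1 ≤ T.card)
    (p : H n → ℕ) (hp : ∀ e, p e ≤ r) (v : Fin (N + 1) → (H n → ℤ) × ℕ) (b : Fin (N + 1) → K)
    (hb : ∀ i, IsRt n q x T (v i).1 (b i))
    (hv : ∀ i e, -(2 * p e : ℤ) ≤ (v i).1 e ∧ (v i).1 e ≤ 2 * (r : ℤ) - 2 * p e)
    (hv2 : ∀ i, (v i).2 ≤ 2 * D)
    (hdet : (Matrix.of fun i j : Fin (N + 1) =>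
      if (j : ℕ) < N then Pz n K q (v i) (j : ℕ) else b i / (x : K) ^ (v i).2).det ≠ 0)
    (h3 : 2 * (H n).card * r * n + 8 * (H n).card * D * q ≤ T.card * N * q) :
    (T.card : ℝ) * Real.log x ≤ 20 * (H n).card * N * Real.log (4 * q * (N + 1)) := by
  have hn5 := S.hn5
  have hq3' := S.hq3
  have hMq : 1 ≤ 4 * q * (N + 1) := Nat.mul_pos (by omega) (by omega)
  suffices hsuff : (T.card : ℝ) * Real.log x ≤ 6 * (H n).card * N * Real.log ((4 * q * (N + 1) : ℕ) : ℝ) by
    refine hsuff.trans ?_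
    have h0 : 0 ≤ Real.log ((4 * q * (N + 1) : ℕ) : ℝ) := Real.log_nonneg (by exact_mod_cast hMq)
    have h1 : ((4 * q * (N + 1) : ℕ) : ℝ) = 4 * q * (N + 1) := by push_cast; ring
    rw [h1] at h0 ⊢
    refine mul_le_mul_of_nonneg_right ?_ h0
    refine mul_le_mul_of_nonneg_right ?_ (Nat.cast_nonneg _)
    exact mul_le_mul_of_nonneg_right (by norm_num) (Nat.cast_nonneg _)
  have h3' : 2 * (H n).card * r * n ≤ T.card * N * q := by omega
  have hn3 : 3 ≤ n := by omega
  have hq3 := S.hq3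
  have hx := S.hx
  have hTm : T.card ≤ (H n).card := (norm_le_T hn3 hT (0 : K) (A := 0) (B := 0) (by simp) (by simp)).1
  rcases Nat.lt_or_ge (4 * q * (N + 1)) x with hbig | hsm
  swap
  · exact dpstep_small hx hN hTm hsm
  have hx0 : (0 : ℝ) < x := by positivity
  have hq0 : (0 : ℝ) < q := by
    have : 0 < q := by omega
    exact_mod_cast this
  have hqK : (q : K) ≠ 0 := by exact_mod_cast (by omega : q ≠ 0)
  have hxK : (x : K) ≠ 0 := by exact_mod_cast (by omega : x ≠ 0)
  have hcH : (H n).card = (n - 1) / 2 := card_H n (by omega)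
  -- the sum of the exponents
  have hsum : ∀ i, 2 * ∑ e, |((v i).1 e : ℝ)| ≤ N * q := by
    intro i
    have h1 : ∀ e ∈ (Finset.univ : Finset (H n)), |((v i).1 e : ℝ)| ≤ 2 * r := by
      intro e _
      have h2 := hv i e
      have h4 := hp e
      have h5 : |(v i).1 e| ≤ 2 * (r : ℤ) := by
        rw [abs_le]
        constructor <;> omega
      exact_mod_cast h5
    have h2 : ∑ e, |((v i).1 e : ℝ)| ≤ (H n).card * (2 * r) := by
      refine (Finset.sum_le_card_nsmul _ _ _ h1).trans (le_of_eq ?_)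
      rw [Finset.card_univ, Fintype.card_coe, nsmul_eq_mul]
    have h4 : 4 * (H n).card * r ≤ N * q := by
      have h5 : 2 * T.card ≤ n := by omega
      have h6 : 4 * (H n).card * r * n ≤ N * q * n := by
        calc 4 * (H n).card * r * n = 2 * (2 * (H n).card * r * n) := by ring
          _ ≤ 2 * (T.card * N * q) := Nat.mul_le_mul_left _ h3'
          _ = (2 * T.card) * (N * q) := by ring
          _ ≤ n * (N * q) := Nat.mul_le_mul_right _ h5
          _ = N * q * n := by ring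
      exact Nat.le_of_mul_le_mul_right h6 (by omega)
    have h5 : (4 * (H n).card * r : ℝ) ≤ N * q := by exact_mod_cast h4
    calc 2 * ∑ e, |((v i).1 e : ℝ)| ≤ 2 * ((H n).card * (2 * r)) := by linarith
      _ = 4 * (H n).card * r := by ring
      _ ≤ N * q := h5
  -- cofactors
  obtain ⟨c, hc1, hc2, hc3⟩ := cofactor N (fun i j => dpstep_A n K q (v i) j)
  set W : ℝ := q * N * (1 + N) with hW
  have hW0 : 0 ≤ W := by positivity
  have hQ : ∀ (τ : K →+* ℂ) (i : Fin (N + 1)), ∀ j < N, ‖τ ((dpstep_A n K q (v i) j : 𝓞 K) : K)‖ ≤ W ^ j := by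
    intro τ i j hj
    rw [dpstep_coe (by omega), map_mul, map_mul, map_pow, map_natCast, map_natCast, norm_mul, norm_mul, norm_pow, Complex.norm_natCast,
      Complex.norm_natCast]
    have h1 : ‖τ (Pz n K q (v i) j)‖ ≤ (1 + N) ^ j := by
      unfold Pz
      split_ifs with hij
      · refine (Pj_bound (n := n) (by omega : q ≠ 0) τ (v i).1 (w := (N : ℝ)) (hsum i) _).trans ?_
        exact pow_le_pow_right₀ (by
          have : (0 : ℝ) ≤ N := by positivity
          linarith) (by omega)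
      · rw [map_zero, norm_zero]
        positivity
    have h2 : (j.factorial : ℝ) ≤ (N : ℝ) ^ j := by
      have h4 : j.factorial ≤ N ^ j := (Nat.factorial_le_pow j).trans (Nat.pow_le_pow_left hj.le j)
      exact_mod_cast h4
    calc (q : ℝ) ^ j * j.factorial * ‖τ (Pz n K q (v i) j)‖ ≤ (q : ℝ) ^ j * (N : ℝ) ^ j * (1 + N) ^ j :=
          mul_le_mul (mul_le_mul_of_nonneg_left h2 (by positivity)) h1 (norm_nonneg _) (by positivity)
      _ = W ^ j := by rw [hW, mul_pow, mul_pow]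
  set E : ℝ := (N.factorial : ℝ) * W ^ (N * (N - 1) / 2) with hE
  have hWpos : 0 < W := by
    have : (1 : ℝ) ≤ N := by exact_mod_cast hN
    positivity
  have hE0 : 0 < E := by positivity
  have hcE : ∀ (τ : K →+* ℂ) (i : Fin (N + 1)), ‖τ ((c i : 𝓞 K) : K)‖ ≤ E := by
    intro τ i
    exact hc3 (τ.comp (algebraMap (𝓞 K) K)) W hW0 (fun i j hj => hQ τ i j hj) i
  set z : K := ∑ i, ((c i : 𝓞 K) : K) * (b i / (x : K) ^ (v i).2) with hz
  have hz0 : z ≠ 0 := by
    intro h
    have h1 := hc1 K (algebraMap (𝓞 K) K) (fun i => b i / (x : K) ^ (v i).2)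
    have h2 : (Matrix.of fun i j : Fin (N + 1) => if (j : ℕ) < N then algebraMap (𝓞 K) K (dpstep_A n K q (v i) (j : ℕ)) else
        b i / (x : K) ^ (v i).2) = Matrix.of fun i j : Fin (N + 1) =>
        (if (j : ℕ) < N then (q : K) ^ (j : ℕ) * ((j : ℕ).factorial : K) else 1) *
          (Matrix.of fun i j : Fin (N + 1) => if (j : ℕ) < N then Pz n K q (v i) (j : ℕ) else b i / (x : K) ^ (v i).2) i j := by
      ext i j
      rw [Matrix.of_apply, Matrix.of_apply, Matrix.of_apply]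
      split_ifs with hj
      · exact dpstep_coe (by omega) (v i) j
      · rw [one_mul]
    rw [h2, Matrix.det_mul_row] at h1
    have h4 : (∏ j : Fin (N + 1), if (j : ℕ) < N then (q : K) ^ (j : ℕ) * ((j : ℕ).factorial : K) else 1) ≠ 0 := by
      refine Finset.prod_ne_zero_iff.2 fun j _ => ?_
      split_ifs
      · refine mul_ne_zero (pow_ne_zero _ hqK) ?_
        exact_mod_cast Nat.factorial_ne_zero (j : ℕ)
      · exact one_ne_zero
    refine mul_ne_zero h4 hdet (h1.trans ?_)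
    exact h
  have hB : ∀ τ : K →+* ℂ, ‖τ z‖ ≤ (N + 1) * E := by
    intro τ
    rw [hz, map_sum]
    refine (norm_sum_le _ _).trans ?_
    have h1 : ∀ i ∈ (Finset.univ : Finset (Fin (N + 1))), ‖τ (((c i : 𝓞 K) : K) * (b i / (x : K) ^ (v i).2))‖ ≤ E := by
      intro i _
      rw [map_mul, norm_mul, map_div₀, map_pow, map_natCast, norm_div, norm_pow, Complex.norm_natCast,
        root_norm hx (by omega) (hb i).1 τ]
      have h2 : 1 / (x : ℝ) ^ (v i).2 ≤ 1 := by
        rw [div_le_one (by positivity)]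
        exact one_le_pow₀ (by exact_mod_cast hx.le)
      calc ‖τ ((c i : 𝓞 K) : K)‖ * (1 / (x : ℝ) ^ (v i).2) ≤ E * 1 := mul_le_mul (hcE τ i) h2 (by positivity) hE0.le
        _ = E := mul_one E
    refine (Finset.sum_le_card_nsmul _ _ _ h1).trans (le_of_eq ?_)
    rw [Finset.card_univ, Fintype.card_fin, nsmul_eq_mul]
    push_cast
    ring
  have hcP : ∀ j < N, ∑ i, ((c i : 𝓞 K) : K) * Pz n K q (v i) j = 0 := by
    intro j hj
    have h1 : algebraMap (𝓞 K) K (∑ i, c i * dpstep_A n K q (v i) j) = 0 := by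
      rw [hc2 j hj, map_zero]
    rw [map_sum] at h1
    have h2 : ∀ i ∈ (Finset.univ : Finset (Fin (N + 1))), algebraMap (𝓞 K) K (c i * dpstep_A n K q (v i) j) =
        ((q : K) ^ j * (j.factorial : K)) * (((c i : 𝓞 K) : K) * Pz n K q (v i) j) := by
      intro i _
      rw [map_mul]
      have h4 := dpstep_coe (n := n) (K := K) (by omega : q ≠ 0) (v i) j
      change algebraMap (𝓞 K) K (c i) * ((dpstep_A n K q (v i) j : 𝓞 K) : K) = _
      rw [h4]
      change algebraMap (𝓞 K) K (c i) * _ = (q : K) ^ j * (j.factorial : K) * (algebraMap (𝓞 K) K (c i) * _)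
      ring
    rw [Finset.sum_congr rfl h2, ← Finset.mul_sum] at h1
    refine (mul_eq_zero.1 h1).resolve_left (mul_ne_zero (pow_ne_zero _ hqK) ?_)
    exact_mod_cast Nat.factorial_ne_zero j
  have hA : ∀ τ ∈ T, ‖τ z‖ ≤ (N + 1) * E * (2 * (1 + N) ^ N / (x : ℝ) ^ N) := by
    intro τ hτ
    have h1 : τ z = ∑ i, τ ((c i : 𝓞 K) : K) *
        (τ (b i / (x : K) ^ (v i).2) - ∑ j ∈ range N, τ (Pz n K q (v i) j) * (1 / (x : ℂ)) ^ j) := by
      have h2 : ∑ i, τ ((c i : 𝓞 K) : K) * ∑ j ∈ range N, τ (Pz n K q (v i) j) * (1 / (x : ℂ)) ^ j = 0 := by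
        simp_rw [Finset.mul_sum]
        rw [Finset.sum_comm]
        refine Finset.sum_eq_zero fun j hj => ?_
        have h4 : ∑ i, τ ((c i : 𝓞 K) : K) * (τ (Pz n K q (v i) j) * (1 / (x : ℂ)) ^ j) =
            τ (∑ i, ((c i : 𝓞 K) : K) * Pz n K q (v i) j) * (1 / (x : ℂ)) ^ j := by
          rw [map_sum, Finset.sum_mul]
          refine Finset.sum_congr rfl fun i _ => ?_
          rw [map_mul]
          ring
        rw [h4, hcP j (mem_range.1 hj), map_zero, zero_mul]
      simp_rw [mul_sub]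
      rw [Finset.sum_sub_distrib, h2, sub_zero, hz, map_sum]
      refine Finset.sum_congr rfl fun i _ => ?_
      rw [map_mul]
    rw [h1]
    refine (norm_sum_le _ _).trans ?_
    have h2 : ∀ i ∈ (Finset.univ : Finset (Fin (N + 1))), ‖τ ((c i : 𝓞 K) : K) * (τ (b i / (x : K) ^ (v i).2) -
        ∑ j ∈ range N, τ (Pz n K q (v i) j) * (1 / (x : ℂ)) ^ j)‖ ≤ E * (2 * (1 + N) ^ N / (x : ℝ) ^ N) := by
      intro i _
      rw [norm_mul]
      refine mul_le_mul (hcE τ i) ?_ (norm_nonneg _) hE0.le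
      have hxw : 4 * (q : ℝ) * (1 + N) ≤ x := by
        have : 4 * q * (1 + N) ≤ x := by
          rw [add_comm 1 N]
          exact hbig.le
        exact_mod_cast this
      exact dpstep_tail hx (by omega) (hb i) (hsum i) hxw hτ
    refine (Finset.sum_le_card_nsmul _ _ _ h2).trans (le_of_eq ?_)
    rw [Finset.card_univ, Fintype.card_fin, nsmul_eq_mul]
    push_cast
    ring
  -- lower bound
  set c' : Fin (N + 1) → 𝓞 K := fun i => c i * (x : 𝓞 K) ^ (2 * D - (v i).2) with hc'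
  have hz' : ∑ i, ((c' i : 𝓞 K) : K) * b i = (x : K) ^ (2 * D) * z := by
    rw [hz, Finset.mul_sum]
    refine Finset.sum_congr rfl fun i _ => ?_
    have h1 : ((c' i : 𝓞 K) : K) = ((c i : 𝓞 K) : K) * (x : K) ^ (2 * D - (v i).2) := by
      change algebraMap (𝓞 K) K (c i * (x : 𝓞 K) ^ (2 * D - (v i).2)) = _
      rw [map_mul, map_pow, map_natCast]
    have h2 : (x : K) ^ (2 * D) = (x : K) ^ (2 * D - (v i).2) * (x : K) ^ (v i).2 := by
      rw [← pow_add]
      congr 1
      have := hv2 i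
      omega
    rw [h1, h2]
    field_simp
  have hz1 : ∑ i, ((c' i : 𝓞 K) : K) * b i ≠ 0 := by
    rw [hz']
    exact mul_ne_zero (pow_ne_zero _ hxK) hz0
  have hlow := norm_lower S Finset.univ (fun i => (v i).1) b c' (fun e => 2 * r - 2 * p e) (fun e => 2 * p e) (by
    intro i _ e
    have h1 := hv i e
    have h2 := hp e
    constructor
    · push_cast
      exact h1.1
    · rw [Nat.cast_sub (by omega)]
      push_cast
      exact h1.2) (fun i _ => (hb i).1) hz1
  have hse : ∑ e, ((2 * r - 2 * p e) + 2 * p e) = 2 * r * (H n).card := by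
    have h1 : ∀ e ∈ (Finset.univ : Finset (H n)), (2 * r - 2 * p e) + 2 * p e = 2 * r := by
      intro e _
      have := hp e
      omega
    rw [Finset.sum_congr rfl h1, Finset.sum_const, Finset.card_univ, Fintype.card_coe, smul_eq_mul, mul_comm]
  rw [hse, hz'] at hlow
  have hnz : ∀ τ : K →+* ℂ, ‖τ ((x : K) ^ (2 * D) * z)‖ = (x : ℝ) ^ (2 * D) * ‖τ z‖ := by
    intro τ
    rw [map_mul, map_pow, map_natCast, norm_mul, norm_pow, Complex.norm_natCast]
  have hup := (norm_le_T hn3 hT ((x : K) ^ (2 * D) * z)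
    (A := (x : ℝ) ^ (2 * D) * ((N + 1) * E * (2 * (1 + N) ^ N / (x : ℝ) ^ N))) (B := (x : ℝ) ^ (2 * D) * ((N + 1) * E))
    (fun τ hτ => by
      rw [hnz]
      exact mul_le_mul_of_nonneg_left (hA τ hτ) (by positivity))
    (fun τ => by
      rw [hnz]
      exact mul_le_mul_of_nonneg_left (hB τ) (by positivity))).2
  have hfin : 1 ≤ (y : ℝ) ^ (2 * r * (H n).card) *
      (((x : ℝ) ^ (2 * D) * ((N + 1) * E * (2 * (1 + N) ^ N / (x : ℝ) ^ N))) ^ (2 * T.card) *
        ((x : ℝ) ^ (2 * D) * ((N + 1) * E)) ^ (2 * ((H n).card - T.card))) :=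
    hlow.trans (mul_le_mul_of_nonneg_left hup (by positivity))
  have hqM : q ≤ 4 * q * (N + 1) := by
    calc q = 1 * q * 1 := by ring
      _ ≤ 4 * q * (N + 1) := Nat.mul_le_mul (Nat.mul_le_mul_right _ (by norm_num)) (by omega)
  have hNM : N + 1 ≤ 4 * q * (N + 1) := by
    calc N + 1 = 1 * (N + 1) := by ring
      _ ≤ 4 * q * (N + 1) := Nat.mul_le_mul_right _ (by omega)
  refine dpstep_num (n := n) (r := r) (by omega) hMq hx S.hy hN hTm (y_pow_lt hx (by omega) S.eq) h3 (U := (N + 1) * E)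
    (V := 2 * (1 + N) ^ N) (by positivity) (by positivity) ?_ ?_ hfin
  · have h1 : ((N : ℝ) + 1) * N.factorial ≤ ((4 * q * (N + 1) : ℕ) : ℝ) ^ N := by
      have h2 : (N + 1) * N.factorial ≤ (4 * q * (N + 1)) ^ N := by
        rw [← Nat.factorial_succ]
        calc (N + 1).factorial ≤ (N + 1) ^ N := dpstep_fac N
          _ ≤ (4 * q * (N + 1)) ^ N := Nat.pow_le_pow_left hNM N
      exact_mod_cast h2
    have h2 : W ≤ ((4 * q * (N + 1) : ℕ) : ℝ) ^ 3 := by
      have h4 : q * N * (1 + N) ≤ (4 * q * (N + 1)) ^ 3 := by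
        calc q * N * (1 + N) ≤ (4 * q * (N + 1)) * (4 * q * (N + 1)) * (4 * q * (N + 1)) :=
              Nat.mul_le_mul (Nat.mul_le_mul hqM (by omega)) (by omega)
          _ = (4 * q * (N + 1)) ^ 3 := by ring
      rw [hW]
      exact_mod_cast h4
    calc ((N : ℝ) + 1) * E = ((N : ℝ) + 1) * N.factorial * W ^ (N * (N - 1) / 2) := by rw [hE]; ring
      _ ≤ ((4 * q * (N + 1) : ℕ) : ℝ) ^ N * (((4 * q * (N + 1) : ℕ) : ℝ) ^ 3) ^ (N * (N - 1) / 2) :=
        mul_le_mul h1 (pow_le_pow_left₀ hW0 h2 _) (by positivity) (by positivity)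
      _ = ((4 * q * (N + 1) : ℕ) : ℝ) ^ (N + 3 * (N * (N - 1) / 2)) := by rw [← pow_mul, ← pow_add]
  · have h1 : 2 * (1 + N) ^ N ≤ (4 * q * (N + 1)) ^ (N + 1) := by
      rw [pow_succ, mul_comm]
      exact Nat.mul_le_mul (Nat.pow_le_pow_left (by omega) N) (by omega)
    exact_mod_cast h1

end Pool.Agent.NLS.DC
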