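import Pool.Agent.NLS.DpStep
import Pool.Agent.NLS.DpHank
import Pool.Agent.NLS.DcIdx
import Pool.Agent.NLS.Pig

/-!
# NLS-DpUB: the upper bound for the base with polynomial coefficients

As `UBH.lean`; the functions are `z ^ i f_v`, with the values `x ^ (-i) b_v`. The last column is not a combination of the others since
`1 / x` is not the value `0` of `z` at `0`.
-/

open NumberField Finset
open Pool.Agent.AAP Pool.Agent.Helper7.HU

namespace Pool.Agent.NLS

/-- every set of more than `B` exponents with differences at most `r` has a nonzero minor of the coefficients of the functions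
`z ^ i f_v`, `i < D` -/
def MinorP (n : ℕ) [Fact n.Prime] (q r N D B : ℕ) : Prop :=
  ∀ (K : Type) [Field K] [NumberField K] [IsCyclotomicExtension {n} ℚ K] (X : Finset (H n → ℤ)),
    (∀ s ∈ X, ∀ t ∈ X, ∀ e, |s e - t e| ≤ r) → B < X.card →
    ∃ w : Fin N → (H n → ℤ) × ℕ, (∀ i, (w i).1 ∈ X ∧ (w i).2 < D) ∧
      (Matrix.of fun i j : Fin N => Pz n K q (w i) (j : ℕ)).det ≠ 0

section

variable {n : ℕ} [Fact n.Prime] {K : Type} [Field K] [NumberField K] [IsCyclotomicExtension {n} ℚ K] {q : ℕ}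

private theorem dpub_mk (a : (H n → ℤ) × ℕ) :
    PowerSeries.mk (Pz n K q a) = PowerSeries.X ^ a.2 * PowerSeries.mk (Pj n K q a.1) := by
  ext j
  rw [PowerSeries.coeff_mk, PowerSeries.coeff_X_pow_mul']
  unfold Pz
  split_ifs
  · rw [PowerSeries.coeff_mk]
  · rfl

theorem Pz_add (a b : (H n → ℤ) × ℕ) (j : ℕ) :
    Pz n K q (a + b) j = ∑ p ∈ antidiagonal j, Pz n K q a p.1 * Pz n K q b p.2 := by
  have h1 : PowerSeries.mk (Pj n K q (a.1 + b.1)) =
      PowerSeries.mk (Pj n K q a.1) * PowerSeries.mk (Pj n K q b.1) := by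
    ext i
    rw [PowerSeries.coeff_mk, PowerSeries.coeff_mul, Pj_add]
    exact Finset.sum_congr rfl fun p _ => by rw [PowerSeries.coeff_mk, PowerSeries.coeff_mk]
  have h2 : PowerSeries.mk (Pz n K q (a + b)) =
      PowerSeries.mk (Pz n K q a) * PowerSeries.mk (Pz n K q b) := by
    rw [dpub_mk, dpub_mk, dpub_mk, Prod.fst_add, Prod.snd_add, h1, pow_add]
    ring
  have h3 := congrArg (PowerSeries.coeff j) h2
  rw [PowerSeries.coeff_mk, PowerSeries.coeff_mul] at h3
  rw [h3]
  exact Finset.sum_congr rfl fun p _ => by rw [PowerSeries.coeff_mk, PowerSeries.coeff_mk]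

end

namespace DC

private theorem dpub_main {n : ℕ} [Fact n.Prime] (K : Type) [Field K] [NumberField K]
    [IsCyclotomicExtension {n} ℚ K] {q x y : ℕ} (S : Sol n q x y) {k r N D : ℕ} (hk : 1 ≤ k)
    (hkm : k ≤ (H n).card) (hN : 1 ≤ N) (hD : 2 ≤ D) {B : ℕ} (hM : MinorP n q r N D B)
    (h2 : B * ((Lq n q).index * q ^ k) < (r + 1) ^ (H n).card)
    (h3 : 2 * (H n).card * r * n + 8 * (H n).card * D * q ≤ k * N * q) :
    (k : ℝ) * Real.log x ≤ 20 * (H n).card * N * Real.log (4 * q * (N + 1)) := by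
  classical
  have hn5 := S.hn5
  have hx0 : (x : K) ≠ 0 := by
    have := S.hx
    exact Nat.cast_ne_zero.2 (by omega)
  obtain ⟨T, hTc, hTf⟩ := exists_T n K (by omega) hkm
  obtain ⟨hi0, hi1⟩ := lam_index (K := K) S T
  obtain ⟨p, X, hp, hX, h0X, hXs⟩ := pigeon_many (Lam (n := n) (K := K) q S.hx T) hi0 r
  rw [Fintype.card_coe] at hX
  have hNX : B < X.card := by
    by_contra hcon
    push Not at hcon
    have h4 : X.card * (Lam (n := n) (K := K) q S.hx T).index ≤
        B * ((Lq n q).index * q ^ k) := by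
      rw [← hTc]
      exact Nat.mul_le_mul hcon hi1
    omega
  obtain ⟨u, huX, hudet⟩ := hM K X
    (fun s hs t ht e => by
      have h5 := (hXs s hs).2 e
      have h6 := (hXs t ht).2 e
      rw [abs_le]
      constructor <;> omega) hNX
  choose! b hb using fun (s : H n → ℤ) (hs : s ∈ Lam (n := n) (K := K) q S.hx T) => hs
  have hroot : ∀ s ∈ Lam (n := n) (K := K) q S.hx T, IsRt n q x T s (b s) := hb
  have hTne : T.Nonempty := by
    rw [← Finset.card_pos, hTc]
    exact hk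
  have huniq : ∀ {s : H n → ℤ} {c d : K}, IsRt n q x T s c → IsRt n q x T s d → c = d := by
    intro s c d hc hd
    obtain ⟨τ, hτ⟩ := hTne
    apply τ.injective
    rw [hc.2 τ hτ, hd.2 τ hτ]
  obtain ⟨Y, hY⟩ : ∃ Y : Finset ((H n → ℤ) × ℕ), Y = X ×ˢ range D := ⟨_, rfl⟩
  have hYmem : ∀ a, a ∈ Y ↔ a.1 ∈ X ∧ a.2 < D := by
    intro a
    rw [hY, mem_product, mem_range]
  obtain ⟨v, hv, hvdet⟩ := hankelP (fun j a => Pz n K q a j) (fun a => b a.1 / (x : K) ^ a.2) Y
    ((hYmem 0).2 ⟨h0X, by show 0 < D; omega⟩) (fun a _ c _ j => Pz_add a c j)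
    (fun a ha c hc => by
      have h5 := (hXs _ ((hYmem a).1 ha).1).1
      have h6 := (hXs _ ((hYmem c).1 hc).1).1
      have h7 : b (a.1 + c.1) = b a.1 * b c.1 :=
        huniq (hroot _ (add_mem h5 h6)) ((hroot _ h5).add S.hx (hroot _ h6))
      show b (a.1 + c.1) / (x : K) ^ (a.2 + c.2) = b a.1 / (x : K) ^ a.2 * (b c.1 / (x : K) ^ c.2)
      rw [h7, pow_add]
      field_simp)
    (by
      have h8 : b 0 = 1 := huniq (hroot _ (zero_mem _)) (isRt_zero q x T)
      show b 0 / (x : K) ^ 0 = 1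
      rw [h8, pow_zero, div_one])
    ⟨(0, 1), (hYmem _).2 ⟨h0X, by show 1 < D; omega⟩, by
      have h8 : b 0 = 1 := huniq (hroot _ (zero_mem _)) (isRt_zero q x T)
      have h9 : Pz n K q ((0 : H n → ℤ), 1) 0 = 0 := by
        unfold Pz
        exact if_neg (by omega)
      show b 0 / (x : K) ^ 1 ≠ Pz n K q ((0 : H n → ℤ), 1) 0
      rw [h9, h8, pow_one]
      exact one_div_ne_zero hx0⟩
    u (fun i => (hYmem _).2 (huX i)) hudet
  have hfin := norm_stepP S hTf hN (by omega) (r := r) (D := D) p hp v (fun i => b (v i).1) (fun i => by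
      obtain ⟨a, ha, c, hc, h5⟩ := hv i
      refine hroot _ ?_
      rw [h5]
      exact add_mem (hXs _ ((hYmem a).1 ha).1).1 (hXs _ ((hYmem c).1 hc).1).1) (fun i e => by
      obtain ⟨a, ha, c, hc, h5⟩ := hv i
      have h6 := (hXs _ ((hYmem a).1 ha).1).2 e
      have h7 := (hXs _ ((hYmem c).1 hc).1).2 e
      rw [h5, Prod.fst_add, Pi.add_apply]
      constructor <;> linarith [h6.1, h6.2, h7.1, h7.2]) (fun i => by
      obtain ⟨a, ha, c, hc, h5⟩ := hv i
      have h6 := ((hYmem a).1 ha).2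
      have h7 := ((hYmem c).1 hc).2
      rw [h5, Prod.snd_add]
      omega) hvdet (by rw [hTc]; exact h3)
  rw [hTc] at hfin
  exact hfin

private theorem dpub_field (n : ℕ) [NeZero n] : ∃ (K : Type) (_ : Field K) (_ : NumberField K),
    IsCyclotomicExtension {n} ℚ K := by
  refine ⟨CyclotomicField n ℚ, inferInstance, inferInstance, ?_⟩
  have h := CyclotomicField.isCyclotomicExtension n ℚ
  have h1 : CyclotomicField.algebra n ℚ = DivisionRing.toRatAlgebra := Subsingleton.elim _ _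
  rw [h1] at h
  exact h

theorem upperP {n : ℕ} [Fact n.Prime] {q x y : ℕ} (S : Sol n q x y) {k r N D B : ℕ} (hk : 1 ≤ k)
    (hkm : k ≤ (H n).card) (hN : 1 ≤ N) (hD : 2 ≤ D) (hM : MinorP n q r N D B)
    (h2 : B * ((Lq n q).index * q ^ k) < (r + 1) ^ (H n).card)
    (h3 : 2 * (H n).card * r * n + 8 * (H n).card * D * q ≤ k * N * q) :
    (k : ℝ) * Real.log x ≤ 20 * (H n).card * N * Real.log (4 * q * (N + 1)) := by
  have hn0 : NeZero n := ⟨S.hn.ne_zero⟩
  obtain ⟨K, _, _, _⟩ := dpub_field n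
  exact dpub_main K S hk hkm hN hD hM h2 h3

end DC

end Pool.Agent.NLS
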