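import Pool.Agent.NLS.Ex

/-!
# NLS-Ev: values of the formal exponentials

`V τ z g = ∑ τ (ex g j) z ^ j`.
-/

open Finset

namespace Pool.Agent.NLS

variable {K : Type} [Field K] [CharZero K]

/-- the value at `z` under the embedding `τ` -/
noncomputable def V (τ : K →+* ℂ) (z : ℂ) (g : ℕ → K) : ℂ := ∑' j : ℕ, τ (ex g j) * z ^ j

private theorem ev_bd (τ : K →+* ℂ) {z : ℂ} {g : ℕ → K} {B : ℝ} (hB0 : 0 ≤ B)
    (hB : ∀ i, ‖τ (g (i + 1))‖ ≤ B) (j : ℕ) :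
    ‖τ (ex g j) * z ^ j‖ ≤ ((1 + B) * ‖z‖) ^ j := by
  rw [norm_mul, norm_pow, mul_pow]
  exact mul_le_mul_of_nonneg_right (ex_bound τ g hB0 hB j) (pow_nonneg (norm_nonneg z) j)

private theorem ev_nn {z : ℂ} {B : ℝ} (hB0 : 0 ≤ B) : 0 ≤ (1 + B) * ‖z‖ :=
  mul_nonneg (by linarith) (norm_nonneg z)

private theorem ev_sn (τ : K →+* ℂ) {z : ℂ} {g : ℕ → K} {B : ℝ} (hB0 : 0 ≤ B)
    (hB : ∀ i, ‖τ (g (i + 1))‖ ≤ B) (hz : (1 + B) * ‖z‖ ≤ 1 / 2) :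
    Summable fun j : ℕ => ‖τ (ex g j) * z ^ j‖ :=
  Summable.of_nonneg_of_le (fun _ => norm_nonneg _) (ev_bd τ hB0 hB)
    (summable_geometric_of_lt_one (ev_nn hB0) (by linarith))

theorem V_summable (τ : K →+* ℂ) {z : ℂ} {g : ℕ → K} {B : ℝ} (hB0 : 0 ≤ B)
    (hB : ∀ i, ‖τ (g (i + 1))‖ ≤ B) (hz : (1 + B) * ‖z‖ ≤ 1 / 2) :
    Summable fun j : ℕ => τ (ex g j) * z ^ j :=
  (ev_sn τ hB0 hB hz).of_norm

theorem V_tail (τ : K →+* ℂ) {z : ℂ} {g : ℕ → K} {B : ℝ} (hB0 : 0 ≤ B)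
    (hB : ∀ i, ‖τ (g (i + 1))‖ ≤ B) (hz : (1 + B) * ‖z‖ ≤ 1 / 2) (N : ℕ) :
    ‖V τ z g - ∑ j ∈ range N, τ (ex g j) * z ^ j‖ ≤ 2 * ((1 + B) * ‖z‖) ^ N := by
  have hs := V_summable τ hB0 hB hz
  have h1 : V τ z g - ∑ j ∈ range N, τ (ex g j) * z ^ j =
      ∑' j : ℕ, τ (ex g (j + N)) * z ^ (j + N) := by
    rw [V, ← hs.sum_add_tsum_nat_add N]
    ring
  rw [h1]
  have hr0 := ev_nn (z := z) hB0
  have h2 : HasSum (fun j : ℕ => ((1 + B) * ‖z‖) ^ (j + N))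
      ((1 - (1 + B) * ‖z‖)⁻¹ * ((1 + B) * ‖z‖) ^ N) := by
    have h3 := (hasSum_geometric_of_lt_one hr0 (by linarith : (1 + B) * ‖z‖ < 1)).mul_right
      (((1 + B) * ‖z‖) ^ N)
    simpa only [pow_add] using h3
  refine (tsum_of_norm_bounded h2 fun j => ev_bd τ hB0 hB (j + N)).trans ?_
  refine mul_le_mul_of_nonneg_right ?_ (pow_nonneg hr0 N)
  have h4 : (1 / 2 : ℝ) ≤ 1 - (1 + B) * ‖z‖ := by linarith
  calc (1 - (1 + B) * ‖z‖)⁻¹ ≤ (1 / 2 : ℝ)⁻¹ := inv_anti₀ (by norm_num) h4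
    _ = 2 := by norm_num

private theorem ev_add (τ : K →+* ℂ) {z : ℂ} {g g' : ℕ → K} {B B' : ℝ} (hB0 : 0 ≤ B)
    (hB0' : 0 ≤ B') (hB : ∀ i, ‖τ (g (i + 1))‖ ≤ B) (hB' : ∀ i, ‖τ (g' (i + 1))‖ ≤ B')
    (hz : (1 + B) * ‖z‖ ≤ 1 / 2) (hz' : (1 + B') * ‖z‖ ≤ 1 / 2) :
    V τ z (fun i => g i + g' i) = V τ z g * V τ z g' := by
  unfold V
  rw [tsum_mul_tsum_eq_tsum_sum_antidiagonal_of_summable_norm (ev_sn τ hB0 hB hz)
    (ev_sn τ hB0' hB' hz')]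
  refine tsum_congr fun n => ?_
  rw [ex_add, map_sum, sum_mul]
  refine sum_congr rfl fun p hp => ?_
  rw [HasAntidiagonal.mem_antidiagonal] at hp
  rw [map_mul, ← hp, pow_add]
  ring

theorem V_add (τ : K →+* ℂ) {z : ℂ} {g g' : ℕ → K} {B B' : ℝ} (hB0 : 0 ≤ B) (hB0' : 0 ≤ B')
    (hB : ∀ i, ‖τ (g (i + 1))‖ ≤ B) (hB' : ∀ i, ‖τ (g' (i + 1))‖ ≤ B')
    (hz : (1 + (B + B')) * ‖z‖ ≤ 1 / 2) :
    V τ z (fun i => g i + g' i) = V τ z g * V τ z g' := by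
  refine ev_add τ hB0 hB0' hB hB' (le_trans ?_ hz) (le_trans ?_ hz)
  · exact mul_le_mul_of_nonneg_right (by linarith) (norm_nonneg z)
  · exact mul_le_mul_of_nonneg_right (by linarith) (norm_nonneg z)

theorem V_zero (τ : K →+* ℂ) (z : ℂ) : V τ z (fun _ => 0) = 1 := by
  unfold V
  rw [tsum_eq_single 0]
  · rw [ex_of_zero]
    simp
  · intro j hj
    rw [ex_of_zero, if_neg hj, map_zero, zero_mul]

private theorem ev_nat (τ : K →+* ℂ) {z : ℂ} {g : ℕ → K} {B : ℝ} (hB0 : 0 ≤ B)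
    (hB : ∀ i, ‖τ (g (i + 1))‖ ≤ B) (n : ℕ) (hz : (1 + (n : ℝ) * B) * ‖z‖ ≤ 1 / 2) :
    V τ z (fun i => (n : K) * g i) = V τ z g ^ n := by
  induction n with
  | zero =>
    have h : (fun i => ((0 : ℕ) : K) * g i) = fun _ => 0 := by
      funext i
      simp
    rw [h, V_zero, pow_zero]
  | succ n ih =>
    push_cast at hz
    have hn0 : (0 : ℝ) ≤ n := Nat.cast_nonneg n
    have hnB : 0 ≤ (n : ℝ) * B := mul_nonneg hn0 hB0
    have hz1 : (1 + (n : ℝ) * B) * ‖z‖ ≤ 1 / 2 :=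
      le_trans (mul_le_mul_of_nonneg_right (by linarith) (norm_nonneg z)) hz
    have hz2 : (1 + B) * ‖z‖ ≤ 1 / 2 :=
      le_trans (mul_le_mul_of_nonneg_right (by linarith) (norm_nonneg z)) hz
    have h : (fun i => ((n + 1 : ℕ) : K) * g i) = fun i => (n : K) * g i + g i := by
      funext i
      push_cast
      ring
    have hBn : ∀ i, ‖τ ((n : K) * g (i + 1))‖ ≤ (n : ℝ) * B := by
      intro i
      rw [map_mul, map_natCast, norm_mul, Complex.norm_natCast]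
      exact mul_le_mul_of_nonneg_left (hB i) hn0
    rw [h, ev_add τ (g := fun i => (n : K) * g i) hnB hB0 hBn hB hz1 hz2, ih hz1, pow_succ]

theorem V_zsmul (τ : K →+* ℂ) {z : ℂ} {g : ℕ → K} {B : ℝ} (hB0 : 0 ≤ B)
    (hB : ∀ i, ‖τ (g (i + 1))‖ ≤ B) (m : ℤ) (hz : (1 + |(m : ℝ)| * B) * ‖z‖ ≤ 1 / 2) :
    V τ z (fun i => (m : K) * g i) = V τ z g ^ m := by
  obtain ⟨n, rfl | rfl⟩ := m.eq_nat_or_neg
  · have hz' : (1 + (n : ℝ) * B) * ‖z‖ ≤ 1 / 2 := by simpa using hz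
    have h := ev_nat τ hB0 hB n hz'
    rw [zpow_natCast, ← h]
    simp
  · have hz' : (1 + (n : ℝ) * B) * ‖z‖ ≤ 1 / 2 := by simpa using hz
    have hn0 : (0 : ℝ) ≤ n := Nat.cast_nonneg n
    have hnB : 0 ≤ (n : ℝ) * B := mul_nonneg hn0 hB0
    have h1 := ev_nat τ hB0 hB n hz'
    have hB1 : ∀ i, ‖τ ((n : K) * g (i + 1))‖ ≤ (n : ℝ) * B := by
      intro i
      rw [map_mul, map_natCast, norm_mul, Complex.norm_natCast]
      exact mul_le_mul_of_nonneg_left (hB i) hn0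
    have hB2 : ∀ i, ‖τ (((-(n : ℤ) : ℤ) : K) * g (i + 1))‖ ≤ (n : ℝ) * B := by
      intro i
      have h2 : ((-(n : ℤ) : ℤ) : K) * g (i + 1) = -((n : K) * g (i + 1)) := by
        push_cast
        ring
      rw [h2, map_neg, norm_neg]
      exact hB1 i
    have h3 := ev_add τ (g := fun i => (n : K) * g i)
      (g' := fun i => ((-(n : ℤ) : ℤ) : K) * g i) hnB hnB hB1 hB2 hz' hz'
    have h4 : (fun i => (n : K) * g i + ((-(n : ℤ) : ℤ) : K) * g i) = fun _ => 0 := by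
      funext i
      push_cast
      ring
    rw [h4, V_zero, h1] at h3
    rw [zpow_neg, zpow_natCast]
    exact eq_inv_of_mul_eq_one_right h3.symm

theorem V_neg_pow (τ : K →+* ℂ) (z : ℂ) (w : K) : V τ z (fun i => -w ^ i) = 1 - τ w * z := by
  unfold V
  rw [tsum_eq_sum (s := range 2)]
  · rw [sum_range_succ, sum_range_one, ex_neg_pow, ex_neg_pow]
    simp
    ring
  · intro j hj
    rw [mem_range, not_lt] at hj
    rw [ex_neg_pow, if_neg (by omega), if_neg (by omega), map_zero, zero_mul]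

end Pool.Agent.NLS
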