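import Pool.Agent.NLS.VThree
import Pool.Agent.NLS.LaFin

/-!
# NLS-FinA: no solutions for large exponents, final form
-/

namespace Pool.Agent.NLS

private theorem fina_PL : PL := partL2

private theorem fina_ord {n q f : ℕ} (hn : n.Prime) (hn3 : 3 ≤ n) (hq : q.Prime) (hqn : q ≠ n)
    (hf : ∀ j, 0 < j → j < f → ¬ n ∣ q ^ j - 1 ∧ ¬ n ∣ q ^ j + 1) :
    f ≤ orderOf ((q : ZMod n) ^ 2) ∧ 0 < orderOf ((q : ZMod n) ^ 2) := by
  have : Fact n.Prime := ⟨hn⟩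
  have hpos : 0 < orderOf ((q : ZMod n) ^ 2) := by
    have hco : q.Coprime n := (Nat.coprime_primes hq hn).2 hqn
    rw [← ZMod.coe_unitOfCoprime q hco, ← Units.val_pow_eq_pow_val, orderOf_units]
    exact orderOf_pos _
  refine ⟨?_, hpos⟩
  by_contra hlt
  push Not at hlt
  obtain ⟨h1, h2⟩ := hf _ hpos hlt
  set j := orderOf ((q : ZMod n) ^ 2) with hj
  have h3 : ((q : ZMod n) ^ 2) ^ j = 1 := pow_orderOf_eq_one _
  have h4 : ((q : ZMod n) ^ j - 1) * ((q : ZMod n) ^ j + 1) = 0 := by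
    have h5 : ((q : ZMod n) ^ j - 1) * ((q : ZMod n) ^ j + 1) = ((q : ZMod n) ^ 2) ^ j - 1 := by
      rw [← pow_mul, mul_comm 2 j, pow_mul]
      ring
    rw [h5, h3, sub_self]
  rcases mul_eq_zero.1 h4 with h5 | h5
  · apply h1
    rw [← ZMod.natCast_eq_zero_iff, Nat.cast_sub (Nat.one_le_pow _ _ hq.pos), Nat.cast_one,
      Nat.cast_pow]
    exact h5
  · apply h2
    rw [← ZMod.natCast_eq_zero_iff, Nat.cast_add, Nat.cast_one, Nat.cast_pow]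
    exact h5

/-- `n` a large prime, `q ≠ n` a prime factor of the exponent `m` with `q * min(n, q) ^ (1 - 1/f) ≥ n ^ (3/2 + ε)`,
where `q ^ j` is not congruent to `1` or `-1` modulo `n` for `0 < j < f` -/
theorem fin_A (ε : ℝ) (hε : 0 < ε) : ∃ n0 : ℕ, ∀ n q f m x y : ℕ, n0 ≤ n → n.Prime → q.Prime →
    q ≠ n → q ∣ m → 0 < f → (∀ j, 0 < j → j < f → ¬ n ∣ q ^ j - 1 ∧ ¬ n ∣ q ^ j + 1) →
    (n : ℝ) ^ (3 / 2 + ε) ≤ q * ((min n q : ℕ) : ℝ) ^ (1 - 1 / (f : ℝ)) →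
    1 < x → 1 < y → y ^ m * (x - 1) ≠ x ^ n - 1 := by
  obtain ⟨n0, h⟩ := v_three fina_PL ε hε
  refine ⟨max n0 3, fun n q f m x y hn hnp hqp hqn hqm hf0 hf hreg hx hy heq => ?_⟩
  have hn0 : n0 ≤ n := (le_max_left _ _).trans hn
  have hn3 : 3 ≤ n := (le_max_right _ _).trans hn
  obtain ⟨h1, h2⟩ := fina_ord hnp hn3 hqp hqn hf
  obtain ⟨t, rfl⟩ := hqm
  have ht : t ≠ 0 := by
    rintro rfl
    rw [mul_zero, pow_zero, one_mul] at heq
    have h3 : x ^ 1 < x ^ n := Nat.pow_lt_pow_right hx (by omega)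
    rw [pow_one] at h3
    omega
  have hreg' : (n : ℝ) ^ (3 / 2 + ε) ≤
      q * ((min n q : ℕ) : ℝ) ^ (1 - 1 / (orderOf ((q : ZMod n) ^ 2) : ℝ)) := by
    refine hreg.trans (mul_le_mul_of_nonneg_left ?_ (Nat.cast_nonneg q))
    refine Real.rpow_le_rpow_of_exponent_le ?_ ?_
    · exact_mod_cast le_min (by omega : 1 ≤ n) hqp.one_lt.le
    · have h3 : (0 : ℝ) < f := by exact_mod_cast hf0
      have h4 : (f : ℝ) ≤ orderOf ((q : ZMod n) ^ 2) := by exact_mod_cast h1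
      have h5 : 1 / (orderOf ((q : ZMod n) ^ 2) : ℝ) ≤ 1 / f := one_div_le_one_div_of_le h3 h4
      linarith
  refine h n q x (y ^ t) hn0 hnp hqp hqn hreg' hx (Nat.one_lt_pow ht hy) ?_
  rw [← pow_mul, mul_comm t q]
  exact heq

end Pool.Agent.NLS
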