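import Pool.Agent.NLS.VCount
import Pool.Agent.NLS.LaFin

/-!
# NLS-FinB: few exceptional exponents, final form
-/

namespace Pool.Agent.NLS

/-- for every prime `n ≥ 5` at most `C log n` primes `q ≥ n ^ (1/2 + ε)`, and at most `C` of them not congruent to
`1` or `-1` modulo `n`, divide the exponent of a solution of length `n` -/
theorem fin_B (ε : ℝ) (hε : 0 < ε) : ∃ C : ℝ, ∀ n : ℕ, n.Prime → 5 ≤ n →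
    {q : ℕ | q.Prime ∧ (n : ℝ) ^ (1 / 2 + ε) ≤ q ∧
      ∃ x y : ℕ, 1 < x ∧ 1 < y ∧ y ^ q * (x - 1) = x ^ n - 1}.Finite ∧
    ({q : ℕ | q.Prime ∧ (n : ℝ) ^ (1 / 2 + ε) ≤ q ∧
      ∃ x y : ℕ, 1 < x ∧ 1 < y ∧ y ^ q * (x - 1) = x ^ n - 1}.ncard : ℝ) ≤ C * Real.log n ∧
    ({q : ℕ | q.Prime ∧ (n : ℝ) ^ (1 / 2 + ε) ≤ q ∧ ¬ n ∣ q - 1 ∧ ¬ n ∣ q + 1 ∧
      ∃ x y : ℕ, 1 < x ∧ 1 < y ∧ y ^ q * (x - 1) = x ^ n - 1}.ncard : ℝ) ≤ C :=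
  v_two partL2 ε hε

end Pool.Agent.NLS
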