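import Pool.Agent.NLE.ZRes

/-!
# NLS-LaApp: the polynomial of a combination of the entries

`F = ∑ a < K1, ∑ b < K2, ∑ l < L, C (c a b l • (A_a * B_b)) * X ^ l` with `A_a` the binomial polynomial in the inner
variable `U` and `B_b` the binomial polynomial in the outer variable `V`.
-/

namespace Pool.Agent.NLS

open Polynomial Pool.Agent.NLE.Zer

/-- the binomial polynomial -/
private noncomputable def laApp_bp (a : ℕ) : ℝ[X] := C ((a.factorial : ℝ)⁻¹) * descPochhammer ℝ a

private theorem laApp_bp_deg (a : ℕ) : (laApp_bp a).natDegree ≤ a := by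
  unfold laApp_bp
  refine (natDegree_C_mul_le _ _).trans ?_
  rw [descPochhammer_natDegree]

private theorem laApp_bp_eval (a x : ℕ) : (laApp_bp a).eval (x : ℝ) = ((x.choose a : ℕ) : ℝ) := by
  unfold laApp_bp
  rw [eval_mul, eval_C, descPochhammer_eval_eq_descFactorial, Nat.descFactorial_eq_factorial_mul_choose,
    Nat.cast_mul, ← mul_assoc, inv_mul_cancel₀, one_mul]
  exact_mod_cast (Nat.factorial_ne_zero a)

private theorem laApp_deg_aeval (p : ℝ[X]) (t : P2) (d : ℕ) (ht : t.natDegree ≤ d) :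
    (aeval t p).natDegree ≤ p.natDegree * d := by
  rw [aeval_eq_sum_range]
  refine natDegree_sum_le_of_forall_le _ _ ?_
  intro i hi
  refine (natDegree_smul_le _ _).trans ?_
  refine natDegree_pow_le.trans ?_
  exact Nat.mul_le_mul (by simpa [Nat.lt_succ_iff] using Finset.mem_range.1 hi) ht

private theorem laApp_swap_aeval (p : ℝ[X]) (t : P2) :
    Bivariate.swap (aeval t p) = aeval (Bivariate.swap t) p := by
  rw [aeval_eq_sum_range, aeval_eq_sum_range, map_sum]
  refine Finset.sum_congr rfl fun i _ => ?_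
  rw [map_smul, map_pow]

private theorem laApp_ev_aeval (p : ℝ[X]) (t : P2) (a b : ℝ) :
    ev2 a b (aeval t p) = p.eval (ev2 a b t) := by
  rw [aeval_eq_sum_range, eval_eq_sum_range, map_sum]
  refine Finset.sum_congr rfl fun i _ => ?_
  rw [Algebra.smul_def, map_mul, map_pow]
  congr 1
  have h : (algebraMap ℝ P2) (p.coeff i) = C (C (p.coeff i)) := rfl
  rw [h]
  simp [ev2]

private noncomputable def laApp_A (a : ℕ) : P2 := aeval (C X : P2) (laApp_bp a)

private noncomputable def laApp_B (b : ℕ) : P2 := aeval (X : P2) (laApp_bp b)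

private theorem laApp_A_deg (a : ℕ) : (laApp_A a).natDegree ≤ 0 := by
  unfold laApp_A
  refine (laApp_deg_aeval _ _ 0 (by rw [natDegree_C])).trans ?_
  rw [mul_zero]

private theorem laApp_A_degU (a : ℕ) : (Bivariate.swap (laApp_A a)).natDegree ≤ a := by
  unfold laApp_A
  rw [laApp_swap_aeval, Bivariate.swap_X]
  refine (laApp_deg_aeval _ _ 1 natDegree_X_le).trans ?_
  rw [mul_one]
  exact laApp_bp_deg a

private theorem laApp_B_deg (b : ℕ) : (laApp_B b).natDegree ≤ b := by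
  refine (laApp_deg_aeval _ _ 1 natDegree_X_le).trans ?_
  rw [mul_one]
  exact laApp_bp_deg b

private theorem laApp_B_degU (b : ℕ) : (Bivariate.swap (laApp_B b)).natDegree ≤ 0 := by
  unfold laApp_B
  rw [laApp_swap_aeval, Bivariate.swap_Y]
  refine (laApp_deg_aeval _ _ 0 (by rw [natDegree_C])).trans ?_
  rw [mul_zero]

private theorem laApp_A_ev (a x : ℕ) (v : ℝ) :
    ev2 (x : ℝ) v (laApp_A a) = ((x.choose a : ℕ) : ℝ) := by
  unfold laApp_A
  rw [laApp_ev_aeval]
  have h : ev2 (x : ℝ) v (C X : P2) = (x : ℝ) := by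
    unfold ev2
    simp
  rw [h, laApp_bp_eval]

private theorem laApp_B_ev (b y : ℕ) (u : ℝ) :
    ev2 u (y : ℝ) (laApp_B b) = ((y.choose b : ℕ) : ℝ) := by
  unfold laApp_B
  rw [laApp_ev_aeval]
  have h : ev2 u (y : ℝ) (X : P2) = (y : ℝ) := by
    unfold ev2
    simp
  rw [h, laApp_bp_eval]

/-- the coefficient of `Y ^ l` -/
private noncomputable def laApp_G (K1 K2 : ℕ) (c : ℕ → ℕ → ℕ → ℝ) (l : ℕ) : P2 :=
  ∑ a ∈ Finset.range K1, ∑ b ∈ Finset.range K2, C (C (c a b l)) * (laApp_A a * laApp_B b)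

private theorem laApp_G_deg (K1 K2 : ℕ) (c : ℕ → ℕ → ℕ → ℝ) (l : ℕ) :
    (laApp_G K1 K2 c l).natDegree ≤ K2 := by
  unfold laApp_G
  refine natDegree_sum_le_of_forall_le _ _ fun a ha => ?_
  refine natDegree_sum_le_of_forall_le _ _ fun b hb => ?_
  refine (natDegree_C_mul_le _ _).trans (natDegree_mul_le.trans ?_)
  have h1 := laApp_A_deg a
  have h2 := laApp_B_deg b
  have h4 := Finset.mem_range.1 hb
  omega

private theorem laApp_G_degU (K1 K2 : ℕ) (c : ℕ → ℕ → ℕ → ℝ) (l : ℕ) :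
    degU (laApp_G K1 K2 c l) ≤ K1 := by
  unfold degU laApp_G
  rw [map_sum]
  refine natDegree_sum_le_of_forall_le _ _ fun a ha => ?_
  rw [map_sum]
  refine natDegree_sum_le_of_forall_le _ _ fun b hb => ?_
  rw [map_mul, map_mul, Bivariate.swap_C_C]
  refine (natDegree_C_mul_le _ _).trans (natDegree_mul_le.trans ?_)
  have h1 := laApp_A_degU a
  have h2 := laApp_B_degU b
  have h3 := Finset.mem_range.1 ha
  omega

private theorem laApp_G_ev (K1 K2 : ℕ) (c : ℕ → ℕ → ℕ → ℝ) (l x y : ℕ) :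
    ev2 (x : ℝ) (y : ℝ) (laApp_G K1 K2 c l) =
      ∑ a ∈ Finset.range K1, ∑ b ∈ Finset.range K2,
        c a b l * ((x.choose a : ℕ) : ℝ) * ((y.choose b : ℕ) : ℝ) := by
  unfold laApp_G
  rw [map_sum]
  refine Finset.sum_congr rfl fun a _ => ?_
  rw [map_sum]
  refine Finset.sum_congr rfl fun b _ => ?_
  rw [map_mul, map_mul, laApp_A_ev, laApp_B_ev, ← mul_assoc]
  congr 2
  unfold ev2
  simp

private theorem laApp_tri (K : ℕ) (e : ℕ → ℝ)
    (h : ∀ x : ℕ, ∑ a ∈ Finset.range K, e a * ((x.choose a : ℕ) : ℝ) = 0) :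
    ∀ a < K, e a = 0 := by
  intro a
  induction a using Nat.strong_induction_on with
  | _ a ih =>
    intro ha
    have h1 := h a
    rw [Finset.sum_eq_single a] at h1
    · rw [Nat.choose_self, Nat.cast_one, mul_one] at h1
      exact h1
    · intro b hb hba
      rcases lt_or_gt_of_ne hba with h2 | h2
      · rw [ih b h2 (Finset.mem_range.1 hb), zero_mul]
      · rw [Nat.choose_eq_zero_of_lt h2, Nat.cast_zero, mul_zero]
    · intro h2
      exact absurd (Finset.mem_range.2 ha) h2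

/-- the polynomial -/
private noncomputable def laApp_F (K1 K2 L : ℕ) (c : ℕ → ℕ → ℕ → ℝ) : P3 :=
  ∑ l ∈ Finset.range L, C (laApp_G K1 K2 c l) * X ^ l

private theorem laApp_F_coeff (K1 K2 L : ℕ) (c : ℕ → ℕ → ℕ → ℝ) (i : ℕ) :
    (laApp_F K1 K2 L c).coeff i = if i < L then laApp_G K1 K2 c i else 0 := by
  unfold laApp_F
  rw [finsetSum_coeff]
  simp only [coeff_C_mul_X_pow]
  rw [Finset.sum_ite_eq]
  simp only [Finset.mem_range]

theorem exists_poly4 (K1 K2 L : ℕ) (hL : 1 ≤ L) (c : ℕ → ℕ → ℕ → ℝ) :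
    ∃ F : P3, F.natDegree < L ∧ (∀ i, (F.coeff i).natDegree ≤ K2) ∧ (∀ i, degU (F.coeff i) ≤ K1) ∧
      (∀ (Z Y : ℕ) (z : ℝ), ev3 (Z : ℝ) (Y : ℝ) z F =
        ∑ a ∈ Finset.range K1, ∑ b ∈ Finset.range K2, ∑ l ∈ Finset.range L,
          c a b l * ((Z.choose a : ℕ) : ℝ) * ((Y.choose b : ℕ) : ℝ) * z ^ l) ∧
      (F = 0 → ∀ a < K1, ∀ b < K2, ∀ l < L, c a b l = 0) := by
  refine ⟨laApp_F K1 K2 L c, ?_, ?_, ?_, ?_, ?_⟩
  · have h1 : (laApp_F K1 K2 L c).natDegree ≤ L - 1 := by
      unfold laApp_F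
      refine natDegree_sum_le_of_forall_le _ _ fun l hl => ?_
      refine (natDegree_C_mul_X_pow_le _ _).trans ?_
      have := Finset.mem_range.1 hl
      omega
    omega
  · intro i
    rw [laApp_F_coeff]
    split_ifs
    · exact laApp_G_deg K1 K2 c i
    · rw [natDegree_zero]
      exact Nat.zero_le _
  · intro i
    rw [laApp_F_coeff]
    split_ifs
    · exact laApp_G_degU K1 K2 c i
    · unfold degU
      rw [map_zero, natDegree_zero]
      exact Nat.zero_le _
  · intro Z Y z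
    have h1 : ev3 (Z : ℝ) (Y : ℝ) z (laApp_F K1 K2 L c) =
        ∑ l ∈ Finset.range L, (∑ a ∈ Finset.range K1, ∑ b ∈ Finset.range K2,
          c a b l * ((Z.choose a : ℕ) : ℝ) * ((Y.choose b : ℕ) : ℝ)) * z ^ l := by
      unfold ev3 laApp_F
      rw [map_sum]
      refine Finset.sum_congr rfl fun l _ => ?_
      rw [map_mul, map_pow, coe_eval₂RingHom, eval₂_C, eval₂_X, laApp_G_ev]
    rw [h1]
    simp only [Finset.sum_mul]
    rw [Finset.sum_comm]
    refine Finset.sum_congr rfl fun a _ => ?_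
    rw [Finset.sum_comm]
  · intro hF a ha b hb l hl
    have hG : laApp_G K1 K2 c l = 0 := by
      have h1 := laApp_F_coeff K1 K2 L c l
      rw [hF, coeff_zero, if_pos hl] at h1
      exact h1.symm
    have h2 : ∀ x y : ℕ, ∑ a ∈ Finset.range K1, (∑ b ∈ Finset.range K2,
        c a b l * ((y.choose b : ℕ) : ℝ)) * ((x.choose a : ℕ) : ℝ) = 0 := by
      intro x y
      have h3 := laApp_G_ev K1 K2 c l x y
      rw [hG, map_zero] at h3
      rw [h3]
      refine Finset.sum_congr rfl fun a _ => ?_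
      rw [Finset.sum_mul]
      refine Finset.sum_congr rfl fun b _ => ?_
      ring
    have h4 : ∀ y : ℕ, ∑ b ∈ Finset.range K2, c a b l * ((y.choose b : ℕ) : ℝ) = 0 :=
      fun y => laApp_tri K1 _ (fun x => h2 x y) a ha
    exact laApp_tri K2 _ h4 b hb

end Pool.Agent.NLS
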