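import Mathlib

/-!
# NLS-LaDefs: entries of the interpolation matrix (Part L*, theta = 1)

`q log α₁ = ρ log α₂ + log α₃ - (tiny)`, `0 ≤ ρ < q` (here `ρ` is `rho - 1` of `Sit2`).  Point `(r, s, t)`:
`Z = ρ r + q s`, `Y = r + q t`, `λ = α₁^r α₂^s α₃^t`, so `q log λ = Z log α₂ + Y log α₃ - r (tiny)`; function `(a, b, l)`:
`C(Z, a) C(Y, b) λ^l`.
-/

namespace Pool.Agent.NLS

/-- Entry: row `(a, b, l)`, column `(r, s, t)`. -/
noncomputable def ent4 (q rho : ℕ) (α₁ α₂ α₃ : ℝ) (a b l r s t : ℕ) : ℝ :=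
  (((rho * r + q * s).choose a : ℕ) : ℝ) * (((r + q * t).choose b : ℕ) : ℝ) *
    (α₁ ^ r * α₂ ^ s * α₃ ^ t) ^ l

end Pool.Agent.NLS
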