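import Pool.Agent.NLE.ZRes

/-!
# NLS-LaRes: multiplicities of the roots of a resultant

A polynomial matrix with `m` independent (left) kernel vectors at `z` has a determinant divisible by `(X - z) ^ m`. For a common
root `y` of `F (z, ·)` and `G (z, ·)` the vector of the powers of `y` is in the kernel of the Sylvester matrix at `z`.
-/

namespace Pool.Agent.NLS

open Polynomial Pool.Agent.NLE.Zer

private theorem lares_inl {ι V : Type*} [AddCommGroup V] [Module ℝ V] {v : ι → V}
    (hv : LinearIndependent ℝ v) (i : ι) : Module.Basis.sumExtend hv (Sum.inl i) = v i := by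
  classical
  simp [Module.Basis.sumExtend]
  rfl

/-- `m` independent left kernel vectors at `z` give a factor `(X - z) ^ m` of the determinant -/
private theorem lares_det {N m : ℕ} (M : Matrix (Fin N) (Fin N) ℝ[X]) (z : ℝ) (v : Fin m → Fin N → ℝ)
    (hv : LinearIndependent ℝ v) (h : ∀ i, Matrix.vecMul (v i) (M.map (eval z)) = 0) :
    (X - C z) ^ m ∣ M.det := by
  classical
  set b := Module.Basis.sumExtend hv with hb
  set b0 := Pi.basisFun ℝ (Fin N) with hb0
  have hfin : Finite (Fin m ⊕ Module.Basis.sumExtendIndex hv) := Module.Finite.finite_basis b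
  have hfin1 : Finite (Module.Basis.sumExtendIndex hv) := Finite.sum_right (Fin m)
  have hfin2 : Fintype (Module.Basis.sumExtendIndex hv) := Fintype.ofFinite _
  have e : Fin N ≃ (Fin m ⊕ Module.Basis.sumExtendIndex hv) := b0.indexEquiv b
  have hbl : ∀ i : Fin m, b (Sum.inl i) = v i := fun i => lares_inl hv i
  set A : Matrix (Fin m ⊕ Module.Basis.sumExtendIndex hv) (Fin N) ℝ := (b0.toMatrix b).transpose with hA
  set B : Matrix (Fin N) (Fin m ⊕ Module.Basis.sumExtendIndex hv) ℝ := (b.toMatrix b0).transpose with hB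
  have hBA : B * A = 1 := by
    rw [hA, hB, ← Matrix.transpose_mul, Module.Basis.toMatrix_mul_toMatrix_flip, Matrix.transpose_one]
  -- the rows
  have hrow : ∀ i : Fin m, ∀ j : Fin N, ∃ w : ℝ[X], ((A.map C) * M) (Sum.inl i) j = (X - C z) * w := by
    intro i j
    have h1 : (X - C z) ∣ ((A.map C) * M) (Sum.inl i) j := by
      rw [dvd_iff_isRoot, IsRoot.def, Matrix.mul_apply, eval_finsetSum]
      have h2 := congrFun (h i) j
      rw [Matrix.vecMul, dotProduct, Pi.zero_apply] at h2
      rw [← h2]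
      refine Finset.sum_congr rfl fun k _ => ?_
      rw [eval_mul, Matrix.map_apply, Matrix.map_apply, eval_C, hA, Matrix.transpose_apply, ← hbl]
      simp [Module.Basis.toMatrix_apply, hb0]
    obtain ⟨w, hw⟩ := h1
    exact ⟨w, hw⟩
  choose w hw using hrow
  set W : Matrix (Fin m ⊕ Module.Basis.sumExtendIndex hv) (Fin N) ℝ[X] := Matrix.of fun i j =>
    Sum.elim (fun i' => w i' j) (fun i' => ((A.map C) * M) (Sum.inr i') j) i with hW
  set d : (Fin m ⊕ Module.Basis.sumExtendIndex hv) → ℝ[X] := Sum.elim (fun _ => X - C z) (fun _ => 1) with hd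
  have h3 : (A.map C) * M = Matrix.diagonal d * W := by
    ext1 i j
    rw [Matrix.diagonal_mul]
    rcases i with i | i
    · rw [hw, hd, hW]
      rfl
    · rw [hd, hW, Matrix.of_apply, Sum.elim_inr, Sum.elim_inr, one_mul]
  have h4 : M = (B.map C) * (Matrix.diagonal d * W) := by
    rw [← h3, ← Matrix.mul_assoc, ← Matrix.map_mul, hBA, Matrix.map_one _ (map_zero C) (map_one C),
      Matrix.one_mul]
  have h5 : M = (B.map C).submatrix id e * (Matrix.diagonal (d ∘ e) * W.submatrix e id) := by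
    conv_lhs => rw [h4]
    have h6 : Matrix.diagonal (d ∘ e) = (Matrix.diagonal d).submatrix e e :=
      (Matrix.submatrix_diagonal_equiv d e).symm
    rw [h6, Matrix.submatrix_mul_equiv, Matrix.submatrix_mul_equiv]
    rfl
  have h7 : ∏ i, (d ∘ e) i = (X - C z) ^ m := by
    have h8 : ∏ i, (d ∘ e) i = ∏ i, d i := Equiv.prod_comp e d
    rw [h8, Fintype.prod_sum_type, hd]
    simp
  rw [h5, Matrix.det_mul, Matrix.det_mul, Matrix.det_diagonal, h7]
  exact Dvd.dvd.mul_left (Dvd.intro _ rfl) _

/-- the vectors of the powers of distinct numbers are independent -/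
private theorem lares_indep {N m : ℕ} (hmN : m ≤ N) (y : Fin m → ℝ) (hy : Function.Injective y) :
    LinearIndependent ℝ (fun i : Fin m => fun j : Fin N => y i ^ (j : ℕ)) := by
  rw [Fintype.linearIndependent_iff]
  intro g hg i
  have h1 : (Matrix.vandermonde y).transpose.mulVec g = 0 := by
    funext j
    have h2 := congrFun hg ⟨j, lt_of_lt_of_le j.2 hmN⟩
    rw [Finset.sum_apply, Pi.zero_apply] at h2
    rw [Matrix.mulVec, dotProduct, Pi.zero_apply, ← h2]
    refine Finset.sum_congr rfl fun k _ => ?_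
    rw [Matrix.transpose_apply, Matrix.vandermonde_apply, Pi.smul_apply, smul_eq_mul, mul_comm]
  have h3 : (Matrix.vandermonde y).transpose.det ≠ 0 := by
    rw [Matrix.det_transpose]
    exact Matrix.det_vandermonde_ne_zero_iff.2 hy
  have h4 := Matrix.eq_zero_of_mulVec_eq_zero h3 h1
  exact congrFun h4 i

private theorem lares_sum (f : ℝ[X]) (N k n : ℕ) (hkn : k + n < N) (hf : f.natDegree ≤ n) (y : ℝ) :
    ∑ i : Fin N, y ^ (i : ℕ) * (if (i : ℕ) ∈ Set.Icc k (k + n) then f.coeff (i - k) else 0) =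
      y ^ k * f.eval y := by
  rw [Fin.sum_univ_eq_sum_range
    (fun i => y ^ i * (if i ∈ Set.Icc k (k + n) then f.coeff (i - k) else 0)) N]
  rw [eval_eq_sum_range' (Nat.lt_succ_of_le hf), Finset.mul_sum]
  have h1 : ∑ i ∈ Finset.range N, y ^ i * (if i ∈ Set.Icc k (k + n) then f.coeff (i - k) else 0) =
      ∑ i ∈ Finset.Ico k (k + (n + 1)), y ^ i * f.coeff (i - k) := by
    rw [← Finset.sum_subset (s₁ := Finset.Ico k (k + (n + 1)))]
    · refine Finset.sum_congr rfl fun i hi => ?_
      rw [Finset.mem_Ico] at hi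
      rw [if_pos (Set.mem_Icc.2 (by omega))]
    · intro i hi
      rw [Finset.mem_Ico] at hi
      exact Finset.mem_range.2 (by omega)
    · intro i _ hi
      rw [Finset.mem_Ico] at hi
      rw [if_neg (fun h => hi (by rw [Set.mem_Icc] at h; omega)), mul_zero]
  rw [h1, Finset.sum_Ico_eq_sum_range]
  rw [Nat.add_sub_cancel_left]
  refine Finset.sum_congr rfl fun i _ => ?_
  rw [Nat.add_sub_cancel_left, pow_add]
  ring

/-- common roots of `F (z, ·)` and `G (z, ·)` are counted in the resultant -/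
private theorem lares_dvd (F G : ℝ[X][X]) (m n : ℕ) (hF : F.natDegree ≤ m) (hG : G.natDegree ≤ n) (z : ℝ)
    (S : Finset ℝ) (hS : S.card ≤ m + n) (h1 : ∀ y ∈ S, (F.map (evalRingHom z)).eval y = 0)
    (h2 : ∀ y ∈ S, (G.map (evalRingHom z)).eval y = 0) :
    (X - C z) ^ S.card ∣ resultant F G m n := by
  have hinj : Function.Injective (fun i : Fin S.card => ((S.equivFin.symm i : S) : ℝ)) :=
    Subtype.val_injective.comp S.equivFin.symm.injective
  refine lares_det (sylvester F G m n) z
    (fun i : Fin S.card => fun j : Fin (m + n) => ((S.equivFin.symm i : S) : ℝ) ^ (j : ℕ))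
    (lares_indep hS _ hinj) ?_
  intro i
  set y : ℝ := ((S.equivFin.symm i : S) : ℝ) with hy
  have hyS : y ∈ S := (S.equivFin.symm i).2
  have h3 : (sylvester F G m n).map (eval z) =
      sylvester (F.map (evalRingHom z)) (G.map (evalRingHom z)) m n := by
    rw [sylvester_map_map]
    rfl
  rw [h3]
  funext j
  rw [Matrix.vecMul, dotProduct, Pi.zero_apply]
  refine Fin.addCases (fun j₁ => ?_) (fun j₁ => ?_) j
  · simp only [sylvester, Matrix.of_apply, Fin.addCases_left]
    rw [lares_sum _ _ _ _ (by have := j₁.2; omega) (natDegree_map_le.trans hG), h2 y hyS, mul_zero]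
  · simp only [sylvester, Matrix.of_apply, Fin.addCases_right]
    rw [lares_sum _ _ _ _ (by have := j₁.2; omega) (natDegree_map_le.trans hF), h1 y hyS, mul_zero]

theorem res_mult (F G : P2) (n : ℕ) (hn : G.natDegree ≤ n) (z0 : ℝ) (Y : Finset ℝ) (hY : Y.card ≤ n)
    (hF : ∀ y ∈ Y, ev2 z0 y F = 0) (hG : ∀ y ∈ Y, ev2 z0 y G = 0) :
    (X - C z0) ^ Y.card ∣ resultant F G F.natDegree n := by
  have h3 : ∀ (y : ℝ) (f : ℝ[X][X]), (f.map (evalRingHom z0)).eval y = ev2 z0 y f := by
    intro y f
    rw [eval_map, eval₂_evalRingHom]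
    rfl
  exact lares_dvd F G _ n le_rfl hn z0 Y (by omega) (fun y hy => (h3 y F).trans (hF y hy))
    fun y hy => (h3 y G).trans (hG y hy)

theorem res_count (P : ℝ[X]) (hP : P ≠ 0) (S : Finset ℝ) (m : ℕ) (h : ∀ z ∈ S, (X - C z) ^ m ∣ P) :
    S.card * m ≤ P.natDegree := by
  have h1 : ∏ z ∈ S, (X - C z) ^ m ∣ P := by
    refine Finset.prod_dvd_of_coprime ?_ h
    intro a _ b _ hab
    exact IsCoprime.pow (isCoprime_X_sub_C_of_isUnit_sub (sub_ne_zero.2 hab).isUnit)
  have h2 := natDegree_le_of_dvd h1 hP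
  have h3 : (∏ z ∈ S, (X - C z) ^ m : ℝ[X]).natDegree = S.card * m := by
    rw [natDegree_prod_of_monic _ _ fun z _ => (monic_X_sub_C z).pow m]
    rw [Finset.sum_congr rfl fun z _ => by rw [natDegree_pow, natDegree_X_sub_C, mul_one]]
    rw [Finset.sum_const, smul_eq_mul]
  omega

end Pool.Agent.NLS
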