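import Mathlib

/-!
# NLS-LaSet: the situation in Part L*

`y^q (x-1) = x^n - 1`, `n = q k + ρ`, `1 ≤ ρ ≤ q`, `κ = max k 1`, `g` a small parameter (`log q = o(g)`), `A` an integer of
the size of `log x`.
-/

namespace Pool.Agent.NLS

/-- A solution with an exponent prime to `n - 1` (`q` need not be prime), and a base which is larger than a power of `q` but not too
large (`κ A g^60 ≤ n`, `A g^60 ≤ q`). -/
structure Sit2 (q n x y k rho κ g A : ℕ) : Prop where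
  h2q : 2 ≤ q
  hcop : Nat.Coprime (rho - 1) q
  hg : 1000 ≤ g
  hlq : 20 * Real.log (50 * q) ≤ g
  hxq : q ^ 13 ≤ x
  hA1 : Real.log x ≤ A
  hA2 : (A : ℝ) ≤ 2 * Real.log x
  hn : n = q * k + rho
  h1 : 1 ≤ rho
  h2 : rho ≤ q
  hκ : κ = max k 1
  hbig : 4 * κ * A * g ^ 60 ≤ n
  hbq : 4 * A * g ^ 60 ≤ q
  heq : y ^ q * (x - 1) = x ^ n - 1

private theorem LaSet_q2 {q n x y k rho κ g A : ℕ} (S : Sit2 q n x y k rho κ g A) : 2 ≤ q := S.h2q

private theorem LaSet_x {q n x y k rho κ g A : ℕ} (S : Sit2 q n x y k rho κ g A) : 8192 ≤ x := by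
  have h1 : 2 ^ 13 ≤ q ^ 13 := Nat.pow_le_pow_left (LaSet_q2 S) 13
  have h2 := S.hxq
  norm_num at h1
  omega

private theorem LaSet_logx {q n x y k rho κ g A : ℕ} (S : Sit2 q n x y k rho κ g A) :
    13 * Real.log q ≤ Real.log x := by
  have hq := LaSet_q2 S
  have h1 : ((q ^ 13 : ℕ) : ℝ) ≤ (x : ℝ) := by exact_mod_cast S.hxq
  have h2 : (0 : ℝ) < ((q ^ 13 : ℕ) : ℝ) := by
    have : 0 < q ^ 13 := Nat.pow_pos (by omega)
    exact_mod_cast this
  have h3 := Real.log_le_log h2 h1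
  rw [Nat.cast_pow, Real.log_pow] at h3
  push_cast at h3
  exact h3

private theorem LaSet_A {q n x y k rho κ g A : ℕ} (S : Sit2 q n x y k rho κ g A) : 1 ≤ A := by
  have hq := LaSet_q2 S
  have h1 : (0 : ℝ) < Real.log q := Real.log_pos (by exact_mod_cast (by omega : 1 < q))
  have h2 := LaSet_logx S
  have h3 := S.hA1
  have h4 : (0 : ℝ) < (A : ℝ) := by linarith
  exact_mod_cast h4

private theorem LaSet_n2 {q n x y k rho κ g A : ℕ} (S : Sit2 q n x y k rho κ g A) : 2 ≤ n := by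
  have hg := S.hg
  have h1 : 1 ≤ g ^ 60 := Nat.one_le_pow _ _ (by omega)
  have hk : 1 ≤ κ := by rw [S.hκ]; exact le_max_right _ _
  have hA := LaSet_A S
  have hb := S.hbig
  have h2 : 4 * 1 * 1 * 1 ≤ 4 * κ * A * g ^ 60 :=
    Nat.mul_le_mul (Nat.mul_le_mul (Nat.mul_le_mul le_rfl hk) hA) h1
  omega

private theorem LaSet_y1 {q n x y k rho κ g A : ℕ} (S : Sit2 q n x y k rho κ g A) : 1 ≤ y := by
  have hq := LaSet_q2 S
  have hn := LaSet_n2 S
  have hx := LaSet_x S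
  rcases Nat.eq_zero_or_pos y with h | h
  · exfalso
    have he := S.heq
    rw [h, zero_pow (by omega), zero_mul] at he
    have h2 : 2 ^ 1 ≤ x ^ n :=
      (Nat.pow_le_pow_left (by omega : 2 ≤ x) 1).trans (Nat.pow_le_pow_right (by omega) (by omega))
    omega
  · exact h

private theorem LaSet_xn {q n x y k rho κ g A : ℕ} (S : Sit2 q n x y k rho κ g A) : 2 ≤ x ^ n := by
  have hn := LaSet_n2 S
  have hx := LaSet_x S
  have h2 : 2 ^ 1 ≤ x ^ n :=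
    (Nat.pow_le_pow_left (by omega : 2 ≤ x) 1).trans (Nat.pow_le_pow_right (by omega) (by omega))
  omega

/-- PLAN: elementary. `q ≥ 2` (prime), `x ≥ q^13 ≥ 2^13`, `log x ≥ 13 log q > 0` so `A ≥ 1`, `κ ≥ 1` so `n ≥ 4`;
`13 log q = log (q^13) ≤ log x ≤ A`. -/
theorem Sit2.basic {q n x y k rho κ g A : ℕ} (S : Sit2 q n x y k rho κ g A) :
    2 ≤ q ∧ 2 ≤ n ∧ 8192 ≤ x ∧ 1 ≤ A ∧ 1 ≤ κ ∧ k ≤ κ ∧ 13 * Real.log q ≤ A ∧ 13 * Real.log q ≤ Real.log x := by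
  refine ⟨LaSet_q2 S, LaSet_n2 S, LaSet_x S, LaSet_A S, ?_, ?_, (LaSet_logx S).trans S.hA1, LaSet_logx S⟩
  · rw [S.hκ]; exact le_max_right _ _
  · rw [S.hκ]; exact le_max_left _ _

/-- PLAN: copy of `NLE.Sit.rel` (file Pool/Agent/NLE/LSet.lean) with `ρ log x - log (x-1) = (ρ - 1) log x + log (x/(x-1))`. -/
theorem Sit2.rel {q n x y k rho κ g A : ℕ} (S : Sit2 q n x y k rho κ g A) :
    1 ≤ y ∧ 0 ≤ ((rho - 1 : ℕ) : ℝ) * Real.log x + Real.log ((x : ℝ) / ((x - 1 : ℕ) : ℝ)) -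
        q * Real.log ((y : ℝ) / ((x ^ k : ℕ) : ℝ)) ∧
      ((rho - 1 : ℕ) : ℝ) * Real.log x + Real.log ((x : ℝ) / ((x - 1 : ℕ) : ℝ)) -
        q * Real.log ((y : ℝ) / ((x ^ k : ℕ) : ℝ)) ≤ 2 / (x : ℝ) ^ n := by
  have hq := LaSet_q2 S
  have hn := LaSet_n2 S
  have hy := LaSet_y1 S
  have hx := LaSet_x S
  have hxn := LaSet_xn S
  have hr := S.h1
  have he : (y : ℝ) ^ q * ((x - 1 : ℕ) : ℝ) = (x : ℝ) ^ n - 1 := by
    have h : ((y ^ q * (x - 1) : ℕ) : ℝ) = ((x ^ n - 1 : ℕ) : ℝ) := by rw [S.heq]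
    rw [Nat.cast_mul, Nat.cast_pow, Nat.cast_sub (by omega : 1 ≤ x ^ n), Nat.cast_pow, Nat.cast_one] at h
    exact h
  have hy0 : (0 : ℝ) < (y : ℝ) := by exact_mod_cast hy
  have hx00 : 0 < x := by omega
  have hx0 : (0 : ℝ) < (x : ℝ) := by exact_mod_cast hx00
  have hx1 : (0 : ℝ) < ((x - 1 : ℕ) : ℝ) := by
    have : 0 < x - 1 := by omega
    exact_mod_cast this
  have hxnR : (2 : ℝ) ≤ (x : ℝ) ^ n := by exact_mod_cast hxn
  have hlog : (q : ℝ) * Real.log y + Real.log ((x - 1 : ℕ) : ℝ) = Real.log ((x : ℝ) ^ n - 1) := by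
    rw [← he, Real.log_mul (by positivity) hx1.ne', Real.log_pow]
  have hdiv : Real.log ((y : ℝ) / ((x ^ k : ℕ) : ℝ)) = Real.log y - k * Real.log x := by
    rw [Real.log_div hy0.ne' (by positivity), Nat.cast_pow, Real.log_pow]
  have hdiv2 : Real.log ((x : ℝ) / ((x - 1 : ℕ) : ℝ)) = Real.log x - Real.log ((x - 1 : ℕ) : ℝ) :=
    Real.log_div hx0.ne' hx1.ne'
  have hnR : (n : ℝ) = q * k + rho := by
    have h := congrArg (fun t : ℕ => (t : ℝ)) S.hn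
    simpa using h
  have hrR : ((rho - 1 : ℕ) : ℝ) = (rho : ℝ) - 1 := by
    rw [Nat.cast_sub hr, Nat.cast_one]
  have hmain : ((rho - 1 : ℕ) : ℝ) * Real.log x + Real.log ((x : ℝ) / ((x - 1 : ℕ) : ℝ)) -
        q * Real.log ((y : ℝ) / ((x ^ k : ℕ) : ℝ)) =
      Real.log ((x : ℝ) ^ n) - Real.log ((x : ℝ) ^ n - 1) := by
    rw [hdiv, hdiv2, ← hlog, Real.log_pow, hnR, hrR]
    ring
  rw [hmain]
  refine ⟨hy, ?_, ?_⟩
  · have h := Real.log_le_log (by linarith : (0 : ℝ) < (x : ℝ) ^ n - 1) (by linarith : (x : ℝ) ^ n - 1 ≤ (x : ℝ) ^ n)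
    linarith
  · rw [← Real.log_div (by positivity) (by linarith)]
    have h := Real.log_le_sub_one_of_pos (div_pos (by linarith : (0 : ℝ) < (x : ℝ) ^ n) (by linarith : (0 : ℝ) < (x : ℝ) ^ n - 1))
    refine h.trans ?_
    have hne : (x : ℝ) ^ n - 1 ≠ 0 := by
      intro h0
      linarith
    rw [div_sub_one hne, div_le_div_iff₀ (by linarith) (by linarith)]
    nlinarith

/-- PLAN: copy of `NLE.Sit.y_bd`. -/
theorem Sit2.y_bd {q n x y k rho κ g A : ℕ} (S : Sit2 q n x y k rho κ g A) :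
    x ^ k < y ∧ y < x ^ (k + 1) ∧ Nat.Coprime y x := by
  have hq := LaSet_q2 S
  have hn := LaSet_n2 S
  have hy := LaSet_y1 S
  have hx' := LaSet_x S
  have hx : 2 ≤ x := by omega
  have hxn := LaSet_xn S
  have he := S.heq
  have he1 : y ^ q * (x - 1) + 1 = x ^ n := by omega
  refine ⟨?_, ?_, ?_⟩
  · by_contra hcon
    push Not at hcon
    have h1 : y ^ q ≤ (x ^ k) ^ q := Nat.pow_le_pow_left hcon q
    have h2 : (x ^ k) ^ q = x ^ (q * k) := by rw [← pow_mul, mul_comm]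
    rw [h2] at h1
    rcases Nat.eq_zero_or_pos k with hk | hk
    · rw [hk, mul_zero, pow_zero] at h1
      have h3 : y ^ q * (x - 1) ≤ 1 * (x - 1) := Nat.mul_le_mul_right _ h1
      have h4 : x ^ 2 ≤ x ^ n := Nat.pow_le_pow_right (by omega) hn
      have h5 : x * 2 ≤ x ^ 2 := by rw [pow_two]; exact Nat.mul_le_mul_left _ hx
      omega
    · have h3 : y ^ q * (x - 1) ≤ x ^ (q * k) * (x - 1) := Nat.mul_le_mul_right _ h1
      have h4 : x ^ (q * k + 1) ≤ x ^ n := Nat.pow_le_pow_right (by omega) (by rw [S.hn]; have := S.h1; omega)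
      have h5 : x ^ (q * k) * (x - 1) + x ^ (q * k) = x ^ (q * k + 1) := by
        obtain ⟨z, rfl⟩ : ∃ z, x = z + 1 := ⟨x - 1, by omega⟩
        rw [Nat.add_sub_cancel, pow_succ]
        ring
      have h6 : 2 ^ 1 ≤ x ^ (q * k) :=
        (Nat.pow_le_pow_left hx 1).trans (Nat.pow_le_pow_right (by omega) (Nat.mul_pos (by omega) hk))
      omega
  · by_contra hcon
    push Not at hcon
    have h1 : (x ^ (k + 1)) ^ q ≤ y ^ q := Nat.pow_le_pow_left hcon q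
    have h2 : (x ^ (k + 1)) ^ q = x ^ (q * (k + 1)) := by rw [← pow_mul, mul_comm]
    rw [h2] at h1
    have h3 : x ^ n ≤ x ^ (q * (k + 1)) := Nat.pow_le_pow_right (by omega) (by
      rw [S.hn, Nat.mul_succ]; have := S.h2; omega)
    have h4 : y ^ q * 1 ≤ y ^ q * (x - 1) := Nat.mul_le_mul_left _ (by omega)
    omega
  · rw [← Nat.isCoprime_iff_coprime]
    obtain ⟨z, rfl⟩ : ∃ z, x = z + 1 := ⟨x - 1, by omega⟩
    obtain ⟨r, rfl⟩ : ∃ r, q = r + 1 := ⟨q - 1, by omega⟩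
    obtain ⟨m, rfl⟩ : ∃ m, n = m + 1 := ⟨n - 1, by omega⟩
    rw [Nat.add_sub_cancel] at he1
    have h := congrArg (fun t : ℕ => (t : ℤ)) he1
    push_cast at h
    refine ⟨-((y : ℤ) ^ r * z), ((z : ℤ) + 1) ^ m, ?_⟩
    push_cast
    rw [pow_succ, pow_succ] at h
    linarith

/-- PLAN: `log (x/(x-1)) = - log (1 - 1/x) ≤ 1/(x-1) ≤ 2/x` (`Real.log_le_sub_one_of_pos` for `x/(x-1)`). -/
theorem Sit2.eta {q n x y k rho κ g A : ℕ} (S : Sit2 q n x y k rho κ g A) :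
    0 ≤ Real.log ((x : ℝ) / ((x - 1 : ℕ) : ℝ)) ∧ Real.log ((x : ℝ) / ((x - 1 : ℕ) : ℝ)) ≤ 2 / x := by
  have hx := LaSet_x S
  have hx0 : (8192 : ℝ) ≤ (x : ℝ) := by exact_mod_cast hx
  have h1 : ((x - 1 : ℕ) : ℝ) = (x : ℝ) - 1 := by
    rw [Nat.cast_sub (by omega : 1 ≤ x), Nat.cast_one]
  rw [h1]
  have h2 : (0 : ℝ) < (x : ℝ) - 1 := by linarith
  constructor
  · apply Real.log_nonneg
    rw [le_div_iff₀ h2]
    linarith
  · have h3 := Real.log_le_sub_one_of_pos (div_pos (by linarith : (0 : ℝ) < (x : ℝ)) h2)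
    refine h3.trans ?_
    rw [div_sub_one h2.ne', div_le_div_iff₀ h2 (by linarith)]
    nlinarith

end Pool.Agent.NLS
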