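import Pool.Agent.NLE.ZSt
import Pool.Agent.NLE.ZRes

/-!
# NLS-LaSt: stabilizers of a polynomial in `P2` (refinement of `Zer.stab_line`)

In `P2` the inner variable is `U`, the outer variable is `V` (degree in `V` = `natDegree`).
-/

namespace Pool.Agent.NLS

open Polynomial Pool.Agent.NLE.Zer

private theorem last_nat {h : P2} {x y : ℝ} (hs : sh2 x y h = h) (n : ℕ) :
    sh2 (x * n) (y * n) h = h := by
  induction n with
  | zero => simpa using sh2_zero h
  | succ n ih =>
    have h1 := sh2_add x y (x * n) (y * n) h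
    rw [ih, hs] at h1
    have e1 : x * ((n + 1 : ℕ) : ℝ) = x + x * n := by
      push_cast
      ring
    have e2 : y * ((n + 1 : ℕ) : ℝ) = y + y * n := by
      push_cast
      ring
    rw [e1, e2]
    exact h1.symm

private theorem last_hom (h : P2) (a b x y t : ℝ) :
    ((h.map (compRingHom (C a + C x * X))).eval (C b + C y * X)).eval t =
      ev2 (a + x * t) (b + y * t) h := by
  have e : ((evalRingHom t).comp ((evalRingHom (C b + C y * X : ℝ[X])).comp
      (mapRingHom (compRingHom (C a + C x * X : ℝ[X]))))) = ev2 (a + x * t) (b + y * t) := by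
    apply Polynomial.ringHom_ext
    · intro p
      simp [ev2, eval_comp]
    · simp [ev2]
  have e2 := RingHom.congr_fun e h
  simpa using e2

private theorem last_line {h : P2} {x y : ℝ} (hs : sh2 x y h = h) (a b t : ℝ) :
    ev2 (a + x * t) (b + y * t) h = ev2 a b h := by
  have e : ((h.map (compRingHom (C a + C x * X))).eval (C b + C y * X)) = C (ev2 a b h) := by
    apply Polynomial.eq_of_infinite_eval_eq
    refine Set.Infinite.mono (s := Set.range (fun n : ℕ => (n : ℝ))) ?_
      (Set.infinite_range_of_injective Nat.cast_injective)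
    rintro _ ⟨n, rfl⟩
    show eval (n : ℝ) _ = eval (n : ℝ) _
    rw [last_hom, eval_C, ← ev2_sh2, last_nat hs n]
  rw [← last_hom, e, eval_C]

private theorem last_two {h : P2} (h0 : h ≠ 0) (hu : ¬ IsUnit h) {x y x' y' : ℝ}
    (hs : sh2 x y h = h) (hs' : sh2 x' y' h = h) : x * y' = x' * y := by
  by_contra hd
  have hd' : x * y' - x' * y ≠ 0 := sub_ne_zero.2 hd
  have key : h = C (C (ev2 0 0 h)) := by
    apply p2_ext
    intro a b
    have e1 := last_line hs 0 0 ((a * y' - b * x') / (x * y' - x' * y))
    have e2 := last_line hs' (0 + x * ((a * y' - b * x') / (x * y' - x' * y)))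
      (0 + y * ((a * y' - b * x') / (x * y' - x' * y)))
      ((x * b - y * a) / (x * y' - x' * y))
    have e3 : 0 + x * ((a * y' - b * x') / (x * y' - x' * y)) +
        x' * ((x * b - y * a) / (x * y' - x' * y)) = a := by
      rw [zero_add, ← mul_div_assoc, ← mul_div_assoc, ← add_div, div_eq_iff hd']
      ring
    have e4 : 0 + y * ((a * y' - b * x') / (x * y' - x' * y)) +
        y' * ((x * b - y * a) / (x * y' - x' * y)) = b := by
      rw [zero_add, ← mul_div_assoc, ← mul_div_assoc, ← add_div, div_eq_iff hd']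
      ring
    rw [e3, e4, e1] at e2
    rw [e2]
    simp [ev2]
  have hr : ev2 0 0 h ≠ 0 := by
    intro hr
    rw [hr] at key
    apply h0
    rw [key]
    simp
  apply hu
  rw [key]
  exact (hr.isUnit.map C).map C

private theorem last_sub {h : P2} {x y x' y' : ℝ} (he : sh2 x y h = sh2 x' y' h) :
    sh2 (x - x') (y - y') h = h := by
  have h1 := congrArg (fun f => sh2 (-x') (-y') f) he
  simp only [sh2_add] at h1
  rw [neg_add_cancel, neg_add_cancel, sh2_zero] at h1
  have e1 : x - x' = -x' + x := by ring
  have e2 : y - y' = -y' + y := by ring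
  rw [e1, e2]
  exact h1

private theorem last_C (p : ℝ[X]) (a b : ℝ) : ev2 a b (C p) = p.eval a := by
  simp [ev2]

theorem stab_V (h : P2) (h0 : h ≠ 0) (hd : 0 < h.natDegree) :
    ∃ al be : ℝ, be ≠ 0 ∧ ∀ x y x' y' : ℝ, sh2 x y h = sh2 x' y' h →
      al * x + be * y = al * x' + be * y' := by
  have hu : ¬ IsUnit h := fun hu => hd.ne' (Polynomial.natDegree_eq_zero_of_isUnit hu)
  by_cases hex : ∃ x0 y0 : ℝ, (x0 ≠ 0 ∨ y0 ≠ 0) ∧ sh2 x0 y0 h = h
  · obtain ⟨x0, y0, hne, hs⟩ := hex
    have hx0 : x0 ≠ 0 := by
      rintro rfl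
      have hy0 : y0 ≠ 0 := by
        rcases hne with h1 | h1
        · exact absurd rfl h1
        · exact h1
      have key : h = C (h.coeff 0) := by
        apply p2_ext
        intro a b
        have e1 := last_line hs a 0 (b / y0)
        have e2 : (0 : ℝ) + y0 * (b / y0) = b := by
          field_simp
          ring
        rw [zero_mul, add_zero, e2] at e1
        rw [e1, last_C]
        have e3 : ev2 a 0 h = (h.coeff 0).eval a := by
          simp [ev2, Polynomial.coeff_zero_eq_eval_zero, Polynomial.eval_map]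
        exact e3
      rw [key, natDegree_C] at hd
      exact lt_irrefl _ hd
    refine ⟨y0, -x0, neg_ne_zero.2 hx0, ?_⟩
    intro x y x' y' he
    have h1 := last_two h0 hu hs (last_sub he)
    linarith
  · refine ⟨0, 1, one_ne_zero, ?_⟩
    intro x y x' y' he
    have h1 : y - y' = 0 := by
      by_contra h2
      exact hex ⟨_, _, Or.inr h2, last_sub he⟩
    linarith

theorem stab_U (h : P2) (h0 : h ≠ 0) (hu : ¬ IsUnit h) (hd : h.natDegree = 0) :
    ∀ x y x' y' : ℝ, sh2 x y h = sh2 x' y' h → x = x' := by
  intro x y x' y' he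
  by_contra hne
  have hs := last_sub he
  have hx : x - x' ≠ 0 := sub_ne_zero.2 hne
  obtain ⟨p, hp⟩ : ∃ p : ℝ[X], h = C p := ⟨_, Polynomial.eq_C_of_natDegree_eq_zero hd⟩
  have key : h = C (C (ev2 0 0 h)) := by
    apply p2_ext
    intro a b
    have e1 := last_line hs 0 0 (a / (x - x'))
    have e2 : (0 : ℝ) + (x - x') * (a / (x - x')) = a := by
      field_simp
      ring
    rw [e2, hp, last_C, last_C] at e1
    rw [hp, last_C, last_C, last_C, eval_C]
    exact e1
  have hr : ev2 0 0 h ≠ 0 := by
    intro hr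
    rw [hr] at key
    apply h0
    rw [key]
    simp
  apply hu
  rw [key]
  exact (hr.isUnit.map C).map C

end Pool.Agent.NLS
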