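import Pool.Agent.NLE.ZDefs

/-!
# NLS-LaVal: the number of values of a linear form on the box

`Z = ρ r + q s`, `Y = r + q t`, `ρ` and `q` coprime. A form `al Z + be Y` with at most `T` values is proportional to `B Z + C Y`
with coprime integers `B`, `C ≠ 0`, and `B Z + C Y = (ρ B + C) r + q (B s + C t)`: with `d = gcd (ρ B + C, q)`, `q = d M`, it is
injective in `r < M` and `(s, t)` with `s < |C|` or `t < |B|`.
-/

namespace Pool.Agent.NLS

open Pool.Agent.NLE.Zer

private theorem laval_count {R1 R2 R3 : ℕ} (f : ℕ × ℕ × ℕ → ℝ) (a b : ℕ) (i : ℕ × ℕ → ℕ × ℕ × ℕ)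
    (hi : ∀ x < a, ∀ y < b, i (x, y) ∈ box R1 R2 R3)
    (hf : ∀ x < a, ∀ y < b, ∀ x' < a, ∀ y' < b, f (i (x, y)) = f (i (x', y')) → x = x' ∧ y = y') :
    a * b ≤ ((box R1 R2 R3).image f).card := by
  classical
  have h1 : (Finset.range a ×ˢ Finset.range b).card = a * b := by
    rw [Finset.card_product, Finset.card_range, Finset.card_range]
  rw [← h1]
  refine Finset.card_le_card_of_injOn (fun p => f (i p)) ?_ ?_
  · rintro ⟨x, y⟩ hp
    rw [Finset.mem_coe, Finset.mem_product, Finset.mem_range, Finset.mem_range] at hp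
    exact Finset.mem_coe.2 (Finset.mem_image_of_mem f (hi x hp.1 y hp.2))
  · rintro ⟨x, y⟩ hp ⟨x', y'⟩ hp' h
    rw [Finset.mem_coe, Finset.mem_product, Finset.mem_range, Finset.mem_range] at hp hp'
    have h2 := hf x hp.1 y hp.2 x' hp'.1 y' hp'.2 h
    rw [h2.1, h2.2]

private theorem laval_mem {R1 R2 R3 r s t : ℕ} : (r, s, t) ∈ box R1 R2 R3 ↔ r < R1 ∧ s < R2 ∧ t < R3 := by
  unfold box
  rw [Finset.mem_product, Finset.mem_product, Finset.mem_range, Finset.mem_range, Finset.mem_range]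

private theorem laval_small {q : ℕ} {r r' : ℕ} (hr : r < q) (hr' : r' < q)
    (h : (q : ℤ) ∣ (r : ℤ) - r') : r = r' := by
  have h1 : |(r : ℤ) - r'| < q := by
    rw [abs_lt]
    omega
  have h2 := Int.eq_zero_of_abs_lt_dvd h h1
  omega

private theorem laval_inj {q : ℕ} (hq : q ≠ 0) {c e : ℤ} (hc : IsCoprime c (q : ℤ)) (he : e ≠ 0) {r r' s s' : ℕ}
    (hr : r < q) (hr' : r' < q) (h : c * ((r : ℤ) - r') + q * (e * ((s : ℤ) - s')) = 0) :
    r = r' ∧ s = s' := by
  have hq0 : (q : ℤ) ≠ 0 := by exact_mod_cast hq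
  have h1 : (q : ℤ) ∣ c * ((r : ℤ) - r') := by
    refine ⟨-(e * ((s : ℤ) - s')), ?_⟩
    linarith
  have h2 : r = r' := laval_small hr hr' (hc.symm.dvd_of_dvd_mul_left h1)
  refine ⟨h2, ?_⟩
  subst h2
  rw [sub_self, mul_zero, zero_add] at h
  have h3 := (mul_eq_zero.1 h).resolve_left hq0
  have h4 := (mul_eq_zero.1 h3).resolve_left he
  omega

private theorem laval_count3 {R1 R2 R3 : ℕ} (f : ℕ × ℕ × ℕ → ℝ) (a b c : ℕ)
    (hi : a ≤ R1 ∧ b ≤ R2 ∧ c ≤ R3)
    (hf : ∀ r < a, ∀ s < b, ∀ t < c, ∀ r' < a, ∀ s' < b, ∀ t' < c, f (r, s, t) = f (r', s', t') →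
      r = r' ∧ s = s' ∧ t = t') :
    a * b * c ≤ ((box R1 R2 R3).image f).card := by
  classical
  have h1 : (Finset.range a ×ˢ Finset.range b ×ˢ Finset.range c).card = a * b * c := by
    rw [Finset.card_product, Finset.card_product, Finset.card_range, Finset.card_range, Finset.card_range, mul_assoc]
  rw [← h1]
  refine Finset.card_le_card_of_injOn f ?_ ?_
  · rintro ⟨r, s, t⟩ hp
    rw [Finset.mem_coe, Finset.mem_product, Finset.mem_product, Finset.mem_range, Finset.mem_range, Finset.mem_range] at hp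
    refine Finset.mem_coe.2 (Finset.mem_image_of_mem f (laval_mem.2 ⟨?_, ?_, ?_⟩))
    · exact lt_of_lt_of_le hp.1 hi.1
    · exact lt_of_lt_of_le hp.2.1 hi.2.1
    · exact lt_of_lt_of_le hp.2.2 hi.2.2
  · rintro ⟨r, s, t⟩ hp ⟨r', s', t'⟩ hp' h
    rw [Finset.mem_coe, Finset.mem_product, Finset.mem_product, Finset.mem_range, Finset.mem_range, Finset.mem_range] at hp hp'
    obtain ⟨h2, h3, h4⟩ := hf r hp.1 s hp.2.1 t hp.2.2 r' hp'.1 s' hp'.2.1 t' hp'.2.2 h
    rw [h2, h3, h4]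

/-- `B s + C t`, `B`, `C` coprime, is injective on `s < |C|` -/
private theorem laval_cop {B C : ℤ} (hC : C ≠ 0) (hBC : IsCoprime B C) {s s' t t' : ℕ}
    (hs : (s : ℤ) < |C|) (hs' : (s' : ℤ) < |C|)
    (h : B * ((s : ℤ) - s') + C * ((t : ℤ) - t') = 0) : s = s' ∧ t = t' := by
  have h1 : C ∣ B * ((s : ℤ) - s') := ⟨-((t : ℤ) - t'), by linarith⟩
  have h2 : C ∣ (s : ℤ) - s' := hBC.symm.dvd_of_dvd_mul_left h1
  have h3 : |(s : ℤ) - s'| < |C| := by
    rw [abs_lt]
    omega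
  have h4 : (s : ℤ) - s' = 0 := by
    by_contra hne
    have h5 := Int.le_of_dvd (abs_pos.2 hne) ((abs_dvd_abs _ _).2 h2)
    omega
  refine ⟨by omega, ?_⟩
  rw [h4, mul_zero, zero_add] at h
  have h5 := (mul_eq_zero.1 h).resolve_left hC
  omega

theorem val_Z {q rho R1 R2 R3 : ℕ} (hq : q ≠ 0) (hcop : Nat.Coprime rho q) (hR1q : R1 ≤ q) (hR3 : 1 ≤ R3) :
    ((box R1 R2 R3).image (fun b : ℕ × ℕ × ℕ => ((rho * b.1 + q * b.2.1 : ℕ) : ℝ))).card = R1 * R2 := by
  classical
  have hnd : IsCoprime (rho : ℤ) (q : ℤ) := Nat.isCoprime_iff_coprime.2 hcop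
  refine le_antisymm ?_ ?_
  · have h1 : (box R1 R2 R3).image (fun b : ℕ × ℕ × ℕ => ((rho * b.1 + q * b.2.1 : ℕ) : ℝ)) ⊆
        (Finset.range R1 ×ˢ Finset.range R2).image (fun p : ℕ × ℕ => ((rho * p.1 + q * p.2 : ℕ) : ℝ)) := by
      intro z hz
      obtain ⟨⟨r, s, t⟩, hb, rfl⟩ := Finset.mem_image.1 hz
      rw [laval_mem] at hb
      exact Finset.mem_image.2 ⟨(r, s), Finset.mem_product.2 ⟨Finset.mem_range.2 hb.1,
        Finset.mem_range.2 hb.2.1⟩, rfl⟩
    refine (Finset.card_le_card h1).trans (Finset.card_image_le.trans ?_)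
    rw [Finset.card_product, Finset.card_range, Finset.card_range]
  · refine laval_count _ R1 R2 (fun p => (p.1, p.2, 0)) (fun x hx y hy => laval_mem.2 ⟨hx, hy, hR3⟩) ?_
    intro x hx y hy x' hx' y' hy' h
    have h1 : rho * x + q * y = rho * x' + q * y' := by exact_mod_cast h
    have h2 : (rho : ℤ) * ((x : ℤ) - x') + q * (1 * ((y : ℤ) - y')) = 0 := by
      have h3 : (rho : ℤ) * x + q * y = rho * x' + q * y' := by exact_mod_cast h1
      linarith
    exact laval_inj hq hnd one_ne_zero (lt_of_lt_of_le hx hR1q) (lt_of_lt_of_le hx' hR1q) h2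

theorem val_form {q rho R1 R2 R3 T : ℕ} (hq : q ≠ 0)
    (h12 : T < R1 * R2) (h13 : T < R1 * R3) (h23 : T < R2 * R3)
    (hnd : ∀ B C : ℤ, |B| * R2 ≤ T → |C| * R3 ≤ T → (q : ℤ) ∣ rho * B + C → C = 0)
    (al be : ℝ) (hbe : be ≠ 0) :
    T < ((box R1 R2 R3).image (fun b : ℕ × ℕ × ℕ => al * ((rho * b.1 + q * b.2.1 : ℕ) : ℝ) +
      be * ((b.1 + q * b.2.2 : ℕ) : ℝ))).card := by
  classical
  by_contra hcon
  push Not at hcon
  have hR1 : 0 < R1 := by
    rcases Nat.eq_zero_or_pos R1 with h | h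
    · rw [h, zero_mul] at h12
      omega
    · exact h
  have hR2 : 0 < R2 := by
    rcases Nat.eq_zero_or_pos R2 with h | h
    · rw [h, mul_zero] at h12
      omega
    · exact h
  have hR3 : 0 < R3 := by
    rcases Nat.eq_zero_or_pos R3 with h | h
    · rw [h, mul_zero] at h13
      omega
    · exact h
  have hq0 : (q : ℝ) ≠ 0 := by exact_mod_cast hq
  set f : ℕ × ℕ × ℕ → ℝ := fun b : ℕ × ℕ × ℕ => al * ((rho * b.1 + q * b.2.1 : ℕ) : ℝ) +
      be * ((b.1 + q * b.2.2 : ℕ) : ℝ) with hf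
  -- a relation between `al` and `be`
  obtain ⟨u, w, hu, huw⟩ : ∃ u w : ℤ, u ≠ 0 ∧ al * u = be * w := by
    by_contra hno
    push Not at hno
    have h1 : R2 * R3 ≤ ((box R1 R2 R3).image f).card := by
      refine laval_count f R2 R3 (fun p => (0, p.1, p.2)) (fun x hx y hy => laval_mem.2 ⟨hR1, hx, hy⟩) ?_
      intro x hx y hy x' hx' y' hy' h
      have h2 : al * (((x : ℤ) - x' : ℤ) : ℝ) = be * (((y' : ℤ) - y : ℤ) : ℝ) := by
        have h3 : al * ((rho * 0 + q * x : ℕ) : ℝ) + be * ((0 + q * y : ℕ) : ℝ) =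
          al * ((rho * 0 + q * x' : ℕ) : ℝ) + be * ((0 + q * y' : ℕ) : ℝ) := h
        push_cast at h3 ⊢
        have h4 : (q : ℝ) * (al * ((x : ℝ) - x') - be * ((y' : ℝ) - y)) = 0 := by linarith
        have h5 := (mul_eq_zero.1 h4).resolve_left hq0
        linarith
      by_cases hx0 : (x : ℤ) - x' = 0
      · rw [hx0, Int.cast_zero, mul_zero] at h2
        have h6 := (mul_eq_zero.1 h2.symm).resolve_left hbe
        have h7 : (y' : ℤ) - y = 0 := by exact_mod_cast h6
        omega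
      · exact absurd h2 (hno _ _ hx0)
    omega
  -- coprime
  obtain ⟨B, C, hC, hBC, hrel⟩ : ∃ B C : ℤ, C ≠ 0 ∧ IsCoprime B C ∧ al * C = be * B := by
    have hg : (Int.gcd w u : ℤ) ≠ 0 := by
      rw [Ne, Int.natCast_eq_zero, Int.gcd_eq_zero_iff]
      exact fun h => hu h.2
    obtain ⟨B, hB⟩ := Int.gcd_dvd_left w u
    obtain ⟨C, hC⟩ := Int.gcd_dvd_right w u
    refine ⟨B, C, ?_, ?_, ?_⟩
    · rintro rfl
      rw [mul_zero] at hC
      exact hu hC
    · rw [Int.isCoprime_iff_gcd_eq_one]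
      have h0 : Int.gcd w u = Int.gcd ((Int.gcd w u : ℤ) * B) ((Int.gcd w u : ℤ) * C) := by
        rw [← hB, ← hC]
      have h1 : Int.gcd w u = Int.gcd w u * Int.gcd B C := by
        rw [Int.gcd_mul_left, Int.natAbs_natCast] at h0
        exact h0
      have h2 : Int.gcd w u ≠ 0 := by exact_mod_cast hg
      have h3 : Int.gcd w u * 1 = Int.gcd w u * Int.gcd B C := by omega
      exact (Nat.eq_of_mul_eq_mul_left (Nat.pos_of_ne_zero h2) h3).symm
    · have hgR : ((Int.gcd w u : ℤ) : ℝ) ≠ 0 := by exact_mod_cast hg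
      have h1 : (u : ℝ) = ((Int.gcd w u : ℤ) : ℝ) * C := by exact_mod_cast hC
      have h2 : (w : ℝ) = ((Int.gcd w u : ℤ) : ℝ) * B := by exact_mod_cast hB
      rw [h1, h2] at huw
      have h3 : ((Int.gcd w u : ℤ) : ℝ) * (al * C - be * B) = 0 := by linarith
      have h4 := (mul_eq_zero.1 h3).resolve_left hgR
      linarith
  have hkey : ∀ r s t r' s' t' : ℕ, f (r, s, t) = f (r', s', t') →
      (rho * B + C) * ((r : ℤ) - r') + q * (B * ((s : ℤ) - s') + C * ((t : ℤ) - t')) = 0 := by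
    intro r s t r' s' t' h
    have h1 : al * ((rho * r + q * s : ℕ) : ℝ) + be * ((r + q * t : ℕ) : ℝ) =
      al * ((rho * r' + q * s' : ℕ) : ℝ) + be * ((r' + q * t' : ℕ) : ℝ) := h
    have h2 : be * ((((rho * B + C) * ((r : ℤ) - r') + q * (B * ((s : ℤ) - s') + C * ((t : ℤ) - t')) : ℤ) : ℝ)) =
        0 := by
      push_cast at h1 ⊢
      have h3 : (C : ℝ) * (al * (rho * r + q * s) + be * (r + q * t) -
        (al * (rho * r' + q * s') + be * (r' + q * t'))) = 0 := by
        rw [h1, sub_self, mul_zero]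
      have h4 : (C : ℝ) * (al * (rho * r + q * s) + be * (r + q * t) -
        (al * (rho * r' + q * s') + be * (r' + q * t'))) =
        (al * C) * ((rho * r + q * s) - (rho * r' + q * s')) +
          be * C * ((r + q * t) - (r' + q * t')) := by ring
      rw [h4, hrel] at h3
      linarith
    have h5 := (mul_eq_zero.1 h2).resolve_left hbe
    exact_mod_cast h5
  -- the common factor
  obtain ⟨d, hd⟩ : ∃ d : ℕ, d = Int.gcd (rho * B + C) (q : ℤ) := ⟨_, rfl⟩
  have hqZ : (q : ℤ) ≠ 0 := by exact_mod_cast hq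
  have hd0 : 0 < d := by
    rw [hd]
    exact Int.gcd_pos_of_ne_zero_right _ hqZ
  obtain ⟨c, hc⟩ : (d : ℤ) ∣ rho * B + C := by
    rw [hd]
    exact Int.gcd_dvd_left _ _
  obtain ⟨M, hM⟩ : d ∣ q := by
    have h1 : (d : ℤ) ∣ (q : ℤ) := by
      rw [hd]
      exact Int.gcd_dvd_right _ _
    exact_mod_cast h1
  have hM0 : M ≠ 0 := by
    rintro rfl
    exact hq (by rw [hM, mul_zero])
  have hcM : IsCoprime c (M : ℤ) := by
    rw [Int.isCoprime_iff_gcd_eq_one]
    have h1 : Int.gcd ((d : ℤ) * c) ((d : ℤ) * (M : ℤ)) = d * Int.gcd c (M : ℤ) := by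
      rw [Int.gcd_mul_left, Int.natAbs_natCast]
    have h2 : (q : ℤ) = (d : ℤ) * (M : ℤ) := by exact_mod_cast hM
    rw [← hc, ← h2, ← hd] at h1
    exact Nat.eq_of_mul_eq_mul_left hd0 (by omega)
  have hkey2 : ∀ r s t r' s' t' : ℕ, f (r, s, t) = f (r', s', t') →
      c * ((r : ℤ) - r') + M * (B * ((s : ℤ) - s') + C * ((t : ℤ) - t')) = 0 := by
    intro r s t r' s' t' h
    have h1 := hkey r s t r' s' t' h
    have h2 : (q : ℤ) = (d : ℤ) * (M : ℤ) := by exact_mod_cast hM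
    rw [hc, h2] at h1
    have h3 : (d : ℤ) * (c * ((r : ℤ) - r') + M * (B * ((s : ℤ) - s') + C * ((t : ℤ) - t'))) = 0 := by
      linarith
    exact (mul_eq_zero.1 h3).resolve_left (by exact_mod_cast hd0.ne')
  have hkey3 : ∀ r s t r' s' t' : ℕ, r < M → r' < M → f (r, s, t) = f (r', s', t') →
      r = r' ∧ B * ((s : ℤ) - s') + C * ((t : ℤ) - t') = 0 := by
    intro r s t r' s' t' hr hr' h
    have h1 := hkey2 r s t r' s' t' h
    have h2 : (M : ℤ) ∣ c * ((r : ℤ) - r') := ⟨-(B * ((s : ℤ) - s') + C * ((t : ℤ) - t')), by linarith⟩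
    have h3 : r = r' := laval_small hr hr' (hcM.symm.dvd_of_dvd_mul_left h2)
    refine ⟨h3, ?_⟩
    subst h3
    rw [sub_self, mul_zero, zero_add] at h1
    exact (mul_eq_zero.1 h1).resolve_left (by exact_mod_cast hM0)
  have hMR : M < R1 := by
    by_contra hle
    push Not at hle
    have h1 : R1 * R3 ≤ ((box R1 R2 R3).image f).card := by
      refine laval_count f R1 R3 (fun p => (p.1, 0, p.2)) (fun x hx y hy => laval_mem.2 ⟨hx, hR2, hy⟩) ?_
      intro x hx y hy x' hx' y' hy' h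
      obtain ⟨h2, h3⟩ := hkey3 _ _ _ _ _ _ (lt_of_lt_of_le hx hle) (lt_of_lt_of_le hx' hle) h
      refine ⟨h2, ?_⟩
      rw [sub_self, mul_zero, zero_add] at h3
      have h4 := (mul_eq_zero.1 h3).resolve_left hC
      omega
    omega
  have hCR : (M * C.natAbs) * R3 ≤ T := by
    by_contra hlt
    push Not at hlt
    have h1 : M * min C.natAbs R2 * R3 ≤ ((box R1 R2 R3).image f).card := by
      refine laval_count3 f M (min C.natAbs R2) R3 ⟨hMR.le, min_le_right _ _, le_rfl⟩ ?_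
      intro r hr s hs t ht r' hr' s' hs' t' ht' h
      obtain ⟨h2, h3⟩ := hkey3 _ _ _ _ _ _ hr hr' h
      refine ⟨h2, laval_cop hC hBC ?_ ?_ h3⟩
      · have := lt_of_lt_of_le hs (min_le_left _ _)
        rw [Int.abs_eq_natAbs]
        omega
      · have := lt_of_lt_of_le hs' (min_le_left _ _)
        rw [Int.abs_eq_natAbs]
        omega
    have h4 : T < M * min C.natAbs R2 * R3 := by
      rcases min_choice C.natAbs R2 with h5 | h5
      · rw [h5]
        exact hlt
      · rw [h5, mul_assoc]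
        exact lt_of_lt_of_le h23 (Nat.le_mul_of_pos_left _ (Nat.pos_of_ne_zero hM0))
    omega
  have hBR : (M * B.natAbs) * R2 ≤ T := by
    by_contra hlt
    push Not at hlt
    have hB0 : B ≠ 0 := by
      rintro rfl
      rw [Int.natAbs_zero, mul_zero, zero_mul] at hlt
      omega
    have h1 : M * R2 * min B.natAbs R3 ≤ ((box R1 R2 R3).image f).card := by
      refine laval_count3 f M R2 (min B.natAbs R3) ⟨hMR.le, le_rfl, min_le_right _ _⟩ ?_
      intro r hr s hs t ht r' hr' s' hs' t' ht' h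
      obtain ⟨h2, h3⟩ := hkey3 _ _ _ _ _ _ hr hr' h
      rw [add_comm] at h3
      have h4 := laval_cop hB0 hBC.symm (s := t) (s' := t') (t := s) (t' := s') ?_ ?_ h3
      · exact ⟨h2, h4.2, h4.1⟩
      · have := lt_of_lt_of_le ht (min_le_left _ _)
        rw [Int.abs_eq_natAbs]
        omega
      · have := lt_of_lt_of_le ht' (min_le_left _ _)
        rw [Int.abs_eq_natAbs]
        omega
    have h4 : T < M * R2 * min B.natAbs R3 := by
      rcases min_choice B.natAbs R3 with h5 | h5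
      · rw [h5]
        calc T < M * B.natAbs * R2 := hlt
          _ = M * R2 * B.natAbs := by ring
      · rw [h5, mul_assoc]
        exact lt_of_lt_of_le h23 (Nat.le_mul_of_pos_left _ (Nat.pos_of_ne_zero hM0))
    omega
  have h1 := hnd (M * B) (M * C) (by
    rw [abs_mul, Nat.abs_cast, Int.abs_eq_natAbs]
    exact_mod_cast hBR) (by
    rw [abs_mul, Nat.abs_cast, Int.abs_eq_natAbs]
    exact_mod_cast hCR) ⟨c, by
    have h2 : (q : ℤ) = (d : ℤ) * (M : ℤ) := by exact_mod_cast hM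
    rw [h2]
    calc (rho : ℤ) * (M * B) + M * C = M * (rho * B + C) := by ring
      _ = M * (d * c) := by rw [hc]
      _ = d * M * c := by ring⟩
  rcases mul_eq_zero.1 h1 with h2 | h2
  · exact hM0 (by exact_mod_cast h2)
  · exact hC h2

end Pool.Agent.NLS
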