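import Pool.Agent.NLS.LaSt
import Pool.Agent.NLS.LaRes
import Pool.Agent.NLE.ZCop
import Pool.Agent.NLE.ZTr

/-!
# NLS-LaZTwo: elimination of `V` (unequal degrees, with multiplicities)

As in `Zer.elim_two` (Pool/Agent/NLE/ZTwo.lean). An irreducible divisor `h` of `Q` does not divide all
translates: `stab_V` + `count_div` with `d = natDegree` or `stab_U` + `count_div` with `d = degU`. The resultant of `Q` and a
combination `G` of the translates has degree `≤ (2 L K2 + 2 L K2) (2 L K1)` and is divisible by `(X - C z)^m` for `z ∈ S`.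
-/

namespace Pool.Agent.NLS

open Polynomial Pool.Agent.NLE.Zer

private theorem zla_smul (a b c : ℝ) (f : P2) : ev2 a b (c • f) = c * ev2 a b f := by
  rw [Algebra.smul_def, map_mul]
  congr 1
  simp [ev2]

private theorem zla_degsmul (c : ℝ) (f : P2) (D : ℕ) (hf : degU f ≤ D) : degU (c • f) ≤ D := by
  rw [degU_le_iff] at hf ⊢
  intro i
  rw [coeff_smul]
  exact (natDegree_smul_le c _).trans (hf i)

private theorem zla_degsum {ι : Type*} (S : Finset ι) (g : ι → P2) (D : ℕ)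
    (h : ∀ b ∈ S, degU (g b) ≤ D) : degU (∑ b ∈ S, g b) ≤ D := by
  classical
  induction S using Finset.induction_on with
  | empty =>
    rw [Finset.sum_empty, degU_le_iff]
    intro i
    simp
  | insert a s ha ih =>
    rw [Finset.sum_insert ha]
    exact degU_add _ _ _ (h a (Finset.mem_insert_self a s))
      (ih fun b hb => h b (Finset.mem_insert_of_mem hb))

private theorem zla_box {R1 R2 R3 : ℕ} {b b' : ℕ × ℕ × ℕ} (h : b ∈ box R1 R2 R3)
    (h' : b' ∈ box R1 R2 R3) : b + b' ∈ box (2 * R1) (2 * R2) (2 * R3) := by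
  unfold box at *
  rw [Finset.mem_product, Finset.mem_product, Finset.mem_range, Finset.mem_range,
    Finset.mem_range] at *
  obtain ⟨h1, h2, h3⟩ := h
  obtain ⟨h4, h5, h6⟩ := h'
  have e1 : (b + b').1 = b.1 + b'.1 := rfl
  have e2 : (b + b').2.1 = b.2.1 + b'.2.1 := rfl
  have e3 : (b + b').2.2 = b.2.2 + b'.2.2 := rfl
  rw [e1, e2, e3]
  omega

private theorem zla_box2 {R1 R2 R3 : ℕ} {b : ℕ × ℕ × ℕ} (h : b ∈ box R1 R2 R3) :
    b ∈ box (2 * R1) (2 * R2) (2 * R3) := by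
  unfold box at *
  rw [Finset.mem_product, Finset.mem_product, Finset.mem_range, Finset.mem_range,
    Finset.mem_range] at *
  omega

private theorem zla_irr {R1 R2 R3 D1 D2 : ℕ} (u v : ℕ × ℕ × ℕ → ℝ)
    (Q : P2) (hQ : Q ≠ 0) (hd : Q.natDegree ≤ D2) (hd2 : degU Q ≤ D1)
    (ha : D1 < ((box R1 R2 R3).image u).card)
    (hb : ∀ al be : ℝ, be ≠ 0 → D2 < ((box R1 R2 R3).image (fun b => al * u b + be * v b)).card)
    (h : P2) (hh : Irreducible h) : ∃ b ∈ box R1 R2 R3, ¬ h ∣ sh2 (u b) (v b) Q := by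
  by_contra hcon
  have hcon' : ∀ b ∈ box R1 R2 R3, h ∣ sh2 (u b) (v b) Q := fun b hb' => by
    by_contra h1
    exact hcon ⟨b, hb', h1⟩
  have hpr : ∀ b ∈ box R1 R2 R3, Prime (sh2 (-u b) (-v b) h) := fun b _ =>
    (MulEquiv.prime_iff (sh2 (-u b) (-v b)).toMulEquiv).2 hh.prime
  have hdv : ∀ b ∈ box R1 R2 R3, sh2 (-u b) (-v b) h ∣ Q := by
    intro b hb'
    have h1 := map_dvd (sh2 (-u b) (-v b)) (hcon' b hb')
    rw [sh2_add, neg_add_cancel, neg_add_cancel, sh2_zero] at h1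
    exact h1
  rcases Nat.eq_zero_or_pos h.natDegree with h0 | h0
  · have hst := stab_U h hh.ne_zero hh.not_isUnit h0
    have hcnt := count_div (fun f : P2 => degU f) (fun a b h1 h2 => degU_mul a b h1 h2)
      (box R1 R2 R3) (fun b => sh2 (-u b) (-v b) h) Q hQ
      (fun b hb' => ⟨hpr b hb', hdv b hb', by
        show 1 ≤ degU (sh2 (-u b) (-v b) h)
        rw [degU_sh2]
        have := deg_pos h hh.ne_zero hh.not_isUnit
        omega⟩) u
      (fun b _ b' _ hA => by
        have h1 := hst _ _ _ _ (sh2_assoc _ _ _ _ h hh.ne_zero hA)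
        linarith)
    have h2 : ((box R1 R2 R3).image u).card ≤ degU Q := hcnt
    omega
  · obtain ⟨al, be, hne, hst⟩ := stab_V h hh.ne_zero h0
    have hcnt := count_div (fun f : P2 => f.natDegree) (fun a b h1 h2 => natDegree_mul h1 h2)
      (box R1 R2 R3) (fun b => sh2 (-u b) (-v b) h) Q hQ
      (fun b hb' => ⟨hpr b hb', hdv b hb', by
        show 1 ≤ (sh2 (-u b) (-v b) h).natDegree
        rw [natDegree_sh2]
        exact h0⟩) (fun b => al * u b + be * v b)
      (fun b _ b' _ hA => by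
        have h1 := hst _ _ _ _ (sh2_assoc _ _ _ _ h hh.ne_zero hA)
        show al * u b + be * v b = al * u b' + be * v b'
        linarith)
    have h2 : ((box R1 R2 R3).image (fun b => al * u b + be * v b)).card ≤ Q.natDegree := hcnt
    have h3 := hb al be hne
    omega

theorem elim_two4 {R1 R2 R3 K1 K2 L m : ℕ} (hK2 : 1 ≤ K2) (hL : 1 ≤ L) (u v : ℕ × ℕ × ℕ → ℝ)
    (hu : ∀ b b', u (b + b') = u b + u b') (hv : ∀ b b', v (b + b') = v b + v b')
    (Q : P2) (hQ : Q ≠ 0) (hd : Q.natDegree ≤ 2 * L * K2) (hd2 : degU Q ≤ 2 * L * K1)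
    (hz : ∀ b ∈ box (2 * R1) (2 * R2) (2 * R3), ev2 (u b) (v b) Q = 0)
    (ha : 2 * L * K1 < ((box R1 R2 R3).image u).card)
    (hb : ∀ al be : ℝ, be ≠ 0 → 2 * L * K2 < ((box R1 R2 R3).image (fun b => al * u b + be * v b)).card)
    (S : Finset ℝ) (Y : ℝ → Finset ℝ) (hm : m ≤ 2 * L * K2) (hY : ∀ z ∈ S, (Y z).card = m)
    (hSY : ∀ z ∈ S, ∀ y ∈ Y z, ∃ b ∈ box R1 R2 R3, u b = z ∧ v b = y)
    (hR : 8 * L ^ 2 * (K1 * K2) < S.card * m) : False := by
  obtain ⟨c, hc⟩ := exists_comb (box R1 R2 R3) (fun b => sh2 (u b) (v b) Q) Q hQ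
    (fun h hh _ => zla_irr u v Q hQ hd hd2 ha hb h hh)
  have hW : 1 ≤ L * K2 := Nat.mul_pos hL hK2
  set G : P2 := ∑ b ∈ box R1 R2 R3, c b • sh2 (u b) (v b) Q with hG
  have hGd : G.natDegree ≤ 2 * L * K2 := by
    rw [hG]
    refine natDegree_sum_le_of_forall_le _ _ fun b _ => ?_
    refine (natDegree_smul_le (c b) _).trans ?_
    rw [natDegree_sh2]
    exact hd
  have hGu : degU G ≤ 2 * L * K1 := by
    rw [hG]
    refine zla_degsum _ _ _ fun b _ => zla_degsmul _ _ _ ?_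
    rw [degU_sh2]
    exact hd2
  have hGz : ∀ b ∈ box R1 R2 R3, ev2 (u b) (v b) G = 0 := by
    intro b hb'
    rw [hG, map_sum]
    refine Finset.sum_eq_zero fun b' hb'' => ?_
    rw [zla_smul, ev2_sh2, ← hu, ← hv, hz _ (zla_box hb' hb''), mul_zero]
  have hn1 : 1 ≤ 2 * L * K2 := by
    have e1 : 2 * L * K2 = 2 * (L * K2) := by ring
    omega
  have hP : resultant Q G Q.natDegree (2 * L * K2) ≠ 0 := res_ne Q G hQ hc _ hGd hn1
  have hPd : (resultant Q G Q.natDegree (2 * L * K2)).natDegree ≤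
      (Q.natDegree + 2 * L * K2) * (2 * L * K1) :=
    natDegree_res Q G _ _ _ ((degU_le_iff Q _).1 hd2) ((degU_le_iff G _).1 hGu)
  have hmult : ∀ z ∈ S, (X - C z) ^ m ∣ resultant Q G Q.natDegree (2 * L * K2) := by
    intro z hz'
    have h1 := res_mult Q G (2 * L * K2) hGd z (Y z) (by rw [hY z hz']; exact hm)
      (fun y hy => by
        obtain ⟨b, hb', rfl, rfl⟩ := hSY z hz' y hy
        exact hz b (zla_box2 hb'))
      (fun y hy => by
        obtain ⟨b, hb', rfl, rfl⟩ := hSY z hz' y hy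
        exact hGz b hb')
    rwa [hY z hz'] at h1
  have hcnt := res_count _ hP S m hmult
  have h3 : (Q.natDegree + 2 * L * K2) * (2 * L * K1) ≤ (4 * L * K2) * (2 * L * K1) :=
    Nat.mul_le_mul (by
      have e1 : 4 * L * K2 = 2 * L * K2 + 2 * L * K2 := by ring
      omega) le_rfl
  have h4 : (4 * L * K2) * (2 * L * K1) = 8 * L ^ 2 * (K1 * K2) := by ring
  rw [h4] at h3
  omega

end Pool.Agent.NLS
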