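import Pool.Agent.NLS.LaDefs
import Pool.Agent.NLS.LaVal
import Pool.Agent.NLS.LaApp
import Pool.Agent.NLS.LaZOne
import Pool.Agent.NLS.LaZTwo

/-!
# NLS-LaZero: zero estimate

PLAN.  As `NLE.zero_est3` (Pool/Agent/NLE/Zero3.lean). `u b = ρ r + q s`, `v b = r + q t`, `lam b = α₁^r α₂^s α₃^t`.
`exists_poly4`, `elim_one4` (`ha` from `val_Z`, `K1 ≤ 2 L K1 < R1 R2`; `hb` from `val_form` with `T = 2 L K2 ≥ K2`; `hl` as
`zero3_lam`), `elim_two4` with `S = image of u` (`R1 R2` elements), `m = R3`, `Y z = {v b | b ∈ box, u b = z}` (image of the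
filter): for `z = ρ r + q s` it is `{r + q t | t < R3}`, as `(r, s)` is determined by `z`.
-/

namespace Pool.Agent.NLS

open Finset Pool.Agent.NLE.Zer

private theorem zero4_box {R1 R2 R3 r s t : ℕ} :
    (r, s, t) ∈ box R1 R2 R3 ↔ r < R1 ∧ s < R2 ∧ t < R3 := by
  simp [Pool.Agent.NLE.Zer.box]

private theorem zero4_lam {R1 R2 R3 : ℕ} {α₁ α₂ α₃ : ℝ} (h2 : 1 < α₂) (hR1 : 1 ≤ R1) (hR3 : 1 ≤ R3) :
    R2 ≤ ((box R1 R2 R3).image
      (fun b : ℕ × ℕ × ℕ => α₁ ^ b.1 * α₂ ^ b.2.1 * α₃ ^ b.2.2)).card := by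
  classical
  have hsub : (range R2).image (fun s : ℕ => α₂ ^ s) ⊆ (box R1 R2 R3).image
      (fun b : ℕ × ℕ × ℕ => α₁ ^ b.1 * α₂ ^ b.2.1 * α₃ ^ b.2.2) := by
    intro x hx
    rw [mem_image] at hx ⊢
    obtain ⟨s, hs, rfl⟩ := hx
    rw [mem_range] at hs
    exact ⟨(0, s, 0), zero4_box.2 ⟨hR1, hs, hR3⟩, by simp⟩
  have hcard : ((range R2).image (fun s : ℕ => α₂ ^ s)).card = R2 := by
    rw [card_image_of_injective _ (pow_right_strictMono₀ h2).injective, card_range]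
  exact le_trans (le_of_eq hcard.symm) (card_le_card hsub)

private theorem zero4_inj {q rho R1 : ℕ} (hq : q ≠ 0) (hcop : Nat.Coprime rho q) (hR1q : R1 ≤ q)
    {r s r' s' : ℕ} (hr : r < R1) (hr' : r' < R1) (h : rho * r + q * s = rho * r' + q * s') :
    r = r' ∧ s = s' := by
  have hq0 : (q : ℤ) ≠ 0 := by exact_mod_cast hq
  have h1 : (rho : ℤ) * ((r : ℤ) - r') = q * ((s' : ℤ) - s) := by
    have h2 : ((rho * r + q * s : ℕ) : ℤ) = ((rho * r' + q * s' : ℕ) : ℤ) := by rw [h]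
    push_cast at h2
    linear_combination h2
  have h2 : (q : ℤ) ∣ rho * ((r : ℤ) - r') := ⟨_, h1⟩
  have h3 : (q : ℤ) ∣ (r : ℤ) - r' := (Nat.isCoprime_iff_coprime.2 hcop).symm.dvd_of_dvd_mul_left h2
  have h4 : (r : ℤ) - r' = 0 := by
    apply Int.eq_zero_of_abs_lt_dvd h3
    rw [abs_lt]
    constructor <;> omega
  have h5 : (s' : ℤ) - s = 0 := by
    rw [h4, mul_zero] at h1
    rcases mul_eq_zero.1 h1.symm with h6 | h6
    · exact absurd h6 hq0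
    · exact h6
  exact ⟨by omega, by omega⟩

theorem zero_est4 {q rho R1 R2 R3 K1 K2 L : ℕ} {α₁ α₂ α₃ : ℝ} (h1 : 0 < α₁) (h2 : 1 < α₂) (h3 : 0 < α₃)
    (hq : q ≠ 0) (hcop : Nat.Coprime rho q) (hR1 : 1 ≤ R1) (hR2 : 1 ≤ R2) (hR3 : 1 ≤ R3) (hK1 : 1 ≤ K1)
    (hK2 : 1 ≤ K2) (hL1 : 1 ≤ L) (hR1q : R1 ≤ q) (hL : L ≤ R2) (hZ : 2 * L * K1 < R1 * R2)
    (h12 : 2 * L * K2 < R1 * R2) (h13 : 2 * L * K2 < R1 * R3) (h23 : 2 * L * K2 < R2 * R3)
    (hnd : ∀ B C : ℤ, |B| * R2 ≤ ((2 * L * K2 : ℕ) : ℤ) → |C| * R3 ≤ ((2 * L * K2 : ℕ) : ℤ) →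
      (q : ℤ) ∣ rho * B + C → C = 0)
    (hm : R3 ≤ 2 * L * K2) (h123 : 8 * L ^ 2 * (K1 * K2) < R1 * R2 * R3)
    (c : ℕ → ℕ → ℕ → ℝ)
    (hc : ∀ r < 3 * R1, ∀ s < 3 * R2, ∀ t < 3 * R3, ∑ a ∈ range K1, ∑ b ∈ range K2, ∑ l ∈ range L,
      c a b l * ent4 q rho α₁ α₂ α₃ a b l r s t = 0) :
    ∀ a < K1, ∀ b < K2, ∀ l < L, c a b l = 0 := by
  classical
  obtain ⟨F, hF1, hF2, hF3, hF4, hF5⟩ := exists_poly4 K1 K2 L hL1 c
  by_contra hne
  have hF : F ≠ 0 := fun h => hne (hF5 h)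
  obtain ⟨u, hu⟩ : ∃ u : ℕ × ℕ × ℕ → ℝ, u = fun b =>
    ((rho * b.1 + q * b.2.1 : ℕ) : ℝ) := ⟨_, rfl⟩
  obtain ⟨v, hv⟩ : ∃ v : ℕ × ℕ × ℕ → ℝ, v = fun b => ((b.1 + q * b.2.2 : ℕ) : ℝ) := ⟨_, rfl⟩
  obtain ⟨lam, hlam⟩ : ∃ lam : ℕ × ℕ × ℕ → ℝ, lam = fun b =>
    α₁ ^ b.1 * α₂ ^ b.2.1 * α₃ ^ b.2.2 := ⟨_, rfl⟩
  have hua : ∀ b b', u (b + b') = u b + u b' := by
    intro b b'
    simp only [hu, Prod.fst_add, Prod.snd_add]
    push_cast
    ring
  have hva : ∀ b b', v (b + b') = v b + v b' := by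
    intro b b'
    simp only [hv, Prod.fst_add, Prod.snd_add]
    push_cast
    ring
  have hla : ∀ b b', lam (b + b') = lam b * lam b' := by
    intro b b'
    simp only [hlam, Prod.fst_add, Prod.snd_add, pow_add]
    ring
  have hlp : ∀ b, 0 < lam b := by
    intro b
    simp only [hlam]
    positivity
  have hz : ∀ b ∈ box (3 * R1) (3 * R2) (3 * R3), ev3 (u b) (v b) (lam b) F = 0 := by
    rintro ⟨r, s, t⟩ hb
    obtain ⟨hr, hs, ht⟩ := zero4_box.1 hb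
    have e := hc r hr s hs t ht
    simp only [hu, hv, hlam]
    rw [hF4, ← e]
    refine sum_congr rfl fun a _ => sum_congr rfl fun b _ => sum_congr rfl fun l _ => ?_
    unfold ent4
    ring
  have hcu : ((box R1 R2 R3).image u).card = R1 * R2 := by
    rw [hu]
    exact val_Z hq hcop hR1q hR3
  have hb : ∀ al be : ℝ, be ≠ 0 →
      2 * L * K2 < ((box R1 R2 R3).image (fun b => al * u b + be * v b)).card := by
    intro al be hbe
    simp only [hu, hv]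
    exact val_form hq h12 h13 h23 hnd al be hbe
  have hl : L ≤ ((box R1 R2 R3).image lam).card := by
    rw [hlam]
    exact le_trans hL (zero4_lam h2 hR1 hR3)
  have hLK1 : K1 ≤ 2 * L * K1 := Nat.le_mul_of_pos_left _ (by omega)
  have hLK2 : K2 ≤ 2 * L * K2 := Nat.le_mul_of_pos_left _ (by omega)
  obtain ⟨Q, hQ, hQ1, hQ2, hQ3⟩ := elim_one4 (K1 := K1) (K2 := K2) hL1 u v lam hua hva hla hlp F hF hF1 hF2 hF3 hz
    (by rw [hcu]; omega) (fun al be hbe => lt_of_le_of_lt hLK2 (hb al be hbe)) hl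
  refine elim_two4 (K1 := K1) (K2 := K2) (L := L) (m := R3) hK2 hL1 u v hua hva Q hQ hQ1 hQ2 hQ3 (by rw [hcu]; exact hZ)
    hb ((box R1 R2 R3).image u) (fun z => ((box R1 R2 R3).filter (fun b => u b = z)).image v) hm ?_ ?_ ?_
  · intro z hz'
    obtain ⟨⟨r, s, t0⟩, hb0, rfl⟩ := mem_image.1 hz'
    obtain ⟨hr, hs, ht⟩ := zero4_box.1 hb0
    have hset : ((box R1 R2 R3).filter (fun b => u b = u (r, s, t0))).image v =
        (range R3).image (fun t : ℕ => ((r + q * t : ℕ) : ℝ)) := by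
      ext y
      simp only [mem_image, mem_filter, mem_range]
      constructor
      · rintro ⟨⟨r', s', t'⟩, ⟨hb1, hb2⟩, rfl⟩
        obtain ⟨hr', hs', ht'⟩ := zero4_box.1 hb1
        simp only [hu] at hb2
        have hb3 : rho * r' + q * s' = rho * r + q * s := by exact_mod_cast hb2
        obtain ⟨e1, e2⟩ := zero4_inj hq hcop hR1q hr' hr hb3
        subst e1
        subst e2
        exact ⟨t', ht', by simp only [hv]⟩
      · rintro ⟨t', ht', rfl⟩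
        exact ⟨(r, s, t'), ⟨zero4_box.2 ⟨hr, hs, ht'⟩, by simp only [hu]⟩, by simp only [hv]⟩
    show (((box R1 R2 R3).filter (fun b => u b = u (r, s, t0))).image v).card = R3
    rw [hset, card_image_of_injOn, card_range]
    intro t _ t' _ htt
    have e0 : ((r + q * t : ℕ) : ℝ) = ((r + q * t' : ℕ) : ℝ) := htt
    have e1 : r + q * t = r + q * t' := by exact_mod_cast e0
    have e2 : q * t = q * t' := by omega
    exact Nat.eq_of_mul_eq_mul_left (Nat.pos_of_ne_zero hq) e2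
  · intro z _ y hy
    obtain ⟨b, hb1, rfl⟩ := mem_image.1 hy
    rw [mem_filter] at hb1
    exact ⟨b, hb1.1, hb1.2, rfl⟩
  · rw [hcu]
    exact h123

end Pool.Agent.NLS
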