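import Pool.Agent.NLS.LvDef
import Pool.Agent.NLS.Ex

/-!
# NLS-LvEx: the exponential `ex a = exp(∑ a_l T^l / l)` at the slope `1 / t`

If `a_l` is integral for `l < t` and `π a_l` is integral for `l ≥ t`, then all the terms below `q` have weight `≥ 0` at the slope `1 / t`,
and the residues of the terms of index `t s` are those of `exp(β S)`, `β` = the residue of `π a_t` divided by `t`.

The proof is by induction with `ex_succ`: the weight of the term `i` is `≥ t v(a_i) + i`, which is `≥ 1` for `i ≠ t`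
and `≥ 0` for `i = t`.
-/

open Finset

namespace Pool.Agent.NLS

private theorem lvex_a0 {K k : Type} [Field K] [Field k] (D : DV K k) {t : ℕ} (ht : 1 ≤ t)
    (a : ℕ → K) (ha1 : ∀ l, 1 ≤ l → l < t → D.ge (a l) 0) (ha2 : ∀ l, t ≤ l → D.ge (a l) (-1))
    (i : ℕ) : D.geS t (a (i + 1)) (i + 1) 0 := by
  intro b hb
  have ht0 : (0 : ℤ) < t := by exact_mod_cast ht
  push_cast at hb
  rcases lt_or_ge (i + 1) t with h | h
  · refine D.ge_mono ?_ (ha1 _ (by omega) h)
    by_contra hcon
    have h1 : (0 : ℤ) ≤ t * (b - 1) := mul_nonneg ht0.le (by omega)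
    omega
  · refine D.ge_mono ?_ (ha2 _ h)
    by_contra hcon
    have h1 : (t : ℤ) * (-1) ≤ t * (b - 1) := mul_le_mul_of_nonneg_left (by omega) ht0.le
    have h2 : (t : ℤ) ≤ i + 1 := by exact_mod_cast h
    omega

private theorem lvex_a1 {K k : Type} [Field K] [Field k] (D : DV K k) {t : ℕ} (ht : 1 ≤ t)
    (a : ℕ → K) (ha1 : ∀ l, 1 ≤ l → l < t → D.ge (a l) 0) (ha2 : ∀ l, t ≤ l → D.ge (a l) (-1))
    (i : ℕ) (hi : i + 1 ≠ t) : D.geS t (a (i + 1)) (i + 1) 1 := by
  intro b hb
  have ht0 : (0 : ℤ) < t := by exact_mod_cast ht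
  push_cast at hb
  rcases lt_or_ge (i + 1) t with h | h
  · refine D.ge_mono ?_ (ha1 _ (by omega) h)
    by_contra hcon
    have h1 : (0 : ℤ) ≤ t * (b - 1) := mul_nonneg ht0.le (by omega)
    omega
  · refine D.ge_mono ?_ (ha2 _ h)
    by_contra hcon
    have h1 : (t : ℤ) * (-1) ≤ t * (b - 1) := mul_le_mul_of_nonneg_left (by omega) ht0.le
    have h2 : (t : ℤ) ≤ i := by
      have : t ≤ i := by omega
      exact_mod_cast this
    omega

private theorem lvex_unit {K k : Type} [Field K] [CharZero K] [Field k] (D : DV K k) {n : ℕ}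
    (hn : (n : k) ≠ 0) (b : ℤ) : D.ge (n : K) b ↔ b ≤ 0 := by
  have h0 : D.ge (n : K) 0 := D.ge_iff_mem.2 (natCast_mem D.O n)
  refine ⟨fun h => ?_, fun h => D.ge_mono h h0⟩
  by_contra hcon
  apply hn
  rw [← D.lr_natCast n, D.lr_zero_iff h0]
  exact D.ge_mono (by omega) h

private theorem lvex_div {K k : Type} [Field K] [CharZero K] [Field k] (D : DV K k) {t n : ℕ}
    (ht : 1 ≤ t) (hn : (n : k) ≠ 0) {x : K} {j : ℕ} {M : ℤ} (h : D.geS t ((n : K) * x) j M) :
    D.geS t x j M := by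
  by_cases hx : x = 0
  · rw [hx]
    exact D.geS_zero _ _ _
  obtain ⟨v, hv⟩ := D.ex_val hx
  rw [D.geS_iff ht (D.val_mul (lvex_unit D hn) hv), zero_add] at h
  rwa [D.geS_iff ht hv]

theorem lv_ex_ge {K k : Type} [Field K] [CharZero K] [Field k] (D : DV K k) {q N t : ℕ} (ht : 1 ≤ t)
    (hk : ∀ i : ℕ, 1 ≤ i → i < q → (i : k) ≠ 0) (hNq : N ≤ q) (a : ℕ → K)
    (ha1 : ∀ l, 1 ≤ l → l < t → D.ge (a l) 0) (ha2 : ∀ l, t ≤ l → D.ge (a l) (-1)) :
    ∀ j < N, D.geS t (ex a j) j 0 := by
  intro j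
  induction j using Nat.strong_induction_on with
  | _ j ih =>
    intro hj
    rcases j with _ | j
    · rw [ex_zero]
      intro b hb
      refine D.ge_mono ?_ D.ge_one
      have ht0 : (0 : ℤ) < t := by exact_mod_cast ht
      push_cast at hb
      by_contra hcon
      have h1 : (0 : ℤ) ≤ t * (b - 1) := mul_nonneg ht0.le (by omega)
      omega
    · refine lvex_div D ht (hk (j + 1) (by omega) (by omega)) ?_
      rw [Nat.cast_add, Nat.cast_one, ex_succ]
      refine D.geS_sum _ _ fun i hi => ?_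
      have hi' : i < j + 1 := Finset.mem_range.1 hi
      have h := D.geS_mul ht (lvex_a0 D ht a ha1 ha2 i) (ih (j - i) (by omega) (by omega))
      rwa [show i + 1 + (j - i) = j + 1 by omega, add_zero] at h

theorem lv_ex_lr {K k : Type} [Field K] [CharZero K] [Field k] (D : DV K k) {q N t : ℕ} (ht : 1 ≤ t)
    (hk : ∀ i : ℕ, 1 ≤ i → i < q → (i : k) ≠ 0) (hNq : N ≤ q) (a : ℕ → K)
    (ha1 : ∀ l, 1 ≤ l → l < t → D.ge (a l) 0) (ha2 : ∀ l, t ≤ l → D.ge (a l) (-1)) :
    ∀ s, t * s < N → D.lr (ex a (t * s)) (-(s : ℤ)) = (D.lr (a t) (-1) / (t : k)) ^ s / (s.factorial : k) := by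
  have ht0 : (0 : ℤ) < t := by exact_mod_cast ht
  have hge := lv_ex_ge D ht hk hNq a ha1 ha2
  have hge' : ∀ s, t * s < N → D.ge (ex a (t * s)) (-(s : ℤ)) := by
    intro s hs
    refine hge _ hs _ ?_
    push_cast
    have : (t : ℤ) * (-(s : ℤ) - 1) + t * s = - t := by ring
    omega
  intro s
  induction s with
  | zero =>
    intro _
    rw [mul_zero, ex_zero]
    simp [D.lr_one]
  | succ s ih =>
    intro hs
    have hs' : t * s < N := lt_of_le_of_lt (Nat.mul_le_mul_left t (Nat.le_succ s)) hs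
    obtain ⟨j, hj⟩ : ∃ j, t * (s + 1) = j + 1 :=
      Nat.exists_eq_succ_of_ne_zero (Nat.mul_ne_zero (by omega) (by omega))
    have hjz : ((j : ℤ) + 1) = t * (s + 1) := by exact_mod_cast hj.symm
    have hunit : (((t * (s + 1) : ℕ)) : k) ≠ 0 := hk _ (by omega) (by omega)
    have hrec : ((t * (s + 1) : ℕ) : K) * ex a (t * (s + 1)) =
        ∑ i ∈ range (j + 1), a (i + 1) * ex a (j - i) := by
      rw [hj, Nat.cast_add, Nat.cast_one, ex_succ]
    have hterm : ∀ i ∈ range (j + 1), D.ge (a (i + 1) * ex a (j - i)) (-((s + 1 : ℕ) : ℤ)) := by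
      intro i hi
      have hi' : i < j + 1 := Finset.mem_range.1 hi
      have h := D.geS_mul ht (lvex_a0 D ht a ha1 ha2 i) (hge (j - i) (by omega))
      rw [show i + 1 + (j - i) = j + 1 by omega, add_zero] at h
      refine h _ ?_
      push_cast
      rw [hjz]
      have : (t : ℤ) * (-((s : ℤ) + 1) - 1) + t * (s + 1) = - t := by ring
      omega
    have hterm0 : ∀ i ∈ range (j + 1), i + 1 ≠ t →
        D.lr (a (i + 1) * ex a (j - i)) (-((s + 1 : ℕ) : ℤ)) = 0 := by
      intro i hi hit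
      have hi' : i < j + 1 := Finset.mem_range.1 hi
      rw [D.lr_zero_iff (hterm i hi)]
      have h := D.geS_mul ht (lvex_a1 D ht a ha1 ha2 i hit) (hge (j - i) (by omega))
      rw [show i + 1 + (j - i) = j + 1 by omega, add_zero] at h
      refine h _ ?_
      push_cast
      rw [hjz]
      have : (t : ℤ) * (-((s : ℤ) + 1) + 1 - 1) + t * (s + 1) = 0 := by ring
      omega
    have hmem : t - 1 ∈ range (j + 1) := by
      rw [Finset.mem_range, ← hj]
      have : t ≤ t * (s + 1) := Nat.le_mul_of_pos_right t (by omega)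
      omega
    have h1 : D.lr (∑ i ∈ range (j + 1), a (i + 1) * ex a (j - i)) (-((s + 1 : ℕ) : ℤ)) =
        D.lr (a t) (-1) * D.lr (ex a (t * s)) (-(s : ℤ)) := by
      rw [D.lr_sum _ _ hterm, Finset.sum_eq_single_of_mem (t - 1) hmem
        (fun i hi hne => hterm0 i hi (by omega))]
      have e1 : t - 1 + 1 = t := by omega
      have e2 : j - (t - 1) = t * s := by
        have : t * (s + 1) = t * s + t := by ring
        omega
      rw [e1, e2]
      have e3 : (-((s + 1 : ℕ) : ℤ)) = (-1) + (-(s : ℤ)) := by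
        push_cast
        ring
      rw [e3]
      exact D.lr_mul (ha2 t le_rfl) (hge' s hs')
    have h2 : D.lr (((t * (s + 1) : ℕ) : K) * ex a (t * (s + 1))) (-((s + 1 : ℕ) : ℤ)) =
        ((t * (s + 1) : ℕ) : k) * D.lr (ex a (t * (s + 1))) (-((s + 1 : ℕ) : ℤ)) := by
      have h3 := D.lr_mul (x := ((t * (s + 1) : ℕ) : K)) (a := 0)
        (D.ge_iff_mem.2 (natCast_mem D.O _)) (hge' (s + 1) hs)
      rwa [zero_add, D.lr_natCast] at h3
    rw [hrec, h1, ih hs'] at h2
    have ht1 : (t : k) ≠ 0 := by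
      intro h0
      apply hunit
      rw [Nat.cast_mul, h0, zero_mul]
    have hs1 : ((s : k) + 1) ≠ 0 := by
      intro h0
      apply hunit
      rw [Nat.cast_mul, Nat.cast_add, Nat.cast_one, h0, mul_zero]
    have hfac : (s.factorial : k) ≠ 0 := by
      have hall : ∀ m : ℕ, m ≤ s → (m.factorial : k) ≠ 0 := by
        intro m
        induction m with
        | zero => intro _; simp
        | succ m ihm =>
          intro hm
          rw [Nat.factorial_succ, Nat.cast_mul]
          refine mul_ne_zero (hk (m + 1) (by omega) ?_) (ihm (by omega))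
          have : s ≤ t * s := Nat.le_mul_of_pos_left s (by omega)
          omega
      exact hall s le_rfl
    rw [Nat.factorial_succ]
    push_cast at h2 ⊢
    rw [eq_div_iff (mul_ne_zero hs1 hfac)]
    have h4 : (t : k) * ((D.lr (ex a (t * (s + 1))) (-((s : ℤ) + 1))) * (((s : k) + 1) * s.factorial)) =
        (t : k) * (D.lr (a t) (-1) / (t : k)) ^ (s + 1) := by
      rw [pow_succ]
      have h5 : (t : k) * ((D.lr (ex a (t * (s + 1))) (-((s : ℤ) + 1))) * (((s : k) + 1) * s.factorial)) =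
          ((t : k) * ((s : k) + 1) * D.lr (ex a (t * (s + 1))) (-((s : ℤ) + 1))) * s.factorial := by
        ring
      rw [h5, ← h2]
      field_simp
    exact mul_left_cancel₀ ht1 h4

end Pool.Agent.NLS
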