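import Pool.Agent.NLS.LvKey
import Pool.Agent.NLS.LvEx

/-!
# NLS-LvClaim: independence of exponentials, by induction over the levels `t = c + 1, ..., 1`

`lv_step`: from the level `t + 1` to the level `t` (split `Y` by the residue of `x v t`, `lv_key`). `lv_claim`: all levels.
`lv_indep`: the level `1`.
-/

open Finset

namespace Pool.Agent.NLS

/-- the statement at the level `t` -/
def LvSt {K k : Type} [Field K] [CharZero K] [Field k] (D : DV K k) (N c t : ℕ) {V : Type} (x : V → ℕ → K) : Prop :=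
  ∀ Y : Finset V, (∀ v ∈ Y, ∀ w ∈ Y, ∀ l, 1 ≤ l → l < t → D.ge (x v l - x w l) 1) →
    (∀ v ∈ Y, ∀ w ∈ Y, (∀ l, t ≤ l → l ≤ c → D.ge (x v l - x w l) 1) → v = w) → c * (Y.card - 1) < N →
    ∀ μ : V → K, (∃ v ∈ Y, μ v ≠ 0) → ∀ w0 ∈ Y,
      D.lowAt t N (fun j => ∑ v ∈ Y, μ v * ex (fun l => (x v l - x w0 l) / D.π) j) (c * (Y.card - 1))

private lemma lvc_ge_div {K k : Type} [Field K] [Field k] (D : DV K k) {y : K} {a b : ℤ} (hab : a + 1 = b)
    (h : D.ge y b) : D.ge (y / D.π) a := by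
  unfold DV.ge at h ⊢
  have e : D.π ^ (-a) * (y / D.π) = D.π ^ (-b) * y := by
    have h1 : -a = -b + 1 := by omega
    rw [h1, zpow_add_one₀ D.hπ0]
    field_simp [D.hπ0]
  rw [e]
  exact h

private lemma lvc_lr_div {K k : Type} [Field K] [Field k] (D : DV K k) {y : K} {a b : ℤ} (hab : a + 1 = b) :
    D.lr (y / D.π) a = D.lr y b := by
  have e : D.π ^ (-a) * (y / D.π) = D.π ^ (-b) * y := by
    have h1 : -a = -b + 1 := by omega
    rw [h1, zpow_add_one₀ D.hπ0]
    field_simp [D.hπ0]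
  have key : ∀ z z' : K, z = z' → (open Classical in (if h : z ∈ D.O then D.ρ ⟨z, h⟩ else 0)) =
      (open Classical in (if h : z' ∈ D.O then D.ρ ⟨z', h⟩ else 0)) := by
    rintro z _ rfl
    rfl
  exact key _ _ e

private lemma lvc_lr_sub {K k : Type} [Field K] [Field k] (D : DV K k) {x y : K} {a : ℤ} (hx : D.ge x a)
    (hy : D.ge y a) : D.lr (x - y) a = D.lr x a - D.lr y a := by
  have h1 := D.lr_add (D.ge_sub hx hy) hy
  rw [sub_add_cancel] at h1
  rw [h1, add_sub_cancel_right]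

private lemma lvc_ex_split {K : Type} [Field K] [CharZero K] (p : K) (x y z : ℕ → K) (j : ℕ) :
    ex (fun l => (x l - z l) / p) j = ∑ i ∈ range (j + 1), ex (fun l => (y l - z l) / p) i *
      ex (fun l => (x l - y l) / p) (j - i) := by
  have h1 : (fun l => (x l - z l) / p) = fun l => (y l - z l) / p + (x l - y l) / p := by
    funext l
    ring
  rw [h1, ex_add, Finset.Nat.sum_antidiagonal_eq_sum_range_succ_mk]

theorem lv_step {K k : Type} [Field K] [CharZero K] [Field k] (D : DV K k) {q N t c : ℕ} (ht : 1 ≤ t) (htc : t ≤ c)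
    (hk : ∀ i : ℕ, 1 ≤ i → i < q → (i : k) ≠ 0) (hNq : N ≤ q) {V : Type} (x : V → ℕ → K)
    (hx : ∀ v l, D.ge (x v l) 0) (h : LvSt D N c (t + 1) x) : LvSt D N c t x := by
  classical
  intro Y hlow hinj hN μ hμ w0 hw0
  set res : V → k := fun v => D.lr (x v t) 0 with hres
  have hres_iff : ∀ v w, res v = res w ↔ D.ge (x v t - x w t) 1 := by
    intro v w
    have h1 := D.lr_zero_iff (D.ge_sub (hx v t) (hx w t))
    rw [lvc_lr_sub D (hx v t) (hx w t), sub_eq_zero, zero_add] at h1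
    exact h1
  set Yb : k → Finset V := fun b => Y.filter (fun v => res v = b) with hYb
  have hYb_mem : ∀ b v, v ∈ Yb b ↔ v ∈ Y ∧ res v = b := by
    intro b v
    rw [hYb]
    exact Finset.mem_filter
  set w : k → V := fun b => if hb : (Yb b).Nonempty then hb.choose else w0 with hw
  have hwb : ∀ b, (Yb b).Nonempty → w b ∈ Yb b := by
    intro b hb
    rw [hw]
    simp only
    rw [dif_pos hb]
    exact hb.choose_spec
  set B : Finset k := (Y.image res).filter (fun b => ∃ v ∈ Yb b, μ v ≠ 0) with hB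
  have hB_mem : ∀ b, b ∈ B ↔ ∃ v ∈ Yb b, μ v ≠ 0 := by
    intro b
    rw [hB, Finset.mem_filter, Finset.mem_image]
    constructor
    · rintro ⟨-, h1⟩
      exact h1
    · rintro ⟨v, hv, hv2⟩
      exact ⟨⟨v, ((hYb_mem b v).1 hv).1, ((hYb_mem b v).1 hv).2⟩, v, hv, hv2⟩
  have hBne : B.Nonempty := by
    obtain ⟨v, hv, hv2⟩ := hμ
    exact ⟨res v, (hB_mem _).2 ⟨v, (hYb_mem _ _).2 ⟨hv, rfl⟩, hv2⟩⟩
  have hBY : ∀ b ∈ B, (Yb b).Nonempty := by
    intro b hb
    obtain ⟨v, hv, -⟩ := (hB_mem b).1 hb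
    exact ⟨v, hv⟩
  have hcard : ∑ b ∈ B, (Yb b).card ≤ Y.card := by
    have h1 : ∑ b ∈ Y.image res, (Yb b).card = Y.card := by
      rw [Finset.card_eq_sum_card_image res Y]
    rw [← h1]
    exact Finset.sum_le_sum_of_subset (Finset.filter_subset _ _)
  have hYbcard : ∀ b, (Yb b).card ≤ Y.card := fun b => Finset.card_le_card (Finset.filter_subset _ _)
  set P : k → ℕ → K := fun b => ex (fun l => (x (w b) l - x w0 l) / D.π) with hP
  set f : k → ℕ → K := fun b j => ∑ v ∈ Yb b, μ v * ex (fun l => (x v l - x (w b) l) / D.π) j with hf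
  have hNm : c * ((∑ b ∈ B, (Yb b).card) - 1) ≤ c * (Y.card - 1) :=
    Nat.mul_le_mul_left _ (Nat.sub_le_sub_right hcard 1)
  have key := lv_key D ht htc hk hNq B hBne (fun b => (b - res w0) / (t : k)) (q := q) (N := N) (c := c) ?_ P f
    (fun b => (Yb b).card) ?_ (lt_of_le_of_lt hNm hN) ?_ ?_ ?_
  · have hfun : (fun j => ∑ b ∈ B, ∑ i ∈ range (j + 1), P b i * f b (j - i)) =
        fun j => ∑ v ∈ Y, μ v * ex (fun l => (x v l - x w0 l) / D.π) j := by
      funext j
      have h1 : ∑ v ∈ Y, μ v * ex (fun l => (x v l - x w0 l) / D.π) j =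
          ∑ b ∈ Y.image res, ∑ v ∈ Yb b, μ v * ex (fun l => (x v l - x w0 l) / D.π) j :=
        (Finset.sum_fiberwise_of_maps_to (fun v hv => Finset.mem_image_of_mem _ hv) _).symm
      rw [h1]
      have h2 : ∑ b ∈ Y.image res, ∑ v ∈ Yb b, μ v * ex (fun l => (x v l - x w0 l) / D.π) j =
          ∑ b ∈ B, ∑ v ∈ Yb b, μ v * ex (fun l => (x v l - x w0 l) / D.π) j := by
        symm
        apply Finset.sum_subset (Finset.filter_subset _ _)
        intro b _ hb2
        apply Finset.sum_eq_zero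
        intro v hv
        have h3 : μ v = 0 := by
          by_contra h4
          exact hb2 ((hB_mem b).2 ⟨v, hv, h4⟩)
        rw [h3, zero_mul]
      rw [h2]
      apply Finset.sum_congr rfl
      intro b _
      have h5 : ∀ v ∈ Yb b, μ v * ex (fun l => (x v l - x w0 l) / D.π) j =
          ∑ i ∈ range (j + 1), P b i * (μ v * ex (fun l => (x v l - x (w b) l) / D.π) (j - i)) := by
        intro v _
        rw [lvc_ex_split D.π (x v) (x (w b)) (x w0) j, Finset.mul_sum]
        apply Finset.sum_congr rfl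
        intro i _
        rw [hP]
        ring
      rw [Finset.sum_congr rfl h5, Finset.sum_comm]
      apply Finset.sum_congr rfl
      intro i _
      rw [← Finset.mul_sum]
    rw [hfun] at key
    exact D.low_mono hNm key
  · intro b hb b' hb' he
    by_contra hne
    obtain ⟨v, hv, -⟩ := (hB_mem b).1 hb
    obtain ⟨v', hv', -⟩ := (hB_mem b').1 hb'
    have h1 := (hYb_mem b v).1 hv
    have h2 := (hYb_mem b' v').1 hv'
    have h3 : v ≠ v' := by
      rintro rfl
      exact hne (h1.2.symm.trans h2.2)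
    have h4 : 1 < Y.card := Finset.one_lt_card.2 ⟨v, h1.1, v', h2.1, h3⟩
    have h5 : c * 1 ≤ c * (Y.card - 1) := Nat.mul_le_mul_left _ (by omega)
    have h6 : (t : k) ≠ 0 := hk t ht (by omega)
    have h7 : b - res w0 = b' - res w0 := by
      exact (div_left_inj' h6).1 he
    exact hne (sub_left_injective h7)
  · intro b hb
    exact Finset.card_pos.2 (hBY b hb)
  · intro b hb j hj
    have h1 := (hYb_mem b (w b)).1 (hwb b (hBY b hb))
    apply lv_ex_ge D ht hk hNq (fun l => (x (w b) l - x w0 l) / D.π) _ _ j hj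
    · intro l hl1 hl2
      exact lvc_ge_div D (by norm_num) (hlow (w b) h1.1 w0 hw0 l hl1 hl2)
    · intro l _
      exact lvc_ge_div D (by norm_num) (D.ge_sub (hx _ _) (hx _ _))
  · intro b hb s hs
    have h1 := (hYb_mem b (w b)).1 (hwb b (hBY b hb))
    have h2 := lv_ex_lr D ht hk hNq (fun l => (x (w b) l - x w0 l) / D.π) (fun l hl1 hl2 =>
      lvc_ge_div D (by norm_num) (hlow (w b) h1.1 w0 hw0 l hl1 hl2)) (fun l _ =>
      lvc_ge_div D (by norm_num) (D.ge_sub (hx _ _) (hx _ _))) s hs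
    have h3 : D.lr ((x (w b) t - x w0 t) / D.π) (-1) = b - res w0 := by
      rw [lvc_lr_div D (by norm_num : (-1 : ℤ) + 1 = 0), lvc_lr_sub D (hx _ _) (hx _ _)]
      have h4 : D.lr (x (w b) t) 0 = b := h1.2
      rw [h4]
    simp only [h3] at h2
    exact h2
  · intro b hb
    apply D.low_top ht
    have h1 := hwb b (hBY b hb)
    apply h (Yb b) _ _ _ μ ((hB_mem b).1 hb) (w b) h1
    · intro v hv v' hv' l hl1 hl2
      have h2 := (hYb_mem b v).1 hv
      have h3 := (hYb_mem b v').1 hv'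
      rcases Nat.lt_succ_iff_lt_or_eq.1 hl2 with hl3 | rfl
      · exact hlow v h2.1 v' h3.1 l hl1 hl3
      · exact (hres_iff v v').1 (h2.2.trans h3.2.symm)
    · intro v hv v' hv' hl
      have h2 := (hYb_mem b v).1 hv
      have h3 := (hYb_mem b v').1 hv'
      apply hinj v h2.1 v' h3.1
      intro l hl1 hl2
      rcases Nat.eq_or_lt_of_le hl1 with rfl | hl3
      · exact (hres_iff v v').1 (h2.2.trans h3.2.symm)
      · exact hl l hl3 hl2
    · exact lt_of_le_of_lt (Nat.mul_le_mul_left _ (Nat.sub_le_sub_right (hYbcard b) 1)) hN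

private lemma lvc_top {K k : Type} [Field K] [CharZero K] [Field k] (D : DV K k) {N c : ℕ} {V : Type}
    (x : V → ℕ → K) : LvSt D N c (c + 1) x := by
  classical
  intro Y _ hinj hN μ hμ w0 hw0
  obtain ⟨v, hv, hμv⟩ := hμ
  have hall : ∀ u ∈ Y, u = w0 := by
    intro u hu
    apply hinj u hu w0 hw0
    intro l hl1 hl2
    exact absurd hl2 (by omega)
  have hY : Y = {w0} := Finset.eq_singleton_iff_unique_mem.2 ⟨hw0, hall⟩
  have hμ0 : μ w0 ≠ 0 := by
    rw [← hall v hv]
    exact hμv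
  have hN0 : 0 < N := by omega
  obtain ⟨a, ha⟩ := D.ex_val hμ0
  have hfj : ∀ j, (∑ u ∈ Y, μ u * ex (fun l => (x u l - x w0 l) / D.π) j) = if j = 0 then μ w0 else 0 := by
    intro j
    rw [hY, Finset.sum_singleton]
    have h1 : (fun l => (x w0 l - x w0 l) / D.π) = fun _ => (0 : K) := by
      funext l
      rw [sub_self, zero_div]
    rw [h1, ex_of_zero]
    split_ifs
    · rw [mul_one]
    · rw [mul_zero]
  refine ⟨((c + 1 : ℕ) : ℤ) * a + ((0 : ℕ) : ℤ), ?_, 0, Nat.zero_le _, hN0, ?_⟩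
  · intro j _
    simp only [hfj]
    split_ifs with hj
    · subst hj
      rw [D.geS_iff (Nat.succ_le_succ (Nat.zero_le c)) ha]
    · exact D.geS_zero _ _ _
  · simp only [hfj, if_true]
    rw [D.geS_iff (Nat.succ_le_succ (Nat.zero_le c)) ha]
    push_cast
    intro hh
    linarith

theorem lv_claim {K k : Type} [Field K] [CharZero K] [Field k] (D : DV K k) {q N c : ℕ}
    (hk : ∀ i : ℕ, 1 ≤ i → i < q → (i : k) ≠ 0) (hNq : N ≤ q) {V : Type} (x : V → ℕ → K)
    (hx : ∀ v l, D.ge (x v l) 0) : ∀ t, 1 ≤ t → t ≤ c + 1 → LvSt D N c t x := by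
  have main : ∀ s t, t + s = c + 1 → 1 ≤ t → LvSt D N c t x := by
    intro s
    induction s with
    | zero =>
      intro t hts _
      have h1 : t = c + 1 := by omega
      subst h1
      exact lvc_top D x
    | succ s ih =>
      intro t hts ht
      exact lv_step D ht (by omega) hk hNq x hx (ih (t + 1) (by omega) (by omega))
  intro t ht htc
  exact main (c + 1 - t) t (by omega) ht

theorem lv_indep {K k : Type} [Field K] [CharZero K] [Field k] (D : DV K k) {q N c : ℕ} (hc : 1 ≤ c)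
    (hk : ∀ i : ℕ, 1 ≤ i → i < q → (i : k) ≠ 0) (hNq : N ≤ q) {V : Type} (x : V → ℕ → K)
    (hx : ∀ v l, D.ge (x v l) 0) (Y : Finset V)
    (hinj : ∀ v ∈ Y, ∀ w ∈ Y, (∀ l, 1 ≤ l → l ≤ c → D.ge (x v l - x w l) 1) → v = w)
    (hN : c * (Y.card - 1) < N) (μ : V → K) (h : ∀ j < N, ∑ v ∈ Y, μ v * ex (fun l => x v l / D.π) j = 0) :
    ∀ v ∈ Y, μ v = 0 := by
  intro w0 hw0
  by_contra hμ
  have h1 := lv_claim D hk hNq x hx 1 le_rfl (by omega) Y
    (fun v _ w _ l hl1 hl2 => absurd hl2 (by omega)) hinj hN μ ⟨w0, hw0, hμ⟩ w0 hw0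
  obtain ⟨j, -, hjN, hj⟩ := D.low_ne h1
  apply hj
  have h2 : ∀ v ∈ Y, μ v * ex (fun l => (x v l - x w0 l) / D.π) j =
      ∑ i ∈ range (j + 1), ex (fun l => (0 - x w0 l) / D.π) i * (μ v * ex (fun l => x v l / D.π) (j - i)) := by
    intro v _
    rw [lvc_ex_split D.π (x v) (fun _ => 0) (x w0) j, Finset.mul_sum]
    apply Finset.sum_congr rfl
    intro i _
    simp only [sub_zero]
    ring
  rw [Finset.sum_congr rfl h2, Finset.sum_comm]
  apply Finset.sum_eq_zero
  intro i hi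
  rw [← Finset.mul_sum, h (j - i) (by omega), mul_zero]

end Pool.Agent.NLS
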