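import Mathlib

/-!
# NLS-LvDef: a discretely valued field and the weights of the terms of a power series

`D.ge x a`: the valuation of `x` is at least `a`. `D.lr x a`: the residue of `π ^ (-a) x` (if `D.ge x a`).
`D.geS t x j M`: the weight `t v(x) + j` of `x T ^ j` is at least `M` (slope `1 / t`).

PLAN: `ex_val`: from the field `ex`; uniqueness of the valuation: `ρ π = 0` (`ker` with `y = 1`). With the valuation `v` all
statements are easy: first prove `ge x a ↔ x = 0 ∨ a ≤ v x`. `geS x j M ↔ x = 0 ∨ M ≤ t v + j`.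
-/

namespace Pool.Agent.NLS

/-- a discrete valuation ring `O` of `K` with uniformizer `π` and residue map `ρ : O → k` -/
structure DV (K k : Type) [Field K] [Field k] where
  O : Subring K
  π : K
  ρ : O →+* k
  hπO : π ∈ O
  hπ0 : π ≠ 0
  ker : ∀ x : O, ρ x = 0 ↔ ∃ y : O, (x : K) = π * y
  ex : ∀ x : K, x ≠ 0 → ∃ m : ℤ, ∃ h : π ^ m * x ∈ O, ρ ⟨π ^ m * x, h⟩ ≠ 0

namespace DV

variable {K k : Type} [Field K] [Field k] (D : DV K k)

/-- the valuation of `x` is at least `a` -/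
def ge (x : K) (a : ℤ) : Prop := D.π ^ (-a) * x ∈ D.O

open Classical in
/-- the residue of `π ^ (-a) x` -/
noncomputable def lr (x : K) (a : ℤ) : k := if h : D.π ^ (-a) * x ∈ D.O then D.ρ ⟨_, h⟩ else 0

/-- the weight `t v(x) + j` is at least `M` -/
def geS (t : ℕ) (x : K) (j : ℕ) (M : ℤ) : Prop := ∀ a : ℤ, (t : ℤ) * (a - 1) + j < M → D.ge x a

/-- the smallest index of minimal weight is at most `J` -/
def lowAt (t N : ℕ) (f : ℕ → K) (J : ℕ) : Prop :=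
  ∃ M : ℤ, (∀ j < N, D.geS t (f j) j M) ∧ ∃ j ≤ J, j < N ∧ ¬ D.geS t (f j) j (M + 1)

/-- the largest index of minimal weight is at most `J` -/
def topAt (t N : ℕ) (f : ℕ → K) (J : ℕ) : Prop :=
  ∃ M : ℤ, (∀ j < N, D.geS t (f j) j M) ∧ (∃ j ≤ J, j < N ∧ ¬ D.geS t (f j) j (M + 1)) ∧
    ∀ j < N, J < j → D.geS t (f j) j (M + 1)

private theorem NLSlv_pi_mem {m : ℤ} (hm : 0 ≤ m) : D.π ^ m ∈ D.O := by
  obtain ⟨n, rfl⟩ := Int.eq_ofNat_of_zero_le hm
  rw [zpow_natCast]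
  exact pow_mem D.hπO n

private theorem NLSlv_lr_eq {x : K} {a : ℤ} (h : D.ge x a) : D.lr x a = D.ρ ⟨D.π ^ (-a) * x, h⟩ := by
  unfold lr
  exact dif_pos h

theorem ge_zero (a : ℤ) : D.ge 0 a := by
  unfold ge
  rw [mul_zero]
  exact zero_mem _

theorem ge_mono {x : K} {a b : ℤ} (h : a ≤ b) (hx : D.ge x b) : D.ge x a := by
  unfold ge at *
  have h1 : D.π ^ (-a) * x = D.π ^ (b - a) * (D.π ^ (-b) * x) := by
    rw [← mul_assoc, ← zpow_add₀ D.hπ0]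
    congr 2
    ring
  rw [h1]
  exact mul_mem (D.NLSlv_pi_mem (by omega)) hx

theorem ge_one : D.ge 1 0 := by
  unfold ge
  simp

theorem ge_iff_mem {x : K} : D.ge x 0 ↔ x ∈ D.O := by
  unfold ge
  simp

theorem ge_add {x y : K} {a : ℤ} (hx : D.ge x a) (hy : D.ge y a) : D.ge (x + y) a := by
  unfold ge at *
  rw [mul_add]
  exact add_mem hx hy

theorem ge_sub {x y : K} {a : ℤ} (hx : D.ge x a) (hy : D.ge y a) : D.ge (x - y) a := by
  unfold ge at *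
  rw [mul_sub]
  exact sub_mem hx hy

theorem ge_sum {ι : Type} (s : Finset ι) (f : ι → K) {a : ℤ} (h : ∀ i ∈ s, D.ge (f i) a) :
    D.ge (∑ i ∈ s, f i) a := by
  unfold ge at *
  rw [Finset.mul_sum]
  exact sum_mem h

theorem ge_mul {x y : K} {a b : ℤ} (hx : D.ge x a) (hy : D.ge y b) : D.ge (x * y) (a + b) := by
  unfold ge at *
  have h1 : D.π ^ (-(a + b)) * (x * y) = (D.π ^ (-a) * x) * (D.π ^ (-b) * y) := by
    rw [neg_add, zpow_add₀ D.hπ0]
    ring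
  rw [h1]
  exact mul_mem hx hy

/-- the valuation -/
theorem ex_val {x : K} (hx : x ≠ 0) : ∃ v : ℤ, ∀ a : ℤ, D.ge x a ↔ a ≤ v := by
  obtain ⟨m, h, hm⟩ := D.ex x hx
  refine ⟨-m, fun a => ⟨fun ha => ?_, fun ha => ?_⟩⟩
  · by_contra hlt
    apply hm
    rw [D.ker]
    refine ⟨⟨D.π ^ (m - 1) * x, ?_⟩, ?_⟩
    · have h2 : D.ge x (1 - m) := D.ge_mono (by omega) ha
      unfold ge at h2
      have h3 : (-(1 - m) : ℤ) = m - 1 := by ring
      rwa [h3] at h2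
    · show D.π ^ m * x = D.π * (D.π ^ (m - 1) * x)
      rw [← mul_assoc, ← zpow_one_add₀ D.hπ0]
      congr 2
      ring
  · refine D.ge_mono ha ?_
    unfold ge
    rwa [neg_neg]

theorem val_mul {x y : K} {v w : ℤ} (hx : ∀ a : ℤ, D.ge x a ↔ a ≤ v) (hy : ∀ a : ℤ, D.ge y a ↔ a ≤ w)
    (a : ℤ) : D.ge (x * y) a ↔ a ≤ v + w := by
  have key : ∀ {z : K} {u : ℤ}, (∀ a : ℤ, D.ge z a ↔ a ≤ u) → D.ge z u ∧ ¬ D.ge z (u + 1) := by
    intro z u h
    refine ⟨(h u).2 le_rfl, fun h1 => ?_⟩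
    have := (h (u + 1)).1 h1
    omega
  obtain ⟨hx1, hx2⟩ := key hx
  obtain ⟨hy1, hy2⟩ := key hy
  refine ⟨fun ha => ?_, fun ha => D.ge_mono ha (D.ge_mul hx1 hy1)⟩
  by_contra hlt
  have h1 : D.ge (x * y) (v + w + 1) := D.ge_mono (by omega) ha
  have h2 : D.lr (x * y) (v + w) = 0 := by
    rw [D.NLSlv_lr_eq (D.ge_mul hx1 hy1), D.ker]
    refine ⟨⟨_, h1⟩, ?_⟩
    show D.π ^ (-(v + w)) * (x * y) = D.π * (D.π ^ (-(v + w + 1)) * (x * y))
    rw [← mul_assoc D.π, ← zpow_one_add₀ D.hπ0]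
    congr 2
    ring
  have h3 : D.lr (x * y) (v + w) = D.lr x v * D.lr y w := by
    rw [D.NLSlv_lr_eq (D.ge_mul hx1 hy1), D.NLSlv_lr_eq hx1, D.NLSlv_lr_eq hy1, ← map_mul]
    congr 1
    apply Subtype.ext
    show D.π ^ (-(v + w)) * (x * y) = (D.π ^ (-v) * x) * (D.π ^ (-w) * y)
    rw [neg_add, zpow_add₀ D.hπ0]
    ring
  rw [h3, mul_eq_zero] at h2
  have key2 : ∀ {z : K} {u : ℤ}, D.ge z u → D.lr z u = 0 → D.ge z (u + 1) := by
    intro z u h h0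
    rw [D.NLSlv_lr_eq h, D.ker] at h0
    obtain ⟨y', hy'⟩ := h0
    unfold ge
    have h4 : D.π ^ (-(u + 1)) * z = D.π⁻¹ * (D.π ^ (-u) * z) := by
      rw [← mul_assoc, neg_add, zpow_add₀ D.hπ0, zpow_neg_one]
      ring
    have h5 : D.π ^ (-u) * z = D.π * (y' : K) := hy'
    rw [h4, h5, ← mul_assoc, inv_mul_cancel₀ D.hπ0, one_mul]
    exact y'.2
  rcases h2 with h2 | h2
  · exact hx2 (key2 hx1 h2)
  · exact hy2 (key2 hy1 h2)

theorem lr_add {x y : K} {a : ℤ} (hx : D.ge x a) (hy : D.ge y a) : D.lr (x + y) a = D.lr x a + D.lr y a := by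
  rw [D.NLSlv_lr_eq (D.ge_add hx hy), D.NLSlv_lr_eq hx, D.NLSlv_lr_eq hy, ← map_add]
  congr 1
  apply Subtype.ext
  show D.π ^ (-a) * (x + y) = D.π ^ (-a) * x + D.π ^ (-a) * y
  ring

theorem lr_sum {ι : Type} (s : Finset ι) (f : ι → K) {a : ℤ} (h : ∀ i ∈ s, D.ge (f i) a) :
    D.lr (∑ i ∈ s, f i) a = ∑ i ∈ s, D.lr (f i) a := by
  classical
  induction s using Finset.induction_on with
  | empty =>
    rw [Finset.sum_empty, Finset.sum_empty, D.NLSlv_lr_eq (D.ge_zero a)]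
    have h0 : (⟨D.π ^ (-a) * 0, D.ge_zero a⟩ : D.O) = 0 := by
      apply Subtype.ext
      show D.π ^ (-a) * 0 = 0
      rw [mul_zero]
    rw [h0, map_zero]
  | insert i s hi ih =>
    rw [Finset.sum_insert hi, Finset.sum_insert hi, D.lr_add (h i (Finset.mem_insert_self i s))
      (D.ge_sum s f fun j hj => h j (Finset.mem_insert_of_mem hj)),
      ih fun j hj => h j (Finset.mem_insert_of_mem hj)]

theorem lr_mul {x y : K} {a b : ℤ} (hx : D.ge x a) (hy : D.ge y b) : D.lr (x * y) (a + b) = D.lr x a * D.lr y b := by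
  rw [D.NLSlv_lr_eq (D.ge_mul hx hy), D.NLSlv_lr_eq hx, D.NLSlv_lr_eq hy, ← map_mul]
  congr 1
  apply Subtype.ext
  show D.π ^ (-(a + b)) * (x * y) = (D.π ^ (-a) * x) * (D.π ^ (-b) * y)
  rw [neg_add, zpow_add₀ D.hπ0]
  ring

theorem lr_zero_iff {x : K} {a : ℤ} (hx : D.ge x a) : D.lr x a = 0 ↔ D.ge x (a + 1) := by
  rw [D.NLSlv_lr_eq hx, D.ker]
  constructor
  · rintro ⟨y, hy⟩
    unfold ge
    have h4 : D.π ^ (-(a + 1)) * x = D.π⁻¹ * (D.π ^ (-a) * x) := by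
      rw [← mul_assoc, neg_add, zpow_add₀ D.hπ0, zpow_neg_one]
      ring
    have h5 : D.π ^ (-a) * x = D.π * (y : K) := hy
    rw [h4, h5, ← mul_assoc, inv_mul_cancel₀ D.hπ0, one_mul]
    exact y.2
  · intro h
    refine ⟨⟨_, h⟩, ?_⟩
    show D.π ^ (-a) * x = D.π * (D.π ^ (-(a + 1)) * x)
    rw [← mul_assoc D.π, ← zpow_one_add₀ D.hπ0]
    congr 2
    ring

theorem lr_one : D.lr 1 0 = 1 := by
  rw [D.NLSlv_lr_eq D.ge_one]
  have h0 : (⟨D.π ^ (-(0 : ℤ)) * 1, D.ge_one⟩ : D.O) = 1 := by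
    apply Subtype.ext
    show D.π ^ (-(0 : ℤ)) * 1 = 1
    simp
  rw [h0, map_one]

theorem lr_natCast (i : ℕ) : D.lr (i : K) 0 = (i : k) := by
  have hg : D.ge (i : K) 0 := D.ge_iff_mem.2 (natCast_mem D.O i)
  rw [D.NLSlv_lr_eq hg]
  have h0 : (⟨D.π ^ (-(0 : ℤ)) * (i : K), hg⟩ : D.O) = (i : D.O) := by
    apply Subtype.ext
    show D.π ^ (-(0 : ℤ)) * (i : K) = ((i : D.O) : K)
    simp
  rw [h0, map_natCast]

theorem geS_zero (t j : ℕ) (M : ℤ) : D.geS t 0 j M := by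
  exact fun a _ => D.ge_zero a

theorem geS_iff {t : ℕ} (ht : 1 ≤ t) {x : K} {v : ℤ} (hx : ∀ a : ℤ, D.ge x a ↔ a ≤ v) (j : ℕ) (M : ℤ) :
    D.geS t x j M ↔ M ≤ (t : ℤ) * v + j := by
  constructor
  · intro h
    by_contra hlt
    have h1 := (hx (v + 1)).1 (h (v + 1) (by
      have : (t : ℤ) * (v + 1 - 1) = t * v := by ring
      rw [this]
      omega))
    omega
  · intro h a ha
    rw [hx a]
    by_contra hlt
    have h1 : v ≤ a - 1 := by omega
    have h2 : (t : ℤ) * v ≤ t * (a - 1) := mul_le_mul_of_nonneg_left h1 (by positivity)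
    omega

theorem geS_mono {t : ℕ} {x : K} {j : ℕ} {M M' : ℤ} (h : M ≤ M') (hx : D.geS t x j M') : D.geS t x j M := by
  exact fun a ha => hx a (by omega)

theorem geS_add {t : ℕ} {x y : K} {j : ℕ} {M : ℤ} (hx : D.geS t x j M) (hy : D.geS t y j M) : D.geS t (x + y) j M := by
  exact fun a ha => D.ge_add (hx a ha) (hy a ha)

theorem geS_sum {ι : Type} (s : Finset ι) (f : ι → K) {t j : ℕ} {M : ℤ} (h : ∀ i ∈ s, D.geS t (f i) j M) :
    D.geS t (∑ i ∈ s, f i) j M := by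
  exact fun a ha => D.ge_sum s f fun i hi => h i hi a ha

theorem geS_mul {t : ℕ} (ht : 1 ≤ t) {x y : K} {i j : ℕ} {A B : ℤ} (hx : D.geS t x i A) (hy : D.geS t y j B) :
    D.geS t (x * y) (i + j) (A + B) := by
  by_cases hx0 : x = 0
  · rw [hx0, zero_mul]
    exact D.geS_zero _ _ _
  by_cases hy0 : y = 0
  · rw [hy0, mul_zero]
    exact D.geS_zero _ _ _
  obtain ⟨v, hv⟩ := D.ex_val hx0
  obtain ⟨w, hw⟩ := D.ex_val hy0
  rw [D.geS_iff ht (D.val_mul hv hw)]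
  rw [D.geS_iff ht hv] at hx
  rw [D.geS_iff ht hw] at hy
  push_cast
  have : (t : ℤ) * (v + w) = t * v + t * w := by ring
  rw [this]
  omega

/-- the weights of the terms of degree `j` are congruent to `j` modulo `t` -/
theorem geS_succ {t : ℕ} (ht : 1 ≤ t) {x : K} {j : ℕ} {M : ℤ} (hx : D.geS t x j M) (h : ¬ (t : ℤ) ∣ M - j) :
    D.geS t x j (M + 1) := by
  by_cases hx0 : x = 0
  · rw [hx0]
    exact D.geS_zero _ _ _
  obtain ⟨v, hv⟩ := D.ex_val hx0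
  rw [D.geS_iff ht hv] at hx ⊢
  have h1 : M ≠ (t : ℤ) * v + j := by
    intro h1
    exact h ⟨v, by omega⟩
  omega

/-- weights of the terms of degree `j = j0 + t s` -/
theorem geS_iff_ge {t : ℕ} (ht : 1 ≤ t) {x : K} {j s : ℕ} {j0 e : ℤ} (hj : (j : ℤ) = j0 + t * s) :
    D.geS t x j (j0 + t * e) ↔ D.ge x (e - s) := by
  by_cases hx0 : x = 0
  · rw [hx0]
    exact ⟨fun _ => D.ge_zero _, fun _ => D.geS_zero _ _ _⟩
  obtain ⟨v, hv⟩ := D.ex_val hx0
  rw [D.geS_iff ht hv, hv, hj]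
  have ht0 : (0 : ℤ) < t := by exact_mod_cast ht
  have h1 : (t : ℤ) * v + (j0 + t * s) = j0 + t * (v + s) := by ring
  rw [h1, add_le_add_iff_left, mul_le_mul_iff_right₀ ht0]
  omega

/-- from a slope `1 / (t + 1)` to the slope `1 / t` -/
theorem low_top {t N : ℕ} (ht : 1 ≤ t) {f : ℕ → K} {J : ℕ} (h : D.lowAt (t + 1) N f J) : D.topAt t N f J := by
  classical
  obtain ⟨M, hM, j1, hj1J, hj1N, hj1⟩ := h
  have hf1 : f j1 ≠ 0 := by
    intro h0
    apply hj1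
    rw [h0]
    exact D.geS_zero _ _ _
  have hval : ∀ j : ℕ, ∃ v : ℤ, f j ≠ 0 → ∀ a : ℤ, D.ge (f j) a ↔ a ≤ v := by
    intro j
    by_cases hj : f j = 0
    · exact ⟨0, fun h => absurd hj h⟩
    · obtain ⟨v, hv⟩ := D.ex_val hj
      exact ⟨v, fun _ => hv⟩
  choose v hv using hval
  have hM1 := hM j1 hj1N
  rw [D.geS_iff (by omega) (hv j1 hf1)] at hM1 hj1
  push_cast at hM1 hj1
  -- all indices above `J` have a larger weight than `j1` for the slope `1 / t`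
  have hbig : ∀ j < N, J < j → f j ≠ 0 → (t : ℤ) * v j1 + j1 < t * v j + j := by
    intro j hjN hjJ hj0
    have h1 := hM j hjN
    rw [D.geS_iff (by omega) (hv j hj0)] at h1
    push_cast at h1
    have h2 : ((t : ℤ) + 1) * v j1 + j1 ≤ (t + 1) * v j + j := by omega
    have h3 : (j1 : ℤ) < j := by exact_mod_cast lt_of_le_of_lt hj1J hjJ
    have ht0 : (0 : ℤ) ≤ t := by positivity
    by_contra hcon
    have hcon' : (t : ℤ) * v j + j ≤ t * v j1 + j1 := not_lt.1 hcon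
    have h4 : v j1 ≤ v j := by linarith
    have h5 : (t : ℤ) * v j1 ≤ t * v j := mul_le_mul_of_nonneg_left h4 ht0
    linarith
  let S : Finset ℕ := (Finset.range N).filter fun j => f j ≠ 0
  have hS : S.Nonempty := ⟨j1, Finset.mem_filter.2 ⟨Finset.mem_range.2 hj1N, hf1⟩⟩
  obtain ⟨j2, hj2, hmin⟩ := Finset.exists_min_image S (fun j => (t : ℤ) * v j + j) hS
  have hj2' := Finset.mem_filter.1 hj2
  have hj2N : j2 < N := Finset.mem_range.1 hj2'.1
  have h12 := hmin j1 (Finset.mem_filter.2 ⟨Finset.mem_range.2 hj1N, hf1⟩)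
  refine ⟨(t : ℤ) * v j2 + j2, fun j hj => ?_, ⟨j2, ?_, hj2N, ?_⟩, fun j hj hJj => ?_⟩
  · by_cases hj0 : f j = 0
    · rw [hj0]
      exact D.geS_zero _ _ _
    · rw [D.geS_iff ht (hv j hj0)]
      exact hmin j (Finset.mem_filter.2 ⟨Finset.mem_range.2 hj, hj0⟩)
  · by_contra hlt
    have := hbig j2 hj2N (by omega) hj2'.2
    omega
  · rw [D.geS_iff ht (hv j2 hj2'.2)]
    omega
  · by_cases hj0 : f j = 0
    · rw [hj0]
      exact D.geS_zero _ _ _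
    · rw [D.geS_iff ht (hv j hj0)]
      have := hbig j hj hJj hj0
      omega

theorem low_mono {t N : ℕ} {f : ℕ → K} {J J' : ℕ} (hJ : J ≤ J') (h : D.lowAt t N f J) : D.lowAt t N f J' := by
  obtain ⟨M, hM, j, hj, hjN, hj'⟩ := h
  exact ⟨M, hM, j, hj.trans hJ, hjN, hj'⟩

theorem low_ne {t N : ℕ} {f : ℕ → K} {J : ℕ} (h : D.lowAt t N f J) : ∃ j ≤ J, j < N ∧ f j ≠ 0 := by
  obtain ⟨M, hM, j, hj, hjN, hj'⟩ := h
  refine ⟨j, hj, hjN, fun h0 => hj' ?_⟩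
  rw [h0]
  exact D.geS_zero _ _ _

end DV

end Pool.Agent.NLS
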