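import Pool.Agent.NLS.LvDef
import Pool.Agent.NLS.LvPerf

/-!
# NLS-LvKey: the smallest index of minimal weight of a combination with exponential coefficients

`P b` behaves like `exp(β_b S)`, `S = T^t / π`, at the slope `1 / t`; the `β_b` are distinct; `f b` has its largest index of minimal weight
`≤ J_b = c (m_b - 1)`. Then `∑_b P b * f b` has its smallest index of minimal weight `≤ c (∑ m_b - 1)`.

PLAN. `M_b` the minimal weight of `f b` (from `topAt`), `M` the minimum of the `M_b`, `B0 = {b | M_b = M}` (nonempty). `M = j0 + t e`,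
`0 ≤ j0 < t` (`Int.emod`). All the terms `P b i * f b (j - i)` have weight `≥ 0 + M` (`geS_mul`), so the sum has weight `≥ M` at all `j < N`.
For `b ∈ B0` put `g b s = lr (f b (j0 + t s)) (e - s)` for `j0 + t s ≤ J_b` and `0` otherwise, `d b` = the number of these `s` =
`(J_b - j0) / t + 1` (some index `≤ J_b` of `f b` has weight exactly `M`, this index is `≡ j0` by `geS_succ`, so `j0 ≤ J_b`). The residue at
`e - s` of the coefficient of index `j = j0 + t s < N` of the sum is `∑_(b ∈ B0) ∑_(i ≤ s) β_b^i / i! * g b (s - i)`: the terms with `b ∉ B0`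
have weight `≥ M + 1`, those with `P b i`, `¬ t ∣ i` too (`geS_succ`), those with `i = t i'` give `lr (P b i) (-i') * lr (f b (j0 + t (s - i'))) (e
- (s - i'))` (`lr_mul`), which is `β^i'/i'! * g b (s - i')` also if `j0 + t (s - i') > J_b` (weight `≥ M + 1`, `lr = 0`); if `t i' > j0 + t s`
there is no term. If all the indices `j ≤ c (∑ m - 1)` of the sum had weight `≥ M + 1`, then these sums vanish for all `s` with
`j0 + t s ≤ c (∑ m - 1)`, in particular for `s < ∑_(b ∈ B0) d b`: `j0 + t (∑ d - 1) ≤ j0 + ∑ (J_b - j0 + t) - t = ∑ J_b + (|B0| - 1)(t - j0) ≤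
∑ c (m_b - 1) + (|B0| - 1) c = c (∑_(B0) m_b - 1)`. This number is `< N ≤ q`, so also `∑ d ≤ q`. `lv_perf`: all `g b = 0`, against the
index of `f b` of weight exactly `M`.
-/

open Finset

namespace Pool.Agent.NLS

private theorem LvKey_ge {K k : Type} [Field K] [Field k] (D : DV K k) {t j s j0 : ℕ} {M e : ℤ} (ht : 1 ≤ t)
    (hM : M = j0 + t * e) (hj : j = j0 + t * s) {x : K} (hx : D.geS t x j M) : D.ge x (e - s) := by
  rw [hM] at hx
  exact (D.geS_iff_ge (j0 := (j0 : ℤ)) ht (by rw [hj]; push_cast; ring)).1 hx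

private theorem LvKey_ge1 {K k : Type} [Field K] [Field k] (D : DV K k) {t j s j0 : ℕ} {M e : ℤ}
    (hM : M = j0 + t * e) (hj : j = j0 + t * s) {x : K} (hx : D.geS t x j (M + 1)) : D.ge x (e - s + 1) := by
  refine hx _ ?_
  rw [hM, hj]
  push_cast
  have : (t : ℤ) * (e - s + 1 - 1) + (j0 + t * s) = j0 + t * e := by ring
  rw [this]
  omega

private theorem LvKey_lr0 {K k : Type} [Field K] [Field k] (D : DV K k) {t j s j0 : ℕ} {M e : ℤ}
    (hM : M = j0 + t * e) (hj : j = j0 + t * s) {x : K} (hx : D.geS t x j (M + 1)) : D.lr x (e - s) = 0 := by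
  have h1 := LvKey_ge1 D hM hj hx
  exact (D.lr_zero_iff (D.ge_mono (by omega) h1)).2 h1

private theorem LvKey_geS1 {K k : Type} [Field K] [Field k] (D : DV K k) {t j s j0 : ℕ} {M e : ℤ} (ht : 1 ≤ t)
    (hM : M = j0 + t * e) (hj : j = j0 + t * s) {x : K} (hx : D.ge x (e - s)) (h0 : D.lr x (e - s) = 0) :
    D.geS t x j (M + 1) := by
  have h1 : D.ge x (e + 1 - s) := by
    have := (D.lr_zero_iff hx).1 h0
    rwa [show (e + 1 - s : ℤ) = e - s + 1 by ring]
  have h2 := (D.geS_iff_ge (j := j) (j0 := (j0 : ℤ)) ht (by rw [hj]; push_cast; ring)).2 h1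
  refine D.geS_mono ?_ h2
  rw [hM]
  have h3 : (1 : ℤ) ≤ t := by exact_mod_cast ht
  have : (j0 : ℤ) + t * (e + 1) = j0 + t * e + t := by ring
  rw [this]
  omega

/-- only the multiples of `t` count -/
private theorem LvKey_sum {k : Type} [Field k] {t j s j0 : ℕ} (ht : 1 ≤ t) (hj0 : j0 < t) (hj : j = j0 + t * s)
    (F : ℕ → k) (hF : ∀ i ≤ j, ¬ t ∣ i → F i = 0) :
    ∑ i ∈ range (j + 1), F i = ∑ i ∈ range (s + 1), F (t * i) := by
  have hinj : Set.InjOn (fun i => t * i) (range (s + 1) : Finset ℕ) := by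
    intro a _ b _ hab
    exact Nat.eq_of_mul_eq_mul_left (by omega) hab
  have h1 : ∑ i ∈ range (s + 1), F (t * i) = ∑ i ∈ (range (s + 1)).image (fun i => t * i), F i := by
    rw [Finset.sum_image hinj]
  rw [h1]
  symm
  refine Finset.sum_subset ?_ ?_
  · intro i hi
    rw [Finset.mem_image] at hi
    obtain ⟨a, ha, rfl⟩ := hi
    rw [Finset.mem_range] at ha ⊢
    have : t * a ≤ t * s := Nat.mul_le_mul_left t (by omega)
    omega
  · intro i hi hni
    rw [Finset.mem_range] at hi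
    refine hF i (by omega) ?_
    rintro ⟨a, rfl⟩
    apply hni
    rw [Finset.mem_image]
    refine ⟨a, ?_, rfl⟩
    rw [Finset.mem_range]
    by_contra hlt
    have h2 : s + 1 ≤ a := by omega
    have h3 : t * (s + 1) ≤ t * a := Nat.mul_le_mul_left t h2
    have h4 : t * (s + 1) = t * s + t := by ring
    omega

/-- the count of the indices -/
private theorem LvKey_count {ι : Type} {t c j0 : ℕ} (htc : t ≤ c) (B0 B : Finset ι) (hsub : B0 ⊆ B)
    (hB0 : B0.Nonempty) (m d : ι → ℕ) (hm : ∀ b ∈ B, 1 ≤ m b)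
    (hd : ∀ b ∈ B0, (t : ℤ) * d b ≤ (c * (m b - 1) : ℕ) - j0 + t) :
    (j0 : ℤ) + t * (∑ b ∈ B0, (d b : ℤ)) - t ≤ ((c * ((∑ b ∈ B, m b) - 1) : ℕ) : ℤ) := by
  have h1 : (t : ℤ) * (∑ b ∈ B0, (d b : ℤ)) ≤ ∑ b ∈ B0, ((c : ℤ) * m b + (t - j0 - c)) := by
    rw [Finset.mul_sum]
    refine Finset.sum_le_sum fun b hb => ?_
    have h2 := hd b hb
    have h3 := hm b (hsub hb)
    have h4 : ((c * (m b - 1) : ℕ) : ℤ) = c * m b - c := by
      rw [Nat.cast_mul, Nat.cast_sub h3]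
      push_cast
      ring
    rw [h4] at h2
    linarith
  rw [Finset.sum_add_distrib, ← Finset.mul_sum, Finset.sum_const, nsmul_eq_mul] at h1
  have hcard : (1 : ℤ) ≤ (B0.card : ℤ) := by exact_mod_cast hB0.card_pos
  have hneg : (t : ℤ) - j0 - c ≤ 0 := by
    have : (t : ℤ) ≤ c := by exact_mod_cast htc
    omega
  have h5 : (B0.card : ℤ) * ((t : ℤ) - j0 - c) ≤ 1 * ((t : ℤ) - j0 - c) :=
    mul_le_mul_of_nonpos_right hcard hneg
  have h6 : (∑ b ∈ B0, (m b : ℤ)) ≤ ∑ b ∈ B, (m b : ℤ) :=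
    Finset.sum_le_sum_of_subset_of_nonneg hsub fun b _ _ => by positivity
  have h7 : 1 ≤ ∑ b ∈ B, m b := by
    obtain ⟨b, hb⟩ := hB0
    exact (hm b (hsub hb)).trans (Finset.single_le_sum (f := m) (fun _ _ => Nat.zero_le _) (hsub hb))
  have h8 : ((c * ((∑ b ∈ B, m b) - 1) : ℕ) : ℤ) = c * (∑ b ∈ B, (m b : ℤ)) - c := by
    rw [Nat.cast_mul, Nat.cast_sub h7]
    push_cast
    ring
  rw [h8]
  have h9 : (c : ℤ) * (∑ b ∈ B0, (m b : ℤ)) ≤ c * (∑ b ∈ B, (m b : ℤ)) :=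
    mul_le_mul_of_nonneg_left h6 (by positivity)
  linarith

theorem lv_key {K k : Type} [Field K] [Field k] (D : DV K k) {q N t c : ℕ} (ht : 1 ≤ t) (htc : t ≤ c)
    (hk : ∀ i : ℕ, 1 ≤ i → i < q → (i : k) ≠ 0) (hNq : N ≤ q) {ι : Type} (B : Finset ι) (hB : B.Nonempty)
    (β : ι → k) (hβ : ∀ b ∈ B, ∀ b' ∈ B, β b = β b' → b = b') (P f : ι → ℕ → K) (m : ι → ℕ) (hm : ∀ b ∈ B, 1 ≤ m b)
    (hN : c * ((∑ b ∈ B, m b) - 1) < N) (hP : ∀ b ∈ B, ∀ j < N, D.geS t (P b j) j 0)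
    (hPr : ∀ b ∈ B, ∀ s, t * s < N → D.lr (P b (t * s)) (-(s : ℤ)) = β b ^ s / (s.factorial : k))
    (hf : ∀ b ∈ B, D.topAt t N (f b) (c * (m b - 1))) :
    D.lowAt t N (fun j => ∑ b ∈ B, ∑ i ∈ range (j + 1), P b i * f b (j - i)) (c * ((∑ b ∈ B, m b) - 1)) := by
  classical
  have hf' : ∀ b ∈ B, ∃ M : ℤ, (∀ j < N, D.geS t (f b j) j M) ∧
      (∃ j ≤ c * (m b - 1), j < N ∧ ¬ D.geS t (f b j) j (M + 1)) ∧
      ∀ j < N, c * (m b - 1) < j → D.geS t (f b j) j (M + 1) := fun b hb => hf b hb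
  choose! Mb hM1 hM2 hM3 using hf'
  obtain ⟨b0, hb0, hmin⟩ := B.exists_min_image Mb hB
  obtain ⟨M, hMdef⟩ : ∃ M : ℤ, M = Mb b0 := ⟨_, rfl⟩
  have ht0 : (0 : ℤ) < t := by exact_mod_cast ht
  obtain ⟨e, he⟩ : ∃ e : ℤ, e = M / t := ⟨_, rfl⟩
  obtain ⟨j0, hj0⟩ : ∃ j0 : ℕ, (j0 : ℤ) = M % t := ⟨(M % t).toNat, Int.toNat_of_nonneg (Int.emod_nonneg _ (by omega))⟩
  have hj0t : j0 < t := by
    have := Int.emod_lt_of_pos M ht0
    omega
  have hMe : M = j0 + t * e := by
    rw [hj0, he]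
    exact (Int.emod_add_mul_ediv M t).symm
  have hMle : ∀ b ∈ B, M ≤ Mb b := fun b hb => by rw [hMdef]; exact hmin b hb
  -- weights of all the terms
  have hterm : ∀ b ∈ B, ∀ j < N, ∀ i ≤ j, D.geS t (P b i * f b (j - i)) j (Mb b) := by
    intro b hb j hj i hi
    have h1 := D.geS_mul ht (hP b hb i (by omega)) (hM1 b hb (j - i) (by omega))
    rwa [Nat.add_sub_cancel' hi, zero_add] at h1
  refine ⟨M, fun j hj => ?_, ?_⟩
  · refine D.geS_sum B _ fun b hb => D.geS_sum _ _ fun i hi => ?_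
    have hi' : i ≤ j := Nat.lt_succ_iff.mp (Finset.mem_range.mp hi)
    exact D.geS_mono (hMle b hb) (hterm b hb j hj i hi')
  by_contra hcon
  push Not at hcon
  have hall : ∀ j ≤ c * ((∑ b ∈ B, m b) - 1),
      D.geS t (∑ b ∈ B, ∑ i ∈ range (j + 1), P b i * f b (j - i)) j (M + 1) := fun j hj =>
    hcon j hj (lt_of_le_of_lt hj hN)
  set B0 : Finset ι := B.filter fun b => Mb b = M with hB0
  have hsub : B0 ⊆ B := Finset.filter_subset _ _
  have hb00 : b0 ∈ B0 := Finset.mem_filter.2 ⟨hb0, hMdef.symm⟩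
  have hMB0 : ∀ b ∈ B0, Mb b = M := fun b hb => (Finset.mem_filter.1 hb).2
  -- an index of weight exactly `M`
  have hidx : ∀ b ∈ B0, ∃ s : ℕ, j0 + t * s ≤ c * (m b - 1) ∧ j0 + t * s < N ∧
      ¬ D.geS t (f b (j0 + t * s)) (j0 + t * s) (M + 1) := by
    intro b hb
    obtain ⟨j, hjJ, hjN, hj⟩ := hM2 b (hsub hb)
    rw [hMB0 b hb] at hj
    have hge := hM1 b (hsub hb) j hjN
    rw [hMB0 b hb] at hge
    have hdvd : (t : ℤ) ∣ M - j := by
      by_contra hnd
      exact hj (D.geS_succ ht hge hnd)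
    have h1 : j % t = j0 := by
      have h2 : ((j % t : ℕ) : ℤ) = j0 := by
        have h4 : M % (t : ℤ) = (j : ℤ) % (t : ℤ) :=
          Int.emod_eq_emod_iff_emod_sub_eq_zero.2 (Int.emod_eq_zero_of_dvd hdvd)
        rw [hj0, h4]
        exact Int.natCast_emod j t
      exact_mod_cast h2
    have h3 : j = j0 + t * (j / t) := by
      rw [← h1]
      exact (Nat.mod_add_div j t).symm
    refine ⟨j / t, ?_, ?_, ?_⟩
    · omega
    · omega
    · rw [← h3]
      exact hj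
  set g : ι → ℕ → k := fun b s =>
    if j0 + t * s ≤ c * (m b - 1) then D.lr (f b (j0 + t * s)) (e - s) else 0 with hg
  set d : ι → ℕ := fun b => (c * (m b - 1) - j0) / t + 1 with hd
  have hgd : ∀ b ∈ B0, ∀ s, d b ≤ s → g b s = 0 := by
    intro b _ s hs
    simp only [hg]
    rw [if_neg]
    intro hle
    simp only [hd] at hs
    have h1 : c * (m b - 1) - j0 < t * ((c * (m b - 1) - j0) / t + 1) := Nat.lt_mul_div_succ _ (by omega)
    have h2 : t * ((c * (m b - 1) - j0) / t + 1) ≤ t * s := Nat.mul_le_mul_left t hs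
    omega
  have hcount := LvKey_count htc B0 B hsub ⟨b0, hb00⟩ m d hm (j0 := j0) (by
    intro b hb
    obtain ⟨s, hs, _, _⟩ := hidx b hb
    simp only [hd]
    have h1 : t * ((c * (m b - 1) - j0) / t) ≤ c * (m b - 1) - j0 := Nat.mul_div_le _ _
    have h2 : ((t * ((c * (m b - 1) - j0) / t) : ℕ) : ℤ) ≤ ((c * (m b - 1) - j0 : ℕ) : ℤ) := by exact_mod_cast h1
    rw [Nat.cast_sub (by omega)] at h2
    rw [Nat.cast_add, Nat.cast_one, mul_add, mul_one]
    rw [Nat.cast_mul] at h2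
    linarith)
  have hidx2 : ∀ s < ∑ b ∈ B0, d b, j0 + t * s ≤ c * ((∑ b ∈ B, m b) - 1) := by
    intro s hs
    have h1 : (t : ℤ) * ((s : ℤ) + 1) ≤ t * (∑ b ∈ B0, (d b : ℤ)) := by
      refine mul_le_mul_of_nonneg_left ?_ ht0.le
      have : ((s + 1 : ℕ) : ℤ) ≤ ((∑ b ∈ B0, d b : ℕ) : ℤ) := by exact_mod_cast hs
      push_cast at this
      exact this
    have h2 : ((j0 + t * s : ℕ) : ℤ) ≤ ((c * ((∑ b ∈ B, m b) - 1) : ℕ) : ℤ) := by
      push_cast at hcount ⊢
      linarith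
    exact_mod_cast h2
  have hDq : ∑ b ∈ B0, d b ≤ q := by
    by_contra hlt
    have hpos : 0 < ∑ b ∈ B0, d b := by omega
    have h1 := hidx2 (∑ b ∈ B0, d b - 1) (by omega)
    have h2 : 1 * (∑ b ∈ B0, d b - 1) ≤ t * (∑ b ∈ B0, d b - 1) := Nat.mul_le_mul_right _ ht
    omega
  have hzero : ∀ s < ∑ b ∈ B0, d b,
      ∑ b ∈ B0, ∑ i ∈ range (s + 1), β b ^ i / (i.factorial : k) * g b (s - i) = 0 := by
    intro s hs
    have hjJ := hidx2 s hs
    obtain ⟨j, hj⟩ : ∃ j : ℕ, j = j0 + t * s := ⟨_, rfl⟩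
    have hjN : j < N := by omega
    have h0 := LvKey_lr0 D hMe hj (hall j (by omega))
    have hgeT : ∀ b ∈ B, ∀ i ∈ range (j + 1), D.ge (P b i * f b (j - i)) (e - s) := by
      intro b hb i hi
      have hi' : i ≤ j := Nat.lt_succ_iff.mp (Finset.mem_range.mp hi)
      exact LvKey_ge D ht hMe hj (D.geS_mono (hMle b hb) (hterm b hb j hjN i hi'))
    rw [D.lr_sum B _ (fun b hb => D.ge_sum _ _ (hgeT b hb))] at h0
    rw [Finset.sum_congr rfl (fun b hb => D.lr_sum _ _ (hgeT b hb))] at h0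
    rw [← h0]
    have h1 : ∑ b ∈ B, ∑ i ∈ range (j + 1), D.lr (P b i * f b (j - i)) (e - s) =
        ∑ b ∈ B0, ∑ i ∈ range (j + 1), D.lr (P b i * f b (j - i)) (e - s) := by
      symm
      refine Finset.sum_subset hsub fun b hb hnb => Finset.sum_eq_zero fun i hi => ?_
      have hi' : i ≤ j := Nat.lt_succ_iff.mp (Finset.mem_range.mp hi)
      have hne : Mb b ≠ M := fun h => hnb (Finset.mem_filter.2 ⟨hb, h⟩)
      have hle := hMle b hb
      exact LvKey_lr0 D hMe hj (D.geS_mono (by omega) (hterm b hb j hjN i hi'))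
    rw [h1]
    refine Finset.sum_congr rfl fun b hb => ?_
    have hbB := hsub hb
    rw [LvKey_sum ht hj0t hj (fun i => D.lr (P b i * f b (j - i)) (e - s)) (by
      intro i hi hnd
      have hPi : D.geS t (P b i) i (0 + 1) := by
        refine D.geS_succ ht (hP b hbB i (by omega)) ?_
        intro hdvd
        rw [zero_sub, dvd_neg] at hdvd
        exact hnd (by exact_mod_cast hdvd)
      have h2 := D.geS_mul ht hPi (hM1 b hbB (j - i) (by omega))
      rw [Nat.add_sub_cancel' hi, hMB0 b hb] at h2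
      exact LvKey_lr0 D hMe hj (D.geS_mono (by omega) h2))]
    refine Finset.sum_congr rfl fun i hi => ?_
    have his : i ≤ s := Nat.lt_succ_iff.mp (Finset.mem_range.mp hi)
    have hti : t * i ≤ t * s := Nat.mul_le_mul_left t his
    have hji : j - t * i = j0 + t * (s - i) := by
      rw [hj, Nat.mul_sub]
      omega
    have hPge : D.ge (P b (t * i)) (-(i : ℤ)) := by
      have h2 := hP b hbB (t * i) (by omega)
      have h3 := (D.geS_iff_ge (j := t * i) (s := i) (j0 := (0 : ℤ)) (e := 0) ht (by push_cast; ring)).1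
        (by simpa using h2)
      simpa using h3
    have hfw := hM1 b hbB (j0 + t * (s - i)) (by omega)
    rw [hMB0 b hb] at hfw
    have hfge : D.ge (f b (j0 + t * (s - i))) (e - (s - i : ℕ)) := LvKey_ge D ht hMe rfl hfw
    have hexp : (e - s : ℤ) = -(i : ℤ) + (e - (s - i : ℕ)) := by
      rw [Nat.cast_sub his]
      ring
    show β b ^ i / (i.factorial : k) * g b (s - i) = D.lr (P b (t * i) * f b (j - t * i)) (e - s)
    rw [hji, hexp, D.lr_mul hPge hfge, hPr b hbB i (by omega)]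
    congr 1
    simp only [hg]
    split_ifs with hle
    · rfl
    · refine (LvKey_lr0 D hMe rfl ?_).symm
      have h4 := hM3 b hbB (j0 + t * (s - i)) (by omega) (by omega)
      rwa [hMB0 b hb] at h4
  have hall0 := lv_perf hk B0 β (fun b hb b' hb' h => hβ b (hsub hb) b' (hsub hb') h) g d hgd hDq hzero
  obtain ⟨s, hsJ, hsN, hs⟩ := hidx b0 hb00
  have h1 := hall0 b0 hb00 s
  simp only [hg] at h1
  rw [if_pos hsJ] at h1
  apply hs
  have hfw := hM1 b0 hb0 (j0 + t * s) hsN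
  rw [hMB0 b0 hb00] at hfw
  exact LvKey_geS1 D ht hMe rfl (LvKey_ge D ht hMe rfl hfw) h1

end Pool.Agent.NLS
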