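import Mathlib

/-!
# NLS-LvOrd: orders of the elements of a space of power series

If a set of `r` sequences is linearly independent modulo `T^M`, then the elements of its span have at least `r` different orders `< M`.

If the set `S` of orders had `< r` elements, the linear map `K^r → K^S`, `μ ↦ (coefficients at S)`, has a kernel vector `μ ≠ 0`, and the
element `∑ μ v f v`, which is nonzero modulo `T^M`, would have an order in `S`, where its coefficient is `0`: contradiction.
-/

open Finset

namespace Pool.Agent.NLS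

/-- `a` is the order of an element of the span of the sequences `F v`, `v ∈ X` -/
def IsOrd {K : Type} [Field K] {V : Type} (X : Finset V) (F : V → ℕ → K) (a : ℕ) : Prop :=
  ∃ μ : V → K, (∀ j < a, ∑ v ∈ X, μ v * F v j = 0) ∧ ∑ v ∈ X, μ v * F v a ≠ 0

theorem lv_ord {K : Type} [Field K] {V : Type} (X Y : Finset V) (hYX : Y ⊆ X) (F : V → ℕ → K) (M : ℕ)
    (hind : ∀ μ : V → K, (∀ j < M, ∑ v ∈ Y, μ v * F v j = 0) → ∀ v ∈ Y, μ v = 0) :
    ∃ S : Finset ℕ, (∀ a ∈ S, a < M ∧ IsOrd X F a) ∧ Y.card ≤ S.card := by
  classical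
  refine ⟨(Finset.range M).filter (fun a => IsOrd X F a), ?_, ?_⟩
  · intro a ha
    rw [Finset.mem_filter, Finset.mem_range] at ha
    exact ha
  by_contra hlt
  rw [not_le] at hlt
  set S := (Finset.range M).filter (fun a => IsOrd X F a) with hS
  let L : (Y → K) →ₗ[K] (S → K) :=
    { toFun := fun μ a => ∑ v : Y, μ v * F v.1 a.1
      map_add' := by
        intro μ ν
        funext a
        simp only [Pi.add_apply, add_mul, Finset.sum_add_distrib]
      map_smul' := by
        intro c μ
        funext a
        simp only [Pi.smul_apply, smul_eq_mul, RingHom.id_apply, Finset.mul_sum, mul_assoc] }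
  have hker : LinearMap.ker L ≠ ⊥ := by
    apply LinearMap.ker_ne_bot_of_finrank_lt
    simpa using hlt
  obtain ⟨μ, hμ, hμ0⟩ := (Submodule.ne_bot_iff _).1 hker
  rw [LinearMap.mem_ker] at hμ
  let μ' : V → K := fun v => if h : v ∈ Y then μ ⟨v, h⟩ else 0
  have hsumY : ∀ j, ∑ v ∈ Y, μ' v * F v j = ∑ v : Y, μ v * F v.1 j := by
    intro j
    rw [← Finset.sum_coe_sort Y (fun v => μ' v * F v j)]
    apply Finset.sum_congr rfl
    intro v _
    have : μ' v.1 = μ v := by
      simp [μ']
    rw [this]
  have hsumX : ∀ j, ∑ v ∈ X, μ' v * F v j = ∑ v ∈ Y, μ' v * F v j := by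
    intro j
    symm
    apply Finset.sum_subset hYX
    intro v _ hv
    simp [μ', hv]
  have hex : ∃ j, j < M ∧ ∑ v ∈ Y, μ' v * F v j ≠ 0 := by
    by_contra hno
    push Not at hno
    have := hind μ' hno
    apply hμ0
    funext v
    have h1 := this v.1 v.2
    simpa [μ'] using h1
  have ha := Nat.find_spec hex
  have hmin := fun j (hj : j < Nat.find hex) => Nat.find_min hex hj
  set a := Nat.find hex with hadef
  have hord : IsOrd X F a := by
    refine ⟨μ', ?_, ?_⟩
    · intro j hj
      have h2 := hmin j hj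
      rw [hsumX]
      by_contra h3
      exact h2 ⟨lt_trans hj ha.1, h3⟩
    · rw [hsumX]
      exact ha.2
  have haS : a ∈ S := by
    rw [hS, Finset.mem_filter, Finset.mem_range]
    exact ⟨ha.1, hord⟩
  apply ha.2
  rw [hsumY]
  exact congrFun hμ ⟨a, haS⟩

end Pool.Agent.NLS
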