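import Pool.Agent.NLS.Pj

/-!
# NLS-NrmT: the norm of `θ_v = ps v 1 = ∑ v_e (ζ^e - ζ^(-e))`

Parseval for the `n`-th roots of unity bounds the sum of the squares of the conjugates by `2 n ∑ v_e ^ 2`, the inequality of the
arithmetic and geometric means bounds the norm.
-/

open NumberField Finset
open Pool.Agent.AAP Pool.Agent.Helper7.HU

namespace Pool.Agent.NLS

private theorem nrm_amgm {ι : Type} (s : Finset ι) (a : ι → ℝ) (ha : ∀ i ∈ s, 0 ≤ a i) :
    ∏ i ∈ s, a i ≤ ((∑ i ∈ s, a i) / s.card) ^ s.card := by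
  by_cases hs : s.card = 0
  · rw [Finset.card_eq_zero] at hs
    subst hs
    simp
  · have hs' : (s.card : ℝ) ≠ 0 := by exact_mod_cast hs
    have h := Real.geom_mean_le_arith_mean_weighted s (fun _ => ((s.card : ℝ))⁻¹) a
      (fun i _ => by positivity)
      (by rw [Finset.sum_const, nsmul_eq_mul]; exact mul_inv_cancel₀ hs') ha
    have h1 : ∏ i ∈ s, a i = (∏ i ∈ s, a i ^ ((s.card : ℝ))⁻¹) ^ s.card := by
      rw [← Finset.prod_pow]
      exact Finset.prod_congr rfl fun i hi => (Real.rpow_inv_natCast_pow (ha i hi) hs).symm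
    rw [h1]
    refine pow_le_pow_left₀ (Finset.prod_nonneg fun i hi => Real.rpow_nonneg (ha i hi) _) ?_ _
    refine h.trans (le_of_eq ?_)
    rw [← Finset.mul_sum, div_eq_inv_mul]

private theorem nrm_parseval {n : ℕ} {ι : Type} [Fintype ι] [DecidableEq ι] {ω : ℂ}
    (hω : IsPrimitiveRoot ω n) (hn : n ≠ 0) (c : ι → ℕ) (hc : ∀ i, c i < n)
    (hci : Function.Injective c) (x : ι → ℝ) :
    ∑ k ∈ range n, ‖∑ i, (x i : ℂ) * (ω ^ k) ^ c i‖ ^ 2 = n * ∑ i, x i ^ 2 := by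
  have hω0 : ω ≠ 0 := hω.ne_zero hn
  have hn1 : ‖ω‖ = 1 := Complex.norm_eq_one_of_pow_eq_one hω.pow_eq_one hn
  have hconj : (starRingEnd ℂ) ω = ω⁻¹ := (Complex.inv_eq_conj hn1).symm
  have hterm : ∀ k ∈ range n, ((‖∑ i, (x i : ℂ) * (ω ^ k) ^ c i‖ ^ 2 : ℝ) : ℂ) =
      ∑ i, ∑ j, (x i : ℂ) * (x j : ℂ) * (ω ^ c i * (ω⁻¹) ^ c j) ^ k := by
    intro k _
    rw [Complex.ofReal_pow, ← Complex.mul_conj', map_sum, Finset.sum_mul_sum]
    refine Finset.sum_congr rfl fun i _ => Finset.sum_congr rfl fun j _ => ?_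
    rw [map_mul, Complex.conj_ofReal, map_pow, map_pow, hconj, mul_pow, ← pow_mul, ← pow_mul,
      ← pow_mul, ← pow_mul, mul_comm k (c i), mul_comm k (c j)]
    ring
  have hsum : ∀ i j, ∑ k ∈ range n, (ω ^ c i * (ω⁻¹) ^ c j) ^ k = if i = j then (n : ℂ) else 0 := by
    intro i j
    split_ifs with hij
    · subst hij
      have h1 : ω ^ c i * (ω⁻¹) ^ c i = 1 := by
        rw [← mul_pow, mul_inv_cancel₀ hω0, one_pow]
      rw [h1]
      simp
    · have h1 : ω ^ c i * (ω⁻¹) ^ c j ≠ 1 := by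
        intro h
        rw [inv_pow, ← div_eq_mul_inv, div_eq_one_iff_eq (pow_ne_zero _ hω0)] at h
        exact hij (hci (hω.pow_inj (hc i) (hc j) h))
      rw [geom_sum_eq h1, mul_pow, ← pow_mul, ← pow_mul, mul_comm (c i), mul_comm (c j), pow_mul,
        pow_mul, inv_pow, hω.pow_eq_one, inv_one, one_pow, one_pow, mul_one, sub_self, zero_div]
  have key : ((∑ k ∈ range n, ‖∑ i, (x i : ℂ) * (ω ^ k) ^ c i‖ ^ 2 : ℝ) : ℂ) =
      ((n * ∑ i, x i ^ 2 : ℝ) : ℂ) := by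
    rw [Complex.ofReal_sum, Finset.sum_congr rfl hterm, Finset.sum_comm]
    have h1 : ∀ i : ι, ∑ k ∈ range n, ∑ j, (x i : ℂ) * (x j : ℂ) * (ω ^ c i * (ω⁻¹) ^ c j) ^ k =
        (n : ℂ) * (x i : ℂ) ^ 2 := by
      intro i
      rw [Finset.sum_comm]
      have h2 : ∀ j : ι, ∑ k ∈ range n, (x i : ℂ) * (x j : ℂ) * (ω ^ c i * (ω⁻¹) ^ c j) ^ k =
          if i = j then (x i : ℂ) * (x j : ℂ) * (n : ℂ) else 0 := by
        intro j
        rw [← Finset.mul_sum, hsum, mul_ite, mul_zero]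
      rw [Finset.sum_congr rfl fun j _ => h2 j, Finset.sum_ite_eq, if_pos (Finset.mem_univ _)]
      ring
    rw [Finset.sum_congr rfl fun i _ => h1 i, ← Finset.mul_sum]
    push_cast
    ring
  exact_mod_cast key

variable {n : ℕ} [Fact n.Prime] {K : Type} [Field K] [NumberField K] [IsCyclotomicExtension {n} ℚ K]

/-- the exponents -/
private def nrm_c (n : ℕ) [Fact n.Prime] (w : H n × Bool) : ℕ :=
  if w.2 then ((w.1 : (ZMod n)ˣ) : ZMod n).val else ((-(w.1 : (ZMod n)ˣ) : (ZMod n)ˣ) : ZMod n).val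

/-- the coefficients -/
private def nrm_x (v : H n → ℤ) (w : H n × Bool) : ℝ := if w.2 then (v w.1 : ℝ) else -(v w.1 : ℝ)

private theorem nrm_c_lt (w : H n × Bool) : nrm_c n w < n := by
  unfold nrm_c
  split_ifs
  · exact ZMod.val_lt _
  · exact ZMod.val_lt _

private theorem nrm_c_inj (hn2 : n ≠ 2) : Function.Injective (nrm_c n) := by
  have key : ∀ a b : (ZMod n)ˣ, ((a : ZMod n)).val = ((b : ZMod n)).val → a = b := fun a b h =>
    Units.ext (ZMod.val_injective n h)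
  have hne : ∀ e f : H n, (e : (ZMod n)ˣ) ≠ -(f : (ZMod n)ˣ) := by
    intro e f h
    have h1 := e.2
    rw [h, neg_mem_H n hn2] at h1
    exact h1 f.2
  rintro ⟨e, b⟩ ⟨f, b'⟩ h
  unfold nrm_c at h
  cases b <;> cases b'
  · simp only [Bool.false_eq_true, if_false] at h
    have h1 := neg_injective (key _ _ h)
    rw [Subtype.ext h1]
  · simp only [Bool.false_eq_true, if_false, if_true] at h
    exact absurd (key _ _ h).symm (hne f e)
  · simp only [Bool.false_eq_true, if_false, if_true] at h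
    exact absurd (key _ _ h) (hne e f)
  · simp only [if_true] at h
    rw [Subtype.ext (key _ _ h)]

omit [NumberField K] in
private theorem nrm_alg (x : 𝓞 K) : (x : K) = algebraMap (𝓞 K) K x := rfl

private theorem nrm_zp (τ : K →ₐ[ℚ] ℂ) (a : (ZMod n)ˣ) :
    τ ((zp n K a : 𝓞 K) : K) = τ (zt n K) ^ (a : ZMod n).val := by
  unfold zp
  rw [nrm_alg, map_pow, ← nrm_alg, coe_zO, map_pow]

private theorem nrm_val (τ : K →ₐ[ℚ] ℂ) (v : H n → ℤ) :
    τ ((ps n K v 1 : 𝓞 K) : K) = ∑ w : H n × Bool, (nrm_x v w : ℂ) * τ (zt n K) ^ nrm_c n w := by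
  unfold ps
  rw [nrm_alg, map_sum, map_sum, Fintype.sum_prod_type]
  refine Finset.sum_congr rfl fun e _ => ?_
  rw [Fintype.sum_bool, map_mul, map_mul, map_sub, map_sub, map_pow, map_pow, pow_one, pow_one,
    map_intCast, map_intCast, ← nrm_alg, ← nrm_alg, nrm_zp, nrm_zp]
  unfold nrm_x nrm_c
  simp only [if_true, Bool.false_eq_true, if_false]
  push_cast
  ring

private theorem nrm_ext {τ τ' : K →ₐ[ℚ] ℂ} (h : τ (zt n K) = τ' (zt n K)) : τ = τ' := by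
  apply ((zt_spec n K).powerBasis ℚ).algHom_ext
  rw [IsPrimitiveRoot.powerBasis_gen ℚ (zt_spec n K)]
  exact h

theorem norm_ps (hn2 : n ≠ 2) {v : H n → ℤ} {r : ℕ} (hv : ∀ e, |v e| ≤ r) :
    (Algebra.norm ℤ (ps n K v 1)).natAbs ≤ (n * r ^ 2) ^ (H n).card := by
  classical
  have hp : n.Prime := Fact.out
  have hn0 : n ≠ 0 := hp.ne_zero
  set ω : ℂ := Complex.exp (2 * Real.pi * Complex.I / n) with hωdef
  have hω : IsPrimitiveRoot ω n := Complex.isPrimitiveRoot_exp n hn0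
  have hex : ∀ τ : K →ₐ[ℚ] ℂ, ∃ k, k < n ∧ ω ^ k = τ (zt n K) := by
    intro τ
    have : NeZero n := ⟨hn0⟩
    obtain ⟨k, hk, h⟩ := hω.eq_pow_of_pow_eq_one (ξ := τ (zt n K))
      (by rw [← map_pow, (zt_spec n K).pow_eq_one, map_one])
    exact ⟨k, hk, h⟩
  choose kf hkf1 hkf2 using hex
  have hkinj : Function.Injective kf := by
    intro τ τ' h
    apply nrm_ext (n := n)
    rw [← hkf2, ← hkf2, h]
  let G : ℕ → ℝ := fun k => ‖∑ w : H n × Bool, (nrm_x v w : ℂ) * (ω ^ k) ^ nrm_c n w‖ ^ 2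
  have hG : ∀ τ : K →ₐ[ℚ] ℂ, ‖τ ((ps n K v 1 : 𝓞 K) : K)‖ ^ 2 = G (kf τ) := by
    intro τ
    change _ = ‖_‖ ^ 2
    rw [nrm_val, hkf2]
  have hsum : ∑ τ : K →ₐ[ℚ] ℂ, ‖τ ((ps n K v 1 : 𝓞 K) : K)‖ ^ 2 ≤
      n * ∑ w : H n × Bool, nrm_x v w ^ 2 := by
    rw [← nrm_parseval hω hn0 (nrm_c n) nrm_c_lt (nrm_c_inj hn2) (nrm_x v)]
    rw [Finset.sum_congr rfl fun τ _ => hG τ, ← Finset.sum_image (f := G) (g := kf)
      (fun a _ b _ h => hkinj h)]
    refine Finset.sum_le_sum_of_subset_of_nonneg ?_ fun k _ _ => sq_nonneg _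
    intro k hk
    obtain ⟨τ, _, rfl⟩ := Finset.mem_image.1 hk
    exact Finset.mem_range.2 (hkf1 τ)
  have hx : ∑ w : H n × Bool, nrm_x v w ^ 2 ≤ (2 * (H n).card : ℕ) * (r : ℝ) ^ 2 := by
    have h1 : ∀ w ∈ (Finset.univ : Finset (H n × Bool)), nrm_x v w ^ 2 ≤ (r : ℝ) ^ 2 := by
      intro w _
      have h2 : |(v w.1 : ℝ)| ≤ (r : ℝ) := by
        have := hv w.1
        exact_mod_cast this
      have h3 : (v w.1 : ℝ) ^ 2 ≤ (r : ℝ) ^ 2 := by
        rw [← sq_abs]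
        exact pow_le_pow_left₀ (abs_nonneg _) h2 2
      unfold nrm_x
      split_ifs
      · exact h3
      · rw [neg_sq]
        exact h3
    refine (Finset.sum_le_card_nsmul _ _ _ h1).trans (le_of_eq ?_)
    rw [nsmul_eq_mul, Finset.card_univ, Fintype.card_prod, Fintype.card_bool, Fintype.card_coe,
      mul_comm (H n).card 2]
  have hcard : Fintype.card (K →ₐ[ℚ] ℂ) = 2 * (H n).card := by
    rw [AlgHom.card, IsCyclotomicExtension.finrank (n := n) K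
      (Polynomial.cyclotomic.irreducible_rat hp.pos), Nat.totient_prime hp, card_H n hn2]
    have := hp.eq_two_or_odd
    omega
  have hH : 0 < 2 * (H n).card := by
    rw [← hcard, AlgHom.card]
    exact Module.finrank_pos
  have hprod : ∏ τ : K →ₐ[ℚ] ℂ, ‖τ ((ps n K v 1 : 𝓞 K) : K)‖ ^ 2 ≤
      ((n : ℝ) * (r : ℝ) ^ 2) ^ (2 * (H n).card) := by
    refine (nrm_amgm Finset.univ _ fun τ _ => sq_nonneg _).trans ?_
    rw [Finset.card_univ, hcard]
    refine pow_le_pow_left₀ (div_nonneg (Finset.sum_nonneg fun τ _ => sq_nonneg _)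
      (Nat.cast_nonneg _)) ?_ _
    rw [div_le_iff₀ (by exact_mod_cast hH)]
    refine hsum.trans ?_
    have h1 := mul_le_mul_of_nonneg_left hx (Nat.cast_nonneg (α := ℝ) n)
    refine h1.trans (le_of_eq ?_)
    ring
  have hnorm : ‖((Algebra.norm ℤ (ps n K v 1) : ℤ) : ℂ)‖ ^ 2 =
      ∏ τ : K →ₐ[ℚ] ℂ, ‖τ ((ps n K v 1 : 𝓞 K) : K)‖ ^ 2 := by
    have h1 := Algebra.norm_eq_prod_embeddings ℚ ℂ ((ps n K v 1 : 𝓞 K) : K)
    rw [← Algebra.coe_norm_int] at h1
    have h2 : ((Algebra.norm ℤ (ps n K v 1) : ℤ) : ℂ) =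
        ∏ τ : K →ₐ[ℚ] ℂ, τ ((ps n K v 1 : 𝓞 K) : K) := by
      rw [← h1, map_intCast]
    rw [h2, norm_prod, Finset.prod_pow]
  rw [← hnorm, Complex.norm_intCast, pow_mul', sq_le_sq₀ (abs_nonneg _) (by positivity)] at hprod
  have h3 : ((Algebra.norm ℤ (ps n K v 1)).natAbs : ℝ) ≤ ((n : ℝ) * (r : ℝ) ^ 2) ^ (H n).card := by
    rw [Nat.cast_natAbs, Int.cast_abs]
    exact hprod
  exact_mod_cast h3

end Pool.Agent.NLS
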