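import Mathlib

/-!
# NLS-Ord: few residues of small order

For `d ≥ 1` the polynomial `X ^ d - 1` has at most `d` roots in the field `ZMod n`, so at most
`F ^ 2` elements of `ZMod n` have an order in `[1, F]`. Each residue class has at most `B` elements
in `range (B * n)`.
-/

open Finset

namespace Pool.Agent.NLS

private theorem ord_card {n : ℕ} [Fact n.Prime] (F : ℕ) :
    ((Finset.Icc 1 F).biUnion fun d => Polynomial.nthRootsFinset d (1 : ZMod n)).card
      ≤ F ^ 2 := by
  refine Finset.card_biUnion_le.trans ?_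
  have h1 : ∀ d ∈ Finset.Icc 1 F, (Polynomial.nthRootsFinset d (1 : ZMod n)).card ≤ F := by
    intro d hd
    rw [Finset.mem_Icc] at hd
    refine le_trans ?_ hd.2
    classical
    rw [Polynomial.nthRootsFinset_def]
    exact (Multiset.toFinset_card_le _).trans (Polynomial.card_nthRoots d 1)
  refine (Finset.sum_le_sum h1).trans ?_
  rw [Finset.sum_const, Nat.card_Icc, smul_eq_mul, pow_two]
  simp

theorem small_ord {n : ℕ} (hn : n.Prime) (F B : ℕ) :
    ((range (B * n)).filter fun q => ¬ n ∣ q ∧ orderOf (q : ZMod n) ≤ F).card ≤ F ^ 2 * B := by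
  haveI : Fact n.Prime := ⟨hn⟩
  have h1 : ((range (B * n)).filter fun q => ¬ n ∣ q ∧ orderOf (q : ZMod n) ≤ F).card ≤
      (((Finset.Icc 1 F).biUnion fun d => Polynomial.nthRootsFinset d (1 : ZMod n)) ×ˢ
        range B).card := by
    apply Finset.card_le_card_of_injOn (fun q : ℕ => ((q : ZMod n), q / n))
    · intro q hq
      rw [Finset.mem_coe, Finset.mem_filter, Finset.mem_range] at hq
      obtain ⟨hq1, hq2, hq3⟩ := hq
      rw [Finset.mem_coe, Finset.mem_product, Finset.mem_biUnion, Finset.mem_range]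
      have hq0 : (q : ZMod n) ≠ 0 := by
        intro h
        exact hq2 ((ZMod.natCast_eq_zero_iff q n).1 h)
      have hpos : 0 < orderOf (q : ZMod n) := by
        have h2 := orderOf_pos (Units.mk0 (q : ZMod n) hq0)
        rwa [← orderOf_units, Units.val_mk0] at h2
      refine ⟨⟨orderOf (q : ZMod n), Finset.mem_Icc.2 ⟨hpos, hq3⟩, ?_⟩, ?_⟩
      · rw [Polynomial.mem_nthRootsFinset hpos]
        exact pow_orderOf_eq_one _
      · exact Nat.div_lt_of_lt_mul (by rw [mul_comm]; exact hq1)
    · intro q1 _ q2 _ h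
      have h2 : (q1 : ZMod n) = q2 := congrArg Prod.fst h
      have h3 : q1 / n = q2 / n := congrArg Prod.snd h
      rw [ZMod.natCast_eq_natCast_iff'] at h2
      rw [← Nat.div_add_mod q1 n, ← Nat.div_add_mod q2 n, h2, h3]
  refine h1.trans ?_
  rw [Finset.card_product, Finset.card_range]
  exact Nat.mul_le_mul_right _ (ord_card F)

end Pool.Agent.NLS
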