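import Mathlib

/-!
# NLS-Par: choice of the parameters

`m = (n-1)/2`, `C = exp 24`. If `log q ≤ m`: `k = ⌊m / log q⌋`, `r = ⌊exp (ρ + 1)⌋`. If `log q > m`: `k = 1`, `r = ⌊exp ρ * q ^ (1/m)⌋`.
-/

namespace Pool.Agent.NLS

private theorem par_exp_two : (7.38 : ℝ) ≤ Real.exp 2 := by
  have h := Real.exp_one_gt_d9
  have h2 : Real.exp 2 = Real.exp 1 * Real.exp 1 := by
    rw [← Real.exp_add]
    norm_num
  rw [h2]
  nlinarith

private theorem par_exp_four : (54 : ℝ) ≤ Real.exp 4 := by
  have h := par_exp_two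
  have h2 : Real.exp 4 = Real.exp 2 * Real.exp 2 := by
    rw [← Real.exp_add]
    norm_num
  rw [h2]
  nlinarith

private theorem par_exp_big : (168 : ℝ) ≤ Real.exp 24 := by
  have h := par_exp_four
  have h2 : Real.exp 8 = Real.exp 4 * Real.exp 4 := by
    rw [← Real.exp_add]
    norm_num
  have h3 : Real.exp 8 ≤ Real.exp 24 := Real.exp_le_exp.2 (by norm_num)
  nlinarith

private theorem par_exp_one : Real.exp 1 ≤ 3 := by
  have h := Real.exp_one_lt_d9
  linarith

/-- the logarithm is small -/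
private theorem par_log {b L q ρ : ℝ} (hb : 0 < b) (hL : 1 ≤ L) (hρ0 : 0 ≤ ρ) (hρ : ρ ≤ L)
    (hbl : Real.log b = ρ + L) (hq : Real.exp 24 * b * L ≤ q) :
    2 * Real.exp 1 * b * Real.log q ≤ q := by
  have hE := par_exp_big
  have hE0 : 0 < Real.exp 24 := Real.exp_pos _
  set Q0 : ℝ := Real.exp 24 * b * L with hQ0
  have hQ : 0 < Q0 := by positivity
  have hq0 : 0 < q := lt_of_lt_of_le hQ hq
  have h1 : Real.log (q / Q0) ≤ q / Q0 - 1 := Real.log_le_sub_one_of_pos (div_pos hq0 hQ)
  rw [Real.log_div hq0.ne' hQ.ne'] at h1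
  have h2 : Real.log Q0 = 24 + (ρ + L) + Real.log L := by
    rw [hQ0, Real.log_mul (by positivity) (by positivity), Real.log_mul hE0.ne' hb.ne', Real.log_exp,
      hbl]
  have h3 : Real.log L ≤ L - 1 := Real.log_le_sub_one_of_pos (by linarith)
  have h4 : Real.log q ≤ 27 * L + q / Q0 := by linarith
  have h5 : 2 * Real.exp 1 * b ≤ 6 * b := by
    have := par_exp_one
    nlinarith
  have h6 : 0 ≤ Real.log q := by
    have h8 : Real.log Q0 ≤ Real.log q := Real.log_le_log hQ hq
    have h9 : 0 ≤ Real.log L := Real.log_nonneg hL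
    linarith
  have h7 : b * L * 168 ≤ Q0 := by
    rw [hQ0]
    have : 0 < b * L := by positivity
    nlinarith
  have h8 : b * (q / Q0) * 168 ≤ q := by
    rw [mul_comm b, div_mul_eq_mul_div, div_mul_eq_mul_div, div_le_iff₀ hQ]
    have h9 : b * 168 ≤ Q0 := by nlinarith
    nlinarith
  calc 2 * Real.exp 1 * b * Real.log q ≤ 6 * b * Real.log q :=
        mul_le_mul_of_nonneg_right h5 h6
    _ ≤ 6 * b * (27 * L + q / Q0) := mul_le_mul_of_nonneg_left h4 (by positivity)
    _ = (b * L * 168) * (162 / 168) + (b * (q / Q0) * 168) * (6 / 168) := by ring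
    _ ≤ q * (162 / 168) + q * (6 / 168) := by
        have h9 : b * L * 168 ≤ q := h7.trans hq
        linarith
    _ = q := by ring

private theorem par_big {n m L : ℝ} (hn : 49 ≤ n) (hnm : n = 2 * m + 1) (hL : L ≤ n / 7.38 + 1) :
    3 * L ≤ m - 1 := by
  have h8 : n / 7.38 ≤ n * 0.136 := by
    rw [div_le_iff₀ (by norm_num)]
    nlinarith
  linarith

theorem exists_par : ∃ C : ℝ, 1 ≤ C ∧ ∀ (n q : ℕ) (ρ : ℝ), 5 ≤ n → Odd n → 1 ≤ ρ → ρ ≤ Real.log n →
    C * Real.exp ρ * n * Real.log n ≤ q → ∃ k r : ℕ, 1 ≤ k ∧ k ≤ (n - 1) / 2 ∧ 4 ≤ r ∧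
      Real.exp (ρ * ((n - 1) / 2 : ℕ)) * (q : ℝ) ^ k < ((r : ℝ) + 1) ^ ((n - 1) / 2) ∧
      n * ((n - 1) / 2) * r ≤ k * q := by
  refine ⟨Real.exp 24, by linarith [par_exp_big], ?_⟩
  intro n q ρ hn hodd hρ1 hρ2 hq
  obtain ⟨m, hm⟩ := hodd
  have hm2 : (n - 1) / 2 = m := by omega
  rw [hm2]
  have hm2' : 2 ≤ m := by omega
  have hnR : (n : ℝ) = 2 * m + 1 := by
    rw [hm]
    push_cast
    ring
  have hmR : (2 : ℝ) ≤ m := by exact_mod_cast hm2'
  have hn0 : (0 : ℝ) < n := by linarith
  set L : ℝ := Real.log n with hL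
  have hL1 : 1 ≤ L := by
    rw [hL, Real.le_log_iff_exp_le hn0]
    have := par_exp_one
    linarith
  set E : ℝ := Real.exp ρ with hE
  have hE0 : 0 < E := Real.exp_pos _
  have hb : 0 < E * n := by positivity
  have hbl : Real.log (E * n) = ρ + L := by
    rw [Real.log_mul hE0.ne' hn0.ne', hE, Real.log_exp]
  have hq' : Real.exp 24 * (E * n) * L ≤ (q : ℝ) := by
    calc Real.exp 24 * (E * n) * L = Real.exp 24 * E * n * L := by ring
      _ ≤ q := hq
  have hE24 : 0 < Real.exp 24 := Real.exp_pos _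
  have hq0 : (0 : ℝ) < q := lt_of_lt_of_le (by positivity) hq'
  have hlog := par_log hb hL1 (by linarith) hρ2 hbl hq'
  set x : ℝ := Real.log q with hx
  have hqx : (q : ℝ) = Real.exp x := (Real.exp_log hq0).symm
  have hx24 : 24 + (ρ + L) ≤ x := by
    rw [hx, Real.le_log_iff_exp_le hq0, Real.exp_add]
    have h1 : Real.exp (ρ + L) = E * n := by
      rw [← hbl, Real.exp_log hb]
    rw [h1]
    refine le_trans ?_ hq'
    have h2 : 0 < Real.exp 24 * (E * n) := by positivity
    nlinarith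
  have hx0 : 0 < x := by linarith
  have hm0 : (0 : ℝ) < m := by linarith
  rcases le_or_gt x m with hxm | hxm
  · -- `log q ≤ m`
    set y : ℝ := m / x with hy
    have hy1 : 1 ≤ y := by
      rw [hy, le_div_iff₀ hx0]
      linarith
    have hy0 : 0 ≤ y := by linarith
    have hyx : y * x = m := div_mul_cancel₀ _ hx0.ne'
    have hk1 : 1 ≤ ⌊y⌋₊ := by
      rw [Nat.one_le_floor_iff]
      exact hy1
    have hk2 : (⌊y⌋₊ : ℝ) ≤ y := Nat.floor_le hy0
    have hk3 : y < (⌊y⌋₊ : ℝ) + 1 := Nat.lt_floor_add_one y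
    have hk1R : (1 : ℝ) ≤ (⌊y⌋₊ : ℝ) := by exact_mod_cast hk1
    set r : ℕ := ⌊Real.exp (ρ + 1)⌋₊ with hr
    have hr1 : (r : ℝ) ≤ Real.exp (ρ + 1) := Nat.floor_le (Real.exp_pos _).le
    have hr2 : Real.exp (ρ + 1) < (r : ℝ) + 1 := Nat.lt_floor_add_one _
    refine ⟨⌊y⌋₊, r, hk1, ?_, ?_, ?_, ?_⟩
    · have h1 : (⌊y⌋₊ : ℝ) ≤ m := by
        refine hk2.trans ?_
        rw [hy, div_le_iff₀ hx0]
        nlinarith
      exact_mod_cast h1
    · refine Nat.le_floor ?_
      have h1 : Real.exp 2 ≤ Real.exp (ρ + 1) := Real.exp_le_exp.2 (by linarith)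
      have := par_exp_two
      push_cast
      linarith
    · have h1 : (q : ℝ) ^ ⌊y⌋₊ ≤ Real.exp m := by
        rw [hqx, ← Real.exp_nat_mul]
        refine Real.exp_le_exp.2 ?_
        nlinarith
      calc Real.exp (ρ * (m : ℕ)) * (q : ℝ) ^ ⌊y⌋₊ ≤ Real.exp (ρ * (m : ℕ)) * Real.exp m :=
            mul_le_mul_of_nonneg_left h1 (Real.exp_pos _).le
        _ = Real.exp (ρ + 1) ^ m := by
            rw [← Real.exp_add, ← Real.exp_nat_mul]
            congr 1
            ring
        _ < ((r : ℝ) + 1) ^ m := pow_lt_pow_left₀ hr2 (Real.exp_pos _).le (by omega)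
    · have h1 : (n : ℝ) * m * r ≤ ⌊y⌋₊ * q := by
        have h2 : (m : ℝ) ≤ 2 * ⌊y⌋₊ * x := by
          rw [← hyx]
          nlinarith
        have h3 : Real.exp (ρ + 1) = E * Real.exp 1 := Real.exp_add _ _
        have h4 : (0 : ℝ) ≤ (⌊y⌋₊ : ℝ) := Nat.cast_nonneg _
        calc (n : ℝ) * m * r ≤ n * m * Real.exp (ρ + 1) :=
              mul_le_mul_of_nonneg_left hr1 (by positivity)
          _ ≤ n * (2 * ⌊y⌋₊ * x) * Real.exp (ρ + 1) := by
              refine mul_le_mul_of_nonneg_right ?_ (Real.exp_pos _).le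
              exact mul_le_mul_of_nonneg_left h2 hn0.le
          _ = ⌊y⌋₊ * (2 * Real.exp 1 * (E * n) * x) := by
              rw [h3]
              ring
          _ ≤ ⌊y⌋₊ * q := mul_le_mul_of_nonneg_left hlog h4
      exact_mod_cast h1
  · -- `m < log q`
    set z : ℝ := x / m with hz
    have hzm : z * m = x := div_mul_cancel₀ _ hm0.ne'
    have hz1 : 1 < z := by
      rw [hz, lt_div_iff₀ hm0]
      linarith
    set r : ℕ := ⌊Real.exp (ρ + z)⌋₊ with hr
    have hr1 : (r : ℝ) ≤ Real.exp (ρ + z) := Nat.floor_le (Real.exp_pos _).le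
    have hr2 : Real.exp (ρ + z) < (r : ℝ) + 1 := Nat.lt_floor_add_one _
    refine ⟨1, r, le_rfl, by omega, ?_, ?_, ?_⟩
    · refine Nat.le_floor ?_
      have h1 : Real.exp 2 ≤ Real.exp (ρ + z) := Real.exp_le_exp.2 (by linarith)
      have := par_exp_two
      push_cast
      linarith
    · calc Real.exp (ρ * (m : ℕ)) * (q : ℝ) ^ 1 = Real.exp (ρ + z) ^ m := by
            rw [pow_one, hqx, ← Real.exp_add, ← Real.exp_nat_mul]
            congr 1
            rw [← hzm]
            ring
        _ < ((r : ℝ) + 1) ^ m := pow_lt_pow_left₀ hr2 (Real.exp_pos _).le (by omega)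
    · have h3 : 3 * L + z ≤ x := by
        have hzx : z ≤ x / 2 := by
          rw [hz, div_le_div_iff₀ hm0 (by norm_num)]
          nlinarith
        rcases Nat.lt_or_ge n 49 with h49 | h49
        · have h4 : L ≤ 4 := by
            rw [hL, Real.log_le_iff_le_exp hn0]
            have h5 : (n : ℝ) ≤ 48 := by exact_mod_cast (by omega : n ≤ 48)
            have := par_exp_four
            linarith
          linarith
        · have h4 : (49 : ℝ) ≤ n := by exact_mod_cast h49
          have h5 : L ≤ n / 7.38 + 1 := by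
            have h6 : Real.log (n * Real.exp (-2)) ≤ n * Real.exp (-2) - 1 :=
              Real.log_le_sub_one_of_pos (by positivity)
            rw [Real.log_mul hn0.ne' (Real.exp_pos _).ne', Real.log_exp, ← hL] at h6
            have h7 : Real.exp (-2) ≤ 1 / 7.38 := by
              rw [Real.exp_neg, ← one_div]
              exact one_div_le_one_div_of_le (by norm_num) par_exp_two
            have h8 : n * Real.exp (-2) ≤ n / 7.38 := by
              calc n * Real.exp (-2) ≤ n * (1 / 7.38) := mul_le_mul_of_nonneg_left h7 hn0.le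
                _ = n / 7.38 := by ring
            linarith
          have h9 := par_big h4 hnR h5
          have h6 : 1 * ((m : ℝ) - 1) ≤ z * (m - 1) :=
            mul_le_mul_of_nonneg_right hz1.le (by linarith)
          have h7 : x = z * (m - 1) + z := by
            rw [← hzm]
            ring
          rw [h7]
          linarith
      have h1 : (n : ℝ) * m * r ≤ (1 : ℕ) * q := by
        have h4 : (n : ℝ) = Real.exp L := (Real.exp_log hn0).symm
        have h5 : (m : ℝ) ≤ Real.exp L := by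
          rw [← h4, hnR]
          linarith
        calc (n : ℝ) * m * r ≤ Real.exp L * Real.exp L * Real.exp (ρ + z) := by
              rw [← h4] at h5 ⊢
              exact mul_le_mul (mul_le_mul_of_nonneg_left h5 hn0.le) hr1 (Nat.cast_nonneg _)
                (by positivity)
          _ = Real.exp (L + L + (ρ + z)) := by rw [Real.exp_add (L + L), Real.exp_add L L]
          _ ≤ Real.exp x := Real.exp_le_exp.2 (by linarith)
          _ = (1 : ℕ) * q := by rw [hqx, Nat.cast_one, one_mul]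
      exact_mod_cast h1

end Pool.Agent.NLS
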