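import Mathlib

/-!
# NLS-ParD: parameters without hypotheses on the index

Choice of the parameters `k`, `r`, `N` for the theorem without class number hypothesis. With `m = (n-1)/2` and
`μ = min n q` one takes `k` the integral part of `m / log q`, `N` the integral part of `μ ^ (1 - 4 δ)` and `r` the
integral part of `k N q / (2 m n)`.
-/

namespace Pool.Agent.NLS

open Filter

private theorem pard_e1 (ε : ℝ) (hε : 0 < ε) :
    ∀ᶠ n : ℕ in atTop, 16 * Real.exp 1 * Real.log n < (n : ℝ) ^ (ε / 2) := by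
  have h1 := (isLittleO_log_rpow_atTop (half_pos hε)).def
    (show (0 : ℝ) < 1 / (17 * Real.exp 1) by positivity)
  have h2 := tendsto_natCast_atTop_atTop (R := ℝ) |>.eventually h1
  filter_upwards [h2, eventually_ge_atTop 1] with n hn hn1
  have hn0 : (0 : ℝ) < n := by exact_mod_cast hn1
  have h3 : (0 : ℝ) < (n : ℝ) ^ (ε / 2) := Real.rpow_pos_of_pos hn0 _
  rw [Real.norm_eq_abs, Real.norm_eq_abs, abs_of_pos h3] at hn
  have h4 := le_trans (le_abs_self _) hn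
  have he := Real.exp_pos 1
  have h5 : 17 * Real.exp 1 * Real.log n ≤ (n : ℝ) ^ (ε / 2) := by
    rw [one_div, inv_mul_eq_div, le_div_iff₀ (by positivity)] at h4
    linarith
  have h6 : 0 ≤ Real.log n := Real.log_nonneg (by exact_mod_cast hn1)
  rcases eq_or_lt_of_le h6 with h7 | h7
  · rw [← h7]
    simpa using h3
  · have h8 : 0 < Real.exp 1 * Real.log n := mul_pos he h7
    linarith

private theorem pard_e2 (δ : ℝ) (hδ : 0 < δ) :
    ∀ᶠ n : ℕ in atTop, 48 * (Real.log n) ^ 2 < (n : ℝ) ^ δ := by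
  have h1 := (isLittleO_log_rpow_atTop (half_pos hδ)).def
    (show (0 : ℝ) < 1 / 7 by norm_num)
  have h2 := tendsto_natCast_atTop_atTop (R := ℝ) |>.eventually h1
  filter_upwards [h2, eventually_ge_atTop 1] with n hn hn1
  have hn0 : (0 : ℝ) < n := by exact_mod_cast hn1
  have h3 : (0 : ℝ) < (n : ℝ) ^ (δ / 2) := Real.rpow_pos_of_pos hn0 _
  rw [Real.norm_eq_abs, Real.norm_eq_abs, abs_of_pos h3] at hn
  have h4 := le_trans (le_abs_self _) hn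
  have h6 : 0 ≤ Real.log n := Real.log_nonneg (by exact_mod_cast hn1)
  have h7 : (n : ℝ) ^ δ = ((n : ℝ) ^ (δ / 2)) ^ 2 := by
    rw [← Real.rpow_natCast, ← Real.rpow_mul hn0.le]
    congr 1
    push_cast
    ring
  rw [h7]
  have h8 : (Real.log n) ^ 2 ≤ (1 / 7 * (n : ℝ) ^ (δ / 2)) ^ 2 := pow_le_pow_left₀ h6 h4 2
  have h9 : 0 < ((n : ℝ) ^ (δ / 2)) ^ 2 := by positivity
  have h10 : (1 / 7 * (n : ℝ) ^ (δ / 2)) ^ 2 = ((n : ℝ) ^ (δ / 2)) ^ 2 / 49 := by ring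
  rw [h10] at h8
  linarith

private theorem pard_e3 : ∀ᶠ n : ℕ in atTop, 8 * Real.log n ≤ n := by
  have h1 := (isLittleO_log_rpow_atTop one_pos).def (show (0 : ℝ) < 1 / 8 by norm_num)
  have h2 := tendsto_natCast_atTop_atTop (R := ℝ) |>.eventually h1
  filter_upwards [h2] with n hn
  rw [Real.rpow_one, Real.norm_eq_abs, Real.norm_eq_abs] at hn
  have h4 := le_trans (le_abs_self _) hn
  rw [abs_of_nonneg (show (0 : ℝ) ≤ (n : ℝ) from Nat.cast_nonneg n)] at h4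
  linarith

private theorem pard_floor {x : ℝ} (hx : 1 ≤ x) :
    1 ≤ ⌊x⌋₊ ∧ x / 2 ≤ (⌊x⌋₊ : ℝ) ∧ (⌊x⌋₊ : ℝ) ≤ x := by
  have h1 : 1 ≤ ⌊x⌋₊ := Nat.le_floor (by simpa using hx)
  have h2 : (⌊x⌋₊ : ℝ) ≤ x := Nat.floor_le (by linarith)
  have h3 := Nat.lt_floor_add_one x
  have h4 : (1 : ℝ) ≤ (⌊x⌋₊ : ℝ) := by exact_mod_cast h1
  exact ⟨h1, by linarith, h2⟩

theorem exists_parD (ε : ℝ) (hε : 0 < ε) : ∃ (δ : ℝ) (n0 : ℕ), 0 < δ ∧ 5 ≤ n0 ∧
    ∀ (n q f : ℕ) (I : ℝ), n0 ≤ n → Odd n → 1 ≤ f → q ≤ n ^ 2 →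
    (n : ℝ) ^ (3 / 2 + ε) ≤ q * ((min n q : ℕ) : ℝ) ^ (1 - 1 / (f : ℝ)) → 0 < I →
    Real.log I ≤ (((n - 1) / 2 : ℕ) : ℝ) / 2 * Real.log (((n - 1) / 2 : ℕ) : ℝ) →
    ∃ k r N : ℕ, 1 ≤ k ∧ k ≤ (n - 1) / 2 ∧ 1 ≤ N ∧ N + 1 ≤ q ∧ 1 ≤ r ∧ r < q ∧
      (N : ℝ) ^ ((n - 1) / 2 / f) * (I * (q : ℝ) ^ k) < ((r : ℝ) + 1) ^ ((n - 1) / 2) ∧
      2 * ((n - 1) / 2) * r * n ≤ k * N * q ∧
      6 * (((n - 1) / 2 : ℕ) : ℝ) * N * Real.log q * (q : ℝ) ^ δ < k * ((min n q : ℕ) : ℝ) := by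
  obtain ⟨δ, hδ⟩ : ∃ δ : ℝ, δ = min ε 1 / 8 := ⟨_, rfl⟩
  have hδ0 : 0 < δ := by
    rw [hδ]
    have := lt_min hε one_pos
    linarith
  have hδε : 8 * δ ≤ ε := by
    have := min_le_left ε 1
    rw [hδ]
    linarith
  have hδ1 : 8 * δ ≤ 1 := by
    have := min_le_right ε 1
    rw [hδ]
    linarith
  obtain ⟨n0, hn0⟩ := eventually_atTop.1
    ((pard_e1 ε hε).and ((pard_e2 δ hδ0).and (pard_e3.and (eventually_ge_atTop 8))))
  refine ⟨δ, n0 + 5, hδ0, by omega, ?_⟩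
  intro n q f I hn hodd hf hqn hmain hI hlogI
  obtain ⟨e1, e2, e3, e4⟩ := hn0 n (by omega)
  obtain ⟨m, hnm⟩ := hodd
  have hm : (n - 1) / 2 = m := by omega
  rw [hm] at hlogI ⊢
  -- real versions
  have hn8 : (8 : ℝ) ≤ n := by exact_mod_cast e4
  have hn1 : (1 : ℝ) ≤ n := by linarith
  have hnpos : (0 : ℝ) < n := by linarith
  have hnm' : (n : ℝ) = 2 * m + 1 := by
    rw [hnm]
    push_cast
    ring
  have hm1 : 1 ≤ m := by omega
  have hmr1 : (1 : ℝ) ≤ m := by exact_mod_cast hm1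
  have hmn : (m : ℝ) ≤ n := by linarith
  have hm4 : (n : ℝ) / 4 ≤ m := by linarith
  have hlogn : 2 ≤ Real.log n := by
    rw [Real.le_log_iff_exp_le hnpos]
    have h1 : Real.exp 2 = Real.exp 1 * Real.exp 1 := by
      rw [← Real.exp_add]
      norm_num
    have h2 := Real.exp_one_lt_d9
    have h3 := Real.exp_pos 1
    rw [h1]
    calc Real.exp 1 * Real.exp 1 ≤ 2.7182818286 * 2.7182818286 :=
          mul_le_mul h2.le h2.le h3.le (by norm_num)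
      _ ≤ 8 := by norm_num
      _ ≤ n := hn8
  have hq0 : 0 < q := by
    rcases Nat.eq_zero_or_pos q with h | h
    · exfalso
      rw [h] at hmain
      have h1 : (0 : ℝ) < (n : ℝ) ^ (3 / 2 + ε) := Real.rpow_pos_of_pos hnpos _
      simp at hmain
      linarith
    · exact h
  obtain ⟨μ, hμ⟩ : ∃ μ : ℕ, μ = min n q := ⟨_, rfl⟩
  rw [← hμ] at hmain ⊢
  have hμ1 : 1 ≤ μ := by
    rw [hμ]
    exact le_min (by omega) hq0
  have hμn : μ ≤ n := by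
    rw [hμ]
    exact min_le_left _ _
  have hμq : μ ≤ q := by
    rw [hμ]
    exact min_le_right _ _
  have hμr1 : (1 : ℝ) ≤ μ := by exact_mod_cast hμ1
  have hμrn : (μ : ℝ) ≤ n := by exact_mod_cast hμn
  have hμrq : (μ : ℝ) ≤ q := by exact_mod_cast hμq
  have hqr1 : (1 : ℝ) ≤ q := by exact_mod_cast hq0
  have hμpos : (0 : ℝ) < μ := by linarith
  have hqpos : (0 : ℝ) < q := by linarith
  have hfr : (1 : ℝ) ≤ f := by exact_mod_cast hf
  obtain ⟨s, hs⟩ : ∃ s : ℝ, s = 1 - 1 / (f : ℝ) := ⟨_, rfl⟩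
  have hf1 : 0 < 1 / (f : ℝ) := by positivity
  have hf2 : 1 / (f : ℝ) ≤ 1 := by
    rw [div_le_one (by linarith)]
    exact hfr
  have hs0 : 0 ≤ s := by linarith
  have hs1 : s ≤ 1 := by linarith
  rw [← hs] at hmain
  have hlow : (n : ℝ) ^ (3 / 2 : ℝ) ≤ q * μ := by
    have h1 : (n : ℝ) ^ (3 / 2 : ℝ) ≤ (n : ℝ) ^ (3 / 2 + ε) :=
      Real.rpow_le_rpow_of_exponent_le hn1 (by linarith)
    have h2 : (μ : ℝ) ^ s ≤ μ := by
      calc (μ : ℝ) ^ s ≤ (μ : ℝ) ^ (1 : ℝ) := Real.rpow_le_rpow_of_exponent_le hμr1 hs1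
        _ = μ := Real.rpow_one _
    calc _ ≤ _ := h1
      _ ≤ _ := hmain
      _ ≤ _ := mul_le_mul_of_nonneg_left h2 hqpos.le
  have hμlow : (n : ℝ) ^ (3 / 4 : ℝ) ≤ μ := by
    rcases le_total n q with h | h
    · have h1 : μ = n := by
        rw [hμ]
        exact min_eq_left h
      rw [h1]
      calc (n : ℝ) ^ (3 / 4 : ℝ) ≤ (n : ℝ) ^ (1 : ℝ) :=
            Real.rpow_le_rpow_of_exponent_le hn1 (by norm_num)
        _ = n := Real.rpow_one _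
    · have h1 : μ = q := by
        rw [hμ]
        exact min_eq_right h
      rw [h1] at hlow ⊢
      have h2 : ((n : ℝ) ^ (3 / 4 : ℝ)) ^ 2 ≤ (q : ℝ) ^ 2 := by
        rw [← Real.rpow_natCast, ← Real.rpow_mul hnpos.le]
        have h3 : (3 / 4 : ℝ) * ((2 : ℕ) : ℝ) = 3 / 2 := by norm_num
        rw [h3]
        calc _ ≤ _ := hlow
          _ = _ := by ring
      exact le_of_pow_le_pow_left₀ two_ne_zero hqpos.le h2
  have hn34 : 2 ≤ (n : ℝ) ^ (3 / 4 : ℝ) := by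
    rw [Real.rpow_def_of_pos hnpos]
    have h1 := Real.add_one_le_exp (Real.log n * (3 / 4 : ℝ))
    linarith
  have hμ2 : (2 : ℝ) ≤ μ := le_trans hn34 hμlow
  obtain ⟨L, hL⟩ : ∃ L : ℝ, L = Real.log q := ⟨_, rfl⟩
  rw [← hL]
  have hL1 : 1 ≤ L := by
    have h1 : Real.log ((n : ℝ) ^ (3 / 4 : ℝ)) ≤ Real.log q :=
      Real.log_le_log (by linarith) (le_trans hμlow hμrq)
    rw [Real.log_rpow hnpos] at h1
    rw [hL]
    linarith
  have hqn' : (q : ℝ) ≤ (n : ℝ) ^ 2 := by exact_mod_cast hqn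
  have hL2 : L ≤ 2 * Real.log n := by
    have h1 : Real.log q ≤ Real.log ((n : ℝ) ^ 2) := Real.log_le_log hqpos hqn'
    rw [Real.log_pow] at h1
    rw [hL]
    push_cast at h1
    exact h1
  have hmL : L ≤ m := by linarith
  -- the choice of k
  obtain ⟨k, hk⟩ : ∃ k : ℕ, k = ⌊(m : ℝ) / L⌋₊ := ⟨_, rfl⟩
  obtain ⟨hk1, hk2, hk3⟩ := pard_floor (x := (m : ℝ) / L) (by
    rw [le_div_iff₀ (by linarith)]
    linarith)
  rw [← hk] at hk1 hk2 hk3
  have hkL : (k : ℝ) * L ≤ m := by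
    rwa [le_div_iff₀ (by linarith)] at hk3
  have hkm : k ≤ m := by
    have h1 : (k : ℝ) ≤ m := by
      calc (k : ℝ) = k * 1 := (mul_one _).symm
        _ ≤ k * L := mul_le_mul_of_nonneg_left hL1 (Nat.cast_nonneg k)
        _ ≤ m := hkL
    exact_mod_cast h1
  have hk4 : (m : ℝ) ≤ k * (2 * L) := by
    have h1 : (m : ℝ) = (m / L / 2) * (2 * L) := by
      field_simp
    calc (m : ℝ) = (m / L / 2) * (2 * L) := h1
      _ ≤ k * (2 * L) := mul_le_mul_of_nonneg_right hk2 (by linarith)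
  -- the choice of N
  obtain ⟨P, hP⟩ : ∃ P : ℝ, P = (μ : ℝ) ^ (1 - 4 * δ) := ⟨_, rfl⟩
  have hP1 : 1 ≤ P := by
    rw [hP]
    exact Real.one_le_rpow hμr1 (by linarith)
  obtain ⟨N, hN⟩ : ∃ N : ℕ, N = ⌊P⌋₊ := ⟨_, rfl⟩
  obtain ⟨hN1, hN2, hN3⟩ := pard_floor hP1
  rw [← hN] at hN1 hN2 hN3
  have hNr1 : (1 : ℝ) ≤ N := by exact_mod_cast hN1
  have hPle : P ≤ μ * (n : ℝ) ^ (-(3 * δ)) := by
    have h1 : P = μ * (μ : ℝ) ^ (-(4 * δ)) := by
      rw [hP, sub_eq_add_neg, Real.rpow_add hμpos, Real.rpow_one]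
    have h2 : (μ : ℝ) ^ (-(4 * δ)) ≤ ((n : ℝ) ^ (3 / 4 : ℝ)) ^ (-(4 * δ)) :=
      Real.rpow_le_rpow_of_nonpos (by linarith) hμlow (by linarith)
    have h3 : ((n : ℝ) ^ (3 / 4 : ℝ)) ^ (-(4 * δ)) = (n : ℝ) ^ (-(3 * δ)) := by
      rw [← Real.rpow_mul hnpos.le]
      congr 1
      ring
    rw [h3] at h2
    rw [h1]
    exact mul_le_mul_of_nonneg_left h2 hμpos.le
  have hnδ : 2 ≤ (n : ℝ) ^ (3 * δ) := by
    have h1 : (n : ℝ) ^ δ ≤ (n : ℝ) ^ (3 * δ) :=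
      Real.rpow_le_rpow_of_exponent_le hn1 (by linarith)
    have h2 : (4 : ℝ) ≤ (Real.log n) ^ 2 := by
      calc (4 : ℝ) = 2 ^ 2 := by norm_num
        _ ≤ _ := pow_le_pow_left₀ (by norm_num) hlogn 2
    linarith only [h1, h2, e2]
  have hPhalf : P ≤ μ / 2 := by
    have h1 : (n : ℝ) ^ (-(3 * δ)) ≤ 1 / 2 := by
      rw [Real.rpow_neg hnpos.le, ← one_div]
      exact one_div_le_one_div_of_le (by norm_num) hnδ
    calc P ≤ _ := hPle
      _ ≤ μ * (1 / 2) := mul_le_mul_of_nonneg_left h1 hμpos.le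
      _ = _ := by ring
  have hNhalf : (N : ℝ) ≤ μ / 2 := le_trans hN3 hPhalf
  have hNq : N + 1 ≤ q := by
    have h1 : (N : ℝ) + 1 ≤ q := by linarith
    exact_mod_cast h1
  have hNn : N ≤ n := by
    have h1 : (N : ℝ) ≤ n := by linarith
    exact_mod_cast h1
  -- the key inequality
  have hNs : 4 * Real.exp 1 * n * (m : ℝ) ^ (1 / 2 : ℝ) * L ≤ (N : ℝ) ^ s * q := by
    have h1 : P ^ s / 2 ≤ (N : ℝ) ^ s := by
      have h2 : (P / 2) ^ s ≤ (N : ℝ) ^ s :=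
        Real.rpow_le_rpow (by linarith) hN2 hs0
      have h3 : (P / 2) ^ s = P ^ s * (1 / 2 : ℝ) ^ s := by
        rw [← Real.mul_rpow (by linarith) (by norm_num)]
        congr 1
        ring
      have h4 : (1 / 2 : ℝ) ≤ (1 / 2 : ℝ) ^ s := by
        calc (1 / 2 : ℝ) = (1 / 2 : ℝ) ^ (1 : ℝ) := (Real.rpow_one _).symm
          _ ≤ (1 / 2 : ℝ) ^ s :=
            Real.rpow_le_rpow_of_exponent_ge (by norm_num) (by norm_num) hs1
      have h5 : 0 ≤ P ^ s := Real.rpow_nonneg (by linarith) _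
      calc P ^ s / 2 = P ^ s * (1 / 2) := by ring
        _ ≤ P ^ s * (1 / 2 : ℝ) ^ s := mul_le_mul_of_nonneg_left h4 h5
        _ = (P / 2) ^ s := h3.symm
        _ ≤ _ := h2
    have h6 : (μ : ℝ) ^ s * (n : ℝ) ^ (-(4 * δ)) ≤ P ^ s := by
      have h7 : P ^ s = (μ : ℝ) ^ s * (μ : ℝ) ^ (-(4 * δ * s)) := by
        rw [hP, ← Real.rpow_mul hμpos.le, ← Real.rpow_add hμpos]
        congr 1
        ring
      have h8 : (n : ℝ) ^ (-(4 * δ)) ≤ (μ : ℝ) ^ (-(4 * δ * s)) := by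
        calc (n : ℝ) ^ (-(4 * δ)) ≤ (μ : ℝ) ^ (-(4 * δ)) :=
              Real.rpow_le_rpow_of_nonpos hμpos hμrn (by linarith)
          _ ≤ (μ : ℝ) ^ (-(4 * δ * s)) := by
              apply Real.rpow_le_rpow_of_exponent_le hμr1
              have h9 : 4 * δ * s ≤ 4 * δ * 1 := mul_le_mul_of_nonneg_left hs1 (by linarith)
              linarith only [h9]
      rw [h7]
      exact mul_le_mul_of_nonneg_left h8 (Real.rpow_nonneg hμpos.le _)
    have h9 : (n : ℝ) ^ (3 / 2 : ℝ) * (n : ℝ) ^ (ε / 2) ≤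
        (n : ℝ) ^ (3 / 2 + ε) * (n : ℝ) ^ (-(4 * δ)) := by
      rw [← Real.rpow_add hnpos, ← Real.rpow_add hnpos]
      apply Real.rpow_le_rpow_of_exponent_le hn1
      linarith
    have h10 : (n : ℝ) ^ (3 / 2 : ℝ) = n * (n : ℝ) ^ (1 / 2 : ℝ) := by
      have h11 : (3 / 2 : ℝ) = 1 + 1 / 2 := by norm_num
      rw [h11, Real.rpow_add hnpos, Real.rpow_one]
    have h12 : (m : ℝ) ^ (1 / 2 : ℝ) ≤ (n : ℝ) ^ (1 / 2 : ℝ) :=
      Real.rpow_le_rpow (by linarith) hmn (by norm_num)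
    have h13 : (0 : ℝ) ≤ (n : ℝ) ^ (1 / 2 : ℝ) := Real.rpow_nonneg hnpos.le _
    have h14 : (0 : ℝ) ≤ (m : ℝ) ^ (1 / 2 : ℝ) := Real.rpow_nonneg (by linarith) _
    have he := Real.exp_pos 1
    have hn3 : (0 : ℝ) < (n : ℝ) ^ (3 / 2 : ℝ) := Real.rpow_pos_of_pos hnpos _
    have hn4 : (0 : ℝ) < (n : ℝ) ^ (-(4 * δ)) := Real.rpow_pos_of_pos hnpos _
    calc 4 * Real.exp 1 * n * (m : ℝ) ^ (1 / 2 : ℝ) * L
        ≤ 4 * Real.exp 1 * n * (n : ℝ) ^ (1 / 2 : ℝ) * (2 * Real.log n) := by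
          apply mul_le_mul _ hL2 (by linarith) (by positivity)
          exact mul_le_mul_of_nonneg_left h12 (by positivity)
      _ = (n : ℝ) ^ (3 / 2 : ℝ) * (16 * Real.exp 1 * Real.log n) / 2 := by
          rw [h10]
          ring
      _ ≤ (n : ℝ) ^ (3 / 2 : ℝ) * (n : ℝ) ^ (ε / 2) / 2 := by
          apply div_le_div_of_nonneg_right _ (by norm_num)
          exact mul_le_mul_of_nonneg_left e1.le hn3.le
      _ ≤ (n : ℝ) ^ (3 / 2 + ε) * (n : ℝ) ^ (-(4 * δ)) / 2 :=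
          div_le_div_of_nonneg_right h9 (by norm_num)
      _ ≤ (q * (μ : ℝ) ^ s) * (n : ℝ) ^ (-(4 * δ)) / 2 := by
          apply div_le_div_of_nonneg_right _ (by norm_num)
          exact mul_le_mul_of_nonneg_right hmain hn4.le
      _ = ((μ : ℝ) ^ s * (n : ℝ) ^ (-(4 * δ))) / 2 * q := by ring
      _ ≤ P ^ s / 2 * q := by
          apply mul_le_mul_of_nonneg_right _ hqpos.le
          exact div_le_div_of_nonneg_right h6 (by norm_num)
      _ ≤ (N : ℝ) ^ s * q := mul_le_mul_of_nonneg_right h1 hqpos.le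
  obtain ⟨X, hX⟩ : ∃ X : ℝ, X = (N : ℝ) ^ (1 / (f : ℝ)) * ((m : ℝ) ^ (1 / 2 : ℝ) * Real.exp 1) :=
    ⟨_, rfl⟩
  have hNpos : (0 : ℝ) < N := by linarith
  have hXN : X * (4 * n * L) ≤ N * q := by
    have h1 : (N : ℝ) ^ (1 / (f : ℝ)) * (N : ℝ) ^ s = N := by
      rw [← Real.rpow_add hNpos, hs]
      have h2 : 1 / (f : ℝ) + (1 - 1 / (f : ℝ)) = 1 := by ring
      rw [h2, Real.rpow_one]
    have h3 : (0 : ℝ) ≤ (N : ℝ) ^ (1 / (f : ℝ)) := Real.rpow_nonneg hNpos.le _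
    calc X * (4 * n * L) = (N : ℝ) ^ (1 / (f : ℝ)) *
          (4 * Real.exp 1 * n * (m : ℝ) ^ (1 / 2 : ℝ) * L) := by
          rw [hX]
          ring
      _ ≤ (N : ℝ) ^ (1 / (f : ℝ)) * ((N : ℝ) ^ s * q) := mul_le_mul_of_nonneg_left hNs h3
      _ = (N : ℝ) ^ (1 / (f : ℝ)) * (N : ℝ) ^ s * q := by ring
      _ = N * q := by rw [h1]
  have hX1 : 1 ≤ X := by
    have h1 : 1 ≤ (N : ℝ) ^ (1 / (f : ℝ)) := Real.one_le_rpow hNr1 hf1.le
    have h2 : 1 ≤ (m : ℝ) ^ (1 / 2 : ℝ) := Real.one_le_rpow hmr1 (by norm_num)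
    have h3 : 1 ≤ Real.exp 1 := Real.one_le_exp (by norm_num)
    rw [hX]
    have h4 : 1 ≤ (m : ℝ) ^ (1 / 2 : ℝ) * Real.exp 1 := one_le_mul_of_one_le_of_one_le h2 h3
    exact one_le_mul_of_one_le_of_one_le h1 h4
  -- the choice of r
  obtain ⟨r, hr⟩ : ∃ r : ℕ, r = k * N * q / (2 * m * n) := ⟨_, rfl⟩
  have hden : 0 < 2 * m * n := by
    have : 0 < m := hm1
    have : 0 < n := by omega
    positivity
  have hr1 : r * (2 * m * n) ≤ k * N * q := by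
    rw [hr]
    exact Nat.div_mul_le_self _ _
  have hr2 : k * N * q < (r + 1) * (2 * m * n) := by
    rw [← Nat.div_lt_iff_lt_mul hden, ← hr]
    exact Nat.lt_succ_self r
  have hkNq : X * (2 * m * n) ≤ (k : ℝ) * N * q := by
    calc X * (2 * m * n) = (m : ℝ) * (X * (2 * n)) := by ring
      _ ≤ (k * (2 * L)) * (X * (2 * n)) := by
          apply mul_le_mul_of_nonneg_right hk4
          have : 0 ≤ X := by linarith
          positivity
      _ = k * (X * (4 * n * L)) := by ring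
      _ ≤ k * (N * q) := mul_le_mul_of_nonneg_left hXN (Nat.cast_nonneg k)
      _ = _ := by ring
  have hXr : X < (r : ℝ) + 1 := by
    have h1 : (k : ℝ) * N * q < ((r : ℝ) + 1) * (2 * m * n) := by exact_mod_cast hr2
    have h2 : X * (2 * m * n) < ((r : ℝ) + 1) * (2 * m * n) := lt_of_le_of_lt hkNq h1
    exact lt_of_mul_lt_mul_right h2 (by positivity)
  have hrpos : 1 ≤ r := by
    rw [hr]
    apply Nat.div_pos _ hden
    have h1 : ((2 * m * n : ℕ) : ℝ) ≤ ((k * N * q : ℕ) : ℝ) := by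
      push_cast
      calc 2 * (m : ℝ) * n = 1 * (2 * m * n) := by ring
        _ ≤ X * (2 * m * n) := mul_le_mul_of_nonneg_right hX1 (by positivity)
        _ ≤ _ := hkNq
    exact_mod_cast h1
  have hrq : r < q := by
    rw [hr, Nat.div_lt_iff_lt_mul hden]
    have h1 : k * N ≤ m * n := Nat.mul_le_mul hkm hNn
    have h2 : 0 < m * n := by
      have : 0 < m := hm1
      have : 0 < n := by omega
      positivity
    have h3 : 0 < m * n * q := Nat.mul_pos h2 hq0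
    have h4 : q * (2 * m * n) = 2 * (m * n * q) := by ring
    have h5 : k * N * q ≤ m * n * q := Nat.mul_le_mul_right q h1
    omega
  refine ⟨k, r, N, hk1, hkm, hN1, hNq, hrpos, hrq, ?_, ?_, ?_⟩
  · -- the index condition
    have h1 : (N : ℝ) ^ (m / f) ≤ ((N : ℝ) ^ (1 / (f : ℝ))) ^ m := by
      rw [← Real.rpow_natCast (N : ℝ), ← Real.rpow_natCast ((N : ℝ) ^ (1 / (f : ℝ))),
        ← Real.rpow_mul hNpos.le]
      apply Real.rpow_le_rpow_of_exponent_le hNr1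
      have h2 : ((m / f : ℕ) : ℝ) ≤ (m : ℝ) / f := Nat.cast_div_le
      calc ((m / f : ℕ) : ℝ) ≤ (m : ℝ) / f := h2
        _ = 1 / (f : ℝ) * m := by ring
    have h3 : I ≤ ((m : ℝ) ^ (1 / 2 : ℝ)) ^ m := by
      rw [← Real.rpow_natCast ((m : ℝ) ^ (1 / 2 : ℝ)), ← Real.rpow_mul (by linarith),
        Real.rpow_def_of_pos (by linarith), ← Real.log_le_iff_le_exp hI]
      calc Real.log I ≤ _ := hlogI
        _ = _ := by ring
    have h4 : (q : ℝ) ^ k ≤ (Real.exp 1) ^ m := by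
      have h5 : (q : ℝ) ^ k = Real.exp (k * L) := by
        rw [Real.exp_nat_mul, hL, Real.exp_log hqpos]
      have h6 : (Real.exp 1) ^ m = Real.exp m := by
        rw [← Real.exp_nat_mul, mul_one]
      rw [h5, h6]
      exact Real.exp_le_exp.2 hkL
    have h7 : (N : ℝ) ^ (m / f) * (I * (q : ℝ) ^ k) ≤ X ^ m := by
      rw [hX, mul_pow, mul_pow]
      apply mul_le_mul h1 _ (by positivity) (by positivity)
      exact mul_le_mul h3 h4 (by positivity) (by positivity)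
    refine lt_of_le_of_lt h7 ?_
    exact pow_lt_pow_left₀ hXr (by linarith) (by omega)
  · calc 2 * m * r * n = r * (2 * m * n) := by ring
      _ ≤ _ := hr1
  · -- the last condition
    have h1 : (q : ℝ) ^ δ ≤ (n : ℝ) ^ (2 * δ) := by
      have h2 : (q : ℝ) ^ δ ≤ ((n : ℝ) ^ 2) ^ δ := Real.rpow_le_rpow hqpos.le hqn' hδ0.le
      have h3 : ((n : ℝ) ^ 2) ^ δ = (n : ℝ) ^ (2 * δ) := by
        rw [← Real.rpow_natCast, ← Real.rpow_mul hnpos.le]
        norm_num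
      rwa [h3] at h2
    have hL2' : L ^ 2 ≤ 4 * (Real.log n) ^ 2 := by
      calc L ^ 2 ≤ (2 * Real.log n) ^ 2 := pow_le_pow_left₀ (by linarith) hL2 2
        _ = _ := by ring
    have h4 : 12 * (N : ℝ) * L ^ 2 * (q : ℝ) ^ δ < μ := by
      have h5 : (n : ℝ) ^ (-(3 * δ)) * (n : ℝ) ^ (2 * δ) * (n : ℝ) ^ δ = 1 := by
        rw [← Real.rpow_add hnpos, ← Real.rpow_add hnpos]
        have h6 : -(3 * δ) + 2 * δ + δ = 0 := by ring
        rw [h6, Real.rpow_zero]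
      have h7 : (0 : ℝ) < (n : ℝ) ^ (-(3 * δ)) := Real.rpow_pos_of_pos hnpos _
      have h8 : (0 : ℝ) < (n : ℝ) ^ (2 * δ) := Real.rpow_pos_of_pos hnpos _
      have h9 : (N : ℝ) ≤ μ * (n : ℝ) ^ (-(3 * δ)) := le_trans hN3 hPle
      calc 12 * (N : ℝ) * L ^ 2 * (q : ℝ) ^ δ
          ≤ 12 * (μ * (n : ℝ) ^ (-(3 * δ))) * (4 * (Real.log n) ^ 2) * (n : ℝ) ^ (2 * δ) := by
            apply mul_le_mul _ h1 (by positivity) (by positivity)
            apply mul_le_mul _ hL2' (by positivity) (by positivity)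
            exact mul_le_mul_of_nonneg_left h9 (by norm_num)
        _ = μ * ((n : ℝ) ^ (-(3 * δ)) * (n : ℝ) ^ (2 * δ)) * (48 * (Real.log n) ^ 2) := by ring
        _ < μ * ((n : ℝ) ^ (-(3 * δ)) * (n : ℝ) ^ (2 * δ)) * (n : ℝ) ^ δ :=
            mul_lt_mul_of_pos_left e2 (by positivity)
        _ = μ * ((n : ℝ) ^ (-(3 * δ)) * (n : ℝ) ^ (2 * δ) * (n : ℝ) ^ δ) := by ring
        _ = μ := by rw [h5, mul_one]
    have hkpos : (0 : ℝ) < k := by exact_mod_cast hk1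
    have h10 : 0 ≤ (N : ℝ) * L * (q : ℝ) ^ δ := by
      have : (0 : ℝ) ≤ (q : ℝ) ^ δ := Real.rpow_nonneg hqpos.le _
      positivity
    calc 6 * (m : ℝ) * N * L * (q : ℝ) ^ δ = (m : ℝ) * (6 * (N * L * (q : ℝ) ^ δ)) := by ring
      _ ≤ (k * (2 * L)) * (6 * (N * L * (q : ℝ) ^ δ)) :=
          mul_le_mul_of_nonneg_right hk4 (by linarith)
      _ = k * (12 * (N : ℝ) * L ^ 2 * (q : ℝ) ^ δ) := by ring
      _ < k * μ := mul_lt_mul_of_pos_left h4 hkpos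

end Pool.Agent.NLS
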