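import Mathlib

/-!
# NLS-ParE: parameters for the count of the exponents `q > n`

With `m = (n - 1)/2`, `L = log q`, `f g = m`: `k = ⌊m / L⌋`, `r = ⌊n^(1/4)⌋`, `N = ⌈4 r n L / q⌉`,
`j = min g (⌊3 g / 4⌋ + 1)`, for `n` large.
-/

namespace Pool.Agent.NLS

open Filter

private theorem pare_log {c r : ℝ} (hc : 0 < c) (hr : 0 < r) :
    ∀ᶠ x : ℝ in atTop, Real.log x ≤ c * x ^ r := by
  have h1 := (isLittleO_log_rpow_atTop hr).def hc
  filter_upwards [h1, eventually_ge_atTop 1] with x hx hx1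
  have hx0 : (0 : ℝ) < x := by linarith
  have h3 : (0 : ℝ) < x ^ r := Real.rpow_pos_of_pos hx0 _
  rw [Real.norm_eq_abs, Real.norm_eq_abs, abs_of_pos h3] at hx
  exact le_trans (le_abs_self _) hx

private theorem pare_loglog {c : ℝ} (hc : 0 < c) :
    ∀ᶠ x : ℝ in atTop, Real.log (10 * Real.log x) ≤ c * Real.log x := by
  have h1 : Tendsto (fun x : ℝ => 10 * Real.log x) atTop atTop :=
    Real.tendsto_log_atTop.const_mul_atTop (by norm_num)
  have h2 := h1.eventually (pare_log (c := c / 10) (r := 1) (by positivity) one_pos)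
  filter_upwards [h2] with x hx
  rw [Real.rpow_one] at hx
  linarith

private theorem pare_ev (ι : ℝ) (hι : ι < 1 / 16) : ∃ X : ℝ, ∀ x : ℝ, X ≤ x →
    (8 * Real.log x + 1 ≤ x ∧ 1280 * Real.log x ^ 3 ≤ x ^ (1 / 12 : ℝ) ∧
      80 * Real.log x ≤ x ^ (3 / 4 : ℝ)) ∧
    5 / 4 + Real.log (10 * Real.log x) < (1 / 16 - ι) * Real.log x ∧ 1 ≤ Real.log x ∧ 1 ≤ x := by
  have hδ : 0 < 1 / 16 - ι := by linarith
  have e1 := pare_log (c := 1 / 16) (r := 1) (by norm_num) one_pos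
  have e2 := pare_log (c := 1 / 16) (r := 1 / 36) (by norm_num) (by norm_num)
  have e3 := pare_log (c := 1 / 80) (r := 3 / 4) (by norm_num) (by norm_num)
  have e4 := pare_loglog (c := (1 / 16 - ι) / 2) (by positivity)
  obtain ⟨C, hC⟩ : ∃ C, C = 5 / 4 / ((1 / 16 - ι) / 2) := ⟨_, rfl⟩
  have e5 := Real.tendsto_log_atTop.eventually (eventually_gt_atTop C)
  have e6 := Real.tendsto_log_atTop.eventually (eventually_ge_atTop (1 : ℝ))
  obtain ⟨X, hX⟩ := eventually_atTop.1 (((e1.and e2).and (e3.and e4)).and ((e5.and e6).and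
    (eventually_ge_atTop (2 : ℝ))))
  refine ⟨X, fun x hx => ?_⟩
  obtain ⟨⟨⟨h1, h2⟩, h3, h4⟩, ⟨h5, h6⟩, h7⟩ := hX x hx
  have hx0 : (0 : ℝ) < x := lt_of_lt_of_le two_pos h7
  rw [Real.rpow_one] at h1
  have h3' : 80 * Real.log x ≤ x ^ (3 / 4 : ℝ) := by
    calc 80 * Real.log x ≤ 80 * (1 / 80 * x ^ (3 / 4 : ℝ)) := mul_le_mul_of_nonneg_left h3 (by norm_num)
      _ = x ^ (3 / 4 : ℝ) := by rw [← mul_assoc]; norm_num
  refine ⟨⟨by linarith, ?_, h3'⟩, ?_, h6, le_trans one_le_two h7⟩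
  · have h8 : Real.log x ^ 3 ≤ (1 / 16 * x ^ (1 / 36 : ℝ)) ^ 3 :=
      pow_le_pow_left₀ (by linarith) h2 3
    have h9 : (1 / 16 * x ^ (1 / 36 : ℝ)) ^ 3 = 1 / 4096 * x ^ (1 / 12 : ℝ) := by
      rw [mul_pow, ← Real.rpow_natCast (x ^ (1 / 36 : ℝ)) 3, ← Real.rpow_mul hx0.le]
      norm_num
    rw [h9] at h8
    have h10 : 0 < x ^ (1 / 12 : ℝ) := Real.rpow_pos_of_pos hx0 _
    linarith
  · rw [hC, div_lt_iff₀ (by positivity)] at h5
    linarith

theorem exists_parE (ι : ℝ) (hι : ι < 1 / 16) : ∃ n0 : ℕ, ∀ (n q f : ℕ) (I : ℝ),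
    n0 ≤ n → Odd n → n < q → (q : ℝ) ≤ (n : ℝ) ^ 2 → 0 < I → 1 ≤ f → f ∣ (n - 1) / 2 →
    I ≤ Real.exp (ι * ((n - 1) / 2 : ℕ) * Real.log n) →
    ∃ k r N j : ℕ, 1 ≤ k ∧ k ≤ (n - 1) / 2 ∧ 1 ≤ r ∧ 1 ≤ N ∧
      j * f ≤ (n - 1) / 2 ∧ (n * r ^ 2) ^ ((n - 1) / 2) < q ^ (2 * (f * j)) ∧
      (N : ℝ) ^ j * (I * (q : ℝ) ^ k) < ((r : ℝ) + 1) ^ ((n - 1) / 2) ∧
      2 * ((n - 1) / 2) * r * n ≤ k * N * q ∧
      8 * (((n - 1) / 2 : ℕ) : ℝ) * N * Real.log (4 * q * (N + 1)) ≤ k * (n : ℝ) ^ (1 / 3 : ℝ) := by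
  obtain ⟨X, hX⟩ := pare_ev ι hι
  refine ⟨⌈X⌉₊, ?_⟩
  intro n q f I hn hodd hnq hq hI hf hfd hIb
  obtain ⟨⟨h1, h2, h3⟩, h4, h5, h6⟩ := hX n (Nat.ceil_le.1 hn)
  obtain ⟨m, hm⟩ : ∃ m, m = (n - 1) / 2 := ⟨_, rfl⟩
  have hnm : n = 2 * m + 1 := by
    obtain ⟨t, ht⟩ := hodd
    omega
  rw [← hm] at hfd hIb ⊢
  obtain ⟨x, hx⟩ : ∃ x, x = Real.log n := ⟨_, rfl⟩
  rw [← hx] at h1 h2 h3 h4 h5 hIb
  obtain ⟨L, hL⟩ : ∃ L, L = Real.log q := ⟨_, rfl⟩
  have hn0 : (0 : ℝ) < n := by linarith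
  have hq0 : (0 : ℝ) < q := by
    have : (n : ℝ) < q := by exact_mod_cast hnq
    linarith
  have hnq' : (n : ℝ) < q := by exact_mod_cast hnq
  have hL1 : x ≤ L := by
    rw [hx, hL]
    exact Real.log_le_log hn0 hnq'.le
  have hL2 : L ≤ 2 * x := by
    rw [hx, hL]
    calc Real.log q ≤ Real.log ((n : ℝ) ^ 2) := Real.log_le_log hq0 hq
      _ = 2 * Real.log n := by rw [Real.log_pow]; norm_num
  have hL0 : 0 < L := by linarith
  have hnmr : (n : ℝ) = 2 * m + 1 := by rw [hnm]; push_cast; ring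
  have hmx : 4 * x ≤ m := by
    rw [hnmr] at h1
    linarith
  have hm0 : (4 : ℝ) ≤ m := by linarith
  have hm1 : 1 ≤ m := by
    have : (1 : ℝ) ≤ m := by linarith
    exact_mod_cast this
  obtain ⟨g, hg⟩ := hfd
  -- the parameters
  obtain ⟨k, hk⟩ : ∃ k, k = ⌊(m : ℝ) / L⌋₊ := ⟨_, rfl⟩
  obtain ⟨r, hr⟩ : ∃ r, r = ⌊(n : ℝ) ^ (1 / 4 : ℝ)⌋₊ := ⟨_, rfl⟩
  obtain ⟨N, hN⟩ : ∃ N, N = ⌈4 * (r : ℝ) * n * L / q⌉₊ := ⟨_, rfl⟩
  obtain ⟨j, hj⟩ : ∃ j, j = min g (3 * g / 4 + 1) := ⟨_, rfl⟩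
  have hkle : (k : ℝ) ≤ m / L := by
    rw [hk]
    exact Nat.floor_le (by positivity)
  have hkge : (m : ℝ) / (2 * L) ≤ k := by
    have h7 : (m : ℝ) / L < k + 1 := by
      rw [hk]
      exact Nat.lt_floor_add_one _
    have h8 : 1 ≤ (m : ℝ) / (2 * L) := by
      rw [le_div_iff₀ (by positivity)]
      linarith
    have h9 : (m : ℝ) / L = 2 * (m / (2 * L)) := by
      field_simp
    rw [h9] at h7
    linarith
  have hk1 : 1 ≤ k := by
    have h8 : 1 ≤ (m : ℝ) / (2 * L) := by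
      rw [le_div_iff₀ (by positivity)]
      linarith
    have : (1 : ℝ) ≤ k := le_trans h8 hkge
    exact_mod_cast this
  have hkL : (k : ℝ) * L ≤ m := by
    rwa [le_div_iff₀ hL0] at hkle
  have hmk : (m : ℝ) ≤ 4 * k * x := by
    rw [div_le_iff₀ (by positivity)] at hkge
    have hk0 : (0 : ℝ) < k := by exact_mod_cast hk1
    nlinarith
  have hroot : (1 : ℝ) ≤ (n : ℝ) ^ (1 / 4 : ℝ) := Real.one_le_rpow h6 (by norm_num)
  have hr1 : 1 ≤ r := by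
    rw [hr]
    exact Nat.le_floor (by exact_mod_cast hroot)
  have hr0 : (0 : ℝ) < r := by exact_mod_cast hr1
  have hrle : (r : ℝ) ≤ (n : ℝ) ^ (1 / 4 : ℝ) := by
    rw [hr]
    exact Nat.floor_le (by positivity)
  have hrlt : (n : ℝ) ^ (1 / 4 : ℝ) < r + 1 := by
    rw [hr]
    exact Nat.lt_floor_add_one _
  have hr4 : r ^ 4 ≤ n := by
    have h7 : (r : ℝ) ^ 4 ≤ ((n : ℝ) ^ (1 / 4 : ℝ)) ^ 4 := pow_le_pow_left₀ hr0.le hrle 4
    have h8 : ((n : ℝ) ^ (1 / 4 : ℝ)) ^ 4 = n := by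
      rw [← Real.rpow_natCast, ← Real.rpow_mul hn0.le]
      norm_num
    rw [h8] at h7
    exact_mod_cast h7
  have hNpos : 0 < 4 * (r : ℝ) * n * L / q := by positivity
  have hN1 : 1 ≤ N := by
    rw [hN]
    exact Nat.ceil_pos.2 hNpos
  have hNge : 4 * (r : ℝ) * n * L ≤ N * q := by
    have h7 : 4 * (r : ℝ) * n * L / q ≤ N := by
      rw [hN]
      exact Nat.le_ceil _
    rwa [div_le_iff₀ hq0] at h7
  have hNle : (N : ℝ) ≤ 10 * x * (n : ℝ) ^ (1 / 4 : ℝ) := by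
    have h7 : (N : ℝ) < 4 * (r : ℝ) * n * L / q + 1 := by
      rw [hN]
      exact Nat.ceil_lt_add_one hNpos.le
    have h8 : 4 * (r : ℝ) * n * L / q ≤ 4 * (r : ℝ) * L := by
      rw [div_le_iff₀ hq0]
      have : 0 < 4 * (r : ℝ) * L := by positivity
      nlinarith
    have h9 : 4 * (r : ℝ) * L ≤ 8 * x * (n : ℝ) ^ (1 / 4 : ℝ) := by
      calc 4 * (r : ℝ) * L ≤ 4 * (n : ℝ) ^ (1 / 4 : ℝ) * (2 * x) := by gcongr
        _ = 8 * x * (n : ℝ) ^ (1 / 4 : ℝ) := by ring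
    have h10 : 1 ≤ x * (n : ℝ) ^ (1 / 4 : ℝ) := one_le_mul_of_one_le_of_one_le h5 hroot
    nlinarith
  have hN0 : (0 : ℝ) < N := by exact_mod_cast hN1
  have hjg : j ≤ g := by rw [hj]; exact min_le_left _ _
  have hj4 : 3 * g ≤ 4 * j := by
    rw [hj]
    rcases le_total g (3 * g / 4 + 1) with h | h
    · rw [min_eq_left h]; omega
    · rw [min_eq_right h]; omega
  have hjle : (j : ℝ) ≤ 3 / 4 * m + 1 := by
    have h7 : 4 * j ≤ 3 * g + 4 := by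
      have h8 : j ≤ 3 * g / 4 + 1 := by rw [hj]; exact min_le_right _ _
      omega
    have h8 : g ≤ m := by
      rw [hg]
      exact Nat.le_mul_of_pos_left g hf
    have h9 : (4 : ℝ) * j ≤ 3 * g + 4 := by exact_mod_cast h7
    have h10 : (g : ℝ) ≤ m := by exact_mod_cast h8
    linarith
  refine ⟨k, r, N, j, hk1, ?_, hr1, hN1, ?_, ?_, ?_, ?_, ?_⟩
  · have h7 : (k : ℝ) ≤ m := by
      have hk0 : (0 : ℝ) ≤ k := by positivity
      nlinarith
    exact_mod_cast h7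
  · rw [hg]
    calc j * f ≤ g * f := Nat.mul_le_mul_right f hjg
      _ = f * g := Nat.mul_comm _ _
  · have h7 : 3 * m ≤ 4 * (f * j) := by
      rw [hg]
      calc 3 * (f * g) = f * (3 * g) := by ring
        _ ≤ f * (4 * j) := Nat.mul_le_mul_left f hj4
        _ = 4 * (f * j) := by ring
    have hn1 : 1 ≤ n := by omega
    have h8 : ((n * r ^ 2) ^ m) ^ 2 < (q ^ (2 * (f * j))) ^ 2 := by
      calc ((n * r ^ 2) ^ m) ^ 2 = (n ^ 2 * r ^ 4) ^ m := by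
            rw [← pow_mul, mul_comm m 2, pow_mul]
            congr 1
            ring
        _ ≤ (n ^ 2 * n) ^ m := Nat.pow_le_pow_left (Nat.mul_le_mul_left _ hr4) m
        _ = n ^ (3 * m) := by rw [← pow_succ, ← pow_mul]
        _ ≤ n ^ (4 * (f * j)) := Nat.pow_le_pow_right hn1 h7
        _ < q ^ (4 * (f * j)) := Nat.pow_lt_pow_left hnq (by omega)
        _ = (q ^ (2 * (f * j))) ^ 2 := by
            rw [← pow_mul]
            congr 1
            ring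
    exact lt_of_pow_lt_pow_left₀ 2 (Nat.zero_le _) h8
  · have hposL : 0 < (N : ℝ) ^ j * (I * (q : ℝ) ^ k) := by positivity
    have hposR : 0 < ((r : ℝ) + 1) ^ m := by positivity
    rw [← Real.log_lt_log_iff hposL hposR, Real.log_mul (by positivity) (by positivity),
      Real.log_mul hI.ne' (by positivity), Real.log_pow, Real.log_pow, Real.log_pow, ← hL]
    have hlI : Real.log I ≤ ι * m * x := by
      rw [Real.log_le_iff_le_exp hI]
      exact hIb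
    have hlr : 1 / 4 * x < Real.log (r + 1) := by
      have h7 := Real.log_lt_log (by positivity) hrlt
      rwa [Real.log_rpow hn0, ← hx] at h7
    have hlN : Real.log N ≤ Real.log (10 * x) + 1 / 4 * x := by
      have h7 := Real.log_le_log hN0 hNle
      rwa [Real.log_mul (by positivity) (by positivity), Real.log_rpow hn0, ← hx] at h7
    have hly : 0 ≤ Real.log (10 * x) + 1 / 4 * x := by
      have h7 : 0 ≤ Real.log (10 * x) := Real.log_nonneg (by linarith)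
      linarith
    have h8 : (j : ℝ) * Real.log N ≤ (3 / 4 * m + 1) * (Real.log (10 * x) + 1 / 4 * x) := by
      calc (j : ℝ) * Real.log N ≤ j * (Real.log (10 * x) + 1 / 4 * x) := by gcongr
        _ ≤ (3 / 4 * m + 1) * (Real.log (10 * x) + 1 / 4 * x) := by gcongr
    have h9 : (m : ℝ) * (1 / 4 * x) < m * Real.log (r + 1) := by
      have : (0 : ℝ) < m := by linarith
      exact mul_lt_mul_of_pos_left hlr this
    have hy0 : 0 ≤ Real.log (10 * x) := Real.log_nonneg (by linarith)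
    have h10 : (m : ℝ) * (5 / 4 + Real.log (10 * x)) < m * ((1 / 16 - ι) * x) := by
      have : (0 : ℝ) < m := by linarith
      exact mul_lt_mul_of_pos_left h4 this
    nlinarith
  · have h7 : (2 : ℝ) * m * r * n ≤ k * N * q := by
      have h8 : (m : ℝ) ≤ k * (2 * L) := by
        rwa [div_le_iff₀ (by positivity)] at hkge
      calc (2 : ℝ) * m * r * n ≤ 2 * (k * (2 * L)) * r * n := by gcongr
        _ = k * (4 * (r : ℝ) * n * L) := by ring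
        _ ≤ k * (N * q) := by gcongr
        _ = k * N * q := by ring
    exact_mod_cast h7
  · have hlog : Real.log (4 * q * (N + 1)) ≤ 4 * x := by
      have h7 : 4 * (q : ℝ) * (N + 1) ≤ (n : ℝ) ^ 4 := by
        have h8 : (N : ℝ) + 1 ≤ 20 * x * (n : ℝ) ^ (1 / 4 : ℝ) := by
          have h10 : 1 ≤ x * (n : ℝ) ^ (1 / 4 : ℝ) := one_le_mul_of_one_le_of_one_le h5 hroot
          nlinarith
        calc 4 * (q : ℝ) * (N + 1) ≤ 4 * (n : ℝ) ^ 2 * (20 * x * (n : ℝ) ^ (1 / 4 : ℝ)) := by gcongr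
          _ = (n : ℝ) ^ 2 * ((80 * x) * (n : ℝ) ^ (1 / 4 : ℝ)) := by ring
          _ ≤ (n : ℝ) ^ 2 * ((n : ℝ) ^ (3 / 4 : ℝ) * (n : ℝ) ^ (1 / 4 : ℝ)) := by gcongr
          _ = (n : ℝ) ^ 3 := by
              rw [← Real.rpow_add hn0]
              norm_num
              ring
          _ ≤ (n : ℝ) ^ 4 := pow_le_pow_right₀ h6 (by norm_num)
      have h8 := Real.log_le_log (by positivity) h7
      rw [Real.log_pow, ← hx] at h8
      exact_mod_cast h8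
    have hlog0 : 0 ≤ 4 * x := by linarith
    have h13 : (n : ℝ) ^ (1 / 3 : ℝ) = (n : ℝ) ^ (1 / 12 : ℝ) * (n : ℝ) ^ (1 / 4 : ℝ) := by
      rw [← Real.rpow_add hn0]
      norm_num
    calc 8 * (m : ℝ) * N * Real.log (4 * q * (N + 1)) ≤ 8 * (m : ℝ) * N * (4 * x) := by gcongr
      _ ≤ 8 * (4 * k * x) * (10 * x * (n : ℝ) ^ (1 / 4 : ℝ)) * (4 * x) := by gcongr
      _ = k * ((1280 * x ^ 3) * (n : ℝ) ^ (1 / 4 : ℝ)) := by ring
      _ ≤ k * ((n : ℝ) ^ (1 / 12 : ℝ) * (n : ℝ) ^ (1 / 4 : ℝ)) := by gcongr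
      _ = k * (n : ℝ) ^ (1 / 3 : ℝ) := by rw [h13]

end Pool.Agent.NLS
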