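import Mathlib

/-!
# NLS-ParG: parameters for small exponents

`m = (n - 1) / 2`, `L = log q`, `n ^ ε ≤ q ≤ n`. The choice is `k = ⌊m / L⌋`, `r = ⌈q ^ (ε / 2)⌉`, `N = ⌈4 r n L / q⌉`, for `n` large
depending on `ε`.
-/

namespace Pool.Agent.NLS

open Filter

private theorem parg_e1 (ε : ℝ) (hε : 0 < ε) :
    ∀ᶠ n : ℕ in atTop, 800 * (Real.log n) ^ 3 ≤ (n : ℝ) ^ (ε / 2) := by
  have h1 := (isLittleO_log_rpow_atTop (show 0 < ε / 6 by positivity)).def
    (show (0 : ℝ) < 1 / 10 by norm_num)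
  have h2 := tendsto_natCast_atTop_atTop (R := ℝ) |>.eventually h1
  filter_upwards [h2, eventually_ge_atTop 1] with n hn hn1
  have hn0 : (0 : ℝ) < n := by exact_mod_cast hn1
  have h3 : (0 : ℝ) < (n : ℝ) ^ (ε / 6) := Real.rpow_pos_of_pos hn0 _
  rw [Real.norm_eq_abs, Real.norm_eq_abs, abs_of_pos h3] at hn
  have h4 := le_trans (le_abs_self _) hn
  have h6 : 0 ≤ Real.log n := Real.log_nonneg (by exact_mod_cast hn1)
  have h7 : (n : ℝ) ^ (ε / 2) = ((n : ℝ) ^ (ε / 6)) ^ 3 := by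
    rw [← Real.rpow_natCast, ← Real.rpow_mul hn0.le]
    congr 1
    push_cast
    ring
  rw [h7]
  have h8 : (10 * Real.log n) ^ 3 ≤ ((n : ℝ) ^ (ε / 6)) ^ 3 :=
    pow_le_pow_left₀ (by positivity) (by linarith) 3
  have h9 : (10 * Real.log n) ^ 3 = 1000 * (Real.log n) ^ 3 := by ring
  have h10 : 0 ≤ (Real.log n) ^ 3 := by positivity
  linarith

private theorem parg_e2 : ∀ᶠ n : ℕ in atTop, 16 * Real.log n ≤ n := by
  have h1 := (isLittleO_log_rpow_atTop one_pos).def (show (0 : ℝ) < 1 / 16 by norm_num)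
  have h2 := tendsto_natCast_atTop_atTop (R := ℝ) |>.eventually h1
  filter_upwards [h2, eventually_ge_atTop 1] with n hn hn1
  have hn0 : (0 : ℝ) < n := by exact_mod_cast hn1
  rw [Real.norm_eq_abs, Real.norm_eq_abs, Real.rpow_one, abs_of_pos hn0] at hn
  have h4 := le_trans (le_abs_self _) hn
  linarith

private theorem parg_e3 (c : ℝ) : ∀ᶠ n : ℕ in atTop, c < Real.log n :=
  (Real.tendsto_log_atTop.comp (tendsto_natCast_atTop_atTop (R := ℝ))).eventually_gt_atTop c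

/-- the size of `N` -/
private theorem parg_N {r n L q N A : ℝ} (hq0 : 0 < q) (hL : 1 ≤ L) (hr1 : 1 ≤ r) (hrA : r ≤ 2 * A) (hqn : q ≤ n)
    (hn : 0 < n) (hN : N < 4 * r * n * L / q + 1) : N ≤ 10 * A * (n / q) * L := by
  have hunit : 1 ≤ r * n * L / q := by
    rw [le_div_iff₀ hq0, one_mul]
    calc q ≤ n := hqn
      _ = 1 * n * 1 := by ring
      _ ≤ r * n * L := mul_le_mul (mul_le_mul_of_nonneg_right hr1 hn.le) hL (by norm_num) (by positivity)
  have h4 : 4 * r * n * L / q = 4 * (r * n * L / q) := by ring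
  have h5 : r * n * L / q ≤ (2 * A) * n * L / q := by
    have h6 : r * n * L ≤ (2 * A) * n * L :=
      mul_le_mul_of_nonneg_right (mul_le_mul_of_nonneg_right hrA hn.le) (by linarith)
    exact div_le_div_of_nonneg_right h6 hq0.le
  have h7 : (2 * A) * n * L / q = 2 * (A * (n / q) * L) := by ring
  have h8 : 10 * A * (n / q) * L = 10 * (A * (n / q) * L) := by ring
  linarith

/-- the final inequality -/
private theorem parg_fin {m n q N A L ln k ne W : ℝ} (hL : 1 ≤ L) (hm : 0 < m) (hA : 0 < A) (hq : 0 < q)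
    (hn : 0 < n) (hln : L ≤ ln) (hN : N ≤ 10 * A * (n / q) * L) (hW : W ≤ 5 * ln) (hW0 : 0 ≤ W) (hN0 : 0 ≤ N)
    (hk : m / (2 * L) ≤ k) (hne : 800 * ln ^ 3 * A ≤ ne) : 8 * m * N * W ≤ k * (n / q * ne) := by
  have hln0 : 0 < ln := by linarith
  have h1 : m ≤ 2 * L * k := by
    rw [div_le_iff₀ (by linarith)] at hk
    linarith
  have hk0 : 0 < k := by
    have : 0 < m / (2 * L) := by positivity
    linarith
  have h2 : N * W ≤ (10 * A * (n / q) * L) * (5 * ln) :=
    mul_le_mul hN hW hW0 (by positivity)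
  have h3 : 8 * m * N * W ≤ 8 * (2 * L * k) * ((10 * A * (n / q) * L) * (5 * ln)) := by
    have h4 : 8 * m * N * W = 8 * m * (N * W) := by ring
    rw [h4]
    exact mul_le_mul (by linarith) h2 (by positivity) (by positivity)
  have h5 : 8 * (2 * L * k) * ((10 * A * (n / q) * L) * (5 * ln)) = k * (n / q) * (800 * (L * L * ln) * A) := by ring
  have h6 : L * L * ln ≤ ln ^ 3 := by
    have h7 : L * L ≤ ln * ln := mul_le_mul hln hln (by linarith) hln0.le
    calc L * L * ln ≤ ln * ln * ln := mul_le_mul_of_nonneg_right h7 hln0.le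
      _ = ln ^ 3 := by ring
  have h8 : k * (n / q) * (800 * (L * L * ln) * A) ≤ k * (n / q) * ne := by
    refine mul_le_mul_of_nonneg_left (le_trans ?_ hne) (by positivity)
    exact mul_le_mul_of_nonneg_right (by linarith) hA.le
  calc 8 * m * N * W ≤ k * (n / q) * (800 * (L * L * ln) * A) := by rw [← h5]; exact h3
    _ ≤ k * (n / q) * ne := h8
    _ = k * (n / q * ne) := by ring

/-- the condition on the number of residues -/
private theorem parg_res {n q N r I A ε L : ℝ} {m f k F : ℕ} (hε : 0 < ε) (hn : 1 ≤ n) (hq0 : 0 < q)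
    (hL : L = Real.log q) (hLn : ε * Real.log n ≤ L) (hεL : 8 < ε * L) (hAexp : A = Real.exp (ε / 2 * L))
    (hrA : A ≤ r) (hN0 : 0 < N) (hN : N ≤ n ^ 2) (hF1 : 1 ≤ F) (hF2 : 16 / (ε * ε) ≤ (F : ℝ)) (hf : F ≤ f)
    (hm : 1 ≤ m) (hk : (k : ℝ) * L ≤ m) (hI0 : 0 < I) (hI : I ≤ Real.exp (ε / 8 * m * L)) :
    N ^ (m / f) * (I * q ^ k) < (r + 1) ^ m := by
  have hmR : (1 : ℝ) ≤ m := by exact_mod_cast hm
  have hL0 : 0 < L := by
    by_contra hc
    push Not at hc
    have : ε * L ≤ 0 := mul_nonpos_of_nonneg_of_nonpos hε.le hc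
    linarith
  have hln0 : 0 ≤ Real.log n := Real.log_nonneg hn
  -- first factor
  have h1 : N ^ (m / f) ≤ Real.exp (ε / 8 * m * L) := by
    have h2 : Real.log N ≤ 2 * Real.log n := by
      have h3 := Real.log_le_log hN0 hN
      rw [Real.log_pow] at h3
      exact_mod_cast h3
    have hF0 : (0 : ℝ) < F := by exact_mod_cast hF1
    have hfR : (F : ℝ) ≤ f := by exact_mod_cast hf
    have h3 : ((m / f : ℕ) : ℝ) ≤ m / F := by
      refine (Nat.cast_div_le).trans ?_
      exact div_le_div_of_nonneg_left (by positivity) hF0 hfR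
    have h4 : Real.log (N ^ (m / f)) ≤ ε / 8 * m * L := by
      rw [Real.log_pow]
      calc ((m / f : ℕ) : ℝ) * Real.log N ≤ ((m / f : ℕ) : ℝ) * (2 * Real.log n) :=
            mul_le_mul_of_nonneg_left h2 (Nat.cast_nonneg _)
        _ ≤ (m / F) * (2 * Real.log n) := mul_le_mul_of_nonneg_right h3 (by positivity)
        _ ≤ (m / F) * (2 * (L / ε)) := by
            refine mul_le_mul_of_nonneg_left ?_ (by positivity)
            have h5 : Real.log n ≤ L / ε := by
              rw [le_div_iff₀ hε]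
              linarith
            linarith
        _ = 2 / (F * ε) * (m * L) := by field_simp
        _ ≤ ε / 8 * (m * L) := by
            refine mul_le_mul_of_nonneg_right ?_ (by positivity)
            rw [div_le_div_iff₀ (by positivity) (by norm_num)]
            rw [div_le_iff₀ (by positivity)] at hF2
            nlinarith
        _ = ε / 8 * m * L := by ring
    rw [← Real.log_le_iff_le_exp (by positivity)]
    exact h4
  have h2 : q ^ k ≤ Real.exp m := by
    rw [← Real.log_le_iff_le_exp (by positivity), Real.log_pow, ← hL]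
    exact hk
  have h3 : Real.exp (ε / 2 * m * L) ≤ r ^ m := by
    have h4 : Real.exp (ε / 2 * m * L) = A ^ m := by
      rw [hAexp, ← Real.exp_nat_mul]
      congr 1
      ring
    rw [h4]
    exact pow_le_pow_left₀ (by rw [hAexp]; positivity) hrA m
  have hr0 : 0 < r := lt_of_lt_of_le (by rw [hAexp]; positivity) hrA
  have h4 : r ^ m < (r + 1) ^ m := pow_lt_pow_left₀ (by linarith) hr0.le (by omega)
  have h5 : N ^ (m / f) * (I * q ^ k) ≤ Real.exp (ε / 8 * m * L) * (Real.exp (ε / 8 * m * L) * Real.exp m) :=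
    mul_le_mul h1 (mul_le_mul hI h2 (by positivity) (by positivity)) (by positivity) (by positivity)
  have h6 : Real.exp (ε / 8 * m * L) * (Real.exp (ε / 8 * m * L) * Real.exp m) ≤ Real.exp (ε / 2 * m * L) := by
    rw [← Real.exp_add, ← Real.exp_add]
    refine Real.exp_le_exp.2 ?_
    have h7 : (m : ℝ) * 8 ≤ m * (ε * L) := mul_le_mul_of_nonneg_left hεL.le (by positivity)
    nlinarith
  linarith

theorem exists_parG (ε : ℝ) (hε : 0 < ε) (hε1 : ε ≤ 1) : ∃ (δ : ℝ) (F n0 : ℕ), 0 < δ ∧ 1 ≤ F ∧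
    ∀ (n q f : ℕ) (I : ℝ), n0 ≤ n → Odd n → (n : ℝ) ^ ε ≤ q → q ≤ n → F ≤ f → 0 < I →
    I ≤ Real.exp (δ * ((n - 1) / 2 : ℕ) * Real.log q) →
    ∃ k r N : ℕ, 1 ≤ k ∧ k ≤ (n - 1) / 2 ∧ 1 ≤ N ∧ 1 ≤ r ∧ r < q ∧
      (N : ℝ) ^ ((n - 1) / 2 / f) * (I * (q : ℝ) ^ k) < ((r : ℝ) + 1) ^ ((n - 1) / 2) ∧
      2 * ((n - 1) / 2) * r * n ≤ k * N * q ∧
      8 * (((n - 1) / 2 : ℕ) : ℝ) * N * Real.log (4 * q * (N + 1)) ≤
        k * ((n : ℝ) / q * (n : ℝ) ^ ε) := by
  have hF : ∃ F : ℕ, 1 ≤ F ∧ 16 / (ε * ε) ≤ (F : ℝ) := by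
    obtain ⟨F, hF⟩ := exists_nat_ge (16 / (ε * ε))
    exact ⟨F + 1, by omega, hF.trans (by push_cast; linarith)⟩
  obtain ⟨F, hF1, hF2⟩ := hF
  obtain ⟨n0, hn0⟩ := eventually_atTop.1
    ((parg_e1 ε hε).and (parg_e2.and ((parg_e3 (8 / (ε * ε))).and (eventually_ge_atTop 10))))
  refine ⟨ε / 8, F, n0, by positivity, hF1, fun n q f I hn hodd hq1 hq2 hf hI0 hI => ?_⟩
  obtain ⟨h1, h2, h3, h10⟩ := hn0 n hn
  obtain ⟨m', hm'⟩ := hodd
  set m : ℕ := (n - 1) / 2 with hm
  have hnm : n = 2 * m + 1 := by omega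
  have hnR : (n : ℝ) = 2 * m + 1 := by exact_mod_cast hnm
  have hn10 : (10 : ℝ) ≤ n := by exact_mod_cast h10
  have hn0R : (0 : ℝ) < n := by linarith
  have hm4' : 4 ≤ m := by omega
  have hm4 : (4 : ℝ) ≤ m := by exact_mod_cast hm4'
  have hlogn : 0 < Real.log n := Real.log_pos (by linarith)
  have hn1ε : (1 : ℝ) < (n : ℝ) ^ ε := Real.one_lt_rpow (by linarith) hε
  have hq1R : (1 : ℝ) < q := by linarith
  have hq0 : (0 : ℝ) < q := by linarith
  have hqn : (q : ℝ) ≤ n := by exact_mod_cast hq2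
  set L : ℝ := Real.log q with hL
  have hL1 : ε * Real.log n ≤ L := by
    rw [hL, ← Real.log_rpow hn0R]
    exact Real.log_le_log (by linarith) hq1
  have hL2 : L ≤ Real.log n := Real.log_le_log hq0 hqn
  have hL3 : 8 / ε < L := by
    have h4 : ε * (8 / (ε * ε)) = 8 / ε := by
      field_simp
    have h5 : ε * (8 / (ε * ε)) < ε * Real.log n := mul_lt_mul_of_pos_left h3 hε
    linarith
  have hL8 : 8 < L := by
    have h4 : 8 ≤ 8 / ε := by
      rw [le_div_iff₀ hε]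
      linarith
    linarith
  have hεL : 8 < ε * L := by
    rw [div_lt_iff₀ hε] at hL3
    linarith
  have hm2L : 2 * L ≤ m := by
    have h4 : 16 * Real.log n ≤ 2 * m + 1 := by rw [← hnR]; exact h2
    linarith
  -- the parameters
  obtain ⟨A, hA⟩ : ∃ A : ℝ, A = (q : ℝ) ^ (ε / 2) := ⟨_, rfl⟩
  have hA0 : 0 < A := by rw [hA]; exact Real.rpow_pos_of_pos hq0 _
  have hAexp : A = Real.exp (ε / 2 * L) := by
    rw [hA, hL, Real.rpow_def_of_pos hq0]
    congr 1
    ring
  have hA4 : 4 < A := by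
    have h4 := Real.add_one_le_exp (ε / 2 * L)
    rw [← hAexp] at h4
    linarith
  have hAq : A * A ≤ q := by
    have h4 : A * A = (q : ℝ) ^ ε := by
      rw [hA, ← Real.rpow_add hq0]
      congr 1
      ring
    rw [h4]
    calc (q : ℝ) ^ ε ≤ (q : ℝ) ^ (1 : ℝ) := Real.rpow_le_rpow_of_exponent_le hq1R.le hε1
      _ = q := Real.rpow_one _
  obtain ⟨k, hk⟩ : ∃ k : ℕ, k = ⌊(m : ℝ) / L⌋₊ := ⟨_, rfl⟩
  obtain ⟨r, hr⟩ : ∃ r : ℕ, r = ⌈A⌉₊ := ⟨_, rfl⟩
  obtain ⟨N, hN⟩ : ∃ N : ℕ, N = ⌈4 * (r : ℝ) * n * L / q⌉₊ := ⟨_, rfl⟩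
  have hL0 : 0 < L := by linarith
  have hkL : (k : ℝ) ≤ m / L := by
    rw [hk]
    exact Nat.floor_le (by positivity)
  have hkL2 : (k : ℝ) * L ≤ m := by
    rw [le_div_iff₀ hL0] at hkL
    exact hkL
  have hk2 : (m : ℝ) / (2 * L) ≤ k := by
    have h4 : (m : ℝ) / L < k + 1 := by
      rw [hk]
      exact Nat.lt_floor_add_one _
    have h5 : (m : ℝ) / L = 2 * (m / (2 * L)) := by field_simp
    have h6 : 1 ≤ (m : ℝ) / (2 * L) := by
      rw [le_div_iff₀ (by linarith)]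
      linarith
    linarith
  have hk0 : (0 : ℝ) < k := lt_of_lt_of_le (by positivity) hk2
  have hrA : A ≤ r := by
    rw [hr]
    exact Nat.le_ceil A
  have hrA2 : (r : ℝ) < A + 1 := by
    rw [hr]
    exact Nat.ceil_lt_add_one hA0.le
  have hr2 : (r : ℝ) ≤ 2 * A := by linarith
  have hr1 : (1 : ℝ) ≤ r := by linarith
  have hNge : 4 * (r : ℝ) * n * L / q ≤ N := by
    rw [hN]
    exact Nat.le_ceil _
  have hNlt : (N : ℝ) < 4 * (r : ℝ) * n * L / q + 1 := by
    rw [hN]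
    exact Nat.ceil_lt_add_one (by positivity)
  have hN0 : (0 : ℝ) < N := lt_of_lt_of_le (by positivity) hNge
  have hNA : (N : ℝ) ≤ 10 * A * (n / q) * L := parg_N hq0 (by linarith) hr1 hr2 hqn hn0R hNlt
  have hNn : (N : ℝ) ≤ (n : ℝ) ^ 2 := by
    have h4 : 10 * A * (n / q) * L = (n : ℝ) * (A * (10 * L)) / q := by ring
    have h5 : A * (10 * L) ≤ n * q := by
      have h6 : A ≤ q := by
        calc A ≤ A * A := by nlinarith
          _ ≤ q := hAq
      have h7 : 10 * L ≤ n := by linarith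
      calc A * (10 * L) ≤ q * n := mul_le_mul h6 h7 (by positivity) hq0.le
        _ = n * q := mul_comm _ _
    refine hNA.trans ?_
    rw [h4, div_le_iff₀ hq0]
    calc (n : ℝ) * (A * (10 * L)) ≤ n * (n * q) := mul_le_mul_of_nonneg_left h5 hn0R.le
      _ = (n : ℝ) ^ 2 * q := by ring
  refine ⟨k, r, N, ?_, ?_, ?_, ?_, ?_, ?_, ?_, ?_⟩
  · exact Nat.one_le_iff_ne_zero.2 fun h => by
      rw [h, Nat.cast_zero] at hk0
      exact lt_irrefl _ hk0
  · have h4 : (k : ℝ) ≤ m := by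
      have h5 : (k : ℝ) * 1 ≤ k * L := mul_le_mul_of_nonneg_left (by linarith) hk0.le
      linarith
    exact_mod_cast h4
  · exact Nat.one_le_iff_ne_zero.2 fun h => by
      rw [h, Nat.cast_zero] at hN0
      exact lt_irrefl _ hN0
  · exact_mod_cast hr1
  · have h4 : (r : ℝ) < q := by
      have h5 : 4 * A ≤ A * A := mul_le_mul_of_nonneg_right hA4.le hA0.le
      linarith
    exact_mod_cast h4
  · exact parg_res hε (by linarith) hq0 hL hL1 hεL hAexp hrA hN0 hNn hF1 hF2 hf (by omega) hkL2 hI0 hI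
  · have h4 : (2 * m * r * n : ℝ) ≤ k * N * q := by
      have h5 : (m : ℝ) ≤ 2 * L * k := by
        rw [div_le_iff₀ (by linarith)] at hk2
        linarith
      have h6 : 4 * (r : ℝ) * n * L ≤ N * q := by
        rw [div_le_iff₀ hq0] at hNge
        exact hNge
      calc (2 * m * r * n : ℝ) = m * (2 * r * n) := by ring
        _ ≤ (2 * L * k) * (2 * r * n) := mul_le_mul_of_nonneg_right h5 (by positivity)
        _ = k * (4 * r * n * L) := by ring
        _ ≤ k * (N * q) := mul_le_mul_of_nonneg_left h6 hk0.le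
        _ = k * N * q := by ring
    exact_mod_cast h4
  · refine parg_fin (A := A) (L := L) (ln := Real.log n) (by linarith) (by linarith) hA0 hq0 hn0R hL2 hNA ?_ ?_
      hN0.le hk2 ?_
    · have h4 : 4 * (q : ℝ) * (N + 1) ≤ (n : ℝ) ^ 5 := by
        have h6 : (1 : ℝ) ≤ (n : ℝ) ^ 2 := one_le_pow₀ (by linarith)
        have h7 : (N : ℝ) + 1 ≤ 2 * (n : ℝ) ^ 2 := by linarith
        have h8 : (8 : ℝ) ≤ (n : ℝ) ^ 2 := by nlinarith
        calc 4 * (q : ℝ) * (N + 1) ≤ 4 * n * (2 * (n : ℝ) ^ 2) :=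
              mul_le_mul (by linarith) h7 (by positivity) (by positivity)
          _ = (n : ℝ) ^ 3 * 8 := by ring
          _ ≤ (n : ℝ) ^ 3 * (n : ℝ) ^ 2 := mul_le_mul_of_nonneg_left h8 (by positivity)
          _ = (n : ℝ) ^ 5 := by ring
      have h5 := Real.log_le_log (by positivity) h4
      rw [Real.log_pow] at h5
      exact_mod_cast h5
    · refine Real.log_nonneg ?_
      have h4 : (1 : ℝ) ≤ N + 1 := by linarith
      nlinarith
    · have h4 : A ≤ (n : ℝ) ^ (ε / 2) := by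
        rw [hA]
        exact Real.rpow_le_rpow hq0.le hqn (by positivity)
      calc 800 * Real.log n ^ 3 * A ≤ (n : ℝ) ^ (ε / 2) * (n : ℝ) ^ (ε / 2) :=
            mul_le_mul h1 h4 hA0.le (by positivity)
        _ = (n : ℝ) ^ ε := by
            rw [← Real.rpow_add hn0R]
            congr 1
            ring

end Pool.Agent.NLS
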