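import Mathlib

/-!
# NLS-ParH: parameters for the count of the exponents `q ≥ n ^ ((3 + 2 √2) / 4 + ε)`

With `m = (n - 1)/2`, `L = log q`, `f g = m`: `k = ⌊m / L⌋`, `r = ⌊q n^(-3/4)⌋`,
`N = ⌈4 r n L / q⌉`, `j = min g (⌊(1 - log n / (4 L)) g⌋ + 1)`, for `n` large.
-/

namespace Pool.Agent.NLS

open Filter

private theorem parh_log {c r : ℝ} (hc : 0 < c) (hr : 0 < r) :
    ∀ᶠ x : ℝ in atTop, Real.log x ≤ c * x ^ r := by
  have h1 := (isLittleO_log_rpow_atTop hr).def hc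
  filter_upwards [h1, eventually_ge_atTop 1] with x hx hx1
  have hx0 : (0 : ℝ) < x := by linarith
  have h3 : (0 : ℝ) < x ^ r := Real.rpow_pos_of_pos hx0 _
  rw [Real.norm_eq_abs, Real.norm_eq_abs, abs_of_pos h3] at hx
  exact le_trans (le_abs_self _) hx

private theorem parh_loglog {c : ℝ} (hc : 0 < c) :
    ∀ᶠ x : ℝ in atTop, Real.log (10 * Real.log x) ≤ c * Real.log x := by
  have h1 : Tendsto (fun x : ℝ => 10 * Real.log x) atTop atTop :=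
    Real.tendsto_log_atTop.const_mul_atTop (by norm_num)
  have h2 := h1.eventually (parh_log (c := c / 10) (r := 1) (by positivity) one_pos)
  filter_upwards [h2] with x hx
  rw [Real.rpow_one] at hx
  linarith

private theorem parh_ev (ε : ℝ) (hε : 0 < ε) : ∃ X : ℝ, ∀ x : ℝ, X ≤ x →
    (8 * Real.log x + 1 ≤ x ∧ 1280 * Real.log x ^ 3 ≤ x ^ (1 / 12 : ℝ) ∧
      80 * Real.log x ≤ x ^ (3 / 4 : ℝ)) ∧
    2 + 2 * Real.log (10 * Real.log x) < ε / 2 * Real.log x ∧ 1 ≤ Real.log x ∧ 1 ≤ x := by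
  have e1 := parh_log (c := 1 / 16) (r := 1) (by norm_num) one_pos
  have e2 := parh_log (c := 1 / 16) (r := 1 / 36) (by norm_num) (by norm_num)
  have e3 := parh_log (c := 1 / 80) (r := 3 / 4) (by norm_num) (by norm_num)
  have e4 := parh_loglog (c := ε / 8) (by positivity)
  obtain ⟨C, hC⟩ : ∃ C, C = 8 / ε := ⟨_, rfl⟩
  have e5 := Real.tendsto_log_atTop.eventually (eventually_gt_atTop C)
  have e6 := Real.tendsto_log_atTop.eventually (eventually_ge_atTop (1 : ℝ))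
  obtain ⟨X, hX⟩ := eventually_atTop.1 (((e1.and e2).and (e3.and e4)).and ((e5.and e6).and
    (eventually_ge_atTop (2 : ℝ))))
  refine ⟨X, fun x hx => ?_⟩
  obtain ⟨⟨⟨h1, h2⟩, h3, h4⟩, ⟨h5, h6⟩, h7⟩ := hX x hx
  have hx0 : (0 : ℝ) < x := lt_of_lt_of_le two_pos h7
  rw [Real.rpow_one] at h1
  have h3' : 80 * Real.log x ≤ x ^ (3 / 4 : ℝ) := by
    calc 80 * Real.log x ≤ 80 * (1 / 80 * x ^ (3 / 4 : ℝ)) := mul_le_mul_of_nonneg_left h3 (by norm_num)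
      _ = x ^ (3 / 4 : ℝ) := by rw [← mul_assoc]; norm_num
  refine ⟨⟨by linarith, ?_, h3'⟩, ?_, h6, le_trans one_le_two h7⟩
  · have h8 : Real.log x ^ 3 ≤ (1 / 16 * x ^ (1 / 36 : ℝ)) ^ 3 :=
      pow_le_pow_left₀ (by linarith) h2 3
    have h9 : (1 / 16 * x ^ (1 / 36 : ℝ)) ^ 3 = 1 / 4096 * x ^ (1 / 12 : ℝ) := by
      rw [mul_pow, ← Real.rpow_natCast (x ^ (1 / 36 : ℝ)) 3, ← Real.rpow_mul hx0.le]
      norm_num
    rw [h9] at h8
    have h10 : 0 < x ^ (1 / 12 : ℝ) := Real.rpow_pos_of_pos hx0 _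
    linarith
  · rw [hC, div_lt_iff₀ hε] at h5
    linarith

private theorem parh_quad {ε x L : ℝ} (hε : 0 < ε) (hx : 0 < x)
    (hL : ((3 + 2 * Real.sqrt 2) / 4 + ε) * x ≤ L) :
    3 / 2 * x * L - x ^ 2 / 16 + ε / 2 * x * L ≤ L ^ 2 := by
  obtain ⟨s, hs⟩ : ∃ s, s = Real.sqrt 2 := ⟨_, rfl⟩
  rw [← hs] at hL
  have hs2 : s ^ 2 = 2 := by rw [hs]; exact Real.sq_sqrt (by norm_num)
  have hs0 : 0 ≤ s := by rw [hs]; exact Real.sqrt_nonneg _
  have hs1 : 1 ≤ s := by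
    rw [hs, Real.one_le_sqrt]
    norm_num
  obtain ⟨u, hu⟩ : ∃ u, u = L - (3 + 2 * s) / 4 * x := ⟨_, rfl⟩
  have hu1 : ε * x ≤ u := by rw [hu]; linarith
  have hu0 : 0 < u := lt_of_lt_of_le (by positivity) hu1
  have hLu : L = u + (3 + 2 * s) / 4 * x := by rw [hu]; ring
  have hid : L ^ 2 - 3 / 2 * x * L + x ^ 2 / 16 = u * (u + s * x) := by
    rw [hLu]
    have : ((3 + 2 * s) / 4 * x) ^ 2 - 3 / 2 * x * ((3 + 2 * s) / 4 * x) + x ^ 2 / 16 = 0 := by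
      have h : (3 + 2 * s) ^ 2 / 16 - 3 / 8 * (3 + 2 * s) + 1 / 16 = 0 := by
        linear_combination (1 / 4) * hs2
      calc ((3 + 2 * s) / 4 * x) ^ 2 - 3 / 2 * x * ((3 + 2 * s) / 4 * x) + x ^ 2 / 16
          = ((3 + 2 * s) ^ 2 / 16 - 3 / 8 * (3 + 2 * s) + 1 / 16) * x ^ 2 := by ring
        _ = 0 := by rw [h, zero_mul]
    have h2 : (u + (3 + 2 * s) / 4 * x) ^ 2 - 3 / 2 * x * (u + (3 + 2 * s) / 4 * x) + x ^ 2 / 16
        = u ^ 2 + u * (s * x) + (((3 + 2 * s) / 4 * x) ^ 2 - 3 / 2 * x * ((3 + 2 * s) / 4 * x)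
          + x ^ 2 / 16) := by ring
    rw [h2, this]
    ring
  have h3 : ε * x * (u + s * x) ≤ u * (u + s * x) := by
    have : 0 ≤ u + s * x := by positivity
    exact mul_le_mul_of_nonneg_right hu1 this
  have h4 : ε / 2 * x * L ≤ ε * x * (u + s * x) := by
    rw [hLu]
    have : (u + (3 + 2 * s) / 4 * x) / 2 ≤ u + s * x := by
      have h5 : 0 ≤ (6 * s - 3) * x := mul_nonneg (by linarith) hx.le
      linarith
    have hex : 0 ≤ ε * x := by positivity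
    calc ε / 2 * x * (u + (3 + 2 * s) / 4 * x) = ε * x * ((u + (3 + 2 * s) / 4 * x) / 2) := by ring
      _ ≤ ε * x * (u + s * x) := mul_le_mul_of_nonneg_left this hex
  linarith

theorem exists_parH (ε : ℝ) (hε : 0 < ε) : ∃ n0 : ℕ, ∀ (n q f : ℕ) (I : ℝ),
    n0 ≤ n → Odd n → (n : ℝ) ^ ((3 + 2 * Real.sqrt 2) / 4 + ε) ≤ q → (q : ℝ) ≤ (n : ℝ) ^ 2 →
    0 < I → 1 ≤ f → f ∣ (n - 1) / 2 →
    I ≤ Real.exp (1 / 2 * ((n - 1) / 2 : ℕ) * Real.log n) →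
    ∃ k r N j : ℕ, 1 ≤ k ∧ k ≤ (n - 1) / 2 ∧ 1 ≤ r ∧ 1 ≤ N ∧
      j * f ≤ (n - 1) / 2 ∧ (n * r ^ 2) ^ ((n - 1) / 2) < q ^ (2 * (f * j)) ∧
      (N : ℝ) ^ j * (I * (q : ℝ) ^ k) < ((r : ℝ) + 1) ^ ((n - 1) / 2) ∧
      2 * ((n - 1) / 2) * r * n ≤ k * N * q ∧
      8 * (((n - 1) / 2 : ℕ) : ℝ) * N * Real.log (4 * q * (N + 1)) ≤ k * (n : ℝ) ^ (1 / 3 : ℝ) := by
  obtain ⟨X, hX⟩ := parh_ev ε hε
  refine ⟨⌈X⌉₊, ?_⟩
  intro n q f I hn hodd hnq hq hI hf hfd hIb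
  obtain ⟨⟨h1, h2, h3⟩, h4, h5, h6⟩ := hX n (Nat.ceil_le.1 hn)
  obtain ⟨m, hm⟩ : ∃ m, m = (n - 1) / 2 := ⟨_, rfl⟩
  have hnm : n = 2 * m + 1 := by
    obtain ⟨t, ht⟩ := hodd
    omega
  rw [← hm] at hfd hIb ⊢
  obtain ⟨x, hx⟩ : ∃ x, x = Real.log n := ⟨_, rfl⟩
  rw [← hx] at h1 h2 h3 h4 h5 hIb
  obtain ⟨L, hL⟩ : ∃ L, L = Real.log q := ⟨_, rfl⟩
  have hn0 : (0 : ℝ) < n := by linarith
  have hx0 : 0 < x := by linarith
  have hpow : (0 : ℝ) < (n : ℝ) ^ ((3 + 2 * Real.sqrt 2) / 4 + ε) := Real.rpow_pos_of_pos hn0 _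
  have hq0 : (0 : ℝ) < q := lt_of_lt_of_le hpow hnq
  have hLc : ((3 + 2 * Real.sqrt 2) / 4 + ε) * x ≤ L := by
    have h7 := Real.log_le_log hpow hnq
    rwa [Real.log_rpow hn0, ← hx, ← hL] at h7
  have hL1 : x ≤ L := by
    have h7 : (1 : ℝ) ≤ (3 + 2 * Real.sqrt 2) / 4 + ε := by
      have h8 : (1 : ℝ) ≤ Real.sqrt 2 := by
        rw [Real.one_le_sqrt]
        norm_num
      linarith
    have h8 := mul_le_mul_of_nonneg_right h7 hx0.le
    linarith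
  have hL2 : L ≤ 2 * x := by
    rw [hx, hL]
    calc Real.log q ≤ Real.log ((n : ℝ) ^ 2) := Real.log_le_log hq0 hq
      _ = 2 * Real.log n := by rw [Real.log_pow]; norm_num
  have hL0 : 0 < L := by linarith
  have hquad := parh_quad hε hx0 hLc
  have hnmr : (n : ℝ) = 2 * m + 1 := by rw [hnm]; push_cast; ring
  have hmx : 4 * x ≤ m := by
    rw [hnmr] at h1
    linarith
  have hm0 : (4 : ℝ) ≤ m := by linarith
  have hm1 : 1 ≤ m := by
    have : (1 : ℝ) ≤ m := by linarith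
    exact_mod_cast this
  obtain ⟨g, hg⟩ := hfd
  -- the parameters
  obtain ⟨k, hk⟩ : ∃ k, k = ⌊(m : ℝ) / L⌋₊ := ⟨_, rfl⟩
  obtain ⟨r, hr⟩ : ∃ r, r = ⌊(q : ℝ) * (n : ℝ) ^ (-(3 / 4) : ℝ)⌋₊ := ⟨_, rfl⟩
  obtain ⟨N, hN⟩ : ∃ N, N = ⌈4 * (r : ℝ) * n * L / q⌉₊ := ⟨_, rfl⟩
  obtain ⟨θ, hθ⟩ : ∃ θ, θ = 1 - x / (4 * L) := ⟨_, rfl⟩
  obtain ⟨j, hj⟩ : ∃ j, j = min g (⌊θ * g⌋₊ + 1) := ⟨_, rfl⟩
  have hθL : θ * L = L - x / 4 := by
    rw [hθ]
    field_simp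
  have hθ1 : θ < 1 := by
    rw [hθ]
    have : 0 < x / (4 * L) := by positivity
    linarith
  have hθ0 : 0 ≤ θ := by
    by_contra hcon
    have h7 : θ * L < 0 := mul_neg_of_neg_of_pos (not_le.1 hcon) hL0
    linarith
  have hkle : (k : ℝ) ≤ m / L := by
    rw [hk]
    exact Nat.floor_le (by positivity)
  have hkge : (m : ℝ) / (2 * L) ≤ k := by
    have h7 : (m : ℝ) / L < k + 1 := by
      rw [hk]
      exact Nat.lt_floor_add_one _
    have h8 : 1 ≤ (m : ℝ) / (2 * L) := by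
      rw [le_div_iff₀ (by positivity)]
      linarith
    have h9 : (m : ℝ) / L = 2 * (m / (2 * L)) := by
      field_simp
    rw [h9] at h7
    linarith
  have hk1 : 1 ≤ k := by
    have h8 : 1 ≤ (m : ℝ) / (2 * L) := by
      rw [le_div_iff₀ (by positivity)]
      linarith
    have : (1 : ℝ) ≤ k := le_trans h8 hkge
    exact_mod_cast this
  have hkL : (k : ℝ) * L ≤ m := by
    rwa [le_div_iff₀ hL0] at hkle
  have hmk : (m : ℝ) ≤ 4 * k * x := by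
    rw [div_le_iff₀ (by positivity)] at hkge
    have hk0 : (0 : ℝ) < k := by exact_mod_cast hk1
    nlinarith
  have hroot : (1 : ℝ) ≤ (n : ℝ) ^ (1 / 4 : ℝ) := Real.one_le_rpow h6 (by norm_num)
  have hinv : (n : ℝ) ^ (-(3 / 4) : ℝ) * n = (n : ℝ) ^ (1 / 4 : ℝ) := by
    have h7 := Real.rpow_add hn0 (-(3 / 4)) 1
    rw [Real.rpow_one] at h7
    rw [← h7]
    norm_num
  have hinv0 : (0 : ℝ) < (n : ℝ) ^ (-(3 / 4) : ℝ) := Real.rpow_pos_of_pos hn0 _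
  have hlinv : Real.log ((q : ℝ) * (n : ℝ) ^ (-(3 / 4) : ℝ)) = L - 3 / 4 * x := by
    rw [Real.log_mul hq0.ne' hinv0.ne', Real.log_rpow hn0, ← hx, ← hL]
    ring
  have hqinv : (1 : ℝ) ≤ (q : ℝ) * (n : ℝ) ^ (-(3 / 4) : ℝ) := by
    have h7 : 0 ≤ Real.log ((q : ℝ) * (n : ℝ) ^ (-(3 / 4) : ℝ)) := by
      rw [hlinv]
      linarith
    by_contra hcon
    have h8 := Real.log_neg (mul_pos hq0 hinv0) (not_le.1 hcon)
    linarith
  have hr1 : 1 ≤ r := by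
    rw [hr]
    exact Nat.le_floor (by exact_mod_cast hqinv)
  have hr0 : (0 : ℝ) < r := by exact_mod_cast hr1
  have hrle : (r : ℝ) ≤ (q : ℝ) * (n : ℝ) ^ (-(3 / 4) : ℝ) := by
    rw [hr]
    exact Nat.floor_le (by positivity)
  have hrlt : (q : ℝ) * (n : ℝ) ^ (-(3 / 4) : ℝ) < r + 1 := by
    rw [hr]
    exact Nat.lt_floor_add_one _
  have hlogr : Real.log r ≤ L - 3 / 4 * x := by
    rw [← hlinv]
    exact Real.log_le_log hr0 hrle
  have hNpos : 0 < 4 * (r : ℝ) * n * L / q := by positivity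
  have hN1 : 1 ≤ N := by
    rw [hN]
    exact Nat.ceil_pos.2 hNpos
  have hNge : 4 * (r : ℝ) * n * L ≤ N * q := by
    have h7 : 4 * (r : ℝ) * n * L / q ≤ N := by
      rw [hN]
      exact Nat.le_ceil _
    rwa [div_le_iff₀ hq0] at h7
  have hNle : (N : ℝ) ≤ 10 * x * (n : ℝ) ^ (1 / 4 : ℝ) := by
    have h7 : (N : ℝ) < 4 * (r : ℝ) * n * L / q + 1 := by
      rw [hN]
      exact Nat.ceil_lt_add_one hNpos.le
    have h8 : 4 * (r : ℝ) * n * L / q ≤ 4 * (n : ℝ) ^ (1 / 4 : ℝ) * L := by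
      rw [div_le_iff₀ hq0]
      calc 4 * (r : ℝ) * n * L
          ≤ 4 * ((q : ℝ) * (n : ℝ) ^ (-(3 / 4) : ℝ)) * n * L := by gcongr
        _ = 4 * ((n : ℝ) ^ (-(3 / 4) : ℝ) * n) * L * q := by ring
        _ = 4 * (n : ℝ) ^ (1 / 4 : ℝ) * L * q := by rw [hinv]
    have h9 : 4 * (n : ℝ) ^ (1 / 4 : ℝ) * L ≤ 8 * x * (n : ℝ) ^ (1 / 4 : ℝ) := by
      calc 4 * (n : ℝ) ^ (1 / 4 : ℝ) * L ≤ 4 * (n : ℝ) ^ (1 / 4 : ℝ) * (2 * x) := by gcongr
        _ = 8 * x * (n : ℝ) ^ (1 / 4 : ℝ) := by ring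
    have h10 : 1 ≤ x * (n : ℝ) ^ (1 / 4 : ℝ) := one_le_mul_of_one_le_of_one_le h5 hroot
    nlinarith
  have hN0 : (0 : ℝ) < N := by exact_mod_cast hN1
  have hjg : j ≤ g := by rw [hj]; exact min_le_left _ _
  have hf0 : (0 : ℝ) < f := by exact_mod_cast hf
  have hmfg : (m : ℝ) = f * g := by rw [hg]; push_cast; ring
  have hjlt : θ * m < f * j := by
    rcases le_total g (⌊θ * g⌋₊ + 1) with h | h
    · rw [hj, min_eq_left h, ← hmfg]
      have h7 : θ * (m : ℝ) < 1 * m := mul_lt_mul_of_pos_right hθ1 (by linarith)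
      linarith
    · rw [hj, min_eq_right h, hmfg]
      have h7 : θ * (g : ℝ) < ((⌊θ * g⌋₊ + 1 : ℕ) : ℝ) := by
        push_cast
        exact Nat.lt_floor_add_one _
      calc θ * (f * g) = f * (θ * g) := by ring
        _ < f * ((⌊θ * g⌋₊ + 1 : ℕ) : ℝ) := mul_lt_mul_of_pos_left h7 hf0
  have hjle : (j : ℝ) ≤ θ * m + 1 := by
    have h7 : (j : ℝ) ≤ (⌊θ * g⌋₊ : ℝ) + 1 := by
      have h8 : j ≤ ⌊θ * g⌋₊ + 1 := by rw [hj]; exact min_le_right _ _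
      exact_mod_cast h8
    have h8 : g ≤ m := by
      rw [hg]
      exact Nat.le_mul_of_pos_left g hf
    have h9 : (⌊θ * g⌋₊ : ℝ) ≤ θ * g := Nat.floor_le (by positivity)
    have h10 : (g : ℝ) ≤ m := by exact_mod_cast h8
    have h11 : θ * (g : ℝ) ≤ θ * m := mul_le_mul_of_nonneg_left h10 hθ0
    linarith
  refine ⟨k, r, N, j, hk1, ?_, hr1, hN1, ?_, ?_, ?_, ?_, ?_⟩
  · have h7 : (k : ℝ) ≤ m := by
      have hk0 : (0 : ℝ) ≤ k := by positivity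
      nlinarith
    exact_mod_cast h7
  · rw [hg]
    calc j * f ≤ g * f := Nat.mul_le_mul_right f hjg
      _ = f * g := Nat.mul_comm _ _
  · have h7 : ((n : ℝ) * (r : ℝ) ^ 2) ^ m < (q : ℝ) ^ (2 * (f * j)) := by
      rw [← Real.log_lt_log_iff (by positivity) (by positivity), Real.log_pow, Real.log_pow,
        Real.log_mul hn0.ne' (by positivity), Real.log_pow, ← hx, ← hL]
      have hmpos : (0 : ℝ) < m := by linarith
      have h8 : (m : ℝ) * (x + (2 : ℕ) * Real.log r) ≤ m * (2 * (θ * L)) := by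
        rw [hθL]
        apply mul_le_mul_of_nonneg_left _ hmpos.le
        push_cast
        linarith
      have h9 : (m : ℝ) * (2 * (θ * L)) < ((2 * (f * j) : ℕ) : ℝ) * L := by
        push_cast
        have h10 : θ * m * (2 * L) < f * j * (2 * L) := mul_lt_mul_of_pos_right hjlt (by positivity)
        linarith
      exact lt_of_le_of_lt h8 h9
    exact_mod_cast h7
  · have hposL : 0 < (N : ℝ) ^ j * (I * (q : ℝ) ^ k) := by positivity
    have hposR : 0 < ((r : ℝ) + 1) ^ m := by positivity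
    rw [← Real.log_lt_log_iff hposL hposR, Real.log_mul (by positivity) (by positivity),
      Real.log_mul hI.ne' (by positivity), Real.log_pow, Real.log_pow, Real.log_pow, ← hL]
    have hlI : Real.log I ≤ 1 / 2 * m * x := by
      rw [Real.log_le_iff_le_exp hI]
      exact hIb
    have hlr : L - 3 / 4 * x < Real.log (r + 1) := by
      have h7 := Real.log_lt_log (by positivity) hrlt
      rwa [hlinv] at h7
    have hlN : Real.log N ≤ Real.log (10 * x) + 1 / 4 * x := by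
      have h7 := Real.log_le_log hN0 hNle
      rwa [Real.log_mul (by positivity) (by positivity), Real.log_rpow hn0, ← hx] at h7
    have hy0 : 0 ≤ Real.log (10 * x) := Real.log_nonneg (by linarith)
    have hly : 0 ≤ Real.log (10 * x) + 1 / 4 * x := by linarith
    obtain ⟨y, hy⟩ : ∃ y, y = Real.log (10 * x) := ⟨_, rfl⟩
    rw [← hy] at hlN hy0 hly h4
    have hmpos : (0 : ℝ) < m := by linarith
    have h8 : (j : ℝ) * Real.log N ≤ (θ * m + 1) * (y + 1 / 4 * x) := by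
      calc (j : ℝ) * Real.log N ≤ j * (y + 1 / 4 * x) := by gcongr
        _ ≤ (θ * m + 1) * (y + 1 / 4 * x) := by gcongr
    have h9 : (m : ℝ) * (L - 3 / 4 * x) < m * Real.log (r + 1) :=
      mul_lt_mul_of_pos_left hlr hmpos
    have h10 : (m : ℝ) * (2 + 2 * y) < m * (ε / 2 * x) := mul_lt_mul_of_pos_left h4 hmpos
    -- the main inequality
    have h11 : θ * (1 / 4 * x) + 5 / 4 * x + ε / 2 * x ≤ L := by
      have h12 : (θ * (1 / 4 * x) + 5 / 4 * x + ε / 2 * x) * L ≤ L * L := by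
        calc (θ * (1 / 4 * x) + 5 / 4 * x + ε / 2 * x) * L
            = θ * L * (1 / 4 * x) + 5 / 4 * x * L + ε / 2 * x * L := by ring
          _ = 3 / 2 * x * L - x ^ 2 / 16 + ε / 2 * x * L := by rw [hθL]; ring
          _ ≤ L * L := by rw [← pow_two]; exact hquad
      exact le_of_mul_le_mul_right h12 hL0
    have h12 : (m : ℝ) * (θ * (1 / 4 * x) + 5 / 4 * x + ε / 2 * x) ≤ m * L :=
      mul_le_mul_of_nonneg_left h11 hmpos.le
    have h13 : θ * (m * y) ≤ 1 * (m * y) :=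
      mul_le_mul_of_nonneg_right hθ1.le (mul_nonneg hmpos.le hy0)
    have h14 : 1 * y ≤ m * y := mul_le_mul_of_nonneg_right (by linarith) hy0
    have h15 : 1 / 4 * x ≤ m := by linarith
    linarith
  · have h7 : (2 : ℝ) * m * r * n ≤ k * N * q := by
      have h8 : (m : ℝ) ≤ k * (2 * L) := by
        rwa [div_le_iff₀ (by positivity)] at hkge
      calc (2 : ℝ) * m * r * n ≤ 2 * (k * (2 * L)) * r * n := by gcongr
        _ = k * (4 * (r : ℝ) * n * L) := by ring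
        _ ≤ k * (N * q) := by gcongr
        _ = k * N * q := by ring
    exact_mod_cast h7
  · have hlog : Real.log (4 * q * (N + 1)) ≤ 4 * x := by
      have h7 : 4 * (q : ℝ) * (N + 1) ≤ (n : ℝ) ^ 4 := by
        have h8 : (N : ℝ) + 1 ≤ 20 * x * (n : ℝ) ^ (1 / 4 : ℝ) := by
          have h10 : 1 ≤ x * (n : ℝ) ^ (1 / 4 : ℝ) := one_le_mul_of_one_le_of_one_le h5 hroot
          nlinarith
        calc 4 * (q : ℝ) * (N + 1) ≤ 4 * (n : ℝ) ^ 2 * (20 * x * (n : ℝ) ^ (1 / 4 : ℝ)) := by gcongr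
          _ = (n : ℝ) ^ 2 * ((80 * x) * (n : ℝ) ^ (1 / 4 : ℝ)) := by ring
          _ ≤ (n : ℝ) ^ 2 * ((n : ℝ) ^ (3 / 4 : ℝ) * (n : ℝ) ^ (1 / 4 : ℝ)) := by gcongr
          _ = (n : ℝ) ^ 3 := by
              rw [← Real.rpow_add hn0]
              norm_num
              ring
          _ ≤ (n : ℝ) ^ 4 := pow_le_pow_right₀ h6 (by norm_num)
      have h8 := Real.log_le_log (by positivity) h7
      rw [Real.log_pow, ← hx] at h8
      exact_mod_cast h8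
    have hlog0 : 0 ≤ 4 * x := by linarith
    have h13 : (n : ℝ) ^ (1 / 3 : ℝ) = (n : ℝ) ^ (1 / 12 : ℝ) * (n : ℝ) ^ (1 / 4 : ℝ) := by
      rw [← Real.rpow_add hn0]
      norm_num
    calc 8 * (m : ℝ) * N * Real.log (4 * q * (N + 1)) ≤ 8 * (m : ℝ) * N * (4 * x) := by gcongr
      _ ≤ 8 * (4 * k * x) * (10 * x * (n : ℝ) ^ (1 / 4 : ℝ)) * (4 * x) := by gcongr
      _ = k * ((1280 * x ^ 3) * (n : ℝ) ^ (1 / 4 : ℝ)) := by ring
      _ ≤ k * ((n : ℝ) ^ (1 / 12 : ℝ) * (n : ℝ) ^ (1 / 4 : ℝ)) := by gcongr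
      _ = k * (n : ℝ) ^ (1 / 3 : ℝ) := by rw [h13]

end Pool.Agent.NLS
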