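import Pool.Agent.NLS.Defs

/-!
# NLS-Prs: the prime ideals over `q`

The primes of `𝓞 K` over `q` are unramified and have inertia degree the order of `q` modulo `n`.
-/

open NumberField Finset
open Pool.Agent.AAP Pool.Agent.Helper7.HU

namespace Pool.Agent.NLS

theorem exists_primes (n : ℕ) [Fact n.Prime] (K : Type) [Field K] [NumberField K]
    [IsCyclotomicExtension {n} ℚ K] {q : ℕ} (hq : q.Prime) (hqn : q ≠ n) :
    ∃ P : Finset (Ideal (𝓞 K)), (∀ p ∈ P, p.IsMaximal) ∧
      (∀ p ∈ P, (q : 𝓞 K) ∈ p) ∧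
      (∀ z : 𝓞 K, (∀ p ∈ P, z ∈ p) → z ∈ Ideal.span {(q : 𝓞 K)}) ∧
      P.card * orderOf (q : ZMod n) ≤ n - 1 := by
  classical
  have hfq : Fact q.Prime := ⟨hq⟩
  have hn : n.Prime := Fact.out
  have hndvd : ¬ q ∣ n := fun h => hqn ((Nat.prime_dvd_prime_iff_eq hq hn).1 h)
  have hgal : IsGalois ℚ K := IsCyclotomicExtension.isGalois {n} ℚ K
  have hq0 : (Ideal.span {(q : ℤ)}) ≠ ⊥ := by
    simpa using hq.ne_zero
  have hmax : (Ideal.span {(q : ℤ)}).IsMaximal :=
    Int.ideal_span_isMaximal_of_prime q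
  have hfin : (Ideal.primesOver (Ideal.span {(q : ℤ)}) (𝓞 K)).Finite :=
    Algebra.QuasiFinite.finite_primesOver _
  refine ⟨hfin.toFinset, ?_, ?_, ?_, ?_⟩
  · intro p hp
    rw [Set.Finite.mem_toFinset] at hp
    obtain ⟨h1, h2⟩ := hp
    exact Ideal.IsMaximal.of_liesOver_isMaximal p (Ideal.span {(q : ℤ)})
  · intro p hp
    rw [Set.Finite.mem_toFinset] at hp
    obtain ⟨h1, h2⟩ := hp
    have h3 : (q : ℤ) ∈ p.under ℤ := by
      rw [← h2.over]
      exact Ideal.mem_span_singleton_self _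
    have h4 := Ideal.mem_comap.1 h3
    simpa using h4
  · intro z hz
    have h1 := Ideal.map_algebraMap_eq_finsetProd_pow (R := 𝓞 K) (p := Ideal.span {(q : ℤ)}) hq0
    have h2 : Ideal.map (algebraMap ℤ (𝓞 K)) (Ideal.span {(q : ℤ)}) =
        Ideal.span {(q : 𝓞 K)} := by
      rw [Ideal.map_span, Set.image_singleton]
      simp
    rw [h2] at h1
    have h3 : Ideal.span {(q : 𝓞 K)} ∣ Ideal.span {z} := by
      rw [h1]
      have h4 : ∀ p ∈ Ideal.primesOver (Ideal.span {(q : ℤ)}) (𝓞 K),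
          Ideal.ramificationIdx p ℤ = 1 := by
        intro p hp
        obtain ⟨h5, h6⟩ := hp
        exact IsCyclotomicExtension.Rat.ramificationIdx_eq_of_not_dvd q K p hndvd
      rw [Finset.prod_congr rfl (g := fun p => p) fun p hp => by
        rw [h4 p (by simpa using hp), pow_one]]
      refine Finset.prod_primes_dvd _ ?_ ?_
      · intro p hp
        have h5 : p ∈ Ideal.primesOver (Ideal.span {(q : ℤ)}) (𝓞 K) := by simpa using hp
        obtain ⟨h6, h7⟩ := h5
        refine Ideal.prime_of_isPrime ?_ h6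
        exact Ideal.ne_bot_of_liesOver_of_ne_bot hq0 p
      · intro p hp
        rw [Ideal.dvd_span_singleton]
        apply hz
        rw [Set.Finite.mem_toFinset]
        simpa using hp
    rw [Ideal.dvd_span_singleton] at h3
    exact h3
  · have h1 := Ideal.ncard_primesOver_mul_ramificationIdxIn_mul_inertiaDegIn
      (Ideal.span {(q : ℤ)}) (𝓞 K) Gal(K/ℚ)
    rw [IsCyclotomicExtension.Rat.inertiaDegIn_eq_of_not_dvd q K hndvd,
      IsCyclotomicExtension.Rat.ramificationIdxIn_eq_of_not_dvd q K hndvd, one_mul] at h1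
    rw [← Set.ncard_eq_toFinset_card _ hfin, h1]
    rw [IsGaloisGroup.card_eq_finrank Gal(K/ℚ) ℚ K,
      IsCyclotomicExtension.finrank K (Polynomial.cyclotomic.irreducible_rat hn.pos),
      Nat.totient_prime hn]

end Pool.Agent.NLS
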