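import Pool.Agent.NLS.Cop
import Pool.Agent.AAP.StickAll

/-!
# NLS-Rows: the Stickelberger relations

The Stickelberger element for `2` annihilates the class of the `q`-th root of the ideal of `lin 1`; the
relations for `b` and `-b` show that the product of the `al e` with the exponents `M n b e` is a unit
times a `q`-th power.
-/

open NumberField Finset Pointwise
open Pool.Agent.AAP Pool.Agent.Helper7.HU

namespace Pool.Agent.NLS

variable {n : ℕ} [Fact n.Prime] {K : Type} [Field K] [NumberField K] [IsCyclotomicExtension {n} ℚ K]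
  {q x y : ℕ}

private lemma rows_fl (a : (ZMod n)ˣ) : fl 2 n a = if a ∈ H n then 0 else 1 := by
  have h1 : (a : ZMod n).val < n := ZMod.val_lt _
  unfold fl
  by_cases h : a ∈ H n
  · rw [if_pos h]
    exact Nat.div_eq_of_lt ((mem_H n a).1 h)
  · rw [if_neg h]
    rw [mem_H, not_lt] at h
    exact Nat.div_eq_of_lt_le (by omega) (by omega)

/-- odd functions: the products over the half system -/
private lemma rows_bij {E : Type} [Field E] (hn2 : n ≠ 2) (f : (ZMod n)ˣ → E)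
    (hf : ∀ c, f (-c) = (f c)⁻¹) (b : (ZMod n)ˣ) :
    ∏ c ∈ H n, f (b * c⁻¹) = ∏ e : H n, f e ^ sg n (b * (e : (ZMod n)ˣ)⁻¹) := by
  classical
  rw [Finset.prod_coe_sort (H n) (fun e => f e ^ sg n (b * e⁻¹))]
  have hmem : ∀ c ∈ H n, (if b * c⁻¹ ∈ H n then b * c⁻¹ else -(b * c⁻¹)) ∈ H n := by
    intro c _
    by_cases h : b * c⁻¹ ∈ H n
    · rwa [if_pos h]
    · rw [if_neg h]
      exact (neg_mem_H n hn2 _).2 h
  have hneg : ∀ c ∈ H n, -c ∉ H n := fun c hc h => (neg_mem_H n hn2 c).1 h hc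
  have hinv : ∀ c ∈ H n,
      (if b * (if b * c⁻¹ ∈ H n then b * c⁻¹ else -(b * c⁻¹))⁻¹ ∈ H n then
        b * (if b * c⁻¹ ∈ H n then b * c⁻¹ else -(b * c⁻¹))⁻¹
      else -(b * (if b * c⁻¹ ∈ H n then b * c⁻¹ else -(b * c⁻¹))⁻¹)) = c := by
    intro c hc
    by_cases h : b * c⁻¹ ∈ H n
    · rw [if_pos h]
      have e : b * (b * c⁻¹)⁻¹ = c := by rw [mul_inv, inv_inv, mul_inv_cancel_left]
      rw [e, if_pos hc]
    · rw [if_neg h]
      have e : b * (-(b * c⁻¹))⁻¹ = -c := by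
        rw [_root_.inv_neg, mul_neg, mul_inv, inv_inv, mul_inv_cancel_left]
      rw [e, if_neg (hneg c hc), neg_neg]
  refine Finset.prod_nbij' (fun c => if b * c⁻¹ ∈ H n then b * c⁻¹ else -(b * c⁻¹))
    (fun c => if b * c⁻¹ ∈ H n then b * c⁻¹ else -(b * c⁻¹)) hmem hmem hinv hinv ?_
  intro c hc
  by_cases h : b * c⁻¹ ∈ H n
  · have e : b * (b * c⁻¹)⁻¹ = c := by rw [mul_inv, inv_inv, mul_inv_cancel_left]
    simp only [if_pos h]
    rw [e, sg, if_pos hc, zpow_one]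
  · have e : b * (-(b * c⁻¹))⁻¹ = -c := by
      rw [_root_.inv_neg, mul_neg, mul_inv, inv_inv, mul_inv_cancel_left]
    simp only [if_neg h]
    rw [e, sg, if_neg (hneg c hc), zpow_neg_one, hf, inv_inv]

private lemma rows_smul_span (g : Gal(K/ℚ)) (z : 𝓞 K) :
    (g • Ideal.span {z} : Ideal (𝓞 K)) = Ideal.span {g • z} := by
  rw [Ideal.pointwise_smul_def, Ideal.map_span, Set.image_singleton]
  rfl

private lemma rows_assoc {I : Ideal (𝓞 K)} (hI : I ^ q = Ideal.span {lin n K x 1}) {γ : 𝓞 K}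
    (hγ : (∏ a : (ZMod n)ˣ, ((gq n K).symm a⁻¹ • I) ^ fl 2 n a) = Ideal.span {γ})
    (c : (ZMod n)ˣ) : Associated (((gq n K).symm c • γ) ^ q)
      (∏ a : (ZMod n)ˣ, lin n K x (c * a⁻¹) ^ fl 2 n a) := by
  rw [← Ideal.span_singleton_eq_span_singleton, ← Ideal.span_singleton_pow, ← rows_smul_span,
    ← hγ, Finset.smul_prod', ← Finset.prod_pow, ← Ideal.prod_span_singleton]
  refine Finset.prod_congr rfl fun a _ => ?_
  have e : ((gq n K).symm c • ((gq n K).symm a⁻¹ • I)) ^ q =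
      Ideal.span {lin n K x (c * a⁻¹)} := by
    rw [← smul_pow', ← smul_pow', hI, rows_smul_span, rows_smul_span, smul_lin, smul_lin,
      MulEquiv.apply_symm_apply, MulEquiv.apply_symm_apply, mul_one]
  rw [smul_pow', ← pow_mul, mul_comm, pow_mul, e, Ideal.span_singleton_pow]

theorem rows_unit (S : Sol n q x y) (b : H n) : ∃ (g : K) (u : (𝓞 K)ˣ), g ≠ 0 ∧
    pr n K x (fun e => M n b e) = ((u : 𝓞 K) : K) * g ^ q := by
  have hn5 := S.hn5
  have hn2 : n ≠ 2 := by omega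
  have hq0 : q ≠ 0 := S.hq.ne_zero
  have hcop : Nat.Coprime 2 n := by
    rw [Nat.coprime_primes Nat.prime_two S.hn]
    exact hn2.symm
  obtain ⟨I, hI⟩ := exists_root (K := K) S 1
  have hI0 : I ≠ ⊥ := by
    rintro rfl
    have h1 : (⊥ : Ideal (𝓞 K)) ^ q = ⊥ := zero_pow hq0
    rw [h1, eq_comm, Ideal.span_singleton_eq_bot] at hI
    exact lin_ne_zero S.hx 1 hI
  obtain ⟨γ, hγ⟩ := stickAll n 2 (by omega) one_lt_two (by omega) hcop K I hI0
  have hγ' : (∏ a : (ZMod n)ˣ, ((gq n K).symm a⁻¹ • I) ^ fl 2 n a) = Ideal.span {γ} := hγ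
  obtain ⟨u₁, hu₁⟩ := rows_assoc hI hγ' (b : (ZMod n)ˣ)
  obtain ⟨u₂, hu₂⟩ := rows_assoc hI hγ' (-(b : (ZMod n)ˣ))
  have hL : ∀ c : (ZMod n)ˣ, (∏ a : (ZMod n)ˣ, lin n K x (c * a⁻¹) ^ fl 2 n a) ≠ 0 := fun c =>
    Finset.prod_ne_zero_iff.2 fun a _ => pow_ne_zero _ (lin_ne_zero S.hx _)
  set g₁ : 𝓞 K := (gq n K).symm (b : (ZMod n)ˣ) • γ with hg₁
  set g₂ : 𝓞 K := (gq n K).symm (-(b : (ZMod n)ˣ)) • γ with hg₂
  have hg₁0 : g₁ ≠ 0 := by
    intro h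
    rw [h, zero_pow hq0, zero_mul] at hu₁
    exact hL _ hu₁.symm
  have hg₂0 : g₂ ≠ 0 := by
    intro h
    rw [h, zero_pow hq0, zero_mul] at hu₂
    exact hL _ hu₂.symm
  have hg₁K : ((g₁ : 𝓞 K) : K) ≠ 0 := by exact_mod_cast hg₁0
  have hg₂K : ((g₂ : 𝓞 K) : K) ≠ 0 := by exact_mod_cast hg₂0
  refine ⟨(g₂ : K) / (g₁ : K), u₂ * u₁⁻¹, div_ne_zero hg₂K hg₁K, ?_⟩
  have h1 : pr n K x (fun e => M n b e) = ∏ c ∈ H n, al n K x ((b : (ZMod n)ˣ) * c⁻¹) := by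
    rw [rows_bij hn2 (al n K x) (al_neg x)]
    rfl
  have h2 : ∏ c ∈ H n, al n K x ((b : (ZMod n)ˣ) * c⁻¹) =
      ∏ a : (ZMod n)ˣ, al n K x (-(b : (ZMod n)ˣ) * a⁻¹) ^ fl 2 n a := by
    have h3 : ∏ a : (ZMod n)ˣ, al n K x (-(b : (ZMod n)ˣ) * a⁻¹) ^ fl 2 n a =
        ∏ a ∈ (H n)ᶜ, al n K x (-(b : (ZMod n)ˣ) * a⁻¹) := by
      rw [← Finset.prod_mul_prod_compl (H n)]
      have h4 : ∏ a ∈ H n, al n K x (-(b : (ZMod n)ˣ) * a⁻¹) ^ fl 2 n a = 1 :=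
        Finset.prod_eq_one fun a ha => by rw [rows_fl, if_pos ha, pow_zero]
      rw [h4, one_mul]
      exact Finset.prod_congr rfl fun a ha => by
        rw [rows_fl, if_neg (Finset.mem_compl.1 ha), pow_one]
    rw [h3]
    refine Finset.prod_nbij' (fun c => -c) (fun c => -c) ?_ ?_ ?_ ?_ ?_
    · intro c hc
      rw [Finset.mem_compl, neg_mem_H n hn2]
      exact not_not.2 hc
    · intro c hc
      exact (neg_mem_H n hn2 c).2 (Finset.mem_compl.1 hc)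
    · intro c _
      exact neg_neg c
    · intro c _
      exact neg_neg c
    · intro c _
      rw [_root_.inv_neg, neg_mul_neg]
  have h3 : ∀ c : (ZMod n)ˣ, ∏ a : (ZMod n)ˣ, al n K x (-c * a⁻¹) ^ fl 2 n a =
      (((∏ a : (ZMod n)ˣ, lin n K x (-c * a⁻¹) ^ fl 2 n a : 𝓞 K)) : K) /
      (((∏ a : (ZMod n)ˣ, lin n K x (c * a⁻¹) ^ fl 2 n a : 𝓞 K)) : K) := by
    intro c
    show _ = algebraMap (𝓞 K) K _ / algebraMap (𝓞 K) K _
    rw [map_prod, map_prod, ← Finset.prod_div_distrib]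
    refine Finset.prod_congr rfl fun a _ => ?_
    rw [map_pow, map_pow, ← div_pow]
    unfold al
    rw [neg_mul, neg_neg]
  have hu₁0 : (((u₁ : 𝓞 K)) : K) ≠ 0 := by exact_mod_cast u₁.ne_zero
  have h4 : ((((u₂ * u₁⁻¹ : (𝓞 K)ˣ)) : 𝓞 K) : K) = ((u₂ : 𝓞 K) : K) / ((u₁ : 𝓞 K) : K) := by
    rw [eq_div_iff hu₁0, Units.val_mul, ← map_mul, mul_assoc, Units.inv_mul, mul_one]
  rw [h1, h2, h3, ← hu₁, ← hu₂, h4, div_pow]
  push_cast
  field_simp

end Pool.Agent.NLS
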