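import Pool.Agent.NLS.Theta
import Pool.Agent.NLS.Prs2

/-!
# NLS-Zer2: a nonzero minor of the matrix `Q_j(s)`, sharper count

Many exponents `s` give many values `-ps s 1` modulo some prime over `q` (pigeonhole, `theta_inj`,
`exists_primes2`); modulo this prime the minor is a Vandermonde determinant.
-/

open NumberField Finset
open Pool.Agent.AAP Pool.Agent.Helper7.HU

namespace Pool.Agent.NLS

variable {n : ℕ} [Fact n.Prime] {K : Type} [Field K] [NumberField K] [IsCyclotomicExtension {n} ℚ K]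
  {q : ℕ}

private theorem zer2_ord {n : ℕ} [Fact n.Prime] {q : ℕ} (hq : q.Prime) (hqn : q ≠ n) :
    0 < orderOf ((q : ZMod n) ^ 2) := by
  have hco : q.Coprime n := (Nat.coprime_primes hq (Fact.out : n.Prime)).2 hqn
  rw [← ZMod.coe_unitOfCoprime q hco, ← Units.val_pow_eq_pow_val, orderOf_units]
  exact orderOf_pos _

theorem exists_minor2 (hn2 : n ≠ 2) (hq : q.Prime) (hqn : q ≠ n) {N : ℕ} (hN : 1 ≤ N)
    (X : Finset (H n → ℤ)) (hX : ∀ s ∈ X, ∀ t ∈ X, ∀ e, |s e - t e| < q)
    (hc : N ^ ((n - 1) / 2 / orderOf ((q : ZMod n) ^ 2)) < X.card) :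
    ∃ u : Fin N → (H n → ℤ), (∀ i, u i ∈ X) ∧
      (Matrix.of fun i j : Fin N => Qj n K q (u i) (j : ℕ)).det ≠ 0 := by
  classical
  obtain ⟨P, hmax, hqP, hspan, hcard⟩ := exists_primes2 n K hn2 hq hqn
  obtain ⟨p, hp, hNp⟩ : ∃ p ∈ P,
      N ≤ (X.image fun s => Ideal.Quotient.mk p (-ps n K s 1)).card := by
    by_contra hcon
    push Not at hcon
    have h1 : X.card ≤
        (P.pi fun p => X.image fun s => Ideal.Quotient.mk p (-ps n K s 1)).card := by
      refine Finset.card_le_card_of_injOn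
        (fun s => fun p _ => Ideal.Quotient.mk p (-ps n K s 1)) ?_ ?_
      · intro s hs
        rw [Finset.mem_coe, Finset.mem_pi]
        intro p _
        exact Finset.mem_image_of_mem _ hs
      · intro s hs t ht hst
        refine theta_inj (K := K) hn2 (hX s hs t ht) (hspan s t fun p hp => ?_)
        have h2 : Ideal.Quotient.mk p (-ps n K s 1) = Ideal.Quotient.mk p (-ps n K t 1) :=
          congrFun (congrFun hst p) hp
        rw [Ideal.Quotient.eq] at h2
        have h3 := p.neg_mem h2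
        have h4 : -(-ps n K s 1 - -ps n K t 1) = ps n K s 1 - ps n K t 1 := by ring
        rwa [h4] at h3
    rw [Finset.card_pi] at h1
    have h2 : ∏ p ∈ P, (X.image fun s => Ideal.Quotient.mk p (-ps n K s 1)).card ≤
        N ^ P.card := by
      refine (Finset.prod_le_prod' fun p hp => (hcon p hp).le).trans ?_
      rw [Finset.prod_const]
    have h3 : P.card ≤ (n - 1) / 2 / orderOf ((q : ZMod n) ^ 2) :=
      (Nat.le_div_iff_mul_le (zer2_ord hq hqn)).2 hcard
    have h4 : N ^ P.card ≤ N ^ ((n - 1) / 2 / orderOf ((q : ZMod n) ^ 2)) :=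
      Nat.pow_le_pow_right hN h3
    omega
  obtain ⟨T, hT, hTN⟩ := Finset.exists_subset_card_eq hNp
  have hm : p.IsMaximal := hmax p hp
  have h1 : ∀ i : Fin N, ∃ s ∈ X, Ideal.Quotient.mk p (-ps n K s 1) =
      (((T.equivFinOfCardEq hTN).symm i : T) : 𝓞 K ⧸ p) := fun i =>
    Finset.mem_image.1 (hT ((T.equivFinOfCardEq hTN).symm i).2)
  choose u huX hu using h1
  refine ⟨u, huX, fun hdet => ?_⟩
  have h2 : Ideal.Quotient.mk p (Matrix.of fun i j : Fin N => Qj n K q (u i) (j : ℕ)).det =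
      (Matrix.vandermonde fun i => Ideal.Quotient.mk p (-ps n K (u i) 1)).det := by
    rw [RingHom.map_det]
    congr 1
    ext i j
    rw [RingHom.mapMatrix_apply, Matrix.map_apply, Matrix.of_apply, Matrix.vandermonde_apply,
      ← map_pow, Ideal.Quotient.eq]
    exact (Ideal.span_singleton_le_iff_mem p).2 (hqP p hp) (Qj_congr (u i) (j : ℕ))
  rw [hdet, map_zero] at h2
  refine (Matrix.det_vandermonde_ne_zero_iff.2 ?_) h2.symm
  intro i j hij
  have h3 : (((T.equivFinOfCardEq hTN).symm i : T) : 𝓞 K ⧸ p) =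
      (((T.equivFinOfCardEq hTN).symm j : T) : 𝓞 K ⧸ p) := by
    rw [← hu i, ← hu j]
    exact hij
  exact (T.equivFinOfCardEq hTN).symm.injective (Subtype.ext h3)

end Pool.Agent.NLS
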