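import Pool.Agent.NLS.NStepG
import Pool.Agent.NLS.UBX
import Pool.Agent.NLS.Hank
import Pool.Agent.NLS.IdxT
import Pool.Agent.NLS.NeOne
import Pool.Agent.NLS.Pig

/-!
# The upper bound for the base, general form

Assembly: embeddings `T` (`exists_T`), the index of `Lam q hx T` (`lam_index`), many elements of it in a
box (`pigeon_many`), a nonzero minor of the `Q_j` (`MinorOK`), a nonzero determinant with a column
of roots (`hankel`), and the norm of this determinant (`norm_step`).
-/

open NumberField Finset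
open Pool.Agent.AAP Pool.Agent.Helper7.HU

namespace Pool.Agent.NLS

/-- multiplication of the columns by nonzero numbers -/
private theorem uby_scale {ι K : Type*} [Fintype ι] [DecidableEq ι] [Field K] (A B : ι → ι → K)
    (c : ι → K) (hc : ∀ j, c j ≠ 0) (h : ∀ i j, B i j = c j * A i j) :
    (Matrix.of B).det ≠ 0 ↔ (Matrix.of A).det ≠ 0 := by
  have h1 : Matrix.of B = Matrix.of fun i j => c j * (Matrix.of A) i j := by
    ext i j
    exact h i j
  rw [h1, Matrix.det_mul_row, mul_ne_zero_iff]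
  exact ⟨fun h => h.2, fun h => ⟨Finset.prod_ne_zero_iff.2 fun j _ => hc j, h⟩⟩

private theorem uby_main {n : ℕ} [Fact n.Prime] (K : Type) [Field K] [NumberField K]
    [IsCyclotomicExtension {n} ℚ K] {q x y : ℕ} (S : Sol n q x y) {k r N : ℕ} (hk : 1 ≤ k)
    (hkm : k ≤ (H n).card) (hN : 1 ≤ N) {B : ℕ} (hB : 1 ≤ B) (hM : MinorOK n q r N B)
    (h2 : B * ((Lq n q).index * q ^ k) < (r + 1) ^ (H n).card)
    (h3 : 2 * (H n).card * r * n ≤ k * N * q) :
    (k : ℝ) * Real.log x ≤ 8 * (H n).card * N * Real.log (4 * q * (N + 1)) := by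
  classical
  have hn5 := S.hn5
  have hq0 : q ≠ 0 := S.hq.ne_zero
  obtain ⟨T, hTc, hTf⟩ := exists_T n K (by omega) hkm
  obtain ⟨hi0, hi1⟩ := lam_index (K := K) S T
  obtain ⟨p, X, hp, hX, h0X, hXs⟩ := pigeon_many (Lam (n := n) (K := K) q S.hx T) hi0 r
  rw [Fintype.card_coe] at hX
  have hNX : B < X.card := by
    by_contra hcon
    push Not at hcon
    have h4 : X.card * (Lam (n := n) (K := K) q S.hx T).index ≤
        B * ((Lq n q).index * q ^ k) := by
      rw [← hTc]
      exact Nat.mul_le_mul hcon hi1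
    omega
  obtain ⟨u, huX, hudet⟩ := hM K X
    (fun s hs t ht e => by
      have h5 := (hXs s hs).2 e
      have h6 := (hXs t ht).2 e
      rw [abs_le]
      constructor <;> omega) hNX
  choose! b hb using fun (s : H n → ℤ) (hs : s ∈ Lam (n := n) (K := K) q S.hx T) => hs
  have hroot : ∀ s ∈ Lam (n := n) (K := K) q S.hx T, IsRt n q x T s (b s) := hb
  have hq3 := S.hq3
  have h1X : 1 < X.card := lt_of_le_of_lt hB hNX
  have hbadd : ∀ s ∈ X, ∀ t ∈ X, b (s + t) = b s * b t := by
    intro s hs t ht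
    have h5 := (hXs s hs).1
    have h6 := (hXs t ht).1
    refine root_unique (n := n) (K := K) S.hq hq3 S.hqn ?_
    rw [(hroot _ (add_mem h5 h6)).1, ((hroot _ h5).add S.hx (hroot _ h6)).1]
  have hb0 : b 0 = 1 := by
    refine root_unique (n := n) (K := K) S.hq hq3 S.hqn ?_
    rw [(hroot _ (zero_mem _)).1, pr_zero, one_pow]
  have hb1 : ∃ s ∈ X, b s ≠ 1 := by
    obtain ⟨s, hs, hs0⟩ := Finset.exists_mem_ne h1X 0
    refine ⟨s, hs, fun h => pr_ne_one (K := K) S hs0 ?_⟩
    rw [← (hroot _ (hXs s hs).1).1, h, one_pow]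
  have hPdet : (Matrix.of fun i j : Fin N =>
      Pj n K q (u i) (j : ℕ)).det ≠ 0 := by
    have h5 : (Matrix.of fun i j : Fin N =>
        ((Qj n K q (u i) (j : ℕ) : 𝓞 K) :
          K)).det ≠ 0 := by
      intro h
      apply hudet
      apply RingOfIntegers.coe_injective
      rw [map_zero, RingHom.map_det]
      exact h
    refine (uby_scale _ _ (fun j : Fin N => (q : K) ^ (j : ℕ) *
      ((j : ℕ).factorial : K)) (fun j => ?_) fun i j => ?_).1 h5
    · exact mul_ne_zero (pow_ne_zero _ (Nat.cast_ne_zero.2 hq0))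
        (Nat.cast_ne_zero.2 (Nat.factorial_ne_zero _))
    · exact coe_Qj hq0 _ _
  obtain ⟨v, hv, hvdet⟩ := hankel hN (fun j s => Pj n K q s j) b X h0X
    (fun s => Pj_zero s) (fun s _ t _ j => Pj_add s t j) hbadd hb0 hb1 u huX hPdet
  have hfin := norm_stepG S hTf hN (by omega) p hp v (fun i => b (v i)) (fun i => by
      obtain ⟨a, ha, c, hc, h5⟩ := hv i
      refine hroot _ ?_
      rw [h5]
      exact add_mem (hXs a ha).1 (hXs c hc).1) (fun i e => by
      obtain ⟨a, ha, c, hc, h5⟩ := hv i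
      have h6 := (hXs a ha).2 e
      have h7 := (hXs c hc).2 e
      rw [h5, Pi.add_apply]
      constructor <;> omega) ((uby_scale _ _ (fun j : Fin (N + 1) => if (j : ℕ) < N then
        (q : K) ^ (j : ℕ) * ((j : ℕ).factorial : K) else 1)
        (fun j => by
          split_ifs
          · exact mul_ne_zero (pow_ne_zero _ (Nat.cast_ne_zero.2 hq0))
              (Nat.cast_ne_zero.2 (Nat.factorial_ne_zero _))
          · exact one_ne_zero)
        (fun i j => by
          split_ifs
          · exact coe_Qj hq0 _ _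
          · exact (one_mul _).symm)).2 hvdet) (by rw [hTc]; exact h3)
  rw [hTc] at hfin
  exact hfin

private theorem uby_field (n : ℕ) [NeZero n] : ∃ (K : Type) (_ : Field K) (_ : NumberField K),
    IsCyclotomicExtension {n} ℚ K := by
  refine ⟨CyclotomicField n ℚ, inferInstance, inferInstance, ?_⟩
  have h := CyclotomicField.isCyclotomicExtension n ℚ
  have h1 : CyclotomicField.algebra n ℚ = DivisionRing.toRatAlgebra := Subsingleton.elim _ _
  rw [h1] at h
  exact h

theorem upperX {n : ℕ} [Fact n.Prime] {q x y : ℕ} (S : Sol n q x y) {k r N B : ℕ} (hk : 1 ≤ k)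
    (hkm : k ≤ (H n).card) (hN : 1 ≤ N) (hB : 1 ≤ B) (hM : MinorOK n q r N B)
    (h2 : B * ((Lq n q).index * q ^ k) < (r + 1) ^ (H n).card)
    (h3 : 2 * (H n).card * r * n ≤ k * N * q) :
    (k : ℝ) * Real.log x ≤ 8 * (H n).card * N * Real.log (4 * q * (N + 1)) := by
  have hn0 : NeZero n := ⟨S.hn.ne_zero⟩
  obtain ⟨K, _, _, _⟩ := uby_field n
  exact uby_main K S hk hkm hN hB hM h2 h3

end Pool.Agent.NLS
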