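import Pool.Agent.NLS.UBX
import Pool.Agent.NLS.Zer2

/-!
# NLS-UBZ: the minor from the primes over `q`
-/

open NumberField Finset
open Pool.Agent.AAP Pool.Agent.Helper7.HU

namespace Pool.Agent.NLS

theorem minorOK_primes {n : ℕ} [Fact n.Prime] {q r N : ℕ} (hn2 : n ≠ 2) (hq : q.Prime)
    (hqn : q ≠ n) (hN : 1 ≤ N) (hrq : r < q) :
    MinorOK n q r N (N ^ ((n - 1) / 2 / orderOf ((q : ZMod n) ^ 2))) := by
  intro K _ _ _ X hX hc
  refine exists_minor2 (K := K) hn2 hq hqn hN X (fun s hs t ht e => ?_) hc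
  exact lt_of_le_of_lt (hX s hs t ht e) (by exact_mod_cast hrq)

end Pool.Agent.NLS
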