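import Pool.Agent.NLS.VEight
import Pool.Agent.NLS.ParG
import Pool.Agent.NLS.UBZ
import Pool.Agent.NLS.LaFin
import Pool.Agent.NLS.Ord

/-!
# NLS-VBox: the box for the base, boundedly many exceptional exponents

For a prime `n` all prime exponents `q ≥ n ^ ε` with at most `C` exceptions satisfy: `q < n` and
`q ^ (1 - ε) ≤ log x ≤ n ^ (1 + ε) / q` for every solution, so `q < n ^ (1/2 + ε)`.
-/

open NumberField Finset
open Pool.Agent.AAP Pool.Agent.Helper7.HU

namespace Pool.Agent.NLS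

private theorem vbox_log {n : ℕ} (h5 : 5 ≤ n) : 1 ≤ Real.log n := by
  have h1 : (5 : ℝ) ≤ n := by exact_mod_cast h5
  rw [Real.le_log_iff_exp_le (by linarith)]
  have h2 := Real.exp_one_lt_d9
  linarith

/-- few exponents with a large index -/
private theorem vbox_index {n : ℕ} [Fact n.Prime] (h5 : 5 ≤ n) {δ ε : ℝ} (hδ : 0 < δ) (hε : 0 < ε)
    (P : Finset ℕ) (hP : ∀ q ∈ P, q.Prime ∧ (n : ℝ) ^ ε ≤ q ∧
      Real.exp (δ * ((n - 1) / 2 : ℕ) * Real.log q) < ((Lq n q).index : ℝ)) :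
    (P.card : ℝ) ≤ 1 / (2 * (δ * ε)) := by
  have hn2 : n ≠ 2 := by omega
  have hm := card_H n hn2
  have hm2 : 2 ≤ (n - 1) / 2 := by omega
  have hmR : (2 : ℝ) ≤ (((n - 1) / 2 : ℕ) : ℝ) := by exact_mod_cast hm2
  have hl := vbox_log h5
  have hn1 : (1 : ℝ) ≤ n := by exact_mod_cast (by omega : 1 ≤ n)
  have hnpos : (0 : ℝ) < n := by linarith
  set m : ℝ := (((n - 1) / 2 : ℕ) : ℝ) with hmdef
  have hlow : ∀ q ∈ P, δ * ε * m * Real.log n ≤ Real.log ((Lq n q).index : ℝ) := by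
    intro q hq
    obtain ⟨_, h1, h2⟩ := hP q hq
    have h3 := Real.log_le_log (Real.exp_pos _) h2.le
    rw [Real.log_exp] at h3
    refine le_trans ?_ h3
    have h4 : ε * Real.log n ≤ Real.log q := by
      rw [← Real.log_rpow hnpos]
      exact Real.log_le_log (by positivity) h1
    have h5 : 0 ≤ δ * m := by positivity
    calc δ * ε * m * Real.log n = δ * m * (ε * Real.log n) := by ring
      _ ≤ δ * m * Real.log q := mul_le_mul_of_nonneg_left h4 h5
  have hs := sum_log_index hn2 P fun q hq => (hP q hq).1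
  rw [hm, ← hmdef] at hs
  have h3 : (P.card : ℝ) * (δ * ε * m * Real.log n) ≤ ∑ q ∈ P, Real.log ((Lq n q).index : ℝ) := by
    rw [← nsmul_eq_mul]
    exact Finset.card_nsmul_le_sum _ _ _ hlow
  have h4 : Real.log m ≤ Real.log n := by
    refine Real.log_le_log (by linarith) ?_
    rw [hmdef]
    exact_mod_cast (by omega : (n - 1) / 2 ≤ n)
  have h6 : (P.card : ℝ) * (δ * ε * m * Real.log n) ≤ m / 2 * Real.log n :=
    h3.trans (hs.trans (mul_le_mul_of_nonneg_left h4 (by linarith)))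
  have h8 : 0 < m * Real.log n := by
    have : 0 < m := by linarith
    have : 0 < Real.log n := by linarith
    positivity
  have h7 : (P.card : ℝ) * (2 * (δ * ε)) * (m * Real.log n) ≤ 1 * (m * Real.log n) := by
    calc (P.card : ℝ) * (2 * (δ * ε)) * (m * Real.log n) =
        2 * ((P.card : ℝ) * (δ * ε * m * Real.log n)) := by ring
      _ ≤ 2 * (m / 2 * Real.log n) := mul_le_mul_of_nonneg_left h6 (by norm_num)
      _ = 1 * (m * Real.log n) := by ring
  rw [le_div_iff₀ (by positivity)]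
  exact le_of_mul_le_mul_right h7 h8

/-- the order of the square is at least half of the order -/
private theorem vbox_ord {n q F : ℕ} (h : 2 * F < orderOf (q : ZMod n)) :
    F ≤ orderOf ((q : ZMod n) ^ 2) := by
  have h0 : 0 < orderOf (q : ZMod n) := by omega
  by_cases h2 : orderOf ((q : ZMod n) ^ 2) = 0
  · exfalso
    rw [orderOf_eq_zero_iff'] at h2
    refine h2 (orderOf (q : ZMod n)) h0 ?_
    rw [← pow_mul, mul_comm, pow_mul, pow_orderOf_eq_one, one_pow]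
  have h1 : orderOf (q : ZMod n) ≤ 2 * orderOf ((q : ZMod n) ^ 2) := by
    refine Nat.le_of_dvd (by omega) (orderOf_dvd_of_pow_eq_one ?_)
    rw [pow_mul]
    exact pow_orderOf_eq_one _
  omega

/-- the upper bound for the base for a good exponent -/
private theorem vbox_upper {ε δ : ℝ} {F n0 : ℕ}
    (hG : ∀ (n q f : ℕ) (I : ℝ), n0 ≤ n → Odd n → (n : ℝ) ^ ε ≤ q → q ≤ n → F ≤ f → 0 < I →
      I ≤ Real.exp (δ * ((n - 1) / 2 : ℕ) * Real.log q) →
      ∃ k r N : ℕ, 1 ≤ k ∧ k ≤ (n - 1) / 2 ∧ 1 ≤ N ∧ 1 ≤ r ∧ r < q ∧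
        (N : ℝ) ^ ((n - 1) / 2 / f) * (I * (q : ℝ) ^ k) < ((r : ℝ) + 1) ^ ((n - 1) / 2) ∧
        2 * ((n - 1) / 2) * r * n ≤ k * N * q ∧
        8 * (((n - 1) / 2 : ℕ) : ℝ) * N * Real.log (4 * q * (N + 1)) ≤
          k * ((n : ℝ) / q * (n : ℝ) ^ ε))
    {n : ℕ} [Fact n.Prime] {q x y : ℕ} (S : Sol n q x y) (hn : n0 ≤ n) (hq1 : (n : ℝ) ^ ε ≤ q)
    (hq2 : q ≤ n) (hf : F ≤ orderOf ((q : ZMod n) ^ 2))
    (hI : ((Lq n q).index : ℝ) ≤ Real.exp (δ * ((n - 1) / 2 : ℕ) * Real.log q)) :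
    Real.log x ≤ (n : ℝ) / q * (n : ℝ) ^ ε := by
  have hn5 := S.hn5
  have hodd : Odd n := S.hn.odd_of_ne_two (by omega)
  have hcard : (H n).card = (n - 1) / 2 := card_H n (by omega)
  have hI0 : (0 : ℝ) < ((Lq n q).index : ℝ) := by
    have := lq_index_ne (n := n) (by omega) q
    positivity
  obtain ⟨k, r, N, hk, hkm, hN, hr, hrq, hH2, hH3, hH4⟩ :=
    hG n q (orderOf ((q : ZMod n) ^ 2)) ((Lq n q).index : ℝ) hn hodd hq1 hq2 hf hI0 hI
  have hM : MinorOK n q r N (N ^ ((n - 1) / 2 / orderOf ((q : ZMod n) ^ 2))) :=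
    minorOK_primes (by omega) S.hq S.hqn hN hrq
  have hub := upperX S hk (by rw [hcard]; exact hkm) hN (Nat.one_le_pow _ _ hN) hM
    (by rw [hcard]; exact_mod_cast hH2) (by rw [hcard]; exact hH3)
  rw [hcard] at hub
  have hkR : (0 : ℝ) < k := by exact_mod_cast hk
  exact le_of_mul_le_mul_left (hub.trans hH4) hkR

private theorem vbox_pow {ε : ℝ} (hε : 0 < ε) (q0 : ℕ) : ∃ n0 : ℕ, 5 ≤ n0 ∧ ∀ n : ℕ, n0 ≤ n →
    (q0 : ℝ) ≤ (n : ℝ) ^ ε := by
  have hlim : Filter.Tendsto (fun n : ℕ => ((n : ℝ)) ^ ε) Filter.atTop Filter.atTop :=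
    (tendsto_rpow_atTop hε).comp tendsto_natCast_atTop_atTop
  obtain ⟨n0, hn0⟩ := Filter.eventually_atTop.1 (hlim.eventually_ge_atTop (q0 : ℝ))
  exact ⟨max n0 5, le_max_right _ _, fun n hn => hn0 n ((le_max_left _ _).trans hn)⟩

/-- the exponents of the solutions of small length -/
private theorem vbox_small : ∃ C : ℝ, 1 ≤ C ∧ ∀ n q x y : ℕ, n.Prime → 5 ≤ n → q.Prime → 1 < x →
    1 < y → y ^ q * (x - 1) = x ^ n - 1 → (q : ℝ) < C * n * n * Real.log n := by
  obtain ⟨C, hC, h⟩ := v_one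
  refine ⟨C, hC, fun n q x y hn h5 hq hx hy heq => ?_⟩
  by_contra hcon
  push Not at hcon
  have hl := vbox_log h5
  have hn0 : (0 : ℝ) < n := by exact_mod_cast (by omega : 0 < n)
  obtain ⟨hf, hc⟩ := h n hn h5 (Real.log n) hl
  rw [Real.exp_log hn0] at hf hc
  have h1 : Real.log n / (2 * Real.log n) = 1 / 2 := by
    have : Real.log n ≠ 0 := by linarith
    field_simp
  rw [h1] at hc
  have h2 : q ∈ {q : ℕ | q.Prime ∧ C * n * n * Real.log n ≤ q ∧
      ∃ x y : ℕ, 1 < x ∧ 1 < y ∧ y ^ q * (x - 1) = x ^ n - 1} := ⟨hq, hcon, x, y, hx, hy, heq⟩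
  have h3 := (Set.ncard_pos hf).2 ⟨q, h2⟩
  have h4 : (1 : ℝ) ≤ ({q : ℕ | q.Prime ∧ C * n * n * Real.log n ≤ q ∧
      ∃ x y : ℕ, 1 < x ∧ 1 < y ∧ y ^ q * (x - 1) = x ^ n - 1}.ncard : ℝ) := by exact_mod_cast h3
  linarith

private theorem vbox_main (ε : ℝ) (hε : 0 < ε) (hε1 : ε ≤ 1) : ∃ C : ℕ, ∀ n : ℕ, n.Prime → 5 ≤ n →
    ∃ E : Finset ℕ, E.card ≤ C ∧ ∀ q x y : ℕ, q.Prime → (n : ℝ) ^ ε ≤ q → q ∉ E → 1 < x → 1 < y →
      y ^ q * (x - 1) = x ^ n - 1 →
      (q : ℝ) ≤ Real.log x * (q : ℝ) ^ ε ∧ Real.log x ≤ (n : ℝ) / q * (n : ℝ) ^ ε := by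
  classical
  obtain ⟨δ, F, nG, hδ, hF1, hG⟩ := exists_parG ε hε hε1
  obtain ⟨q0, hL⟩ := partL3 ε hε
  obtain ⟨n8, h8⟩ := eight partL2
  obtain ⟨n1, hn15, hn1⟩ := vbox_pow hε (max q0 3)
  obtain ⟨C, hC, hsmall⟩ := vbox_small
  set n2 : ℕ := max (max nG n8) n1 with hn2
  refine ⟨⌈C * n2 * n2 * Real.log n2⌉₊ + ((2 * F) ^ 2 + ⌊1 / (2 * (δ * ε))⌋₊ + 8 + 1),
    fun n hn h5 => ?_⟩
  have : Fact n.Prime := ⟨hn⟩
  rcases lt_or_ge n n2 with hlt | hge
  · refine ⟨range ⌈C * n2 * n2 * Real.log n2⌉₊, ?_, ?_⟩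
    · rw [card_range]
      omega
    · intro q x y hq hq1 hqE hx hy heq
      exfalso
      apply hqE
      rw [mem_range]
      refine Nat.lt_ceil.2 ?_
      refine (hsmall n q x y hn h5 hq hx hy heq).trans_le ?_
      have h7 : (n : ℝ) ≤ n2 := by exact_mod_cast hlt.le
      have h0 : (0 : ℝ) < n := by exact_mod_cast (by omega : 0 < n)
      have hl := vbox_log h5
      have h8 : Real.log n ≤ Real.log n2 := Real.log_le_log h0 h7
      gcongr
  · have hgeG : nG ≤ n := ((le_max_left _ _).trans (le_max_left _ _)).trans hge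
    have hge8 : n8 ≤ n := ((le_max_right _ _).trans (le_max_left _ _)).trans hge
    have hge1 : n1 ≤ n := (le_max_right _ _).trans hge
    obtain ⟨h8f, h8c⟩ := h8 n hn hge8
    set D : Finset ℕ := (range (1 * n)).filter fun q => ¬ n ∣ q ∧ orderOf (q : ZMod n) ≤ 2 * F with hD
    set P : Finset ℕ := (range n).filter fun q => q.Prime ∧ (n : ℝ) ^ ε ≤ q ∧
      Real.exp (δ * ((n - 1) / 2 : ℕ) * Real.log q) < ((Lq n q).index : ℝ) with hP
    refine ⟨D ∪ P ∪ h8f.toFinset ∪ {n}, ?_, ?_⟩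
    · have h1 := card_union_le (D ∪ P ∪ h8f.toFinset) {n}
      have h2 := card_union_le (D ∪ P) h8f.toFinset
      have h3 := card_union_le D P
      have h4 : D.card ≤ (2 * F) ^ 2 * 1 := small_ord hn (2 * F) 1
      have h6 : P.card ≤ ⌊1 / (2 * (δ * ε))⌋₊ := by
        refine Nat.le_floor (vbox_index h5 hδ hε P fun q hq => ?_)
        rw [hP, mem_filter] at hq
        exact hq.2
      have h7 : h8f.toFinset.card ≤ 8 := by
        rw [← Set.ncard_eq_toFinset_card _ h8f]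
        exact h8c
      rw [card_singleton] at h1
      omega
    · intro q x y hq hq1 hqE hx hy heq
      rw [mem_union, mem_union, mem_union, mem_singleton, Set.Finite.mem_toFinset] at hqE
      push Not at hqE
      obtain ⟨⟨⟨hqD, hqP⟩, hq8⟩, hqn⟩ := hqE
      have hltn : q < n := by
        by_contra hcon
        push Not at hcon
        exact hq8 ⟨hq, by omega, x, y, hx, hy, heq⟩
      have hndvd : ¬ n ∣ q := fun h => absurd (Nat.le_of_dvd hq.pos h) (by omega)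
      have hord : 2 * F < orderOf (q : ZMod n) := by
        by_contra hcon
        push Not at hcon
        apply hqD
        rw [hD, mem_filter, mem_range]
        exact ⟨by omega, hndvd, hcon⟩
      have hidx : ((Lq n q).index : ℝ) ≤ Real.exp (δ * ((n - 1) / 2 : ℕ) * Real.log q) := by
        by_contra hcon
        push Not at hcon
        apply hqP
        rw [hP, mem_filter, mem_range]
        exact ⟨hltn, hq, hq1, hcon⟩
      have h6 : ((max q0 3 : ℕ) : ℝ) ≤ q := (hn1 n hge1).trans hq1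
      have h6' : max q0 3 ≤ q := by exact_mod_cast h6
      have hq3 : 3 ≤ q := (le_max_right _ _).trans h6'
      have S : Sol n q x y := ⟨hn, hq, h5, hq3, hqn, hx, hy, heq⟩
      refine ⟨?_, vbox_upper hG S hgeG hq1 hltn.le (vbox_ord hord) hidx⟩
      have h7 := hL q n x y ((le_max_left _ _).trans h6') hq (by omega) ?_ heq
      · rwa [min_eq_right hltn.le] at h7
      · have h9 : q * 1 ≤ n * n := Nat.mul_le_mul hltn.le (by omega)
        nlinarith

/-- For all `ε > 0` there is `C` with: for every prime `n ≥ 5` and all primes `q ≥ n ^ ε` with at most `C` exceptions,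
every solution with exponent divisible by `q` has `q < n ^ (1/2 + ε)` and
`q ^ (1 - ε) ≤ log x ≤ n ^ (1 + ε) / q`. -/
theorem v_box (ε : ℝ) (hε : 0 < ε) : ∃ C : ℕ, ∀ n : ℕ, n.Prime → 5 ≤ n →
    ∃ E : Finset ℕ, E.card ≤ C ∧ ∀ q m x y : ℕ, q.Prime → (n : ℝ) ^ ε ≤ q → q ∉ E → q ∣ m →
      1 < x → 1 < y → y ^ m * (x - 1) = x ^ n - 1 →
      (q : ℝ) < (n : ℝ) ^ (1 / 2 + ε) ∧ (q : ℝ) ^ (1 - ε) ≤ Real.log x ∧
        Real.log x ≤ (n : ℝ) ^ (1 + ε) / q := by
  obtain ⟨e, he⟩ : ∃ e : ℝ, e = min ε 1 / 2 := ⟨_, rfl⟩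
  have h0 : 0 < min ε 1 := lt_min hε one_pos
  have he0 : 0 < e := by rw [he]; positivity
  have he1 : e ≤ 1 / 2 := by
    have := min_le_right ε 1
    rw [he]; linarith
  have he2 : e ≤ ε / 2 := by
    have := min_le_left ε 1
    rw [he]; linarith
  obtain ⟨C, hC⟩ := vbox_main e he0 (by linarith)
  refine ⟨C, fun n hn h5 => ?_⟩
  obtain ⟨E, hE, h⟩ := hC n hn h5
  refine ⟨E, hE, fun q m x y hq hq1 hqE hqm hx hy heq => ?_⟩
  obtain ⟨t, rfl⟩ := hqm
  have ht : t ≠ 0 := by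
    rintro rfl
    rw [mul_zero, pow_zero, one_mul] at heq
    have h3 : x ^ 1 < x ^ n := Nat.pow_lt_pow_right hx (by omega)
    rw [pow_one] at h3
    omega
  have hn1 : (1 : ℝ) < n := by exact_mod_cast (by omega : 1 < n)
  have hn0 : (0 : ℝ) < n := by linarith
  have hq1' : (1 : ℝ) < q := by exact_mod_cast hq.one_lt
  have hq0 : (0 : ℝ) < q := by linarith
  have hqe : (n : ℝ) ^ e ≤ q :=
    le_trans (Real.rpow_le_rpow_of_exponent_le hn1.le (by linarith)) hq1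
  obtain ⟨hA, hB⟩ := h q x (y ^ t) hq hqe hqE hx (Nat.one_lt_pow ht hy) (by
    rw [← pow_mul, mul_comm t q]
    exact heq)
  have hB' : Real.log x ≤ (n : ℝ) ^ (1 + e) / q := by
    refine hB.trans (le_of_eq ?_)
    rw [Real.rpow_add hn0, Real.rpow_one]
    ring
  have hA' : (q : ℝ) ^ (1 - e) ≤ Real.log x := by
    rw [Real.rpow_sub hq0, Real.rpow_one, div_le_iff₀ (by positivity)]
    exact hA
  refine ⟨?_, ?_, ?_⟩
  · by_contra hcon
    push Not at hcon
    have h1 : (q : ℝ) ^ (1 - e) * q ≤ (n : ℝ) ^ (1 + e) := by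
      rw [← le_div_iff₀ hq0]
      exact hA'.trans hB'
    have h2 : (q : ℝ) ^ (1 - e) * q = (q : ℝ) ^ (2 - e) := by
      rw [← Real.rpow_add_one hq0.ne']
      congr 1
      ring
    rw [h2] at h1
    have h3 : (n : ℝ) ^ ((1 / 2 + ε) * (2 - e)) ≤ (q : ℝ) ^ (2 - e) := by
      rw [Real.rpow_mul hn0.le]
      exact Real.rpow_le_rpow (by positivity) hcon (by linarith)
    have h4 : (n : ℝ) ^ (1 + e) < (n : ℝ) ^ ((1 / 2 + ε) * (2 - e)) :=
      Real.rpow_lt_rpow_of_exponent_lt hn1 (by nlinarith)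
    linarith
  · exact le_trans (Real.rpow_le_rpow_of_exponent_le hq1'.le (by linarith)) hA'
  · refine hB'.trans (div_le_div_of_nonneg_right ?_ hq0.le)
    exact Real.rpow_le_rpow_of_exponent_le hn1.le (by linarith)

end Pool.Agent.NLS
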