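import Pool.Agent.NLS.Crit
import Pool.Agent.NLS.Par

/-!
# NLS-VOne: few exponents above `n log n`

For a prime `q` with a solution the index of the lattice of relations modulo `q` is at least `exp (ρ m)`,
`m = (n - 1) / 2`; the sum of the logarithms of the indices is at most `(m / 2) log m`.
-/

open NumberField Finset
open Pool.Agent.AAP Pool.Agent.Helper7.HU

namespace Pool.Agent.NLS

private theorem vone_fin (S : Set ℕ) (B : ℝ)
    (h : ∀ P : Finset ℕ, (∀ q ∈ P, q ∈ S) → (P.card : ℝ) ≤ B) : S.Finite ∧ (S.ncard : ℝ) ≤ B := by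
  have hf : S.Finite := by
    by_contra hc
    obtain ⟨P, hP, hcard⟩ := Set.Infinite.exists_subset_card_eq hc (⌊B⌋₊ + 1)
    have h1 := h P fun q hq => hP hq
    rw [hcard] at h1
    have h2 := Nat.lt_floor_add_one B
    push_cast at h1
    linarith
  refine ⟨hf, ?_⟩
  have h1 := h hf.toFinset fun q hq => hf.mem_toFinset.1 hq
  rwa [← Set.ncard_eq_toFinset_card S hf] at h1

private theorem vone_log {n : ℕ} (h5 : 5 ≤ n) : 1 ≤ Real.log n := by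
  have h1 : (5 : ℝ) ≤ n := by exact_mod_cast h5
  rw [Real.le_log_iff_exp_le (by linarith)]
  have h2 := Real.exp_one_lt_d9
  linarith

private theorem vone_big {C : ℝ} (hC : 1 ≤ C) {n q : ℕ} (h5 : 5 ≤ n) {ρ : ℝ} (h1 : 1 ≤ ρ)
    (h : C * Real.exp ρ * n * Real.log n ≤ q) : 2 * n ≤ q := by
  have hl := vone_log h5
  have h2 : (2 : ℝ) ≤ Real.exp ρ := by
    have h3 := Real.add_one_le_exp ρ
    linarith
  have hn : (0 : ℝ) ≤ n := Nat.cast_nonneg _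
  have h4 : (2 : ℝ) ≤ C * Real.exp ρ := by nlinarith
  have h6 : 2 * (n : ℝ) ≤ C * Real.exp ρ * n := mul_le_mul_of_nonneg_right h4 hn
  have h7 : C * Real.exp ρ * n * 1 ≤ C * Real.exp ρ * n * Real.log n :=
    mul_le_mul_of_nonneg_left hl (by linarith)
  have h8 : (2 : ℝ) * n ≤ q := by linarith
  exact_mod_cast h8

private theorem vone_core {C : ℝ} (hC : 1 ≤ C)
    (hpar : ∀ (n q : ℕ) (ρ : ℝ), 5 ≤ n → Odd n → 1 ≤ ρ → ρ ≤ Real.log n →
      C * Real.exp ρ * n * Real.log n ≤ q → ∃ k r : ℕ, 1 ≤ k ∧ k ≤ (n - 1) / 2 ∧ 4 ≤ r ∧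
        Real.exp (ρ * ((n - 1) / 2 : ℕ)) * (q : ℝ) ^ k < ((r : ℝ) + 1) ^ ((n - 1) / 2) ∧
        n * ((n - 1) / 2) * r ≤ k * q)
    {n : ℕ} (hn : n.Prime) (h5 : 5 ≤ n) {ρ : ℝ} (h1 : 1 ≤ ρ) (h2 : ρ ≤ Real.log n) (P : Finset ℕ)
    (hP : ∀ q ∈ P, q ∈ {q : ℕ | q.Prime ∧ C * Real.exp ρ * n * Real.log n ≤ q ∧
      ∃ x y : ℕ, 1 < x ∧ 1 < y ∧ y ^ q * (x - 1) = x ^ n - 1}) :
    (P.card : ℝ) ≤ Real.log n / (2 * ρ) := by
  have : Fact n.Prime := ⟨hn⟩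
  have hn2 : n ≠ 2 := by omega
  have hm := card_H n hn2
  have hm2 : 2 ≤ (n - 1) / 2 := by omega
  have hmR : (2 : ℝ) ≤ (((n - 1) / 2 : ℕ) : ℝ) := by exact_mod_cast hm2
  have hlow : ∀ q ∈ P, ρ * (((n - 1) / 2 : ℕ) : ℝ) ≤ Real.log ((Lq n q).index : ℝ) := by
    intro q hq
    obtain ⟨hqp, hqb, x, y, hx, hy, he⟩ := hP q hq
    have hqn := vone_big hC h5 h1 hqb
    by_contra hc
    push Not at hc
    obtain ⟨k, r, hk, hkm, hr, ha, hb⟩ := hpar n q ρ h5 (hn.odd_of_ne_two hn2) h1 h2 hqb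
    have hi : (0 : ℝ) < ((Lq n q).index : ℝ) := by
      exact_mod_cast Nat.pos_of_ne_zero (lq_index_ne hn2 q)
    have hi2 : ((Lq n q).index : ℝ) ≤ Real.exp (ρ * (((n - 1) / 2 : ℕ) : ℝ)) := by
      rw [← Real.log_le_iff_le_exp hi]
      exact hc.le
    have hqk : (0 : ℝ) ≤ (q : ℝ) ^ k := by positivity
    have h3 : ((Lq n q).index : ℝ) * (q : ℝ) ^ k < ((r : ℝ) + 1) ^ ((n - 1) / 2) :=
      (mul_le_mul_of_nonneg_right hi2 hqk).trans_lt ha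
    have h4 : (Lq n q).index * q ^ k < (r + 1) ^ (H n).card := by
      rw [hm]
      exact_mod_cast h3
    have S : Sol n q x y := ⟨hn, hqp, h5, by omega, by omega, hx, hy, he⟩
    exact crit S hk (by rw [hm]; exact hkm) hr h4 (by rw [hm]; exact hb)
  have hs := sum_log_index hn2 P fun q hq => (hP q hq).1
  rw [hm] at hs
  have h3 : (P.card : ℝ) * (ρ * (((n - 1) / 2 : ℕ) : ℝ)) ≤
      ∑ q ∈ P, Real.log ((Lq n q).index : ℝ) := by
    rw [← nsmul_eq_mul]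
    exact Finset.card_nsmul_le_sum _ _ _ hlow
  have h4 : Real.log (((n - 1) / 2 : ℕ) : ℝ) ≤ Real.log n := by
    refine Real.log_le_log (by linarith) ?_
    exact_mod_cast (by omega : (n - 1) / 2 ≤ n)
  have hρ : 0 < ρ := by linarith
  rw [le_div_iff₀ (by positivity)]
  have h6 : (P.card : ℝ) * (ρ * (((n - 1) / 2 : ℕ) : ℝ)) ≤
      (((n - 1) / 2 : ℕ) : ℝ) / 2 * Real.log n :=
    h3.trans (hs.trans (mul_le_mul_of_nonneg_left h4 (by positivity)))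
  have h7 : (((n - 1) / 2 : ℕ) : ℝ) * ((P.card : ℝ) * (2 * ρ)) ≤
      (((n - 1) / 2 : ℕ) : ℝ) * Real.log n := by nlinarith
  exact le_of_mul_le_mul_left h7 (by linarith)

theorem v_one : ∃ C : ℝ, 1 ≤ C ∧ ∀ n : ℕ, n.Prime → 5 ≤ n → ∀ ρ : ℝ, 1 ≤ ρ →
    {q : ℕ | q.Prime ∧ C * Real.exp ρ * n * Real.log n ≤ q ∧
      ∃ x y : ℕ, 1 < x ∧ 1 < y ∧ y ^ q * (x - 1) = x ^ n - 1}.Finite ∧
    ({q : ℕ | q.Prime ∧ C * Real.exp ρ * n * Real.log n ≤ q ∧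
      ∃ x y : ℕ, 1 < x ∧ 1 < y ∧ y ^ q * (x - 1) = x ^ n - 1}.ncard : ℝ) ≤ Real.log n / (2 * ρ) := by
  obtain ⟨C, hC, hpar⟩ := exists_par
  refine ⟨C, hC, fun n hn h5 ρ h1 => ?_⟩
  have hl := vone_log h5
  rcases le_or_gt ρ (Real.log n) with h2 | h2
  · exact vone_fin _ _ fun P hP => vone_core hC hpar hn h5 h1 h2 P hP
  · have hsub : ∀ q : ℕ, q ∈ {q : ℕ | q.Prime ∧ C * Real.exp ρ * n * Real.log n ≤ q ∧
      ∃ x y : ℕ, 1 < x ∧ 1 < y ∧ y ^ q * (x - 1) = x ^ n - 1} →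
        q ∈ {q : ℕ | q.Prime ∧ C * Real.exp (Real.log n) * n * Real.log n ≤ q ∧
      ∃ x y : ℕ, 1 < x ∧ 1 < y ∧ y ^ q * (x - 1) = x ^ n - 1} := by
      rintro q ⟨ha, hb, hc⟩
      refine ⟨ha, le_trans ?_ hb, hc⟩
      have h3 : Real.exp (Real.log n) ≤ Real.exp ρ := Real.exp_le_exp.2 h2.le
      have hn0 : (0 : ℝ) ≤ n := Nat.cast_nonneg _
      exact mul_le_mul_of_nonneg_right (mul_le_mul_of_nonneg_right
        (mul_le_mul_of_nonneg_left h3 (by linarith)) hn0) (by linarith)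
    refine vone_fin _ _ fun P hP => ?_
    have h4 := vone_core hC hpar hn h5 hl le_rfl P fun q hq => hsub q (hP q hq)
    have h5' : Real.log n / (2 * Real.log n) = 1 / 2 := by
      field_simp
    rw [h5'] at h4
    have h6 : P.card = 0 := by
      by_contra hne
      have h7 : (1 : ℝ) ≤ P.card := by exact_mod_cast Nat.one_le_iff_ne_zero.2 hne
      linarith
    rw [h6, Nat.cast_zero]
    positivity

end Pool.Agent.NLS
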