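import Pool.Agent.NLS.VGood
import Pool.Agent.NLS.VOne
import Pool.Agent.NLS.Ord

/-!
# NLS-VCount: few exponents above `n ^ (1/2 + ε)`
-/

open NumberField Finset
open Pool.Agent.AAP Pool.Agent.Helper7.HU

namespace Pool.Agent.NLS

private theorem vcount_log {n : ℕ} (h5 : 5 ≤ n) : 1 ≤ Real.log n := by
  have h1 : (5 : ℝ) ≤ n := by exact_mod_cast h5
  rw [Real.le_log_iff_exp_le (by linarith)]
  have h2 := Real.exp_one_lt_d9
  linarith

/-- few exponents with a large index -/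
private theorem vcount_index {n : ℕ} [Fact n.Prime] (h5 : 5 ≤ n) {δ : ℝ} (hδ : 0 < δ) (P : Finset ℕ)
    (hP : ∀ q ∈ P, q.Prime ∧ (n : ℝ) ^ (1 / 2 : ℝ) ≤ q ∧
      Real.exp (δ / 4 * ((n - 1) / 2 : ℕ) * Real.log q) < ((Lq n q).index : ℝ)) :
    (P.card : ℝ) ≤ 4 / δ := by
  have hn2 : n ≠ 2 := by omega
  have hm := card_H n hn2
  have hm2 : 2 ≤ (n - 1) / 2 := by omega
  have hmR : (2 : ℝ) ≤ (((n - 1) / 2 : ℕ) : ℝ) := by exact_mod_cast hm2
  have hl := vcount_log h5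
  have hn1 : (1 : ℝ) ≤ n := by exact_mod_cast (by omega : 1 ≤ n)
  have hnpos : (0 : ℝ) < n := by linarith
  set m : ℝ := (((n - 1) / 2 : ℕ) : ℝ) with hmdef
  have hlow : ∀ q ∈ P, δ / 8 * m * Real.log n ≤ Real.log ((Lq n q).index : ℝ) := by
    intro q hq
    obtain ⟨_, h1, h2⟩ := hP q hq
    have h3 := Real.log_le_log (Real.exp_pos _) h2.le
    rw [Real.log_exp] at h3
    refine le_trans ?_ h3
    have h4 : 1 / 2 * Real.log n ≤ Real.log q := by
      rw [← Real.log_rpow hnpos]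
      exact Real.log_le_log (by positivity) h1
    have h5 : 0 ≤ δ / 4 * m := by positivity
    calc δ / 8 * m * Real.log n = δ / 4 * m * (1 / 2 * Real.log n) := by ring
      _ ≤ δ / 4 * m * Real.log q := mul_le_mul_of_nonneg_left h4 h5
  have hs := sum_log_index hn2 P fun q hq => (hP q hq).1
  rw [hm, ← hmdef] at hs
  have h3 : (P.card : ℝ) * (δ / 8 * m * Real.log n) ≤ ∑ q ∈ P, Real.log ((Lq n q).index : ℝ) := by
    rw [← nsmul_eq_mul]
    exact Finset.card_nsmul_le_sum _ _ _ hlow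
  have h4 : Real.log m ≤ Real.log n := by
    refine Real.log_le_log (by linarith) ?_
    rw [hmdef]
    exact_mod_cast (by omega : (n - 1) / 2 ≤ n)
  have h6 : (P.card : ℝ) * (δ / 8 * m * Real.log n) ≤ m / 2 * Real.log n :=
    h3.trans (hs.trans (mul_le_mul_of_nonneg_left h4 (by linarith)))
  have h7 : (P.card : ℝ) * δ * (m * Real.log n / 8) ≤ 4 * (m * Real.log n / 8) := by
    calc (P.card : ℝ) * δ * (m * Real.log n / 8) = (P.card : ℝ) * (δ / 8 * m * Real.log n) := by ring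
      _ ≤ m / 2 * Real.log n := h6
      _ = 4 * (m * Real.log n / 8) := by ring
  have h8 : 0 < m * Real.log n / 8 := by
    have : 0 < m := by linarith
    have : 0 < Real.log n := by linarith
    positivity
  rw [le_div_iff₀ hδ]
  exact le_of_mul_le_mul_right h7 h8

/-- union bound for finite sets -/
private theorem vcount_union (S A : Set ℕ) (hA : A.Finite) (B C D : Finset ℕ)
    (h : ∀ q ∈ S, q ∈ A ∨ q ∈ B ∨ q ∈ C ∨ q ∈ D) :
    S.Finite ∧ (S.ncard : ℝ) ≤ A.ncard + B.card + C.card + D.card := by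
  classical
  have hsub : S ⊆ ((hA.toFinset ∪ B ∪ C ∪ D : Finset ℕ) : Set ℕ) := by
    intro q hq
    rw [Finset.mem_coe, mem_union, mem_union, mem_union, Set.Finite.mem_toFinset]
    rcases h q hq with h | h | h | h <;> tauto
  refine ⟨(Finset.finite_toSet _).subset hsub, ?_⟩
  have h1 := Set.ncard_le_ncard hsub (Finset.finite_toSet _)
  rw [Set.ncard_coe_finset] at h1
  have h2 := card_union_le (hA.toFinset ∪ B ∪ C) D
  have h3 := card_union_le (hA.toFinset ∪ B) C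
  have h4 := card_union_le hA.toFinset B
  have h5 : hA.toFinset.card = A.ncard := (Set.ncard_eq_toFinset_card A hA).symm
  have h6 : S.ncard ≤ A.ncard + B.card + C.card + D.card := by omega
  exact_mod_cast h6

private theorem vcount_two (hL : PL) (ε : ℝ) (hε : 0 < ε) : ∃ C : ℝ, ∀ n : ℕ, n.Prime → 5 ≤ n →
    {q : ℕ | q.Prime ∧ (n : ℝ) ^ (1 / 2 + ε) ≤ q ∧
      ∃ x y : ℕ, 1 < x ∧ 1 < y ∧ y ^ q * (x - 1) = x ^ n - 1}.Finite ∧
    ({q : ℕ | q.Prime ∧ (n : ℝ) ^ (1 / 2 + ε) ≤ q ∧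
      ∃ x y : ℕ, 1 < x ∧ 1 < y ∧ y ^ q * (x - 1) = x ^ n - 1}.ncard : ℝ) ≤ C * Real.log n := by
  classical
  obtain ⟨C₁, hC₁, h1⟩ := v_one
  obtain ⟨δ, n0, hδ, hn05, hg⟩ := good_none hL ε hε
  set F : ℕ := ⌈8 / δ⌉₊ with hF
  set c : ℝ := C₁ * Real.exp 1 with hc
  have he1 : (2 : ℝ) ≤ Real.exp 1 := by
    have := Real.add_one_le_exp (1 : ℝ)
    linarith
  have hc2 : 2 ≤ c := by nlinarith
  -- `c n log n ≤ n ^ 2` for large `n`
  obtain ⟨n1, hn1⟩ : ∃ n1 : ℕ, ∀ n : ℕ, n1 ≤ n → c * n * Real.log n ≤ (n : ℝ) ^ 2 := by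
    have h := Real.isLittleO_log_id_atTop.bound (c := 1 / c) (by positivity)
    obtain ⟨a, ha⟩ := Filter.eventually_atTop.1 h
    refine ⟨⌈a⌉₊ + 1, fun n hn => ?_⟩
    have h2 : a ≤ ⌈a⌉₊ := Nat.le_ceil a
    have h3 : ((⌈a⌉₊ + 1 : ℕ) : ℝ) ≤ n := by exact_mod_cast hn
    push_cast at h3
    have h4 := ha n (by linarith)
    have h5 : (0 : ℝ) ≤ n := Nat.cast_nonneg _
    rw [id, Real.norm_eq_abs, Real.norm_eq_abs, abs_of_nonneg h5] at h4
    have h6 : Real.log n ≤ 1 / c * n := (le_abs_self _).trans h4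
    calc c * n * Real.log n ≤ c * n * (1 / c * n) := mul_le_mul_of_nonneg_left h6 (by positivity)
      _ = (n : ℝ) ^ 2 := by field_simp
  set n2 : ℕ := max n0 n1 with hn2
  refine ⟨1 / 2 + (F ^ 2 * (c + 1) + 4 / δ + 1) + (c * n2 * Real.log n2 + 1), fun n hn h5 => ?_⟩
  have : Fact n.Prime := ⟨hn⟩
  have hl := vcount_log h5
  have hnR : (5 : ℝ) ≤ n := by exact_mod_cast h5
  obtain ⟨hAf, hAc⟩ := h1 n hn h5 1 le_rfl
  have hAc' : (({q : ℕ | q.Prime ∧ C₁ * Real.exp 1 * n * Real.log n ≤ q ∧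
      ∃ x y : ℕ, 1 < x ∧ 1 < y ∧ y ^ q * (x - 1) = x ^ n - 1}.ncard : ℕ) : ℝ) ≤
        1 / 2 * Real.log n := hAc.trans (by linarith)
  have hpos : 0 ≤ (F : ℝ) ^ 2 * (c + 1) + 4 / δ + 1 := by positivity
  have hpos2 : 0 ≤ c * n2 * Real.log n2 := by
    have : 0 ≤ Real.log (n2 : ℝ) := Real.log_natCast_nonneg _
    positivity
  rcases lt_or_ge n n2 with hlt | hge
  · -- small `n`
    set U : Finset ℕ := range (⌈c * n * Real.log n⌉₊) with hU
    obtain ⟨ha, hb⟩ := vcount_union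
      {q : ℕ | q.Prime ∧ (n : ℝ) ^ (1 / 2 + ε) ≤ q ∧
        ∃ x y : ℕ, 1 < x ∧ 1 < y ∧ y ^ q * (x - 1) = x ^ n - 1} _ hAf U ∅ ∅ (by
        rintro q ⟨hq1, hq2, hq3⟩
        by_cases hq : C₁ * Real.exp 1 * n * Real.log n ≤ q
        · exact Or.inl ⟨hq1, hq, hq3⟩
        · right; left
          rw [hU, mem_range]
          exact Nat.lt_ceil.2 (not_le.1 hq))
    refine ⟨ha, hb.trans ?_⟩
    rw [card_empty, hU, card_range]
    have h6 : ((⌈c * n * Real.log n⌉₊ : ℕ) : ℝ) ≤ c * n * Real.log n + 1 :=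
      (Nat.ceil_lt_add_one (by positivity)).le
    have h7 : (n : ℝ) ≤ n2 := by exact_mod_cast hlt.le
    have h8 : Real.log n ≤ Real.log n2 := Real.log_le_log (by linarith) h7
    have h9 : c * n * Real.log n ≤ c * n2 * Real.log n2 := by
      have h10 : c * (n : ℝ) ≤ c * n2 := mul_le_mul_of_nonneg_left h7 (by linarith)
      exact mul_le_mul h10 h8 (by linarith) (by positivity)
    have h11 : c * n2 * Real.log n2 + 1 ≤ (c * n2 * Real.log n2 + 1) * Real.log n := by nlinarith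
    have h12 : 0 ≤ ((F : ℝ) ^ 2 * (c + 1) + 4 / δ + 1) * Real.log n := by positivity
    push_cast
    nlinarith
  · -- large `n`
    have hge0 : n0 ≤ n := (le_max_left _ _).trans hge
    have hge1 : n1 ≤ n := (le_max_right _ _).trans hge
    set B : ℕ := ⌈c * Real.log n⌉₊ with hB
    set D : Finset ℕ := (range (B * n)).filter fun q => ¬ n ∣ q ∧ orderOf (q : ZMod n) ≤ F with hD
    set E : Finset ℕ := (range (B * n)).filter fun q => q.Prime ∧ (n : ℝ) ^ (1 / 2 : ℝ) ≤ q ∧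
      Real.exp (δ / 4 * ((n - 1) / 2 : ℕ) * Real.log q) < ((Lq n q).index : ℝ) with hE
    obtain ⟨ha, hb⟩ := vcount_union
      {q : ℕ | q.Prime ∧ (n : ℝ) ^ (1 / 2 + ε) ≤ q ∧
        ∃ x y : ℕ, 1 < x ∧ 1 < y ∧ y ^ q * (x - 1) = x ^ n - 1} _ hAf D E {n} (by
        rintro q ⟨hq1, hq2, x, y, hx, hy, heq⟩
        by_cases hq : C₁ * Real.exp 1 * n * Real.log n ≤ q
        · exact Or.inl ⟨hq1, hq, x, y, hx, hy, heq⟩
        right
        by_cases hqn : q = n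
        · right; right
          rw [mem_singleton]
          exact hqn
        push Not at hq
        have hqB : q < B * n := by
          have h6 : c * Real.log n ≤ B := Nat.le_ceil _
          have h7 : c * Real.log n * n ≤ B * n := mul_le_mul_of_nonneg_right h6 (by linarith)
          have h8 : (q : ℝ) < B * n := by
            calc (q : ℝ) < C₁ * Real.exp 1 * n * Real.log n := hq
              _ = c * Real.log n * n := by rw [hc]; ring
              _ ≤ B * n := h7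
          exact_mod_cast h8
        by_cases hord : orderOf (q : ZMod n) ≤ F
        · left
          rw [hD, mem_filter, mem_range]
          refine ⟨hqB, fun hdvd => ?_, hord⟩
          rcases (Nat.dvd_prime hq1).1 hdvd with h6 | h6
          · omega
          · exact hqn h6.symm
        right; left
        rw [hE, mem_filter, mem_range]
        refine ⟨hqB, hq1, le_trans ?_ hq2, ?_⟩
        · exact Real.rpow_le_rpow_of_exponent_le (by linarith) (by linarith)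
        by_contra hidx
        push Not at hidx
        push Not at hord
        refine hg n q x y hge0 hq1 hqn hq2 ?_ ?_ hidx hx hy heq
        · exact hq.le.trans (hn1 n hge1)
        · have h6 : 8 / δ ≤ F := Nat.le_ceil _
          have h7 : (F : ℝ) ≤ orderOf (q : ZMod n) := by exact_mod_cast hord.le
          exact h6.trans h7)
    refine ⟨ha, hb.trans ?_⟩
    have hDc : (D.card : ℝ) ≤ F ^ 2 * B := by
      have := small_ord hn F B
      exact_mod_cast this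
    have hEc : (E.card : ℝ) ≤ 4 / δ := by
      refine vcount_index h5 hδ E fun q hq => ?_
      rw [hE, mem_filter] at hq
      exact hq.2
    have hBc : (B : ℝ) ≤ c * Real.log n + 1 := (Nat.ceil_lt_add_one (by positivity)).le
    rw [card_singleton]
    have hF0 : (0 : ℝ) ≤ (F : ℝ) ^ 2 := by positivity
    have h6 : (F : ℝ) ^ 2 * B ≤ F ^ 2 * ((c + 1) * Real.log n) := by
      refine mul_le_mul_of_nonneg_left (hBc.trans ?_) hF0
      nlinarith
    have h7 : 4 / δ ≤ 4 / δ * Real.log n := by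
      have : 0 ≤ 4 / δ := by positivity
      nlinarith
    have h8 : 0 ≤ (c * n2 * Real.log n2 + 1) * Real.log n := by positivity
    push_cast
    nlinarith


private theorem vcount_ord {n q : ℕ} (hn : n.Prime) (hq : q.Prime) (h0 : q ≠ n)
    (h1 : ¬ n ∣ q - 1) (h2 : ¬ n ∣ q + 1) : 3 ≤ orderOf (q : ZMod n) := by
  have : Fact n.Prime := ⟨hn⟩
  have hne : (q : ZMod n) ≠ 0 := by
    intro h
    rcases (Nat.dvd_prime hq).1 ((ZMod.natCast_eq_zero_iff q n).1 h) with h3 | h3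
    · exact hn.one_lt.ne' h3
    · exact h0 h3.symm
  have hpos : 0 < orderOf (q : ZMod n) := by
    refine orderOf_pos_iff.2 (isOfFinOrder_iff_pow_eq_one.2 ⟨n - 1, ?_, ?_⟩)
    · have := hn.one_lt
      omega
    · exact ZMod.pow_card_sub_one_eq_one hne
  by_contra hlt
  push Not at hlt
  have h3 : (q : ZMod n) ^ 2 = 1 := by
    have h4 : orderOf (q : ZMod n) ∣ 2 := by
      have h5 : orderOf (q : ZMod n) = 1 ∨ orderOf (q : ZMod n) = 2 := by omega
      rcases h5 with h5 | h5 <;> rw [h5] <;> norm_num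
    exact orderOf_dvd_iff_pow_eq_one.1 h4
  have h4 : ((q : ZMod n) - 1) * ((q : ZMod n) + 1) = 0 := by
    have : ((q : ZMod n) - 1) * ((q : ZMod n) + 1) = (q : ZMod n) ^ 2 - 1 := by ring
    rw [this, h3, sub_self]
  rcases mul_eq_zero.1 h4 with h5 | h5
  · apply h1
    rw [← ZMod.natCast_eq_zero_iff, Nat.cast_sub hq.one_lt.le, Nat.cast_one]
    exact h5
  · apply h2
    rw [← ZMod.natCast_eq_zero_iff, Nat.cast_add, Nat.cast_one]
    exact h5

private theorem vcount_big (C₁ : ℝ) (hC₁ : 1 ≤ C₁) : ∃ n1 : ℕ, ∀ n : ℕ, n1 ≤ n → 8 ≤ n →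
    C₁ * Real.exp (1 / 2 * Real.log n) * n * Real.log n ≤ (n : ℝ) ^ 2 := by
  have h := (isLittleO_log_rpow_atTop (r := 1 / 2) (by norm_num)).bound (c := 1 / C₁) (by positivity)
  obtain ⟨a, ha⟩ := Filter.eventually_atTop.1 h
  refine ⟨⌈a⌉₊ + 1, fun n hn h8 => ?_⟩
  have h2 : a ≤ ⌈a⌉₊ := Nat.le_ceil a
  have h3 : ((⌈a⌉₊ + 1 : ℕ) : ℝ) ≤ n := by exact_mod_cast hn
  push_cast at h3
  have h4 := ha n (by linarith)
  have h5 : (0 : ℝ) < n := by exact_mod_cast (by omega : 0 < n)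
  have h6 : (0 : ℝ) < (n : ℝ) ^ (1 / 2 : ℝ) := by positivity
  rw [Real.norm_eq_abs, Real.norm_eq_abs, abs_of_pos h6] at h4
  have h7 : Real.log n ≤ 1 / C₁ * (n : ℝ) ^ (1 / 2 : ℝ) := (le_abs_self _).trans h4
  have h8' : Real.exp (1 / 2 * Real.log n) = (n : ℝ) ^ (1 / 2 : ℝ) := by
    rw [Real.rpow_def_of_pos h5, mul_comm]
  rw [h8']
  have h9 : (n : ℝ) ^ (1 / 2 : ℝ) * (n : ℝ) ^ (1 / 2 : ℝ) = n := by
    rw [← Real.rpow_add h5]
    norm_num
  calc C₁ * (n : ℝ) ^ (1 / 2 : ℝ) * n * Real.log n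
      ≤ C₁ * (n : ℝ) ^ (1 / 2 : ℝ) * n * (1 / C₁ * (n : ℝ) ^ (1 / 2 : ℝ)) :=
        mul_le_mul_of_nonneg_left h7 (by positivity)
    _ = (n : ℝ) * ((n : ℝ) ^ (1 / 2 : ℝ) * (n : ℝ) ^ (1 / 2 : ℝ)) := by field_simp
    _ = (n : ℝ) ^ 2 := by rw [h9]; ring

/-- at most `C log n` prime exponents `q ≥ n ^ (1/2 + ε)`, at most `C` of them with `q` not congruent to
`1` or `-1` modulo `n` -/
theorem v_two (hL : PL) (ε : ℝ) (hε : 0 < ε) : ∃ C : ℝ, ∀ n : ℕ, n.Prime → 5 ≤ n →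
    {q : ℕ | q.Prime ∧ (n : ℝ) ^ (1 / 2 + ε) ≤ q ∧
      ∃ x y : ℕ, 1 < x ∧ 1 < y ∧ y ^ q * (x - 1) = x ^ n - 1}.Finite ∧
    ({q : ℕ | q.Prime ∧ (n : ℝ) ^ (1 / 2 + ε) ≤ q ∧
      ∃ x y : ℕ, 1 < x ∧ 1 < y ∧ y ^ q * (x - 1) = x ^ n - 1}.ncard : ℝ) ≤ C * Real.log n ∧
    ({q : ℕ | q.Prime ∧ (n : ℝ) ^ (1 / 2 + ε) ≤ q ∧ ¬ n ∣ q - 1 ∧ ¬ n ∣ q + 1 ∧
      ∃ x y : ℕ, 1 < x ∧ 1 < y ∧ y ^ q * (x - 1) = x ^ n - 1}.ncard : ℝ) ≤ C := by
  classical
  obtain ⟨C₀, h0⟩ := vcount_two hL ε hε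
  obtain ⟨C₁, hC₁, h1⟩ := v_one
  obtain ⟨δ, n0, hδ, hn05, hg⟩ := good_none hL ε hε
  obtain ⟨δ', n0', hδ', hn05', hg'⟩ := good_noneC hL
  obtain ⟨n1, hn1⟩ := vcount_big C₁ hC₁
  set F : ℕ := ⌈8 / δ⌉₊ with hF
  set n2 : ℕ := max (max n0 n0') (max n1 8) with hn2
  set D₀ : ℝ := 1 + (F ^ 2 + (4 / δ + 16 / δ') + 1) with hD₀
  have hD₀0 : 0 ≤ D₀ := by positivity
  have hl2 : 0 ≤ Real.log (n2 : ℝ) := Real.log_natCast_nonneg _
  refine ⟨|C₀| + |C₀| * Real.log n2 + D₀, fun n hn h5 => ?_⟩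
  have : Fact n.Prime := ⟨hn⟩
  have hl := vcount_log h5
  have hnR : (5 : ℝ) ≤ n := by exact_mod_cast h5
  obtain ⟨hfin, hcard⟩ := h0 n hn h5
  have hsub : {q : ℕ | q.Prime ∧ (n : ℝ) ^ (1 / 2 + ε) ≤ q ∧ ¬ n ∣ q - 1 ∧ ¬ n ∣ q + 1 ∧
      ∃ x y : ℕ, 1 < x ∧ 1 < y ∧ y ^ q * (x - 1) = x ^ n - 1} ⊆
      {q : ℕ | q.Prime ∧ (n : ℝ) ^ (1 / 2 + ε) ≤ q ∧
      ∃ x y : ℕ, 1 < x ∧ 1 < y ∧ y ^ q * (x - 1) = x ^ n - 1} :=
    fun q hq => ⟨hq.1, hq.2.1, hq.2.2.2.2⟩
  have hC₀ : C₀ ≤ |C₀| := le_abs_self _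
  have hC₀0 : 0 ≤ |C₀| := abs_nonneg _
  refine ⟨hfin, hcard.trans ?_, ?_⟩
  · have h6 : C₀ * Real.log n ≤ |C₀| * Real.log n := mul_le_mul_of_nonneg_right hC₀ (by linarith)
    have h7 : 0 ≤ (|C₀| * Real.log n2 + D₀) * Real.log n := by positivity
    nlinarith
  rcases lt_or_ge n n2 with hlt | hge
  · have h6 := Set.ncard_le_ncard hsub hfin
    have h6R : ({q : ℕ | q.Prime ∧ (n : ℝ) ^ (1 / 2 + ε) ≤ q ∧ ¬ n ∣ q - 1 ∧ ¬ n ∣ q + 1 ∧
      ∃ x y : ℕ, 1 < x ∧ 1 < y ∧ y ^ q * (x - 1) = x ^ n - 1}.ncard : ℝ) ≤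
      ({q : ℕ | q.Prime ∧ (n : ℝ) ^ (1 / 2 + ε) ≤ q ∧
      ∃ x y : ℕ, 1 < x ∧ 1 < y ∧ y ^ q * (x - 1) = x ^ n - 1}.ncard : ℝ) := by exact_mod_cast h6
    have h7 : (n : ℝ) ≤ n2 := by exact_mod_cast hlt.le
    have h8 : Real.log n ≤ Real.log n2 := Real.log_le_log (by linarith) h7
    have h9 : C₀ * Real.log n ≤ |C₀| * Real.log n2 := mul_le_mul hC₀ h8 (by linarith) hC₀0
    linarith
  -- large `n`
  have hge0 : n0 ≤ n := ((le_max_left _ _).trans (le_max_left _ _)).trans hge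
  have hge0' : n0' ≤ n := ((le_max_right _ _).trans (le_max_left _ _)).trans hge
  have hge1 : n1 ≤ n := ((le_max_left _ _).trans (le_max_right _ _)).trans hge
  have hge8 : 8 ≤ n := ((le_max_right _ _).trans (le_max_right _ _)).trans hge
  have hn8 : (8 : ℝ) ≤ n := by exact_mod_cast hge8
  have hl8 : 2 ≤ Real.log n := by
    rw [Real.le_log_iff_exp_le (by linarith)]
    have h2 := Real.exp_one_lt_d9
    have h3 : Real.exp 2 = Real.exp 1 * Real.exp 1 := by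
      rw [← Real.exp_add]
      norm_num
    rw [h3]
    have h4 := Real.exp_pos 1
    nlinarith
  obtain ⟨hAf, hAc⟩ := h1 n hn h5 (1 / 2 * Real.log n) (by linarith)
  have hAc' : Real.log n / (2 * (1 / 2 * Real.log n)) = 1 := by
    have : Real.log n ≠ 0 := by linarith
    field_simp
  rw [hAc'] at hAc
  set D : Finset ℕ := (range (1 * n)).filter fun q => ¬ n ∣ q ∧ orderOf (q : ZMod n) ≤ F with hD
  set E : Finset ℕ := (range (n ^ 2 + 1)).filter fun q => q.Prime ∧ (n : ℝ) ^ (1 / 2 : ℝ) ≤ q ∧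
    Real.exp (δ / 4 * ((n - 1) / 2 : ℕ) * Real.log q) < ((Lq n q).index : ℝ) with hE
  set E' : Finset ℕ := (range (n ^ 2 + 1)).filter fun q => q.Prime ∧ (n : ℝ) ^ (1 / 2 : ℝ) ≤ q ∧
    Real.exp (δ' / 4 / 4 * ((n - 1) / 2 : ℕ) * Real.log q) < ((Lq n q).index : ℝ) with hE'
  obtain ⟨ha, hb⟩ := vcount_union
    {q : ℕ | q.Prime ∧ (n : ℝ) ^ (1 / 2 + ε) ≤ q ∧ ¬ n ∣ q - 1 ∧ ¬ n ∣ q + 1 ∧
      ∃ x y : ℕ, 1 < x ∧ 1 < y ∧ y ^ q * (x - 1) = x ^ n - 1} _ hAf D (E ∪ E') {n} (by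
      rintro q ⟨hq1, hq2, hqm, hqp, x, y, hx, hy, heq⟩
      by_cases hq : C₁ * Real.exp (1 / 2 * Real.log n) * n * Real.log n ≤ q
      · exact Or.inl ⟨hq1, hq, x, y, hx, hy, heq⟩
      right
      by_cases hqn : q = n
      · right; right
        rw [mem_singleton]
        exact hqn
      push Not at hq
      have hqn2 : (q : ℝ) ≤ (n : ℝ) ^ 2 := hq.le.trans (hn1 n hge1 hge8)
      have hqn2' : q < n ^ 2 + 1 := by
        have : q ≤ n ^ 2 := by exact_mod_cast hqn2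
        omega
      have hqhalf : (n : ℝ) ^ (1 / 2 : ℝ) ≤ q :=
        le_trans (Real.rpow_le_rpow_of_exponent_le (by linarith) (by linarith)) hq2
      rcases lt_or_ge q n with hlt | hge'
      · by_cases hord : orderOf (q : ZMod n) ≤ F
        · left
          rw [hD, mem_filter, mem_range, one_mul]
          exact ⟨hlt, fun hdvd => absurd (Nat.le_of_dvd hq1.pos hdvd) (by omega), hord⟩
        right; left
        rw [mem_union]
        left
        rw [hE, mem_filter, mem_range]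
        refine ⟨hqn2', hq1, hqhalf, ?_⟩
        by_contra hidx
        push Not at hidx
        push Not at hord
        refine hg n q x y hge0 hq1 hqn hq2 hqn2 ?_ hidx hx hy heq
        have h6 : 8 / δ ≤ F := Nat.le_ceil _
        have h7 : (F : ℝ) ≤ orderOf (q : ZMod n) := by exact_mod_cast hord.le
        exact h6.trans h7
      · right; left
        rw [mem_union]
        right
        rw [hE', mem_filter, mem_range]
        refine ⟨hqn2', hq1, hqhalf, ?_⟩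
        by_contra hidx
        push Not at hidx
        refine hg' n q x y hge0' hq1 hqn hge' hqn2 (vcount_ord hn hq1 hqn hqm hqp) ?_ hx hy heq
        refine hidx.trans (le_of_eq ?_)
        congr 1
        ring)
  refine hb.trans ?_
  have hDc : (D.card : ℝ) ≤ F ^ 2 := by
    have := small_ord hn F 1
    rw [mul_one] at this
    exact_mod_cast this
  have hEc : (E.card : ℝ) ≤ 4 / δ := by
    refine vcount_index h5 hδ E fun q hq => ?_
    rw [hE, mem_filter] at hq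
    exact hq.2
  have hEc' : (E'.card : ℝ) ≤ 16 / δ' := by
    have h6 := vcount_index h5 (δ := δ' / 4) (by positivity) E' fun q hq => by
      rw [hE', mem_filter] at hq
      exact hq.2
    have h7 : 4 / (δ' / 4) = 16 / δ' := by
      field_simp
      norm_num
    rwa [h7] at h6
  have hEu : ((E ∪ E').card : ℝ) ≤ E.card + E'.card := by exact_mod_cast card_union_le E E'
  rw [card_singleton]
  have h9 : 0 ≤ |C₀| * Real.log n2 := by positivity
  push_cast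
  rw [hD₀]
  linarith

end Pool.Agent.NLS
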