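import Pool.Agent.NLS.UBX
import Pool.Agent.NLS.PrsB
import Pool.Agent.NLS.NrmT

/-!
# NLS-ZerB: the norm zero estimate (few primes over `q`)

If fewer than `N` values of `ps s 1` occur modulo each of `j` primes over `q`, one from each pair of conjugate primes, then
two different exponents agree modulo all of them, and the norm of the difference is at least `q ^ (2 f j)`, against the bound
`norm_ps`. So some prime has `N` different values; modulo this prime the minor is a Vandermonde determinant.
-/

open NumberField Finset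
open Pool.Agent.AAP Pool.Agent.Helper7.HU

namespace Pool.Agent.NLS

private theorem zerb_ord {n : ℕ} [Fact n.Prime] {q : ℕ} (hq : q.Prime) (hqn : q ≠ n) :
    0 < orderOf ((q : ZMod n) ^ 2) := by
  have hco : q.Coprime n := (Nat.coprime_primes hq (Fact.out : n.Prime)).2 hqn
  rw [← ZMod.coe_unitOfCoprime q hco, ← Units.val_pow_eq_pow_val, orderOf_units]
  exact orderOf_pos _

theorem minor_norm {n : ℕ} [Fact n.Prime] (hn2 : n ≠ 2) {q : ℕ} (hq : q.Prime) (hqn : q ≠ n) {N r f j : ℕ}
    (hN : 1 ≤ N) (hf : f = orderOf ((q : ZMod n) ^ 2)) (hj : j * f ≤ (n - 1) / 2)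
    (hr : (n * r ^ 2) ^ ((n - 1) / 2) < q ^ (2 * (f * j))) : MinorOK n q r N (N ^ j) := by
  classical
  intro K _ _ _ X hX hc
  obtain ⟨P, hmax, hPc, hnorm⟩ := exists_classes n hn2 K hq hqn
  rw [← hf] at hPc hnorm
  have hf0 : 0 < f := by
    rw [hf]
    exact zerb_ord hq hqn
  have hjP : j ≤ P.card := by
    rw [← hPc] at hj
    exact Nat.le_of_mul_le_mul_right hj hf0
  obtain ⟨J, hJP, hJ⟩ := Finset.exists_subset_card_eq hjP
  have hH : (H n).card = (n - 1) / 2 := by
    have := card_H n hn2
    omega
  obtain ⟨p, hp, hNp⟩ : ∃ p ∈ J,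
      N ≤ (X.image fun s => Ideal.Quotient.mk p (-ps n K s 1)).card := by
    by_contra hcon
    push Not at hcon
    have h1 : X.card ≤
        (J.pi fun p => X.image fun s => Ideal.Quotient.mk p (-ps n K s 1)).card := by
      refine Finset.card_le_card_of_injOn
        (fun s => fun p _ => Ideal.Quotient.mk p (-ps n K s 1)) ?_ ?_
      · intro s hs
        rw [Finset.mem_coe, Finset.mem_pi]
        intro p _
        exact Finset.mem_image_of_mem _ hs
      · intro s hs t ht hst
        by_contra hne
        have hv : s - t ≠ 0 := sub_ne_zero.2 hne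
        have h5 : ∀ p ∈ J, ps n K (s - t) 1 ∈ p := by
          intro p hp
          have h2 : Ideal.Quotient.mk p (-ps n K s 1) = Ideal.Quotient.mk p (-ps n K t 1) :=
            congrFun (congrFun hst p) hp
          rw [Ideal.Quotient.eq] at h2
          have h3 := p.neg_mem h2
          have h4 : -(-ps n K s 1 - -ps n K t 1) = ps n K (s - t) 1 := by
            have h6 := ps_add (K := K) (s - t) t 1
            rw [sub_add_cancel] at h6
            rw [h6]
            ring
          rwa [h4] at h3
        have h6 := hnorm J hJP (s - t) hv h5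
        have h7 := norm_ps (K := K) hn2 (v := s - t) (r := r) (fun e => hX s hs t ht e)
        rw [hJ] at h6
        rw [hH] at h7
        omega
    rw [Finset.card_pi] at h1
    have h2 : ∏ p ∈ J, (X.image fun s => Ideal.Quotient.mk p (-ps n K s 1)).card ≤
        N ^ J.card := by
      refine (Finset.prod_le_prod' fun p hp => (hcon p hp).le).trans ?_
      rw [Finset.prod_const]
    rw [hJ] at h2
    omega
  obtain ⟨T, hT, hTN⟩ := Finset.exists_subset_card_eq hNp
  have hm : p.IsMaximal := (hmax p (hJP hp)).1
  have h1 : ∀ i : Fin N, ∃ s ∈ X, Ideal.Quotient.mk p (-ps n K s 1) =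
      (((T.equivFinOfCardEq hTN).symm i : T) : 𝓞 K ⧸ p) := fun i =>
    Finset.mem_image.1 (hT ((T.equivFinOfCardEq hTN).symm i).2)
  choose u huX hu using h1
  refine ⟨u, huX, fun hdet => ?_⟩
  have h2 : Ideal.Quotient.mk p (Matrix.of fun i j : Fin N => Qj n K q (u i) (j : ℕ)).det =
      (Matrix.vandermonde fun i => Ideal.Quotient.mk p (-ps n K (u i) 1)).det := by
    rw [RingHom.map_det]
    congr 1
    ext i j
    rw [RingHom.mapMatrix_apply, Matrix.map_apply, Matrix.of_apply, Matrix.vandermonde_apply,
      ← map_pow, Ideal.Quotient.eq]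
    exact (Ideal.span_singleton_le_iff_mem p).2 (hmax p (hJP hp)).2 (Qj_congr (u i) (j : ℕ))
  rw [hdet, map_zero] at h2
  refine (Matrix.det_vandermonde_ne_zero_iff.2 ?_) h2.symm
  intro i j hij
  have h3 : (((T.equivFinOfCardEq hTN).symm i : T) : 𝓞 K ⧸ p) =
      (((T.equivFinOfCardEq hTN).symm j : T) : 𝓞 K ⧸ p) := by
    rw [← hu i, ← hu j]
    exact hij
  exact (T.equivFinOfCardEq hTN).symm.injective (Subtype.ext h3)

end Pool.Agent.NLS
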