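import Pool.Agent.NLS.UBY
import Pool.Agent.NLS.ZerB
import Pool.Agent.NLS.ParE
import Pool.Agent.NLS.VGood
import Pool.Agent.NLS.VOne
import Pool.Agent.NLS.IdxM

/-!
# NLS-VEight: at most eight prime exponents `q > n`

The norm zero estimate and the parameters of `exists_parE` exclude the exponents `n < q ≤ n^2` with small index;
`v_one` excludes `q > n^2`, and the sum of the logarithms of the indices is at most `(m / 2) log m`.
-/

open NumberField Finset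
open Pool.Agent.AAP Pool.Agent.Helper7.HU

namespace Pool.Agent.NLS

theorem eight_idx (hL : PL) (ι : ℝ) (hι : ι < 1 / 16) : ∃ n0 : ℕ, 5 ≤ n0 ∧
    ∀ (n : ℕ) [Fact n.Prime] (q x y : ℕ), n0 ≤ n → q.Prime → n < q → (q : ℝ) ≤ (n : ℝ) ^ 2 →
      ((Lq n q).index : ℝ) ≤ Real.exp (ι * ((n - 1) / 2 : ℕ) * Real.log n) → 1 < x → 1 < y →
      y ^ q * (x - 1) ≠ x ^ n - 1 := by
  obtain ⟨n1, hn1⟩ := exists_parE ι hι
  obtain ⟨q1, hq1⟩ := hL (1 / 6) (by norm_num)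
  refine ⟨max (max n1 q1) 5, le_max_right _ _, fun n _ q x y hn hq hnq hq2 hI hx hy heq => ?_⟩
  have hnp : n.Prime := Fact.out
  have hn5 : 5 ≤ n := (le_max_right _ _).trans hn
  have hnn1 : n1 ≤ n := ((le_max_left _ _).trans (le_max_left _ _)).trans hn
  have hnq1 : q1 ≤ n := ((le_max_right _ _).trans (le_max_left _ _)).trans hn
  have hodd : Odd n := hnp.odd_of_ne_two (by omega)
  have hqn : q ≠ n := by omega
  have S : Sol n q x y := ⟨hnp, hq, hn5, by omega, hqn, hx, hy, heq⟩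
  have hcard : (H n).card = (n - 1) / 2 := card_H n (by omega)
  have hI0 : (0 : ℝ) < ((Lq n q).index : ℝ) := by
    have := lq_index_ne (n := n) (by omega) q
    positivity
  obtain ⟨f, hf⟩ : ∃ f, f = orderOf ((q : ZMod n) ^ 2) := ⟨_, rfl⟩
  have hqz : (q : ZMod n) ≠ 0 := by
    intro h
    rw [ZMod.natCast_eq_zero_iff] at h
    exact hqn ((Nat.prime_dvd_prime_iff_eq hnp hq).1 h).symm
  have hfd : f ∣ (n - 1) / 2 := by
    rw [hf]
    apply orderOf_dvd_of_pow_eq_one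
    rw [← pow_mul]
    have h1 : 2 * ((n - 1) / 2) = n - 1 := by
      obtain ⟨t, ht⟩ := hodd
      omega
    rw [h1]
    exact ZMod.pow_card_sub_one_eq_one hqz
  have hf1 : 1 ≤ f := Nat.pos_of_dvd_of_pos hfd (by omega)
  obtain ⟨k, r, N, j, hk, hkm, hr, hN, hj, hrq, hH2, hH3, hH4⟩ := hn1 n q f
    ((Lq n q).index : ℝ) hnn1 hodd hnq hq2 hI0 hf1 hfd hI
  have hM := minor_norm (n := n) (by omega) hq hqn hN hf hj hrq
  have hub := upperX S hk (by rw [hcard]; exact hkm) hN (Nat.one_le_pow _ _ hN) hM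
    (by rw [hcard]; exact_mod_cast hH2) (by rw [hcard]; exact hH3)
  rw [hcard] at hub
  have hkR : (0 : ℝ) < k := by exact_mod_cast hk
  have h5 : Real.log x ≤ (n : ℝ) ^ (1 / 3 : ℝ) := by
    have h6 := hub.trans hH4
    exact le_of_mul_le_mul_left h6 hkR
  have hn0 : (0 : ℝ) < n := by
    have : 0 < n := by omega
    exact_mod_cast this
  have hn1R : (1 : ℝ) < n := by
    have : 1 < n := by omega
    exact_mod_cast this
  have hq4 : q ≤ n ^ 2 := by exact_mod_cast hq2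
  have h6 := hq1 q n x y (by omega) hq (by omega) (by omega)
    (by nlinarith) heq
  rw [min_eq_left hnq.le] at h6
  have hq6 : (q : ℝ) ^ (1 / 6 : ℝ) ≤ (n : ℝ) ^ (1 / 3 : ℝ) := by
    calc (q : ℝ) ^ (1 / 6 : ℝ) ≤ ((n : ℝ) ^ 2) ^ (1 / 6 : ℝ) :=
          Real.rpow_le_rpow (by positivity) hq2 (by norm_num)
      _ = (n : ℝ) ^ (1 / 3 : ℝ) := by
          rw [← Real.rpow_natCast (n : ℝ) 2, ← Real.rpow_mul hn0.le]
          norm_num
  have h7 : (n : ℝ) ≤ (n : ℝ) ^ (1 / 3 : ℝ) * (n : ℝ) ^ (1 / 3 : ℝ) :=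
    h6.trans (mul_le_mul h5 hq6 (by positivity) (by positivity))
  rw [← Real.rpow_add hn0] at h7
  have h8 : (n : ℝ) ^ (1 / 3 + 1 / 3 : ℝ) < (n : ℝ) ^ (1 : ℝ) :=
    Real.rpow_lt_rpow_of_exponent_lt hn1R (by norm_num)
  rw [Real.rpow_one] at h8
  linarith

private theorem veight_fin (S : Set ℕ) (B : ℕ)
    (h : ∀ P : Finset ℕ, (∀ q ∈ P, q ∈ S) → P.card ≤ B) : S.Finite ∧ S.ncard ≤ B := by
  have hf : S.Finite := by
    by_contra hc
    obtain ⟨P, hP, hcard⟩ := Set.Infinite.exists_subset_card_eq hc (B + 1)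
    have h1 := h P fun q hq => hP hq
    omega
  refine ⟨hf, ?_⟩
  have h1 := h hf.toFinset fun q hq => hf.mem_toFinset.1 hq
  rwa [← Set.ncard_eq_toFinset_card S hf] at h1

private theorem veight_large (C : ℝ) (hC : 1 ≤ C) : ∃ n0 : ℕ, ∀ n : ℕ, n0 ≤ n →
    1 ≤ 3 / 4 * Real.log n ∧
      C * Real.exp (3 / 4 * Real.log n) * n * Real.log n ≤ (n : ℝ) ^ 2 := by
  have h1 := ((isLittleO_log_rpow_atTop (r := 1 / 4) (by norm_num)).def
    (c := 1 / C) (by positivity)).and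
    ((Real.tendsto_log_atTop.eventually_ge_atTop (2 : ℝ)).and
      (Filter.eventually_ge_atTop (1 : ℝ)))
  obtain ⟨n0, hn0⟩ := Filter.eventually_atTop.1
    (tendsto_natCast_atTop_atTop.eventually h1)
  refine ⟨n0, fun n hn => ?_⟩
  obtain ⟨h2, h3, h4⟩ := hn0 n hn
  have hn : (0 : ℝ) < n := by linarith
  have hp : (0 : ℝ) < (n : ℝ) ^ (1 / 4 : ℝ) := Real.rpow_pos_of_pos hn _
  rw [Real.norm_eq_abs, Real.norm_eq_abs, abs_of_pos hp] at h2
  have h5 : C * Real.log n ≤ (n : ℝ) ^ (1 / 4 : ℝ) := by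
    have h6 := (le_abs_self _).trans h2
    rw [div_mul_eq_mul_div, one_mul, le_div_iff₀ (by linarith)] at h6
    linarith
  refine ⟨by linarith, ?_⟩
  have h7 : Real.exp (3 / 4 * Real.log n) = (n : ℝ) ^ (3 / 4 : ℝ) := by
    rw [Real.rpow_def_of_pos hn, mul_comm]
  rw [h7]
  calc C * (n : ℝ) ^ (3 / 4 : ℝ) * n * Real.log n =
        (C * Real.log n) * ((n : ℝ) ^ (3 / 4 : ℝ) * n) := by ring
    _ ≤ (n : ℝ) ^ (1 / 4 : ℝ) * ((n : ℝ) ^ (3 / 4 : ℝ) * n) :=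
        mul_le_mul_of_nonneg_right h5 (by positivity)
    _ = (n : ℝ) ^ 2 := by
        rw [← mul_assoc, ← Real.rpow_add hn]
        norm_num
        ring

theorem eight (hL : PL) : ∃ n0 : ℕ, ∀ n : ℕ, n.Prime → n0 ≤ n →
    {q : ℕ | q.Prime ∧ n < q ∧ ∃ x y : ℕ, 1 < x ∧ 1 < y ∧ y ^ q * (x - 1) = x ^ n - 1}.Finite ∧
    {q : ℕ | q.Prime ∧ n < q ∧ ∃ x y : ℕ, 1 < x ∧ 1 < y ∧ y ^ q * (x - 1) = x ^ n - 1}.ncard ≤ 8 := by
  obtain ⟨n1, hn15, hn1⟩ := eight_idx hL (23 / 400) (by norm_num)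
  obtain ⟨C, hC, hv⟩ := v_one
  obtain ⟨n2, hn2⟩ := veight_large C hC
  refine ⟨max n1 n2, fun n hn hnn => ?_⟩
  have : Fact n.Prime := ⟨hn⟩
  have hnn1 : n1 ≤ n := (le_max_left _ _).trans hnn
  have hn5 : 5 ≤ n := hn15.trans hnn1
  obtain ⟨hρ, hbig⟩ := hn2 n ((le_max_right _ _).trans hnn)
  have hlog : 0 < Real.log n := by linarith
  obtain ⟨hvf, hvc⟩ := hv n hn hn5 (3 / 4 * Real.log n) hρ
  have hv0 : {q : ℕ | q.Prime ∧ C * Real.exp (3 / 4 * Real.log n) * n * Real.log n ≤ q ∧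
      ∃ x y : ℕ, 1 < x ∧ 1 < y ∧ y ^ q * (x - 1) = x ^ n - 1} = ∅ := by
    rw [← Set.ncard_eq_zero hvf]
    have h1 : Real.log n / (2 * (3 / 4 * Real.log n)) = 2 / 3 := by
      field_simp
      norm_num
    rw [h1] at hvc
    by_contra hne
    have h7 : (1 : ℝ) ≤ ({q : ℕ | q.Prime ∧
        C * Real.exp (3 / 4 * Real.log n) * n * Real.log n ≤ q ∧
        ∃ x y : ℕ, 1 < x ∧ 1 < y ∧ y ^ q * (x - 1) = x ^ n - 1}.ncard : ℝ) := by
      exact_mod_cast Nat.one_le_iff_ne_zero.2 hne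
    linarith
  refine veight_fin _ _ fun P hP => ?_
  have hn2' : n ≠ 2 := by omega
  have hcard := card_H n hn2'
  have hm2 : 2 ≤ (n - 1) / 2 := by omega
  have hmR : (2 : ℝ) ≤ (((n - 1) / 2 : ℕ) : ℝ) := by exact_mod_cast hm2
  have hlow : ∀ q ∈ P, 23 / 400 * (((n - 1) / 2 : ℕ) : ℝ) * Real.log n ≤
      Real.log ((Lq n q).index : ℝ) := by
    intro q hq
    obtain ⟨hqp, hqn, x, y, hx, hy, he⟩ := hP q hq
    have hi : (0 : ℝ) < ((Lq n q).index : ℝ) := by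
      exact_mod_cast Nat.pos_of_ne_zero (lq_index_ne hn2' q)
    have hqle : (q : ℝ) ≤ (n : ℝ) ^ 2 := by
      by_contra hc
      push Not at hc
      have h1 : q ∈ {q : ℕ | q.Prime ∧
          C * Real.exp (3 / 4 * Real.log n) * n * Real.log n ≤ q ∧
          ∃ x y : ℕ, 1 < x ∧ 1 < y ∧ y ^ q * (x - 1) = x ^ n - 1} :=
        ⟨hqp, hbig.trans hc.le, x, y, hx, hy, he⟩
      rw [hv0] at h1
      exact h1
    by_contra hc
    push Not at hc
    refine hn1 n q x y hnn1 hqp hqn hqle ?_ hx hy he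
    rw [← Real.log_le_iff_le_exp hi]
    exact hc.le
  have hs := sum_log_index hn2' P fun q hq => (hP q hq).1
  rw [hcard] at hs
  have h3 : (P.card : ℝ) * (23 / 400 * (((n - 1) / 2 : ℕ) : ℝ) * Real.log n) ≤
      ∑ q ∈ P, Real.log ((Lq n q).index : ℝ) := by
    rw [← nsmul_eq_mul]
    exact Finset.card_nsmul_le_sum _ _ _ hlow
  have h4 : Real.log (((n - 1) / 2 : ℕ) : ℝ) ≤ Real.log n := by
    refine Real.log_le_log (by linarith) ?_
    exact_mod_cast (by omega : (n - 1) / 2 ≤ n)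
  have h6 : (P.card : ℝ) * (23 / 400 * (((n - 1) / 2 : ℕ) : ℝ) * Real.log n) ≤
      (((n - 1) / 2 : ℕ) : ℝ) / 2 * Real.log n :=
    h3.trans (hs.trans (mul_le_mul_of_nonneg_left h4 (by positivity)))
  have hpos : (0 : ℝ) < (((n - 1) / 2 : ℕ) : ℝ) * Real.log n := by positivity
  have h7 : (((n - 1) / 2 : ℕ) : ℝ) * Real.log n * ((P.card : ℝ) * (23 / 400)) ≤
      (((n - 1) / 2 : ℕ) : ℝ) * Real.log n * (1 / 2) := by nlinarith
  have h8 := le_of_mul_le_mul_left h7 hpos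
  have h9 : (P.card : ℝ) < 9 := by linarith
  have h10 : P.card < 9 := by exact_mod_cast h9
  omega

end Pool.Agent.NLS
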