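import Pool.Agent.NLS.VCount
import Pool.Agent.NLS.VEight

/-!
# NLS-VFew: boundedly many exponents above `n ^ (1/2 + ε)`
-/

open NumberField Finset
open Pool.Agent.AAP Pool.Agent.Helper7.HU

namespace Pool.Agent.NLS

private theorem vfew_dvd {n q : ℕ} (hn : n.Prime) (h5 : 5 ≤ n) (hq : q.Prime) (h : q ≤ n) :
    ¬ n ∣ q - 1 ∧ ¬ n ∣ q + 1 := by
  have hq2 := hq.two_le
  constructor
  · intro hd
    have := Nat.le_of_dvd (by omega) hd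
    omega
  · intro hd
    obtain ⟨c, hc⟩ := hd
    have hc1 : c = 1 := by
      rcases Nat.lt_or_ge c 2 with h1 | h1
      · interval_cases c <;> omega
      · have : n * 2 ≤ n * c := Nat.mul_le_mul_left n h1
        omega
    rw [hc1, mul_one] at hc
    have ho := hn.odd_of_ne_two (by omega)
    obtain ⟨k, hk⟩ := ho
    have h2 : q = 2 * k := by omega
    have h3 : 2 ∣ q := ⟨k, h2⟩
    have h4 := (Nat.prime_dvd_prime_iff_eq Nat.prime_two hq).1 h3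
    omega

theorem v_few (hL : PL) (ε : ℝ) (hε : 0 < ε) : ∃ C : ℝ, ∀ n : ℕ, n.Prime → 5 ≤ n →
    {q : ℕ | q.Prime ∧ (n : ℝ) ^ (1 / 2 + ε) ≤ q ∧
      ∃ x y : ℕ, 1 < x ∧ 1 < y ∧ y ^ q * (x - 1) = x ^ n - 1}.Finite ∧
    ({q : ℕ | q.Prime ∧ (n : ℝ) ^ (1 / 2 + ε) ≤ q ∧
      ∃ x y : ℕ, 1 < x ∧ 1 < y ∧ y ^ q * (x - 1) = x ^ n - 1}.ncard : ℝ) ≤ C := by
  classical
  obtain ⟨C, hC⟩ := v_two hL ε hε
  obtain ⟨n0, h0⟩ := eight hL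
  have hC0 : 0 ≤ C := by
    obtain ⟨_, _, h⟩ := hC 5 (by norm_num) le_rfl
    exact le_trans (Nat.cast_nonneg _) h
  have hl0 : 0 ≤ Real.log (n0 : ℝ) := Real.log_natCast_nonneg _
  refine ⟨C * Real.log n0 + (C + 8), fun n hn h5 => ?_⟩
  obtain ⟨hfin, hlog, hC3⟩ := hC n hn h5
  refine ⟨hfin, ?_⟩
  rcases lt_or_ge n n0 with hlt | hge
  · have h1 : Real.log n ≤ Real.log n0 := by
      refine Real.log_le_log ?_ ?_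
      · exact_mod_cast (by omega : 0 < n)
      · exact_mod_cast hlt.le
    have h2 : C * Real.log n ≤ C * Real.log n0 := mul_le_mul_of_nonneg_left h1 hC0
    linarith
  · obtain ⟨h8f, h8⟩ := h0 n hn hge
    have hT : {q : ℕ | q.Prime ∧ (n : ℝ) ^ (1 / 2 + ε) ≤ q ∧ ¬ n ∣ q - 1 ∧ ¬ n ∣ q + 1 ∧
      ∃ x y : ℕ, 1 < x ∧ 1 < y ∧ y ^ q * (x - 1) = x ^ n - 1}.Finite :=
      hfin.subset fun q hq => ⟨hq.1, hq.2.1, hq.2.2.2.2⟩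
    have hsub : {q : ℕ | q.Prime ∧ (n : ℝ) ^ (1 / 2 + ε) ≤ q ∧
        ∃ x y : ℕ, 1 < x ∧ 1 < y ∧ y ^ q * (x - 1) = x ^ n - 1} ⊆
        {q : ℕ | q.Prime ∧ (n : ℝ) ^ (1 / 2 + ε) ≤ q ∧ ¬ n ∣ q - 1 ∧ ¬ n ∣ q + 1 ∧
          ∃ x y : ℕ, 1 < x ∧ 1 < y ∧ y ^ q * (x - 1) = x ^ n - 1} ∪
        {q : ℕ | q.Prime ∧ n < q ∧ ∃ x y : ℕ, 1 < x ∧ 1 < y ∧ y ^ q * (x - 1) = x ^ n - 1} := by
      rintro q ⟨hq1, hq2, hq3⟩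
      rcases lt_or_ge n q with h | h
      · exact Or.inr ⟨hq1, h, hq3⟩
      · obtain ⟨h6, h7⟩ := vfew_dvd hn h5 hq1 h
        exact Or.inl ⟨hq1, hq2, h6, h7, hq3⟩
    have h1 := Set.ncard_le_ncard hsub (hT.union h8f)
    have h2 := Set.ncard_union_le
        {q : ℕ | q.Prime ∧ (n : ℝ) ^ (1 / 2 + ε) ≤ q ∧ ¬ n ∣ q - 1 ∧ ¬ n ∣ q + 1 ∧
          ∃ x y : ℕ, 1 < x ∧ 1 < y ∧ y ^ q * (x - 1) = x ^ n - 1}
        {q : ℕ | q.Prime ∧ n < q ∧ ∃ x y : ℕ, 1 < x ∧ 1 < y ∧ y ^ q * (x - 1) = x ^ n - 1}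
    have h3 : ({q : ℕ | q.Prime ∧ (n : ℝ) ^ (1 / 2 + ε) ≤ q ∧
        ∃ x y : ℕ, 1 < x ∧ 1 < y ∧ y ^ q * (x - 1) = x ^ n - 1}.ncard : ℝ) ≤
        ({q : ℕ | q.Prime ∧ (n : ℝ) ^ (1 / 2 + ε) ≤ q ∧ ¬ n ∣ q - 1 ∧ ¬ n ∣ q + 1 ∧
          ∃ x y : ℕ, 1 < x ∧ 1 < y ∧ y ^ q * (x - 1) = x ^ n - 1}.ncard : ℝ) + 8 := by
      have h4 := h1.trans (h2.trans (Nat.add_le_add_left h8 _))
      exact_mod_cast h4
    have h4 : 0 ≤ C * Real.log n0 := mul_nonneg hC0 hl0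
    linarith

end Pool.Agent.NLS
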