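import Pool.Agent.NLS.VAll
import Pool.Agent.NLS.AllN

/-!
# NLS-VFin: few large prime exponents for all large lengths
-/

namespace Pool.Agent.NLS

/-- for all large `n`: the smallest of `j` primes which divide exponents is smaller than `n ^ (1/2 + 1/(4 j) + ε)` -/
theorem few_all (ε : ℝ) (hε : 0 < ε) : ∃ n0 : ℕ, ∀ n : ℕ, n0 ≤ n → ∀ P : Finset ℕ, P.Nonempty →
    (∀ q ∈ P, q.Prime ∧ ∃ m x y : ℕ, q ∣ m ∧ 1 < x ∧ 1 < y ∧ y ^ m * (x - 1) = x ^ n - 1) →
    ∃ q ∈ P, (q : ℝ) < (n : ℝ) ^ (1 / 2 + 1 / (4 * (P.card : ℝ)) + ε) := by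
  obtain ⟨n1, h1⟩ := few_primes ε hε
  obtain ⟨n2, h2⟩ := prime_length
  refine ⟨max (max n1 n2) 2, fun n hn P hP0 hP => ?_⟩
  have hnn1 : n1 ≤ n := ((le_max_left _ _).trans (le_max_left _ _)).trans hn
  have hnn2 : n2 ≤ n := ((le_max_right _ _).trans (le_max_left _ _)).trans hn
  have hn2 : 2 ≤ n := (le_max_right _ _).trans hn
  have hp : n.Prime := by
    obtain ⟨q, hq⟩ := hP0
    obtain ⟨hqp, m, x, y, hqm, hx, hy, heq⟩ := hP q hq
    have hm : 1 < m := by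
      rcases Nat.eq_zero_or_pos m with rfl | hm
      · rw [pow_zero, one_mul] at heq
        have h3 : x ^ 1 < x ^ n := Nat.pow_lt_pow_right hx (by omega)
        rw [pow_one] at h3
        omega
      · exact lt_of_lt_of_le hqp.one_lt (Nat.le_of_dvd hm hqm)
    exact h2 x y m n hnn2 hx hy hm heq
  exact h1 n hnn1 hp P hP0 hP

end Pool.Agent.NLS
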