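import Pool.Agent.NLS.VGood
import Pool.Agent.NLS.VOne
import Pool.Agent.NLS.UB2
import Pool.Agent.NLS.ParD

/-!
# NLS-VThree: no solutions for large exponents

No solution of length `n`, `n` a large prime, with a prime exponent `q ≠ n` such that
`q * min(n, q) ^ (1 - 1/f) ≥ n ^ (3/2 + ε)`, `f` the order of `q` in `(ℤ/n)ˣ / {±1}`.
-/

open NumberField Finset
open Pool.Agent.AAP Pool.Agent.Helper7.HU

namespace Pool.Agent.NLS

private theorem vthree_big (C₁ : ℝ) (hC₁ : 1 ≤ C₁) : ∃ n1 : ℕ, ∀ n : ℕ, n1 ≤ n → 8 ≤ n →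
    C₁ * Real.exp (3 / 4 * Real.log n) * n * Real.log n ≤ (n : ℝ) ^ 2 := by
  have h := (isLittleO_log_rpow_atTop (r := 1 / 4) (by norm_num)).bound (c := 1 / C₁) (by positivity)
  obtain ⟨a, ha⟩ := Filter.eventually_atTop.1 h
  refine ⟨⌈a⌉₊ + 1, fun n hn h8 => ?_⟩
  have h2 : a ≤ ⌈a⌉₊ := Nat.le_ceil a
  have h3 : ((⌈a⌉₊ + 1 : ℕ) : ℝ) ≤ n := by exact_mod_cast hn
  push_cast at h3
  have h4 := ha n (by linarith)
  have h5 : (0 : ℝ) < n := by exact_mod_cast (by omega : 0 < n)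
  have h6 : (0 : ℝ) < (n : ℝ) ^ (1 / 4 : ℝ) := by positivity
  rw [Real.norm_eq_abs, Real.norm_eq_abs, abs_of_pos h6] at h4
  have h7 : Real.log n ≤ 1 / C₁ * (n : ℝ) ^ (1 / 4 : ℝ) := (le_abs_self _).trans h4
  have h8' : Real.exp (3 / 4 * Real.log n) = (n : ℝ) ^ (3 / 4 : ℝ) := by
    rw [Real.rpow_def_of_pos h5, mul_comm]
  rw [h8']
  have h9 : (n : ℝ) ^ (3 / 4 : ℝ) * (n : ℝ) ^ (1 / 4 : ℝ) = n := by
    rw [← Real.rpow_add h5]
    norm_num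
  calc C₁ * (n : ℝ) ^ (3 / 4 : ℝ) * n * Real.log n
      ≤ C₁ * (n : ℝ) ^ (3 / 4 : ℝ) * n * (1 / C₁ * (n : ℝ) ^ (1 / 4 : ℝ)) :=
        mul_le_mul_of_nonneg_left h7 (by positivity)
    _ = (n : ℝ) * ((n : ℝ) ^ (3 / 4 : ℝ) * (n : ℝ) ^ (1 / 4 : ℝ)) := by field_simp
    _ = (n : ℝ) ^ 2 := by rw [h9]; ring

/-- no solution with `q > n ^ 2`, `n` large -/
private theorem vthree_sq : ∃ n0 : ℕ, ∀ n q x y : ℕ, n0 ≤ n → n.Prime → q.Prime → n ^ 2 < q → 1 < x →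
    1 < y → y ^ q * (x - 1) ≠ x ^ n - 1 := by
  obtain ⟨C₁, hC₁, h1⟩ := v_one
  obtain ⟨n1, hn1⟩ := vthree_big C₁ hC₁
  refine ⟨max n1 8, fun n q x y hn hnp hqp hq hx hy heq => ?_⟩
  have h8 : 8 ≤ n := (le_max_right _ _).trans hn
  have h8R : (8 : ℝ) ≤ n := by exact_mod_cast h8
  have hl8 : 2 ≤ Real.log n := by
    rw [Real.le_log_iff_exp_le (by linarith)]
    have h2 := Real.exp_one_lt_d9
    have h3 : Real.exp 2 = Real.exp 1 * Real.exp 1 := by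
      rw [← Real.exp_add]
      norm_num
    rw [h3]
    have h4 := Real.exp_pos 1
    nlinarith
  obtain ⟨hf, hc⟩ := h1 n hnp (by omega) (3 / 4 * Real.log n) (by linarith)
  have hc' : Real.log n / (2 * (3 / 4 * Real.log n)) = 2 / 3 := by
    have : Real.log n ≠ 0 := by linarith
    field_simp
    norm_num
  rw [hc'] at hc
  have hmem : q ∈ {q : ℕ | q.Prime ∧ C₁ * Real.exp (3 / 4 * Real.log n) * n * Real.log n ≤ q ∧
      ∃ x y : ℕ, 1 < x ∧ 1 < y ∧ y ^ q * (x - 1) = x ^ n - 1} := by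
    refine ⟨hqp, (hn1 n ((le_max_left _ _).trans hn) h8).trans ?_, x, y, hx, hy, heq⟩
    exact_mod_cast hq.le
  have hpos := (Set.ncard_pos hf).2 ⟨q, hmem⟩
  have hposR : (1 : ℝ) ≤ ({q : ℕ | q.Prime ∧ C₁ * Real.exp (3 / 4 * Real.log n) * n * Real.log n ≤ q ∧
      ∃ x y : ℕ, 1 < x ∧ 1 < y ∧ y ^ q * (x - 1) = x ^ n - 1}.ncard : ℝ) := by exact_mod_cast hpos
  linarith

theorem v_three (hL : PL) (ε : ℝ) (hε : 0 < ε) : ∃ n0 : ℕ, ∀ n q x y : ℕ, n0 ≤ n → n.Prime → q.Prime →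
    q ≠ n → (n : ℝ) ^ (3 / 2 + ε) ≤
      q * ((min n q : ℕ) : ℝ) ^ (1 - 1 / (orderOf ((q : ZMod n) ^ 2) : ℝ)) →
    1 < x → 1 < y → y ^ q * (x - 1) ≠ x ^ n - 1 := by
  obtain ⟨δ, n0, hδ, hn05, hpar⟩ := exists_parD ε hε
  obtain ⟨q1, hq1⟩ := hL δ hδ
  obtain ⟨n3, hn3⟩ := vthree_sq
  refine ⟨max (max n0 (q1 ^ 2)) (max n3 9), fun n q x y hn hnp hqp hqn hreg hx hy heq => ?_⟩
  have hn0 : n0 ≤ n := ((le_max_left _ _).trans (le_max_left _ _)).trans hn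
  have hnq1 : q1 ^ 2 ≤ n := ((le_max_right _ _).trans (le_max_left _ _)).trans hn
  have hnn3 : n3 ≤ n := ((le_max_left _ _).trans (le_max_right _ _)).trans hn
  have hn9 : 9 ≤ n := ((le_max_right _ _).trans (le_max_right _ _)).trans hn
  have hn9R : (9 : ℝ) ≤ n := by exact_mod_cast hn9
  have hn1 : (1 : ℝ) ≤ n := by linarith
  have : Fact n.Prime := ⟨hnp⟩
  rcases lt_or_ge (n ^ 2) q with hbig | hsm
  · exact hn3 n q x y hnn3 hnp hqp hbig hx hy heq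
  have hq2 : 2 ≤ q := hqp.two_le
  have hq1R : (1 : ℝ) ≤ q := by exact_mod_cast (by omega : 1 ≤ q)
  -- `n ≤ q ^ 2`, more precisely `n ^ (3/2) ≤ q ^ 2`
  have hmin1 : (1 : ℝ) ≤ ((min n q : ℕ) : ℝ) := by
    exact_mod_cast le_min (by omega : 1 ≤ n) (by omega : 1 ≤ q)
  have hminq : ((min n q : ℕ) : ℝ) ≤ q := by exact_mod_cast min_le_right n q
  have hpw : ((min n q : ℕ) : ℝ) ^ (1 - 1 / (orderOf ((q : ZMod n) ^ 2) : ℝ)) ≤ q := by
    have h1 : (1 - 1 / (orderOf ((q : ZMod n) ^ 2) : ℝ)) ≤ 1 := by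
      have : (0 : ℝ) ≤ 1 / (orderOf ((q : ZMod n) ^ 2) : ℝ) := by positivity
      linarith
    calc ((min n q : ℕ) : ℝ) ^ (1 - 1 / (orderOf ((q : ZMod n) ^ 2) : ℝ))
        ≤ ((min n q : ℕ) : ℝ) ^ (1 : ℝ) := Real.rpow_le_rpow_of_exponent_le hmin1 h1
      _ = ((min n q : ℕ) : ℝ) := Real.rpow_one _
      _ ≤ q := hminq
  have hqq : (n : ℝ) ^ (3 / 2 + ε) ≤ (q : ℝ) ^ 2 := by
    refine hreg.trans ?_
    have h2 := mul_le_mul_of_nonneg_left hpw (Nat.cast_nonneg q : (0 : ℝ) ≤ q)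
    have h3 : (q : ℝ) * q = (q : ℝ) ^ 2 := by ring
    rwa [h3] at h2
  have hnq2 : (n : ℝ) ≤ (q : ℝ) ^ 2 := by
    refine le_trans ?_ hqq
    calc (n : ℝ) = (n : ℝ) ^ (1 : ℝ) := (Real.rpow_one _).symm
      _ ≤ _ := Real.rpow_le_rpow_of_exponent_le hn1 (by linarith)
  have hnq2' : n ≤ q ^ 2 := by exact_mod_cast hnq2
  have hqq1 : q1 ≤ q := by
    by_contra h
    push Not at h
    have h2 : q ^ 2 < q1 ^ 2 := Nat.pow_lt_pow_left h (by norm_num)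
    omega
  have hq3 : 3 ≤ q := by
    by_contra h
    push Not at h
    have h2 : q = 2 := by omega
    rw [h2] at hnq2'
    omega
  have hodd : Odd n := hnp.odd_of_ne_two (by omega)
  have S : Sol n q x y := ⟨hnp, hqp, by omega, hq3, hqn, hx, hy, heq⟩
  have hcard : (H n).card = (n - 1) / 2 := card_H n (by omega)
  have hI0 : (0 : ℝ) < ((Lq n q).index : ℝ) := by
    have := lq_index_ne (n := n) (by omega) q
    positivity
  have hI1 : Real.log ((Lq n q).index : ℝ) ≤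
      (((n - 1) / 2 : ℕ) : ℝ) / 2 * Real.log (((n - 1) / 2 : ℕ) : ℝ) := by
    have h := sum_log_index (n := n) (by omega) {q} (by
      intro p hp
      rw [mem_singleton] at hp
      rw [hp]
      exact hqp)
    rwa [sum_singleton, hcard] at h
  have hf : 1 ≤ orderOf ((q : ZMod n) ^ 2) := by
    have hco : q.Coprime n := (Nat.coprime_primes hqp hnp).2 hqn
    rw [← ZMod.coe_unitOfCoprime q hco, ← Units.val_pow_eq_pow_val, orderOf_units]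
    exact orderOf_pos _
  obtain ⟨k, r, N, hk, hkm, hN, hNq, hr, hrq, hH2, hH3, hH4⟩ := hpar n q
    (orderOf ((q : ZMod n) ^ 2)) ((Lq n q).index : ℝ) hn0 hodd hf hsm hreg hI0 hI1
  have hub := upper2 S hk (by rw [hcard]; exact hkm) hN hNq hr hrq
    (by rw [hcard]; exact_mod_cast hH2) (by rw [hcard]; exact hH3)
  rw [hcard] at hub
  have hkR : (0 : ℝ) < k := by exact_mod_cast hk
  have h6 := hq1 q n x y hqq1 hqp (by omega) (by omega) hnq2' heq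
  have hqpos : (0 : ℝ) < (q : ℝ) ^ δ := by positivity
  have h7 : k * ((min n q : ℕ) : ℝ) ≤ k * (Real.log x * (q : ℝ) ^ δ) :=
    mul_le_mul_of_nonneg_left h6 hkR.le
  have h8 : k * (Real.log x * (q : ℝ) ^ δ) ≤
      6 * (((n - 1) / 2 : ℕ) : ℝ) * N * Real.log q * (q : ℝ) ^ δ := by
    calc k * (Real.log x * (q : ℝ) ^ δ) = (k * Real.log x) * (q : ℝ) ^ δ := by ring
      _ ≤ _ := mul_le_mul_of_nonneg_right hub hqpos.le
  linarith

end Pool.Agent.NLS
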