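import Pool.Agent.NLS.Pj
import Pool.Agent.NLS.Ev
import Pool.Agent.NLS.Ang

/-!
# NLS-Val: the roots are the values of the power series

The value at `1 / x` of the series with coefficients `P_j(s)` is a `q`-th root of `pr x s` close to `1`, hence it is the root `b`
of `IsRt`; the tail of the series is small.
-/

open NumberField Finset
open Pool.Agent.AAP Pool.Agent.Helper7.HU

namespace Pool.Agent.NLS

variable {n : ℕ} [Fact n.Prime] {K : Type} [Field K] [NumberField K] [IsCyclotomicExtension {n} ℚ K]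
  {q x : ℕ}

omit [NumberField K] in
private theorem val_alg (y : 𝓞 K) : (y : K) = algebraMap (𝓞 K) K y := rfl

private theorem val_norm_zp (τ : K →+* ℂ) (a : (ZMod n)ˣ) :
    ‖τ ((zp n K a : 𝓞 K) : K)‖ = 1 := by
  have h1 : τ ((zp n K a : 𝓞 K) : K) ^ n = 1 := by
    rw [val_alg, ← map_pow, ← map_pow, zp_pow_n, map_one, map_one]
  exact Complex.norm_eq_one_of_pow_eq_one h1 (Fact.out : n.Prime).ne_zero

/-- the summand of `-ps` which belongs to `a` -/
private noncomputable def val_g (n : ℕ) [Fact n.Prime] (K : Type) [Field K] [NumberField K]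
    [IsCyclotomicExtension {n} ℚ K] (a : (ZMod n)ˣ) (i : ℕ) : K :=
  -((zp n K a : 𝓞 K) : K) ^ i + ((-1 : ℤ) : K) * -((zp n K (-a) : 𝓞 K) : K) ^ i

private theorem val_ps (s : H n → ℤ) (i : ℕ) : -((ps n K s i : 𝓞 K) : K) =
    ∑ e : H n, (s e : K) * val_g n K (e : (ZMod n)ˣ) i := by
  unfold ps val_g
  simp only [val_alg]
  rw [map_sum, ← Finset.sum_neg_distrib]
  refine Finset.sum_congr rfl fun e _ => ?_
  rw [map_mul, map_sub, map_pow, map_pow, map_intCast]
  push_cast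
  ring

private theorem val_neg_norm (τ : K →+* ℂ) (a : (ZMod n)ˣ) (i : ℕ) :
    ‖τ (-((zp n K a : 𝓞 K) : K) ^ i)‖ ≤ 1 := by
  rw [map_neg, map_pow, norm_neg, norm_pow, val_norm_zp, one_pow]

private theorem val_g_norm (τ : K →+* ℂ) (a : (ZMod n)ˣ) (i : ℕ) :
    ‖τ (val_g n K a i)‖ ≤ 2 := by
  unfold val_g
  rw [map_add, map_mul, map_intCast]
  refine (norm_add_le _ _).trans ?_
  rw [norm_mul, Complex.norm_intCast]
  have h1 := val_neg_norm (K := K) τ a i
  have h2 := val_neg_norm (K := K) τ (-a) i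
  have h3 : |((-1 : ℤ) : ℝ)| = 1 := by norm_num
  rw [h3, one_mul]
  linarith

private theorem val_norm_inv (x : ℕ) : ‖(1 / (x : ℂ))‖ = 1 / (x : ℝ) := by
  rw [norm_div, norm_one, Complex.norm_natCast]

/-- the value for one `a` -/
private theorem val_V_g (hx : 1 < x) (hx6 : 3 * (1 / (x : ℝ)) ≤ 1 / 2) (τ : K →+* ℂ)
    (a : (ZMod n)ˣ) : V τ (1 / (x : ℂ)) (val_g n K a) = τ (al n K x a) := by
  have hx0 : (x : ℂ) ≠ 0 := by exact_mod_cast (by omega : x ≠ 0)
  have hxp : (0 : ℝ) ≤ 1 / (x : ℝ) := by positivity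
  have hN := val_norm_inv x
  have h1 : V τ (1 / (x : ℂ)) (val_g n K a) =
      V τ (1 / (x : ℂ)) (fun i => -((zp n K a : 𝓞 K) : K) ^ i) *
        V τ (1 / (x : ℂ)) (fun i => ((-1 : ℤ) : K) * -((zp n K (-a) : 𝓞 K) : K) ^ i) := by
    refine V_add τ (B := 1) (B' := 1) zero_le_one zero_le_one (fun i => val_neg_norm τ a _)
      (fun i => ?_) ?_
    · rw [map_mul, map_intCast, norm_mul, Complex.norm_intCast]
      have h3 : |((-1 : ℤ) : ℝ)| = 1 := by norm_num
      rw [h3, one_mul]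
      exact val_neg_norm τ (-a) _
    · rw [hN]
      linarith
  have h2 : V τ (1 / (x : ℂ)) (fun i => ((-1 : ℤ) : K) * -((zp n K (-a) : 𝓞 K) : K) ^ i) =
      V τ (1 / (x : ℂ)) (fun i => -((zp n K (-a) : 𝓞 K) : K) ^ i) ^ (-1 : ℤ) := by
    refine V_zsmul τ (g := fun i => -((zp n K (-a) : 𝓞 K) : K) ^ i) (B := 1) zero_le_one
      (fun i => val_neg_norm τ (-a) _) (-1) ?_
    rw [hN]
    have h3 : |((-1 : ℤ) : ℝ)| = 1 := by norm_num
    rw [h3]
    linarith
  rw [h1, h2, V_neg_pow, V_neg_pow, zpow_neg_one]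
  unfold al lin
  have h4 : ∀ b : (ZMod n)ˣ, τ ((((x : 𝓞 K) - zp n K b : 𝓞 K)) : K) =
      (x : ℂ) * (1 - τ ((zp n K b : 𝓞 K) : K) * (1 / (x : ℂ))) := by
    intro b
    simp only [val_alg]
    rw [map_sub (algebraMap (𝓞 K) K), map_sub τ, map_natCast (algebraMap (𝓞 K) K),
      map_natCast τ]
    field_simp
  rw [map_div₀, h4, h4, mul_div_mul_left _ _ hx0]
  exact (div_eq_mul_inv _ _).symm

/-- the value for one exponent -/
private theorem val_V_one (hx : 1 < x) (τ : K →+* ℂ) (a : (ZMod n)ˣ) (m : ℤ)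
    (h : (1 + 2 * |(m : ℝ)|) * (1 / (x : ℝ)) ≤ 1 / 2) :
    V τ (1 / (x : ℂ)) (fun i => (m : K) * val_g n K a i) = τ (al n K x a) ^ m := by
  have hN := val_norm_inv x
  by_cases hm : m = 0
  · subst hm
    have h1 : (fun i => ((0 : ℤ) : K) * val_g n K a i) = fun _ => 0 := by
      funext i
      simp
    rw [h1, V_zero, zpow_zero]
  · have h1 : (1 : ℝ) ≤ |(m : ℝ)| := by exact_mod_cast Int.one_le_abs hm
    have hx0 : (0 : ℝ) ≤ 1 / (x : ℝ) := by positivity
    have h3 : 3 * (1 / (x : ℝ)) ≤ (1 + 2 * |(m : ℝ)|) * (1 / (x : ℝ)) :=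
      mul_le_mul_of_nonneg_right (by linarith) hx0
    rw [V_zsmul τ (B := 2) (by norm_num) (fun i => val_g_norm τ a _) m, val_V_g hx (by linarith)]
    rw [hN]
    calc (1 + |(m : ℝ)| * 2) * (1 / (x : ℝ)) = (1 + 2 * |(m : ℝ)|) * (1 / (x : ℝ)) := by ring
      _ ≤ 1 / 2 := h

private theorem val_V_sum (hx : 1 < x) (τ : K →+* ℂ) (s : H n → ℤ) (S : Finset (H n))
    (h : (1 + 2 * ∑ e ∈ S, |(s e : ℝ)|) * (1 / (x : ℝ)) ≤ 1 / 2) :
    V τ (1 / (x : ℂ)) (fun i => ∑ e ∈ S, (s e : K) * val_g n K (e : (ZMod n)ˣ) i) =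
      ∏ e ∈ S, τ (al n K x (e : (ZMod n)ˣ)) ^ s e := by
  classical
  have hx0 : (0 : ℝ) ≤ 1 / (x : ℝ) := by positivity
  have hN := val_norm_inv x
  induction S using Finset.induction_on with
  | empty =>
    simp only [Finset.sum_empty, Finset.prod_empty]
    exact V_zero τ _
  | insert e S he ih =>
    rw [Finset.sum_insert he] at h
    have hS : 0 ≤ ∑ e ∈ S, |(s e : ℝ)| := Finset.sum_nonneg fun _ _ => abs_nonneg _
    have he0 : 0 ≤ |(s e : ℝ)| := abs_nonneg _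
    have h1 : (1 + 2 * ∑ e ∈ S, |(s e : ℝ)|) * (1 / (x : ℝ)) ≤ 1 / 2 :=
      le_trans (mul_le_mul_of_nonneg_right (by linarith) hx0) h
    have h2 : (1 + 2 * |(s e : ℝ)|) * (1 / (x : ℝ)) ≤ 1 / 2 :=
      le_trans (mul_le_mul_of_nonneg_right (by linarith) hx0) h
    rw [Finset.prod_insert he, ← ih h1, ← val_V_one hx τ (e : (ZMod n)ˣ) (s e) h2]
    have h3 : (fun i => ∑ e ∈ insert e S, (s e : K) * val_g n K (e : (ZMod n)ˣ) i) =
        fun i => (s e : K) * val_g n K (e : (ZMod n)ˣ) i +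
          ∑ e ∈ S, (s e : K) * val_g n K (e : (ZMod n)ˣ) i := by
      funext i
      rw [Finset.sum_insert he]
    have hterm : ∀ (e : H n) (i : ℕ), ‖τ ((s e : K) * val_g n K (e : (ZMod n)ˣ) i)‖ ≤
        2 * |(s e : ℝ)| := by
      intro e i
      rw [map_mul, map_intCast, norm_mul, Complex.norm_intCast, mul_comm (2 : ℝ)]
      exact mul_le_mul_of_nonneg_left (val_g_norm τ _ _) (abs_nonneg _)
    rw [h3]
    refine V_add τ (B := 2 * |(s e : ℝ)|) (B' := 2 * ∑ e ∈ S, |(s e : ℝ)|) (by linarith)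
      (by linarith) (fun i => hterm e _) (fun i => ?_) ?_
    · rw [map_sum, Finset.mul_sum]
      exact (norm_sum_le _ _).trans (Finset.sum_le_sum fun e _ => hterm e _)
    · rw [hN]
      calc (1 + (2 * |(s e : ℝ)| + 2 * ∑ e ∈ S, |(s e : ℝ)|)) * (1 / (x : ℝ)) =
          (1 + 2 * (|(s e : ℝ)| + ∑ e ∈ S, |(s e : ℝ)|)) * (1 / (x : ℝ)) := by ring
        _ ≤ 1 / 2 := h

/-- the value of the formal series for `-ps s` -/
theorem V_ps (hx : 1 < x) (τ : K →+* ℂ) (s : H n → ℤ)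
    (h : (1 + 2 * ∑ e, |(s e : ℝ)|) / x ≤ 1 / 2) :
    V τ (1 / (x : ℂ)) (fun i => -((ps n K s i : 𝓞 K) : K)) = τ (pr n K x s) := by
  have h1 : (fun i => -((ps n K s i : 𝓞 K) : K)) =
      fun i => ∑ e : H n, (s e : K) * val_g n K (e : (ZMod n)ˣ) i := by
    funext i
    exact val_ps s i
  rw [div_eq_mul_one_div] at h
  rw [h1, val_V_sum hx τ s Finset.univ h]
  unfold pr
  rw [map_prod]
  refine Finset.prod_congr rfl fun e _ => ?_
  rw [map_zpow₀]

/-- a `q`-th root of unity close to `1` is `1` -/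
theorem root_one_of_near (hq : 2 ≤ q) {ξ : ℂ} (h : ξ ^ q = 1) (h1 : ‖ξ - 1‖ < 4 / q) : ξ = 1 := by
  have hq0 : (0 : ℝ) < q := by exact_mod_cast (by omega : 0 < q)
  have hn : ‖ξ‖ = 1 := Complex.norm_eq_one_of_pow_eq_one h (by omega)
  have h0 : ξ ≠ 0 := by
    intro h2
    rw [h2, norm_zero] at hn
    exact zero_ne_one hn
  have h2 := Complex.angle_le_mul_norm_sub hn norm_one
  rw [Complex.angle_one_right h0] at h2
  have h3 : |Complex.arg ξ| * q < 2 * Real.pi := by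
    have h4 : Real.pi / 2 * ‖ξ - 1‖ < Real.pi / 2 * (4 / q) :=
      mul_lt_mul_of_pos_left h1 (by positivity)
    have h5 : |Complex.arg ξ| < Real.pi / 2 * (4 / q) := lt_of_le_of_lt h2 h4
    have h6 : |Complex.arg ξ| * q < Real.pi / 2 * (4 / q) * q := mul_lt_mul_of_pos_right h5 hq0
    have h7 : Real.pi / 2 * (4 / q) * q = 2 * Real.pi := by
      field_simp
      ring
    linarith
  have h4 : ξ = Complex.exp (Complex.arg ξ * Complex.I) := by
    have h5 := Complex.norm_mul_exp_arg_mul_I ξ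
    rw [hn, Complex.ofReal_one, one_mul] at h5
    exact h5.symm
  have h5 : Complex.exp ((q : ℂ) * (Complex.arg ξ * Complex.I)) = 1 := by
    rw [Complex.exp_nat_mul, ← h4, h]
  obtain ⟨k, hk⟩ := Complex.exp_eq_one_iff.1 h5
  have h6 : (q : ℝ) * Complex.arg ξ = k * (2 * Real.pi) := by
    have h7 : ((q : ℂ) * Complex.arg ξ) * Complex.I = (k * (2 * Real.pi)) * Complex.I := by
      rw [mul_assoc, hk]
      ring
    have h8 := mul_right_cancel₀ Complex.I_ne_zero h7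
    exact_mod_cast h8
  have h7 : k = 0 := by
    by_contra hk0
    have h8 : (1 : ℝ) ≤ |(k : ℝ)| := by exact_mod_cast Int.one_le_abs hk0
    have h9 : |Complex.arg ξ| * q = |(k : ℝ)| * (2 * Real.pi) := by
      have h10 := congrArg abs h6
      rw [abs_mul, abs_mul, abs_of_pos hq0, abs_of_pos Real.two_pi_pos] at h10
      rw [← h10]
      ring
    have h10 : 1 * (2 * Real.pi) ≤ |(k : ℝ)| * (2 * Real.pi) :=
      mul_le_mul_of_nonneg_right h8 Real.two_pi_pos.le
    linarith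
  rw [h7, Int.cast_zero, zero_mul] at h6
  have h8 : Complex.arg ξ = 0 := by
    rcases mul_eq_zero.1 h6 with h9 | h9
    · exact absurd h9 hq0.ne'
    · exact h9
  rw [h4, h8, Complex.ofReal_zero, zero_mul, Complex.exp_zero]

private theorem val_ang (hx : 1 < x) (τ : K →+* ℂ) (s : H n → ℤ) :
    |ang n K x τ s| ≤ 7 / x * ∑ e, |(s e : ℝ)| := by
  unfold ang
  rw [Finset.mul_sum]
  refine (Finset.abs_sum_le_sum_abs _ _).trans (Finset.sum_le_sum fun e _ => ?_)
  rw [abs_mul, mul_comm]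
  exact mul_le_mul_of_nonneg_right (arg_al hx τ _) (abs_nonneg _)

theorem tail_le (hx : 1 < x) (hq : 2 ≤ q) {T : Finset (K →+* ℂ)} {s : H n → ℤ} {b : K}
    (hb : IsRt n q x T s b) {w : ℝ} (hw0 : 0 ≤ w) (hw : 2 * ∑ e, |(s e : ℝ)| ≤ w * q)
    (hxw : 4 * q * (1 + w) ≤ x) {τ : K →+* ℂ} (hτ : τ ∈ T) (N : ℕ) :
    ‖τ b - ∑ j ∈ range N, τ (Pj n K q s j) * (1 / (x : ℂ)) ^ j‖ ≤ 2 * ((1 + w) / x) ^ N := by
  have hq2 : (2 : ℝ) ≤ q := by exact_mod_cast hq
  have hq0 : (0 : ℝ) < q := by linarith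
  have hx0 : (0 : ℝ) < x := by exact_mod_cast (by omega : 0 < x)
  have hN := val_norm_inv x
  set g : ℕ → K := fun i => -((ps n K s i : 𝓞 K) : K) / (q : K) with hg
  set z : ℂ := 1 / (x : ℂ) with hz
  have hgB : ∀ i, ‖τ (g (i + 1))‖ ≤ w := by
    intro i
    simp only [hg]
    rw [map_div₀, map_neg, map_natCast, norm_div, norm_neg, Complex.norm_natCast,
      div_le_iff₀ hq0]
    exact (ps_norm τ s (i + 1)).trans hw
  have hw1 : (1 + w) * (1 / (x : ℝ)) ≤ 1 / (4 * q) := by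
    rw [mul_one_div, div_le_div_iff₀ hx0 (by linarith)]
    linarith
  have hq4 : 1 / (4 * (q : ℝ)) ≤ 1 / 8 := by
    apply one_div_le_one_div_of_le (by norm_num)
    linarith
  have hzB : (1 + w) * ‖z‖ ≤ 1 / 2 := by
    rw [hN]
    linarith
  have hqw : (1 + q * w) * (1 / (x : ℝ)) ≤ 1 / 4 := by
    rw [mul_one_div, div_le_div_iff₀ hx0 (by norm_num)]
    have : (0 : ℝ) ≤ q * w := mul_nonneg hq0.le hw0
    linarith
  -- the power of the value
  have hV : V τ z g ^ q = τ (pr n K x s) := by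
    have h1 : V τ z (fun i => (((q : ℕ) : ℤ) : K) * g i) = V τ z g ^ ((q : ℕ) : ℤ) := by
      refine V_zsmul τ hw0 hgB _ ?_
      rw [hN, Int.cast_natCast, Nat.abs_cast]
      linarith
    have h2 : (fun i => (((q : ℕ) : ℤ) : K) * g i) = fun i => -((ps n K s i : 𝓞 K) : K) := by
      funext i
      simp only [hg]
      rw [Int.cast_natCast, mul_div_cancel₀]
      exact_mod_cast (by omega : q ≠ 0)
    rw [h2, zpow_natCast] at h1
    rw [← h1]
    refine V_ps hx τ s ?_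
    rw [div_eq_mul_one_div]
    have h3 : (1 + 2 * ∑ e, |(s e : ℝ)|) * (1 / (x : ℝ)) ≤ (1 + q * w) * (1 / (x : ℝ)) := by
      apply mul_le_mul_of_nonneg_right _ (by positivity)
      linarith
    linarith
  -- the value is close to one
  have hV1 : ‖V τ z g - 1‖ ≤ 2 * ((1 + w) * (1 / (x : ℝ))) := by
    have h1 := V_tail τ hw0 hgB hzB 1
    rw [Finset.sum_range_one, ex_zero, map_one, pow_zero, mul_one, pow_one, hN] at h1
    exact h1
  -- the root is close to one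
  have hτb := hb.2 τ hτ
  have hb1 : ‖τ b - 1‖ ≤ 7 / 2 * (w * (1 / (x : ℝ))) := by
    rw [hτb, mul_comm]
    refine Real.norm_exp_I_mul_ofReal_sub_one_le.trans ?_
    rw [Real.norm_eq_abs, abs_div, Nat.abs_cast, div_le_iff₀ hq0]
    refine (val_ang hx τ s).trans ?_
    have h1 : 7 / (x : ℝ) * ∑ e, |(s e : ℝ)| ≤ 7 / (x : ℝ) * (w * q / 2) :=
      mul_le_mul_of_nonneg_left (by linarith) (by positivity)
    refine h1.trans (le_of_eq ?_)
    ring
  have hb2 : ‖τ b‖ = 1 := by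
    rw [hτb, Complex.norm_exp_ofReal_mul_I]
  have hb0 : τ b ≠ 0 := by
    intro h
    rw [h, norm_zero] at hb2
    exact zero_ne_one hb2
  have hξ : V τ z g / τ b = 1 := by
    refine root_one_of_near hq ?_ ?_
    · rw [div_pow, hV, ← map_pow, hb.1, div_self]
      exact (_root_.map_ne_zero τ).2 (pr_ne_zero hx s)
    · rw [div_sub_one hb0, norm_div, hb2, div_one]
      have h1 : ‖V τ z g - τ b‖ ≤ ‖V τ z g - 1‖ + ‖τ b - 1‖ := by
        have h2 := norm_sub_le (V τ z g - 1) (τ b - 1)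
        rwa [sub_sub_sub_cancel_right] at h2
      have h2 : w * (1 / (x : ℝ)) ≤ (1 + w) * (1 / (x : ℝ)) :=
        mul_le_mul_of_nonneg_right (by linarith) (by positivity)
      have h3 : 4 / (q : ℝ) = 16 * (1 / (4 * q)) := by
        field_simp
        ring
      have h4 : 0 < 1 / (4 * (q : ℝ)) := by positivity
      rw [h3]
      linarith
  have hVb : V τ z g = τ b := by
    rw [div_eq_one_iff_eq hb0] at hξ
    exact hξ
  have h1 := V_tail τ hw0 hgB hzB N
  rw [hVb, hN, mul_one_div] at h1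
  exact h1

end Pool.Agent.NLS
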